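import Pool.Agent.Lib.MP_a01f70_lc.GK.CoB

/-! The three patterns. All use `TL.per` for every `D ≥ 2`, then `sum_of_wtD`. A ground state `r` with `0 < r l`
has `0 < r (l + 2 * k * j)` for all integers `j`. -/

namespace Pool.Agent.GK
open Finset Polynomial

variable {m : ℕ} [NeZero m]

/-- the indicator of the multiples of `2 k` -/
noncomputable def codW (m k : ℕ) (l : ℤ) : O m := if (2 * k : ℤ) ∣ l then 1 else 0

theorem cod_pos {r : ℤ → ℝ} {c : ℝ} {k : ℕ} (hc : 0 < c) (hp : ∀ l, r (l + k) = -c * r l)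
    {j l : ℤ} (hj : 0 < r j) (h : (2 * k : ℤ) ∣ l - j) : 0 < r l := by
  obtain ⟨t, ht⟩ := h
  have h2 : ∀ l, r (l + 2 * k) = c * c * r l := fun l => by
    rw [two_mul, ← add_assoc, hp, hp]
    ring
  rw [show l = j + 2 * k * t by omega]
  clear ht
  induction t using Int.induction_on with
  | zero => simpa using hj
  | succ t ih =>
    rw [mul_add, mul_one, ← add_assoc, h2]
    positivity
  | pred t ih =>
    rw [show j + 2 * k * -(t : ℤ) = j + 2 * k * (-(t : ℤ) - 1) + 2 * k by ring, h2] at ih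
    exact (mul_pos_iff_of_pos_left (by positivity)).1 ih

omit [NeZero m] in
theorem cod_per (k : ℕ) (u v : O m) (j l : ℤ) :
    u * codW m k (l + 2 * k) + v * codW m k (l + 2 * k - j) =
      tz m 0 * (u * codW m k l + v * codW m k (l - j)) := by
  rw [tz_zero, one_mul, add_sub_right_comm]
  simp only [codW, dvd_add_self_right]

omit [NeZero m] in
theorem cod_zero {k : ℕ} {l : ℤ} (h0 : l ≠ 0) (h : |l| < 2 * k) : codW m k l = 0 :=
  if_neg fun h1 => h0 (Int.eq_zero_of_abs_lt_dvd h1 h)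

theorem cod_sum (D : ℕ) {k j : ℕ} (h0 : 0 < j) (hj : j < 2 * k) (u v : O m) :
    ∑ l ∈ range (2 * k), wtD m D (u * codW m k l + v * codW m k (l - j)) =
      wtD m D u + wtD m D v := by
  have h1 : codW m k 0 = 1 := if_pos (dvd_zero _)
  rw [sum_eq_add_of_mem 0 j (mem_range.2 (by omega)) (mem_range.2 hj) h0.ne fun l hl h2 => ?_]
  · rw [Nat.cast_zero, sub_self, h1, cod_zero (l := 0 - j) (by omega) (by rw [abs_lt]; omega),
      cod_zero (l := j) (by omega) (by rw [abs_lt]; omega)]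
    simp only [mul_one, mul_zero, add_zero, zero_add]
  · have h3 := mem_range.1 hl
    rw [cod_zero (l := l) (by omega) (by rw [abs_lt]; omega),
      cod_zero (l := l - j) (by omega) (by rw [abs_lt]; omega), mul_zero, mul_zero, add_zero,
      wtD_zero]

theorem cod_key {a b : (O m)[X]} (h : TL a b) {c : ℝ} {k : ℕ} (hm : BinMin (rl a) c k) {i : ℤ}
    {p : GR m ℤ} (hr : pl a * p = pl b * (1 + mon m (i, (k : ℤ)))) {D : ℕ} (hD : 2 ≤ D)
    {u v : O m} {j : ℕ} (h0 : 0 < j) (hj : j < 2 * k) (hv : v = 0 ∨ j < k)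
    (hY : ∀ f, sqc D (fun l => u * codW m k l + v * codW m k (l - j)) f =
      sqc D (codW m k) (f * p)) : wtD m D u + wtD m D v ≤ 2 := by
  have hc := hm.2.1.1
  have hk := hm.2.1.2.1
  have ha : pl a ≠ 0 := fun h1 => by
    have h2 := hm.1
    rw [rl_natDegree, pl_injective (h1.trans (map_zero _).symm), natDegree_zero] at h2
    exact h2.false
  obtain ⟨r, r1, r2, r3, r4, r5⟩ : ∃ r : ℤ → ℝ, act (rl a) r = 0 ∧ (∀ l, r (l + k) = -c * r l) ∧
      (∀ l, r l ≠ 0) ∧ 0 < r 0 ∧ (v = 0 ∨ 0 < r j) := by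
    rcases hv with hv | hv
    · obtain ⟨r, r1, r2, r3, r4, -⟩ := hm.ground_pos 0 0 (Or.inl rfl)
      exact ⟨r, r1, r2, r3, r4, Or.inl hv⟩
    · obtain ⟨r, r1, r2, r3, r4, r5⟩ := hm.ground_pos 0 j (Or.inr fun h1 => by
        have := Int.eq_zero_of_abs_lt_dvd h1 (by rw [abs_lt]; omega)
        omega)
      exact ⟨r, r1, r2, r3, r4, Or.inr r5⟩
  have h1 := h.per (D := D) (by omega) (x := fun l => 1 * codW m k l + tz m i * codW m k (l - k))
    (y := fun l => u * codW m k l + v * codW m k (l - j))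
    (valid_mul ha hr (Z := sqc D (codW m k)) (fun f => by simp only [sqc_binom, one_mul]) hY)
    r1 hc r2 r3 (fun l hl => by
      rw [codW, if_neg fun h2 => hl.not_gt (cod_pos hc r2 r4 (by rwa [sub_zero])), mul_zero,
        zero_add]
      rcases r5 with rfl | r5
      · exact zero_mul _
      · rw [codW, if_neg fun h2 => hl.not_gt (cod_pos hc r2 r5 h2), mul_zero])
    (fun l => ⟨0, cod_per k _ _ _ l⟩) fun l => ⟨0, cod_per k _ _ _ l⟩
  rw [cod_sum D h0 hj, cod_sum D hk (by omega), ← tz_zero, wtD_tz hD, wtD_tz hD] at h1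
  linarith

/-- `w l = if 2 k ∣ l then 1 else 0`, `x l = w l + tz i * w (l - k)`, `y l = κ * w l`, `valid_mul` with `Z = sqc D w`:
`wtD κ ≤ 2` -/
theorem TL.two {a b : (O m)[X]} (h : TL a b) {c : ℝ} {k : ℕ} (hm : BinMin (rl a) c k) {κ : O m}
    {i : ℤ} (hr : pl a * AddMonoidAlgebra.single 0 κ = pl b * (1 + mon m (i, (k : ℤ)))) :
    ∃ S : Finset ℤ, S.card ≤ 2 ∧ κ = ∑ e ∈ S, tz m e := by
  refine sum_of_wtD fun D hD => ?_
  have hk := hm.2.1.2.1
  have h1 := cod_key h hm hr hD (u := κ) (v := 0) hk (by omega) (Or.inl rfl) fun f => by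
    simp only [sqc_single, zero_mul, add_zero, sub_zero]
  rw [wtD_zero, add_zero] at h1
  exact_mod_cast h1

/-- the same `w`, `x`; `y l = κ * (w l + tz i' * w (l - k'))`, ground state positive at `0` and `k'`:
`2 * wtD κ ≤ 2` -/
theorem TL.one {a b : (O m)[X]} (h : TL a b) {c : ℝ} {k : ℕ} (hm : BinMin (rl a) c k) {κ : O m}
    {i i' : ℤ} {k' : ℕ} (h0 : 0 < k') (hk : k' < k)
    (hr : pl a * (AddMonoidAlgebra.single 0 κ * (1 + mon m (i', (k' : ℤ)))) =
      pl b * (1 + mon m (i, (k : ℤ)))) :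
    ∃ S : Finset ℤ, S.card ≤ 1 ∧ κ = ∑ e ∈ S, tz m e := by
  refine sum_of_wtD fun D hD => ?_
  have h1 := cod_key h hm hr hD (u := κ) (v := tz m i' * κ) h0 (by omega) (Or.inr hk) fun f => by
    rw [← mul_assoc f, sqc_binom, sqc_single]
    simp only [sub_zero, mul_add, mul_assoc, mul_left_comm κ]
  rw [wtD_tz_mul (by omega)] at h1
  push_cast
  linarith

end Pool.Agent.GK
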