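import Pool.Agent.Lib.MP_a01f70_lc.GK.CoB

namespace Pool.Agent.GK
open Finset Polynomial

variable {m : ℕ} [NeZero m]

/-- `O[u, 1/u] / (1 + β)` is torsion free: write `η = mon (0, j) * pl η₀` (`exists_pl`), divide `η₀` by the monic polynomial
`X ^ k + C (tz (-i))`; the remainder times `C s` is divisible by it (also after multiplication with powers of `X`,
which is a unit modulo it), so it is zero -/
theorem binom_dvd {η ζ : GR m ℤ} {s : O m} (hs : s ≠ 0) {i : ℤ} {k : ℕ} (hk : 0 < k)
    (h : η * AddMonoidAlgebra.single 0 s = ζ * (1 + mon m (i, (k : ℤ)))) :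
    ∃ ζ', η = ζ' * (1 + mon m (i, (k : ℤ))) := by
  have h1 : ∀ l : ℤ, ζ.coeff l = s * η.coeff l - ζ.coeff (l - k) * tz m i := fun l => by
    have := congrArg (fun f : GR m ℤ => f.coeff l) h
    simp only [mul_add, mul_one, mon, AddMonoidAlgebra.coeff_add, Finsupp.add_apply,
      AddMonoidAlgebra.coeff_mul_single_apply, neg_zero, add_zero, ← sub_eq_add_neg] at this
    linear_combination -this
  obtain ⟨L, hL⟩ := ζ.coeff.support.bddBelow
  have h2 : ∀ (n : ℕ) (l : ℤ), l < L + n → s ∣ ζ.coeff l := fun n => by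
    induction n with
    | zero =>
      intro l hl
      rw [Finsupp.notMem_support_iff.1 fun g => absurd (hL g) (by omega)]
      exact dvd_zero s
    | succ n ih =>
      intro l hl
      rw [h1]
      exact (dvd_mul_right _ _).sub ((ih _ (by omega)).mul_right _)
  choose c hc using fun l => h2 (l - L + 1).toNat l (by omega)
  have h3 : ζ = (∑ l ∈ ζ.coeff.support, AddMonoidAlgebra.single l (c l)) *
      AddMonoidAlgebra.single 0 s := by
    rw [sum_mul]
    refine (AddMonoidAlgebra.sum_coeff_single ζ).symm.trans (sum_congr rfl fun l _ => ?_)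
    rw [AddMonoidAlgebra.single_mul_single, add_zero, hc, mul_comm]
  rw [h3, mul_right_comm] at h
  exact ⟨_, mul_right_cancel₀ (AddMonoidAlgebra.single_ne_zero.2 hs) h⟩

theorem coe_pos {r : ℤ → ℝ} {c : ℝ} {k : ℕ} (hc : 0 < c) (hp : ∀ l, r (l + k) = -c * r l)
    (h0 : 0 < r 0) (j : ℤ) : 0 < r (2 * k * j) := by
  have h1 : ∀ l, r (l + 2 * k) = c ^ 2 * r l := fun l => by
    rw [two_mul, ← add_assoc, hp, hp]
    ring
  have h2 : 0 < c ^ 2 := by positivity
  induction j using Int.induction_on with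
  | zero => rwa [mul_zero]
  | succ j ih => rw [mul_add_one, h1]; exact mul_pos h2 ih
  | pred j ih =>
    rw [show 2 * (k : ℤ) * -j = 2 * k * (-j - 1) + 2 * k by ring, h1] at ih
    exact (mul_pos_iff_of_pos_left h2).1 ih

/-- The chain. `β = mon (i, k)`, `δ = tz (i' - i) ≠ 1`. If `η * pl b = ξ * pl a` then `η κ (1 + δ β) = ξ (1 + β)`, so
`η κ (1 - δ) = (ξ - η κ δ) (1 + β)` and `1 + β ∣ η` (`binom_dvd`).
`w l = if 2 k ∣ l then tz (i * (l / k)) else 0`, `x l = w l + tz i * w (l - k)` (a monomial on the lines `k ∣ l`),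
`g l = κ δ * (w l - tz i * w (l - k))`, which has `g l + tz i * g (l - k) = 0` because `w l = tz (2 i) * w (l - 2 k)`; so
`sqc D g` kills the multiples of `1 + β`. `y = κ * (w l + tz i' * w (l - k)) + g l = κ (1 + δ) * w l`.
`valid_mul`, `Valid.add_right`, `TL.per`: `wtD (κ (1 + δ)) ≤ 2` for `D ≥ 2`; `sum_of_wtD`. -/
theorem TL.chain {a b : (O m)[X]} (h : TL a b) {c : ℝ} {k : ℕ} (hm : BinMin (rl a) c k)
    {κ u : O m} (hκ : κ ≠ 0) (hu : u ≠ 0) {i i' : ℤ} (hi : i ≠ i')
    (ha : pl a = AddMonoidAlgebra.single 0 u * (1 + mon m (i, (k : ℤ))))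
    (hb : pl b = AddMonoidAlgebra.single 0 (κ * u) * (1 + mon m (i', (k : ℤ)))) :
    ∃ S : Finset ℤ, S.card ≤ 2 ∧ κ * (1 + tz m (i' - i)) = ∑ e ∈ S, tz m e := by
  have hc : 0 < c := hm.2.1.1
  have hk : 0 < k := hm.2.1.2.1
  obtain ⟨r, r1, r2, r3, r4, -⟩ := hm.ground_pos 0 0 (Or.inl rfl)
  obtain ⟨δ, hδ⟩ : ∃ δ, tz m (i' - i) = δ := ⟨_, rfl⟩
  have d1 : tz m i' = δ * tz m i := by rw [← hδ, ← tz_add, sub_add_cancel]
  have d2 : 1 - δ ≠ 0 := fun g => hi (by
    have := tz_injective (m := m) (tz_zero.trans ((sub_eq_zero.1 g).trans hδ.symm))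
    omega)
  have d3 : mon m (i', (k : ℤ)) = AddMonoidAlgebra.single 0 δ * mon m (i, (k : ℤ)) := by
    simp only [mon, AddMonoidAlgebra.single_mul_single, zero_add, d1]
  have d4 : ∀ x y : O m, (AddMonoidAlgebra.single 0 (x * y) : GR m ℤ) =
      AddMonoidAlgebra.single 0 x * AddMonoidAlgebra.single 0 y := fun x y => by
    rw [AddMonoidAlgebra.single_mul_single, zero_add]
  have hu' : (AddMonoidAlgebra.single 0 u : GR m ℤ) ≠ 0 := AddMonoidAlgebra.single_ne_zero.2 hu
  have hA : pl a ≠ 0 := fun g => by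
    have g1 : a = 0 := pl_injective (g.trans (map_zero _).symm)
    have g2 := hm.1
    rw [rl_natDegree, g1, natDegree_zero] at g2
    exact g2.false
  obtain ⟨w, hw⟩ : ∃ w : ℤ → O m, ∀ l, w l = if 2 * (k : ℤ) ∣ l then tz m (i * (l / k)) else 0 :=
    ⟨_, fun _ => rfl⟩
  have w0 : w 0 = 1 := by rw [hw, if_pos (dvd_zero _), Int.zero_ediv, mul_zero, tz_zero]
  have w1 : ∀ l : ℤ, l ≠ 0 → |l| < 2 * k → w l = 0 := fun l g g' => by
    rw [hw, if_neg fun q => g (Int.eq_zero_of_abs_lt_dvd q g')]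
  have w2 : ∀ l, w (l + 2 * k) = tz m (i + i) * w l := fun l => by
    simp only [hw, dvd_add_self_right]
    split_ifs
    · rw [← tz_add, Int.add_mul_ediv_right _ _ (by omega)]
      congr 1
      ring
    · rw [mul_zero]
  rw [hδ]
  refine sum_of_wtD fun D hD => ?_
  have v1 : Valid (pl a) (pl b) (sqc D fun l => w l + tz m i * w (l - k))
      (sqc D fun l => κ * (w l + tz m i' * w (l - k))) := by
    refine valid_mul hA (p := AddMonoidAlgebra.single 0 κ * (1 + mon m (i', (k : ℤ))))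
      (q := 1 + mon m (i, (k : ℤ))) (Z := sqc D w) ?_ (fun f => (sqc_binom D w i k f).symm)
      fun f => ?_
    · rw [ha, hb, d4]
      ring
    · rw [← mul_assoc, sqc_binom, sqc_single]
      simp only [sub_zero]
  have v2 := v1.add_right (G := sqc D fun l => κ * δ * (w l - tz m i * w (l - k))) fun η ξ g => by
    have g1 : η * AddMonoidAlgebra.single 0 κ * (1 + mon m (i', (k : ℤ))) =
        ξ * (1 + mon m (i, (k : ℤ))) := by
      refine mul_left_cancel₀ hu' ?_
      rw [ha, hb, d4] at g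
      linear_combination g
    obtain ⟨ζ, rfl⟩ := binom_dvd (η := η) (i := i)
      (ζ := ξ - η * AddMonoidAlgebra.single 0 κ * AddMonoidAlgebra.single 0 δ)
      (mul_ne_zero hκ d2) hk (by
        rw [d4, AddMonoidAlgebra.single_sub, ← AddMonoidAlgebra.one_def]
        rw [d3] at g1
        linear_combination g1)
    rw [sqc_binom]
    refine (congrArg (fun x => sqc D x ζ) (funext fun l => ?_)).trans
      (DFunLike.congr_fun (sqc_zero D) ζ)
    have := w2 (l - k - k)
    rw [show l - k - k + 2 * k = l by ring, tz_add] at this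
    rw [this, Pi.zero_apply]
    ring
  rw [← sqc_add, show ((fun l => κ * (w l + tz m i' * w (l - k))) +
      fun l => κ * δ * (w l - tz m i * w (l - k))) = fun l => κ * (1 + δ) * w l from
    funext fun l => by rw [Pi.add_apply, d1]; ring] at v2
  have p := h.per (by omega) v2 r1 hc r2 r3 (fun l g => by
      rw [hw, if_neg, mul_zero]
      rintro ⟨j, rfl⟩
      exact (coe_pos hc r2 r4 j).not_gt g)
    (fun l => ⟨i + i, by rw [add_sub_right_comm, w2, w2]; ring⟩)
    fun l => ⟨i + i, by rw [w2]; ring⟩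
  have p1 := single_le_sum (f := fun l : ℕ => wtD m D (κ * (1 + δ) * w l))
    (fun l _ => wtD_nonneg D _) (mem_range.2 (show 0 < 2 * k by omega))
  rw [Nat.cast_zero, w0, mul_one] at p1
  refine (p1.trans p).trans (le_of_eq ?_)
  rw [← sum_subset (s₁ := {0, k}) (fun l g => by
      rw [mem_insert, mem_singleton] at g
      rw [mem_range]
      omega) fun l g g' => by
      rw [mem_insert, mem_singleton] at g'
      rw [mem_range] at g
      rw [w1 l (by omega) (by rw [abs_lt]; omega), w1 (l - k) (by omega) (by rw [abs_lt]; omega),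
        mul_zero, add_zero, wtD_zero], sum_pair hk.ne, Nat.cast_zero, sub_self, w0,
    w1 (0 - k) (by omega) (by rw [abs_lt]; omega), w1 k (by omega) (by rw [abs_lt]; omega),
    mul_zero, add_zero, zero_add, mul_one, ← tz_zero, wtD_tz hD, wtD_tz hD]
  norm_num

end Pool.Agent.GK
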