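import Pool.Agent.Lib.MP_a01f70_lc.GK.OA

namespace Pool.Agent.GK
open Finset

variable {m : ℕ} [NeZero m]

/-- `co0_dyadic`, `co0_intCast_mul` -/
theorem three_not_unit (y : O m) : 3 * y ≠ 1 := by
  intro h
  obtain ⟨a, k, ha⟩ := co0_dyadic y
  have h1 := co0_intCast_mul 3 y
  have h2 := co0_tz (m := m) 0
  rw [tz_zero, if_pos (dvd_zero _), Int.zero_ediv, zpow_zero] at h2
  rw [Int.cast_ofNat, h, h2, ha, ← mul_div_assoc, eq_div_iff (by positivity), one_mul] at h1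
  have h3 : (2 : ℤ) ^ k = 3 * a := by exact_mod_cast h1
  exact absurd (Int.prime_three.dvd_of_dvd_pow ⟨a, h3⟩) (by norm_num)

/-- a nonzero sum of at most two distinct monomials -/
theorem sum_two_cases {S : Finset ℤ} (hS : S.card ≤ 2) (h0 : ∑ e ∈ S, tz m e ≠ 0) :
    (∃ j, ∑ e ∈ S, tz m e = tz m j) ∨
      ∃ j f : ℤ, 0 < f ∧ ∑ e ∈ S, tz m e = tz m j * (1 + tz m f) := by
  have key : ∀ a b : ℤ, a < b → ∃ j f : ℤ, 0 < f ∧ tz m a + tz m b = tz m j * (1 + tz m f) :=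
    fun a b h => ⟨a, b - a, sub_pos.2 h, by rw [mul_add, mul_one, ← tz_add, add_sub_cancel]⟩
  obtain h | h | h : S.card = 0 ∨ S.card = 1 ∨ S.card = 2 := by omega
  · rw [card_eq_zero.1 h] at h0
    exact absurd sum_empty h0
  · obtain ⟨a, rfl⟩ := card_eq_one.1 h
    exact Or.inl ⟨a, sum_singleton _ _⟩
  · obtain ⟨a, b, hab, rfl⟩ := card_eq_two.1 h
    rw [sum_pair hab]
    rcases lt_or_gt_of_ne hab with l | l
    · exact Or.inr (key a b l)
    · rw [add_comm]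
      exact Or.inr (key b a l)

theorem cof_card {f : ℤ} {T : Finset ℤ}
    (h : tz m f + tz m f + tz m f * tz m f = ∑ e ∈ T, tz m e) :
    T.card = 2 ∨ (f = m ∧ T.card = 1) := by
  rw [← two_mul, ← tz_add_m, ← tz_add] at h
  by_cases hf : f = m
  · refine Or.inr ⟨hf, ?_⟩
    rw [hf, ← two_mul (tz m _), ← tz_add_m, ← sum_singleton (tz m)] at h
    rw [← sum_tz_inj h, card_singleton]
  · have h1 : f + m ≠ f + f := fun e => hf (add_left_cancel e).symm
    rw [← sum_pair h1] at h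
    exact Or.inl (by rw [← sum_tz_inj h, card_pair h1])

omit [NeZero m] in
theorem cof_pos (f : ℤ) : (0 : ℝ) < (1 + tz m f : O m) := add_pos one_pos (tr_pos f)

omit [NeZero m] in
theorem cof_ne (f : ℤ) : 1 + tz m f ≠ 0 := fun e => (cof_pos f).ne' (congrArg Subtype.val e)

theorem cof_rep {κ : O m} (hκ : κ ≠ 0) {f : ℤ} {S : Finset ℤ} (hS : S.card ≤ 2)
    (h : κ * (1 + tz m f) = ∑ e ∈ S, tz m e) : ∃ (j : ℤ) (d : O m),
      κ * (1 + tz m f) = tz m j * (1 + d) ∧ (d = 0 ∨ ∃ e, 0 < e ∧ d = tz m e) := by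
  rcases sum_two_cases hS (h ▸ mul_ne_zero hκ (cof_ne f)) with ⟨j, e⟩ | ⟨j, g, hg, e⟩
  · exact ⟨j, 0, by rw [h, e, add_zero, mul_one], Or.inl rfl⟩
  · exact ⟨j, _, h.trans e, Or.inr ⟨g, hg, rfl⟩⟩

omit [NeZero m] in
theorem cof_Fil {d d' : O m} (h : d = 0 ∨ ∃ e, 0 < e ∧ d = tz m e)
    (h' : d' = 0 ∨ ∃ e, 0 < e ∧ d' = tz m e) : d + d' + d * d' ∈ Fil m 1 := by
  have key : ∀ d : O m, (d = 0 ∨ ∃ e, 0 < e ∧ d = tz m e) → d ∈ Fil m 1 := by
    rintro _ (rfl | ⟨e, he, rfl⟩)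
    exacts [zero_mem _, tz_mem_Fil he]
  exact add_mem (add_mem (key d h) (key d' h'))
    (Fil_anti (by norm_num) (mul_mem_Fil (key d h) (key d' h')))

theorem cof_zero {κ d : O m} {f j : ℤ} (h : κ * (1 + tz m f) = tz m j)
    (hd : d = 0 ∨ ∃ e, 0 < e ∧ d = tz m e) (e : tz m f + tz m f + tz m f * tz m f = d) : False := by
  have hf : f = m := by
    rcases hd with rfl | ⟨g, -, rfl⟩
    · simpa using cof_card (T := ∅) e
    · simpa using cof_card (T := {g}) (e.trans (sum_singleton _ _).symm)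
  rw [hf, tz_m] at h
  refine three_not_unit (κ * tz m (-j)) ?_
  rw [← tz_mul_neg j, ← h]
  ring

/-- The case `f > 0`. With `δ = tz f`: `κ (1 + δ) = tz j₁ (1 + d₁)`, `κ' (1 + δ) = tz j₂ (1 + d₂)`, `d = 0` or `d = tz e`, `e > 0`.
The product and `lead_mul`, `lead_unique` give `j₁ + j₂ = 0`, so `2 δ + δ ^ 2 = d₁ + d₂ + d₁ d₂`. The left side is
`tz (f + m) + tz (2 f)`: two distinct monomials if `f ≠ m`, the monomial `tz (3 m)` if `f = m`.
`d₁ = d₂` forces `d₁ = δ` (real numbers), then `κ = tz j₁`. Both nonzero and different: three distinct monomials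
on the right, against `sum_tz_inj`. `d₁ = 0`: `f = m`, `3 κ = tz j₁`, against `three_not_unit`; `d₂ = 0` likewise. -/
theorem mono_of_sq_pos {κ κ' : O m} (hκ : κ * κ' = 1) {f : ℤ} (hf : 0 < f) {S S' : Finset ℤ}
    (hS : S.card ≤ 2) (hS' : S'.card ≤ 2) (h : κ * (1 + tz m f) = ∑ e ∈ S, tz m e)
    (h' : κ' * (1 + tz m f) = ∑ e ∈ S', tz m e) : ∃ j, κ = tz m j := by
  obtain ⟨j, d, e1, hd⟩ := cof_rep (left_ne_zero_of_mul_eq_one hκ) hS h
  obtain ⟨j', d', e2, hd'⟩ := cof_rep (right_ne_zero_of_mul_eq_one hκ) hS' h'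
  have e3 : 1 + (tz m f + tz m f + tz m f * tz m f) = tz m (j + j') * (1 + (d + d' + d * d')) := by
    rw [tz_add]
    linear_combination (κ' * (1 + tz m f)) * e1 + (tz m j * (1 + d)) * e2 - (1 + tz m f) ^ 2 * hκ
  have e4 : 0 = j + j' := by
    refine lead_unique (m := m) (x := 1 + (tz m f + tz m f + tz m f * tz m f)) ?_ ?_
    · rw [tz_zero, add_sub_cancel_left, zero_add]
      exact cof_Fil (Or.inr ⟨f, hf, rfl⟩) (Or.inr ⟨f, hf, rfl⟩)
    · rw [e3, mul_add, mul_one, add_sub_cancel_left]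
      exact mul_mem_Fil (tz_mem_Fil le_rfl) (cof_Fil hd hd')
  rw [← e4, tz_zero, one_mul, add_right_inj] at e3
  rcases hd with rfl | ⟨g, hg, rfl⟩
  · rw [add_zero, mul_one] at e1
    exact (cof_zero e1 hd' (by rw [e3, zero_add, zero_mul, add_zero])).elim
  rcases hd' with rfl | ⟨g', hg', rfl⟩
  · rw [add_zero, mul_one] at e2
    exact (cof_zero e2 (Or.inr ⟨g, hg, rfl⟩) (by rw [e3, add_zero, mul_zero, add_zero])).elim
  by_cases hgg : g = g'
  · subst hgg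
    have e5 : (1 + tz m f) ^ 2 = (1 + tz m g) ^ 2 := by linear_combination e3
    have e6 : 1 + tz m f = 1 + tz m g := Subtype.ext
      ((pow_left_inj₀ (cof_pos f).le (cof_pos g).le two_ne_zero).1 (congrArg Subtype.val e5))
    rw [← e6] at e1
    exact ⟨j, mul_right_cancel₀ (cof_ne f) e1⟩
  · have h1 : g' ≠ g + g' := by omega
    have h2 : g ∉ ({g', g + g'} : Finset ℤ) := by
      rw [mem_insert, mem_singleton]
      omega
    have h3 := cof_card (m := m) (f := f) (T := {g, g', g + g'})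
      (by rw [e3, sum_insert h2, sum_pair h1, tz_add, add_assoc])
    rw [card_insert_of_notMem h2, card_pair h1] at h3
    omega

omit [NeZero m] in
theorem cof_shift {κ : O m} {f : ℤ} {S : Finset ℤ} (h : κ * (1 + tz m (-f)) = ∑ e ∈ S, tz m e) :
    κ * (1 + tz m f) = ∑ e ∈ S.map (addRightEmbedding f), tz m e := by
  simp only [sum_map, addRightEmbedding_apply, tz_add]
  rw [← sum_mul, ← h]
  linear_combination -κ * tz_mul_neg (m := m) f

/-- multiply one of the two identities by `tz (± f)` (shift the set), then `mono_of_sq_pos` -/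
theorem mono_of_sq {κ κ' : O m} (hκ : κ * κ' = 1) {f : ℤ} (hf : f ≠ 0) {S S' : Finset ℤ}
    (hS : S.card ≤ 2) (hS' : S'.card ≤ 2) (h : κ * (1 + tz m f) = ∑ e ∈ S, tz m e)
    (h' : κ' * (1 + tz m (-f)) = ∑ e ∈ S', tz m e) : ∃ j, κ = tz m j := by
  rcases lt_or_gt_of_ne hf with l | l
  · exact mono_of_sq_pos hκ (neg_pos.2 l) ((card_map _).trans_le hS) hS'
      (cof_shift (by rwa [neg_neg])) h'
  · exact mono_of_sq_pos hκ l hS ((card_map _).trans_le hS') h (cof_shift h')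

/-- `tz j = tz (j - m) + tz (j - m)` -/
theorem sum_two_eq {S : Finset ℤ} (hS : S.card ≤ 2) (h0 : ∑ e ∈ S, tz m e ≠ 0) :
    ∃ j j', ∑ e ∈ S, tz m e = tz m j + tz m j' := by
  rcases sum_two_cases hS h0 with ⟨j, e⟩ | ⟨j, f, -, e⟩
  · exact ⟨j - m, j - m, by rw [e, ← two_mul, ← tz_add_m, sub_add_cancel]⟩
  · exact ⟨j, j + f, by rw [e, mul_add, mul_one, tz_add]⟩

end Pool.Agent.GK
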