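import Pool.Agent.Lib.MP_a01f70_lc.GK.OA

/-! Group rings over `O m`. -/

namespace Pool.Agent.GK
open Finset Polynomial

variable {m : ℕ} {Λ : Type}

theorem lines_single {S : Type} [AddCommGroup S] (ω : Λ → O m →+ S) (v : Λ) (r : O m) :
    lines ω (AddMonoidAlgebra.single v r) = ω v r := by
  simp [lines]

theorem lines_mon {S : Type} [AddCommGroup S] (ω : Λ → O m →+ S) (γ : ℤ × Λ) :
    lines ω (mon m γ) = ω γ.2 (tz m γ.1) := lines_single ω γ.2 _

theorem lines_apply {S : Type} [AddCommGroup S] (ω : Λ → O m →+ S) (f : GR m Λ) :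
    lines ω f = ∑ v ∈ f.coeff.support, ω v (f.coeff v) := rfl

theorem GR_induction {p : GR m Λ → Prop} (h0 : p 0) (hm : ∀ γ, p (mon m γ))
    (ha : ∀ x y, p x → p y → p (x + y)) (hn : ∀ x, p x → p (-x)) (x : GR m Λ) : p x := by
  refine AddMonoidAlgebra.induction_linear x h0 ha fun v r => ?_
  refine O_induction (p := fun r => p (AddMonoidAlgebra.single v r)) ?_ (fun e => hm (e, v))
    (fun a b h1 h2 => ?_) (fun a h1 => ?_) r
  · rwa [AddMonoidAlgebra.single_zero]
  · rw [AddMonoidAlgebra.single_add]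
    exact ha _ _ h1 h2
  · rw [AddMonoidAlgebra.single_neg]
    exact hn _ h1

theorem GR_ext {S : Type} [AddCommGroup S] {Z Z' : GR m Λ →+ S}
    (h : ∀ γ, Z (mon m γ) = Z' (mon m γ)) : Z = Z' := by
  refine AddMonoidHom.ext (GR_induction ?_ h (fun x y h1 h2 => ?_) fun x h1 => ?_)
  · rw [map_zero, map_zero]
  · rw [map_add, map_add, h1, h2]
  · rw [map_neg, map_neg, h1]

theorem exists_sum_mon (f : GR m Λ) :
    ∃ (k : ℕ) (c : Fin k → ℤ) (γ : Fin k → ℤ × Λ), f = ∑ j, c j • mon m (γ j) := by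
  refine GR_induction (p := fun f => ∃ (k : ℕ) (c : Fin k → ℤ) (γ : Fin k → ℤ × Λ),
    f = ∑ j, c j • mon m (γ j)) ⟨0, Fin.elim0, Fin.elim0, by simp⟩
    (fun γ => ⟨1, fun _ => 1, fun _ => γ, by simp⟩) ?_ ?_ f
  · rintro _ _ ⟨k, c, γ, rfl⟩ ⟨k', c', γ', rfl⟩
    exact ⟨k + k', Fin.append c c', Fin.append γ γ', by
      simp only [Fin.sum_univ_add, Fin.append_left, Fin.append_right]⟩
  · rintro _ ⟨k, c, γ, rfl⟩
    exact ⟨k, fun j => -c j, γ, by simp only [neg_smul, sum_neg_distrib]⟩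

theorem mon_ne_zero (γ : ℤ × Λ) : mon m γ ≠ 0 := fun h =>
  tz_ne_zero γ.1 (AddMonoidAlgebra.single_eq_zero.1 h)


variable [AddCommGroup Λ]

theorem mon_add (γ γ' : ℤ × Λ) : mon m (γ + γ') = mon m γ * mon m γ' := by
  rw [mon, mon, mon, AddMonoidAlgebra.single_mul_single, Prod.fst_add, Prod.snd_add, tz_add]

theorem mon_zero : mon m (0 : ℤ × Λ) = 1 := by
  rw [mon, Prod.fst_zero, Prod.snd_zero, tz_zero, AddMonoidAlgebra.one_def]

theorem mon_mul_neg (γ : ℤ × Λ) : mon m γ * mon m (-γ) = 1 := by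
  rw [← mon_add, add_neg_cancel, mon_zero]

theorem isUnit_mon (γ : ℤ × Λ) : IsUnit (mon m γ) := IsUnit.of_mul_eq_one _ (mon_mul_neg γ)

theorem mon_pow (γ : ℤ × Λ) (k : ℕ) : mon m γ ^ k = mon m (k • γ) := by
  induction k with
  | zero => rw [pow_zero, zero_smul, mon_zero]
  | succ k ih => rw [pow_succ, ih, succ_nsmul, mon_add]

theorem mon_mul_single (γ : ℤ × Λ) (v : Λ) (r : O m) :
    mon m γ * AddMonoidAlgebra.single v r = AddMonoidAlgebra.single (γ.2 + v) (tz m γ.1 * r) :=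
  AddMonoidAlgebra.single_mul_single _ _ _ _

theorem spec_single {Λ' : Type} [AddCommGroup Λ'] (φ : Λ →+ Λ') (v : Λ) (r : O m) :
    spec m φ (AddMonoidAlgebra.single v r) = AddMonoidAlgebra.single (φ v) r :=
  AddMonoidAlgebra.mapDomain_single

theorem spec_mon {Λ' : Type} [AddCommGroup Λ'] (φ : Λ →+ Λ') (γ : ℤ × Λ) :
    spec m φ (mon m γ) = mon m (γ.1, φ γ.2) := spec_single φ _ _

theorem spec_eq_zero {Λ' : Type} [AddCommGroup Λ'] (φ : Λ →+ Λ') {f : GR m Λ}
    (hφ : Set.InjOn φ f.coeff.support) (h : spec m φ f = 0) : f = 0 := by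
  have h1 : Finsupp.mapDomain φ f.coeff = 0 := congrArg AddMonoidAlgebra.coeff h
  refine AddMonoidAlgebra.coeff_eq_zero.1 (Finsupp.ext fun v => ?_)
  by_contra hv
  have h2 := Finsupp.mapDomain_apply' _ f.coeff Set.Subset.rfl hφ
    (mem_coe.2 (Finsupp.mem_support_iff.2 hv))
  rw [h1] at h2
  exact hv h2.symm

theorem evC_single (ρ : ℂˣ) (l : ℤ) (r : O m) :
    evC m ρ (AddMonoidAlgebra.single l r) = ((r : ℝ) : ℂ) * ((ρ ^ l : ℂˣ) : ℂ) :=
  AddMonoidAlgebra.liftNCRingHom_single _ _ _ _ _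

theorem evC_mon (ρ : ℂˣ) (γ : ℤ × ℤ) :
    evC m ρ (mon m γ) = (tr m γ.1 : ℂ) * ((ρ ^ γ.2 : ℂˣ) : ℂ) := evC_single ρ _ _

theorem grb_pl_monomial (k : ℕ) (r : O m) :
    pl (monomial k r) = AddMonoidAlgebra.single (k : ℤ) r :=
  (toLaurent_C_mul_T k r).trans (LaurentPolynomial.single_eq_C_mul_T r k).symm

theorem evC_pl (ρ : ℂˣ) (a : (O m)[X]) : evC m ρ (pl a) = aeval (ρ : ℂ) (rl a) := by
  induction a using Polynomial.induction_on' with
  | add p q hp hq => rw [map_add, map_add, hp, hq, rl, rl, rl, Polynomial.map_add, map_add]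
  | monomial k r =>
    rw [grb_pl_monomial, evC_single, rl, Polynomial.map_monomial, aeval_monomial, zpow_natCast,
      Units.val_pow_eq_pow_val]
    rfl

theorem pl_monomial (k : ℕ) (r : O m) :
    pl (monomial k r) = AddMonoidAlgebra.single (k : ℤ) r := grb_pl_monomial k r

theorem pl_C (r : O m) : pl (C r) = AddMonoidAlgebra.single (0 : ℤ) r := pl_monomial 0 r

theorem pl_binom (i : ℤ) (k : ℕ) : pl (1 + C (tz m i) * X ^ k) = 1 + mon m (i, (k : ℤ)) := by
  rw [map_add, map_one, C_mul_X_pow_eq_monomial, pl_monomial]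
  rfl

theorem pl_injective : Function.Injective (pl : (O m)[X] → GR m ℤ) := Polynomial.toLaurent_injective

theorem rl_injective : Function.Injective (rl : (O m)[X] → ℝ[X]) :=
  Polynomial.map_injective _ (O m).subtype_injective

theorem rl_mul (a b : (O m)[X]) : rl (a * b) = rl a * rl b := Polynomial.map_mul _

theorem rl_coeff (a : (O m)[X]) (k : ℕ) : (rl a).coeff k = (a.coeff k : ℝ) := coeff_map _ _

theorem rl_natDegree (a : (O m)[X]) : (rl a).natDegree = a.natDegree :=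
  natDegree_map_eq_of_injective (O m).subtype_injective _

theorem exists_pl {f : GR m ℤ} (h : f ≠ 0) :
    ∃ (j : ℤ) (a : (O m)[X]), a.coeff 0 ≠ 0 ∧ f = mon m (0, j) * pl a := by
  obtain ⟨n, f', hf⟩ := LaurentPolynomial.exists_T_pow f
  have h0 : f' ≠ 0 := by
    rintro rfl
    rw [map_zero] at hf
    exact h ((LaurentPolynomial.isUnit_T n).mul_left_eq_zero.1 hf.symm)
  obtain ⟨a, ha, hd⟩ := exists_eq_pow_rootMultiplicity_mul_and_not_dvd f' h0 0
  rw [map_zero, sub_zero] at ha hd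
  generalize rootMultiplicity 0 f' = k at ha
  refine ⟨k - n, a, fun e => hd (X_dvd_iff.2 e), ?_⟩
  have e1 : mon m (0, (k : ℤ) - n) = (LaurentPolynomial.T (k - n) : LaurentPolynomial (O m)) := by
    rw [mon, tz_zero]
    rfl
  rw [ha, map_mul, toLaurent_X_pow] at hf
  refine (LaurentPolynomial.isUnit_T (n : ℤ)).mul_right_cancel (hf.symm.trans ?_)
  rw [e1, mul_right_comm, ← LaurentPolynomial.T_add, sub_add_cancel]
  rfl


variable [NeZero m]

theorem mon_sig : mon m ((m : ℤ), (0 : Λ)) = 2 := by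
  rw [mon, tz_m, ← one_add_one_eq_two, AddMonoidAlgebra.single_add, ← AddMonoidAlgebra.one_def,
    one_add_one_eq_two]

theorem mon_add_sig (γ : ℤ × Λ) : mon m (γ + ((m : ℤ), 0)) = 2 • mon m γ := by
  rw [mon_add, mon_sig, two_smul, mul_two]

theorem mon_injective : Function.Injective (mon m : ℤ × Λ → GR m Λ) := by
  intro γ γ' h
  rcases Finsupp.single_eq_single_iff _ _ _ _ |>.1 (congrArg AddMonoidAlgebra.coeff h) with h1 | h1
  · exact Prod.ext (tz_injective h1.2) h1.1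
  · exact absurd h1.1 (tz_ne_zero _)

theorem chG_mon {S : Type} [AddCommGroup S] {θ : ℤ × Λ → S}
    (h : ∀ γ, θ (γ + ((m : ℤ), 0)) = 2 • θ γ) (γ : ℤ × Λ) : chG m θ (mon m γ) = θ γ := by
  have h1 : ∃ Z : GR m Λ →+ S, ∀ γ, Z (mon m γ) = θ γ :=
    ⟨lines fun v => chO m fun e => θ (e, v), fun γ => by
      rw [lines_mon, chO_tz fun e => by simpa using h (e, γ.2)]⟩
  rw [chG, dif_pos h1]
  exact h1.choose_spec γ

theorem exists_liftG {S : Type} [CommRing S] (χ : Multiplicative (ℤ × Λ) →* S)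
    (h : χ (Multiplicative.ofAdd ((m : ℤ), 0)) = 2) :
    ∃ f : GR m Λ →+* S, ∀ γ, f (mon m γ) = χ (Multiplicative.ofAdd γ) := by
  have h1 : ∀ e : ℤ, χ.toHomUnits (Multiplicative.ofAdd ((1 : ℤ), (0 : Λ))) ^ e =
      χ.toHomUnits (Multiplicative.ofAdd (e, 0)) := fun e => by
    rw [← map_zpow, ← ofAdd_zsmul, Prod.smul_mk, smul_zero, smul_eq_mul, mul_one]
  obtain ⟨f, hf⟩ := exists_lift (m := m) (χ.toHomUnits (Multiplicative.ofAdd ((1 : ℤ), (0 : Λ))))
    (by rw [← Units.val_pow_eq_pow_val, ← zpow_natCast, h1, MonoidHom.coe_toHomUnits, h])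
  refine ⟨AddMonoidAlgebra.liftNCRingHom f (χ.comp (AddMonoidHom.inr ℤ Λ).toMultiplicative)
    fun _ _ => Commute.all _ _, fun γ => ?_⟩
  rw [mon, AddMonoidAlgebra.liftNCRingHom_single, hf, h1, MonoidHom.coe_toHomUnits,
    MonoidHom.comp_apply, ← map_mul]
  congr 1
  exact congrArg Multiplicative.ofAdd (Prod.ext (add_zero _) (zero_add _))

/-- a representation with one monomial in each class modulo `σ` -/
theorem exists_sum_classes (f : GR m Λ) :
    ∃ (k : ℕ) (c : Fin k → ℤ) (γ : Fin k → ℤ × Λ), (∀ j, c j ≠ 0) ∧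
      (∀ j j' (a : ℤ), γ j = γ j' + a • ((m : ℤ), 0) → j = j') ∧
      f = ∑ j, c j • mon m (γ j) := by
  classical
  have ex := exists_sum_mon f
  have hmin := fun k => Nat.find_min ex (m := k)
  obtain ⟨c, γ, hf⟩ := Nat.find_spec ex
  generalize Nat.find ex = k at hmin c γ hf
  have key : ∀ c : Fin k → ℤ, f = ∑ j, c j • mon m (γ j) → ∀ j, c j ≠ 0 := by
    intro c hc j hj
    obtain _ | k := k
    · exact j.elim0
    refine hmin k (Nat.lt_succ_self k) ⟨fun i => c (j.succAbove i), fun i => γ (j.succAbove i), ?_⟩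
    rw [hc, Fin.sum_univ_succAbove _ j, hj, zero_smul, zero_add]
  have pw : ∀ (n : ℕ) (δ : ℤ × Λ),
      mon m (δ + (n : ℤ) • ((m : ℤ), 0)) = (2 : ℤ) ^ n • mon m δ := by
    intro n δ
    induction n with
    | zero => simp
    | succ n ih =>
      rw [Nat.cast_succ, add_smul, one_smul, ← add_assoc, mon_add_sig, ih, pow_succ', mul_smul,
        two_smul, two_smul]
  have one : ∀ j j' (n : ℕ), γ j = γ j' + (n : ℤ) • ((m : ℤ), 0) → j = j' := by
    intro j j' n h
    by_contra hne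
    refine key (c + Pi.single j' (c j * 2 ^ n) - Pi.single j (c j)) ?_ j (by simp [hne])
    simp only [Pi.sub_apply, Pi.add_apply, sub_smul, add_smul, sum_sub_distrib, sum_add_distrib,
      Pi.single_apply, ite_smul, zero_smul, sum_ite_eq', mem_univ, if_true]
    rw [← hf, h, pw, mul_smul, add_sub_cancel_right]
  refine ⟨k, c, γ, key c hf, fun j j' a h => ?_, hf⟩
  obtain ⟨n, rfl | rfl⟩ := a.eq_nat_or_neg
  · exact one j j' n h
  · exact (one j' j n (by rw [h, neg_smul, neg_add_cancel_right])).symm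


end Pool.Agent.GK
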