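import Pool.Agent.Lib.MP_a01f70_lc.GK.GS
import Pool.Agent.Lib.MP_a01f70_lc.GK.GRb

namespace Pool.Agent.GK
open Finset Polynomial

variable {m : ℕ} [NeZero m]

omit [NeZero m] in
theorem cog_coeff_mem (a : (O m)[X]) (k : ℕ) : (rl a).coeff k ∈ KK m := by
  rw [rl_coeff]
  exact O_le_KK (a.coeff k).2

omit [NeZero m] in
theorem cog_C (r : O m) : rl (C r) = C (r : ℝ) := Polynomial.map_C _

omit [NeZero m] in
theorem cog_binom (i : ℤ) (k : ℕ) : rl (1 + C (tz m i) * X ^ k) = 1 + C (tr m i) * X ^ k := by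
  unfold rl
  rw [Polynomial.map_add, Polynomial.map_one, Polynomial.map_mul, Polynomial.map_pow,
    Polynomial.map_C, Polynomial.map_X]
  rfl

/-- `rl a` comes from `(KK m)[X]`; the remainder of `X ^ k` modulo it is `C (-1 / c)` (`Polynomial.map_mod`) -/
theorem Bin.mem_KK {a : (O m)[X]} (h0 : 0 < a.natDegree) {c : ℝ} {k : ℕ} (h : Bin (rl a) c k) :
    c ∈ KK m := by
  obtain ⟨A, hA⟩ : ∃ A : (KK m)[X], A.map (KK m).subtype = rl a := by
    rw [← Polynomial.mem_lifts, Polynomial.lifts_iff_coeff_lifts]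
    exact fun n => ⟨⟨_, cog_coeff_mem a n⟩, rfl⟩
  have hd : 0 < (rl a).natDegree := by rwa [rl_natDegree]
  have ha : rl a ≠ 0 := fun e => by simp [e] at hd
  have hR : ((X ^ k : (KK m)[X]) % A).map (KK m).subtype = X ^ k % rl a := by
    rw [Polynomial.map_mod, hA, Polynomial.map_pow, Polynomial.map_X]
  have h1 : rl a ∣ 1 + C c * (X ^ k % rl a) := by
    have e : 1 + C c * (X ^ k % rl a) = (1 + C c * X ^ k) - rl a * (C c * (X ^ k / rl a)) := by
      rw [EuclideanDomain.mod_eq_sub_mul_div]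
      ring
    rw [e]
    exact dvd_sub h.2.2 (dvd_mul_right _ _)
  have h2 : (1 + C c * (X ^ k % rl a)).degree < (rl a).degree := by
    refine (degree_add_le _ _).trans_lt (max_lt ?_ ?_)
    · rw [degree_one]
      exact natDegree_pos_iff_degree_pos.1 hd
    · rw [degree_C_mul h.1.ne']
      exact EuclideanDomain.mod_lt _ ha
  have h3 := congrArg (fun p => coeff p 0) (eq_zero_of_dvd_of_degree_lt h1 h2)
  simp only [coeff_add, coeff_one_zero, coeff_C_mul, coeff_zero] at h3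
  rw [← hR, coeff_map] at h3
  have h4 : c = -(((KK m).subtype (((X ^ k : (KK m)[X]) % A).coeff 0))⁻¹) := by
    rw [eq_neg_iff_add_eq_zero, add_eq_zero_iff_neg_eq]
    exact eq_inv_of_mul_eq_one_left (by linear_combination -h3)
  rw [h4]
  exact neg_mem (inv_mem (Subtype.property _))

/-- `BinMin.dvd`, `eq_tr_of_pow` -/
theorem BinMin.eq_tr {a : (O m)[X]} {c : ℝ} {k : ℕ} (h : BinMin (rl a) c k) {i : ℤ} {k' : ℕ}
    (h' : Bin (rl a) (tr m i) k') : ∃ e, c = tr m e := by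
  obtain ⟨s, hs, -, h2⟩ := h.dvd h'
  exact eq_tr_of_pow (h.2.1.mem_KK (rl_natDegree a ▸ h.1)) h.2.1.1 hs.pos h2.symm

/-- two binomials with a common complex root (take norms) -/
theorem pow_eq_of_root {c c' : ℝ} (hc : 0 < c) (hc' : 0 < c') {k k' : ℕ} {ρ : ℂ}
    (h : 1 + c * ρ ^ k = 0) (h' : 1 + c' * ρ ^ k' = 0) : c ^ k' = c' ^ k := by
  have key : ∀ {x : ℝ} {j : ℕ}, 0 < x → 1 + x * ρ ^ j = 0 → x * ‖ρ‖ ^ j = 1 := by
    intro x j hx e
    have e1 : (x : ℂ) * ρ ^ j = -1 := by linear_combination e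
    have e2 := congrArg norm e1
    rwa [norm_mul, norm_pow, norm_neg, norm_one, Complex.norm_real, Real.norm_of_nonneg hx.le] at e2
  have h1 : c ^ k' * ‖ρ‖ ^ (k * k') = 1 := by rw [pow_mul, ← mul_pow, key hc h, one_pow]
  have h2 : c' ^ k * ‖ρ‖ ^ (k * k') = 1 := by
    rw [mul_comm k, pow_mul, ← mul_pow, key hc' h', one_pow]
  linear_combination c' ^ k * h1 - c ^ k' * h2

theorem cog_aeval (ρ : ℂ) (c : ℝ) (k : ℕ) :
    aeval ρ (1 + C c * X ^ k : ℝ[X]) = 1 + c * ρ ^ k := by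
  simp

/-- The constant of the numerator. `c' ∈ KK m` by the coefficients at `k'`. A complex root of `1 + c' X ^ k'` is a root of
`rl b` (then `b` is not constant and it is a root of the binomial in `hb`) or of `1 + tr e X ^ k`;
`pow_eq_of_root`, `tr_pow`, `eq_tr_of_pow`. -/
theorem num_eq_tr {a b : (O m)[X]} (ha0 : a.coeff 0 ≠ 0) (hb0 : b.coeff 0 ≠ 0)
    (hb : b.natDegree = 0 ∨ ∃ (i : ℤ) (k : ℕ), Bin (rl b) (tr m i) k) {e : ℤ} {k k' : ℕ} {c' : ℝ}
    (hk : 0 < k) (hk' : 0 < k') (hc' : 0 < c')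
    (h : C ((rl a).coeff 0) * rl b * (1 + C (tr m e) * X ^ k) =
      C ((rl b).coeff 0) * rl a * (1 + C c' * X ^ k')) : ∃ e', c' = tr m e' := by
  have ha1 : (rl a).coeff 0 ≠ 0 := by
    rw [rl_coeff]
    exact fun e => ha0 (Subtype.ext e)
  have hb1 : (rl b).coeff 0 ≠ 0 := by
    rw [rl_coeff]
    exact fun e => hb0 (Subtype.ext e)
  have hK : c' ∈ KK m := by
    have h1 : rl (b * (1 + C (tz m e) * X ^ k)) = rl b * (1 + C (tr m e) * X ^ k) := by
      rw [rl_mul, cog_binom]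
    have h2 : C ((rl a).coeff 0) * rl (b * (1 + C (tz m e) * X ^ k)) =
        C ((rl b).coeff 0) * rl a + C ((rl b).coeff 0 * c') * (rl a * X ^ k') := by
      rw [h1, ← mul_assoc, h, C_mul]
      ring
    have h3 := congrArg (fun p => coeff p (0 + k')) h2
    simp only [coeff_add, coeff_C_mul, coeff_mul_X_pow] at h3
    have h4 : c' = ((rl a).coeff 0 * (rl (b * (1 + C (tz m e) * X ^ k))).coeff (0 + k') -
        (rl b).coeff 0 * (rl a).coeff (0 + k')) / ((rl b).coeff 0 * (rl a).coeff 0) := by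
      rw [eq_div_iff (mul_ne_zero hb1 ha1)]
      linear_combination -h3
    rw [h4]
    exact div_mem (sub_mem (mul_mem (cog_coeff_mem _ _) (cog_coeff_mem _ _))
      (mul_mem (cog_coeff_mem _ _) (cog_coeff_mem _ _)))
      (mul_mem (cog_coeff_mem _ _) (cog_coeff_mem _ _))
  obtain ⟨ρ, hρ⟩ := IsAlgClosed.exists_pow_nat_eq (-(c' : ℂ)⁻¹) hk'
  have hc0 : (c' : ℂ) ≠ 0 := by exact_mod_cast hc'.ne'
  have h5 : 1 + (c' : ℂ) * ρ ^ k' = 0 := by
    rw [hρ, mul_neg, mul_inv_cancel₀ hc0, add_neg_cancel]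
  have key : ∀ (i : ℤ) (j : ℕ), 0 < j → 1 + (tr m i : ℂ) * ρ ^ j = 0 → ∃ e', c' = tr m e' := by
    intro i j hj h6
    have h7 := pow_eq_of_root hc' (tr_pos i) h5 h6
    rw [tr_pow] at h7
    exact eq_tr_of_pow hK hc' hj h7
  have h8 := congrArg (aeval ρ) h
  rw [map_mul, map_mul, map_mul, map_mul, cog_aeval, cog_aeval, h5, mul_zero, aeval_C] at h8
  rcases mul_eq_zero.1 h8 with h9 | h9
  · have h10 : aeval ρ (rl b) = 0 :=
      (mul_eq_zero.1 h9).resolve_left ((map_ne_zero (algebraMap ℝ ℂ)).2 ha1)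
    rcases hb with hb | ⟨i, j, hb⟩
    · rw [← rl_natDegree] at hb
      rw [eq_C_of_natDegree_eq_zero hb, aeval_C] at h10
      exact absurd h10 ((map_ne_zero (algebraMap ℝ ℂ)).2 hb1)
    · obtain ⟨q, hq⟩ := hb.2.2
      refine key i j hb.2.1 ?_
      rw [← cog_aeval, hq, map_mul, h10, zero_mul]
  · exact key e k hk h9

theorem rl_C (r : O m) : rl (C r) = C (r : ℝ) := cog_C r

theorem rl_binom (i : ℤ) (k : ℕ) : rl (1 + C (tz m i) * X ^ k) = 1 + C (tr m i) * X ^ k :=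
  cog_binom i k

end Pool.Agent.GK
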