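import Pool.Agent.Lib.MP_a01f70_lc.GK.CoC
import Pool.Agent.Lib.MP_a01f70_lc.GK.CoD
import Pool.Agent.Lib.MP_a01f70_lc.GK.CoE
import Pool.Agent.Lib.MP_a01f70_lc.GK.CoF
import Pool.Agent.Lib.MP_a01f70_lc.GK.CoG

namespace Pool.Agent.GK
open Finset Polynomial

variable {m : ℕ} [NeZero m]

omit [NeZero m] in
theorem const_coeff (i : ℤ) {k : ℕ} (hk : 0 < k) :
    (1 + C (tz m i) * X ^ k : (O m)[X]).coeff 0 = 1 := by
  rw [coeff_add, coeff_one_zero, coeff_C_mul_X_pow, if_neg hk.ne, add_zero]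

theorem const_pull {a : (O m)[X]} {i : ℤ} {k : ℕ}
    (h : rl a = C ((rl a).coeff 0) * (1 + C (tr m i) * X ^ k)) :
    a = C (a.coeff 0) * (1 + C (tz m i) * X ^ k) :=
  rl_injective (by rw [rl_mul, rl_C, rl_binom, ← rl_coeff, ← h])

theorem const_tr {a : (O m)[X]} {c : ℝ} {k : ℕ} (hm : BinMin (rl a) c k)
    (ha : a.natDegree = 0 ∨ ∃ (i : ℤ) (k : ℕ), Bin (rl a) (tr m i) k) : ∃ e, c = tr m e := by
  rcases ha with ha | ⟨i, k', ha⟩
  · exact absurd (rl_natDegree a ▸ hm.1) ha.not_gt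
  · exact hm.eq_tr ha

omit [NeZero m] in
theorem const_formQ {A B : GR m ℤ} {j i i' k k' : ℤ}
    (h : A * (AddMonoidAlgebra.single 0 (tz m j) * (1 + mon m (i', k'))) =
      B * (1 + mon m (i, k))) : FormQ A B := by
  refine ⟨(j, 0), (j, 0) + (i', k'), 0, (i, k), ?_⟩
  rw [mon_add, mon_zero, ← h, mul_add (AddMonoidAlgebra.single 0 (tz m j)), mul_one]
  rfl

/-- The constants. Pull the real identities back to `(O m)[X]` by `rl_injective` (`rl_mul`, `rl_C`, `rl_binom`), push them to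
the group ring by `pl` (`pl_C`, `pl_binom`). `a₀ = a.coeff 0`, `b₀ = b.coeff 0`.
Case 1: `FormF` with `p = ± b₀`, `q = ± a₀`, `v = 0`.
Case 2: `c = tr e` (`BinMin.eq_tr`), `TL.dvd` with `Q = 1 + C (tz e) X ^ k`, `N = 1` gives `b₀ = a₀ κ`; `TL.two`, `sum_two_eq`.
Case 3: `c = tr e`, `c' = tr e'`, `e ≠ e'` by coprimality; `TL.dvd` for `h` and for `h'`: `b₀ = a₀ κ`, `a₀ = b₀ κ'`,
`κ κ' = 1`; `TL.chain` for `h` and for `h'`, `mono_of_sq`.
Case 4: `BinMin.eq_tr`, `num_eq_tr`, `TL.dvd`, `TL.one`. -/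
theorem form_of_shape {a b : (O m)[X]} (hr : Red a b) (h : TL a b) (h' : TL b a)
    (ha : a.natDegree = 0 ∨ ∃ (i : ℤ) (k : ℕ), Bin (rl a) (tr m i) k)
    (hb : b.natDegree = 0 ∨ ∃ (i : ℤ) (k : ℕ), Bin (rl b) (tr m i) k)
    (hs : Shape (rl a) (rl b)) : FormF (pl a) (pl b) ∨ FormQ (pl a) (pl b) := by
  have ha0 := hr.a0
  have hb0 := hr.b0
  have ha0' : ((a.coeff 0 : O m) : ℝ) ≠ 0 := fun h => ha0 (Subtype.ext h)
  obtain ⟨hpos, ⟨h1, h2⟩ | ⟨c, k, hm, h1, h2⟩ | ⟨c, c', k, hm, hm', h1, h2⟩ |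
    ⟨c, k, c', k', hm, hc', hk', hkk, h1⟩⟩ := hs
  · rw [rl_natDegree] at h1 h2
    rw [rl_coeff, rl_coeff] at hpos
    refine Or.inl ⟨a.coeff 0 * b.coeff 0, a.coeff 0 * a.coeff 0, 0, ?_, ?_, ?_⟩
    · rw [Subring.coe_mul, mul_comm]
      exact mul_pos_iff.2 (div_pos_iff.1 hpos)
    · rw [Subring.coe_mul]
      exact mul_self_pos.2 ha0'
    · rw [← pl_C, ← pl_C, ← map_mul, ← map_mul]
      generalize hx : a.coeff 0 = x
      generalize hy : b.coeff 0 = y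
      rw [eq_C_of_natDegree_eq_zero h1, eq_C_of_natDegree_eq_zero h2, hx, hy, C_mul, C_mul]
      exact congrArg pl (by ring)
  · obtain ⟨e, rfl⟩ := const_tr hm ha
    rw [rl_natDegree] at h2
    have e1 := const_pull h1
    have e2 := eq_C_of_natDegree_eq_zero h2
    obtain ⟨κ, hκ⟩ := h.dvd hm ha0 (Q := 1 + C (tz m e) * X ^ k) (N := 1) coeff_one_zero (by
      linear_combination (C (a.coeff 0) * (1 + C (tz m e) * X ^ k)) * e2 - C (b.coeff 0) * e1)
    have e3 : pl a * AddMonoidAlgebra.single 0 κ = pl b * (1 + mon m (e, (k : ℤ))) := by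
      rw [← pl_C, ← pl_binom, ← map_mul, ← map_mul]
      rw [hκ, C_mul] at e2
      exact congrArg pl (by linear_combination C κ * e1 - (1 + C (tz m e) * X ^ k) * e2)
    obtain ⟨S, hS, hκS⟩ := h.two hm e3
    obtain ⟨j, j', hj⟩ := sum_two_eq hS (hκS ▸ right_ne_zero_of_mul (hκ ▸ hb0))
    refine Or.inr ⟨(j, 0), (j', 0), 0, (e, k), ?_⟩
    rw [mon_zero, ← e3, hκS, hj, AddMonoidAlgebra.single_add]
    rfl
  · obtain ⟨e, rfl⟩ := const_tr hm ha
    obtain ⟨e', rfl⟩ := const_tr hm' hb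
    have hk := hm.2.1.2.1
    have e1 := const_pull h1
    have e2 := const_pull h2
    have hne : e ≠ e' := by
      rintro rfl
      have hu := hr.cop.isUnit_of_dvd' (Dvd.intro_left _ h1.symm) (Dvd.intro_left _ h2.symm)
      have hu' : IsUnit (rl a) := by
        rw [h1, rl_coeff]
        exact (isUnit_C.2 ha0'.isUnit).mul hu
      exact hm.1.ne' (natDegree_eq_zero_of_isUnit hu')
    have e3 : C (a.coeff 0) * b * (1 + C (tz m e) * X ^ k) =
        C (b.coeff 0) * a * (1 + C (tz m e') * X ^ k) := by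
      linear_combination (C (a.coeff 0) * (1 + C (tz m e) * X ^ k)) * e2 -
        C (b.coeff 0) * (1 + C (tz m e') * X ^ k) * e1
    obtain ⟨κ, hκ⟩ := h.dvd hm ha0 (const_coeff e' hk) e3
    obtain ⟨κ', hκ'⟩ := h'.dvd hm' hb0 (const_coeff e hk) e3.symm
    have hκκ : κ * κ' = 1 := mul_left_cancel₀ ha0 (by rw [← mul_assoc, ← hκ, ← hκ', mul_one])
    have f1 : pl a = AddMonoidAlgebra.single 0 (a.coeff 0) * (1 + mon m (e, (k : ℤ))) := by
      rw [← pl_C, ← pl_binom, ← map_mul, ← e1]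
    have f2 : pl b = AddMonoidAlgebra.single 0 (b.coeff 0) * (1 + mon m (e', (k : ℤ))) := by
      rw [← pl_C, ← pl_binom, ← map_mul, ← e2]
    obtain ⟨S, hS, h3⟩ := h.chain hm (left_ne_zero_of_mul_eq_one hκκ) ha0 hne f1
      (by rw [mul_comm κ, ← hκ, f2])
    obtain ⟨S', hS', h4⟩ := h'.chain hm' (right_ne_zero_of_mul_eq_one hκκ) hb0 hne.symm f2
      (by rw [mul_comm κ', ← hκ', f1])
    obtain ⟨j, rfl⟩ := mono_of_sq hκκ (sub_ne_zero.2 hne.symm) hS hS' h3 (by rw [neg_sub, h4])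
    refine Or.inr (const_formQ (j := j) (i := e) (i' := e') (k := k) (k' := k) ?_)
    rw [f1, f2, hκ, ← pl_C, ← pl_C, ← pl_C, C_mul, map_mul]
    ring
  · obtain ⟨e, rfl⟩ := const_tr hm ha
    have hk := hm.2.1.2.1
    obtain ⟨e', rfl⟩ := num_eq_tr ha0 hb0 hb hk hk' hc' h1
    have e3 : C (a.coeff 0) * b * (1 + C (tz m e) * X ^ k) =
        C (b.coeff 0) * a * (1 + C (tz m e') * X ^ k') := rl_injective (by
      rw [rl_mul, rl_mul, rl_mul, rl_mul, rl_C, rl_C, rl_binom, rl_binom, ← rl_coeff, ← rl_coeff,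
        h1])
    obtain ⟨κ, hκ⟩ := h.dvd hm ha0 (const_coeff e' hk') e3
    have e4 : pl a * (AddMonoidAlgebra.single 0 κ * (1 + mon m (e', (k' : ℤ)))) =
        pl b * (1 + mon m (e, (k : ℤ))) := by
      rw [← pl_C, ← pl_binom, ← pl_binom, ← map_mul, ← map_mul, ← map_mul]
      rw [hκ, C_mul] at e3
      exact congrArg pl (mul_left_cancel₀ (C_ne_zero.2 ha0) (by linear_combination -e3))
    obtain ⟨S, hS, hκS⟩ := h.one hm hk' hkk e4
    obtain rfl | ⟨j, hj⟩ := S.eq_empty_or_nonempty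
    · exact absurd hκS (right_ne_zero_of_mul (hκ ▸ hb0))
    · rw [eq_singleton_iff_unique_mem.2 ⟨hj, fun x hx => card_le_one.1 hS x hx j hj⟩,
        sum_singleton] at hκS
      exact Or.inr (const_formQ (hκS ▸ e4))

end Pool.Agent.GK
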