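import Pool.Agent.Lib.MP_a01f70_lc.GK.D2a

namespace Pool.Agent.GK
open Finset Polynomial Filter

/-- In each class modulo `k` the first nonzero coefficient of `a / b` is positive.
Take `r` from `BinMin.ground` with `i = 0`, `T = 2 k N`, and in `SM.bwd` the source
`P l = -M ^ (if k ∣ l + i then l + 1 else 0)` (always negative) and the ground state `M ^ (T + 1) • r`.
For `i ≤ l < T`, `k ∣ l` the sum is positive (`ev_pos`: the terms `j` with `k ∣ l - j + i` have `j ≡ i`, the
first nonzero one is `j = i`, exponent `l - i + 1`; all other exponents are `0`). For `¬ k ∣ l` and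
`0 < r l` it is positive too. So at most `i + N (k - 1)` values are negative (`card_neg`), and
`2 k N - i - N (k - 1) ≤ k N + C` is false for large `N`. -/
theorem SM.first {a b : ℝ[X]} (h : SM a b) {E : PowerSeries ℝ}
    (hE : (b : PowerSeries ℝ) * E = a) {c : ℝ} {k : ℕ} (hb : BinMin b c k) {i : ℕ}
    (hz : ∀ l, l < i → k ∣ i - l → PowerSeries.coeff l E = 0) :
    0 ≤ PowerSeries.coeff i E := by
  by_contra hneg
  rw [not_le] at hneg
  obtain ⟨C, hC⟩ := h.bwd hE
  obtain ⟨r, hr0, hr1, hr2⟩ := hb.ground 0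
  have hk : 0 < k := hb.2.1.2.1
  obtain ⟨N, hN⟩ := exists_nat_gt (C + i)
  obtain ⟨T, hT⟩ : ∃ T, T = 2 * k * N := ⟨_, rfl⟩
  have key : ∀ l ∈ range T, ∀ᶠ M : ℝ in atTop, i ≤ l → 0 ≤ r l →
      0 < ∑ j ∈ range (l + 1), PowerSeries.coeff j E *
        -M ^ (if k ∣ l - j + i then l - j + 1 else 0) + M ^ (T + 1) * r l := by
    intro l hl
    have hl' := mem_range.1 hl
    by_cases h1 : i ≤ l ∧ 0 ≤ r l
    swap
    · exact Eventually.of_forall fun M a b => absurd ⟨a, b⟩ h1
    have e : ∀ᶠ M : ℝ in atTop, 0 < ∑ j ∈ range (l + 2),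
        (if j = l + 1 then r l else -PowerSeries.coeff j E) *
          M ^ (if j = l + 1 then T + 1 else if k ∣ l - j + i then l - j + 1 else 0) := by
      rcases h1.2.lt_or_eq with h2 | h2
      · refine ev_pos _ _ _ (j := l + 1) (by simp) (by simpa using h2) fun j _ hj => Or.inr ?_
        rw [if_neg hj, if_pos rfl]
        split_ifs <;> omega
      · have h3 : k ∣ l := by
          have := (hr2 l).1 h2.symm
          rw [sub_zero] at this
          exact_mod_cast this
        have h4 : i ≠ l + 1 := by omega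
        refine ev_pos _ _ _ (j := i) (mem_range.2 (by omega)) (by rw [if_neg h4]; linarith)
          fun j hj hji => ?_
        have hj' := mem_range.1 hj
        rw [if_neg h4, if_pos (show k ∣ l - i + i by rwa [Nat.sub_add_cancel h1.1])]
        by_cases h5 : j = l + 1
        · exact Or.inl (by rw [if_pos h5, h2])
        rw [if_neg h5, if_neg h5]
        split_ifs with h6
        · rcases lt_or_gt_of_ne hji with h7 | h7
          · rw [show l - j + i = l + (i - j) by omega] at h6
            exact Or.inl (by rw [hz j h7 ((Nat.dvd_add_right h3).1 h6), neg_zero])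
          · exact Or.inr (by omega)
        · exact Or.inr (by omega)
    refine e.mono fun M hM _ _ => ?_
    rw [sum_range_succ, if_pos rfl, if_pos rfl, mul_comm (r l)] at hM
    refine hM.trans_eq (congrArg (· + _) (sum_congr rfl fun j hj => ?_))
    have h5 : j ≠ l + 1 := (mem_range.1 hj).ne
    rw [if_neg h5, if_neg h5, neg_mul, mul_neg]
  obtain ⟨M, hM, hM0⟩ := (((eventually_all_finset _).2 key).and (eventually_gt_atTop 0)).exists
  have h1 := hC (fun l => -M ^ (if k ∣ l + i then l + 1 else 0)) (M ^ (T + 1) • r)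
    (by rw [act_smul_right, hr0, smul_zero]) T
  rw [filter_true_of_mem fun l _ => neg_lt_zero.2 (pow_pos hM0 _), card_range] at h1
  have h2 : #{l ∈ range k | r (l : ℕ) ≠ 0} + 1 ≤ k := by
    refine (card_lt_card (filter_ssubset.2 ⟨0, mem_range.2 hk, ?_⟩)).trans_eq (card_range k)
    exact not_not.2 ((hr2 _).2 (by simp))
  have h3 := card_neg hb.2.1.1 hr1 N
  have h4 : #{l ∈ range T | ∑ j ∈ range (l + 1), PowerSeries.coeff j E *
      -M ^ (if k ∣ l - j + i then l - j + 1 else 0) + (M ^ (T + 1) • r) (l : ℕ) < 0} ≤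
      #(range i ∪ {l ∈ range T | r (l : ℕ) < 0}) := by
    refine card_le_card fun l hl => ?_
    obtain ⟨a1, a2⟩ := mem_filter.1 hl
    by_contra a3
    rw [mem_union, mem_range, mem_filter, not_or, not_lt, not_and, not_lt] at a3
    exact a2.not_gt (hM l a1 a3.1 (a3.2 a1))
  have h5 := h4.trans (card_union_le _ _)
  rw [card_range, hT, h3, ← hT] at h5
  have h6 : (#{l ∈ range k | r (l : ℕ) ≠ 0} : ℝ) + 1 ≤ k := by exact_mod_cast h2
  have h7 := (Nat.cast_le (α := ℝ)).2 h5
  have h8 : (T : ℝ) = 2 * k * N := by exact_mod_cast hT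
  push_cast at h7
  nlinarith [mul_le_mul_of_nonneg_left h6 (Nat.cast_nonneg (α := ℝ) N)]

end Pool.Agent.GK
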