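import Pool.Agent.Lib.MP_a01f70_lc.GK.D2c
import Pool.Agent.Lib.MP_a01f70_lc.GK.D2d

namespace Pool.Agent.GK
open Finset Polynomial

theorem d2_deg {c : ℝ} (hc : 0 < c) (k : ℕ) : (1 + C c * X ^ k : ℝ[X]).natDegree = k := by
  rw [add_comm, ← C_1, natDegree_add_C, natDegree_C_mul_X_pow k c hc.ne']

theorem d2_coeff0 (c : ℝ) {k : ℕ} (hk : 0 < k) : (1 + C c * X ^ k : ℝ[X]).coeff 0 = 1 := by
  simp [coeff_X_pow, hk.ne]

theorem d2_ne (c : ℝ) {k : ℕ} (hk : 0 < k) : (1 + C c * X ^ k : ℝ[X]) ≠ 0 := fun h => by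
  have h1 := d2_coeff0 c hk
  rw [h, coeff_zero] at h1
  exact zero_ne_one h1

theorem d2_le {a : ℝ[X]} {c : ℝ} {k : ℕ} (h : Bin a c k) : a.natDegree ≤ k :=
  (natDegree_le_of_dvd h.2.2 (d2_ne c h.2.1)).trans (d2_deg h.1 k).le

/-- a divisor of full degree (`a * q = 1 + c X ^ k`, `q` has degree `0`) -/
theorem Bin.eq_of_deg {a : ℝ[X]} {c : ℝ} {k : ℕ} (h : Bin a c k) (hk : k ≤ a.natDegree) :
    a = C (a.coeff 0) * (1 + C c * X ^ k) := by
  obtain ⟨hc, hk0, q, hq⟩ := h
  have hne := d2_ne c hk0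
  rw [hq] at hne
  have h1 := natDegree_mul (left_ne_zero_of_mul hne) (right_ne_zero_of_mul hne)
  rw [← hq, d2_deg hc] at h1
  have h2 : q = C (q.coeff 0) := eq_C_of_natDegree_eq_zero (by omega)
  have h3 := d2_coeff0 c hk0
  rw [hq, mul_coeff_zero] at h3
  rw [hq, h2, mul_left_comm, ← C_mul, h3, C_1, mul_one]

theorem d2_split {D : PowerSeries ℝ} {i : ℕ} (hi : 0 < i)
    (hz : ∀ l, 0 < l → l < i → PowerSeries.coeff l D = 0) :
    ∃ D' : PowerSeries ℝ, D = PowerSeries.C (PowerSeries.coeff 0 D) + PowerSeries.X ^ i * D' ∧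
      PowerSeries.coeff 0 D' = PowerSeries.coeff i D := by
  obtain ⟨D', hD'⟩ : PowerSeries.X ^ i ∣ D - PowerSeries.C (PowerSeries.coeff 0 D) := by
    rw [PowerSeries.X_pow_dvd_iff]
    intro l hl
    rw [map_sub, PowerSeries.coeff_C]
    split_ifs with h0
    · rw [h0, sub_self]
    · rw [hz l (Nat.pos_of_ne_zero h0) hl, sub_zero]
  refine ⟨D', by rw [← hD']; ring, ?_⟩
  have h1 := congrArg (PowerSeries.coeff i) hD'
  rw [map_sub, PowerSeries.coeff_C, if_neg hi.ne', sub_zero, PowerSeries.coeff_X_pow_mul',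
    if_pos le_rfl, Nat.sub_self] at h1
  exact h1.symm

theorem d2_mul0 (P Q : PowerSeries ℝ) :
    PowerSeries.coeff 0 (P * Q) = PowerSeries.coeff 0 P * PowerSeries.coeff 0 Q := by
  simp only [PowerSeries.coeff_zero_eq_constantCoeff, map_mul]

theorem d2_inv {D E : PowerSeries ℝ} (h : D * E = 1) {i : ℕ} (hi : 0 < i)
    (hz : ∀ l, 0 < l → l < i → PowerSeries.coeff l D = 0) :
    PowerSeries.coeff 0 D * PowerSeries.coeff 0 E = 1 ∧
      (∀ l, 0 < l → l < i → PowerSeries.coeff l E = 0) ∧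
      PowerSeries.coeff 0 D * PowerSeries.coeff i E +
        PowerSeries.coeff i D * PowerSeries.coeff 0 E = 0 := by
  obtain ⟨D', h1, h2⟩ := d2_split hi hz
  have h0 : PowerSeries.coeff 0 D * PowerSeries.coeff 0 E = 1 := by
    rw [← d2_mul0, h]
    simp
  have h3 : PowerSeries.C (PowerSeries.coeff 0 D) * E + PowerSeries.X ^ i * (D' * E) = 1 := by
    rw [← h]
    nth_rewrite 2 [h1]
    ring
  refine ⟨h0, fun l hl hli => ?_, ?_⟩
  · have h4 := congrArg (PowerSeries.coeff l) h3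
    rw [map_add, PowerSeries.coeff_C_mul, PowerSeries.coeff_X_pow_mul', if_neg hli.not_ge, add_zero,
      PowerSeries.coeff_one, if_neg hl.ne'] at h4
    exact (mul_eq_zero.1 h4).resolve_left (left_ne_zero_of_mul_eq_one h0)
  · have h4 := congrArg (PowerSeries.coeff i) h3
    rwa [map_add, PowerSeries.coeff_C_mul, PowerSeries.coeff_X_pow_mul', if_pos le_rfl,
      Nat.sub_self, d2_mul0, h2, PowerSeries.coeff_one, if_neg hi.ne'] at h4

theorem d2_quot {a : ℝ[X]} (ha0 : a.coeff 0 ≠ 0) (b : ℝ[X]) :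
    ∃ D : PowerSeries ℝ, (a : PowerSeries ℝ) * D = b := by
  refine ⟨b * (a : PowerSeries ℝ)⁻¹, ?_⟩
  rw [mul_left_comm, PowerSeries.mul_inv_cancel _ (by simpa using ha0), mul_one]

theorem d2_one {a b : ℝ[X]} (ha0 : a.coeff 0 ≠ 0) {D E : PowerSeries ℝ}
    (hD : (a : PowerSeries ℝ) * D = b) (hE : (b : PowerSeries ℝ) * E = a) : D * E = 1 := by
  have ha : (a : PowerSeries ℝ) ≠ 0 := fun h => ha0 (by rw [← coeff_coe, h, map_zero])
  refine mul_left_cancel₀ ha ?_
  rw [← mul_assoc, hD, hE, mul_one]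

theorem d2_const {a b : ℝ[X]} {D : PowerSeries ℝ} (hD : (a : PowerSeries ℝ) * D = b) :
    a.coeff 0 * PowerSeries.coeff 0 D = b.coeff 0 := by
  rw [← coeff_coe a, ← d2_mul0, hD, coeff_coe]

/-- a divisor of a binomial with positive coefficient that is itself a binomial -/
theorem d2_pos {a : ℝ[X]} {c c' t : ℝ} {k k' : ℕ} (h : Bin a c' k') (hk : 0 < k) (hc : c ≠ 0)
    (ha : a = C t * (1 + C c * X ^ k)) : 0 < c := by
  refine lt_of_le_of_ne (not_lt.1 fun hneg => ?_) hc.symm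
  have h1 : 0 ≤ -c⁻¹ := neg_nonneg.2 (inv_nonpos.2 hneg.le)
  have h2 := Real.rpow_inv_natCast_pow h1 hk.ne'
  have h3 := Real.rpow_nonneg h1 ((k : ℝ)⁻¹)
  generalize (-c⁻¹) ^ ((k : ℝ)⁻¹) = x at h2 h3
  obtain ⟨q, hq⟩ := h.2.2
  have h4 := congrArg (eval x) hq
  rw [ha] at h4
  simp only [eval_add, eval_mul, eval_one, eval_C, eval_pow, eval_X, h2, mul_neg,
    mul_inv_cancel₀ hc, add_neg_cancel, mul_zero, zero_mul] at h4
  have h5 := mul_nonneg h.1.le (pow_nonneg h3 k')
  linarith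

/-- The frame in which the first nonconstant coefficient `d i` of `D = b / a` is positive.
`E = a / b` has `D * E = 1`, so `e 0 > 0`, `e l = 0` for `0 < l < i`, `e i < 0`.
(1) If `BinMin b c k` then `k ∣ i` (`SM.first` for `h`), so `natDegree b ≤ k ≤ i`.
(2) If `BinMin a c' k'` then `d l ≥ 0` for `l < k'` (`SM.first` for `h'`), so `d l = 0` for `0 < l < k'`, `l ≠ i`
(the least exception contradicts `SM.three`).
`a` constant: `b.coeff i ≠ 0`, (1) and `Bin.eq_of_deg` give case 2 of `Shape b a`.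
`natDegree b < natDegree a`: `1 + c' X ^ k' = a * q`, `ξ = b * q` has degree `< k'` and `ξ = (1 + c' X ^ k') * D`, so
`ξ.coeff l = d l` for `l < k'`. If `k' ≤ i` then `ξ` is the constant `d 0`; the coefficients of
`(1 + c' X ^ k') * D` at `k'` give `d k' = -c' * d 0 < 0`, impossible (`k' ≤ i`). So `i < k'`,
`ξ = d 0 + d i X ^ i`: case 4 of `Shape a b` with the constant `d i / d 0`.
`0 < natDegree a ≤ natDegree b`: `a 0 • b - b 0 • a = a 0 • a * (D - d 0)` has its lowest term at `i` and degree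
`≤ natDegree b ≤ k ≤ i`; so `natDegree b = k = i`, `b` is the binomial, `a = a 0 (1 + c'' X ^ k)`, `c'' ≠ 0`;
`c'' < 0` would give a positive real root of `a`, hence of `1 + c' X ^ k'`. Case 3. -/
theorem d2_frame {a b : ℝ[X]} (ha0 : a.coeff 0 ≠ 0) (hb0 : b.coeff 0 ≠ 0)
    (h : SM a b) (h' : SM b a) (ha : a.natDegree = 0 ∨ ∃ c k, Bin a c k)
    (hb : b.natDegree = 0 ∨ ∃ c k, Bin b c k) {D : PowerSeries ℝ}
    (hD : (a : PowerSeries ℝ) * D = b) {i : ℕ} (hi : 0 < i) (h1 : 0 < PowerSeries.coeff i D)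
    (hz : ∀ l, 0 < l → l < i → PowerSeries.coeff l D = 0) : Shape a b ∨ Shape b a := by
  obtain ⟨E, hE⟩ := d2_quot hb0 a
  obtain ⟨e0, e1, e2⟩ := d2_inv (d2_one ha0 hD hE) hi hz
  have hab := d2_const hD
  have hd0 : 0 < PowerSeries.coeff 0 D :=
    h.const_pos hD fun h0 => hb0 (by rw [← hab, h0, mul_zero])
  have he0 : 0 < PowerSeries.coeff 0 E := (mul_pos_iff_of_pos_left hd0).1 (by rw [e0]; exact one_pos)
  have hei : PowerSeries.coeff i E < 0 := by
    have h2 := mul_pos h1 he0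
    by_contra h3
    have h4 := mul_nonneg hd0.le (not_lt.1 h3)
    linarith
  have hq1 : 0 < b.coeff 0 / a.coeff 0 := by rwa [← hab, mul_div_cancel_left₀ _ ha0]
  have hq2 : 0 < a.coeff 0 / b.coeff 0 := by rw [← inv_div]; exact inv_pos.2 hq1
  have key1 : ∀ c k, BinMin b c k → k ≤ i := fun c k hk => by
    refine Nat.le_of_dvd hi (by_contra fun hn => hei.not_ge (h.first hE hk fun l hl hd => ?_))
    rcases Nat.eq_zero_or_pos l with rfl | hl0
    · exact absurd hd hn
    · exact e1 l hl0 hl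
  have key2 : ∀ c k, BinMin a c k → ∀ l, 0 < l → l < k → l ≠ i → PowerSeries.coeff l D = 0 := by
    intro c k hk l
    induction l using Nat.strong_induction_on with
    | _ j ih =>
      intro hj hjk hji
      rcases lt_or_gt_of_ne hji with hlt | hgt
      · exact hz j hj hlt
      · have h2 : 0 ≤ PowerSeries.coeff j D := h'.first hD hk fun l hl hd =>
          absurd (Nat.le_of_dvd (by omega) hd) (by omega)
        by_contra h3
        exact h.three hD hi hgt hd0 h1 (lt_of_le_of_ne h2 (Ne.symm h3))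
          fun l hl hlj hli => ih l hlj hl (hlj.trans hjk) hli
  rcases Nat.eq_zero_or_pos a.natDegree with hda | hda
  · have h2 : b.coeff i ≠ 0 := by
      rw [← coeff_coe b, ← hD, eq_C_of_natDegree_eq_zero hda, coe_C, PowerSeries.coeff_C_mul]
      exact mul_ne_zero ha0 h1.ne'
    have h3 := le_natDegree_of_ne_zero h2
    obtain ⟨c, k, hck⟩ := hb.resolve_left (by omega)
    obtain ⟨c, k, hck⟩ := exists_binMin (by omega) hck
    exact Or.inr ⟨hq2, Or.inr (Or.inl
      ⟨c, k, hck, hck.2.1.eq_of_deg ((key1 c k hck).trans h3), hda⟩)⟩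
  obtain ⟨c', k', hck'⟩ := ha.resolve_left hda.ne'
  obtain ⟨c', k', hck'⟩ := exists_binMin hda hck'
  rcases lt_or_ge b.natDegree a.natDegree with hlt | hge
  · obtain ⟨hc', hk', q, hq⟩ := hck'.2.1
    have hne := d2_ne c' hk'
    rw [hq] at hne
    have h2 := natDegree_mul (left_ne_zero_of_mul hne) (right_ne_zero_of_mul hne)
    rw [← hq, d2_deg hc'] at h2
    have h3 : (b * q).natDegree < k' := natDegree_mul_le.trans_lt (by omega)
    have h4 : ((b * q : ℝ[X]) : PowerSeries ℝ) =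
        D + PowerSeries.X ^ k' * (PowerSeries.C c' * D) := by
      have h5 := congrArg (fun p : ℝ[X] => (p : PowerSeries ℝ)) hq
      simp only [Polynomial.coe_add, Polynomial.coe_mul, Polynomial.coe_one, coe_C,
        Polynomial.coe_pow, coe_X] at h5
      rw [Polynomial.coe_mul, ← hD, mul_right_comm, ← h5]
      ring
    have h5 : ∀ l, l < k' → (b * q).coeff l = PowerSeries.coeff l D := fun l hl => by
      rw [← coeff_coe, h4, map_add, PowerSeries.coeff_X_pow_mul', if_neg hl.not_ge, add_zero]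
    have h6 : i < k' := by
      by_contra h7
      have h8 := coeff_eq_zero_of_natDegree_lt h3
      rw [← coeff_coe, h4, map_add, PowerSeries.coeff_X_pow_mul', if_pos le_rfl, Nat.sub_self,
        PowerSeries.coeff_C_mul] at h8
      have h9 := mul_pos hc' hd0
      rcases (not_lt.1 h7).eq_or_lt with h10 | h10
      · rw [h10] at h8
        linarith
      · rw [hz k' hk' h10] at h8
        linarith
    have h7 : b * q = C (PowerSeries.coeff 0 D) + C (PowerSeries.coeff i D) * X ^ i := by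
      ext l
      rw [coeff_add, coeff_C, coeff_C_mul_X_pow]
      by_cases hl0 : l = 0
      · rw [if_pos hl0, if_neg (by omega), add_zero, hl0, h5 0 hk']
      by_cases hli : l = i
      · rw [if_neg hl0, if_pos hli, zero_add, hli, h5 i h6]
      rw [if_neg hl0, if_neg hli, add_zero]
      rcases lt_or_ge l k' with hl | hl
      · rw [h5 l hl, key2 c' k' hck' l (Nat.pos_of_ne_zero hl0) hl hli]
      · exact coeff_eq_zero_of_natDegree_lt (h3.trans_le hl)
    refine Or.inl ⟨hq1, Or.inr (Or.inr (Or.inr ⟨c', k', PowerSeries.coeff i D / PowerSeries.coeff 0 D,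
      i, hck', div_pos h1 hd0, hi, h6, ?_⟩))⟩
    have h8 : C (PowerSeries.coeff 0 D) * C (PowerSeries.coeff i D / PowerSeries.coeff 0 D) =
        C (PowerSeries.coeff i D) := by rw [← C_mul, mul_div_cancel₀ _ hd0.ne']
    rw [hq, ← hab, C_mul]
    linear_combination (C (a.coeff 0) * a) * h7 - (C (a.coeff 0) * a * X ^ i) * h8
  obtain ⟨c, k, hck⟩ := hb.resolve_left (by omega)
  obtain ⟨c, k, hck⟩ := exists_binMin (by omega) hck
  obtain ⟨D', hD1, hD2⟩ := d2_split hi hz
  have h2 : ((C (a.coeff 0) * b - C (b.coeff 0) * a : ℝ[X]) : PowerSeries ℝ) =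
      PowerSeries.X ^ i * (PowerSeries.C (a.coeff 0) * ((a : PowerSeries ℝ) * D')) := by
    rw [Polynomial.coe_sub, Polynomial.coe_mul, Polynomial.coe_mul, coe_C, coe_C, ← hD, ← hab,
      map_mul]
    nth_rewrite 1 [hD1]
    ring
  have h3 : ∀ l, a.coeff 0 * b.coeff l - b.coeff 0 * a.coeff l = if i ≤ l then
      PowerSeries.coeff (l - i) (PowerSeries.C (a.coeff 0) * ((a : PowerSeries ℝ) * D'))
      else 0 := fun l => by
    rw [← PowerSeries.coeff_X_pow_mul', ← h2, coeff_coe, coeff_sub, coeff_C_mul, coeff_C_mul]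
  have h4 : i ≤ b.natDegree := by
    by_contra h5
    have h6 := h3 i
    rw [if_pos le_rfl, Nat.sub_self, PowerSeries.coeff_C_mul, d2_mul0, coeff_coe, hD2,
      coeff_eq_zero_of_natDegree_lt (not_le.1 h5),
      coeff_eq_zero_of_natDegree_lt (hge.trans_lt (not_le.1 h5)), mul_zero, mul_zero,
      sub_zero] at h6
    exact mul_ne_zero ha0 (mul_ne_zero ha0 h1.ne') h6.symm
  have h5 := key1 c k hck
  have h6 := d2_le hck.2.1
  obtain rfl : k = i := by omega
  have hb1 := hck.2.1.eq_of_deg h4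
  have h7 : ∀ l, 0 < l → l ≠ k → a.coeff l = 0 := fun l hl hlk => by
    rcases lt_or_gt_of_ne hlk with h8 | h8
    · have h9 := h3 l
      have h10 : b.coeff l = 0 := by
        rw [hb1, coeff_C_mul, coeff_add, coeff_one, coeff_C_mul_X_pow, if_neg hl.ne', if_neg hlk,
          add_zero, mul_zero]
      rw [if_neg h8.not_ge, h10, mul_zero, zero_sub, neg_eq_zero] at h9
      exact (mul_eq_zero.1 h9).resolve_left hb0
    · exact coeff_eq_zero_of_natDegree_lt (by omega)
  have h8 : a.natDegree = k := by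
    by_contra h9
    exact (left_ne_zero_of_mul (a := a) (b := 1) fun h0 => ha0 (by
      rw [mul_one] at h0
      rw [h0, coeff_zero])) (leadingCoeff_eq_zero.1 (h7 _ hda h9))
  have h9 : a.coeff k ≠ 0 := fun h0 => ha0 (by
    rw [← h8] at h0
    rw [leadingCoeff_eq_zero.1 h0, coeff_zero])
  have ha1 : a = C (a.coeff 0) * (1 + C (a.coeff k / a.coeff 0) * X ^ k) := by
    ext l
    rw [coeff_C_mul, coeff_add, coeff_one, coeff_C_mul_X_pow]
    by_cases hl0 : l = 0
    · rw [if_pos hl0, if_neg (by omega), add_zero, mul_one, hl0]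
    by_cases hlk : l = k
    · rw [if_neg hl0, if_pos hlk, zero_add, mul_div_cancel₀ _ ha0, hlk]
    · rw [if_neg hl0, if_neg hlk, add_zero, mul_zero, h7 l (Nat.pos_of_ne_zero hl0) hlk]
  have h10 := d2_pos hck'.2.1 hi (div_ne_zero h9 ha0) ha1
  refine Or.inl ⟨hq1, Or.inr (Or.inr (Or.inl ⟨_, c, k, ⟨hda, ⟨h10, hi, C (a.coeff 0)⁻¹, ?_⟩,
    fun c'' k'' hk'' => h8 ▸ d2_le hk''⟩, hck, ha1, hb1⟩))⟩
  nth_rewrite 3 [ha1]
  rw [mul_right_comm, ← C_mul, mul_inv_cancel₀ ha0, C_1, one_mul]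

/-- D2: the fraction is a quotient of two binomials.
`D = b * a⁻¹`, `E = a * b⁻¹`, `d 0 > 0` by `SM.const_pos`. If `d l = 0` for all `l > 0` then `b = C (d 0) * a` and
coprimality makes both constant. Otherwise let `i` be the first index with `d i ≠ 0`: `d2_frame` for
`(a, b, D)` if `d i > 0`, for `(b, a, E)` if `d i < 0`. -/
theorem d2 {a b : ℝ[X]} (hab : IsCoprime a b) (ha0 : a.coeff 0 ≠ 0) (hb0 : b.coeff 0 ≠ 0)
    (h : SM a b) (h' : SM b a) (ha : a.natDegree = 0 ∨ ∃ c k, Bin a c k)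
    (hb : b.natDegree = 0 ∨ ∃ c k, Bin b c k) : Shape a b ∨ Shape b a := by
  obtain ⟨D, hD⟩ := d2_quot ha0 b
  obtain ⟨E, hE⟩ := d2_quot hb0 a
  have h0 := d2_const hD
  have hd0 : 0 < PowerSeries.coeff 0 D :=
    h.const_pos hD fun h1 => hb0 (by rw [← h0, h1, mul_zero])
  by_cases hex : ∃ l, 0 < l ∧ PowerSeries.coeff l D ≠ 0
  · classical
    obtain ⟨hi, hne⟩ := Nat.find_spec hex
    have hz : ∀ l, 0 < l → l < Nat.find hex → PowerSeries.coeff l D = 0 := fun l hl hli =>
      by_contra fun h1 => Nat.find_min hex hli ⟨hl, h1⟩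
    generalize Nat.find hex = i at hi hne hz
    rcases lt_or_gt_of_ne hne with hneg | hpos
    · obtain ⟨e0, e1, e2⟩ := d2_inv (d2_one ha0 hD hE) hi hz
      have he0 : 0 < PowerSeries.coeff 0 E :=
        (mul_pos_iff_of_pos_left hd0).1 (by rw [e0]; exact one_pos)
      refine (d2_frame hb0 ha0 h' h hb ha hE hi ?_ e1).symm
      have h2 := mul_neg_of_neg_of_pos hneg he0
      by_contra h3
      have h4 := mul_nonpos_of_nonneg_of_nonpos hd0.le (not_lt.1 h3)
      linarith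
    · exact d2_frame ha0 hb0 h h' ha hb hD hi hpos hz
  · have h1 : D = PowerSeries.C (PowerSeries.coeff 0 D) := by
      ext l
      rw [PowerSeries.coeff_C]
      split_ifs with hl
      · rw [hl]
      · exact by_contra fun h2 => hex ⟨l, Nat.pos_of_ne_zero hl, h2⟩
    have h2 : b = a * C (PowerSeries.coeff 0 D) := by
      refine coe_injective ℝ ?_
      rw [Polynomial.coe_mul, coe_C, ← h1, hD]
    have h3 : a.natDegree = 0 := natDegree_eq_zero_of_isUnit (hab.isUnit_of_dvd ⟨_, h2⟩)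
    refine Or.inl ⟨by rwa [← h0, mul_div_cancel_left₀ _ ha0], Or.inl ⟨h3, ?_⟩⟩
    rw [h2]
    exact Nat.le_zero.1 ((natDegree_mul_C_le _ _).trans h3.le)

end Pool.Agent.GK
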