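import Pool.Agent.Lib.MP_a01f70_lc.GK.DinfE1

namespace Pool.Agent.GK
open Finset Polynomial

variable {m : ℕ}

/-- bounds for the exponents of the monomials of `f` -/
theorem dinf_bound [NeZero m] {k : ℕ} (γ : Fin k → ℤ × ℤ) :
    ∃ w : ℕ, ∀ j, -((m : ℤ) * w) ≤ (γ j).1 ∧ |(γ j).2| ≤ w := by
  have hm : (1 : ℤ) ≤ m := by exact_mod_cast Nat.pos_of_ne_zero (NeZero.ne m)
  obtain ⟨w, hw⟩ := (Set.finite_range fun j => (γ j).1.natAbs + (γ j).2.natAbs).bddAbove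
  refine ⟨w, fun j => ?_⟩
  have h : (γ j).1.natAbs + (γ j).2.natAbs ≤ w := hw ⟨j, rfl⟩
  have h2 : (w : ℤ) ≤ m * w := by nlinarith [Int.natCast_nonneg w]
  constructor
  · omega
  · rw [Int.abs_eq_natAbs]
    omega

/-- the periodised character is close to the given one on the box -/
theorem dinf_close [NeZero m] {k : ℕ} (c : Fin k → ℤ) (γ : Fin k → ℤ × ℤ) {w : ℕ}
    (hw : ∀ j, -((m : ℤ) * w) ≤ (γ j).1 ∧ |(γ j).2| ≤ w) : ∃ c₀ : ℝ, 0 ≤ c₀ ∧
    ∀ (T H : ℕ) (Z : GR m ℤ →+ Tc) (θ : ZMod (m * H) × ZMod (T + 2 * w + 1) → Tc),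
      (∀ E y : ℕ, y < T + 2 * w + 1 → ∃ δ : ℝ, |δ| ≤ 2 * tr m E / 2 ^ H ∧
        θ (E, y) = Z (mon m ((E : ℤ) - m * w, (y : ℤ) - (T + w : ℕ))) + (δ : Tc)) →
      ∀ e l : ℕ, l < T → ∃ δ : ℝ, |δ| ≤ c₀ * tr m e / 2 ^ H ∧
        ∑ j, c j • θ (((e : ZMod (m * H)) + (m * w : ℕ), ((T + w - l : ℕ) : ZMod _))
            + ((((γ j).1 : ℤ) : ZMod (m * H)), (((γ j).2 : ℤ) : ZMod _)))
          = Z (mon m ((e : ℤ), -(l : ℤ)) * ∑ j, c j • mon m (γ j)) + (δ : Tc) := by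
  refine ⟨∑ j, |(c j : ℝ)| * (2 * tr m (m * w + (γ j).1)),
    sum_nonneg fun j _ => mul_nonneg (abs_nonneg _) (by linarith [tr_pos (m := m) (m * w + (γ j).1)]),
    fun T H Z θ hθ e l hl => ?_⟩
  have h1 : ∀ j, ∃ δ : ℝ, |δ| ≤ 2 * tr m (m * w + (γ j).1) * tr m e / 2 ^ H ∧
      θ (((e : ZMod (m * H)) + (m * w : ℕ), ((T + w - l : ℕ) : ZMod _))
            + ((((γ j).1 : ℤ) : ZMod (m * H)), (((γ j).2 : ℤ) : ZMod _)))
        = Z (mon m ((e : ℤ), -(l : ℤ)) * mon m (γ j)) + (δ : Tc) := by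
    intro j
    obtain ⟨h2, h3⟩ := hw j
    rw [abs_le] at h3
    obtain ⟨E, hE⟩ := Int.eq_ofNat_of_zero_le (a := e + m * w + (γ j).1) (by omega)
    obtain ⟨y, hy⟩ := Int.eq_ofNat_of_zero_le (a := (T + w - l : ℕ) + (γ j).2) (by omega)
    obtain ⟨δ, h4, h5⟩ := hθ E y (by omega)
    refine ⟨δ, ?_, ?_⟩
    · rw [← hE, add_assoc, tr_add] at h4
      calc _ ≤ _ := h4
        _ = _ := by ring
    · rw [← mon_add]
      convert h5 using 2
      · ext
        · simp only [Prod.fst_add]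
          rw [← Int.cast_natCast E, ← hE]
          push_cast
          rfl
        · simp only [Prod.snd_add]
          rw [← Int.cast_natCast y, ← hy, Int.cast_add, Int.cast_natCast]
      · congr 2
        ext
        · simp only [Prod.fst_add]
          omega
        · simp only [Prod.snd_add]
          omega
  choose δ h2 h3 using h1
  refine ⟨∑ j, c j * δ j, ?_, ?_⟩
  · refine (abs_sum_le_sum_abs _ _).trans ?_
    rw [sum_mul, sum_div]
    refine sum_le_sum fun j _ => ?_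
    rw [abs_mul, mul_assoc, mul_div_assoc]
    exact mul_le_mul_of_nonneg_left (h2 j) (abs_nonneg _)
  · simp only [h3, smul_add, sum_add_distrib, mul_sum, map_sum, mul_smul_comm, map_zsmul]
    congr 1
    rw [← QuotientAddGroup.mk'_apply, map_sum]
    refine sum_congr rfl fun j _ => ?_
    rw [← zsmul_eq_mul, map_zsmul, QuotientAddGroup.mk'_apply]

theorem DD.dinf [NeZero m] {A B : GR m ℤ} (h : DD A B) (hA : A ≠ 0) : Dinf A B := by
  classical
  have hm : 0 < m := Nat.pos_of_ne_zero (NeZero.ne m)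
  obtain ⟨r, τ, hr, hτ, hτm⟩ := dinf_eval hA
  obtain ⟨k, a, α, hAe⟩ := exists_sum_mon A
  obtain ⟨k', b, β, hBe⟩ := exists_sum_mon B
  obtain ⟨w₁, hw₁⟩ := dinf_bound (m := m) α
  obtain ⟨w₂, hw₂⟩ := dinf_bound (m := m) β
  let w := w₁ + w₂
  have hmw : ∀ v : ℕ, (0 : ℤ) ≤ m * v := fun v => by positivity
  obtain ⟨ca, ca0, hca⟩ := dinf_close (m := m) a α (w := w) fun j => by
    have := hw₁ j
    have := hmw w₂
    simp only [w]
    push_cast
    constructor <;> linarith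
  obtain ⟨cb, cb0, hcb⟩ := dinf_close (m := m) b β (w := w) fun j => by
    have := hw₂ j
    have := hmw w₁
    simp only [w]
    push_cast
    constructor <;> linarith
  rw [← hAe] at hca
  rw [← hBe] at hcb
  refine ⟨2 * (2 * w + 1) * m, fun T => ?_⟩
  obtain ⟨P, hP0, hP⟩ : ∃ P : ℝ, 0 ≤ P ∧ ∀ l : ℕ, l < T → ca < P * (τ A * τ A) * r ^ (-(l : ℤ)) := by
    have hs : 0 < τ A * τ A := mul_self_pos.mpr hτ
    refine ⟨(ca + 1) * (∑ l ∈ range T, r ^ l) / (τ A * τ A), by positivity, fun l hl => ?_⟩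
    rw [div_mul_cancel₀ _ hs.ne', zpow_neg, zpow_natCast, mul_assoc]
    have h1 : r ^ l ≤ ∑ l ∈ range T, r ^ l :=
      single_le_sum (f := fun l => r ^ l) (fun _ _ => by positivity) (mem_range.mpr hl)
    have h2 : 1 ≤ (∑ l ∈ range T, r ^ l) * (r ^ l)⁻¹ := by
      rw [← div_eq_mul_inv, one_le_div (by positivity)]
      exact h1
    nlinarith
  obtain ⟨Q, hQ0, hQ⟩ : ∃ Q : ℝ, 0 ≤ Q ∧ ∀ l : ℕ, l < T →
      P * (τ A * τ A) * r ^ (-(l : ℤ)) + ca ≤ Q ∧ P * |τ A * τ B| * r ^ (-(l : ℤ)) + cb ≤ Q := by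
    refine ⟨P * (τ A * τ A + |τ A * τ B|) * (∑ l ∈ range T, r ^ (-(l : ℤ))) + ca + cb,
      by have := mul_self_nonneg (τ A); positivity, fun l hl => ?_⟩
    have h1 : r ^ (-(l : ℤ)) ≤ ∑ l ∈ range T, r ^ (-(l : ℤ)) :=
      single_le_sum (f := fun l : ℕ => r ^ (-(l : ℤ))) (fun _ _ => by positivity) (mem_range.mpr hl)
    have h2 : 0 ≤ r ^ (-(l : ℤ)) := by positivity
    have h3 := mul_self_nonneg (τ A)
    have h4 := abs_nonneg (τ A * τ B)
    have h5 := mul_le_mul_of_nonneg_left h1 (mul_nonneg hP0 (add_nonneg h3 h4))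
    constructor
    · nlinarith [mul_nonneg (mul_nonneg hP0 h4) h2]
    · nlinarith [mul_nonneg (mul_nonneg hP0 h3) h2]
  refine ⟨Q + T * (4 * m * Q + 3 * m), fun H X Y hXY => ?_⟩
  have hC : 0 ≤ (T : ℝ) * (4 * m * Q + 3 * m) := by positivity
  rcases Nat.eq_zero_or_pos H with rfl | hH
  · simp
    positivity
  haveI : NeZero (m * H) := ⟨by positivity⟩
  obtain ⟨Z₀, hZA, hZB⟩ := hXY.exists_char
  let Z : GR m ℤ →+ Tc := Z₀ + (QuotientAddGroup.mk' _).comp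
    ((AddMonoidHom.mulLeft (P * τ A / 2 ^ H)).comp τ)
  have hZ : ∀ γ f, Z (mon m γ * f) = Z₀ (mon m γ * f)
      + ((P * (τ A * τ f) * r ^ γ.2 * tr m γ.1 / 2 ^ H : ℝ) : Tc) := fun γ f => by
    change _ + ((P * τ A / 2 ^ H * τ (mon m γ * f) : ℝ) : Tc) = _
    rw [hτm]
    congr 2
    ring
  obtain ⟨θ, hθ2, hθ⟩ := dinf_period w (T + 2 * w + 1) (T + w : ℕ) hH Z
  let π : ℤ × ℤ →+ ZMod (m * H) × ZMod (T + 2 * w + 1) :=
    AddMonoidHom.prodMap (Int.castAddHom _) (Int.castAddHom _)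
  have hπ : ∀ γ : ℤ × ℤ, π γ = ((γ.1 : ZMod (m * H)), (γ.2 : ZMod _)) := fun _ => rfl
  let Zg : ZMod (m * H) × ZMod (T + 2 * w + 1) → GR m ℤ →+ Tc :=
    fun g => chG m fun γ => θ (g + π γ)
  have hZg : ∀ g γ, Zg g (mon m γ) = θ (g + π γ) := fun g γ => by
    refine chG_mon (fun γ => ?_) γ
    rw [map_add, ← add_assoc, ← hθ2, hπ ((m : ℤ), 0)]
    simp
  have heq : ∀ g γ f, Zg g (mon m γ * f) = Zg (g + π γ) f := fun g γ f => by
    have : (Zg g).comp (AddMonoidHom.mulLeft (mon m γ)) = Zg (g + π γ) := GR_ext fun γ' => by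
      change Zg g (mon m γ * mon m γ') = _
      rw [← mon_add, hZg, hZg, map_add, add_assoc g]
    exact DFunLike.congr_fun this f
  have h1 := h _ π Zg heq
  rw [Fintype.sum_prod_type_right] at h1
  have h2 := dinf_sum_sub (f := fun y => ∑ x, (rp (Zg (x, y) A) + rp (-Zg (x, y) B)))
    (c := 2 * (m * H)) (fun y => by
      have := sum_le_card_nsmul univ (fun x => rp (Zg (x, y) A) + rp (-Zg (x, y) B)) 2
        fun x _ => by linarith [rp_le_one (Zg (x, y) A), rp_le_one (-Zg (x, y) B)]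
      simpa [mul_comm] using this) (T := T) (fun l => ((T + w - l : ℕ) : ZMod _)) (by
      intro l hl l' hl' hll
      have hl := mem_range.mp (mem_coe.mp hl)
      have hl' := mem_range.mp (mem_coe.mp hl')
      have := congrArg ZMod.val hll
      simp only [ZMod.val_natCast] at this
      rw [Nat.mod_eq_of_lt (by omega), Nat.mod_eq_of_lt (by omega)] at this
      omega)
  have h3 : ∀ l ∈ range T, ∑ x, (rp (Zg (x, ((T + w - l : ℕ) : ZMod _)) A)
      + rp (-Zg (x, ((T + w - l : ℕ) : ZMod _)) B)) ≤ m * H + (4 * m * Q + 3 * m) -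
      ∑ e ∈ range (m * H), (dgr ((Q + T * (4 * m * Q + 3 * m)) * tr m e / 2 ^ H)
        (Y (mon m ((e : ℤ), -(l : ℤ)))) - dig (X (mon m ((e : ℤ), -(l : ℤ))))) := by
    intro l hl
    have hl := mem_range.mp hl
    obtain ⟨hQa, hQb⟩ := hQ l hl
    have hPl := hP l hl
    have hdbl : ∀ (U : GR m ℤ →+ Tc) (e : ℕ), U (mon m (((e + m : ℕ) : ℤ), -(l : ℤ)))
        = 2 • U (mon m ((e : ℤ), -(l : ℤ))) := fun U e => by
      rw [← map_nsmul, ← mon_add_sig]
      simp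
    have hκ : ∀ e : ℕ, 0 < tr m e / 2 ^ H := fun e => div_pos (tr_pos _) (by positivity)
    have hsA : ∀ e : ℕ, rp (Zg ((e : ZMod (m * H)) + (m * w : ℕ), ((T + w - l : ℕ) : ZMod _)) A)
        ≤ fr (X (mon m ((e : ℤ), -(l : ℤ)))) + Q * tr m e / 2 ^ H := fun e => by
      obtain ⟨δ, hδ, hδe⟩ := hca T H Z θ hθ e l hl
      rw [hZ, hZA, add_assoc (X _), ← AddCircle.coe_add] at hδe
      rw [mul_div_assoc, abs_le] at hδ
      have h4 := hκ e
      have h5 := fr_nonneg (X (mon m ((e : ℤ), -(l : ℤ))))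
      refine (rp_le_of_coe (r := fr (X (mon m ((e : ℤ), -(l : ℤ)))) +
        (P * (τ A * τ A) * r ^ (-(l : ℤ)) * tr m e / 2 ^ H + δ)) ?_ ?_).trans ?_
      · rw [mul_div_assoc]
        nlinarith
      · rw [AddCircle.coe_add, coe_fr, ← hδe]
        conv_rhs => rw [hAe]
        simp only [map_sum, map_zsmul, hZg, hπ]
      · rw [mul_div_assoc, mul_div_assoc]
        nlinarith
    have hsB : ∀ e : ℕ, ∃ δ : ℝ, |δ| ≤ Q * tr m e / 2 ^ H ∧
        Zg ((e : ZMod (m * H)) + (m * w : ℕ), ((T + w - l : ℕ) : ZMod _)) B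
          = Y (mon m ((e : ℤ), -(l : ℤ))) + (δ : Tc) := fun e => by
      obtain ⟨δ, hδ, hδe⟩ := hcb T H Z θ hθ e l hl
      rw [hZ, hZB, add_assoc (Y _), ← AddCircle.coe_add] at hδe
      refine ⟨_, ?_, Eq.trans ?_ hδe⟩
      · have h4 := hκ e
        refine (abs_add_le _ _).trans ?_
        rw [mul_div_assoc] at hδ
        rw [mul_div_assoc, mul_div_assoc, abs_mul, abs_mul, abs_mul, abs_of_nonneg hP0,
          abs_of_pos h4, abs_of_pos (zpow_pos hr _)]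
        nlinarith
      · conv_lhs => rw [hBe]
        simp only [map_sum, map_zsmul, hZg, hπ]
    choose δ hδ hδe using hsB
    have h4 := dinf_sum_fr (x := fun e : ℕ => X (mon m ((e : ℤ), -(l : ℤ)))) (hdbl X) (m * H)
    have h5 := dinf_sum_dgr (y := fun e : ℕ => Y (mon m ((e : ℤ), -(l : ℤ)))) (hdbl Y)
      (κ := fun e : ℕ => Q * tr m e / 2 ^ H) (fun e => by
        push_cast
        rw [tr_add, tr_m]
        ring) hδ (m * H)
    have h6 : ∑ e ∈ range (m * H), Q * tr m e / 2 ^ H ≤ 2 * m * Q := by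
      rw [← sum_div, ← mul_sum, div_le_iff₀ (by positivity)]
      nlinarith [dinf_sum_tr (m := m) H]
    have h7 := sum_le_sum fun e (_ : e ∈ range (m * H)) => hsA e
    have h8 := sum_le_sum fun e (_ : e ∈ range (m * H)) =>
      dgr_anti (κ := Q * tr m e / 2 ^ H) (κ' := (Q + T * (4 * m * Q + 3 * m)) * tr m e / 2 ^ H)
        (by rw [mul_div_assoc, mul_div_assoc]; nlinarith [hκ e]) (Y (mon m ((e : ℤ), -(l : ℤ))))
    rw [dinf_sum_zmod _ ((m * w : ℕ) : ZMod (m * H))]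
    simp only [hδe, rp_neg, sum_add_distrib, sum_sub_distrib, sum_const, card_range,
      nsmul_eq_mul] at h7 ⊢
    push_cast at h7 ⊢
    have : (0 : ℝ) ≤ m := by positivity
    linarith
  have h4 := sum_le_sum h3
  rw [sum_sub_distrib] at h4
  simp only [sum_const, card_range, nsmul_eq_mul, Fintype.card_prod, ZMod.card] at h1 h2 h4
  push_cast at h1 h2 h4 ⊢
  have h5 : (0 : ℝ) ≤ m * H * w := by positivity
  have h6 : (0 : ℝ) ≤ m * H := by positivity
  nlinarith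

end Pool.Agent.GK
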