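import Pool.Agent.Lib.MP_a01f70_lc.GK.GRb

namespace Pool.Agent.GK
open Finset Polynomial

/-- `φ v = ∑ j, v j * M ^ j`, where `M` is not a root of the finitely many nonzero polynomials of the differences -/
theorem exists_injOn {r : ℕ} (S : Finset (Fin r → ℤ)) :
    ∃ φ : (Fin r → ℤ) →+ ℤ, Set.InjOn φ S := by
  classical
  let P : (Fin r → ℤ) → ℤ[X] := fun v => ∑ j, monomial j.1 (v j)
  have hP : ∀ v j, (P v).coeff j.1 = v j := fun v j => by
    simp only [P, finsetSum_coeff, coeff_monomial, Fin.val_inj]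
    simp
  obtain ⟨M, hM⟩ := Infinite.exists_notMem_finset
    ((S ×ˢ S).biUnion fun p => (P p.1 - P p.2).roots.toFinset)
  refine ⟨{ toFun := fun v => ∑ j, v j * M ^ j.1
            map_zero' := by simp
            map_add' := fun v w => by simp [add_mul, sum_add_distrib] }, fun v hv w hw h => ?_⟩
  by_contra hne
  refine hM (mem_biUnion.2 ⟨(v, w), mem_product.2 ⟨hv, hw⟩, Multiset.mem_toFinset.2
    ((mem_roots fun h0 => hne (funext fun j => ?_)).2 ?_)⟩)
  · rw [← hP v j, ← hP w j, sub_eq_zero.1 h0]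
  · simp only [IsRoot.def, P, eval_sub, eval_finsetSum, eval_monomial]
    exact sub_eq_zero.2 h

variable {m : ℕ} [NeZero m]

omit [NeZero m] in
theorem lift_supp {Λ : Type} [AddCommGroup Λ] (φ : Λ →+ ℤ) (F : GR m Λ) {x : ℤ}
    (h : (spec m φ F).coeff x ≠ 0) : ∃ u ∈ F.coeff.support, φ u = x := by
  classical
  exact mem_image.1 (Finsupp.mapDomain_support (Finsupp.mem_support_iff.2 h))

omit [NeZero m] in
theorem lift_disj {Λ : Type} [AddCommGroup Λ] {ι : Type} (φ : Λ →+ ℤ) (s : Finset ι)
    (F : ι → GR m Λ) (v : ι → ℤ) (hd : ∀ i ∈ s, ∀ j ∈ s, i ≠ j → ∀ u ∈ (F i).coeff.support,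
      ∀ u' ∈ (F j).coeff.support, φ u + v i ≠ φ u' + v j)
    (h : ∑ i ∈ s, spec m φ (F i) * AddMonoidAlgebra.single (v i) 1 = 0) {i : ι} (hi : i ∈ s) :
    spec m φ (F i) = 0 := by
  refine AddMonoidAlgebra.ext (Finsupp.ext fun x => ?_)
  by_contra hx
  obtain ⟨u, hu, rfl⟩ := lift_supp φ _ hx
  have h1 := congrArg (fun G : GR m ℤ => G.coeff (φ u + v i)) h
  simp only [AddMonoidAlgebra.coeff_sum, Finsupp.finsetSum_apply,
    AddMonoidAlgebra.coeff_mul_single_apply, mul_one] at h1
  rw [sum_eq_single_of_mem i hi, add_neg_cancel_right] at h1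
  · exact hx h1
  · intro j hj hji
    by_contra h2
    obtain ⟨u', hu', h3⟩ := lift_supp φ _ h2
    exact hd i hi j hj hji.symm u hu u' hu' (by rw [h3]; abel)

omit [NeZero m] in
theorem lift_mul_zero {Λ : Type} [AddCommGroup Λ] (A : GR m Λ) (p : O m) :
    (A * AddMonoidAlgebra.single 0 p).coeff.support ⊆ A.coeff.support := fun x hx => by
  rw [Finsupp.mem_support_iff] at hx ⊢
  rw [AddMonoidAlgebra.coeff_mul_single_zero] at hx
  exact left_ne_zero_of_mul hx

omit [NeZero m] in
theorem lift_mul_zero' {Λ : Type} [AddCommGroup Λ] (A : GR m Λ) (p : O m) :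
    (-A * AddMonoidAlgebra.single 0 p).coeff.support ⊆ A.coeff.support :=
  (lift_mul_zero _ p).trans (by rw [AddMonoidAlgebra.coeff_neg, Finsupp.support_neg])

open scoped Pointwise in
/-- Induction on `k`; the set for `(k + 1, S)` is the union of `S` and the set for `(k, S ∪ (S + S - S))`.
If `φ u + v i = φ u' + v j` for some `i ≠ j` in `s`, `u` in the support of `F i` and `u'` in the support of `F j`, replace `F i` by
`F i + F j * single (u - u') 1` and erase `j`; afterwards put `w j = w i + (u - u')`. Otherwise the supports of the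
terms are disjoint, each `spec m φ (F i)` vanishes, and `F i = 0` by `spec_eq_zero`. -/
theorem lift_sum {Λ : Type} [AddCommGroup Λ] {ι : Type} (k : ℕ) (S : Finset Λ) :
    ∃ S' : Finset Λ, ∀ φ : Λ →+ ℤ, Set.InjOn φ S' → ∀ (s : Finset ι) (F : ι → GR m Λ) (v : ι → ℤ),
      s.card ≤ k → (∀ i ∈ s, (F i).coeff.support ⊆ S) →
      ∑ i ∈ s, spec m φ (F i) * AddMonoidAlgebra.single (v i) 1 = 0 →
      ∃ w : ι → Λ, ∑ i ∈ s, F i * AddMonoidAlgebra.single (w i) 1 = 0 := by
  classical
  induction k generalizing S with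
  | zero =>
    refine ⟨S, fun φ _ s F v hs _ _ => ⟨0, ?_⟩⟩
    rw [card_eq_zero.1 (Nat.le_zero.1 hs), sum_empty]
  | succ k ih =>
    obtain ⟨S', hS'⟩ := ih (S ∪ (S + (S - S)))
    refine ⟨S ∪ S', fun φ hφ s F v hs hF h => ?_⟩
    by_cases hd : ∀ i ∈ s, ∀ j ∈ s, i ≠ j → ∀ u ∈ (F i).coeff.support,
        ∀ u' ∈ (F j).coeff.support, φ u + v i ≠ φ u' + v j
    · refine ⟨0, sum_eq_zero fun i hi => ?_⟩
      rw [spec_eq_zero φ (hφ.mono (coe_subset.2 ((hF i hi).trans subset_union_left)))
        (lift_disj φ s F v hd h hi), zero_mul]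
    · push Not at hd
      obtain ⟨i, hi, j, hj, hij, u, hu, u', hu', e⟩ := hd
      have hi' : i ∈ s.erase j := mem_erase.2 ⟨hij, hi⟩
      obtain ⟨w, hw⟩ := hS' φ (hφ.mono (coe_subset.2 subset_union_right)) (s.erase j)
        (fun l => F l + if l = i then F j * AddMonoidAlgebra.single (u - u') 1 else 0) v
        (by rw [card_erase_of_mem hj]; omega)
        (fun l hl => by
          rw [AddMonoidAlgebra.coeff_add]
          refine Finsupp.support_add.trans (union_subset_union (hF l (mem_of_mem_erase hl)) ?_)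
          split_ifs
          · intro x hx
            rw [Finsupp.mem_support_iff, AddMonoidAlgebra.coeff_mul_single_apply, mul_one] at hx
            rw [show x = x + -(u - u') + (u - u') by abel]
            exact add_mem_add (hF j hj (Finsupp.mem_support_iff.2 hx))
              (sub_mem_sub (hF i hi hu) (hF j hj hu'))
          · simp)
        (by
          rw [← add_sum_erase s _ hj, add_comm] at h
          simp only [map_add, apply_ite (spec m φ), map_zero, add_mul, ite_mul, zero_mul,
            sum_add_distrib, sum_ite_eq', if_pos hi', map_mul, spec_single, mul_assoc,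
            AddMonoidAlgebra.single_mul_single, mul_one]
          rwa [show φ (u - u') + v i = v j by rw [map_sub]; omega])
      refine ⟨Function.update w j (u - u' + w i), ?_⟩
      simp only [add_mul, ite_mul, zero_mul, sum_add_distrib, sum_ite_eq', if_pos hi', mul_assoc,
        AddMonoidAlgebra.single_mul_single, mul_one] at hw
      rw [← add_sum_erase s _ hj, add_comm, Function.update_self, ← hw]
      congr 1
      exact sum_congr rfl fun l hl => by rw [Function.update_of_ne (ne_of_mem_erase hl)]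

/-- `lift_sum` with `ι = Fin 4`, `k = 4`, `S` the union of the supports of `A` and `B`, `φ` injective on `S ∪ S'`. The terms are
`A * single 0 (tz e₁)`, `A * single 0 (tz e₂)`, `-B * single 0 (tz e₃)`, `-B * single 0 (tz e₄)`, or
`A * single 0 p`, `-B * single 0 q`, `0`, `0`. -/
theorem form_lift {r : ℕ} {A B : GR m (Fin r → ℤ)} (hA : A ≠ 0) (hB : B ≠ 0)
    (h : ∀ φ : (Fin r → ℤ) →+ ℤ, spec m φ A ≠ 0 → spec m φ B ≠ 0 →
      FormF (spec m φ A) (spec m φ B) ∨ FormQ (spec m φ A) (spec m φ B)) :
    FormF A B ∨ FormQ A B := by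
  classical
  obtain ⟨S₂, h₂⟩ := lift_sum (m := m) (ι := Fin 2) 2 (A.coeff.support ∪ B.coeff.support)
  obtain ⟨S₄, h₄⟩ := lift_sum (m := m) (ι := Fin 4) 4 (A.coeff.support ∪ B.coeff.support)
  obtain ⟨φ, hφ⟩ := exists_injOn ((A.coeff.support ∪ B.coeff.support) ∪ (S₂ ∪ S₄))
  have sA := fun p => (lift_mul_zero A p).trans (subset_union_left (s₂ := B.coeff.support))
  have sB := fun p => (lift_mul_zero' B p).trans (subset_union_right (s₁ := A.coeff.support))
  rcases h φ
    (fun h0 => hA (spec_eq_zero φ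
      (hφ.mono (coe_subset.2 (subset_union_left.trans subset_union_left))) h0))
    (fun h0 => hB (spec_eq_zero φ
      (hφ.mono (coe_subset.2 (subset_union_right.trans subset_union_left))) h0)) with
    ⟨p, q, v, hp, hq, e⟩ | ⟨γ₁, γ₂, γ₃, γ₄, e⟩
  · obtain ⟨w, hw⟩ := h₂ φ (hφ.mono (coe_subset.2 (subset_union_left.trans subset_union_right)))
      univ ![A * AddMonoidAlgebra.single 0 p, -B * AddMonoidAlgebra.single 0 q] ![v, 0] (by simp)
      (fun i _ => by fin_cases i; exacts [sA p, sB q])
      (by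
        simp only [Fin.sum_univ_two, Matrix.cons_val, map_mul, map_neg, spec_single, map_zero,
          mul_assoc, AddMonoidAlgebra.single_mul_single, zero_add, mul_one]
        linear_combination e)
    refine Or.inl ⟨p, q, w 0 - w 1, hp, hq, ?_⟩
    have h1 := congrArg (· * AddMonoidAlgebra.single (-w 1) (1 : O m)) hw
    simp only [Fin.sum_univ_two, Matrix.cons_val, add_mul, mul_assoc,
      AddMonoidAlgebra.single_mul_single, zero_add, mul_one, add_neg_cancel, zero_mul] at h1
    rw [sub_eq_add_neg]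
    linear_combination h1
  · obtain ⟨w, hw⟩ := h₄ φ (hφ.mono (coe_subset.2 (subset_union_right.trans subset_union_right)))
      univ ![A * AddMonoidAlgebra.single 0 (tz m γ₁.1), A * AddMonoidAlgebra.single 0 (tz m γ₂.1),
        -B * AddMonoidAlgebra.single 0 (tz m γ₃.1), -B * AddMonoidAlgebra.single 0 (tz m γ₄.1)]
      ![γ₁.2, γ₂.2, γ₃.2, γ₄.2] (by simp)
      (fun i _ => by fin_cases i; exacts [sA _, sA _, sB _, sB _])
      (by
        simp only [Fin.sum_univ_four, Matrix.cons_val, map_mul, map_neg, spec_single, map_zero,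
          mul_assoc, AddMonoidAlgebra.single_mul_single, zero_add, mul_one]
        simp only [mon] at e
        linear_combination e)
    refine Or.inr ⟨(γ₁.1, w 0), (γ₂.1, w 1), (γ₃.1, w 2), (γ₄.1, w 3), ?_⟩
    simp only [Fin.sum_univ_four, Matrix.cons_val, mul_assoc, AddMonoidAlgebra.single_mul_single,
      zero_add, mul_one] at hw
    simp only [mon]
    linear_combination hw

end Pool.Agent.GK
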