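import Pool.Agent.Lib.MP_a01f70_lc.GK.GRb

namespace Pool.Agent.GK
open Finset Polynomial

variable {m : ℕ} [NeZero m]

omit [NeZero m] in
theorem RedE_clear (p : (KK m)[X]) :
    ∃ (c : O m) (a : (O m)[X]), c ≠ 0 ∧ rl a = C (c : ℝ) * p.map (KK m).subtype := by
  induction p using Polynomial.induction_on' with
  | add p q hp hq =>
    obtain ⟨c, a, hc, ha⟩ := hp
    obtain ⟨d, b, hd, hb⟩ := hq
    refine ⟨c * d, C d * a + C c * b, mul_ne_zero hc hd, ?_⟩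
    simp only [rl] at ha hb ⊢
    simp only [Polynomial.map_add, Polynomial.map_mul, map_C, ha, hb, Subring.coe_subtype,
      Subring.coe_mul, C_mul]
    ring
  | monomial k x =>
    obtain ⟨p, q, hq, hx⟩ := mem_KK.1 x.2
    refine ⟨q, monomial k p, hq, ?_⟩
    have hq' : (q : ℝ) ≠ 0 := fun h => hq (Subtype.ext h)
    simp only [rl, map_monomial, Subring.coe_subtype, Subfield.coe_subtype, C_mul_monomial, hx]
    rw [mul_div_cancel₀ _ hq']

theorem RedE_gcd {K L : Type} [Field K] [Field L] (f : K →+* L) {a : K[X]} (h : a ≠ 0)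
    (b : K[X]) : ∃ a' b' g : K[X], IsCoprime (a'.map f) (b'.map f) ∧
      a.map f = g.map f * a'.map f ∧ b.map f = g.map f * b'.map f := by
  obtain ⟨a', b', g, hab, rfl, rfl⟩ := UniqueFactorizationMonoid.exists_reduced_factors a h b
  exact ⟨a', b', g, hab.isCoprime.map (mapRingHom f), Polynomial.map_mul f, Polynomial.map_mul f⟩

omit [NeZero m] in
theorem RedE_lift (a : (O m)[X]) : ∃ p : (KK m)[X], p.map (KK m).subtype = rl a :=
  (mem_lifts _).1 ((lifts_iff_coeff_lifts _).2 fun k =>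
    ⟨⟨a.coeff k, O_le_KK (a.coeff k).2⟩, (rl_coeff a k).symm⟩)

/-- reduction of the fraction -/
theorem exists_red {A B : GR m ℤ} (hA : A ≠ 0) (hB : B ≠ 0) :
    ∃ (a b : (O m)[X]) (j : ℤ), Red a b ∧ A * (mon m (0, j) * pl b) = B * pl a := by
  obtain ⟨i, a₁, ha₁, rfl⟩ := exists_pl hA
  obtain ⟨j, b₁, hb₁, rfl⟩ := exists_pl hB
  obtain ⟨p, hp⟩ := RedE_lift a₁
  obtain ⟨q, hq⟩ := RedE_lift b₁
  have hco : ∀ a : (O m)[X], a.coeff 0 ≠ 0 → (rl a).coeff 0 ≠ 0 := fun a ha h =>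
    ha (Subtype.ext (by rwa [rl_coeff] at h))
  have h0 : p ≠ 0 := fun h => hco a₁ ha₁ (by rw [← hp, h, Polynomial.map_zero, coeff_zero])
  obtain ⟨a₂, b₂, g, hab, e1, e2⟩ := RedE_gcd (KK m).subtype h0 q
  rw [hp] at e1
  rw [hq] at e2
  obtain ⟨c, a₃, hc, ha₃⟩ := RedE_clear a₂
  obtain ⟨d, b₃, hd, hb₃⟩ := RedE_clear b₂
  have hc' : (c : ℝ) ≠ 0 := fun h => hc (Subtype.ext h)
  have hd' : (d : ℝ) ≠ 0 := fun h => hd (Subtype.ext h)
  have hC : ∀ x : O m, rl (C x) = C (x : ℝ) := fun x => map_C _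
  have e3 : rl (C d * a₃) = C ((d : ℝ) * c) * a₂.map (KK m).subtype := by
    rw [rl_mul, hC, ha₃, C_mul, mul_assoc]
  have e4 : rl (C c * b₃) = C ((d : ℝ) * c) * b₂.map (KK m).subtype := by
    rw [rl_mul, hC, hb₃, C_mul]
    ring
  have hu : IsUnit (C ((d : ℝ) * c)) := isUnit_C.2 (mul_ne_zero hd' hc').isUnit
  have hz : ∀ (a a' : (O m)[X]) (p : ℝ[X]), a.coeff 0 ≠ 0 → rl a = g.map (KK m).subtype * p →
      rl a' = C ((d : ℝ) * c) * p → a'.coeff 0 ≠ 0 := fun a a' p ha h h' h'' => by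
    have h1 := hco a ha
    rw [h, mul_coeff_zero] at h1
    have h2 : (rl a').coeff 0 = 0 := by rw [rl_coeff, h'', Subring.coe_zero]
    rw [h', coeff_C_mul] at h2
    exact mul_ne_zero (mul_ne_zero hd' hc') (right_ne_zero_of_mul h1) h2
  refine ⟨C d * a₃, C c * b₃, j - i, ⟨?_, hz _ _ _ ha₁ e1 e3, hz _ _ _ hb₁ e2 e4⟩, ?_⟩
  · rwa [e3, e4, isCoprime_mul_unit_left hu]
  · have e5 : a₁ * (C c * b₃) = b₁ * (C d * a₃) := rl_injective (by
      rw [rl_mul a₁, rl_mul b₁, e1, e2, e3, e4]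
      ring)
    have e6 : mon m ((0 : ℤ), j) = mon m ((0 : ℤ), i) * mon m ((0 : ℤ), j - i) := by
      rw [← mon_add]
      simp
    rw [e6, mul_mul_mul_comm, ← map_mul, e5, map_mul pl b₁]
    ring

end Pool.Agent.GK
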