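import Pool.Agent.Lib.MP_a01f70_lc.GK.D1
import Pool.Agent.Lib.MP_a01f70_lc.GK.D2
import Pool.Agent.Lib.MP_a01f70_lc.GK.Const
import Pool.Agent.Lib.MP_a01f70_lc.GK.DinfE
import Pool.Agent.Lib.MP_a01f70_lc.GK.Lift
import Pool.Agent.Lib.MP_a01f70_lc.GK.RedE

namespace Pool.Agent.GK
open Finset Polynomial

variable {m : ℕ} [NeZero m]

theorem FormF.symm {Λ : Type} [AddCommGroup Λ] {A B : GR m Λ} (h : FormF A B) : FormF B A := by
  obtain ⟨p, q, v, hp, hq, h⟩ := h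
  refine ⟨q, p, -v, hq, hp, ?_⟩
  have := congrArg (· * AddMonoidAlgebra.single (-v) (1 : O m)) h
  simpa only [mul_assoc, AddMonoidAlgebra.single_mul_single, mul_one, zero_add,
    add_neg_cancel] using this.symm

theorem FormQ.symm {Λ : Type} [AddCommGroup Λ] {A B : GR m Λ} (h : FormQ A B) : FormQ B A := by
  obtain ⟨a, b, c, d, h⟩ := h
  exact ⟨c, d, a, b, h.symm⟩

theorem Red.symm {a b : (O m)[X]} (h : Red a b) : Red b a :=
  ⟨h.cop.symm, h.b0, h.a0⟩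

theorem form_congr {A B A' B' : GR m ℤ} (hA' : A' ≠ 0) {j : ℤ}
    (he : A * (mon m (0, j) * B') = B * A') (h : FormF A' B' ∨ FormQ A' B') :
    FormF A B ∨ FormQ A B := by
  rcases h with ⟨p, q, v, hp, hq, h⟩ | ⟨γ₁, γ₂, γ₃, γ₄, h⟩
  · refine .inl ⟨tz m 0 * p, q, j + v, mul_pos (Real.rpow_pos_of_pos two_pos _) hp, hq,
      mul_left_cancel₀ hA' ?_⟩
    rw [← mon_mul_single (0, j)]
    linear_combination A * mon m (0, j) * h + AddMonoidAlgebra.single 0 q * he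
  · refine .inr ⟨(0, j) + γ₁, (0, j) + γ₂, γ₃, γ₄, mul_left_cancel₀ hA' ?_⟩
    rw [mon_add, mon_add]
    linear_combination A * mon m (0, j) * h + (mon m γ₃ + mon m γ₄) * he

/-- `exists_red`; `Dinf (pl a) (pl b)` and `Dinf (pl b) (pl a)` from `DD.dinf`, `DD.symm`, `Dinf.congr`, `Dinf.shift`;
`d1`, `Dinf.tl`, `TL.sm`, `d2`, `form_of_shape` (for `(a, b)` or `(b, a)`), `form_congr` -/
theorem form_rank_one {A B : GR m ℤ} (hA : A ≠ 0) (hB : B ≠ 0) (h : DD A B) :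
    FormF A B ∨ FormQ A B := by
  obtain ⟨a, b, j, hr, he⟩ := exists_red hA hB
  have h0 : ∀ c : (O m)[X], c.coeff 0 ≠ 0 → pl c ≠ 0 := fun c hc h =>
    hc (by rw [pl_injective (h.trans (map_zero pl).symm), coeff_zero])
  have h1 : ∀ c : GR m ℤ, mon m (0, 0) * c = c := fun c =>
    (congrArg (· * c) mon_zero).trans (one_mul c)
  have h2 : Dinf (pl a) (pl b) := Dinf.shift 0 j (by
    rw [h1]
    exact (h.dinf hA).congr hA (h0 a hr.a0) he)
  have h3 : Dinf (pl b) (pl a) := Dinf.shift j 0 (by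
    rw [h1]
    exact (h.symm.dinf hB).congr hB (mul_ne_zero (mon_ne_zero _) (h0 b hr.b0)) he.symm)
  have h4 : ∀ c : (O m)[X], (c.natDegree = 0 ∨ ∃ (i : ℤ) (k : ℕ), Bin (rl c) (tr m i) k) →
      (rl c).natDegree = 0 ∨ ∃ d k, Bin (rl c) d k := fun c hc =>
    hc.imp (rl_natDegree c).trans fun ⟨_, k, h⟩ => ⟨_, k, h⟩
  have h5 : ∀ c : (O m)[X], c.coeff 0 ≠ 0 → (rl c).coeff 0 ≠ 0 := fun c hc => by
    rw [rl_coeff]
    exact_mod_cast hc
  have ta := h2.tl hr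
  have tb := h3.tl hr.symm
  have da := d1 hr h2
  have db := d1 hr.symm h3
  refine form_congr (h0 a hr.a0) he ?_
  rcases d2 hr.cop (h5 a hr.a0) (h5 b hr.b0) ta.sm tb.sm (h4 a da) (h4 b db) with hs | hs
  · exact form_of_shape hr ta tb da db hs
  · exact (form_of_shape hr.symm tb ta db da hs).imp FormF.symm FormQ.symm

theorem form_of_dd {r : ℕ} {A B : GR m (Fin r → ℤ)} (hA : A ≠ 0) (hB : B ≠ 0) (h : DD A B) :
    FormF A B ∨ FormQ A B :=
  form_lift hA hB fun φ h1 h2 => form_rank_one h1 h2 (h.spec φ)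

end Pool.Agent.GK
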