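import Pool.Agent.Lib.MP_a01f70_lc.GK.CoB

namespace Pool.Agent.GK
open Finset Polynomial

variable {m : ℕ} [NeZero m]

theorem coc_inj : ∃ j : AddCircle (1 : ℚ) →+ Tc, ∀ x, j x = 0 → x = 0 := by
  refine ⟨QuotientAddGroup.lift _ ((QuotientAddGroup.mk' (AddSubgroup.zmultiples (1 : ℝ))).comp
    (Rat.castHom ℝ).toAddMonoidHom) ?_, fun x => ?_⟩
  · rintro _ ⟨n, rfl⟩
    refine (AddCircle.coe_eq_zero_iff (1 : ℝ)).2 ⟨n, ?_⟩
    simp
  · induction x using QuotientAddGroup.induction_on with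
    | H x =>
      intro h
      obtain ⟨n, hn⟩ := (AddCircle.coe_eq_zero_iff (1 : ℝ)).1 h
      refine (AddCircle.coe_eq_zero_iff (1 : ℚ)).2 ⟨n, ?_⟩
      have h2 : (n : ℝ) = (x : ℝ) := by simpa using hn
      rw [zsmul_eq_mul, mul_one]
      exact_mod_cast h2

/-- a nonzero character of odd order on the quotient by a proper nonzero ideal: `I` contains an odd `N₀`
(`exists_odd_mul`), `D = φ N₀`; a character of the group `O m ⧸ I` that does not vanish at `1`
(`CharacterModule.exists_character_apply_ne_zero_of_ne_zero` followed by the injection `ℚ / ℤ → ℝ / ℤ`, or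
`Module.Baer.of_divisible`) -/
theorem exists_omega (I : Ideal (O m)) (h0 : I ≠ ⊥) (h1 : I ≠ ⊤) :
    ∃ (D : ℕ) (ω : O m →+ Tc), 0 < D ∧ (∀ r ∈ I, ω r = 0) ∧ (∀ r, (2 ^ D - 1) • ω r = 0) ∧
      ω 1 ≠ 0 := by
  obtain ⟨x, hx, hx0⟩ := Submodule.exists_mem_ne_zero_of_ne_bot h0
  obtain ⟨y, a, ha, hxy⟩ := exists_odd_mul hx0
  have haI : (a : O m) ∈ I := hxy ▸ I.mul_mem_right y hx
  have h2 : Ideal.Quotient.mk I 1 ≠ 0 := fun h =>
    h1 ((Ideal.eq_top_iff_one I).2 (Ideal.Quotient.eq_zero_iff_mem.1 h))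
  obtain ⟨χ, hχ⟩ := CharacterModule.exists_character_apply_ne_zero_of_ne_zero h2
  obtain ⟨j, hj⟩ := coc_inj
  obtain ⟨ω, hω⟩ : ∃ ω : O m →+ Tc, ∀ r, ω r = j (χ (Ideal.Quotient.mk I r)) :=
    ⟨j.comp (AddMonoidHom.comp χ (Ideal.Quotient.mk I).toAddMonoidHom), fun _ => rfl⟩
  have h3 : ∀ r ∈ I, ω r = 0 := fun r hr => by
    rw [hω, Ideal.Quotient.eq_zero_iff_mem.2 hr, map_zero, map_zero]
  refine ⟨Nat.totient a, ω, Nat.totient_pos.2 ha.pos, h3, fun r => ?_,
    fun h => hχ (hj _ (hω 1 ▸ h))⟩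
  have h4 : 2 ^ Nat.totient a ≡ 1 [MOD a] :=
    Nat.ModEq.pow_totient (Nat.coprime_two_left.2 ha)
  obtain ⟨w, hw⟩ := (Nat.modEq_iff_dvd' Nat.one_le_two_pow).1 h4.symm
  rw [← map_nsmul, hw, nsmul_eq_mul, Nat.cast_mul, mul_assoc]
  exact h3 _ (I.mul_mem_right _ haI)

/-- a nonzero point of order dividing `2 ^ D - 1` has a nonzero digit (`sum_fr`, `two_fr`) -/
theorem exists_dig {D : ℕ} (hD : 0 < D) {x : Tc} (h : (2 ^ D - 1) • x = 0) (h0 : x ≠ 0) :
    ∃ s < D, dig (2 ^ s • x) = 1 := by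
  by_contra hn
  have h1 : ∀ s ∈ range D, dig (2 ^ s • x) = 0 := fun s hs =>
    (dig_cases _).resolve_right fun h => hn ⟨s, mem_range.1 hs, h⟩
  have h2 : 2 ^ D • x = x := by
    rw [← Nat.sub_add_cancel (Nat.one_le_two_pow (n := D)), add_nsmul, h, one_nsmul, zero_add]
  have h3 := sum_fr x D
  rw [sum_eq_zero h1, h2, zero_add, sub_self,
    sum_eq_zero_iff_of_nonneg fun s _ => fr_nonneg _] at h3
  have h4 := h3 0 (mem_range.2 hD)
  rw [pow_zero, one_nsmul] at h4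
  exact h0 (fr_eq_zero.1 h4)

omit [NeZero m] in
theorem coc_low {u : O m} {η : GR m ℤ} {L : ℤ} (h : ∀ l < L, u ∣ η.coeff l) (M : (O m)[X]) :
    ∀ l < L, u ∣ (η * pl M).coeff l := by
  induction M using Polynomial.induction_on' with
  | add p q hp hq =>
    intro l hl
    rw [map_add, mul_add, AddMonoidAlgebra.coeff_add, Finsupp.add_apply]
    exact dvd_add (hp l hl) (hq l hl)
  | monomial k r =>
    intro l hl
    rw [pl_monomial, AddMonoidAlgebra.coeff_mul_single_apply]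
    exact (h _ (by omega)).mul_right r

/-- `N` with constant coefficient `1` is not a zero divisor modulo `u` (induction from the lowest line) -/
theorem dvd_coeff {u : O m} {η ξ : GR m ℤ} {N : (O m)[X]} (hN : N.coeff 0 = 1)
    (h : η * pl N = ξ * AddMonoidAlgebra.single 0 u) (l : ℤ) : u ∣ η.coeff l := by
  classical
  by_contra hn
  have hS : ∀ l, ¬ u ∣ η.coeff l → l ∈ η.coeff.support.filter fun l => ¬ u ∣ η.coeff l :=
    fun l hl => mem_filter.2 ⟨Finsupp.mem_support_iff.2 fun h0 => hl (h0 ▸ dvd_zero u), hl⟩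
  obtain ⟨L, hL, hmin⟩ := exists_min_image _ id ⟨l, hS l hn⟩
  have h1 : ∀ l < L, u ∣ η.coeff l := fun l hl => by
    by_contra hc
    exact absurd (hmin l (hS l hc)) (not_le.2 hl)
  have h2 : η * pl N = η * pl N.divX * AddMonoidAlgebra.single 1 1 + η := by
    conv_lhs => rw [← divX_mul_X_add N, hN, ← monomial_one_one_eq_X]
    rw [map_add, map_mul, pl_monomial, map_one, map_one, mul_add, mul_one, mul_assoc, Nat.cast_one]
  have h3 := congrArg (fun f : GR m ℤ => f.coeff L) (h2.symm.trans h)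
  simp only [AddMonoidAlgebra.coeff_add, Finsupp.add_apply,
    AddMonoidAlgebra.coeff_mul_single_apply, mul_one] at h3
  have h4 := coc_low h1 N.divX (L + -1) (by omega)
  refine (mem_filter.1 hL).2 ((dvd_add_right h4).1 ?_)
  rw [h3]
  exact dvd_mul_left _ _

theorem coc_grow {p : ℕ} (hp : 0 < p) {F : ℕ → ℝ} (h0 : ∀ l, 0 ≤ F l) (h1 : ∀ j, 1 ≤ F (p * j))
    (j : ℕ) : (j : ℝ) ≤ ∑ l ∈ range (p * j), F l := by
  induction j with
  | zero => simp
  | succ j ih =>
    rw [mul_add, mul_one, sum_range_add, Nat.cast_succ]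
    exact add_le_add ih ((h1 j).trans
      (single_le_sum (f := fun i => F (p * j + i)) (fun i _ => h0 _) (mem_range.2 hp)))

/-- The constant is integral. Let `I = {r | a.coeff 0 ∣ b.coeff 0 * r}` (an ideal that contains `a.coeff 0`); suppose
`I ≠ ⊤`. If `η * pl b = ξ * pl a` then `η * b₀ * pl N = ξ * pl Q * a₀` (cancel `pl a`), so all coefficients of `η` lie in
`I` (`dvd_coeff`). Take `r` from `BinMin.ground_pos` (`i = j = 0`), `X = 0`,
`Y = lines fun l => if 0 < r (-l) then ω else 0` (valid by `lines_apply`). In `TL.gain` each line `2 k j` contributes at least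
`1` (`exists_dig`, site `e = m * s`, `tz_mul_m`). -/
theorem TL.dvd {a b : (O m)[X]} (h : TL a b) {c : ℝ} {k : ℕ} (hm : BinMin (rl a) c k)
    (ha : a.coeff 0 ≠ 0) {Q N : (O m)[X]} (hN : N.coeff 0 = 1)
    (hQ : C (a.coeff 0) * b * Q = C (b.coeff 0) * a * N) : a.coeff 0 ∣ b.coeff 0 := by
  classical
  by_contra hn
  obtain ⟨I, hI⟩ : ∃ I : Ideal (O m), ∀ r, r ∈ I ↔ a.coeff 0 ∣ r * b.coeff 0 :=
    ⟨Submodule.comap (LinearMap.mulRight (O m) (b.coeff 0)) (Ideal.span {a.coeff 0}),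
      fun r => Ideal.mem_span_singleton⟩
  obtain ⟨D, ω, hD, hω, ht, h1⟩ := exists_omega I
    (fun h => ha (by
      have := (hI _).2 (dvd_mul_right (a.coeff 0) _)
      rwa [h, Ideal.mem_bot] at this))
    (fun h => hn (by simpa using (hI 1).1 (h ▸ Submodule.mem_top)))
  obtain ⟨r, hr, hp, hn0, hr0, -⟩ := hm.ground_pos 0 0 (Or.inl rfl)
  have hc : 0 < c := hm.2.1.1
  have hk : 0 < k := hm.2.1.2.1
  obtain ⟨Y, hY⟩ : ∃ Y : GR m ℤ →+ Tc, Y = lines fun l => if 0 < r (-l) then ω else 0 := ⟨_, rfl⟩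
  have ha0 : pl a ≠ 0 := fun h => ha (by
    rw [pl_injective (h.trans (map_zero pl).symm), coeff_zero])
  have hv : Valid (pl a) (pl b) 0 Y := fun η ξ hη => by
    have h2 := congrArg pl hQ
    simp only [map_mul, pl_C] at h2
    have h3 : η * AddMonoidAlgebra.single 0 (b.coeff 0) * pl N =
        ξ * pl Q * AddMonoidAlgebra.single 0 (a.coeff 0) := by
      refine mul_right_cancel₀ ha0 ?_
      linear_combination (pl Q * AddMonoidAlgebra.single 0 (a.coeff 0)) * hη - η * h2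
    rw [hY, lines_apply, AddMonoidHom.zero_apply]
    refine sum_eq_zero fun l _ => ?_
    have h4 := dvd_coeff hN h3 l
    rw [AddMonoidAlgebra.coeff_mul_single_zero] at h4
    split_ifs
    · exact hω _ ((hI _).2 h4)
    · rfl
  have hYt : ∀ f, (2 ^ D - 1) • Y f = 0 := fun f => by
    rw [hY, lines_apply, smul_sum]
    refine sum_eq_zero fun l _ => ?_
    split_ifs
    · exact ht _
    · exact smul_zero _
  obtain ⟨C, hC⟩ := h.gain hD hv (fun f => smul_zero _) hYt hr hc hp hn0 fun l e hl => by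
    rw [hY, lines_mon, neg_neg, if_neg (not_lt.2 hl.le), AddMonoidHom.zero_apply]
  simp only [AddMonoidHom.zero_apply, dig_zero, sub_zero] at hC
  obtain ⟨s, hs, hd⟩ := exists_dig hD (ht 1) h1
  have h5 : ∀ l : ℕ, 0 < r l →
      1 ≤ ∑ e ∈ range (m * D), dig (Y (mon m ((e : ℤ), -(l : ℤ)))) := fun l hl => by
    refine le_trans (le_of_eq ?_) (single_le_sum
      (f := fun e : ℕ => dig (Y (mon m ((e : ℤ), -(l : ℤ))))) (fun e _ => dig_nonneg _)
      (mem_range.2 (Nat.mul_lt_mul_of_pos_left hs (NeZero.pos m))))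
    rw [← map_nsmul, nsmul_eq_mul, mul_one, Nat.cast_pow, Nat.cast_ofNat] at hd
    rw [hY, lines_mon, neg_neg, if_pos hl, Nat.cast_mul, tz_mul_m, hd]
  have h6 : ∀ j : ℕ, 0 < r (2 * k * j : ℕ) := fun j => by
    induction j with
    | zero => simpa using hr0
    | succ j ih =>
      rw [show ((2 * k * (j + 1) : ℕ) : ℤ) = (2 * k * j : ℕ) + k + k by push_cast; ring, hp, hp]
      nlinarith [mul_pos (mul_pos hc hc) ih]
  have h7 := coc_grow (p := 2 * k) (by omega)
    (F := fun l : ℕ => ∑ e ∈ range (m * D), dig (Y (mon m ((e : ℤ), -(l : ℤ)))))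
    (fun l => sum_nonneg fun e _ => dig_nonneg _) fun j => h5 _ (h6 j)
  obtain ⟨j, hj⟩ := exists_nat_gt C
  exact absurd ((h7 j).trans (hC j)) (not_le.2 hj)

end Pool.Agent.GK
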