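import Pool.Agent.Lib.MP_a01f70_lc.GK.Bas
import Pool.Agent.Lib.MP_a01f70_lc.GK.GRb

namespace Pool.Agent.GK
open Finset Polynomial

variable {m : ℕ}

theorem DD.symm {Λ : Type} [AddCommGroup Λ] {A B : GR m Λ} (h : DD A B) : DD B A := by
  intro G _ _ π Z hZ
  have h1 := h G π (fun g => -Z g) fun g γ f => by
    rw [AddMonoidHom.neg_apply, AddMonoidHom.neg_apply, hZ]
  refine h1.trans (le_of_eq (sum_congr rfl fun g _ => ?_))
  rw [AddMonoidHom.neg_apply, AddMonoidHom.neg_apply, neg_neg, add_comm]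

theorem DD.spec {Λ Λ' : Type} [AddCommGroup Λ] [AddCommGroup Λ'] {A B : GR m Λ} (h : DD A B)
    (φ : Λ →+ Λ') : DD (spec m φ A) (spec m φ B) := by
  intro G _ _ π Z hZ
  exact h G (π.comp ((AddMonoidHom.id ℤ).prodMap φ))
    (fun g => (Z g).comp (GK.spec m φ).toAddMonoidHom) fun g γ f => by
      change Z g (GK.spec m φ (mon m γ * f)) = Z (g + π (γ.1, φ γ.2)) (GK.spec m φ f)
      rw [map_mul, spec_mon, hZ]

theorem Valid.exists_char {A B : GR m ℤ} {X Y : GR m ℤ →+ Tc} (h : Valid A B X Y) :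
    ∃ Z : GR m ℤ →+ Tc, (∀ f, Z (f * A) = X f) ∧ ∀ f, Z (f * B) = Y f := by
  let φ : GR m ℤ × GR m ℤ →+ GR m ℤ := (AddMonoidHom.mulRight A).coprod (AddMonoidHom.mulRight B)
  have hker : φ.ker ≤ (X.coprod Y).ker := by
    rintro ⟨f, g⟩ hfg
    have h1 : f * A + g * B = 0 := hfg
    have h2 := h g (-f) (by linear_combination h1)
    change X f + Y g = 0
    rw [h2, map_neg, add_neg_cancel]
  obtain ⟨Z, hZ⟩ := (Module.Baer.of_divisible Tc).extension_property_addMonoidHom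
    (M := (GR m ℤ × GR m ℤ) ⧸ φ.ker) (N := GR m ℤ) (QuotientAddGroup.kerLift φ) (QuotientAddGroup.kerLift_injective φ)
    (QuotientAddGroup.lift φ.ker (X.coprod Y) hker)
  have key : ∀ f g, Z (f * A + g * B) = X f + Y g := fun f g =>
    DFunLike.congr_fun hZ (QuotientAddGroup.mk (f, g))
  refine ⟨Z, fun f => ?_, fun f => ?_⟩
  · simpa using key f 0
  · simpa using key 0 f

end Pool.Agent.GK
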