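import Pool.Agent.Lib.MP_a01f70_lc.GK.D1Defs

/-! Algebraic numbers. -/

noncomputable section

namespace Pool.Agent.GK
open Finset Polynomial

variable {m : ℕ} [NeZero m]

theorem pg_tr (e : ℤ) : ((tr m e : ℝ) : ℂ) ∈ algebraicClosure ℚ ℂ := by
  refine mem_algebraicClosure_iff.2 (IsAlgebraic.of_pow (NeZero.pos m) ?_)
  rw [← Complex.ofReal_pow, tr_pow, mul_comm, tr_mul_m, ← mem_algebraicClosure_iff]
  push_cast
  exact zpow_mem (ofNat_mem _ 2) e

/-- `tr m e ^ m = 2 ^ e`; `O_induction`. -/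
theorem alg_O (r : O m) : IsAlgebraic ℚ ((r : ℝ) : ℂ) := by
  rw [← mem_algebraicClosure_iff]
  induction r using O_induction with
  | h0 => simp
  | hm e => exact pg_tr e
  | ha x y hx hy =>
    push_cast
    exact add_mem hx hy
  | hn x hx =>
    push_cast
    exact neg_mem hx

/-- `exists_pl`, `evC_pl`; a root of a nonzero polynomial over `algebraicClosure ℚ ℂ` is algebraic. -/
theorem alg_root {A : GR m ℤ} (hA0 : A ≠ 0) (ρ : ℂˣ) (hA : evC m ρ A = 0) :
    IsAlgebraic ℚ (ρ : ℂ) := by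
  obtain ⟨j, a, ha, rfl⟩ := exists_pl hA0
  rw [map_mul, ((isUnit_mon (0, j)).map (evC m ρ)).mul_right_eq_zero, evC_pl] at hA
  obtain ⟨P, hP⟩ : ∃ P : (algebraicClosure ℚ ℂ)[X],
      P.map (algebraMap (algebraicClosure ℚ ℂ) ℂ) = (rl a).map (algebraMap ℝ ℂ) := by
    rw [← Polynomial.mem_lifts, Polynomial.lifts_iff_coeff_lifts]
    intro n
    refine ⟨⟨_, mem_algebraicClosure_iff.2 (alg_O (a.coeff n))⟩, ?_⟩
    rw [coeff_map, rl_coeff]
    rfl
  have h1 : IsAlgebraic (algebraicClosure ℚ ℂ) (ρ : ℂ) := by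
    refine ⟨P, fun e => ha ?_, ?_⟩
    · have h2 := congrArg (fun p => coeff p 0) hP
      simp only [e, Polynomial.map_zero, coeff_zero, coeff_map, rl_coeff] at h2
      exact Subtype.ext ((map_eq_zero (algebraMap ℝ ℂ)).1 h2.symm)
    · rw [← eval_map_algebraMap, hP, eval_map_algebraMap, hA]
  by_contra h3
  exact Transcendental.algebraicClosure h3 h1

theorem alg_mon {ρ : ℂˣ} (h : IsAlgebraic ℚ (ρ : ℂ)) (γ : ℤ × ℤ) :
    IsAlgebraic ℚ (evC m ρ (mon m γ)) := by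
  rw [evC_mon, Units.val_zpow_eq_zpow_val, ← mem_algebraicClosure_iff]
  exact mul_mem (pg_tr _) (zpow_mem (mem_algebraicClosure_iff.2 h) _)

end Pool.Agent.GK
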