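import Mathlib

/-!
Delayed sign changes.
-/

set_option autoImplicit false

noncomputable section

namespace Pool.Agent.GK

open Finset

/-- One more source. -/
theorem tw_step {g : ℤ → ℝ} {a b : ℝ} {D : ℕ} (hb : 0 < b) (h1 : ∀ i, 1 ≤ i → g i = b * i + a)
    (h0 : ∀ i : ℤ, i ≤ -D → g i = 0) {p q : ℝ} (hq : 0 < q) (j₁ : ℤ) (hp : ∀ j : ℤ, j₁ ≤ j → 0 < p + q * j)
    (u v : ℤ) : ∃ (n j₀ : ℤ) (w : ℝ), 0 < w ∧ Even (n - u) ∧ Even (j₀ - v) ∧ j₁ + D ≤ n ∧ n < j₀ ∧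
      q < w * b ∧ (∀ j, j₁ ≤ j → j ≤ j₀ → 0 < p + q * j - w * g (j - n)) ∧
      ∀ j : ℤ, j₀ < j → p + q * j - w * g (j - n) < 0 := by
  obtain ⟨C, hC⟩ : ∃ C : ℝ, 0 ≤ C ∧ ∀ i, i ≤ 0 → g i ≤ C := by
    refine ⟨∑ i ∈ Icc (-D : ℤ) 0, |g i|, by positivity, fun i hi => ?_⟩
    by_cases h : i ≤ -D
    · rw [h0 i h]; positivity
    · exact (le_abs_self _).trans (single_le_sum (f := fun i => |g i|) (fun _ _ => abs_nonneg _)
        (mem_Icc.2 ⟨by omega, hi⟩))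
  obtain ⟨i₁, hi₁⟩ := exists_nat_gt ((2 * C + 1 - a) / b)
  rw [div_lt_iff₀ hb] at hi₁
  obtain ⟨i, e1, e2, e3⟩ : ∃ i : ℤ, 1 ≤ i ∧ (i₁ : ℤ) ≤ i ∧ Even (i - (v - u)) := by
    rcases Int.even_or_odd ((i₁ : ℤ) + 1 - (v - u)) with h | h
    · exact ⟨i₁ + 1, by omega, by omega, h⟩
    · exact ⟨i₁ + 2, by omega, by omega, by obtain ⟨k, hk⟩ := h; exact ⟨k + 1, by omega⟩⟩
  have e2' : (i₁ : ℝ) ≤ i := by exact_mod_cast e2
  set s : ℝ := b * (i + 1 / 2) + a with hs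
  have hs1 : 2 * C + 1 ≤ s := by nlinarith
  obtain ⟨n₁, hn₁⟩ := exists_nat_gt ((|p| + q * (i + 1 + 2 * D) + |q * (a / b)|) / q + |(j₁ : ℝ)| + D)
  obtain ⟨n, f1, f2⟩ : ∃ n : ℤ, (n₁ : ℤ) ≤ n ∧ Even (n - u) := by
    rcases Int.even_or_odd ((n₁ : ℤ) - u) with h | h
    · exact ⟨n₁, le_rfl, h⟩
    · exact ⟨n₁ + 1, by omega, by obtain ⟨k, hk⟩ := h; exact ⟨k + 1, by omega⟩⟩
  have f1' : (n₁ : ℝ) ≤ n := by exact_mod_cast f1
  have e1' : (1 : ℝ) ≤ i := by exact_mod_cast e1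
  have hD : (0 : ℝ) ≤ D := by positivity
  have k0 : 0 ≤ (|p| + q * (i + 1 + 2 * D) + |q * (a / b)|) / q := by positivity
  have k1 : |p| + q * (i + 1 + 2 * D) + |q * (a / b)| < q * n := by
    rw [mul_comm q (n : ℝ), ← div_lt_iff₀ hq]
    linarith [abs_nonneg (j₁ : ℝ)]
  have k2 : j₁ + D ≤ n := by
    have : (j₁ : ℝ) + D ≤ n := by linarith [le_abs_self (j₁ : ℝ)]
    exact_mod_cast this
  have k3 := neg_abs_le p
  have k4 := le_abs_self (q * (a / b))
  have k5 := abs_nonneg (q * (a / b))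
  have hs0 : 0 < s := by linarith [hC.1]
  set w : ℝ := (p + q * (n + i + 1 / 2)) / s with hw
  have hws : w * s = p + q * (n + i + 1 / 2) := div_mul_cancel₀ _ hs0.ne'
  have hw0 : 0 < w := div_pos (by nlinarith) hs0
  have hqw : q < w * b := by
    have : q * s < w * b * s := by
      rw [mul_right_comm, hws, hs]
      have a1 : q * a = q * (a / b) * b := by field_simp
      have a2 : q * (a / b) < p + q * n := by nlinarith
      nlinarith [mul_lt_mul_of_pos_right a2 hb]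
    exact lt_of_mul_lt_mul_right this hs0.le
  have key : ∀ j : ℤ, 1 ≤ j - n →
      p + q * j - w * g (j - n) = (w * b - q) * (n + i + 1 / 2 - j) := fun j hj => by
    rw [h1 _ hj]
    push_cast
    linear_combination -hws + w * hs
  refine ⟨n, n + i, w, hw0, f2, by obtain ⟨k, hk⟩ := f2.add e3; exact ⟨k, by omega⟩, k2, by omega,
    hqw, fun j hj hj' => ?_, fun j hj => ?_⟩
  · by_cases h : 1 ≤ j - n
    · rw [key j h]
      have : (j : ℝ) ≤ n + i := by exact_mod_cast hj'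
      exact mul_pos (by linarith) (by linarith)
    by_cases h' : j - n ≤ -D
    · rw [h0 _ h', mul_zero, sub_zero]
      exact hp j hj
    have a1 : (n : ℝ) - D ≤ j := by exact_mod_cast (by omega : n - D ≤ j)
    have a2 := mul_le_mul_of_nonneg_left (hC.2 (j - n) (by omega)) hw0.le
    nlinarith [mul_le_mul_of_nonneg_left hs1 hw0.le, mul_le_mul_of_nonneg_left a1 hq.le]
  · rw [key j (by omega)]
    have : (n : ℝ) + i + 1 ≤ j := by exact_mod_cast hj
    exact mul_neg_of_pos_of_neg (by linarith) (by linarith)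

open Classical in
/-- Sources of the right parity force as many extra negative values as one likes. -/
theorem twist {g : ℤ → ℝ} {α β : ℝ} {D : ℕ} (hβ : β ≠ 0) (h1 : ∀ i, 1 ≤ i → g i = β * i + α)
    (h0 : ∀ i : ℤ, i ≤ -D → g i = 0) (N : ℕ) :
    ∃ (S : Finset ℤ) (w : ℤ → ℝ) (j₀ j₁ : ℤ), (∀ n, 0 ≤ w n) ∧ j₀ ≤ j₁ ∧
      (j₁ - j₀ + N : ℤ) ≤ 2 * ((Ico j₀ j₁).filter fun j : ℤ =>
        (-1 : ℝ) ^ j * ∑ n ∈ S, (-1 : ℝ) ^ n * w n * g (j - n) < 0).card := by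
  have sq : ∀ n : ℤ, (-1 : ℝ) ^ n * (-1) ^ n = 1 := fun n => by
    rw [← mul_zpow]; simp
  have ev : ∀ {n u : ℤ}, Even (n - u) → (-1 : ℝ) ^ n = (-1) ^ u := fun {n u} h => by
    rw [← sub_add_cancel n u, zpow_add₀ (by norm_num), h.neg_one_zpow, one_mul]
  have sg : ∀ x : ℝ, x ≠ 0 → ∃ u : ℤ, 0 < (-1 : ℝ) ^ u * x := fun x hx => by
    rcases hx.lt_or_gt with h | h
    · exact ⟨1, by simpa⟩
    · exact ⟨0, by simpa⟩
  obtain ⟨u₀, hu₀⟩ := sg β hβ
  suffices H : ∃ (S : Finset ℤ) (w : ℤ → ℝ) (j₀ j₁ : ℤ) (p q : ℝ), (∀ n, 0 ≤ w n) ∧ j₀ ≤ j₁ ∧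
      (∀ n ∈ S, n < j₁) ∧ 0 < q ∧ (∀ j : ℤ, j₁ ≤ j → 0 < p + q * j ∧
        ∑ n ∈ S, (-1 : ℝ) ^ n * w n * g (j - n) = -(-1) ^ j₁ * (p + q * j)) ∧
      (j₁ - j₀ + N : ℤ) ≤ 2 * ((Ico j₀ j₁).filter fun j : ℤ =>
        (-1 : ℝ) ^ j * ∑ n ∈ S, (-1 : ℝ) ^ n * w n * g (j - n) < 0).card by
    obtain ⟨S, w, j₀, j₁, -, -, a1, a2, -, -, -, a3⟩ := H
    exact ⟨S, w, j₀, j₁, a1, a2, a3⟩
  induction N with
  | zero =>
    obtain ⟨k, hk⟩ := exists_nat_gt (|α| / ((-1 : ℝ) ^ u₀ * β))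
    rw [div_lt_iff₀ hu₀] at hk
    have hu := le_abs_self u₀
    have hu' := abs_nonneg u₀
    refine ⟨{u₀}, fun _ => 1, 2 * (|u₀| + k) + 1, 2 * (|u₀| + k) + 1,
      (-1) ^ u₀ * α - (-1) ^ u₀ * β * u₀, (-1) ^ u₀ * β, fun _ => zero_le_one, le_rfl,
      fun n hn => by rw [mem_singleton.1 hn]; omega, hu₀, fun j hj => ⟨?_, ?_⟩, by simp⟩
    · have a1 : (u₀ : ℝ) + (2 * k + 1) ≤ j := by exact_mod_cast (by omega : u₀ + (2 * k + 1) ≤ j)
      have a2 : -|α| ≤ (-1 : ℝ) ^ u₀ * α := by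
        rw [← neg_le, ← neg_mul]
        refine (le_abs_self _).trans_eq ?_
        rw [abs_mul, abs_neg, abs_zpow, abs_neg, abs_one, one_zpow, one_mul]
      nlinarith [mul_le_mul_of_nonneg_left a1 hu₀.le, (by positivity : (0 : ℝ) ≤ k)]
    · rw [sum_singleton, h1 _ (by omega), Odd.neg_one_zpow (n := 2 * (|u₀| + k) + 1) ⟨_, rfl⟩]
      push_cast
      ring
  | succ N ih =>
    obtain ⟨S, w, j₀, j₁, p, q, a1, a2, a3, a4, a5, a6⟩ := ih
    obtain ⟨n, j₂, v, b1, b2, b3, b4, b5, b6, b7, b8⟩ := tw_step (g := fun i => (-1) ^ u₀ * g i)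
      (a := (-1) ^ u₀ * α) (D := D) hu₀ (fun i hi => by rw [h1 i hi]; ring)
      (fun i hi => by rw [h0 i hi, mul_zero]) a4 j₁ (fun j hj => (a5 j hj).1) (u₀ + j₁) j₁
    have hn : n ∉ S := fun h => by have := a3 n h; omega
    have c1 : ∀ j, ∑ k ∈ insert n S, (-1 : ℝ) ^ k * Function.update w n v k * g (j - k) =
        ∑ k ∈ S, (-1 : ℝ) ^ k * w k * g (j - k) + (-1) ^ j₁ * (v * ((-1) ^ u₀ * g (j - n))) :=
      fun j => by
        rw [sum_insert hn, Function.update_self, add_comm, ev b2, zpow_add₀ (by norm_num)]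
        congr 1
        · exact sum_congr rfl fun k hk => by rw [Function.update_of_ne (by rintro rfl; exact hn hk)]
        · ring
    have c2 : ∀ j, j₁ ≤ j → ∑ k ∈ insert n S, (-1 : ℝ) ^ k * Function.update w n v k * g (j - k) =
        -(-1) ^ j₁ * (p + q * j - v * ((-1) ^ u₀ * g (j - n))) := fun j hj => by
      rw [c1, (a5 j hj).2]; ring
    refine ⟨insert n S, Function.update w n v, j₀, j₂ + 1,
      v * ((-1) ^ u₀ * α - (-1) ^ u₀ * β * n) - p, v * ((-1) ^ u₀ * β) - q, fun k => ?_, by omega,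
      fun k hk => ?_, by linarith, fun j hj => ?_, ?_⟩
    · rcases eq_or_ne k n with rfl | h
      · rw [Function.update_self]; exact b1.le
      · rw [Function.update_of_ne h]; exact a1 k
    · rcases mem_insert.1 hk with rfl | h
      · omega
      · have := a3 k h; omega
    · have d1 := b8 j (by omega)
      rw [c2 j (by omega), zpow_add₀ (by norm_num), ev b3]
      simp only [h1 (j - n) (by omega)] at d1 ⊢
      push_cast at d1 ⊢
      exact ⟨by linarith, by ring⟩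
    · obtain ⟨k, hk⟩ := b3
      have d0 : 0 ≤ k := by omega
      lift k to ℕ using d0
      have d1 : ((Ico j₀ j₁).filter fun j : ℤ =>
          (-1 : ℝ) ^ j * ∑ n ∈ S, (-1 : ℝ) ^ n * w n * g (j - n) < 0) ∪
          (range (k + 1)).image (fun i : ℕ => j₁ + 2 * i) ⊆ (Ico j₀ (j₂ + 1)).filter fun j : ℤ =>
          (-1 : ℝ) ^ j * ∑ k ∈ insert n S, (-1 : ℝ) ^ k * Function.update w n v k * g (j - k) < 0 := by
        intro j hj
        rcases mem_union.1 hj with h | h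
        · rw [mem_filter, mem_Ico] at h ⊢
          refine ⟨by omega, ?_⟩
          rw [c1, h0 _ (by omega)]
          simpa using h.2
        · obtain ⟨i, hi, rfl⟩ := mem_image.1 h
          rw [mem_range] at hi
          rw [mem_filter, mem_Ico, c2 _ (by omega), ev (u := j₁) ⟨i, by omega⟩, neg_mul, mul_neg,
            ← mul_assoc, sq, one_mul, neg_lt_zero]
          exact ⟨by omega, b7 _ (by omega) (by omega)⟩
      have d2 := card_le_card d1
      rw [card_union_of_disjoint, card_image_of_injective _ fun _ _ h => by simpa using h,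
        card_range] at d2
      · push_cast
        omega
      · refine disjoint_left.2 fun j h h' => ?_
        obtain ⟨i, -, rfl⟩ := mem_image.1 h'
        have := (mem_Ico.1 (mem_filter.1 h).1).2
        omega

end Pool.Agent.GK
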