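import Pool.Agent.Lib.MP_a01f70_lc.GK.GS
import Pool.Agent.Lib.MP_a01f70_lc.GK.Tw

namespace Pool.Agent.GK
open Finset Polynomial

theorem Simple_sum {M : Type} [AddCommMonoid M] (F : ℕ → M) (k N : ℕ) :
    ∑ n ∈ range (k * N), F n = ∑ i ∈ range k, ∑ j ∈ range N, F (i + k * j) := by
  induction N with
  | zero => simp
  | succ N ih =>
    rw [Nat.mul_succ, sum_range_add, ih, ← sum_add_distrib]
    exact sum_congr rfl fun i _ => by rw [sum_range_succ, add_comm i (k * N)]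

theorem Simple_ex {ξ : ℝ[X]} {c : ℝ} {k N : ℕ} (hc : c ≠ 0) (hN : ξ.natDegree < k * N)
    (h : ¬1 + C c * X ^ k ∣ ξ) :
    ∃ i < k, ∑ j ∈ range N, ξ.coeff (i + k * j) * (-c)⁻¹ ^ j ≠ 0 := by
  by_contra h0
  push Not at h0
  apply h
  have h1 : (1 + C c * X ^ k : ℝ[X]) ∣ X ^ k - C (-c)⁻¹ := ⟨C c⁻¹, by
    have : (C c * C c⁻¹ : ℝ[X]) = 1 := by rw [← C_mul, mul_inv_cancel₀ hc, C_1]
    rw [inv_neg, C_neg]
    linear_combination (-X ^ k) * this⟩
  rw [ξ.as_sum_range' _ hN, Simple_sum]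
  refine dvd_sum fun i hi => ?_
  have h2 : ∑ j ∈ range N, monomial (i + k * j) (ξ.coeff (i + k * j)) =
      ∑ j ∈ range N, C (ξ.coeff (i + k * j)) * X ^ i * ((X ^ k) ^ j - C (-c)⁻¹ ^ j) +
        X ^ i * C (∑ j ∈ range N, ξ.coeff (i + k * j) * (-c)⁻¹ ^ j) := by
    rw [map_sum, mul_sum, ← sum_add_distrib]
    refine sum_congr rfl fun j _ => ?_
    rw [← C_mul_X_pow_eq_monomial, C_mul, C_pow]
    ring
  rw [h2, h0 i (mem_range.1 hi), C_0, mul_zero, add_zero]
  exact dvd_sum fun j _ => (h1.trans (sub_dvd_pow_sub_pow _ _ j)).mul_left _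

theorem Simple_nonneg {c : ℝ} (hc : 0 ≤ c) (k m : ℕ) {x : ℤ → ℝ} (hx : ∀ l, 0 ≤ x l) (l : ℤ) :
    0 ≤ act ((1 + C c * X ^ k) ^ m) x l := by
  induction m generalizing l with
  | zero =>
    have := act_monomial 0 1 x l
    rw [monomial_zero_one] at this
    rw [pow_zero, this]
    simpa using hx l
  | succ m ih =>
    rw [pow_succ', act_mul, act_binom]
    exact add_nonneg (ih _) (mul_nonneg hc (ih _))

theorem Simple_alt {u : ℕ → ℝ} {c : ℝ} (hc : 0 < c) (h : ∀ s, u (s + 1) = -c * u s)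
    (h0 : ∀ s, u s ≠ 0) (J : ℕ) : (J : ℝ) - 1 ≤ 2 * ∑ s ∈ range J, if u s < 0 then (1 : ℝ) else 0 := by
  induction J using Nat.twoStepInduction with
  | zero => simp
  | one =>
    rw [Nat.cast_one, sub_self]
    positivity
  | more J ih _ =>
    rw [sum_range_succ, sum_range_succ]
    push_cast
    rcases (h0 J).lt_or_gt with h1 | h1
    · rw [if_pos h1]
      split_ifs <;> linarith
    · rw [if_pos (by rw [h]; nlinarith : u (J + 1) < 0)]
      split_ifs <;> linarith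

theorem Simple_big (F : Finset ℤ) (y r : ℤ → ℝ) : ∃ M : ℝ, ∀ l ∈ F, r l < 0 → y l + M * r l < 0 := by
  refine ⟨∑ l ∈ F, |y l / r l| + 1, fun l hl h => ?_⟩
  have h1 := single_le_sum (f := fun l => |y l / r l|) (fun _ _ => abs_nonneg _) hl
  have h2 := neg_abs_le (y l / r l)
  have h3 : y l / r l * r l = y l := div_mul_cancel₀ _ h.ne
  nlinarith

/-- the ramp -/
def Simple_ramp (t : ℤ) : ℝ := (max (t + 1) 0 : ℤ)

theorem Simple_dd (t : ℤ) : Simple_ramp t - 2 * Simple_ramp (t - 1) + Simple_ramp (t - 1 - 1) =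
    if t = 0 then 1 else 0 := by
  have : max (t + 1) 0 - 2 * max (t - 1 + 1) 0 + max (t - 1 - 1 + 1) 0 =
      if t = 0 then (1 : ℤ) else 0 := by
    split_ifs <;> omega
  unfold Simple_ramp
  exact_mod_cast this

open Classical in
/-- a sequence on the multiples of `k` -/
noncomputable def Simple_g (c : ℝ) (k : ℕ) (f : ℤ → ℝ) (l : ℤ) : ℝ :=
  if (k : ℤ) ∣ l then (-c) ^ (l / k) * f (l / k) else 0

theorem Simple_g_mul (c : ℝ) {k : ℕ} (hk : 0 < k) (f : ℤ → ℝ) (s : ℤ) :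
    Simple_g c k f (k * s) = (-c) ^ s * f s := by
  rw [Simple_g, if_pos (dvd_mul_right _ _), Int.mul_ediv_cancel_left _ (by omega)]

theorem Simple_x {c : ℝ} (hc : 0 < c) {k : ℕ} (hk : 0 < k) (S : Finset ℤ) {w : ℤ → ℝ}
    (hw : ∀ n, 0 ≤ w n) (D : ℕ) (l : ℤ) : 0 ≤ act ((1 + C c * X ^ k) ^ 2) (Simple_g c k fun s =>
      ∑ n ∈ S, (-1 : ℝ) ^ n * w n * Simple_ramp (s - n + 2 * D)) l := by
  rw [sq, act_mul, act_binom, act_binom, act_binom]
  by_cases h : (k : ℤ) ∣ l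
  · obtain ⟨s, rfl⟩ := h
    have hc' : -c ≠ 0 := by linarith
    rw [show (k : ℤ) * s - k = k * (s - 1) by ring, show (k : ℤ) * (s - 1) - k = k * (s - 1 - 1) by ring,
      Simple_g_mul c hk, Simple_g_mul c hk, Simple_g_mul c hk, zpow_sub_one₀ hc' (s - 1),
      zpow_sub_one₀ hc' s]
    have e : ∀ A B E : ℝ, (-c) ^ s * A + c * ((-c) ^ s * (-c)⁻¹ * B) + c * ((-c) ^ s * (-c)⁻¹ * B +
        c * ((-c) ^ s * (-c)⁻¹ * (-c)⁻¹ * E)) = (-c) ^ s * (A - 2 * B + E) := fun A B E => by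
      field_simp
      ring
    rw [e, mul_sum, ← sum_sub_distrib, ← sum_add_distrib, mul_sum]
    refine sum_nonneg fun n _ => ?_
    have e2 := Simple_dd (s - n + 2 * D)
    rw [show s - 1 - n + 2 * D = s - n + 2 * D - 1 by ring,
      show s - 1 - 1 - n + 2 * D = s - n + 2 * D - 1 - 1 by ring]
    split_ifs at e2 with h0
    · have e3 : (-c) ^ s * (-1) ^ n = c ^ s := by
        rw [show n = s + 2 * D by omega, zpow_add₀ (by norm_num), ← mul_assoc, ← mul_zpow,
          Even.neg_one_zpow (n := 2 * D) ⟨D, by ring⟩]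
        simp
      have := mul_nonneg (zpow_pos hc s).le (hw n)
      rw [← e3] at this
      refine this.trans_eq ?_
      linear_combination (-((-c) ^ s * (-1) ^ n * w n)) * e2
    · refine le_of_eq ?_
      linear_combination (-((-c) ^ s * (-1) ^ n * w n)) * e2
  · have h1 : ¬(k : ℤ) ∣ l - k := fun h1 => h (by simpa using h1)
    have h2 : ¬(k : ℤ) ∣ l - k - k := fun h2 => h1 (by simpa using h2)
    simp [Simple_g, h, h1, h2]

theorem Simple_y {ξ : ℝ[X]} {c : ℝ} (hc : c ≠ 0) {k N i : ℕ} (hi : i < k) (hN : ξ.natDegree < k * N)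
    (f : ℤ → ℝ) (s : ℤ) : act ξ (Simple_g c k f) (i + k * s) =
      (-c) ^ s * ∑ j ∈ range N, ξ.coeff (i + k * j) * (-c)⁻¹ ^ j * f (s - j) := by
  rw [act_eq_sum ξ hN, Simple_sum, sum_eq_single_of_mem i (mem_range.2 hi), mul_sum]
  · refine sum_congr rfl fun j _ => ?_
    rw [show (i : ℤ) + k * s - (i + k * j : ℕ) = k * (s - j) by push_cast; ring,
      Simple_g_mul c (by omega), zpow_sub₀ (neg_ne_zero.2 hc), zpow_natCast, inv_pow]
    ring
  · intro i' hi' hne
    refine sum_eq_zero fun j _ => ?_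
    rw [Simple_g, if_neg, mul_zero]
    intro h
    have h1 : (k : ℤ) ∣ i - i' := by
      obtain ⟨t, ht⟩ := h
      push_cast at ht
      exact ⟨t - (s - j), by linear_combination ht⟩
    have := Int.eq_zero_of_abs_lt_dvd h1 (by rw [mem_range] at hi'; rw [abs_lt]; omega)
    omega

theorem Simple_two {a a₁ b e : ℝ[X]} (h : SM a b) {c : ℝ} {k μ : ℕ} (h₁ : a₁ ∣ a)
    (hm : BinMin a₁ c k) (he : (1 + C c * X ^ k) ^ (μ + 2) = a * e) : 1 + C c * X ^ k ∣ b * e := by
  classical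
  by_contra hξ
  obtain ⟨C₀, hC⟩ := h
  obtain ⟨hc, hk, -⟩ := hm.2.1
  obtain ⟨N, hN⟩ : ∃ N, (b * e).natDegree < k * N :=
    ⟨_, (Nat.lt_succ_self _).trans_le (Nat.le_mul_of_pos_left _ hk)⟩
  obtain ⟨i, hi, hβ⟩ := Simple_ex hc.ne' hN hξ
  obtain ⟨z, hz⟩ : ∃ z : ℕ → ℝ, ∀ j, (b * e).coeff (i + k * j) * (-c)⁻¹ ^ j = z j := ⟨_, fun _ => rfl⟩
  simp only [hz] at hβ
  obtain ⟨K, hK⟩ := exists_nat_gt (2 * C₀ + k)
  obtain ⟨S, w, j₀, j₁, hw, hj, hS⟩ := twist (g := fun t => ∑ j ∈ range N, z j *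
    Simple_ramp (t + 2 * N - j)) (α := ∑ j ∈ range N, z j * (2 * N - j + 1)) (D := 2 * N + 1) hβ
    (fun t ht => by
      rw [sum_mul, ← sum_add_distrib]
      refine sum_congr rfl fun j hj => ?_
      rw [mem_range] at hj
      rw [Simple_ramp, max_eq_left (by omega)]
      push_cast
      ring)
    (fun t ht => sum_eq_zero fun j _ => by
      rw [Simple_ramp, max_eq_right (by push_cast at ht; omega), Int.cast_zero, mul_zero]) K
  obtain ⟨J, rfl⟩ := Int.le.dest hj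
  obtain ⟨r, r1, r2, r3⟩ := hm.ground i
  obtain ⟨g, hg⟩ : ∃ g, g = Simple_g c k fun s =>
    ∑ n ∈ S, (-1 : ℝ) ^ n * w n * Simple_ramp (s - n + 2 * N) := ⟨_, rfl⟩
  obtain ⟨M, hM⟩ := Simple_big (Ico (k * j₀) (k * j₀ + (k * J : ℕ))) (act (b * e) g) r
  obtain ⟨a', rfl⟩ := h₁
  have e1 : act (a₁ * a') (act (b * e) g + M • r) = act b (act ((1 + C c * X ^ k) ^ (μ + 2)) g) := by
    have e0 : act a' 0 = 0 := by simpa using act_smul_right a' 0 0
    rw [act_add_right, act_smul_right, mul_comm a₁ a', act_mul a' a₁ r, r1, e0, smul_zero, add_zero,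
      ← act_mul, ← act_mul, he]
    congr 1
    ring
  have key := hC (fun l => act ((1 + C c * X ^ k) ^ (μ + 2)) g (l + k * j₀))
    (fun l => (act (b * e) g + M • r) (l + k * j₀)) (funext fun l => by
      have := congrFun e1 (l + k * j₀)
      simpa only [act, add_sub_right_comm] using this) (k * J)
  rw [filter_false_of_mem (p := fun l : ℕ => act _ g _ < 0) fun l _ => not_lt.2 (by
    rw [pow_add, act_mul, hg]
    exact Simple_nonneg hc.le _ _ (Simple_x hc hk S hw N) _), card_empty, Nat.cast_zero, sub_zero,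
    card_filter, Nat.cast_sum, Simple_sum, ← add_sum_erase _ _ (mem_range.2 hi)] at key
  have k1 : (J : ℝ) + K ≤ 2 * ∑ s ∈ range J, ((if (act (b * e) g + M • r)
      ((i + k * s : ℕ) + k * j₀) < 0 then 1 else 0 : ℕ) : ℝ) := by
    rw [← Nat.cast_sum, ← card_filter]
    have k2 : ∀ A B : ℕ, j₀ + J - j₀ + K ≤ 2 * (A : ℤ) → A ≤ B → (J : ℝ) + K ≤ 2 * B :=
      fun A B h1 h2 => by exact_mod_cast (by omega : J + K ≤ 2 * B)
    refine k2 _ _ hS ?_
    refine card_le_card_of_injOn (fun j => (j - j₀).toNat) (fun j hj => ?_) fun j hj j' hj' hh => ?_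
    · obtain ⟨a1, a2⟩ := mem_filter.1 hj
      rw [mem_Ico] at a1
      refine mem_filter.2 ⟨mem_range.2 (by simp only; omega), ?_⟩
      simp only
      have a3 : ((i + k * (j - j₀).toNat : ℕ) : ℤ) + k * j₀ = i + k * j := by
        push_cast
        rw [Int.toNat_of_nonneg (by omega)]
        ring
      rw [a3, Pi.add_apply, Pi.smul_apply, (r3 _).2 ⟨j, by ring⟩, smul_zero, add_zero, hg,
        Simple_y hc.ne' hi hN, neg_eq_neg_one_mul c, mul_zpow, mul_comm _ (c ^ j), mul_assoc]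
      refine mul_neg_of_pos_of_neg (zpow_pos hc _) (lt_of_eq_of_lt ?_ a2)
      simp only [← neg_eq_neg_one_mul, hz, mul_sum]
      rw [sum_comm]
      refine sum_congr rfl fun n _ => sum_congr rfl fun t _ => ?_
      rw [show j - t - n + 2 * N = j - n + 2 * N - t by ring]
      ring
    · have a1 := mem_Ico.1 (mem_filter.1 hj).1
      have a2 := mem_Ico.1 (mem_filter.1 hj').1
      simp only at hh
      omega
  have k3 : ∀ i' ∈ (range k).erase i, ((J : ℝ) - 1) / 2 ≤ ∑ s ∈ range J, ((if (act (b * e) g + M • r)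
      ((i' + k * s : ℕ) + k * j₀) < 0 then 1 else 0 : ℕ) : ℝ) := fun i' hi' => by
    obtain ⟨a1, a2⟩ := mem_erase.1 hi'
    rw [mem_range] at a2
    have a3 := Simple_alt (u := fun s => r ((i' + k * s : ℕ) + k * j₀)) hc
      (fun s => by rw [← r2]; congr 1; push_cast; ring) (fun s h0 => by
        have h1 : (k : ℤ) ∣ i' - i := by
          obtain ⟨t, ht⟩ := (r3 _).1 h0
          push_cast at ht
          exact ⟨t - (s + j₀), by linear_combination ht⟩
        have := Int.eq_zero_of_abs_lt_dvd h1 (by rw [abs_lt]; omega)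
        omega) J
    rw [div_le_iff₀' two_pos]
    refine a3.trans (mul_le_mul_of_nonneg_left (sum_le_sum fun s hs => ?_) zero_le_two)
    split_ifs with b1 b2
    · simp
    · refine absurd (hM _ (mem_Ico.2 ⟨by omega, ?_⟩) b1) b2
      have b3 : i' + k * s < k * J := by
        have := Nat.mul_le_mul_left k (Nat.succ_le_of_lt (mem_range.1 hs))
        rw [Nat.mul_succ] at this
        omega
      omega
    · simp
    · simp
  have k4 := card_nsmul_le_sum _ _ _ k3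
  rw [card_erase_of_mem (mem_range.2 hi), card_range, nsmul_eq_mul, Nat.cast_sub hk] at k4
  push_cast at key k1 k4
  linarith

/-- Let `μ ≥ 2` be minimal with `a ∣ P ^ μ`, `P = 1 + c X ^ k`, `ξ = b * (P ^ μ / a)`; `P ∤ ξ`, so for
some class `i < k` the polynomial `z = ∑ ξ (i + k j) (-c) ^ (-j) X ^ j` has `z.eval 1 ≠ 0`;
`g (k s) = (-c) ^ s f s`, `f s = ∑ n ∈ S, (-1) ^ n w n ramp (s - n)` (`twist` in `Tw.lean` for the
sequence `act z ramp`, `ramp s = max (s + 1) 0`), `g = 0` off the multiples of `k`;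
`x = act (P ^ μ) g ≥ 0`, `y = act ξ g + M r` with `r` from `BinMin.ground` for the class `i` and `M`
large; shift the window to `0`; the other classes alternate in sign. -/
theorem simple_core {a a₁ b : ℝ[X]} (hab : IsCoprime a b) (h : SM a b) {c : ℝ} {k μ : ℕ}
    (h₁ : a₁ ∣ a) (hm : BinMin a₁ c k) (hd : a ∣ (1 + C c * X ^ k) ^ μ) :
    a ∣ 1 + C c * X ^ k := by
  induction μ using Nat.twoStepInduction with
  | zero => exact hd.trans (by simp)
  | one => simpa using hd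
  | more μ _ ih =>
    obtain ⟨e, he⟩ := hd
    obtain ⟨f, hf⟩ := Simple_two h h₁ hm he
    have h0 : (1 + C c * X ^ k : ℝ[X]) ≠ 0 := fun h0 => by
      have := congrArg (eval 0) h0
      simp [hm.2.1.2.1.ne'] at this
    refine ih (hab.dvd_of_dvd_mul_left ⟨f, mul_left_cancel₀ h0 ?_⟩)
    linear_combination b * he + a * hf

/-- D1 (c): the poles are simple. `a₁ = gcd a P`, `a ∣ a₁ ^ μ`, `exists_binMin`, `simple_core`,
`BinMin.dvd`. -/
theorem simple_roots {a b : ℝ[X]} (hab : IsCoprime a b) (h : SM a b) {c : ℝ} {k μ : ℕ}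
    (hc : 0 < c) (hk : 0 < k) (hd : a ∣ (1 + C c * X ^ k) ^ μ) : a ∣ 1 + C c * X ^ k := by
  classical
  have h0 : (1 + C c * X ^ k : ℝ[X]) ≠ 0 := fun h0 => by
    have := congrArg (eval 0) h0
    simp [hk.ne'] at this
  have g1 := EuclideanDomain.gcd_dvd_left a (1 + C c * X ^ k)
  have g2 := EuclideanDomain.gcd_dvd_right a (1 + C c * X ^ k)
  have g3 : ∀ Q : ℝ[X], EuclideanDomain.gcd a (1 + C c * X ^ k) ∣ Q → a ∣ Q ^ μ := by
    rintro _ ⟨Q, rfl⟩
    rw [mul_pow, EuclideanDomain.gcd_eq_gcd_ab]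
    refine Dvd.dvd.mul_right ?_ _
    have := sub_dvd_pow_sub_pow (a * EuclideanDomain.gcdA a (1 + C c * X ^ k) + (1 + C c * X ^ k) *
      EuclideanDomain.gcdB a (1 + C c * X ^ k))
      ((1 + C c * X ^ k) * EuclideanDomain.gcdB a (1 + C c * X ^ k)) μ
    rw [add_sub_cancel_right] at this
    have h2 := ((dvd_mul_right a _).trans this).add
      (hd.mul_right (EuclideanDomain.gcdB a (1 + C c * X ^ k) ^ μ))
    rwa [mul_pow, sub_add_cancel] at h2
  rcases Nat.eq_zero_or_pos (EuclideanDomain.gcd a (1 + C c * X ^ k)).natDegree with h1 | h1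
  · have h2 : IsUnit (EuclideanDomain.gcd a (1 + C c * X ^ k)) := by
      rw [isUnit_iff_degree_eq_zero, degree_eq_natDegree (ne_zero_of_dvd_ne_zero h0 g2), h1]
      rfl
    exact (g3 1 h2.dvd).trans (by simp)
  · obtain ⟨c', k', hm⟩ := exists_binMin h1 ⟨hc, hk, g2⟩
    obtain ⟨s, hs, rfl, rfl⟩ := hm.dvd ⟨hc, hk, g2⟩
    refine (simple_core hab h g1 hm (g3 _ hm.2.1.2.2)).trans ?_
    have := hs.add_dvd_pow_add_pow (1 : ℝ[X]) (C c' * X ^ k')
    rwa [one_pow, mul_pow, ← C_pow, ← pow_mul] at this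

end Pool.Agent.GK
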