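import Pool.Agent.Lib.MP_a01f70_lc.GK.Bas
import Pool.Agent.Lib.MP_a01f70_lc.GK.GRb

namespace Pool.Agent.GK
open Finset Polynomial

/-- the pairing of a real Laurent polynomial with a sequence -/
noncomputable def tleL (x : ℤ → ℝ) : AddMonoidAlgebra ℝ ℤ →+ ℝ :=
  (Finsupp.liftAddHom fun l => AddMonoidHom.mulRight (x (-l))).comp
    AddMonoidAlgebra.coeffAddEquiv.toAddMonoidHom

theorem tleL_single (x : ℤ → ℝ) (l : ℤ) (r : ℝ) :
    tleL x (AddMonoidAlgebra.single l r) = r * x (-l) := by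
  simp [tleL, -LaurentPolynomial.single_eq_C_mul_T]

/-- a real polynomial as a Laurent polynomial -/
noncomputable def tleP : ℝ[X] →+* AddMonoidAlgebra ℝ ℤ := Polynomial.toLaurent

theorem tleP_monomial (k : ℕ) (r : ℝ) :
    tleP (monomial k r) = AddMonoidAlgebra.single (k : ℤ) r :=
  (Polynomial.toLaurent_C_mul_T k r).trans (LaurentPolynomial.single_eq_C_mul_T r k).symm

theorem tleL_mul (a : ℝ[X]) (y : ℤ → ℝ) (ζ : AddMonoidAlgebra ℝ ℤ) :
    tleL y (tleP a * ζ) = tleL (act a y) ζ := by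
  induction ζ using AddMonoidAlgebra.induction_linear with
  | zero => simp
  | add f g hf hg => rw [mul_add, map_add, map_add, hf, hg]
  | single l r =>
    rw [tleL_single, act, Polynomial.sum_def, mul_sum]
    conv_lhs => rw [a.as_sum_support, map_sum, sum_mul, map_sum]
    refine sum_congr rfl fun j _ => ?_
    rw [tleP_monomial, AddMonoidAlgebra.single_mul_single, tleL_single,
      show -((j : ℤ) + l) = -l - j by ring]
    ring

/-- the real group ring -/
noncomputable def tleI (m : ℕ) : GR m ℤ →+* AddMonoidAlgebra ℝ ℤ :=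
  AddMonoidAlgebra.mapRingHom ℤ (O m).subtype

theorem tleI_pl {m : ℕ} (a : (O m)[X]) : tleI m (pl a) = tleP (rl a) := by
  induction a using Polynomial.induction_on' with
  | add p q hp hq => rw [map_add, map_add, hp, hq, rl, rl, rl, Polynomial.map_add, map_add]
  | monomial k r =>
    rw [pl_monomial, rl, Polynomial.map_monomial, tleP_monomial, tleI,
      AddMonoidAlgebra.mapRingHom_single]

/-- the real valued additive map given by a sequence -/
noncomputable def tleR (m : ℕ) (x : ℤ → ℝ) : GR m ℤ →+ ℝ :=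
  (tleL x).comp (tleI m).toAddMonoidHom

theorem tleR_apply (m : ℕ) (x : ℤ → ℝ) (f : GR m ℤ) : tleR m x f = tleL x (tleI m f) := rfl

theorem tleR_mon (m : ℕ) (x : ℤ → ℝ) (e l : ℤ) : tleR m x (mon m (e, -l)) = tr m e * x l := by
  rw [tleR_apply, mon, tleI, AddMonoidAlgebra.mapRingHom_single, tleL_single, neg_neg]
  rfl

theorem tleR_valid {m : ℕ} {a b : (O m)[X]} (h : IsCoprime (rl a) (rl b)) {x y : ℤ → ℝ}
    (hxy : act (rl a) y = act (rl b) x) : Valid (pl a) (pl b) (tleR m x) (tleR m y) := by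
  intro η ξ he
  obtain ⟨u, v, huv⟩ := h.map tleP
  have h1 := congrArg (tleI m) he
  rw [map_mul, map_mul, tleI_pl, tleI_pl] at h1
  have h2 : tleI m η = tleP (rl a) * (u * tleI m η + v * tleI m ξ) := by
    linear_combination (-tleI m η) * huv + v * h1
  have h3 : tleI m ξ = tleP (rl b) * (u * tleI m η + v * tleI m ξ) := by
    linear_combination (-tleI m ξ) * huv - u * h1
  rw [tleR_apply, tleR_apply]
  calc tleL y (tleI m η) = tleL (act (rl a) y) (u * tleI m η + v * tleI m ξ) := by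
        rw [← tleL_mul, ← h2]
    _ = tleL x (tleI m ξ) := by rw [hxy, ← tleL_mul, ← h3]

/-- the perturbation of size `c` -/
noncomputable def tleS (m : ℕ) (c : ℝ) (x : ℤ → ℝ) : GR m ℤ →+ Tc :=
  (QuotientAddGroup.mk' _).comp ((AddMonoidHom.mulLeft c).comp (tleR m x))

theorem tleS_apply (m : ℕ) (c : ℝ) (x : ℤ → ℝ) (f : GR m ℤ) :
    tleS m c x f = ((c * tleR m x f : ℝ) : Tc) := rfl

theorem tle_half {N : ℕ} (hN : Odd N) {p : Tc} (hp : N • p = 0) : fr p ≠ 1 / 2 := by
  intro h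
  obtain ⟨k, rfl⟩ := hN
  have h2 : 2 • p = 0 := by
    rw [← coe_fr p, h, ← AddCircle.coe_nsmul]
    norm_num
  rw [add_nsmul, mul_nsmul, h2, nsmul_zero, zero_add, one_nsmul] at hp
  rw [hp, fr_zero] at h
  norm_num at h

theorem tle_lim (c K : ℝ) :
    Filter.Tendsto (fun δ : ℝ => c + δ * K) (nhdsWithin 0 (Set.Ioi 0)) (nhds c) := by
  have h : Continuous fun δ : ℝ => c + δ * K := by fun_prop
  simpa using (h.tendsto 0).mono_left nhdsWithin_le_nhds

theorem tle_dgr {p : Tc} (hp : fr p ≠ 1 / 2) {C K y : ℝ} (hK : 0 < K) (hy : y < 0 → K * y < -C) :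
    ∀ᶠ δ : ℝ in nhdsWithin 0 (Set.Ioi 0), sdig p y ≤ dgr (C * δ) (p + ((δ * (K * y) : ℝ) : Tc)) := by
  unfold sdig
  split_ifs with h0 h1
  · subst h0
    filter_upwards [(tle_lim 1 (K * y)).eventually_const_lt (show (1 / 2 : ℝ) < 1 by norm_num),
      self_mem_nhdsWithin] with δ h2 (h3 : 0 < δ)
    have h4 : δ * (K * y) < 0 := mul_neg_of_pos_of_neg h3 (mul_neg_of_pos_of_neg hK h1)
    have h5 : fr (0 + ((δ * (K * y) : ℝ) : Tc)) = 1 + δ * (K * y) := by
      rw [zero_add, fr_coe, Int.fract_eq_iff]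
      exact ⟨by linarith, by linarith, -1, by push_cast; ring⟩
    have h6 := mul_lt_mul_of_pos_left (hy h1) h3
    rw [dgr, h5, if_pos ⟨h2.le, by linarith⟩]
  · exact Filter.Eventually.of_forall fun δ => dgr_nonneg _ _
  · by_cases h2 : 1 / 2 ≤ fr p
    · have h3 : 1 / 2 < fr p := lt_of_le_of_ne h2 hp.symm
      filter_upwards [(tle_lim (fr p) (K * y)).eventually_const_lt h3,
        (tle_lim (fr p) (K * y)).eventually_lt_const (fr_lt_one p),
        (tle_lim (fr p) (K * y + C)).eventually_lt_const (fr_lt_one p)] with δ h4 h5 h6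
      rw [dgr, fr_add_coe (by linarith) h5, if_pos ⟨h4.le, by linarith⟩]
      exact dig_le_one p
    · refine Filter.Eventually.of_forall fun δ => ?_
      rw [dig, if_neg h2]
      exact dgr_nonneg _ _

theorem tle_dig (p : Tc) {K : ℝ} (hK : 0 < K) (x : ℝ) :
    ∀ᶠ δ : ℝ in nhdsWithin 0 (Set.Ioi 0), dig (p + ((δ * (K * x) : ℝ) : Tc)) ≤ sdig p x := by
  unfold sdig
  split_ifs with h0 h1
  · exact Filter.Eventually.of_forall fun δ => dig_le_one _
  · subst h0
    filter_upwards [(tle_lim 0 (K * x)).eventually_lt_const (show (0 : ℝ) < 1 / 2 by norm_num),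
      self_mem_nhdsWithin] with δ h2 (h3 : 0 < δ)
    have h4 : 0 ≤ δ * (K * x) := mul_nonneg h3.le (mul_nonneg hK.le (not_lt.1 h1))
    rw [dig, zero_add, fr_of_mem h4 (by linarith), if_neg (by linarith)]
  · by_cases h2 : 1 / 2 ≤ fr p
    · refine Filter.Eventually.of_forall fun δ => ?_
      rw [dig.eq_1 p, if_pos h2]
      exact dig_le_one _
    · have h3 : 0 < fr p := lt_of_le_of_ne (fr_nonneg p) fun h => h0 (fr_eq_zero.1 h.symm)
      filter_upwards [(tle_lim (fr p) (K * x)).eventually_const_lt h3,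
        (tle_lim (fr p) (K * x)).eventually_lt_const (not_le.1 h2)] with δ h4 h5
      rw [dig, fr_add_coe h4.le (by linarith), if_neg (not_le.2 h5)]
      exact dig_nonneg p

theorem tle_sdig (p : Tc) (s : ℝ) : 0 ≤ sdig p s ∧ sdig p s ≤ 1 := by
  unfold sdig
  split_ifs
  · norm_num
  · norm_num
  · exact ⟨dig_nonneg p, dig_le_one p⟩

theorem tle_sum_per {f : ℕ → ℝ} {M : ℕ} (h : Function.Periodic f M) (s : ℕ) :
    ∑ e ∈ range (M * s), f e = s * ∑ e ∈ range M, f e := by
  induction s with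
  | zero => simp
  | succ s ih =>
    rw [Nat.mul_succ, sum_range_add, ih]
    have h1 : ∀ e, f (M * s + e) = f e := fun e => by
      rw [add_comm, mul_comm]
      exact h.nat_mul s e
    simp only [h1]
    push_cast
    ring

theorem tle_sum_le {f g : ℕ → ℝ} {M k : ℕ} (h1 : ∀ e, e + k < M → f e ≤ g e)
    (h2 : ∀ e, f e ≤ g e + 2) : ∑ e ∈ range M, f e ≤ ∑ e ∈ range M, g e + 2 * k := by
  have h3 : ∑ e ∈ range M, f e ≤ ∑ e ∈ range M, (g e + if M ≤ e + k then 2 else 0) := by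
    refine sum_le_sum fun e _ => ?_
    split_ifs with h
    · exact h2 e
    · simpa using h1 e (not_le.1 h)
  have h4 : ((range M).filter fun e => M ≤ e + k).card ≤ k := by
    have h5 : ((range M).filter fun e => M ≤ e + k) ⊆ Ico (M - k) M := fun e he => by
      rw [mem_filter, mem_range] at he
      rw [mem_Ico]
      omega
    have h6 := card_le_card h5
    rw [Nat.card_Ico] at h6
    omega
  have h5 : (((range M).filter fun e => M ≤ e + k).card : ℝ) ≤ k := by exact_mod_cast h4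
  rw [sum_add_distrib, ← sum_filter, sum_const, nsmul_eq_mul] at h3
  linarith

variable {m : ℕ} [NeZero m]

theorem tle_per {D : ℕ} {X : GR m ℤ →+ Tc} (hX : ∀ f, (2 ^ D - 1) • X f = 0) (e : ℕ) (v : ℤ) :
    X (mon m (((e + m * D : ℕ) : ℤ), v)) = X (mon m ((e : ℤ), v)) := by
  have h1 : mon m (((e + m * D : ℕ) : ℤ), v) = 2 ^ D • mon m ((e : ℤ), v) := by
    have h2 : (((e + m * D : ℕ) : ℤ), v) = ((e : ℤ), v) + D • ((m : ℤ), (0 : ℤ)) := by
      ext
      · simp [mul_comm]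
      · simp
    rw [h2, mon_add, ← mon_pow, mon_sig, nsmul_eq_mul, mul_comm]
    push_cast
    rfl
  have h3 : 2 ^ D = (2 ^ D - 1) + 1 := (Nat.sub_add_cancel Nat.one_le_two_pow).symm
  rw [h1, map_nsmul, h3, add_nsmul, hX, zero_add, one_nsmul]

theorem tle_tr {e h H : ℕ} (he : e + m * h < m * H) : tr m e / 2 ^ H ≤ (1 / 2) ^ h := by
  have h1 : tr m ((e : ℤ) + m * h) ≤ tr m (m * H) :=
    tr_strictMono.monotone (by exact_mod_cast he.le)
  rw [tr_add, tr_mul_m, tr_mul_m, zpow_natCast, zpow_natCast] at h1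
  rw [one_div, inv_pow, ← one_div, div_le_div_iff₀ (by positivity) (by positivity), one_mul]
  exact h1

theorem Dinf.tl {a b : (O m)[X]} (h : Dinf (pl a) (pl b)) (hr : Red a b) : TL a b := by
  obtain ⟨C₁, h⟩ := h
  refine ⟨C₁, fun D hD X Y hv hX hY x y hxy T => ?_⟩
  obtain ⟨C, h⟩ := h T
  have hN : Odd (2 ^ D - 1) := Nat.Even.sub_odd Nat.one_le_two_pow
    ((Nat.even_pow' hD.ne').2 even_two) odd_one
  obtain ⟨K, hK, hKy⟩ : ∃ K : ℝ, 0 < K ∧ ∀ l ∈ range T, y (l : ℕ) < 0 → K * y (l : ℕ) < -C := by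
    refine ((Filter.eventually_gt_atTop (0 : ℝ)).and
      ((Filter.eventually_all_finset (range T)).2 fun l _ => ?_)).exists
    by_cases h0 : y (l : ℕ) < 0
    · exact ((Filter.tendsto_id.atTop_mul_const_of_neg h0).eventually_lt_atBot (-C)).mono
        fun K hK _ => hK
    · exact Filter.Eventually.of_forall fun K h1 => absurd h1 h0
  have hev : ∀ᶠ δ : ℝ in nhdsWithin 0 (Set.Ioi 0), ∀ l ∈ range T,
      ∀ p ∈ {u : Tc | (2 ^ D - 1) • u = 0},
        sdig p (y (l : ℕ)) ≤ dgr (C * δ) (p + ((δ * (K * y (l : ℕ)) : ℝ) : Tc)) ∧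
        dig (p + ((δ * (K * x (l : ℕ)) : ℝ) : Tc)) ≤ sdig p (x (l : ℕ)) :=
    (Filter.eventually_all_finset (range T)).2 fun l hl =>
      (Filter.eventually_all_finite (AddCircle.finite_torsion 1 hN.pos)).2 fun p hp =>
        (tle_dgr (tle_half hN hp) hK (hKy l hl)).and (tle_dig p hK _)
  obtain ⟨u, hu, hev⟩ := mem_nhdsGT_iff_exists_Ioo_subset.1 hev
  obtain ⟨k, hk⟩ := exists_pow_lt_of_lt_one (show (0 : ℝ) < u from hu)
    (show (1 / 2 : ℝ) < 1 by norm_num)
  have key : ∀ s : ℕ, s * ∑ l ∈ range T, ∑ e ∈ range (m * D),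
      (sdig (Y (mon m ((e : ℤ), -(l : ℤ)))) (y l) - sdig (X (mon m ((e : ℤ), -(l : ℤ)))) (x l)) ≤
      s * (m * D * T / 2 + C₁ * D) + (C + T * (2 * (m * k : ℕ))) := by
    intro s
    have h1 := h (D * s) (X + tleS m (K / 2 ^ (D * s)) x) (Y + tleS m (K / 2 ^ (D * s)) y)
      fun η ξ he => by
        rw [AddMonoidHom.add_apply, AddMonoidHom.add_apply, hv η ξ he, tleS_apply, tleS_apply,
          tleR_valid hr.cop hxy η ξ he]
    have h2 : ∀ l ∈ range T, s * ∑ e ∈ range (m * D),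
        (sdig (Y (mon m ((e : ℤ), -(l : ℤ)))) (y l) - sdig (X (mon m ((e : ℤ), -(l : ℤ)))) (x l)) ≤
        ∑ e ∈ range (m * (D * s)), (dgr (C * tr m e / 2 ^ (D * s))
          ((Y + tleS m (K / 2 ^ (D * s)) y) (mon m ((e : ℤ), -(l : ℤ)))) -
          dig ((X + tleS m (K / 2 ^ (D * s)) x) (mon m ((e : ℤ), -(l : ℤ))))) +
          2 * (m * k : ℕ) := by
      intro l hl
      rw [← tle_sum_per (fun e => by simp only [tle_per hX, tle_per hY]), mul_assoc]
      refine tle_sum_le (fun e he => ?_) fun e => ?_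
      · have h3 : tr m e / 2 ^ (D * s) ∈ Set.Ioo 0 u :=
          ⟨div_pos (tr_pos _) (by positivity), (tle_tr he).trans_lt hk⟩
        have h4 := (hev h3 l hl _ (hY (mon m ((e : ℤ), -(l : ℤ))))).1
        have h5 := (hev h3 l hl _ (hX (mon m ((e : ℤ), -(l : ℤ))))).2
        have h6 : ∀ z : ℝ, K / 2 ^ (D * s) * (tr m e * z) = tr m e / 2 ^ (D * s) * (K * z) :=
          fun z => by ring
        rw [AddMonoidHom.add_apply, AddMonoidHom.add_apply, tleS_apply, tleS_apply, tleR_mon,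
          tleR_mon, h6, h6, mul_div_assoc]
        exact sub_le_sub h4 h5
      · have h3 := (tle_sdig (Y (mon m ((e : ℤ), -(l : ℤ)))) (y l)).2
        have h4 := (tle_sdig (X (mon m ((e : ℤ), -(l : ℤ)))) (x l)).1
        have h5 := dgr_nonneg (C * tr m e / 2 ^ (D * s))
          ((Y + tleS m (K / 2 ^ (D * s)) y) (mon m ((e : ℤ), -(l : ℤ))))
        have h6 := dig_le_one ((X + tleS m (K / 2 ^ (D * s)) x) (mon m ((e : ℤ), -(l : ℤ))))
        linarith
    have h3 := sum_le_sum h2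
    rw [sum_add_distrib, sum_const, card_range, nsmul_eq_mul, ← mul_sum] at h3
    rw [Nat.cast_mul] at h1
    linarith
  by_contra hc
  have hg := sub_pos.2 (not_le.1 hc)
  obtain ⟨s, hs⟩ := exists_nat_gt ((C + T * (2 * (m * k : ℕ))) / _)
  rw [div_lt_iff₀ hg] at hs
  have := key s
  linarith

theorem TL.sm {a b : (O m)[X]} (h : TL a b) : SM (rl a) (rl b) := by
  obtain ⟨C₁, h⟩ := h
  have hm : (0 : ℝ) < m := by exact_mod_cast Nat.pos_of_ne_zero (NeZero.ne m)
  refine ⟨C₁ / m, fun x y hxy T => ?_⟩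
  have h1 := h 1 one_pos 0 0 (fun _ _ _ => rfl) (fun _ => by simp) (fun _ => by simp) x y hxy T
  simp only [AddMonoidHom.zero_apply, sdig, if_true, sum_const, card_range, nsmul_eq_mul,
    ← mul_sum, sum_sub_distrib, sum_boole, mul_one, Nat.cast_one] at h1
  rw [← sub_le_iff_le_add', le_div_iff₀ hm]
  linarith

end Pool.Agent.GK
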