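import Pool.Agent.Lib.MP_a01f70_lc.GK.Bas
import Pool.Agent.Lib.MP_a01f70_lc.BA.Main

namespace Pool.Agent.GK
open Finset Polynomial

/-- block A: a bounded relation -/
theorem bounded_rel : ∃ k : ℕ, ∀ n d : ℕ, 2 ≤ n → Dn n d →
    ∃ η : ZMod (2 ^ n - 1), η ≠ 0 ∧ Wt k η ∧ Wt k (η * d) := by
  obtain ⟨k, S, h⟩ := Pool.Agent.Lib.MP_a01f70_lc.BA.bounded
  refine ⟨max k S, fun n d hn hd => ?_⟩
  obtain ⟨η, h0, h1, h2⟩ := h n d hn hd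
  exact ⟨η, h0, h1.mono (le_max_left _ _), h2.mono (le_max_right _ _)⟩

end Pool.Agent.GK
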