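import Mathlib

/-!
Averages over characters.
-/

set_option autoImplicit false

noncomputable section

namespace Pool.Agent.GK

open Finset

theorem avg_sep {Q : Type} [AddCommGroup Q] {a : Q} (ha : a ≠ 0) :
    ∃ θ : Q →+ UnitAddCircle, θ a ≠ 0 ∧ ∀ q, ∃ n : ℕ, 0 < n ∧ n • θ q = 0 := by
  obtain ⟨c, hc⟩ := CharacterModule.exists_character_apply_ne_zero_of_ne_zero ha
  let j : AddCircle (1 : ℚ) →+ UnitAddCircle :=
    QuotientAddGroup.map _ _ (Rat.castHom ℝ).toAddMonoidHom (by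
      rintro _ ⟨n, rfl⟩
      exact ⟨n, by simp⟩)
  have hj : ∀ x : ℚ, j (x : AddCircle (1 : ℚ)) = ((x : ℝ) : UnitAddCircle) := fun _ => rfl
  refine ⟨j.comp c, fun h => hc ?_, fun q => ?_⟩
  · obtain ⟨x, hx⟩ := QuotientAddGroup.mk_surjective (c a)
    change j (c a) = 0 at h
    rw [← hx] at h ⊢
    obtain ⟨n, hn⟩ := (AddCircle.coe_eq_zero_iff _).1 ((hj x).symm.trans h)
    exact (AddCircle.coe_eq_zero_iff _).2 ⟨n, by
      rw [zsmul_one] at hn ⊢
      exact_mod_cast hn⟩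
  · obtain ⟨x, hx⟩ := QuotientAddGroup.mk_surjective (c q)
    refine ⟨x.den, x.den_pos, ?_⟩
    change x.den • j (c q) = 0
    rw [← hx, hj, ← AddCircle.coe_nsmul]
    exact (AddCircle.coe_eq_zero_iff _).2 ⟨x.num, by
      rw [zsmul_one, nsmul_eq_mul]
      exact_mod_cast (Rat.den_mul_eq_num x).symm⟩

open Classical in
theorem avg_cyc {x : UnitAddCircle} {N : ℕ} (h : N • x = 0) :
    ∑ k : Fin N, (fourier 1 ((k : ℕ) • x) : ℂ) = if x = 0 then (N : ℂ) else 0 := by
  have h1 : ∀ k : ℕ, (fourier 1 (k • x) : ℂ) = (x.toCircle : ℂ) ^ k := fun k => by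
    rw [fourier_one, AddCircle.toCircle_nsmul, Circle.coe_pow]
  simp only [h1]
  rw [Fin.sum_univ_eq_sum_range fun k => (x.toCircle : ℂ) ^ k]
  split_ifs with h0
  · simp [h0]
  · have h2 : (x.toCircle : ℂ) ≠ 1 := fun e => h0 (AddCircle.injective_toCircle one_ne_zero
      (Circle.ext (by simpa using e)))
    rw [geom_sum_eq h2, ← h1, h]
    simp

open Classical in
/-- A finite family of characters that detects `0` on a finite set. -/
theorem exists_avg {Q : Type} [AddCommGroup Q] (S : Finset Q) :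
    ∃ (ι : Type) (_ : Fintype ι) (_ : Nonempty ι) (θ : ι → Q →+ UnitAddCircle), ∀ q ∈ S,
      ∑ i, (fourier 1 (θ i q) : ℂ) = if q = 0 then (Fintype.card ι : ℂ) else 0 := by
  suffices H : ∀ S' : Finset Q, ∃ (ι : Type) (_ : Fintype ι) (_ : Nonempty ι)
      (θ : ι → Q →+ UnitAddCircle), ∀ q ∈ S, q ∈ S' → q ≠ 0 → ∑ i, (fourier 1 (θ i q) : ℂ) = 0 by
    obtain ⟨ι, _, _, θ, h⟩ := H S
    refine ⟨ι, inferInstance, inferInstance, θ, fun q hq => ?_⟩
    split_ifs with h0
    · simp [h0]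
    · exact h q hq hq h0
  intro S'
  induction S' using Finset.induction_on with
  | empty => exact ⟨Unit, inferInstance, inferInstance, fun _ => 0, by simp⟩
  | insert a S' _ ih =>
    obtain ⟨ι, _, _, θ, h⟩ := ih
    by_cases ha : a = 0
    · exact ⟨ι, inferInstance, inferInstance, θ, fun q hq h1 h2 =>
        h q hq ((mem_insert.1 h1).resolve_left (ha ▸ h2)) h2⟩
    obtain ⟨c, h1, h2⟩ := avg_sep ha
    obtain ⟨N, hN, h3⟩ := h2 a
    have : Nonempty (Fin N) := ⟨⟨0, hN⟩⟩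
    refine ⟨ι × Fin N, inferInstance, inferInstance, fun p => θ p.1 + (p.2 : ℕ) • c,
      fun q hq h4 h5 => ?_⟩
    have h6 : ∀ x y : UnitAddCircle, (fourier 1 (x + y) : ℂ) = fourier 1 x * fourier 1 y :=
      fun x y => by simp only [fourier_one, AddCircle.toCircle_add, Circle.coe_mul]
    simp only [AddMonoidHom.add_apply, AddMonoidHom.nsmul_apply, h6, Fintype.sum_prod_type]
    rw [← sum_mul_sum]
    rcases mem_insert.1 h4 with rfl | h7
    · rw [avg_cyc h3, if_neg h1, mul_zero]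
    · rw [h q hq h7 h5, zero_mul]

end Pool.Agent.GK
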