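import Pool.Agent.Lib.MP_a01f70_lc.GK.Bas1

namespace Pool.Agent.GK
open Finset

section wt
variable {R : Type} [CommRing R]
theorem Wt.mono {k k' : ℕ} {x : R} (h : Wt k x) (hk : k ≤ k') : Wt k' x := by
  obtain ⟨P, Q, h1, h2⟩ := h
  exact ⟨P, Q, h1.trans hk, h2⟩

theorem wt_zero : Wt 0 (0 : R) := ⟨0, 0, by simp, by simp⟩

theorem wt_pow (j : ℕ) : Wt 1 ((2 : R) ^ j) := ⟨{j}, 0, by simp, by simp⟩

theorem Wt.neg {k : ℕ} {x : R} (h : Wt k x) : Wt k (-x) := by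
  obtain ⟨P, Q, h1, h2⟩ := h
  exact ⟨Q, P, by omega, by rw [h2, neg_sub]⟩

theorem Wt.add {k k' : ℕ} {x y : R} (h : Wt k x) (h' : Wt k' y) : Wt (k + k') (x + y) := by
  obtain ⟨P, Q, h1, h2⟩ := h
  obtain ⟨P', Q', h1', h2'⟩ := h'
  refine ⟨P + P', Q + Q', by simp only [Multiset.card_add]; omega, ?_⟩
  simp only [Multiset.map_add, Multiset.sum_add, h2, h2']
  ring

theorem bas3_pow {k : ℕ} {y : R} (h : Wt k y) (j : ℕ) : Wt k (2 ^ j * y) := by
  obtain ⟨P, Q, h1, rfl⟩ := h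
  exact ⟨P.map (j + ·), Q.map (j + ·), by simpa using h1, by
    simp [mul_sub, pow_add, Multiset.sum_map_mul_left]⟩

theorem bas3_sum {k : ℕ} {y : R} (h : Wt k y) (P : Multiset ℕ) :
    Wt (P.card * k) ((P.map (2 ^ ·)).sum * y) := by
  induction P using Multiset.induction_on with
  | empty => simpa using wt_zero
  | cons a P ih =>
    rw [Multiset.card_cons, Multiset.map_cons, Multiset.sum_cons, add_mul, add_mul, one_mul,
      add_comm]
    exact (bas3_pow h a).add ih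

theorem Wt.mul {k k' : ℕ} {x y : R} (h : Wt k x) (h' : Wt k' y) : Wt (k * k') (x * y) := by
  obtain ⟨P, Q, h1, rfl⟩ := h
  rw [sub_mul, sub_eq_add_neg]
  exact ((bas3_sum h' P).add (bas3_sum h' Q).neg).mono
    ((add_mul _ _ _).ge.trans (Nat.mul_le_mul_right _ h1))

theorem wt_intCast (a : ℤ) : Wt a.natAbs (a : R) := by
  have h : ∀ n : ℕ, Wt n (n : R) := fun n => ⟨Multiset.replicate n 0, 0, by simp, by simp⟩
  obtain ⟨n, rfl | rfl⟩ := a.eq_nat_or_neg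
  · simpa using h n
  · simpa using (h n).neg

theorem Wt.fin {k : ℕ} {x : R} (h : Wt k x) :
    ∃ (c : Fin k → SignType) (s : Fin k → ℕ), x = ∑ j, ((c j : ℤ) : R) * 2 ^ s j := by
  induction k generalizing x with
  | zero =>
    obtain ⟨P, Q, h1, rfl⟩ := h
    obtain rfl : P = 0 := Multiset.card_eq_zero.1 (by omega)
    obtain rfl : Q = 0 := Multiset.card_eq_zero.1 (by omega)
    exact ⟨0, 0, by simp⟩
  | succ k ih =>
    have key : ∀ (c : SignType) (a : ℕ) (y : R), Wt k y → x = ((c : ℤ) : R) * 2 ^ a + y →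
        ∃ (c : Fin (k + 1) → SignType) (s : Fin (k + 1) → ℕ),
          x = ∑ j, ((c j : ℤ) : R) * 2 ^ s j := fun c a y hy hx => by
      obtain ⟨c', s', rfl⟩ := ih hy
      exact ⟨Fin.cons c c', Fin.cons a s', by simpa [Fin.sum_univ_succ] using hx⟩
    obtain ⟨P, Q, h1, h2⟩ := h
    rcases P.empty_or_exists_mem with rfl | ⟨a, ha⟩
    · rcases Q.empty_or_exists_mem with rfl | ⟨a, ha⟩
      · exact ⟨0, 0, by simpa using h2⟩
      · obtain ⟨Q, rfl⟩ := Multiset.exists_cons_of_mem ha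
        exact key (-1) a _ ⟨0, Q, by simpa using h1, rfl⟩ (by simp [h2]; ring)
    · obtain ⟨P, rfl⟩ := Multiset.exists_cons_of_mem ha
      exact key 1 a _ ⟨P, Q, by rw [Multiset.card_cons] at h1; omega, rfl⟩ (by simp [h2]; ring)

end wt

namespace Trig
variable {μ : ℝ} (t : Trig μ)
theorem S_zero : t.S 0 = 0 := by
  simpa [ee_zero] using congrArg Complex.re (t.S_eq 0)

theorem ψ_le_dig (x : Tc) : t.ψ x ≤ dig x := by
  have h1 := _root_.abs_le.1 (t.abs_le x)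
  have h2 := t.sign x
  rw [ψ]
  rcases dig_cases x with h | h <;> rw [h] at h2 ⊢ <;> nlinarith

theorem abs_sub (x : Tc) : |2 * dig x - 1 - t.S x| ≤ 1 - t.S x ^ 2 := by
  have h1 := _root_.abs_le.1 (t.abs_le x)
  have h2 := t.sign x
  rw [_root_.abs_le]
  rcases dig_cases x with h | h <;> rw [h] at h2 ⊢ <;> constructor <;> nlinarith

theorem ψ_eq (x : Tc) : (t.ψ x : ℂ) =
    ∑ a ∈ Icc (-(2 * t.M : ℤ)) (2 * t.M), ((t.q a + Complex.I * t.σ a) / 2) * ee (a • x) := by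
  rw [ψ]
  push_cast
  rw [t.sq_eq, t.S_eq, ← sum_add_distrib, sum_div]
  exact sum_congr rfl fun a _ => by ring

theorem ψ_lip : ∃ Lp : ℝ, ∀ x, t.ψ x ≤ Lp * ‖x‖ := by
  refine ⟨∑ a ∈ Icc (-(2 * t.M : ℤ)) (2 * t.M),
    ‖((t.q a : ℂ) + Complex.I * t.σ a) / 2‖ * (2 * Real.pi * ‖a‖), fun x => ?_⟩
  have h0 : (t.ψ 0 : ℂ) = 0 := by simp [ψ, S_zero]
  refine (le_abs_self _).trans ?_
  rw [← Real.norm_eq_abs, ← Complex.norm_real, ← sub_zero (t.ψ x : ℂ), ← h0, ψ_eq, ψ_eq,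
    ← sum_sub_distrib, sum_mul]
  refine norm_sum_le_of_le _ fun a _ => ?_
  rw [← mul_sub, norm_mul, smul_zero, ee_zero, mul_assoc, mul_assoc]
  exact mul_le_mul_of_nonneg_left ((norm_ee_sub_one _).trans
    (mul_le_mul_of_nonneg_left (norm_zsmul_le a x) (by positivity))) (norm_nonneg _)

end Trig

end Pool.Agent.GK
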