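import Pool.Agent.Lib.MP_a01f70_lc.GK.Defs

namespace Pool.Agent.GK
open Finset

theorem fr_coe (r : ℝ) : fr (r : Tc) = Int.fract r := by
  rw [fr, AddCircle.coe_equivIco_mk_apply, div_one, mul_one]

theorem fr_nonneg (x : Tc) : 0 ≤ fr x := by
  exact (AddCircle.equivIco 1 0 x).2.1

theorem fr_lt_one (x : Tc) : fr x < 1 := by
  exact (AddCircle.equivIco 1 0 x).2.2.trans_eq (zero_add 1)

theorem coe_fr (x : Tc) : ((fr x : ℝ) : Tc) = x := by
  exact (AddCircle.equivIco 1 0).symm_apply_apply x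

theorem fr_of_mem {r : ℝ} (h0 : 0 ≤ r) (h1 : r < 1) : fr (r : Tc) = r := by
  rw [fr_coe, Int.fract_eq_self.2 ⟨h0, h1⟩]

theorem fr_zero : fr 0 = 0 := by
  exact fr_of_mem le_rfl one_pos

theorem fr_eq_zero {x : Tc} : fr x = 0 ↔ x = 0 := by
  refine ⟨fun h => ?_, fun h => h ▸ fr_zero⟩
  rw [← coe_fr x, h, AddCircle.coe_zero]

theorem fr_le_of_coe {r : ℝ} {x : Tc} (h0 : 0 ≤ r) (h : (r : Tc) = x) : fr x ≤ r := by
  rw [← h, fr_coe, Int.fract]
  have : (0 : ℝ) ≤ ⌊r⌋ := by exact_mod_cast Int.floor_nonneg.2 h0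
  linarith

theorem fr_neg {x : Tc} (h : x ≠ 0) : fr (-x) = 1 - fr x := by
  have h1 : 0 < fr x := (fr_nonneg x).lt_of_ne fun e => h (fr_eq_zero.1 e.symm)
  rw [← fr_of_mem (r := 1 - fr x) (by linarith [fr_lt_one x]) (by linarith), AddCircle.coe_sub,
    AddCircle.coe_period, coe_fr, zero_sub]

theorem fr_add_coe {x : Tc} {r : ℝ} (h0 : 0 ≤ fr x + r) (h1 : fr x + r < 1) :
    fr (x + (r : Tc)) = fr x + r := by
  rw [← fr_of_mem h0 h1, AddCircle.coe_add, coe_fr]

theorem norm_le_fr (x : Tc) : ‖x‖ ≤ fr x := by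
  have h := round_le (fr x) 0
  rwa [← UnitAddCircle.norm_eq, coe_fr, Int.cast_zero, sub_zero, abs_of_nonneg (fr_nonneg x)] at h

theorem norm_le_one_sub_fr (x : Tc) : ‖x‖ ≤ 1 - fr x := by
  have h := round_le (fr x) 1
  rwa [← UnitAddCircle.norm_eq, coe_fr, Int.cast_one, abs_sub_comm,
    abs_of_nonneg (sub_nonneg.2 (fr_lt_one x).le)] at h

theorem norm_coe_le (r : ℝ) : ‖(r : Tc)‖ ≤ |r| := by
  have h := round_le r 0
  rwa [← UnitAddCircle.norm_eq, Int.cast_zero, sub_zero] at h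

theorem exists_coe_norm (x : Tc) : ∃ r : ℝ, (r : Tc) = x ∧ |r| = ‖x‖ := by
  refine ⟨fr x - round (fr x), ?_, by rw [← UnitAddCircle.norm_eq, coe_fr]⟩
  have h : ((round (fr x) : ℝ) : Tc) = 0 :=
    (AddCircle.coe_eq_zero_iff 1).2 ⟨round (fr x), by simp⟩
  rw [AddCircle.coe_sub, h, sub_zero, coe_fr]

theorem rp_neg (x : Tc) : rp (-x) = 1 - fr x := by
  rw [rp, neg_neg]

theorem rp_pos (x : Tc) : 0 < rp x := by
  exact sub_pos.2 (fr_lt_one _)

theorem rp_le_one (x : Tc) : rp x ≤ 1 := by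
  exact sub_le_self _ (fr_nonneg _)

theorem coe_rp (x : Tc) : ((rp x : ℝ) : Tc) = x := by
  rw [rp, AddCircle.coe_sub, AddCircle.coe_period, coe_fr, zero_sub, neg_neg]

theorem rp_zero : rp 0 = 1 := by
  rw [rp, neg_zero, fr_zero, sub_zero]

theorem rp_of_ne {x : Tc} (h : x ≠ 0) : rp x = fr x := by
  rw [rp, fr_neg h, sub_sub_cancel]

theorem rp_le_of_coe {r : ℝ} {x : Tc} (h0 : 0 < r) (h : (r : Tc) = x) : rp x ≤ r := by
  by_cases hx : x = 0
  · rw [hx, rp_zero]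
    obtain ⟨n, hn⟩ := (AddCircle.coe_eq_zero_iff 1).1 (h.trans hx)
    rw [zsmul_eq_mul, mul_one] at hn
    rw [← hn] at h0 ⊢
    exact_mod_cast (by exact_mod_cast h0 : 0 < n)
  · rw [rp_of_ne hx]
    exact fr_le_of_coe h0.le h

theorem rp_add_le (x y : Tc) : rp (x + y) ≤ rp x + rp y := by
  exact rp_le_of_coe (add_pos (rp_pos x) (rp_pos y)) (by rw [AddCircle.coe_add, coe_rp, coe_rp])

theorem rp_add_small {x y : Tc} (h : ‖y‖ < rp x) : rp (x + y) ≤ rp x + ‖y‖ := by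
  obtain ⟨r, h1, h2⟩ := exists_coe_norm y
  have h3 := rp_le_of_coe (r := rp x + r) (x := x + y) (by linarith [neg_abs_le r])
    (by rw [AddCircle.coe_add, coe_rp, h1])
  linarith [le_abs_self r]

theorem two_fr (x : Tc) : 2 * fr x - fr (2 • x) = dig x := by
  have h0 := fr_nonneg x
  have h1 := fr_lt_one x
  have e : ((2 * fr x : ℝ) : Tc) = 2 • x := by
    rw [two_mul, AddCircle.coe_add, coe_fr, two_nsmul]
  unfold dig
  split_ifs with h
  · have := fr_of_mem (r := 2 * fr x - 1) (by linarith) (by linarith)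
    rw [AddCircle.coe_sub, AddCircle.coe_period, sub_zero, e] at this
    linarith
  · have := fr_of_mem (r := 2 * fr x) (by linarith) (by linarith)
    rw [e] at this
    linarith

theorem dig_cases (x : Tc) : dig x = 0 ∨ dig x = 1 := by
  unfold dig
  split_ifs <;> simp

theorem dig_nonneg (x : Tc) : 0 ≤ dig x := by
  rcases dig_cases x with h | h <;> simp [h]

theorem dig_le_one (x : Tc) : dig x ≤ 1 := by
  rcases dig_cases x with h | h <;> simp [h]

theorem dig_zero : dig 0 = 0 := by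
  rw [dig, fr_zero, if_neg (by norm_num)]

theorem dig_add_half (x : Tc) : dig (x + ((1 / 2 : ℝ) : Tc)) = 1 - dig x := by
  have h0 := fr_nonneg x
  have h1 := fr_lt_one x
  unfold dig
  by_cases h : 1 / 2 ≤ fr x
  · have e : ((1 / 2 : ℝ) : Tc) = ((1 / 2 - 1 : ℝ) : Tc) := by
      rw [AddCircle.coe_sub, AddCircle.coe_period, sub_zero]
    rw [e, fr_add_coe (by linarith) (by linarith), if_pos h, if_neg (by linarith), sub_self]
  · rw [fr_add_coe (by linarith) (by linarith), if_neg h, if_pos (by linarith), sub_zero]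

theorem dgr_nonneg (κ : ℝ) (x : Tc) : 0 ≤ dgr κ x := by
  unfold dgr
  split_ifs <;> simp

theorem dgr_le_dig (κ : ℝ) (x : Tc) : dgr κ x ≤ dig x := by
  unfold dgr
  split_ifs with h
  · rw [dig, if_pos h.1]
  · exact dig_nonneg x

theorem dgr_anti {κ κ' : ℝ} (h : κ ≤ κ') (x : Tc) : dgr κ' x ≤ dgr κ x := by
  rw [dgr]
  split_ifs with h'
  · rw [dgr, if_pos ⟨h'.1, by linarith [h'.2]⟩]
  · exact dgr_nonneg κ x

theorem sum_fr (x : Tc) (H : ℕ) :
    ∑ j ∈ range H, fr (2 ^ j • x) = ∑ j ∈ range H, dig (2 ^ j • x) + fr (2 ^ H • x) - fr x := by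
  induction H with
  | zero => simp
  | succ H ih =>
    have h := two_fr (2 ^ H • x)
    rw [← mul_nsmul, ← pow_succ] at h
    rw [sum_range_succ, sum_range_succ, ih]
    linarith


theorem ee_coe (r : ℝ) : ee (r : Tc) = Complex.exp (2 * Real.pi * Complex.I * r) := by
  rw [ee, AddCircle.toCircle_apply_mk, Circle.coe_exp, div_one]
  congr 1
  push_cast
  ring

theorem ee_zero : ee 0 = 1 := by
  rw [ee, AddCircle.toCircle_zero, Circle.coe_one]

theorem ee_add (x y : Tc) : ee (x + y) = ee x * ee y := by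
  rw [ee, AddCircle.toCircle_add, Circle.coe_mul, ee, ee]

theorem ee_neg (x : Tc) : ee (-x) = (starRingEnd ℂ) (ee x) := by
  rw [ee, AddCircle.toCircle_neg, Circle.coe_inv_eq_conj, ee]

theorem ee_half : ee ((1 / 2 : ℝ) : Tc) = -1 := by
  rw [ee_coe, ← Complex.exp_pi_mul_I]
  congr 1
  push_cast
  ring

theorem norm_ee (x : Tc) : ‖ee x‖ = 1 := by
  exact Circle.norm_coe _

theorem ee_eq_one {x : Tc} : ee x = 1 ↔ x = 0 := by
  refine ⟨fun h => AddCircle.injective_toCircle one_ne_zero ?_, fun h => h ▸ ee_zero⟩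
  rw [AddCircle.toCircle_zero]
  exact Circle.coe_eq_one.1 h

theorem ee_sum {ι : Type} (s : Finset ι) (f : ι → Tc) : ee (∑ i ∈ s, f i) = ∏ i ∈ s, ee (f i) := by
  classical
  induction s using Finset.induction_on with
  | empty => simpa using ee_zero
  | insert a s ha ih => rw [sum_insert ha, prod_insert ha, ee_add, ih]

theorem ee_nsmul (k : ℕ) (x : Tc) : ee (k • x) = ee x ^ k := by
  rw [ee, AddCircle.toCircle_nsmul, Circle.coe_pow, ee]

theorem norm_ee_sub_one (x : Tc) : ‖ee x - 1‖ ≤ 2 * Real.pi * ‖x‖ := by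
  obtain ⟨r, rfl, h⟩ := exists_coe_norm x
  have h1 := Real.norm_exp_I_mul_ofReal_sub_one_le (x := 2 * Real.pi * r)
  rw [Real.norm_eq_abs, abs_mul, abs_of_pos Real.two_pi_pos] at h1
  rw [← h, ee_coe]
  refine le_trans (le_of_eq ?_) h1
  congr 3
  push_cast
  ring

theorem re_ee_le (x : Tc) : (ee x).re ≤ 1 - 8 * ‖x‖ ^ 2 := by
  obtain ⟨r, rfl, h⟩ := exists_coe_norm x
  have hπ := Real.pi_pos
  have h2 : |r| ≤ 1 / 2 := by linarith [norm_le_fr (r : Tc), norm_le_one_sub_fr (r : Tc)]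
  have h1 := Real.cos_le_one_sub_mul_cos_sq (x := 2 * Real.pi * r) (by
    rw [abs_mul, abs_of_pos Real.two_pi_pos]
    nlinarith)
  have e : ee (r : Tc) = Complex.exp ((2 * Real.pi * r : ℝ) * Complex.I) := by
    rw [ee_coe]
    congr 1
    push_cast
    ring
  rw [← h, sq_abs, e, Complex.exp_ofReal_mul_I_re]
  refine h1.trans_eq ?_
  field_simp
  ring


end Pool.Agent.GK
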