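import Pool.Agent.Lib.MP_a01f70_lc.GK.Bas1

namespace Pool.Agent.GK
open Finset

theorem cc_intCast (N : ℕ) (k : ℤ) : cc N (k : ZMod N) = (((k : ℝ) / N : ℝ) : Tc) := by
  rw [cc, ZMod.lift_coe, zmultiplesHom_apply, ← AddCircle.coe_zsmul, zsmul_eq_mul, div_eq_mul_inv]

theorem cc_natCast (N k : ℕ) : cc N (k : ZMod N) = (((k : ℝ) / N : ℝ) : Tc) := by
  have h := cc_intCast N (k : ℤ)
  rwa [Int.cast_natCast, Int.cast_natCast] at h

theorem fr_cc {N : ℕ} (hN : N ≠ 0) (x : ZMod N) : fr (cc N x) = (x.val : ℝ) / N := by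
  have : NeZero N := ⟨hN⟩
  have hN' : (0 : ℝ) < N := by exact_mod_cast Nat.pos_of_ne_zero hN
  have h := cc_natCast N x.val
  rw [ZMod.natCast_zmod_val] at h
  rw [h]
  refine fr_of_mem (by positivity) ?_
  rw [div_lt_one hN']
  exact_mod_cast ZMod.val_lt x

theorem cc_eq_zero {N : ℕ} (hN : N ≠ 0) {x : ZMod N} : cc N x = 0 ↔ x = 0 := by
  refine ⟨fun h => ?_, fun h => by rw [h, map_zero]⟩
  have h1 := fr_cc hN x
  have hN' : (N : ℝ) ≠ 0 := by exact_mod_cast hN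
  rw [h, fr_zero, eq_comm, div_eq_zero_iff, or_iff_left hN', Nat.cast_eq_zero] at h1
  exact (ZMod.val_eq_zero x).1 h1

theorem sum_ee_cc {N : ℕ} [NeZero N] (y : ZMod N) :
    ∑ x : ZMod N, ee (cc N (x * y)) = if y = 0 then (N : ℂ) else 0 := by
  split_ifs with h
  · simp [h, ee_zero]
  · have h1 : ee (cc N y) ≠ 1 := fun h2 => h ((cc_eq_zero (NeZero.ne N)).1 (ee_eq_one.1 h2))
    have h2 : (∑ x : ZMod N, ee (cc N (x * y))) * ee (cc N y) =
        ∑ x : ZMod N, ee (cc N (x * y)) := by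
      rw [sum_mul]
      refine Fintype.sum_equiv (Equiv.addRight 1) _ _ fun x => ?_
      rw [Equiv.coe_addRight, add_mul, one_mul, map_add, ee_add]
    have h3 : (∑ x : ZMod N, ee (cc N (x * y))) * (ee (cc N y) - 1) = 0 := by
      rw [mul_sub, h2, mul_one, sub_self]
    exact (mul_eq_zero.1 h3).resolve_right (sub_ne_zero.2 h1)

theorem two_pow_self (n : ℕ) : (2 : ZMod (2 ^ n - 1)) ^ n = 1 := by
  have h := ZMod.natCast_self (2 ^ n - 1)
  rw [Nat.cast_sub Nat.one_le_two_pow] at h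
  push_cast at h
  exact sub_eq_zero.1 h

theorem bas2_pow_mod (n a : ℕ) : (2 : ZMod (2 ^ n - 1)) ^ (a % n) = 2 ^ a := by
  conv_rhs => rw [← Nat.mod_add_div a n, pow_add, pow_mul, two_pow_self, one_pow, mul_one]

theorem two_pow_val_add {n : ℕ} (hn : n ≠ 0) (a b : ZMod n) :
    (2 : ZMod (2 ^ n - 1)) ^ (a + b).val = 2 ^ a.val * 2 ^ b.val := by
  have : NeZero n := ⟨hn⟩
  rw [ZMod.val_add, bas2_pow_mod, pow_add]

theorem two_pow_val_natCast (n a : ℕ) : (2 : ZMod (2 ^ n - 1)) ^ (a : ZMod n).val = 2 ^ a := by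
  rw [ZMod.val_natCast, bas2_pow_mod]

theorem bas2_ne {n : ℕ} (hn : n ≠ 0) : 2 ^ n - 1 ≠ 0 := by
  have := Nat.one_lt_two_pow hn
  omega

theorem bas2_cast (n : ℕ) : ((2 ^ n - 1 : ℕ) : ℝ) = 2 ^ n - 1 := by
  rw [Nat.cast_sub Nat.one_le_two_pow]
  push_cast
  rfl

theorem bas2_cc (N j : ℕ) (y : ZMod N) : cc N (2 ^ j * y) = 2 ^ j • cc N y := by
  rw [← map_nsmul, nsmul_eq_mul, Nat.cast_pow, Nat.cast_ofNat]

theorem bas2_top (n : ℕ) (y : ZMod (2 ^ n - 1)) :
    2 ^ n • cc (2 ^ n - 1) y = cc (2 ^ n - 1) y := by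
  rw [← bas2_cc, two_pow_self, one_mul]

theorem bas2_sum_fr (n : ℕ) (y : ZMod (2 ^ n - 1)) :
    ∑ j ∈ range n, fr (cc (2 ^ n - 1) (2 ^ j * y)) =
      ∑ j ∈ range n, dig (cc (2 ^ n - 1) (2 ^ j * y)) := by
  simp only [bas2_cc]
  rw [sum_fr, bas2_top, add_sub_cancel_right]

theorem bas2_rp {r : ℝ} (h0 : 0 < r) (h1 : r ≤ 1) : rp (r : Tc) = r := by
  have h : Int.fract (-r) = 1 - r :=
    Int.fract_eq_iff.2 ⟨by linarith, by linarith, -1, by push_cast; ring⟩
  rw [rp, ← AddCircle.coe_neg, fr_coe, h]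
  ring

theorem bas2_digits (c : Tc) (H : ℕ) :
    ∑ j ∈ range H, dig (2 ^ j • c) * 2 ^ (H - 1 - j) = 2 ^ H * fr c - fr (2 ^ H • c) := by
  induction H with
  | zero => simp
  | succ H ih =>
    have h1 : ∑ j ∈ range H, dig (2 ^ j • c) * 2 ^ (H + 1 - 1 - j) =
        2 * ∑ j ∈ range H, dig (2 ^ j • c) * 2 ^ (H - 1 - j) := by
      rw [mul_sum]
      refine sum_congr rfl fun j hj => ?_
      have h2 : H + 1 - 1 - j = H - 1 - j + 1 := by
        have := mem_range.1 hj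
        omega
      rw [h2, pow_succ]
      ring
    have h3 := two_fr (2 ^ H • c)
    rw [← mul_nsmul', ← pow_succ'] at h3
    rw [sum_range_succ, h1, ih, show H + 1 - 1 - H = 0 by omega, ← h3]
    ring

theorem W_add_le (n : ℕ) (x y : ZMod (2 ^ n - 1)) : W n (x + y) ≤ W n x + W n y := by
  rw [W, W, W, ← sum_add_distrib]
  refine sum_le_sum fun j _ => ?_
  rw [mul_add, map_add]
  exact rp_add_le _ _

theorem W_two_pow_mul (n k : ℕ) (x : ZMod (2 ^ n - 1)) : W n (2 ^ k * x) = W n x := by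
  induction k with
  | zero => rw [pow_zero, one_mul]
  | succ k ih =>
    have h1 := sum_range_succ (fun j => rp (cc (2 ^ n - 1) (2 ^ j * (2 ^ k * x)))) n
    have h2 := sum_range_succ' (fun j => rp (cc (2 ^ n - 1) (2 ^ j * (2 ^ k * x)))) n
    rw [two_pow_self] at h1
    rw [pow_zero, h1, add_left_inj] at h2
    rw [← ih, W, W, h2]
    refine sum_congr rfl fun j _ => ?_
    congr 2
    ring

theorem W_two_pow {n : ℕ} (hn : n ≠ 0) (k : ℕ) : W n (2 ^ k) = 1 := by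
  have hN : (0 : ℝ) < (2 ^ n - 1 : ℕ) := by exact_mod_cast Nat.pos_of_ne_zero (bas2_ne hn)
  have h1 : ∀ j ∈ range n, rp (cc (2 ^ n - 1) (2 ^ j * 1)) = 2 ^ j / (2 ^ n - 1 : ℕ) := by
    intro j hj
    have h2 := cc_natCast (2 ^ n - 1) (2 ^ j)
    rw [Nat.cast_pow, Nat.cast_pow, Nat.cast_ofNat, Nat.cast_ofNat] at h2
    rw [mul_one, h2]
    refine bas2_rp (by positivity) ?_
    rw [div_le_one hN]
    have h3 : 2 ^ j < 2 ^ n := Nat.pow_lt_pow_right (by norm_num) (mem_range.1 hj)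
    exact_mod_cast Nat.le_sub_one_of_lt h3
  rw [← mul_one (2 ^ k : ZMod (2 ^ n - 1)), W_two_pow_mul, W, sum_congr rfl h1, ← sum_div,
    div_eq_one_iff_eq hN.ne', bas2_cast, geom_sum_eq (by norm_num)]
  norm_num

theorem W_zero (n : ℕ) : W n 0 = n := by
  simp [W, rp_zero]

theorem W_nonneg (n : ℕ) (x : ZMod (2 ^ n - 1)) : 0 ≤ W n x :=
  sum_nonneg fun _ _ => (rp_pos _).le

theorem W_le (n : ℕ) (x : ZMod (2 ^ n - 1)) : W n x ≤ n := by
  have h := sum_le_card_nsmul (range n) (fun j => rp (cc (2 ^ n - 1) (2 ^ j * x))) 1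
    fun _ _ => rp_le_one _
  rwa [card_range, nsmul_eq_mul, mul_one] at h

theorem W_neg (n : ℕ) (y : ZMod (2 ^ n - 1)) :
    W n (-y) = n - ∑ j ∈ range n, dig (cc (2 ^ n - 1) (2 ^ j * y)) := by
  rw [W, ← bas2_sum_fr]
  simp only [mul_neg, map_neg, rp_neg]
  rw [sum_sub_distrib, sum_const, card_range, nsmul_eq_mul, mul_one]

theorem W_of_ne {n : ℕ} {y : ZMod (2 ^ n - 1)} (h : y ≠ 0) :
    W n y = ∑ j ∈ range n, dig (cc (2 ^ n - 1) (2 ^ j * y)) := by
  rw [W, ← bas2_sum_fr]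
  refine sum_congr rfl fun j hj => rp_of_ne fun h0 => h ?_
  have hj' := mem_range.1 hj
  rw [cc_eq_zero (bas2_ne (by omega))] at h0
  have h1 : (2 : ZMod (2 ^ n - 1)) ^ (n - j) * (2 ^ j * y) = y := by
    rw [← mul_assoc, ← pow_add, Nat.sub_add_cancel hj'.le, two_pow_self, one_mul]
  rw [← h1, h0, mul_zero]

theorem W_add_multiset {n : ℕ} (hn : n ≠ 0) (x : ZMod (2 ^ n - 1)) (P : Multiset ℕ) :
    W n (x + (P.map (2 ^ ·)).sum) ≤ W n x + P.card := by
  induction P using Multiset.induction_on with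
  | empty => simp
  | cons a P ih =>
    have h := W_add_le n (x + (P.map (2 ^ ·)).sum) (2 ^ a)
    rw [W_two_pow hn] at h
    rw [Multiset.map_cons, Multiset.sum_cons, Multiset.card_cons, add_comm (2 ^ a), ← add_assoc]
    push_cast
    linarith

theorem W_multiset {n : ℕ} (hn : n ≠ 0) {P : Multiset ℕ} (hP : P ≠ 0) :
    W n (P.map (2 ^ ·)).sum ≤ P.card := by
  obtain ⟨a, ha⟩ := Multiset.exists_mem_of_ne_zero hP
  obtain ⟨Q, rfl⟩ := Multiset.exists_cons_of_mem ha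
  have h := W_add_multiset hn (2 ^ a) Q
  rw [W_two_pow hn] at h
  rw [Multiset.map_cons, Multiset.sum_cons, Multiset.card_cons]
  push_cast
  linarith

/-- every residue is the sum of `W` many powers of two -/
theorem exists_multiset {n : ℕ} (hn : n ≠ 0) (x : ZMod (2 ^ n - 1)) :
    ∃ P : Multiset ℕ, P ≠ 0 ∧ (P.card : ℝ) = W n x ∧ x = (P.map (2 ^ ·)).sum := by
  by_cases hx : x = 0
  · refine ⟨(range n).val, ?_, ?_, ?_⟩
    · rw [Ne, val_eq_zero, range_eq_empty_iff]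
      exact hn
    · rw [hx, W_zero, card_val, card_range]
    · have h := mul_geom_sum (2 : ZMod (2 ^ n - 1)) n
      rw [two_pow_self, sub_self, show (2 : ZMod (2 ^ n - 1)) - 1 = 1 by ring, one_mul] at h
      rw [hx]
      exact h.symm
  · have : NeZero (2 ^ n - 1) := ⟨bas2_ne hn⟩
    set S := (range n).filter fun j => dig (cc (2 ^ n - 1) (2 ^ j * x)) = 1 with hS
    have hw : ∀ w : ℕ → ℝ, ∑ j ∈ S, w j =
        ∑ j ∈ range n, dig (cc (2 ^ n - 1) (2 ^ j * x)) * w j := by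
      intro w
      rw [hS, sum_filter]
      refine sum_congr rfl fun j _ => ?_
      rcases dig_cases (cc (2 ^ n - 1) (2 ^ j * x)) with h | h <;> simp [h]
    have hN : ((2 ^ n - 1 : ℕ) : ℝ) ≠ 0 := by exact_mod_cast bas2_ne hn
    have h1 : ((∑ j ∈ S, 2 ^ (n - 1 - j) : ℕ) : ℝ) = x.val := by
      push_cast
      rw [hw]
      simp only [bas2_cc]
      rw [bas2_digits, bas2_top, fr_cc (bas2_ne hn), ← sub_one_mul, ← bas2_cast,
        mul_div_cancel₀ _ hN]
    have h2 : x = ((S.val.map fun j => n - 1 - j).map (2 ^ ·)).sum := by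
      have h3 := congrArg (Nat.cast : ℕ → ZMod (2 ^ n - 1)) (Nat.cast_injective h1)
      rw [ZMod.natCast_zmod_val] at h3
      rw [Multiset.map_map, ← h3]
      push_cast
      rfl
    refine ⟨S.val.map fun j => n - 1 - j, fun h0 => hx ?_, ?_, h2⟩
    · rw [h2, h0, Multiset.map_zero, Multiset.sum_zero]
    · have h4 := hw fun _ => 1
      rw [sum_const, nsmul_eq_mul, mul_one] at h4
      rw [Multiset.card_map, card_val, h4, W_of_ne hx]
      simp only [mul_one]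

theorem Dv.multiset {n d : ℕ} (hn : n ≠ 0) (h : Dv n d) (P : Multiset ℕ) :
    (n : ℝ) / 2 ≤ P.card + W n (-((d : ZMod (2 ^ n - 1)) * (P.map (2 ^ ·)).sum)) := by
  by_cases hP : P = 0
  · rw [hP, Multiset.map_zero, Multiset.sum_zero, mul_zero, neg_zero, W_zero, Multiset.card_zero]
    have : (0 : ℝ) ≤ n := Nat.cast_nonneg n
    push_cast
    linarith
  · have h1 := h (P.map (2 ^ ·)).sum
    have h2 := W_multiset hn hP
    linarith

end Pool.Agent.GK
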