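import Pool.Agent.Lib.MP_a01f70_lc.GK.Kinj

namespace Pool.Agent.GK
open Finset Polynomial

theorem Bgcd_dir {k R n : ℕ} (hR : 0 < R) (hn : 0 < n) (s : Fin k → ℕ) :
    ∃ (K : ℕ) (b : Fin k → ℕ), 0 < K ∧ K ≤ R ^ k ∧
      ∀ j, b j ≤ 2 * (n / R) ∧ K * s j + n / R ≡ b j [MOD n] := by
  have hf : ∀ K j, K * s j % n * R / n < R := fun K j => by
    rw [Nat.div_lt_iff_lt_mul hn, mul_comm R]
    exact Nat.mul_lt_mul_of_pos_right (Nat.mod_lt _ hn) hR
  obtain ⟨x, y, hxy, h⟩ := Fintype.exists_ne_map_eq_of_card_lt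
    (fun (K : Fin (R ^ k + 1)) (j : Fin k) => (⟨_, hf K j⟩ : Fin R)) (by simp)
  wlog hlt : x < y generalizing x y
  · exact this y x hxy.symm h.symm ((not_lt.1 hlt).lt_of_ne hxy.symm)
  have key : ∀ a b : ℕ, a * R / n = b * R / n → a ≤ b + n / R := by
    intro a b e
    have h1 := Nat.lt_div_mul_add (a := a * R) hn
    have h2 := Nat.div_mul_le_self (b * R) n
    rw [e] at h1
    have h3 : a - b ≤ n / R := by
      rw [Nat.le_div_iff_mul_le hR, Nat.sub_mul]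
      omega
    omega
  refine ⟨y - x, fun j => y * s j % n + n / R - x * s j % n, Nat.sub_pos_of_lt hlt, by omega,
    fun j => ?_⟩
  have e : x * s j % n * R / n = y * s j % n * R / n := congrArg Fin.val (congrFun h j)
  have h1 := key _ _ e
  have h2 := key _ _ e.symm
  refine ⟨by beta_reduce; omega, Nat.ModEq.add_right_cancel (Nat.mod_modEq (x * s j) n).symm ?_⟩
  rw [Nat.sub_add_cancel h1, add_right_comm, ← add_mul, Nat.sub_add_cancel (le_of_lt hlt)]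
  exact (Nat.mod_modEq _ n).symm.add_right _

/-- the matrix of the multiplication by `∑ c j t ^ b j` -/
def Bgcd_M {k : ℕ} (K : ℕ) (c : Fin k → ℤ) (b : Fin k → ℕ) : Matrix (Fin K) (Fin K) ℤ :=
  Matrix.of fun i l => ∑ j, if (b j + i) % K = l then c j * 2 ^ ((b j + i) / K) else 0

theorem Bgcd_row {k K : ℕ} (c : Fin k → ℤ) (b : Fin k → ℕ) {S : Type} [CommRing S] {t : S}
    (ht : t ^ K = 2) (i : Fin K) :
    ∑ l, (Bgcd_M K c b i l : S) * t ^ (l : ℕ) = (∑ j, (c j : S) * t ^ b j) * t ^ (i : ℕ) := by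
  simp only [Bgcd_M, Matrix.of_apply, Int.cast_sum, sum_mul]
  rw [sum_comm]
  refine sum_congr rfl fun j _ => ?_
  rw [sum_eq_single ⟨(b j + i) % K, Nat.mod_lt _ i.pos⟩ (fun l _ hl => by
    rw [if_neg fun e => hl (Fin.ext e.symm), Int.cast_zero, zero_mul]) (by simp), if_pos rfl]
  push_cast
  rw [← ht, ← pow_mul, mul_assoc, mul_assoc, ← pow_add, ← pow_add, Nat.div_add_mod]

theorem Bgcd_det_ne {k K : ℕ} [NeZero K] (c : Fin k → ℤ) (b : Fin k → ℕ) {S : Type} [CommRing S]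
    {t : S} (ht : t ^ K = 2) (h : ∑ j, (c j : S) * t ^ b j ≠ 0) : (Bgcd_M K c b).det ≠ 0 := by
  intro h0
  obtain ⟨w, hw, e⟩ := Matrix.exists_vecMul_eq_zero_iff.2 h0
  have h2 : tr K 1 ^ K = 2 := by rw [tr_pow, one_mul, tr_m]
  have ind : ∀ v : Fin K → ℤ, ∑ i, (v i : ℝ) * tr K 1 ^ (i : ℕ) = 0 → v = 0 := by
    intro v hv
    have := tr_indep (m := K) (fun i => v i)
      (by simpa only [tr_pow, one_mul, Rat.cast_intCast] using hv)
    funext i
    simpa using congrFun this i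
  have h3 : (∑ j, (c j : ℝ) * tr K 1 ^ b j) * ∑ i, (w i : ℝ) * tr K 1 ^ (i : ℕ) = 0 := by
    have e' : ∀ l, ∑ i, (w i : ℝ) * Bgcd_M K c b i l = 0 := fun l => by
      exact_mod_cast congrFun e l
    simp only [mul_sum, mul_left_comm _ (w _ : ℝ), ← Bgcd_row c b h2]
    simp only [← mul_assoc]
    rw [sum_comm]
    simp only [← sum_mul, e', zero_mul, sum_const_zero]
  have h4 := (mul_eq_zero.1 h3).resolve_right fun e => hw (ind w e)
  have h5 := ind _ ((Bgcd_row c b h2 0).trans (by rw [h4, zero_mul]))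
  have h6 := Bgcd_row c b ht 0
  simp only [h5, Pi.zero_apply, Int.cast_zero, zero_mul, sum_const_zero, Fin.val_zero, pow_zero,
    mul_one] at h6
  exact h h6.symm

theorem Bgcd_det_mul {k K : ℕ} [NeZero K] (c : Fin k → ℤ) (b : Fin k → ℕ) {S : Type} [CommRing S]
    {t e : S} (ht : t ^ K = 2) (h : (∑ j, (c j : S) * t ^ b j) * e = 0) :
    ((Bgcd_M K c b).det : S) * e = 0 := by
  have h1 : ((Int.castRingHom S).mapMatrix (Bgcd_M K c b)).mulVec (fun i => t ^ (i : ℕ) * e) = 0 := by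
    funext i
    have := Bgcd_row c b ht i
    simp only [Matrix.mulVec, dotProduct, RingHom.mapMatrix_apply, Matrix.map_apply, eq_intCast,
      ← mul_assoc, ← sum_mul, this, Pi.zero_apply]
    rw [mul_right_comm, h, zero_mul]
  have h2 := congrArg ((Int.castRingHom S).mapMatrix (Bgcd_M K c b)).adjugate.mulVec h1
  rw [Matrix.mulVec_mulVec, Matrix.adjugate_mul, Matrix.mulVec_zero, ← RingHom.map_det,
    Matrix.smul_mulVec, Matrix.one_mulVec] at h2
  simpa using congrFun h2 0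

theorem Bgcd_det_le {k K u : ℕ} (c : Fin k → ℤ) (b : Fin k → ℕ) (hc : ∀ j, |c j| ≤ 1)
    (hb : ∀ j, b j ≤ u) : (Bgcd_M K c b).det.natAbs ≤ K.factorial * (2 * k) ^ K * 2 ^ u := by
  have h : ∀ i l, AbsoluteValue.abs (Bgcd_M K c b i l) ≤ (k * 2 ^ (u / K + 1) : ℤ) := by
    intro i l
    rw [AbsoluteValue.abs_apply, Bgcd_M, Matrix.of_apply]
    refine (abs_sum_le_sum_abs _ _).trans ((sum_le_card_nsmul _ _ ((2 : ℤ) ^ (u / K + 1))
      fun j _ => ?_).trans_eq (by simp))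
    split_ifs
    · rw [abs_mul, abs_pow, abs_two]
      refine (mul_le_of_le_one_left (by positivity) (hc j)).trans
        (pow_le_pow_right₀ one_le_two ?_)
      rw [← Nat.add_div_right u i.pos]
      exact Nat.div_le_div_right (add_le_add (hb j) i.2.le)
    · positivity
  have h1 := Matrix.det_le h
  rw [Fintype.card_fin, nsmul_eq_mul, AbsoluteValue.abs_apply] at h1
  zify
  refine h1.trans ?_
  rw [mul_assoc, pow_succ', ← mul_assoc (k : ℤ), mul_comm (k : ℤ), mul_pow, ← pow_mul]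
  gcongr
  · exact one_le_two
  · exact Nat.div_mul_le_self u K

/-- a nonzero bounded sum of powers of two is almost coprime to `2 ^ n - 1` -/
theorem small_ann (k : ℕ) {ε : ℝ} (hε : 0 < ε) : ∃ Q : ℕ, ∀ n : ℕ, Q ≤ n →
    (∀ c : ℕ, 0 < c → c ≤ Q → Nat.Coprime c n) → ∀ η : ZMod (2 ^ n - 1), Wt k η → η ≠ 0 →
      ∃ g : ℕ, 0 < g ∧ (g : ℝ) ≤ 2 ^ (ε * n) ∧
        ∀ e : ZMod (2 ^ n - 1), η * e = 0 → (g : ZMod (2 ^ n - 1)) * e = 0 := by
  obtain ⟨R, hR⟩ := exists_nat_ge (4 / ε)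
  have hR0 : (0 : ℝ) < R := lt_of_lt_of_le (by positivity) hR
  have hR1 : 0 < R := by exact_mod_cast hR0
  obtain ⟨C, hC⟩ : ∃ C : ℕ, C = (R ^ k).factorial * (2 * k + 1) ^ R ^ k := ⟨_, rfl⟩
  obtain ⟨Q, hQ⟩ := exists_nat_ge (2 * C / ε)
  refine ⟨Q + R ^ k + 2, fun n hn hcop η hη h0 => ?_⟩
  obtain ⟨c, s, rfl⟩ := hη.fin
  obtain ⟨K, b, hK, hKR, hb⟩ := Bgcd_dir hR1 (show 0 < n by omega) s
  have : NeZero K := ⟨hK.ne'⟩
  obtain ⟨K', hK'⟩ : ∃ K', K * K' % n = 1 := by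
    obtain ⟨K', -, h⟩ := Nat.exists_mul_mod_eq_one_of_coprime (hcop K hK (by omega))
      (show 1 < n by omega)
    exact ⟨K', h⟩
  have pw : ∀ a a' : ℕ, a ≡ a' [MOD n] → (2 : ZMod (2 ^ n - 1)) ^ a = 2 ^ a' := fun a a' h => by
    rw [pow_eq_pow_mod a (two_pow_self n), pow_eq_pow_mod a' (two_pow_self n), h]
  have ht : ((2 : ZMod (2 ^ n - 1)) ^ K') ^ K = 2 := by
    rw [← pow_mul, mul_comm, pow_eq_pow_mod _ (two_pow_self n), hK', pow_one]
  have hs : ∑ j, ((c j : ℤ) : ZMod (2 ^ n - 1)) * (2 ^ K') ^ b j =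
      (∑ j, ((c j : ℤ) : ZMod (2 ^ n - 1)) * 2 ^ s j) * (2 ^ K') ^ (n / R) := by
    rw [sum_mul]
    refine sum_congr rfl fun j _ => ?_
    rw [← pow_mul, ← pw _ _ ((hb j).2.mul_left K'), pow_mul, pow_add, pow_mul, ht, mul_assoc]
  have hu : IsUnit (((2 : ZMod (2 ^ n - 1)) ^ K') ^ (n / R)) :=
    ((IsUnit.of_pow_eq_one (two_pow_self n) (by omega)).pow _).pow _
  refine ⟨(Bgcd_M K (fun j => c j) b).det.natAbs, Int.natAbs_pos.2 (Bgcd_det_ne _ b ht ?_), ?_,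
    fun e he => ?_⟩
  · rw [hs]
    exact fun h => h0 (hu.mul_left_eq_zero.1 h)
  · have h1 := Bgcd_det_le (K := K) (fun j => (c j : ℤ)) b
      (fun j => by rcases c j with _ | _ | _ <;> simp) fun j => (hb j).1
    have h2 : K.factorial * (2 * k) ^ K ≤ C := by
      rw [hC]
      exact Nat.mul_le_mul (Nat.factorial_le hKR) ((Nat.pow_le_pow_left (Nat.le_succ _) _).trans
        (Nat.pow_le_pow_right (Nat.succ_pos _) hKR))
    have h3 := h1.trans (Nat.mul_le_mul_right _ (h2.trans C.lt_two_pow_self.le))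
    rw [← pow_add] at h3
    refine le_trans (b := (2 : ℝ) ^ (C + 2 * (n / R))) (by exact_mod_cast h3) ?_
    rw [← Real.rpow_natCast]
    refine Real.rpow_le_rpow_of_exponent_le one_le_two ?_
    have h4 : (Q : ℝ) ≤ n := by exact_mod_cast (by omega : Q ≤ n)
    have h5 : ((n / R : ℕ) : ℝ) * R ≤ n := by exact_mod_cast Nat.div_mul_le_self n R
    rw [div_le_iff₀ hε] at hQ hR
    have h6 : (0 : ℝ) ≤ (n / R : ℕ) := Nat.cast_nonneg _
    push_cast
    nlinarith [mul_le_mul_of_nonneg_left hR h6, mul_le_mul_of_nonneg_right h5 hε.le,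
      mul_le_mul_of_nonneg_right h4 hε.le]
  · have h := Bgcd_det_mul (fun j => (c j : ℤ)) b ht (e := e)
      (by rw [hs, mul_right_comm, he, zero_mul])
    rw [← Int.cast_natCast]
    rcases Int.natAbs_eq (Bgcd_M K (fun j => (c j : ℤ)) b).det with h' | h'
    · rwa [← h']
    · rw [← neg_eq_iff_eq_neg.2 h', Int.cast_neg, neg_mul, h, neg_zero]

theorem Lim.small {U : Ultrafilter ℕ} {n : ℕ → ℕ} {m r : ℕ} [NeZero m] (L : Lim U n m r)
    {A : GR m (Fin r → ℤ)} (hA : A ≠ 0) {e : ∀ i, ZMod (2 ^ n i - 1)}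
    (h : ∀ᶠ i in U, L.ev i A * e i = 0) : Small U n e := by
  intro ε hε
  obtain ⟨k, hk⟩ := L.wt_ev A
  obtain ⟨Q, hQ⟩ := small_ann k hε
  filter_upwards [h, L.big Q, L.ev_ne_zero hA, L.rough Q.factorial Q.factorial_pos] with i h1 h2 h3 h4
  obtain ⟨g, g1, g2, g3⟩ := hQ (n i) h2
    (fun c hc hc' => h4.coprime_dvd_left (Nat.dvd_factorial hc hc')) _ (hk i) h3
  exact ⟨g, g1, g2, g3 _ h1⟩

end Pool.Agent.GK
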