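import Pool.Agent.Lib.MP_a01f70_lc.GK.Lab

namespace Pool.Agent.GK
open Finset Polynomial

variable {U : Ultrafilter ℕ} {n : ℕ → ℕ} {m r : ℕ}

theorem Clim_lip {Λ : Type} (f : GR m Λ) : ∃ (S : Finset (ℤ × Λ)) (C : ℝ), 0 ≤ C ∧
    ∀ (φ : GR m Λ →+ Tc) (δ : ℝ), 0 ≤ δ → (∀ γ ∈ S, ‖φ (mon m γ)‖ ≤ δ) → ‖φ f‖ ≤ C * δ := by
  classical
  induction f using GR_induction with
  | h0 => exact ⟨∅, 0, le_rfl, fun φ δ _ _ => by simp⟩
  | hm γ => exact ⟨{γ}, 1, zero_le_one, fun φ δ _ h => by simpa using h⟩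
  | ha x y hx hy =>
    obtain ⟨S, C, hC, h⟩ := hx
    obtain ⟨S', C', hC', h'⟩ := hy
    refine ⟨S ∪ S', C + C', add_nonneg hC hC', fun φ δ hδ hφ => ?_⟩
    rw [map_add, add_mul]
    exact (norm_add_le _ _).trans (add_le_add (h φ δ hδ fun γ hγ => hφ γ (mem_union_left _ hγ))
      (h' φ δ hδ fun γ hγ => hφ γ (mem_union_right _ hγ)))
  | hn x hx =>
    obtain ⟨S, C, hC, h⟩ := hx
    exact ⟨S, C, hC, fun φ δ hδ hφ => by rw [map_neg, norm_neg]; exact h φ δ hδ hφ⟩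

theorem Clim_close {y : Tc} {a : ℕ → ℝ} {L : ℕ} (h0 : 0 ≤ a L) (h1 : a L ≤ 1)
    (h : ∀ j < L, 2 * a j - a (j + 1) = dig (2 ^ j • y)) : |a 0 - fr y| ≤ (1 / 2) ^ L := by
  have key : ∀ j ≤ L, a j - fr (2 ^ j • y) = 2 ^ j * (a 0 - fr y) := by
    intro j
    induction j with
    | zero => simp
    | succ j ih =>
      intro hj
      have e1 := ih (by omega)
      have e2 := h j (by omega)
      have e3 := two_fr (2 ^ j • y)
      rw [smul_smul, ← pow_succ'] at e3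
      rw [pow_succ (2 : ℝ)]
      linarith
  have e := key L le_rfl
  have e1 := fr_nonneg (2 ^ L • y)
  have e2 := fr_lt_one (2 ^ L • y)
  have hp : (0 : ℝ) < 2 ^ L := by positivity
  rw [one_div, inv_pow, ← one_div, le_div_iff₀ hp, ← abs_of_pos hp, ← abs_mul, mul_comm, ← e,
    abs_le]
  constructor <;> linarith

theorem Clim_word {n : ℕ} (hn : n ≠ 0) (b : ZMod n → Tc) :
    ∃ (v : ZMod (2 ^ n - 1)) (a : ℕ → ℝ), (∀ s, 0 ≤ a s ∧ a s ≤ 1) ∧
      (∀ s : ℕ, 2 * a s - a (s + 1) = dig (b s)) ∧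
      ∀ s : ℕ, ((a s : ℝ) : Tc) = cc (2 ^ n - 1) (2 ^ s * v) := by
  obtain ⟨β, hβ, hβ'⟩ : ∃ β : ZMod n → ℕ, (∀ s, β s ≤ 1) ∧ ∀ s, (β s : ℝ) = dig (b s) :=
    ⟨fun s => if 1 / 2 ≤ fr (b s) then 1 else 0, fun s => by beta_reduce; split_ifs <;> simp,
      fun s => by rw [dig, Nat.cast_ite, Nat.cast_one, Nat.cast_zero]⟩
  obtain ⟨k, hk⟩ : ∃ k : ℕ → ℕ, ∀ s, k s = ∑ j ∈ range n, β (s + j : ℕ) * 2 ^ (n - 1 - j) :=
    ⟨_, fun _ => rfl⟩
  have hN : 1 ≤ 2 ^ n := Nat.one_le_two_pow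
  have hN' : 2 ≤ 2 ^ n := by simpa using Nat.pow_le_pow_right two_pos (Nat.pos_of_ne_zero hn)
  have hrec : ∀ s, 2 * k s = k (s + 1) + β s * (2 ^ n - 1) := by
    intro s
    have e1 := sum_range_succ (fun j => β (s + j : ℕ) * 2 ^ (n - j)) n
    have e2 := sum_range_succ' (fun j => β (s + j : ℕ) * 2 ^ (n - j)) n
    have e3 : ∑ j ∈ range n, β (s + j : ℕ) * 2 ^ (n - j) = 2 * k s := by
      rw [hk, mul_sum]
      refine sum_congr rfl fun j hj => ?_
      rw [show n - j = n - 1 - j + 1 by have := mem_range.1 hj; omega, pow_succ]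
      ring
    have e4 : ∑ j ∈ range n, β (s + (j + 1) : ℕ) * 2 ^ (n - (j + 1)) = k (s + 1) := by
      rw [hk]
      refine sum_congr rfl fun j _ => ?_
      rw [show n - (j + 1) = n - 1 - j by omega, show s + (j + 1) = s + 1 + j by omega]
    rw [e3, e2, e4] at e1
    simp only [add_zero, Nat.sub_zero, Nat.sub_self, pow_zero, mul_one, Nat.cast_add,
      ZMod.natCast_self] at e1
    rw [Nat.mul_sub, mul_one]
    have := Nat.le_mul_of_pos_right (β s) hN
    omega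
  have hle : ∀ s, k s ≤ 2 ^ n - 1 := by
    intro s
    have e1 : ∑ j ∈ range n, 2 ^ (n - 1 - j) = 2 ^ n - 1 := by
      rw [sum_range_reflect (fun j => 2 ^ j) n, Nat.geomSum_eq le_rfl]
      simp
    rw [hk, ← e1]
    exact sum_le_sum fun j _ => (Nat.mul_le_mul_right _ (hβ _)).trans_eq (one_mul _)
  have hpos : (0 : ℝ) < (2 ^ n - 1 : ℕ) := Nat.cast_pos.2 (by omega)
  refine ⟨k 0, fun s => k s / (2 ^ n - 1 : ℕ), fun s => ⟨by positivity, ?_⟩, fun s => ?_,
    fun s => ?_⟩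
  · rw [div_le_one hpos]
    exact_mod_cast hle s
  · have e : (2 : ℝ) * k s = k (s + 1) + β s * (2 ^ n - 1 : ℕ) := by exact_mod_cast hrec s
    rw [← hβ', ← mul_div_assoc, ← sub_div, div_eq_iff hpos.ne']
    linarith
  · rw [← cc_natCast]
    congr 1
    induction s with
    | zero => simp
    | succ s ih =>
      have e := congrArg (Nat.cast : ℕ → ZMod (2 ^ n - 1)) (hrec s)
      rw [Nat.cast_add, Nat.cast_mul, Nat.cast_mul, ZMod.natCast_self, mul_zero, add_zero] at e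
      rw [← e, ih, pow_succ]
      push_cast
      ring

/-- block C: the criterion passes to the limit -/
theorem Lim.dd [NeZero m] (L : Lim U n m r) {d : ℕ → ℕ} (hd : ∀ i, Dv (n i) (d i))
    {A B : GR m (Fin r → ℤ)} (h : ∀ᶠ i in U, L.ev i A * d i = L.ev i B) : DD A B := by
  classical
  intro G _ _ π Z hZ
  obtain ⟨SA, CA, hCA, hA⟩ := Clim_lip A
  obtain ⟨SB, CB, hCB, hB⟩ := Clim_lip B
  have hm : ∀ g γ, Z g (mon m γ) = Z (g + π γ) 1 := fun g γ => by rw [← hZ, mul_one]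
  have h2 : ∀ (j : ℕ) g, Z (g + π (j • ((m : ℤ), 0))) 1 = 2 ^ j • Z g 1 := fun j g => by
    rw [← hm, ← mon_pow, mon_sig, ← map_nsmul]
    simp
  obtain ⟨c, hc, hcA, hcB⟩ : ∃ c : ℝ, 0 < c ∧ (∀ g, c ≤ rp (Z g A)) ∧ ∀ g, c ≤ rp (-Z g B) := by
    obtain ⟨g₁, -, h₁⟩ := exists_min_image univ (fun g => rp (Z g A)) ⟨0, mem_univ _⟩
    obtain ⟨g₂, -, h₂⟩ := exists_min_image univ (fun g => rp (-Z g B)) ⟨0, mem_univ _⟩
    exact ⟨min _ _, lt_min (rp_pos _) (rp_pos _), fun g => (min_le_left _ _).trans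
      (h₁ g (mem_univ _)), fun g => (min_le_right _ _).trans (h₂ g (mem_univ _))⟩
  have hG : (0 : ℝ) < Fintype.card G := Nat.cast_pos.2 Fintype.card_pos
  refine le_of_forall_pos_le_add fun ε hε => ?_
  obtain ⟨η, hη, hηc, hηε⟩ : ∃ η : ℝ, 0 < η ∧ η < c ∧ 4 * η * Fintype.card G ≤ ε := by
    refine ⟨min (c / 2) (ε / (4 * Fintype.card G)), by positivity,
      (min_le_left _ _).trans_lt (by linarith), ?_⟩
    have := (le_div_iff₀ (by positivity)).1 (min_le_right (c / 2) (ε / (4 * Fintype.card G)))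
    linarith
  obtain ⟨K, hK⟩ := exists_pow_lt_of_lt_one (x := η / (CA + CB + 1)) (y := (1 / 2 : ℝ))
    (by positivity) (by norm_num)
  rw [lt_div_iff₀ (by positivity)] at hK
  have hδ : (0 : ℝ) < (1 / 2) ^ K := by positivity
  obtain ⟨i, hi, lab, bad, hbad, hlab⟩ := (h.and (L.label G π
    (((SA ∪ SB) ×ˢ range K).image fun p => p.1 + p.2 • ((m : ℤ), 0)) hη)).exists
  have hn : n i ≠ 0 := by have := L.two i; omega
  have hn' : (0 : ℝ) < n i := Nat.cast_pos.2 (Nat.pos_of_ne_zero hn)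
  have : NeZero (n i) := ⟨hn⟩
  have main : ∀ g₀ : G, (n i : ℝ) / 2 ≤ ∑ s ∈ range (n i),
      (rp (Z (g₀ + lab s) A) + rp (-Z (g₀ + lab s) B)) + 4 * η * n i := by
    intro g₀
    obtain ⟨v, a, ha, ha1, ha2⟩ := Clim_word hn fun s => Z (g₀ + lab s) 1
    have good : ∀ s < n i, s ∉ bad → ∀ γ ∈ SA ∪ SB,
        ‖cc (2 ^ n i - 1) (2 ^ s * (L.ev i (mon m γ) * v)) - Z (g₀ + lab s) (mon m γ)‖
          ≤ (1 / 2) ^ K := by
      intro s hs hb γ hγ
      have e := Clim_close (y := Z (g₀ + lab s) (mon m γ)) (L := K)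
        (a := fun j => a (s + (L.Φ i γ).val + j)) (ha _).1 (ha _).2 fun j hj => by
          have e1 := hlab s hs hb _ (mem_image.2 ⟨(γ, j), mem_product.2 ⟨hγ, mem_range.2 hj⟩, rfl⟩)
          rw [map_add, map_nsmul, L.sig, map_add, nsmul_eq_mul, mul_one] at e1
          rw [← add_assoc, ha1, hm, ← h2]
          simp only [Nat.cast_add, ZMod.natCast_zmod_val, add_assoc, e1]
      rw [L.ev_mon, ← mul_assoc, ← pow_add, ← ha2, ← coe_fr (Z (g₀ + lab s) (mon m γ)),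
        ← AddCircle.coe_sub]
      exact (norm_coe_le _).trans e
    have near : ∀ s < n i, s ∉ bad →
        ‖cc (2 ^ n i - 1) (2 ^ s * (L.ev i A * v)) - Z (g₀ + lab s) A‖ ≤ η ∧
        ‖cc (2 ^ n i - 1) (2 ^ s * (L.ev i B * v)) - Z (g₀ + lab s) B‖ ≤ η := by
      intro s hs hb
      let φ : GR m (Fin r → ℤ) →+ Tc := (cc (2 ^ n i - 1)).comp ((AddMonoidHom.mulLeft (2 ^ s)).comp
        ((AddMonoidHom.mulRight v).comp (L.ev i).toAddMonoidHom)) - Z (g₀ + lab s)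
      have e1 := hA φ _ hδ.le fun γ hγ => good s hs hb γ (mem_union_left _ hγ)
      have e2 := hB φ _ hδ.le fun γ hγ => good s hs hb γ (mem_union_right _ hγ)
      exact ⟨le_trans e1 (by nlinarith), le_trans e2 (by nlinarith)⟩
    have e := hd i (L.ev i A * v)
    rw [← mul_assoc, mul_comm (d i : ZMod (2 ^ n i - 1)), hi, W, W, ← sum_add_distrib] at e
    refine e.trans ?_
    have e3 : ∑ s ∈ range (n i), (if s ∈ bad then (2 : ℝ) else 0) ≤ 2 * (η * n i) := by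
      rw [sum_ite_mem, sum_const, nsmul_eq_mul]
      have : ((range (n i) ∩ bad).card : ℝ) ≤ bad.card :=
        Nat.cast_le.2 (card_le_card inter_subset_right)
      linarith
    have e4 : ∑ s ∈ range (n i), (2 * η) = 2 * η * n i := by
      rw [sum_const, card_range, nsmul_eq_mul, mul_comm]
    refine le_trans (sum_le_sum (g := fun s : ℕ => (rp (Z (g₀ + lab s) A) +
      rp (-Z (g₀ + lab s) B)) + (2 * η + if s ∈ bad then 2 else 0)) fun s hs => ?_) ?_
    · split_ifs with hb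
      · linarith [rp_le_one (cc (2 ^ n i - 1) (2 ^ s * (L.ev i A * v))),
          rp_le_one (cc (2 ^ n i - 1) (2 ^ s * -(L.ev i B * v))), hcA (g₀ + lab s),
          hcB (g₀ + lab s)]
      · obtain ⟨e1, e2⟩ := near s (mem_range.1 hs) hb
        rw [← norm_neg] at e2
        have f1 := rp_add_small (e1.trans_lt (hηc.trans_le (hcA (g₀ + lab s))))
        have f2 := rp_add_small (e2.trans_lt (hηc.trans_le (hcB (g₀ + lab s))))
        rw [add_sub_cancel] at f1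
        rw [← neg_add, add_sub_cancel] at f2
        rw [mul_neg, map_neg]
        linarith
    · rw [sum_add_distrib, sum_add_distrib (f := fun _ => 2 * η), e4]
      linarith
  have tot := sum_le_sum fun g (_ : g ∈ (univ : Finset G)) => main g
  have sh : ∀ x : G, ∑ g, (rp (Z (g + x) A) + rp (-Z (g + x) B)) =
      ∑ g, (rp (Z g A) + rp (-Z g B)) := fun x =>
    Equiv.sum_comp (Equiv.addRight x) fun g => rp (Z g A) + rp (-Z g B)
  rw [sum_add_distrib, sum_comm, sum_const, sum_const, card_univ, nsmul_eq_mul, nsmul_eq_mul,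
    sum_congr rfl fun s _ => sh _, sum_const, card_range, nsmul_eq_mul] at tot
  refine le_of_mul_le_mul_left ?_ hn'
  nlinarith

end Pool.Agent.GK
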