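import Pool.Agent.Lib.MP_a01f70_lc.GK.GRb
import Pool.Agent.Lib.MP_a01f70_lc.GK.Bas

/-! The weight `wtD`. -/

namespace Pool.Agent.GK
open Finset Filter

variable {m : ℕ} [NeZero m]

theorem tor_torsion (D : ℕ) (r : O m) : (2 ^ D - 1) • tor m D r = 0 := by
  rw [tor, AddMonoidHom.comp_apply, ← map_nsmul, nsmul_eq_mul, ZMod.natCast_self, zero_mul, map_zero]

theorem wtD_zero (D : ℕ) : wtD m D 0 = 0 := by
  simp only [wtD, mul_zero, map_zero, dig_zero, sum_const_zero]

theorem wtD_nonneg (D : ℕ) (r : O m) : 0 ≤ wtD m D r := by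
  exact sum_nonneg fun _ _ => dig_nonneg _

theorem coa_per (g : ℤ → ℝ) (P : ℕ) (h : ∀ e, g (e + P) = g e) (j : ℤ) :
    ∑ e ∈ range P, g (e + j) = ∑ e ∈ range P, g e := by
  have h1 : ∀ j : ℤ, ∑ e ∈ range P, g (e + (j + 1)) = ∑ e ∈ range P, g (e + j) := fun j => by
    have h2 := (sum_range_succ (fun e : ℕ => g (e + j)) P).symm.trans
      (sum_range_succ' (fun e : ℕ => g (e + j)) P)
    simp only [Nat.cast_succ, Nat.cast_zero, zero_add, add_comm (P : ℤ), h, add_left_inj,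
      add_assoc, add_comm 1 j] at h2
    exact h2.symm
  induction j using Int.induction_on with
  | zero => simp only [add_zero]
  | succ j ih => rw [h1, ih]
  | pred j ih => rw [← h1, sub_add_cancel, ih]

theorem coa_shift (D : ℕ) (j : ℤ) (r : O m) :
    ∑ e ∈ range (m * D), dig (tor m D (tz m (e + j) * r)) = wtD m D r := by
  refine coa_per (fun e => dig (tor m D (tz m e * r))) (m * D) (fun e => ?_) j
  have h : tz m (e + (m * D : ℕ)) * r = 2 ^ D • (tz m e * r) := by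
    rw [tz_add, Nat.cast_mul, tz_mul_m, nsmul_eq_mul]
    push_cast
    ring
  simp only [h, tor, AddMonoidHom.comp_apply]
  rw [map_nsmul (torZ m D), nsmul_eq_mul, Nat.cast_pow, Nat.cast_ofNat, two_pow_self, one_mul]

/-- `tz m (m * D) = 2 ^ D` acts trivially under `tor m D`, so the summand has period `m * D` -/
theorem wtD_tz_mul {D : ℕ} (hD : 0 < D) (j : ℤ) (r : O m) :
    wtD m D (tz m j * r) = wtD m D r := by
  have _ := hD
  rw [← coa_shift D j r]
  simp only [wtD, tz_add, mul_assoc]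

theorem coa_tor {D : ℕ} (hD : 0 < D) (c : Fin m → ℤ) (s : ℕ) (i : Fin m) :
    torZ m D (tz m (m * s - (i : ℕ)) * ∑ k, (c k : O m) * tz m (k : ℕ)) = 2 ^ s * c i := by
  have hm : (m : ℤ) ≠ 0 := Nat.cast_ne_zero.2 (NeZero.ne m)
  have h : ∀ k : Fin m, torZ m D (tz m (m * s - (i : ℕ)) * ((c k : O m) * tz m (k : ℕ))) =
      c k • torZ m D (tz m (m * s + ((k : ℕ) - (i : ℕ)))) := fun k => by
    rw [← map_zsmul, zsmul_eq_mul, mul_left_comm, ← tz_add, sub_add_eq_add_sub, add_sub_assoc]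
  rw [mul_sum, map_sum, sum_eq_single_of_mem i (mem_univ _) fun k _ hk => ?_]
  · rw [h, sub_self, add_zero, torZ_tz hD, if_pos (dvd_mul_right _ _),
      Int.mul_ediv_cancel_left _ hm, Int.cast_natCast, two_pow_val_natCast, zsmul_eq_mul, mul_comm]
  · rw [h, torZ_tz hD, if_neg fun hd => hk (Fin.ext ?_), smul_zero]
    have h1 := Int.eq_zero_of_abs_lt_dvd ((dvd_add_right (dvd_mul_right _ _)).1 hd)
      (abs_lt.2 ⟨by omega, by omega⟩)
    omega

theorem coa_range (f : ℕ → ℝ) (a D : ℕ) :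
    ∑ e ∈ range (a * D), f e = ∑ s ∈ range D, ∑ u ∈ range a, f (a * s + u) := by
  induction D with
  | zero => simp
  | succ D ih => rw [mul_add_one, sum_range_add, ih, sum_range_succ]

theorem coa_coord {D : ℕ} (hD : 0 < D) (c : Fin m → ℤ) :
    wtD m D (∑ i, (c i : O m) * tz m (i : ℕ)) =
      ∑ i, ∑ s ∈ range D, dig (cc (2 ^ D - 1) (2 ^ s * (c i : ZMod (2 ^ D - 1)))) := by
  rw [← coa_shift D (1 - m), coa_range, sum_comm (s := univ)]
  refine sum_congr rfl fun s _ => ?_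
  simp only [← coa_tor hD c s]
  rw [Fin.sum_univ_eq_sum_range (fun u => dig (cc (2 ^ D - 1) (torZ m D (tz m (m * s - (u : ℕ)) *
    ∑ k, (c k : O m) * tz m (k : ℕ))))) m, ← sum_range_reflect]
  refine sum_congr rfl fun u hu => ?_
  have h1 := mem_range.1 hu
  rw [show ((m * s + (m - 1 - u) : ℕ) : ℤ) + (1 - m) = m * s - u by
    rw [Nat.cast_add, Nat.cast_mul]; omega]
  rfl

/-- reduce to `j = 0`; only `e = m * s` contributes, `dig (cc (2 ^ s)) = 1` only for `s = D - 1` -/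
theorem wtD_tz {D : ℕ} (hD : 2 ≤ D) (j : ℤ) : wtD m D (tz m j) = 1 := by
  have hD0 : 0 < D := by omega
  have h1 := coa_coord (m := m) hD0 (Pi.single 0 1)
  have h2 : Fact (1 < 2 ^ D - 1) := ⟨by have := Nat.pow_le_pow_right two_pos hD; omega⟩
  rw [sum_eq_single_of_mem 0 (mem_univ _) fun k _ hk => by simp [Pi.single_eq_of_ne hk],
    sum_eq_single_of_mem 0 (mem_univ _) fun k _ hk => by simp [Pi.single_eq_of_ne hk, dig_zero],
    Pi.single_eq_same, Int.cast_one, Int.cast_one, ← W_of_ne one_ne_zero, one_mul] at h1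
  have h3 := W_two_pow hD0.ne' 0
  rw [pow_zero] at h3
  rw [← mul_one (tz m j), wtD_tz_mul hD0, ← h3, ← h1, Fin.val_zero, Nat.cast_zero, tz_zero]

/-- `torZ m D (tz m (m * s + u) * ∑ c i * tz m i) = 2 ^ s * c 0` for `u = 0` and `2 ^ (s + 1) * c (m - u)` for
`0 < u < m`; the summand has period `D` in `s` -/
theorem wtD_coord {D : ℕ} (hD : 0 < D) (c : Fin m → ℤ) :
    wtD m D (∑ i, (c i : O m) * tz m (i : ℕ)) =
      ∑ i, ∑ s ∈ range D, dig (cc (2 ^ D - 1) (2 ^ s * (c i : ZMod (2 ^ D - 1)))) := by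
  exact coa_coord hD c

theorem coa_split {S : Finset ℕ} {p : ℕ} (hp : p ∈ S) :
    ∃ h l, ∑ q ∈ S, 2 ^ q = 2 ^ (p + 1) * h + 2 ^ p + l ∧ l < 2 ^ p := by
  obtain ⟨h, hh⟩ : 2 ^ (p + 1) ∣ ∑ q ∈ (S.erase p).filter (fun q => ¬ q < p), 2 ^ q :=
    dvd_sum fun q hq => pow_dvd_pow 2 (by
      have h1 := mem_filter.1 hq
      have h2 := (mem_erase.1 h1.1).1
      omega)
  refine ⟨h, ∑ q ∈ (S.erase p).filter (fun q => q < p), 2 ^ q, ?_,
    Nat.geomSum_lt le_rfl fun q hq => (mem_filter.1 hq).2⟩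
  rw [← add_sum_erase S _ hp, ← sum_filter_add_sum_filter_not (S.erase p) (fun q => q < p), hh]
  ring

theorem coa_dig {c p h l s : ℕ} (e : c = 2 ^ (p + 1) * h + 2 ^ p + l) (hl : l < 2 ^ p)
    (hs : c < s) : dig (cc (2 ^ (s + p + 1) - 1) (2 ^ s * (c : ZMod (2 ^ (s + p + 1) - 1)))) = 1 := by
  have h1 : h + 1 < 2 ^ s := by
    have h2 := Nat.le_mul_of_pos_left h (Nat.two_pow_pos (p + 1))
    have h3 := @Nat.lt_two_pow_self s
    omega
  have h2 := Nat.mul_le_mul_left (2 ^ s) hl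
  have h3 : 2 ^ (s + p + 1) = 2 ^ s * 2 ^ p * 2 := by rw [pow_succ, pow_add]
  have h4 : h + 2 ^ s * 2 ^ p + 2 ^ s * l < 2 ^ (s + p + 1) - 1 := by
    rw [Nat.mul_succ] at h2
    omega
  have h5 : 2 ^ s * (c : ZMod (2 ^ (s + p + 1) - 1)) = (h + 2 ^ s * 2 ^ p + 2 ^ s * l : ℕ) := by
    rw [e]
    push_cast
    linear_combination (h : ZMod (2 ^ (s + p + 1) - 1)) * two_pow_self (s + p + 1)
  rw [h5, dig, if_pos]
  rw [fr_cc (by omega), ZMod.val_cast_of_lt h4,
    div_le_div_iff₀ two_pos (Nat.cast_pos.2 (by omega)), one_mul]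
  exact_mod_cast (by omega : 2 ^ (s + p + 1) - 1 ≤ (h + 2 ^ s * 2 ^ p + 2 ^ s * l) * 2)

/-- An integer with few digits modulo `2 ^ D - 1` for all large `D`. If `c < 0` then the digit is `1` whenever
`2 ^ (s + 1) * |c| ≤ 2 ^ D - 1`. If `c ≥ 0` take the set of binary digits `S` (`Nat.bitIndices` or
`Finset.equivBitIndices`); for `p ∈ S` and `D` large the residue `2 ^ (D - 1 - p) * c` is the rotation
`∑ q ∈ S, 2 ^ ((q + D - 1 - p) % D)`, which lies in `[2 ^ (D - 1), 2 ^ D - 1)`, so the digit is `1`. -/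
theorem int_digits (c : ℤ) :
    (∀ B : ℝ, ∀ᶠ D : ℕ in atTop,
      B < ∑ s ∈ range D, dig (cc (2 ^ D - 1) (2 ^ s * (c : ZMod (2 ^ D - 1))))) ∨
    ∃ S : Finset ℕ, c = ∑ p ∈ S, 2 ^ p ∧ ∀ᶠ D : ℕ in atTop,
      (S.card : ℝ) ≤ ∑ s ∈ range D, dig (cc (2 ^ D - 1) (2 ^ s * (c : ZMod (2 ^ D - 1)))) := by
  rcases lt_or_ge c 0 with hc | hc
  · refine Or.inl fun B => ?_
    obtain ⟨a, rfl⟩ := Int.eq_negSucc_of_lt_zero hc
    filter_upwards [eventually_ne_atTop 0,
      tendsto_natCast_atTop_atTop.eventually_gt_atTop (B + (a + 1 : ℕ))] with D h0 hD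
    have h1 := W_neg D (Int.negSucc a : ℤ)
    have h2 := W_multiset h0 (P := Multiset.replicate (a + 1) 0) (by simp)
    rw [Multiset.map_replicate, Multiset.sum_replicate, Multiset.card_replicate, pow_zero,
      nsmul_one] at h2
    rw [Int.cast_negSucc, neg_neg] at h1
    rw [Int.cast_negSucc]
    linarith
  · lift c to ℕ using hc
    have hS := sum_toFinset_bitIndices_two_pow c
    generalize c.bitIndices.toFinset = S at hS
    refine Or.inr ⟨S, by exact_mod_cast hS.symm, (eventually_ge_atTop (2 * c + 2)).mono fun D hD => ?_⟩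
    have h1 : ∀ p ∈ S, p < c := fun p hp => Nat.lt_two_pow_self.trans_le
      (hS ▸ single_le_sum (f := fun q => 2 ^ q) (fun _ _ => Nat.zero_le _) hp)
    refine le_trans (le_of_eq ?_) (sum_le_sum_of_subset_of_nonneg
      (s := S.image fun p => D - 1 - p) (fun s hs => ?_) fun _ _ _ => dig_nonneg _)
    · rw [sum_image fun p hp q hq hpq => ?_, card_eq_sum_ones, Nat.cast_sum]
      · refine sum_congr rfl fun p hp => ?_
        obtain ⟨h, l, e, hl⟩ := coa_split hp
        have h2 := h1 p hp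
        obtain ⟨s, rfl⟩ : ∃ s, D = s + p + 1 := ⟨D - 1 - p, by omega⟩
        rw [show s + p + 1 - 1 - p = s by omega, Int.cast_natCast,
          coa_dig (hS.symm.trans e) hl (by omega), Nat.cast_one]
      · have h2 := h1 p hp
        have h3 := h1 q hq
        beta_reduce at hpq
        omega
    · obtain ⟨p, -, rfl⟩ := mem_image.1 hs
      exact mem_range.2 (by omega)

/-- an element of bounded weight is a short sum of monomials (`exists_coord`, `wtD_tz_mul`, `wtD_coord`,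
`int_digits`; the exponents `i + m * p - m * k` are distinct) -/
theorem sum_of_wtD {r : O m} {B : ℕ} (h : ∀ D, 2 ≤ D → wtD m D r ≤ B) :
    ∃ S : Finset ℤ, S.card ≤ B ∧ r = ∑ e ∈ S, tz m e := by
  obtain ⟨k, c, rfl⟩ := exists_coord r
  have h1 : ∀ᶠ D : ℕ in atTop,
      ∑ i, ∑ s ∈ range D, dig (cc (2 ^ D - 1) (2 ^ s * (c i : ZMod (2 ^ D - 1)))) ≤ B :=
    (eventually_ge_atTop 2).mono fun D hD => by
      rw [← wtD_coord (by omega), ← wtD_tz_mul (by omega) (-(m * k)), mul_sum]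
      refine le_of_eq_of_le (congrArg _ (sum_congr rfl fun i _ => ?_)) (h D hD)
      rw [mul_left_comm, ← tz_add, neg_add_eq_sub]
  choose S hS hS' using fun i => (int_digits (c i)).resolve_left fun h2 => by
    obtain ⟨D, h3, h4⟩ := ((h2 B).and h1).exists
    exact h3.not_ge ((single_le_sum (f := fun i => ∑ s ∈ range D,
      dig (cc (2 ^ D - 1) (2 ^ s * (c i : ZMod (2 ^ D - 1)))))
      (fun _ _ => sum_nonneg fun _ _ => dig_nonneg _) (mem_univ i)).trans h4)
  obtain ⟨D, h3, h4⟩ := ((eventually_all.2 hS').and h1).exists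
  refine ⟨(univ.sigma S).image fun x => m * x.2 + (((x.1 : ℕ) : ℤ) - m * k), card_image_le.trans ?_, ?_⟩
  · rw [card_sigma, ← Nat.cast_le (α := ℝ), Nat.cast_sum]
    exact (sum_le_sum fun i _ => h3 i).trans h4
  · rw [sum_image, sum_sigma]
    · refine sum_congr rfl fun i _ => ?_
      rw [hS, Int.cast_sum, sum_mul]
      refine sum_congr rfl fun p _ => ?_
      rw [tz_add, tz_mul_m, Int.cast_pow, Int.cast_ofNat]
    · rintro ⟨i, p⟩ - ⟨j, q⟩ - e
      have e1 : m * p + i = m * q + j := by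
        beta_reduce at e
        zify
        linarith
      have e2 := congrArg (· % m) e1
      simp only [Nat.mul_add_mod, Nat.mod_eq_of_lt i.isLt, Nat.mod_eq_of_lt j.isLt] at e2
      obtain rfl : i = j := Fin.ext e2
      rw [Nat.eq_of_mul_eq_mul_left (NeZero.pos m) (add_right_cancel e1)]

end Pool.Agent.GK
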