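import Pool.Agent.Lib.MP_a01f70_lc.GK.GS

/-! The sign model for power series. -/

namespace Pool.Agent.GK
open Finset Polynomial Filter

/-- a power series as a sequence on `ℤ` -/
noncomputable def psq (P : PowerSeries ℝ) (k : ℤ) : ℝ :=
  if 0 ≤ k then PowerSeries.coeff k.toNat P else 0

theorem psq_nat (P : PowerSeries ℝ) (k : ℕ) : psq P k = PowerSeries.coeff k P := by
  rw [psq, if_pos (Int.natCast_nonneg k), Int.toNat_natCast]

theorem d2a_add (P Q : PowerSeries ℝ) : psq (P + Q) = psq P + psq Q := by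
  funext k
  rw [Pi.add_apply, psq, psq, psq]
  split_ifs
  · rw [map_add]
  · rw [add_zero]

theorem d2a_mul (D : PowerSeries ℝ) (P : ℕ → ℝ) (l : ℕ) :
    PowerSeries.coeff l (D * PowerSeries.mk P) =
      ∑ j ∈ range (l + 1), PowerSeries.coeff j D * P (l - j) := by
  rw [PowerSeries.coeff_mul, Finset.Nat.sum_antidiagonal_eq_sum_range_succ_mk]
  simp only [PowerSeries.coeff_mk]

/-- induction on `a` (`act_add`, `act_monomial`, `PowerSeries.coeff_X_pow_mul'`) -/
theorem act_psq (a : ℝ[X]) (P : PowerSeries ℝ) :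
    act a (psq P) = psq ((a : PowerSeries ℝ) * P) := by
  induction a using Polynomial.induction_on' with
  | add a b ha hb => rw [act_add, ha, hb, Polynomial.coe_add, add_mul, d2a_add]
  | monomial j c =>
    funext k
    rw [act_monomial, ← C_mul_X_pow_eq_monomial, Polynomial.coe_mul, Polynomial.coe_pow,
      Polynomial.coe_C, Polynomial.coe_X, mul_assoc, psq, psq]
    by_cases hk : 0 ≤ k
    · rw [if_pos hk, PowerSeries.coeff_C_mul, PowerSeries.coeff_X_pow_mul']
      by_cases hj : j ≤ k.toNat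
      · rw [if_pos hj, if_pos (by omega), show (k - j).toNat = k.toNat - j by omega]
      · rw [if_neg hj, if_neg (by omega)]
    · rw [if_neg hk, if_neg (by omega), mul_zero]

/-- the term with the largest exponent decides the sign (divide by `M ^ w j`) -/
theorem ev_pos {ι : Type} (s : Finset ι) (c : ι → ℝ) (w : ι → ℕ) {j : ι} (hj : j ∈ s)
    (hc : 0 < c j) (h : ∀ i ∈ s, i ≠ j → c i = 0 ∨ w i < w j) :
    ∀ᶠ M : ℝ in atTop, 0 < ∑ i ∈ s, c i * M ^ w i := by
  classical
  have h1 : Tendsto (fun M : ℝ => ∑ i ∈ s.erase j, c i * (M ^ w i / M ^ w j)) atTop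
      (nhds (∑ i ∈ s.erase j, 0)) := by
    refine tendsto_finsetSum _ fun i hi => ?_
    rcases h i (mem_of_mem_erase hi) (ne_of_mem_erase hi) with h0 | h0
    · simp [h0]
    · simpa using (tendsto_pow_div_pow_atTop_zero (𝕜 := ℝ) h0).const_mul (c i)
  rw [sum_const_zero] at h1
  filter_upwards [h1.eventually (lt_mem_nhds (neg_lt_zero.2 hc)), eventually_gt_atTop 0]
    with M h2 h3
  have h4 : 0 < M ^ w j := pow_pos h3 _
  have h5 : ∑ i ∈ s.erase j, c i * M ^ w i =
      (∑ i ∈ s.erase j, c i * (M ^ w i / M ^ w j)) * M ^ w j := by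
    rw [sum_mul]
    exact sum_congr rfl fun i _ => by rw [mul_assoc, div_mul_cancel₀ _ h4.ne']
  rw [← add_sum_erase s _ hj, h5, ← add_mul]
  exact mul_pos (by linarith) h4

/-- `x = psq (mk P)`, `y = psq (D * mk P)` -/
theorem SM.fwd {a b : ℝ[X]} (h : SM a b) {D : PowerSeries ℝ}
    (hD : (a : PowerSeries ℝ) * D = b) : ∃ C : ℝ, ∀ (P : ℕ → ℝ) (T : ℕ),
      (#{l ∈ range T | ∑ j ∈ range (l + 1), PowerSeries.coeff j D * P (l - j) < 0} : ℝ)
        - #{l ∈ range T | P l < 0} ≤ T / 2 + C := by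
  obtain ⟨C, hC⟩ := h
  refine ⟨C, fun P T => ?_⟩
  have h1 := hC (psq (PowerSeries.mk P)) (psq (D * PowerSeries.mk P))
    (by rw [act_psq, act_psq, ← mul_assoc, hD]) T
  simpa only [psq_nat, d2a_mul, PowerSeries.coeff_mk] using h1

/-- `y = psq (mk P)`, `x = psq (E * mk P) + r` -/
theorem SM.bwd {a b : ℝ[X]} (h : SM a b) {E : PowerSeries ℝ}
    (hE : (b : PowerSeries ℝ) * E = a) : ∃ C : ℝ, ∀ (P : ℕ → ℝ) (r : ℤ → ℝ), act b r = 0 →
      ∀ T : ℕ, (#{l ∈ range T | P l < 0} : ℝ)
        - #{l ∈ range T | ∑ j ∈ range (l + 1), PowerSeries.coeff j E * P (l - j) + r (l : ℕ) < 0}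
          ≤ T / 2 + C := by
  obtain ⟨C, hC⟩ := h
  refine ⟨C, fun P r hr T => ?_⟩
  have h1 := hC (psq (E * PowerSeries.mk P) + r) (psq (PowerSeries.mk P))
    (by rw [act_add_right, hr, add_zero, act_psq, act_psq, ← mul_assoc, hE]) T
  simpa only [Pi.add_apply, psq_nat, d2a_mul, PowerSeries.coeff_mk] using h1

/-- a sequence with `r (l + k) = -c * r l` is negative on at most half of its support
(pair `l` with `l + k` inside each block of length `2 * k`; induction on `N`) -/
theorem card_neg {r : ℤ → ℝ} {c : ℝ} {k : ℕ} (hc : 0 < c) (h : ∀ l, r (l + k) = -c * r l) (N : ℕ) :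
    #{l ∈ range (2 * k * N) | r (l : ℕ) < 0} = N * #{l ∈ range k | r (l : ℕ) ≠ 0} := by
  have h1 : ∀ l : ℕ, r ((k + l : ℕ) : ℤ) < 0 ↔ 0 < r l := fun l => by
    rw [Nat.cast_add, add_comm, h, neg_mul, neg_lt_zero, mul_pos_iff_of_pos_left hc]
  have h2 : ∀ l : ℕ, r ((2 * k + l : ℕ) : ℤ) < 0 ↔ r l < 0 := fun l => by
    rw [two_mul, add_assoc, h1, Nat.cast_add, add_comm, h, neg_mul, neg_pos, ← neg_pos, ← mul_neg,
      mul_pos_iff_of_pos_left hc, neg_pos]
  have h3 : ∑ l ∈ range (2 * k), (if r (l : ℕ) < 0 then 1 else 0) =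
      #{l ∈ range k | r (l : ℕ) ≠ 0} := by
    rw [two_mul, sum_range_add, ← sum_add_distrib, card_filter]
    refine sum_congr rfl fun l _ => ?_
    simp only [h1]
    rcases lt_trichotomy (r l) 0 with e | e | e
    · rw [if_pos e, if_neg e.not_gt, if_pos e.ne]
    · simp [e]
    · rw [if_neg e.not_gt, if_pos e, if_pos e.ne']
  induction N with
  | zero => simp
  | succ N ih =>
    rw [card_filter] at ih
    rw [card_filter, mul_add_one, add_comm, sum_range_add, h3, add_one_mul, add_comm, ← ih]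
    simp only [h2]

end Pool.Agent.GK
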