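import Pool.Agent.Lib.MP_a01f70_lc.GK.CoA
import Pool.Agent.Lib.MP_a01f70_lc.GK.D2a

/-! Periodic characters on a ground state. -/

namespace Pool.Agent.GK
open Finset Polynomial

variable {m : ℕ} [NeZero m]

/-- the character attached to a sequence -/
noncomputable def sqc (D : ℕ) (x : ℤ → O m) : GR m ℤ →+ Tc :=
  lines fun l => (tor m D).comp (AddMonoidHom.mulRight (x (-l)))

theorem cob_single (D : ℕ) (x : ℤ → O m) (v : ℤ) (r : O m) :
    sqc D x (AddMonoidAlgebra.single v r) = tor m D (r * x (-v)) := by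
  rw [sqc, lines_single]
  rfl

theorem cob_sdig {x : Tc} {s : ℝ} (h : ¬ s < 0) : sdig x s = dig x := by
  rw [sdig, if_neg h]
  split_ifs with hx
  · rw [hx, dig_zero]
  · rfl

theorem sqc_mon (D : ℕ) (x : ℤ → O m) (e l : ℤ) :
    sqc D x (mon m (e, -l)) = tor m D (tz m e * x l) := by
  rw [mon, cob_single, neg_neg]

theorem sqc_torsion (D : ℕ) (x : ℤ → O m) (f : GR m ℤ) : (2 ^ D - 1) • sqc D x f = 0 := by
  rw [sqc, lines_apply, smul_sum]
  exact sum_eq_zero fun v _ => tor_torsion D _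

theorem sqc_add (D : ℕ) (x y : ℤ → O m) : sqc D (x + y) = sqc D x + sqc D y := by
  refine GR_ext fun γ => ?_
  simp only [mon, AddMonoidHom.add_apply, cob_single, Pi.add_apply, mul_add, map_add]

theorem sqc_zero (D : ℕ) : sqc D (0 : ℤ → O m) = 0 := by
  refine GR_ext fun γ => ?_
  simp only [mon, AddMonoidHom.zero_apply, cob_single, Pi.zero_apply, mul_zero, map_zero]

/-- `GR_ext`, `mon_mul_single` -/
theorem sqc_single (D : ℕ) (x : ℤ → O m) (j : ℤ) (κ : O m) (f : GR m ℤ) :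
    sqc D x (f * AddMonoidAlgebra.single j κ) = sqc D (fun l => κ * x (l - j)) f := by
  have h : (sqc D x).comp (AddMonoidHom.mulRight (AddMonoidAlgebra.single j κ)) =
      sqc D fun l => κ * x (l - j) := by
    refine GR_ext fun γ => ?_
    rw [AddMonoidHom.comp_apply, AddMonoidHom.coe_mulRight]
    beta_reduce
    rw [mon_mul_single, cob_single, mon, cob_single, mul_assoc, neg_add', sub_eq_add_neg]
  exact DFunLike.congr_fun h f

theorem sqc_binom (D : ℕ) (x : ℤ → O m) (i k : ℤ) (f : GR m ℤ) :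
    sqc D x (f * (1 + mon m (i, k))) = sqc D (fun l => x l + tz m i * x (l - k)) f := by
  rw [mul_add, mul_one, map_add, mon, sqc_single, ← AddMonoidHom.add_apply, ← sqc_add]
  rfl

theorem valid_mul {A B p q : GR m ℤ} (hA : A ≠ 0) (h : A * p = B * q) {X Y Z : GR m ℤ →+ Tc}
    (hX : ∀ f, X f = Z (f * q)) (hY : ∀ f, Y f = Z (f * p)) : Valid A B X Y := by
  intro η ξ e
  rw [hX, hY]
  congr 1
  apply mul_left_cancel₀ hA
  linear_combination η * h + q * e

theorem Valid.add_right {A B : GR m ℤ} {X Y G : GR m ℤ →+ Tc} (h : Valid A B X Y)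
    (hG : ∀ η ξ, η * B = ξ * A → G η = 0) : Valid A B X (Y + G) := by
  intro η ξ e
  rw [AddMonoidHom.add_apply, hG η ξ e, add_zero, h η ξ e]

/-- Use `TL` with the signs `x = 0`, `y = r` and `T = 2 k N`: `sdig (X _) 0 = dig (X _)`; on the lines with
`r l < 0` (exactly `k N` of them, `card_neg`) `sdig = 1` and `dig = 0`; on the others `sdig = dig`. -/
theorem TL.gain {a b : (O m)[X]} (h : TL a b) {D : ℕ} (hD : 0 < D) {X Y : GR m ℤ →+ Tc}
    (hv : Valid (pl a) (pl b) X Y) (hX : ∀ f, (2 ^ D - 1) • X f = 0)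
    (hY : ∀ f, (2 ^ D - 1) • Y f = 0) {r : ℤ → ℝ} (hr : act (rl a) r = 0) {c : ℝ} {k : ℕ}
    (hc : 0 < c) (hp : ∀ l, r (l + k) = -c * r l) (hn : ∀ l, r l ≠ 0)
    (h0 : ∀ l e : ℤ, r l < 0 → Y (mon m (e, -l)) = 0) :
    ∃ C : ℝ, ∀ N : ℕ, ∑ l ∈ range (2 * k * N), ∑ e ∈ range (m * D),
      (dig (Y (mon m ((e : ℤ), -(l : ℤ)))) - dig (X (mon m ((e : ℤ), -(l : ℤ))))) ≤ C := by
  obtain ⟨C₁, hC⟩ := h
  refine ⟨C₁ * D, fun N => ?_⟩
  have hz : act (rl b) 0 = 0 := by
    simpa using act_smul_right (rl b) 0 0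
  have h1 := hC D hD X Y hv hX hY 0 r (by rw [hr, hz]) (2 * k * N)
  have h2 : ∀ l e : ℕ, sdig (Y (mon m ((e : ℤ), -(l : ℤ)))) (r l) -
      sdig (X (mon m ((e : ℤ), -(l : ℤ)))) ((0 : ℤ → ℝ) l) =
      (dig (Y (mon m ((e : ℤ), -(l : ℤ)))) - dig (X (mon m ((e : ℤ), -(l : ℤ))))) +
        if r l < 0 then 1 else 0 := by
    intro l e
    rw [cob_sdig (s := (0 : ℤ → ℝ) l) (lt_irrefl 0)]
    split_ifs with hl
    · rw [h0 l e hl, sdig, if_pos rfl, if_pos hl, dig_zero]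
      ring
    · rw [cob_sdig hl, add_zero]
  have h3 : ∑ l ∈ range (2 * k * N), (if r (l : ℕ) < 0 then (1 : ℝ) else 0) = N * k := by
    rw [sum_boole, card_neg hc hp, filter_true_of_mem fun l _ => hn _, card_range]
    push_cast
    rfl
  simp only [h2, sum_add_distrib, sum_const, card_range, nsmul_eq_mul, ← mul_sum, h3] at h1
  push_cast at h1
  linarith

/-- sequences that are periodic up to monomials: the sum in `TL.gain` is `N` times the sum over one
period (`sqc_mon`, `wtD_tz_mul`) -/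
theorem TL.per {a b : (O m)[X]} (h : TL a b) {D : ℕ} (hD : 0 < D) {x y : ℤ → O m}
    (hv : Valid (pl a) (pl b) (sqc D x) (sqc D y)) {r : ℤ → ℝ} (hr : act (rl a) r = 0) {c : ℝ}
    {k : ℕ} (hc : 0 < c) (hp : ∀ l, r (l + k) = -c * r l) (hn : ∀ l, r l ≠ 0)
    (h0 : ∀ l, r l < 0 → y l = 0) (hx : ∀ l, ∃ j, x (l + 2 * k) = tz m j * x l)
    (hy : ∀ l, ∃ j, y (l + 2 * k) = tz m j * y l) :
    ∑ l ∈ range (2 * k), wtD m D (y l) ≤ ∑ l ∈ range (2 * k), wtD m D (x l) := by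
  obtain ⟨C, hC⟩ := h.gain hD hv (sqc_torsion D x) (sqc_torsion D y) hr hc hp hn
    fun l e hl => by rw [sqc_mon, h0 l hl, mul_zero, map_zero]
  obtain ⟨g, hg⟩ : ∃ g : ℤ → ℝ, ∀ l, g l = wtD m D (y l) - wtD m D (x l) := ⟨_, fun _ => rfl⟩
  have h1 : ∀ l, g (l + 2 * k) = g l := by
    intro l
    obtain ⟨i, hi⟩ := hx l
    obtain ⟨j, hj⟩ := hy l
    rw [hg, hg, hi, hj, wtD_tz_mul hD, wtD_tz_mul hD]
  have h2 : ∀ (N : ℕ) (l : ℤ), g (2 * k * N + l) = g l := by
    intro N l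
    induction N with
    | zero => simp
    | succ N ih =>
      rw [← ih, ← h1 (2 * k * N + l)]
      congr 1
      push_cast
      ring
  have h3 : ∀ N : ℕ, ∑ l ∈ range (2 * k * N), g (l : ℕ) = N * ∑ l ∈ range (2 * k), g (l : ℕ) := by
    intro N
    induction N with
    | zero => simp
    | succ N ih =>
      rw [mul_add, mul_one, sum_range_add, ih]
      push_cast
      simp only [h2]
      ring
  have h4 : ∀ N : ℕ, N * ∑ l ∈ range (2 * k), g (l : ℕ) ≤ C := by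
    intro N
    rw [← h3]
    refine le_of_eq_of_le (sum_congr rfl fun l _ => ?_) (hC N)
    simp only [hg, sqc_mon, sum_sub_distrib, wtD]
  rw [← sub_nonpos, ← sum_sub_distrib]
  simp only [← hg]
  by_contra hs
  have hs' := not_le.1 hs
  obtain ⟨N, hN⟩ := exists_nat_gt (C / ∑ l ∈ range (2 * k), g (l : ℕ))
  rw [div_lt_iff₀ hs'] at hN
  exact absurd (h4 N) (not_le.2 hN)

end Pool.Agent.GK
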