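import Pool.Agent.Lib.MP_a01f70_lc.GK.Bas
import Pool.Agent.Lib.MP_a01f70_lc.GK.GRb

namespace Pool.Agent.GK
open Finset Polynomial

variable {m : ℕ} [NeZero m]

theorem dcor_tr_le {e : ℤ} {k : ℕ} (h : e ≤ m * k) : tr m e ≤ 2 ^ k := by
  have h1 := (tr_strictMono (m := m)).monotone h
  rwa [tr_mul_m, zpow_natCast] at h1

theorem dcor_sum_tr (H : ℕ) : ∑ e ∈ range (m * H), tr m e ≤ 2 * m * 2 ^ H := by
  induction H with
  | zero => simp
  | succ H ih =>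
    rw [mul_add, mul_one, sum_range_add]
    have h1 : ∑ i ∈ range m, tr m ((m * H + i : ℕ) : ℤ) ≤ ∑ _i ∈ range m, (2 : ℝ) ^ (H + 1) :=
      sum_le_sum fun i hi => dcor_tr_le (by
        have := mem_range.1 hi
        push_cast
        nlinarith)
    rw [sum_const, card_range, nsmul_eq_mul] at h1
    rw [pow_succ] at h1 ⊢
    linarith

theorem dcor_psi {ψ : Tc → ℝ} {Lp : ℝ} (h1 : ∀ x, ψ x ≤ dig x) (h2 : ∀ x, ψ x ≤ Lp * ‖x‖) (κ : ℝ)
    (x : Tc) : ψ x ≤ dgr κ x + |Lp| * |κ| := by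
  have h0 : 0 ≤ |Lp| * |κ| := by positivity
  by_cases c : fr x < 1 - κ
  · have e : dgr κ x = dig x := by simp only [dgr, dig, c, and_true]
    rw [e]
    linarith [h1 x]
  · have a1 : ‖x‖ ≤ |κ| := by linarith [norm_le_one_sub_fr x, le_abs_self κ, not_lt.1 c]
    have a2 : Lp * ‖x‖ ≤ |Lp| * |κ| :=
      mul_le_mul (le_abs_self _) a1 (norm_nonneg _) (abs_nonneg _)
    linarith [h2 x, dgr_nonneg κ x]

theorem dcor_mon (e v : ℤ) (j : ℕ) : mon m (e + m * j, v) = 2 ^ j • mon m (e, v) := by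
  induction j with
  | zero => simp
  | succ j ih =>
    have h := mon_add_sig (m := m) (e + m * j, v)
    rw [ih, Prod.mk_add_mk, add_zero, smul_smul, ← pow_succ'] at h
    rw [← h]
    push_cast
    rw [mul_add, mul_one, add_assoc]

theorem dcor_tors {y : Tc} {j : ℕ} (h : 2 ^ j • y = 0) : fr y ≤ 1 - 1 / 2 ^ j := by
  rw [← coe_fr y, ← AddCircle.coe_nsmul, AddCircle.coe_eq_zero_iff] at h
  obtain ⟨n, hn⟩ := h
  rw [zsmul_eq_mul, mul_one, nsmul_eq_mul] at hn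
  push_cast at hn
  have h0 : (0 : ℝ) < 2 ^ j := by positivity
  have h1 : (n : ℝ) < 2 ^ j := by
    rw [hn]
    exact mul_lt_of_lt_one_right h0 (fr_lt_one y)
  have h2 : n + 1 ≤ 2 ^ j := by exact_mod_cast h1
  have h3 : (n : ℝ) + 1 ≤ 2 ^ j := by exact_mod_cast h2
  rw [le_sub_comm, div_le_iff₀ h0]
  linarith

theorem dcor_dig {Y : GR m ℤ →+ Tc} {H k e : ℕ} {v : ℤ} {C : ℝ} (hk : 2 * |C| < 2 ^ k)
    (he : e < m * H) (hY : ∀ e : ℤ, (m * H : ℕ) ≤ e → Y (mon m (e, v)) = 0) :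
    dgr (C * tr m e / 2 ^ (H + k)) (Y (mon m ((e : ℤ), v))) = dig (Y (mon m ((e : ℤ), v))) := by
  have hm : 0 < m := Nat.pos_of_ne_zero (NeZero.ne m)
  obtain ⟨j, hj⟩ := Nat.exists_eq_add_of_le (Nat.div_lt_of_lt_mul he).le
  have d1 := Nat.div_add_mod e m
  have d2 := Nat.mod_lt e hm
  have d3 : m * H = m * (e / m) + m * j := by rw [← mul_add, ← hj]
  have a1 : m * H ≤ e + m * j := by omega
  have a2 : e + m * j ≤ m * (H + 1) := by
    rw [mul_add]
    omega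
  have b1 := hY (e + m * j) (by exact_mod_cast a1)
  rw [dcor_mon, map_nsmul] at b1
  have b2 := dcor_tors b1
  have b3 : tr m (e + m * j) ≤ 2 ^ (H + 1) := dcor_tr_le (by exact_mod_cast a2)
  rw [tr_add, tr_mul_m, zpow_natCast] at b3
  have b4 : C * tr m e / 2 ^ (H + k) < 1 / 2 ^ j := by
    rw [div_lt_div_iff₀ (by positivity) (by positivity), one_mul, mul_assoc, pow_add]
    have c0 : 0 ≤ tr m e * 2 ^ j := mul_nonneg (tr_pos _).le (by positivity)
    have c1 : C * (tr m e * 2 ^ j) ≤ |C| * 2 ^ (H + 1) :=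
      mul_le_mul (le_abs_self _) b3 c0 (abs_nonneg _)
    have c2 := mul_lt_mul_of_pos_left hk (show (0 : ℝ) < 2 ^ H by positivity)
    rw [pow_succ] at c1
    linarith
  have c : fr (Y (mon m ((e : ℤ), v))) < 1 - C * tr m e / 2 ^ (H + k) := by linarith
  simp only [dgr, dig, c, and_true]

theorem dcor_step {F : ℤ → ℝ} {M : ℝ} (h0 : ∀ l, 0 ≤ F l) (hM : ∀ l, F l ≤ M) (T : ℕ) (a : ℤ) :
    |∑ l ∈ range T, F (a + 1 - l) - ∑ l ∈ range T, F (a - l)| ≤ M := by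
  have h := sum_range_sub' (fun l : ℕ => F (a + 1 - l)) T
  simp only [Nat.cast_add, Nat.cast_one, add_sub_add_right_eq_sub] at h
  rw [← sum_sub_distrib, h, abs_le]
  constructor <;> linarith [h0 (a + 1 - (0 : ℕ)), hM (a + 1 - (0 : ℕ)), h0 (a + 1 - T),
    hM (a + 1 - T)]

theorem dcor_shift {F : ℤ → ℝ} {M : ℝ} (h0 : ∀ l, 0 ≤ F l) (hM : ∀ l, F l ≤ M) (T : ℕ) (a : ℤ) :
    |∑ l ∈ range T, F (a - l) - ∑ l ∈ range T, F (-l)| ≤ |(a : ℝ)| * M := by
  induction a using Int.induction_on with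
  | zero => simp
  | succ i ih =>
    have h := dcor_step h0 hM T i
    have e1 : |((i : ℤ) : ℝ)| = i := by simp
    have e2 : |(((i : ℤ) + 1 : ℤ) : ℝ)| = i + 1 := by
      push_cast
      exact abs_of_nonneg (by positivity)
    rw [e1] at ih
    rw [e2]
    rw [abs_le] at h ih ⊢
    constructor <;> linarith [h.1, h.2, ih.1, ih.2]
  | pred i ih =>
    have h := dcor_step h0 hM T (-i - 1)
    have e1 : |((-(i : ℤ) : ℤ) : ℝ)| = i := by simp
    have e2 : |((-(i : ℤ) - 1 : ℤ) : ℝ)| = i + 1 := by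
      push_cast
      rw [← neg_add', abs_neg]
      exact abs_of_nonneg (by positivity)
    rw [e1] at ih
    rw [e2]
    rw [sub_add_cancel] at h
    rw [abs_le] at h ih ⊢
    constructor <;> linarith [h.1, h.2, ih.1, ih.2]

theorem Dinf.dpsi {A B : GR m ℤ} (h : Dinf A B) : Dpsi A B := by
  obtain ⟨C₁, h⟩ := h
  refine ⟨C₁, fun T ψ Lp h1 h2 => ?_⟩
  obtain ⟨C, hC⟩ := h T
  refine ⟨C + T * (|Lp| * |C| * (2 * m)), fun H X Y hv => ?_⟩
  have k1 := hC H X Y hv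
  have k2 : ∀ l ∈ range T, ∑ e ∈ range (m * H),
      (ψ (Y (mon m ((e : ℤ), -(l : ℤ)))) - dig (X (mon m ((e : ℤ), -(l : ℤ))))) ≤
      ∑ e ∈ range (m * H), (dgr (C * tr m e / 2 ^ H) (Y (mon m ((e : ℤ), -(l : ℤ)))) -
        dig (X (mon m ((e : ℤ), -(l : ℤ))))) + |Lp| * |C| * (2 * m) := by
    intro l _
    have a1 : ∑ e ∈ range (m * H), |Lp| * |C| / 2 ^ H * tr m e ≤ |Lp| * |C| * (2 * m) := by
      rw [← mul_sum]
      refine (mul_le_mul_of_nonneg_left (dcor_sum_tr H) (by positivity)).trans (le_of_eq ?_)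
      field_simp
    refine le_trans ?_ (add_le_add le_rfl a1)
    rw [← sum_add_distrib]
    refine sum_le_sum fun e _ => ?_
    have a2 := dcor_psi h1 h2 (C * tr m e / 2 ^ H) (Y (mon m ((e : ℤ), -(l : ℤ))))
    rw [abs_div, abs_mul, abs_of_pos (tr_pos _), abs_of_pos (show (0 : ℝ) < 2 ^ H by positivity)]
      at a2
    have a3 : |Lp| * (|C| * tr m e / 2 ^ H) = |Lp| * |C| / 2 ^ H * tr m e := by ring
    linarith
  have k3 := sum_le_sum k2
  rw [sum_add_distrib, sum_const, card_range, nsmul_eq_mul] at k3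
  linarith

theorem Dinf.ddel {A B : GR m ℤ} (h : Dinf A B) : Ddel A B := by
  obtain ⟨C₁, h⟩ := h
  refine ⟨C₁, fun T => ?_⟩
  obtain ⟨C, hC⟩ := h T
  obtain ⟨k, hk⟩ := pow_unbounded_of_one_lt (2 * |C|) (one_lt_two (α := ℝ))
  refine ⟨C + C₁ * k + m * k * T / 2 + T * (m * k), fun H X Y hv hY => ?_⟩
  have k1 := hC (H + k) X Y hv
  have k2 : ∀ l ∈ range T, ∑ e ∈ range (m * H),
      (dig (Y (mon m ((e : ℤ), -(l : ℤ)))) - dig (X (mon m ((e : ℤ), -(l : ℤ))))) ≤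
      ∑ e ∈ range (m * (H + k)), (dgr (C * tr m e / 2 ^ (H + k))
        (Y (mon m ((e : ℤ), -(l : ℤ)))) - dig (X (mon m ((e : ℤ), -(l : ℤ))))) + m * k := by
    intro l hl
    rw [mul_add, sum_range_add, add_assoc]
    have a1 : ∑ _i ∈ range (m * k), (-1 : ℝ) ≤ ∑ i ∈ range (m * k),
        (dgr (C * tr m ((m * H + i : ℕ) : ℤ) / 2 ^ (H + k))
          (Y (mon m (((m * H + i : ℕ) : ℤ), -(l : ℤ)))) -
          dig (X (mon m (((m * H + i : ℕ) : ℤ), -(l : ℤ))))) :=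
      sum_le_sum fun i _ => by
        linarith [dgr_nonneg (C * tr m ((m * H + i : ℕ) : ℤ) / 2 ^ (H + k))
          (Y (mon m (((m * H + i : ℕ) : ℤ), -(l : ℤ)))),
          dig_le_one (X (mon m (((m * H + i : ℕ) : ℤ), -(l : ℤ))))]
    rw [sum_const, card_range, nsmul_eq_mul, Nat.cast_mul] at a1
    refine le_add_of_le_of_nonneg (le_of_eq (sum_congr rfl fun e he => ?_)) (by linarith)
    rw [dcor_dig hk (mem_range.1 he) (hY l (mem_range.1 hl))]
  have k3 := sum_le_sum k2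
  rw [sum_add_distrib, sum_const, card_range, nsmul_eq_mul] at k3
  push_cast at k1
  linarith

theorem Dinf.congr {A B A' B' : GR m ℤ} (h : Dinf A B) (hA : A ≠ 0) (hA' : A' ≠ 0)
    (he : A * B' = B * A') : Dinf A' B' := by
  have _ := hA'
  obtain ⟨C₁, h⟩ := h
  refine ⟨C₁, fun T => ?_⟩
  obtain ⟨C, hC⟩ := h T
  refine ⟨C, fun H X Y hv => hC H X Y fun η ξ e => hv η ξ (mul_left_cancel₀ hA ?_)⟩
  linear_combination η * he + A' * e

theorem Dinf.shift {A B : GR m ℤ} (j j' : ℤ) (h : Dinf (mon m (0, j) * A) (mon m (0, j') * B)) :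
    Dinf A B := by
  obtain ⟨C₁, h⟩ := h
  refine ⟨C₁ + (|(j : ℝ)| + |(j' : ℝ)|) * m, fun T => ?_⟩
  obtain ⟨C, hC⟩ := h T
  refine ⟨C, fun H X Y hv => ?_⟩
  have k1 := hC H (X.comp (AddMonoidHom.mulRight (mon m (0, j))))
    (Y.comp (AddMonoidHom.mulRight (mon m (0, j')))) fun η ξ e =>
      hv (η * mon m (0, j')) (ξ * mon m (0, j)) (by rw [mul_assoc, mul_assoc, e])
  simp only [AddMonoidHom.comp_apply, AddMonoidHom.coe_mulRight, ← mon_add, Prod.mk_add_mk,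
    add_zero, neg_add_eq_sub, sum_sub_distrib] at k1 ⊢
  have hb : ∀ f : ℕ → ℝ, (∀ e, f e ≤ 1) → ∑ e ∈ range (m * H), f e ≤ m * H := fun f hf => by
    have := sum_le_card_nsmul (range (m * H)) f 1 fun e _ => hf e
    rwa [card_range, nsmul_eq_mul, mul_one, Nat.cast_mul] at this
  have k2 := dcor_shift (F := fun v => ∑ e ∈ range (m * H), dig (X (mon m ((e : ℤ), v))))
    (fun _ => sum_nonneg fun _ _ => dig_nonneg _) (fun _ => hb _ fun _ => dig_le_one _) T j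
  have k3 := dcor_shift
    (F := fun v => ∑ e ∈ range (m * H), dgr (C * tr m e / 2 ^ H) (Y (mon m ((e : ℤ), v))))
    (fun _ => sum_nonneg fun _ _ => dgr_nonneg _ _)
    (fun _ => hb _ fun _ => (dgr_le_dig _ _).trans (dig_le_one _)) T j'
  rw [abs_le] at k2 k3
  linarith [k2.2, k3.1]

end Pool.Agent.GK
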