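import Pool.Agent.Lib.MP_a01f70_lc.GK.Vlem

namespace Pool.Agent.GK
open Finset Polynomial

variable {m : ℕ} [NeZero m]

omit [NeZero m] in
theorem Red.evC_ne {a b : (O m)[X]} (hr : Red a b) {ρ : ℂˣ} (h : evC m ρ (pl a) = 0) :
    evC m ρ (pl b) ≠ 0 := by
  intro h'
  obtain ⟨u, v, e⟩ := hr.cop
  have h1 := congrArg (aeval (ρ : ℂ)) e
  rw [evC_pl] at h h'
  simp [h, h'] at h1

omit [NeZero m] in
theorem slope_pos {aa : Ideal (GR m ℤ)} {ρ : ℂˣ} (h : ∀ f ∈ aa, evC m ρ f = 0) {γ : ℤ × ℤ}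
    (hγ : 1 + mon m γ ∈ aa) : ∃ (i : ℤ) (k : ℕ), 0 < k ∧ 1 + mon m (i, (k : ℤ)) ∈ aa := by
  obtain ⟨i, j⟩ := γ
  rcases lt_trichotomy j 0 with hj | rfl | hj
  · refine ⟨-i, (-j).toNat, by omega, ?_⟩
    have h1 := aa.mul_mem_right (mon m (-(i, j))) hγ
    rwa [add_mul, one_mul, mon_mul_neg, add_comm, Prod.neg_mk,
      ← Int.toNat_of_nonneg (by omega : 0 ≤ -j)] at h1
  · have h1 := h _ hγ
    rw [map_add, map_one, evC_mon, zpow_zero, Units.val_one, mul_one] at h1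
    have h2 : 1 + tr m i = 0 := by exact_mod_cast h1
    linarith [tr_pos (m := m) i]
  · exact ⟨i, j.toNat, by omega, by rwa [Int.toNat_of_nonneg hj.le]⟩

omit [NeZero m] in
theorem slope_ker {a b : (O m)[X]} (hr : Red a b) {ρ : ℂˣ} (hρ : evC m ρ (pl a) = 0)
    {η ξ : GR m ℤ} (h : η * pl b = ξ * pl a) : η ∈ RingHom.ker (evC m ρ) := by
  have h1 := congrArg (evC m ρ) h
  rw [map_mul, map_mul, hρ, mul_zero] at h1
  exact (mul_eq_zero.1 h1).resolve_right (hr.evC_ne hρ)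

/-- `vlem` for the kernel of `evC m ρ`; `γ.2 ≠ 0` since `tr` is positive, pass to `-γ` -/
theorem pole_neg {a b : (O m)[X]} (hr : Red a b) (h : Dpsi (pl a) (pl b)) {ρ : ℂˣ}
    (hρ : evC m ρ (pl a) = 0) {e J : ℤ} (hJ : 0 < J) (hU : evC m ρ (mon m (e, J)) = 1) :
    ∃ (i : ℤ) (k : ℕ), 0 < k ∧ evC m ρ (mon m (i, (k : ℤ))) = -1 := by
  obtain ⟨γ, hγ⟩ := vlem h (RingHom.ker (evC m ρ)) (fun _ _ => slope_ker hr hρ) hJ
    (by rw [RingHom.mem_ker, map_sub, hU, map_one, sub_self]) (evC m ρ) fun _ hf => hf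
  obtain ⟨i, k, hk, h1⟩ := slope_pos (ρ := ρ) (fun _ hf => hf) hγ
  rw [RingHom.mem_ker, map_add, map_one] at h1
  exact ⟨i, k, hk, eq_neg_of_add_eq_zero_right h1⟩

omit [NeZero m] in
/-- `ρ` and `ρ⁻¹` are integral over `O m`, so `1 / r` is, so `r` is a unit -/
theorem unit_of_pole {ρ : ℂˣ} {i : ℤ} {k : ℕ} (hk : 0 < k)
    (h : evC m ρ (mon m (i, (k : ℤ))) = -1) {r : O m} {f : GR m ℤ}
    (hf : ((r : ℝ) : ℂ) * evC m ρ f = 1) : IsUnit r := by
  have h0 : ∀ e, IsIntegral (O m) (tr m e : ℂ) := fun e => isIntegral_algebraMap (x := tz m e)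
  have h1 : ∀ (ρ : ℂˣ) (i : ℤ), (tr m i : ℂ) * ρ ^ k = -1 → IsIntegral (O m) (ρ : ℂ) :=
    fun ρ i e => by
      refine IsIntegral.of_pow hk ?_
      have e1 : (tr m (-i) : ℂ) * tr m i = 1 := by
        rw [← Complex.ofReal_mul, ← tr_add, neg_add_cancel, tr_zero, Complex.ofReal_one]
      rw [show (ρ : ℂ) ^ k = -(tr m (-i) : ℂ) by
        linear_combination (tr m (-i) : ℂ) * e - (ρ : ℂ) ^ k * e1]
      exact (h0 _).neg
  have h2 := congrArg (evC m ρ) (mon_mul_neg (m := m) (i, (k : ℤ)))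
  rw [map_mul, h, map_one, neg_one_mul, neg_eq_iff_eq_neg, evC_mon, Prod.snd_neg, ← inv_zpow',
    zpow_natCast, Units.val_pow_eq_pow_val] at h2
  rw [evC_mon, zpow_natCast, Units.val_pow_eq_pow_val] at h
  have h3 : IsIntegral (O m) (evC m ρ f) := by
    clear hf
    induction f using GR_induction with
    | h0 => rw [map_zero]; exact isIntegral_zero
    | hm γ =>
      rw [evC_mon]
      refine (h0 _).mul ?_
      obtain ⟨n, hn | hn⟩ := γ.2.eq_nat_or_neg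
      · rw [hn, zpow_natCast, Units.val_pow_eq_pow_val]
        exact (h1 _ _ h).pow n
      · rw [hn, ← inv_zpow', zpow_natCast, Units.val_pow_eq_pow_val]
        exact (h1 _ _ h2).pow n
    | ha x y hx hy => rw [map_add]; exact hx.add hy
    | hn x hx => rw [map_neg]; exact hx.neg
  have h4 : Function.Injective (algebraMap (O m) (integralClosure (O m) ℂ)) := fun x y e =>
    Subtype.ext (Complex.ofReal_injective (congrArg Subtype.val e))
  have h5 := RingHom.IsIntegral.isLocalHom (Algebra.IsIntegral.isIntegral (R := O m)) h4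
  exact isUnit_of_map_unit (algebraMap (O m) (integralClosure (O m) ℂ)) r
    (IsUnit.of_mul_eq_one ⟨_, h3⟩ (Subtype.ext hf))

theorem slope_eq {ρ : ℂˣ} {γ β : ℤ × ℤ} (hγ : evC m ρ (mon m γ) = -1)
    (hβ : evC m ρ (mon m β) = -1) {l l' : ℕ} (h : (l • γ).2 = (l' • β).2) : l • γ = l' • β := by
  have h1 : ∀ {γ : ℤ × ℤ} (l : ℕ), evC m ρ (mon m γ) = -1 →
      tr m (l • γ).1 * ‖((ρ ^ (l • γ).2 : ℂˣ) : ℂ)‖ = 1 := fun l e => by
    have e1 := congrArg (‖· ^ l‖) e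
    simp only [← map_pow, mon_pow] at e1
    rwa [evC_mon, norm_mul, Complex.norm_real, Real.norm_of_nonneg (tr_pos _).le, norm_pow,
      norm_neg, norm_one, one_pow] at e1
  have h2 := (h1 l hγ).trans (h1 l' hβ).symm
  rw [h] at h2
  exact Prod.ext (tr_strictMono.injective
    (mul_right_cancel₀ (norm_ne_zero_iff.2 (Units.ne_zero _)) h2)) h

theorem slope_unit {δ : ℤ} (hδ : δ ≠ 0) (y : ℕ) :
    ∃ o : ℕ, Odd o ∧ ¬ IsUnit (1 - (-1) ^ y * tz m (o * δ)) := by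
  obtain ⟨E, hE⟩ := not_isUnit_one_add (m := m)
  refine ⟨2 * E + 1, odd_two_mul_add_one E, fun hu => ?_⟩
  obtain ⟨h1, h2⟩ := hE ((2 * E + 1) * δ.natAbs)
    ((by omega : E ≤ 2 * E + 1).trans (Nat.le_mul_of_pos_right _ (Int.natAbs_pos.2 hδ)))
  rw [Nat.cast_mul] at h1 h2
  rcases Int.natAbs_eq δ with h | h
  · rw [← h] at h1 h2
    rcases neg_one_pow_eq_or (O m) y with e | e
    · exact h2 (by rwa [e, one_mul] at hu)
    · exact h1 (by rwa [e, neg_one_mul, sub_neg_eq_add] at hu)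
  · have h3 := (isUnit_tz (((2 * E + 1 : ℕ) : ℤ) * δ.natAbs)).mul hu
    rw [mul_sub, mul_left_comm, ← tz_add, ← mul_add, add_eq_zero_iff_neg_eq.2 h.symm, mul_zero,
      tz_zero, mul_one, mul_one] at h3
    rcases neg_one_pow_eq_or (O m) y with e | e
    · exact h2 (by rwa [e, ← neg_sub, IsUnit.neg_iff] at h3)
    · exact h1 (by rwa [e, sub_neg_eq_add, add_comm] at h3)

theorem slope_core {a b : (O m)[X]} (hr : Red a b) (h : Dpsi (pl a) (pl b)) {ρ₁ ρ₂ : ℂˣ}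
    (h₁ : evC m ρ₁ (pl a) = 0) (h₂ : evC m ρ₂ (pl a) = 0) {i₁ i₂ : ℤ} {k₁ k₂ : ℕ} (hk₁ : 0 < k₁)
    (hk₂ : 0 < k₂) (e₁ : evC m ρ₁ (mon m (i₁, (k₁ : ℤ))) = -1)
    (e₂ : evC m ρ₂ (mon m (i₂, (k₂ : ℤ))) = -1) {x y : ℕ} (hx : Odd x) (hxy : x * k₁ = y * k₂) :
    x * i₁ = y * i₂ := by
  by_contra hδ
  obtain ⟨o, ho, hu⟩ := slope_unit (m := m) (sub_ne_zero.2 hδ) y
  obtain ⟨β, hβ⟩ : ∃ β : ℤ × ℤ, β = (o * x) • (i₁, (k₁ : ℤ)) := ⟨_, rfl⟩
  have b0 : β.2 = (o * x * k₁ : ℕ) := by simp [hβ]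
  have b1 : evC m ρ₁ (mon m β) = -1 := by
    rw [hβ, ← mon_pow, map_pow, e₁, (ho.mul hx).neg_one_pow]
  have b2 : evC m ρ₂ (mon m β) = (-1) ^ y * tr m (o * (x * i₁ - y * i₂)) := by
    have e : β = (o * y) • (i₂, (k₂ : ℤ)) + (o * (x * i₁ - y * i₂), 0) := by
      have : (x : ℤ) * k₁ = y * k₂ := by exact_mod_cast hxy
      rw [hβ]
      ext
      · simp
        ring
      · simp [mul_assoc, this]
    rw [e, mon_add, ← mon_pow, map_mul, map_pow, e₂, pow_mul, ho.neg_one_pow, evC_mon]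
    simp
  let I : Ideal (GR m ℤ) := Ideal.span {1 - mon m β} ⊔ RingHom.ker (evC m ρ₂)
  have b3 : Ideal.Quotient.mk I (mon m β) = 1 :=
    (Ideal.Quotient.eq.2 (Ideal.mem_sup_left (Ideal.mem_span_singleton_self _))).symm
  have hpos : 0 < o * x * k₁ := Nat.mul_pos (ho.mul hx).pos hk₁
  obtain ⟨γ, hγ⟩ := vlem h (RingHom.ker (evC m ρ₁) ⊓ I)
    (fun _ _ e => ⟨slope_ker hr h₁ e, Ideal.mem_sup_right (slope_ker hr h₂ e)⟩)
    (e := (2 • β).1) (J := (2 • β).2) (by rw [Prod.smul_snd, b0]; positivity)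
    (by
      rw [Prod.mk.eta, ← mon_pow]
      exact ⟨by simp [b1], Ideal.Quotient.eq.1 (by rw [map_pow, b3, one_pow, map_one])⟩)
    (evC m ρ₁) fun _ hf => hf.1
  obtain ⟨i, k, hk, g1, g2⟩ := slope_pos (aa := RingHom.ker (evC m ρ₁) ⊓ I) (ρ := ρ₁)
    (fun _ hf => hf.1) hγ
  have g3 : evC m ρ₁ (mon m (i, (k : ℤ))) = -1 := by
    refine eq_neg_of_add_eq_zero_right ?_
    rw [← map_one (evC m ρ₁), ← map_add]
    exact g1
  have g4 : Ideal.Quotient.mk I (mon m (i, (k : ℤ))) = -1 := by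
    refine eq_neg_of_add_eq_zero_right ?_
    rw [← map_one (Ideal.Quotient.mk I), ← map_add]
    exact Ideal.Quotient.eq_zero_iff_mem.2 g2
  obtain ⟨l', l, hc, c1, c2⟩ := Nat.exists_coprime k (o * x * k₁)
  have c3 := congrArg (mon m) (slope_eq g3 b1 (l := l) (l' := l') (by
    rw [Prod.smul_snd, Prod.smul_snd, b0, nsmul_eq_mul, nsmul_eq_mul]
    generalize k.gcd (o * x * k₁) = g at c1 c2
    rw [c1, c2]
    push_cast
    ring))
  rw [← mon_pow, ← mon_pow] at c3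
  have c4 := congrArg (evC m ρ₁) c3
  rw [map_pow, map_pow, g3, b1] at c4
  have c5 : Odd l := Nat.not_even_iff_odd.1 fun he => by
    rw [he.neg_one_pow, eq_comm, neg_one_pow_eq_one_iff_even (by norm_num)] at c4
    exact absurd (Nat.eq_one_of_dvd_coprimes hc c4.two_dvd he.two_dvd) (by norm_num)
  have c6 := congrArg (Ideal.Quotient.mk I) c3
  rw [map_pow, map_pow, g4, b3, one_pow, c5.neg_one_pow] at c6
  have c7 : mon m ((m : ℤ), (0 : ℤ)) ∈ I := by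
    rw [← Ideal.Quotient.eq_zero_iff_mem, mon_sig, ← one_add_one_eq_two, map_add, map_one]
    exact add_eq_zero_iff_neg_eq.2 c6
  have c8 := I.mul_mem_right (mon m (-((m : ℤ), (0 : ℤ)))) c7
  rw [mon_mul_neg] at c8
  obtain ⟨f, hf, c9⟩ := Ideal.mem_span_singleton_sup.1 c8
  refine hu (unit_of_pole hk₂ e₂ (f := f) ?_)
  obtain ⟨c10, c11⟩ := c9
  have c12 := congrArg (evC m ρ₂) c11
  rw [map_add, map_mul, map_sub, map_one, b2, RingHom.mem_ker.1 c10, add_zero, mul_comm] at c12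
  rw [← c12]
  push_cast
  rfl

/-- Two poles have the same slope. Else let `g = gcd k₁ k₂`, `x = k₂ / g`, `y = k₁ / g`, by symmetry
`x` odd; `β = x (i₁, k₁)`, `δ = x i₁ - y i₂ ≠ 0`, `o` odd and large, `r = 1 - (-1) ^ y t ^ (δ o)` is
not a unit (`not_isUnit_one_add`), `aa = ker ρ₁ ⊓ (ker ρ₂ ⊔ span {r})`; `mon (o β)` is `-1` at `ρ₁`
and `1` modulo the second ideal; `vlem` with `U = 2 o β` gives `γ` that is `-1` in both;
`l γ = l' (o β)` with coprime `l, l'` (second coordinates, `tr` injective), both odd by the values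
at `ρ₁`; so `2`, hence `1`, lies in the second ideal, against `unit_of_pole`. -/
theorem same_slope {a b : (O m)[X]} (hr : Red a b) (h : Dpsi (pl a) (pl b)) {ρ₁ ρ₂ : ℂˣ}
    (h₁ : evC m ρ₁ (pl a) = 0) (h₂ : evC m ρ₂ (pl a) = 0) {i₁ i₂ : ℤ} {k₁ k₂ : ℕ} (hk₁ : 0 < k₁)
    (hk₂ : 0 < k₂) (e₁ : evC m ρ₁ (mon m (i₁, (k₁ : ℤ))) = -1)
    (e₂ : evC m ρ₂ (mon m (i₂, (k₂ : ℤ))) = -1) : i₁ * k₂ = i₂ * k₁ := by
  obtain ⟨y, x, hc, c1, c2⟩ := Nat.exists_coprime k₁ k₂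
  generalize k₁.gcd k₂ = g at c1 c2
  have h1 : x * k₁ = y * k₂ := by rw [c1, c2]; ring
  have h2 : (x : ℤ) * i₁ = y * i₂ := by
    rcases Nat.even_or_odd x with hx | hx
    · refine (slope_core hr h h₂ h₁ hk₂ hk₁ e₂ e₁ (Nat.not_even_iff_odd.1 fun hy => ?_) h1.symm).symm
      exact absurd (Nat.eq_one_of_dvd_coprimes hc hy.two_dvd hx.two_dvd) (by norm_num)
    · exact slope_core hr h h₁ h₂ hk₁ hk₂ e₁ e₂ hx h1
  rw [c1, c2]
  push_cast
  linear_combination (g : ℤ) * h2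

end Pool.Agent.GK
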