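import Pool.Agent.Lib.MP_a01f70_lc.GK.D1a
import Pool.Agent.Lib.MP_a01f70_lc.GK.Slope
import Pool.Agent.Lib.MP_a01f70_lc.GK.Simple
import Pool.Agent.Lib.MP_a01f70_lc.GK.Dcor
import Pool.Agent.Lib.MP_a01f70_lc.GK.TLe

namespace Pool.Agent.GK
open Finset Polynomial

variable {m : ℕ} [NeZero m]

theorem D1_pow {P : ℝ[X]} (a : ℝ[X]) :
    a ≠ 0 → (∀ x : ℂ, aeval x a = 0 → aeval x P = 0) → ∃ μ : ℕ, a ∣ P ^ μ := by
  refine UniqueFactorizationMonoid.induction_on_prime a (fun h _ => absurd rfl h)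
    (fun u hu _ _ => ⟨0, hu.dvd⟩) fun a p ha hp ih _ h => ?_
  obtain ⟨μ, hμ⟩ := ih ha fun x hx => h x (by rw [map_mul, hx, mul_zero])
  obtain ⟨x, hx⟩ := IsAlgClosed.exists_aeval_eq_zero ℂ p
    (degree_pos_of_irreducible hp.irreducible).ne'
  refine ⟨μ + 1, pow_succ' P μ ▸ mul_dvd_mul (by_contra fun h1 => ?_) hμ⟩
  exact (aeval_ne_zero_of_isCoprime (hp.irreducible.coprime_iff_not_dvd.2 h1) x).elim (· hx)
    (· (h x (by rw [map_mul, hx, zero_mul])))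

omit [NeZero m] in
theorem D1_ne {a b : (O m)[X]} (hr : Red a b) : rl a ≠ 0 ∧ ∀ x : ℂ, aeval x (rl a) = 0 → x ≠ 0 := by
  have h1 : (rl a).coeff 0 ≠ 0 := fun h => hr.a0 (Subtype.ext ((rl_coeff a 0).symm.trans h))
  refine ⟨fun h => h1 (by rw [h, coeff_zero]), fun x hx h => h1 ?_⟩
  rwa [h, ← coeff_zero_eq_aeval_zero', map_eq_zero] at hx

/-- D1 (b): one binomial vanishes at all poles. There is a pole `ρ₀` and only finitely many;
`pole_neg`, `same_slope`; `U = 2 (∏ k ρ) (i₀, k₀)` is `1` at all poles; `vlem` for the ideal of all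
`f` vanishing at all poles; sign of `γ.2` as in `pole_neg`. -/
theorem common_binom {a b : (O m)[X]} (hr : Red a b) (h : Dpsi (pl a) (pl b))
    (hp : ∀ ρ : ℂˣ, evC m ρ (pl a) = 0 → ∃ e J : ℤ, 0 < J ∧ evC m ρ (mon m (e, J)) = 1)
    (h0 : 0 < a.natDegree) :
    ∃ (i : ℤ) (k : ℕ), 0 < k ∧ ∀ ρ : ℂˣ, evC m ρ (pl a) = 0 →
      evC m ρ (1 + mon m (i, (k : ℤ))) = 0 := by
  classical
  obtain ⟨h1, h2⟩ := D1_ne hr
  obtain ⟨x, hx⟩ := IsAlgClosed.exists_aeval_eq_zero ℂ (rl a)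
    (natDegree_pos_iff_degree_pos.1 (rl_natDegree a ▸ h0)).ne'
  have h3 : evC m (Units.mk0 x (h2 x hx)) (pl a) = 0 := (evC_pl _ a).trans hx
  generalize Units.mk0 x (h2 x hx) = ρ₀ at h3
  have h4 : {ρ : ℂˣ | evC m ρ (pl a) = 0}.Finite :=
    (((rl a).rootSet_finite ℂ).preimage Units.val_injective.injOn).subset fun ρ hρ =>
      (mem_rootSet_of_ne h1).2 ((evC_pl ρ a).symm.trans hρ)
  choose! i k hk hik using fun (ρ : ℂˣ) (hρ : evC m ρ (pl a) = 0) =>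
    (hp ρ hρ).elim fun e h5 => h5.elim fun J h6 => pole_neg hr h hρ h6.1 h6.2
  have hN : 0 < ∏ ρ ∈ h4.toFinset, k ρ := prod_pos fun ρ hρ => hk ρ (h4.mem_toFinset.1 hρ)
  obtain ⟨γ, hγ⟩ := vlem h (⨅ ρ : {ρ : ℂˣ // evC m ρ (pl a) = 0}, RingHom.ker (evC m ρ.1))
    (fun η ξ e => Ideal.mem_iInf.2 fun ρ => by
      have h5 := congrArg (evC m ρ.1) e
      rw [map_mul, map_mul, ρ.2, mul_zero] at h5
      exact (mul_eq_zero.1 h5).resolve_right (hr.evC_ne ρ.2))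
    (e := (2 * ∏ ρ ∈ h4.toFinset, k ρ : ℕ) * i ρ₀) (J := (2 * ∏ ρ ∈ h4.toFinset, k ρ : ℕ) * k ρ₀)
    (mul_pos (Nat.cast_pos.2 (by omega)) (Nat.cast_pos.2 (hk ρ₀ h3)))
    (Ideal.mem_iInf.2 fun ρ => by
      obtain ⟨c, hc⟩ := dvd_prod_of_mem k (h4.mem_toFinset.2 ρ.2)
      have h5 := same_slope hr h h3 ρ.2 (hk _ h3) (hk _ ρ.2) (hik _ h3) (hik _ ρ.2)
      have h6 : ((((2 * (k ρ.1 * c) : ℕ) : ℤ) * i ρ₀, ((2 * (k ρ.1 * c) : ℕ) : ℤ) * k ρ₀) : ℤ × ℤ) =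
          (2 * (c * k ρ₀)) • (i ρ.1, (k ρ.1 : ℤ)) := by
        rw [Prod.smul_mk, nsmul_eq_mul, nsmul_eq_mul]
        push_cast
        exact Prod.ext (by linear_combination 2 * c * h5) (by ring)
      rw [RingHom.mem_ker, hc, h6, ← mon_pow, map_sub, map_pow, hik _ ρ.2, pow_mul, neg_one_sq,
        one_pow, map_one, sub_self])
    (evC m ρ₀) fun f hf => Ideal.mem_iInf.1 hf ⟨ρ₀, h3⟩
  have h5 : ∀ ρ : ℂˣ, evC m ρ (pl a) = 0 → evC m ρ (1 + mon m γ) = 0 := fun ρ hρ =>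
    Ideal.mem_iInf.1 hγ ⟨ρ, hρ⟩
  rcases lt_trichotomy γ.2 0 with h6 | h6 | h6
  · refine ⟨-γ.1, (-γ.2).toNat, by omega, fun ρ hρ => ?_⟩
    rw [Int.toNat_of_nonneg (by omega), ← Prod.neg_mk, ← mon_mul_neg γ, ← add_one_mul, map_mul,
      add_comm, h5 ρ hρ, zero_mul]
  · have h7 := h5 ρ₀ h3
    rw [map_add, map_one, evC_mon, h6, zpow_zero, Units.val_one, mul_one] at h7
    have h8 : 1 + tr m γ.1 = 0 := by exact_mod_cast h7
    linarith [tr_pos (m := m) γ.1]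
  · refine ⟨γ.1, γ.2.toNat, by omega, fun ρ hρ => ?_⟩
    rw [Int.toNat_of_nonneg h6.le]
    exact h5 ρ hρ

/-- `pole_mon`, `common_binom`; a real polynomial all of whose complex roots are roots of `P`
divides a power of `P`; `simple_roots` with `Dinf.tl`, `TL.sm` -/
theorem d1 {a b : (O m)[X]} (hr : Red a b) (h : Dinf (pl a) (pl b)) :
    a.natDegree = 0 ∨ ∃ (i : ℤ) (k : ℕ), Bin (rl a) (tr m i) k := by
  refine (Nat.eq_zero_or_pos _).imp_right fun h0 => ?_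
  obtain ⟨h1, h2⟩ := D1_ne hr
  have h3 : pl a ≠ 0 := fun h3 => hr.a0 (by
    rw [pl_injective (h3.trans (map_zero pl).symm), coeff_zero])
  obtain ⟨i, k, hk, h4⟩ := common_binom hr h.dpsi
    (fun ρ hρ => pole_mon h.ddel h3 ρ hρ (hr.evC_ne hρ)) h0
  obtain ⟨μ, hμ⟩ := D1_pow (P := 1 + C (tr m i) * X ^ k) (rl a) h1 fun x hx => by
    have h5 := h4 (Units.mk0 x (h2 x hx)) ((evC_pl _ a).trans hx)
    rw [← pl_binom, evC_pl, rl, Polynomial.map_add, Polynomial.map_one, Polynomial.map_mul, map_C,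
      Polynomial.map_pow, map_X] at h5
    exact h5
  exact ⟨i, k, tr_pos i, hk, simple_roots hr.cop (h.tl hr).sm (tr_pos i) hk hμ⟩

end Pool.Agent.GK
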