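import Pool.Agent.Lib.MP_a01f70_lc.GK.Bas
import Pool.Agent.Lib.MP_a01f70_lc.GK.GRb

/-!
Definitions for the study of the poles.
-/

noncomputable section

namespace Pool.Agent.GK
open Finset Polynomial

/-! ### Riesz products -/

/-- sign vectors -/
def Sg (n : ℕ) : Finset (Fin n → ℤ) := Fintype.piFinset fun _ => {0, 1, -1}

/-- the coefficients of the Riesz product -/
def cf {n : ℕ} (ε : ℂ) (σ : Fin n → ℤ) : ℂ := ∏ k, if σ k = 0 then 1 else -(σ k : ℂ) * ε / 2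

/-- the Riesz product -/
def rz {n : ℕ} (ε : ℂ) (z : Fin n → Tc) : ℂ := ∏ k, (1 - ε / 2 * ee (z k) + ε / 2 * ee (-z k))

/-- lacunary sums of at least two powers of `x` are not small multiples of a power of `x` -/
def Gap (x : ℂ) : Prop :=
  ∀ M : ℕ, ∃ g : ℕ, 0 < g ∧ ∀ (n : ℕ) (j : Fin n → ℕ), (∀ k k', k < k' → j k + g ≤ j k') →
    ∀ σ ∈ Sg n, ∀ (a : ℤ) (q : ℕ), |a| ≤ M → a * x ^ q + ∑ k, σ k * x ^ j k = 0 →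
      ∀ k k', σ k ≠ 0 → σ k' ≠ 0 → k = k'

/-- what is used about the number `x` -/
structure Ari (x : ℂ) : Prop where
  ne : x ≠ 0
  alg : IsAlgebraic ℚ x
  pow : ∀ n : ℕ, 0 < n → x ^ n ≠ 1
  odd : ∀ (a : ℤ) (n : ℤ), (a : ℂ) ^ 2 = x ^ (2 * n) → Odd a

/-! ### The response to one bit -/

/-- the site at height `δ.1` and time `δ.2` -/
def st (m : ℕ) (δ : ℤ × ℤ) : GR m ℤ := mon m (δ.1, -δ.2)

/-- the level of a site -/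
def Wd (e : ℤ) (J : ℕ) (δ : ℤ × ℤ) : ℤ := J * δ.1 - e * δ.2

/-- one half -/
def hf : Tc := ((1 / 2 : ℝ) : Tc)

/-- the response to one bit at the origin -/
structure Resp {m : ℕ} (A B : GR m ℤ) (e : ℤ) (J : ℕ) (x : ℂ) where
  X : GR m ℤ →+ Tc
  Y : GR m ℤ →+ Tc
  ω : ℤ
  c : ℕ
  l₁ : ℕ
  P : ℕ
  D : ℕ
  E : ℤ → Prop
  valid : Valid A B X Y
  J_pos : 0 < J
  cop : IsCoprime e J
  P_pos : 0 < P
  l_pos : 0 < l₁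
  X_st : ∀ δ, X (st m δ) =
    if δ.2 = 0 ∧ (m : ℤ) ∣ δ.1 then (((2 : ℝ) ^ (δ.1 / m) / 2 : ℝ) : Tc) else 0
  far : ∀ δ, ω + c < Wd e J δ → Y (st m δ) = 0
  out : ∀ δ, (l₁ : ℤ) ≤ |δ.2| → ω < Wd e J δ → Y (st m δ) = 0
  back : ∀ δ : ℤ × ℤ, δ.2 ≤ -(l₁ : ℤ) → Wd e J δ = ω → Y (st m δ) = 0
  flip : ∀ δ, (l₁ : ℤ) ≤ δ.2 → Wd e J δ = ω → E δ.2 → Y (st m δ) = hf
  flop : ∀ δ, (l₁ : ℤ) ≤ δ.2 → Wd e J δ = ω → ¬ E δ.2 → Y (st m δ) = 0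
  per : ∀ l : ℤ, (l₁ : ℤ) ≤ l → (E (l + P) ↔ E l)
  win : ∀ l : ℤ, (l₁ : ℤ) ≤ l → ∃ δ : ℤ × ℤ, l ≤ δ.2 ∧ δ.2 < l + D ∧ Wd e J δ = ω ∧ E δ.2
  ev : ∀ (Q : ℕ) (a : ℕ → ℤ), ∑ q ∈ range Q, (a q : ℂ) * x ^ q ≠ 0 → ∃ V L : ℕ, ∀ n : ℤ, L ≤ n →
    ∃ δ : ℤ × ℤ, n ≤ δ.2 ∧ δ.2 < n + D ∧ ω - V ≤ Wd e J δ ∧ Wd e J δ ≤ ω + c ∧
      ∑ q ∈ range Q, a q • Y (st m (δ + q • (e, (J : ℤ)))) = hf

/-- the response to a bit at `p` -/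
def sh {m : ℕ} (Z : GR m ℤ →+ Tc) (p : ℤ × ℤ) : GR m ℤ →+ Tc :=
  Z.comp (AddMonoidHom.mulLeft (st m (-p)))

/-- the number of digits one in a box -/
def cost {m : ℕ} (T H : ℕ) (Z : GR m ℤ →+ Tc) : ℝ :=
  ∑ l ∈ range T, ∑ h ∈ range (m * H), dig (Z (st m ((h : ℤ), (l : ℤ))))

/-! ### The test -/

/-- the parameters of the test -/
structure Par {m : ℕ} {A B : GR m ℤ} {e : ℤ} {J : ℕ} {x : ℂ} (R : Resp A B e J x) where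
  /-- length of a block in steps of `(e, J)` -/
  Q : ℕ
  /-- distance of the active levels -/
  Dp : ℕ
  /-- number of blocks -/
  Bn : ℕ
  /-- number of active levels -/
  Kn : ℕ
  H : ℕ
  n₀ : ℕ
  V : ℕ
  h₀ : ℤ
  W₁ : ℤ
  δ₀ : ℤ × ℤ
  /-- the junction -/
  Jn : Finset (ℤ × ℤ)
  hδ : Wd e J δ₀ = R.ω
  δ_nonneg : 0 ≤ δ₀.2
  δ_lt : δ₀.2 < J
  Q_pos : 0 < Q
  PQ : R.P ∣ Q
  cD : R.c + V < J * Dp
  ln : R.l₁ ≤ n₀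
  top : J * h₀ + V ≤ W₁
  W_def : W₁ + R.ω + R.c + 1 + |e| * (Bn * (J * Q) : ℕ) = J * (m * H : ℕ)
  box : ∀ k q : ℕ, k < Kn → q < Bn * Q →
    0 ≤ h₀ - k * Dp + δ₀.1 + q * e ∧ h₀ - k * Dp + δ₀.1 + q * e < (m * H : ℕ)
  Jn_le : ∀ g ∈ Jn, g.2 ≤ -(n₀ : ℤ) ∧ Wd e J g ≤ W₁
  Jn_mem : ∀ g : ℤ × ℤ, -(n₀ : ℤ) - R.D < g.2 → g.2 ≤ -(n₀ : ℤ) →
    -(|e| * (Bn * (J * Q) : ℕ)) - R.ω - R.c ≤ Wd e J g → Wd e J g ≤ W₁ → g ∈ Jn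

namespace Par

variable {m : ℕ} {A B : GR m ℤ} {e : ℤ} {J : ℕ} {x : ℂ} {R : Resp A B e J x} (p : Par R)

/-- the number of lines -/
def T : ℕ := p.Bn * (J * p.Q)

/-- the optional bit of level `k` and block `b` -/
def pos (k b : ℕ) : ℤ × ℤ := (p.h₀ - k * p.Dp, 0) + (b * p.Q) • (e, (J : ℤ))

/-- the sites of level `k` -/
def site (k q : ℕ) : ℤ × ℤ := (p.h₀ - k * p.Dp, 0) + p.δ₀ + q • (e, (J : ℤ))

/-- the active levels -/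
def lev (k : ℕ) : ℤ := J * (p.h₀ - k * p.Dp) + R.ω

open Classical in
/-- the flipped sites of a block -/
def Φ : Finset ℕ := (range p.Q).filter fun q => (R.l₁ : ℤ) ≤ p.δ₀.2 + q * J ∧
  p.δ₀.2 + q * J + R.l₁ ≤ J * p.Q ∧ R.E (p.δ₀.2 + q * J)

/-- the sum over the flipped sites -/
def Zs (Y : GR m ℤ →+ Tc) (k b : ℕ) : ℝ :=
  ∑ q ∈ p.Φ, (2 * dig (Y (st m (p.site k (b * p.Q + q)))) - 1)

open Classical in
/-- the blocks in which the optional bit is used -/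
def bits (Y : GR m ℤ →+ Tc) (k : ℕ) : Finset ℕ :=
  (range p.Bn).filter fun b => Xor (p.Zs Y k b < 0) (0 < b ∧ p.Zs Y k (b - 1) < 0)

/-- the response after the decisions on the levels below `k` -/
def Ys (β : Finset (ℤ × ℤ)) : ℕ → GR m ℤ →+ Tc
  | 0 => ∑ g ∈ β, sh R.Y g
  | k + 1 => Ys β k + ∑ b ∈ p.bits (Ys β k) k, sh R.Y (p.pos k b)

/-- the source after the decisions on the levels below `k` -/
def Xs (β : Finset (ℤ × ℤ)) : ℕ → GR m ℤ →+ Tc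
  | 0 => ∑ g ∈ β, sh R.X g
  | k + 1 => Xs β k + ∑ b ∈ p.bits (p.Ys β k) k, sh R.X (p.pos k b)

/-- sites close to an optional bit -/
def Near (γ : ℤ × ℤ) : Prop :=
  ∃ k b : ℕ, k < p.Kn ∧ b ≤ p.Bn ∧ p.lev k ≤ Wd e J γ ∧ Wd e J γ ≤ p.lev k + R.c ∧
    |γ.2 - b * (J * p.Q : ℕ)| < R.l₁

/-- flipped sites -/
def Flip (γ : ℤ × ℤ) : Prop :=
  ∃ k b q : ℕ, k < p.Kn ∧ b < p.Bn ∧ q ∈ p.Φ ∧ γ = p.site k (b * p.Q + q)

end Par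

/-! ### The `2`-adic side -/

/-- the completed algebraic closure of the `2`-adic numbers -/
abbrev C2 : Type := PadicComplex 2

/-- the closure of the image of `O m` -/
def Kh {m : ℕ} (f : O m →+* C2) : Subring C2 := f.range.topologicalClosure

/-- convolution with a sequence -/
def cv {m : ℕ} (f : O m →+* C2) (A : GR m ℤ) (s : ℤ → C2) (n : ℤ) : C2 :=
  A.coeff.sum fun a c => f c * s (n - a)

/-- evaluation at `ρ` -/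
def ev2 {m : ℕ} (f : O m →+* C2) (ρ : C2) (A : GR m ℤ) : C2 := A.coeff.sum fun a c => f c * ρ ^ a

/-- sequences that are bounded and small in the past -/
structure Sq {m : ℕ} (f : O m →+* C2) (r : ℝ) (s : ℤ → C2) : Prop where
  mem : ∀ l, s l ∈ Kh f
  bd : ∃ C : ℝ, ∀ l, ‖s l‖ * r ^ l ≤ C
  bot : ∀ ε : ℝ, 0 < ε → ∃ L : ℤ, ∀ l, l ≤ L → ‖s l‖ * r ^ l < ε

/-- the reading of the digit of weight one -/
structure Lam {m : ℕ} (f : O m →+* C2) (lam : C2 →+ Tc) : Prop where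
  tz : ∀ e : ℤ, lam (f (tz m e)) = if (m : ℤ) ∣ e then (((2 : ℝ) ^ (e / m) / 2 : ℝ) : Tc) else 0
  lt : ∀ v ∈ Kh f, ‖v‖ < 1 → lam v = 0
  eq : ∀ v ∈ Kh f, ‖v‖ = 1 → lam v = hf

/-! ### Small facts -/

variable {m : ℕ}

theorem st_add (γ δ : ℤ × ℤ) : st m (γ + δ) = st m γ * st m δ := by
  rw [st, st, st, ← mon_add]
  congr 1
  ext <;> simp [add_comm]

theorem sh_st (Z : GR m ℤ →+ Tc) (p γ : ℤ × ℤ) : sh Z p (st m γ) = Z (st m (γ - p)) := by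
  rw [sub_eq_neg_add, st_add]
  rfl

theorem Wd_add (e : ℤ) (J : ℕ) (γ δ : ℤ × ℤ) : Wd e J (γ + δ) = Wd e J γ + Wd e J δ := by
  simp only [Wd, Prod.fst_add, Prod.snd_add]
  ring

theorem Wd_sub (e : ℤ) (J : ℕ) (γ δ : ℤ × ℤ) : Wd e J (γ - δ) = Wd e J γ - Wd e J δ := by
  simp only [Wd, Prod.fst_sub, Prod.snd_sub]
  ring

theorem Wd_U (e : ℤ) (J q : ℕ) : Wd e J (q • (e, (J : ℤ))) = 0 := by
  simp [Wd]
  ring

theorem hf_add_hf : hf + hf = 0 := by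
  rw [hf, ← AddCircle.coe_add, add_halves]
  exact AddCircle.coe_period 1

end Pool.Agent.GK
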