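import Pool.Agent.Lib.MP_a01f70_lc.GK.PD

/-! The level of the response. -/

noncomputable section

namespace Pool.Agent.GK
open Finset Polynomial

variable {m : ℕ} [NeZero m] (f : O m →+* C2)

/-- The nonzero values of `(‖v l‖ r ^ l) ^ J` are of the form `tr m w` (`norm_Kh`), they are bounded
above, and at least `κ ^ J` in every late window. Let `ω` be the largest `w` that occurs for
infinitely many `l`, `μ = tr m ω ^ (1 / J)`. With `I` from `recurrence` and its least element `a₁`,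
`E (n - a₁)` is determined by the `E (n - a)`, `a₁ < a ≤ a₁ + D`, and fails if they all fail;
`eventually_periodic`. -/
theorem exists_level {A G : GR m ℤ} (hA : A ≠ 0) {r : ℝ} (hr : 0 < r) {e : ℤ} {J : ℕ} (hJ : 0 < J)
    (he : r ^ J = tr m (-e)) {a₀ : ℤ} {D : ℕ} (hD : ∀ a ∈ A.coeff.support, a₀ ≤ a ∧ a ≤ a₀ + D)
    {v : ℤ → C2} (hv : Sq f r v) (h1 : ∀ n, cv f A v n = f (G.coeff n))
    (h2 : ∃ (κ : ℝ) (L : ℕ), 0 < κ ∧ ∀ n : ℤ, L ≤ n → ∃ l, n ≤ l ∧ κ ≤ ‖v l‖ * r ^ l) :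
    ∃ (ω : ℤ) (c l₁ P : ℕ), 0 < l₁ ∧ 0 < P ∧ (∀ l, (‖v l‖ * r ^ l) ^ J ≤ tr m (ω + c)) ∧
      (∀ l : ℤ, (l₁ : ℤ) ≤ l → (‖v l‖ * r ^ l) ^ J ≤ tr m ω) ∧
      (∀ l : ℤ, l ≤ -(l₁ : ℤ) → (‖v l‖ * r ^ l) ^ J < tr m ω) ∧
      (∀ l : ℤ, (l₁ : ℤ) ≤ l →
        ((‖v (l + P)‖ * r ^ (l + P)) ^ J = tr m ω ↔ (‖v l‖ * r ^ l) ^ J = tr m ω)) ∧
      ∀ l : ℤ, (l₁ : ℤ) ≤ l → ∃ l', l ≤ l' ∧ l' < l + D ∧ (‖v l'‖ * r ^ l') ^ J = tr m ω := by
  classical
  obtain ⟨x, hx⟩ : ∃ x : ℤ → ℝ, ∀ l, ‖v l‖ * r ^ l = x l := ⟨_, fun _ => rfl⟩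
  have x0 : ∀ l, 0 ≤ x l := fun l => by rw [← hx]; positivity
  have F1 : ∀ l, x l ^ J = 0 ∨ ∃ w, x l ^ J = tr m w := by
    intro l
    rw [← hx]
    by_cases h : v l = 0
    · exact Or.inl (by rw [h, norm_zero, zero_mul, zero_pow hJ.ne'])
    · obtain ⟨e', h, -⟩ := norm_Kh f (hv.mem l) h
      refine Or.inr ⟨-e' * J + -e * l, ?_⟩
      rw [mul_pow, h, tr_pow, tr_add, ← tr_zpow (-e), ← he, ← zpow_natCast, ← zpow_mul,
        ← zpow_natCast, ← zpow_mul, mul_comm l]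
  obtain ⟨C, hC⟩ := hv.bd
  obtain ⟨κ, L, hκ, h2⟩ := h2
  have hrec := fun μ hμ l₀ => recurrence f (μ := μ) (l₀ := l₀) hA hr hμ hv.mem h1
  have bot := hv.bot
  simp only [hx] at hC h2 hrec bot ⊢
  obtain ⟨W, hW⟩ : ∃ W, ∀ l, x l ^ J ≤ tr m W := by
    obtain ⟨j, hj⟩ := pow_unbounded_of_one_lt (C ^ J) (one_lt_two (α := ℝ))
    refine ⟨m * j, fun l => (pow_le_pow_left₀ (x0 l) (hC l) J).trans ?_⟩
    rw [tr_mul_m, zpow_natCast]
    exact hj.le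
  obtain ⟨ω, hω, hmax⟩ := Int.exists_greatest_of_bdd (P := fun w => ∀ n, ∃ l, n ≤ l ∧ tr m w ≤ x l ^ J)
    ⟨W, fun w hw => by
      obtain ⟨l, -, h⟩ := hw 0
      exact tr_strictMono.le_iff_le.1 (h.trans (hW l))⟩ (by
      obtain ⟨j, hj⟩ := exists_pow_lt_of_lt_one (pow_pos hκ J) (one_half_lt_one (α := ℝ))
      refine ⟨m * (-j), fun n => ?_⟩
      obtain ⟨l, h1, h3⟩ := h2 (max n L) (le_max_right _ _)
      refine ⟨l, (le_max_left _ _).trans h1, le_trans ?_ (pow_le_pow_left₀ hκ.le h3 J)⟩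
      rw [tr_mul_m, zpow_neg, zpow_natCast, ← inv_pow, ← one_div]
      exact hj.le)
  obtain ⟨n₀, hn₀⟩ : ∃ n₀, ∀ l, n₀ ≤ l → x l ^ J ≤ tr m ω := by
    have : ¬∀ n, ∃ l, n ≤ l ∧ tr m (ω + 1) ≤ x l ^ J := fun h => by have := hmax _ h; omega
    push Not at this
    obtain ⟨n, hn⟩ := this
    refine ⟨n, fun l hl => ?_⟩
    have h := hn l hl
    rcases F1 l with e1 | ⟨w, e1⟩ <;> rw [e1] at h ⊢
    · exact (tr_pos ω).le
    · exact tr_strictMono.monotone (Int.lt_add_one_iff.1 (tr_strictMono.lt_iff_lt.1 h))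
  obtain ⟨μ, hμ, hμJ⟩ : ∃ μ : ℝ, 0 < μ ∧ tr m ω = μ ^ J :=
    ⟨tr m ω ^ (J : ℝ)⁻¹, Real.rpow_pos_of_pos (tr_pos ω) _,
      (Real.rpow_inv_natCast_pow (tr_pos ω).le hJ.ne').symm⟩
  have hc : ∀ l, x l ^ J ≤ tr m (ω + (W - ω).toNat) := fun l =>
    (hW l).trans (tr_strictMono.monotone (by omega))
  simp only [hμJ, pow_le_pow_iff_left₀ (x0 _) hμ.le hJ.ne',
    pow_le_pow_iff_left₀ hμ.le (x0 _) hJ.ne'] at hω hn₀
  obtain ⟨I, n₁, hI, hIA, hev⟩ := hrec μ hμ n₀ hn₀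
  obtain ⟨a₁, ha₁, hmin⟩ := I.exists_min_image id hI
  have par : ∀ n, n₁ - a₁ ≤ n →
      (x n = μ ↔ ¬Even ((I.erase a₁).filter fun a => x (n + a₁ - a) = μ).card) := by
    intro n hn
    have h := hev (n + a₁) (by omega)
    rw [← insert_erase ha₁, filter_insert, add_sub_cancel_right] at h
    split_ifs at h with h'
    · rw [card_insert_of_notMem fun h => notMem_erase _ _ (mem_filter.1 h).1, Nat.even_add_one] at h
      exact iff_of_true h' h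
    · exact iff_of_false h' (not_not.2 h)
  have rng : ∀ a ∈ I.erase a₁, a₁ < a ∧ a ≤ a₁ + D := by
    intro a ha
    obtain ⟨h1, h3⟩ := mem_erase.1 ha
    have h4 : a₁ ≤ a := hmin a h3
    have := hD a (hIA h3)
    have := hD a₁ (hIA ha₁)
    omega
  obtain ⟨P, n₂, hP, hper⟩ := eventually_periodic (fun l => x l = μ) D (n₁ - a₁) (by
    intro n n' hn hn' h
    rw [par _ (by omega), par _ (by omega), filter_congr (q := fun a => x (n' + D + a₁ - a) = μ)]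
    intro a ha
    have := rng a ha
    have h' := h (D + a₁ - a).toNat (by omega)
    rwa [Int.toNat_of_nonneg (by omega), ← add_sub_assoc, ← add_sub_assoc, ← add_assoc,
      ← add_assoc] at h')
  obtain ⟨L', hL'⟩ := bot μ hμ
  refine ⟨ω, (W - ω).toNat, n₀.natAbs + n₂.natAbs + (n₁ - a₁).natAbs + L'.natAbs + 1, P,
    Nat.succ_pos _, hP, hc, ?_⟩
  simp only [hμJ, pow_le_pow_iff_left₀ (x0 _) hμ.le hJ.ne', pow_left_inj₀ (x0 _) hμ.le hJ.ne',
    pow_lt_pow_iff_left₀ (x0 _) hμ.le hJ.ne']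
  refine ⟨fun l hl => hn₀ l (by omega), fun l hl => hL' l (by omega),
    fun l hl => hper l (by omega), fun l hl => ?_⟩
  by_contra hno
  push Not at hno
  have key : ∀ k : ℕ, ∀ l', l ≤ l' → l' < l + D + k → x l' ≠ μ := by
    intro k
    induction k with
    | zero => exact fun l' h1 h3 => hno l' h1 (by omega)
    | succ k ih =>
      intro l' h1 h3
      by_cases h4 : l' < l + D + k
      · exact ih l' h1 h4
      · rw [Ne, par l' (by omega), not_not, filter_false_of_mem fun a ha => by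
          have := rng a ha
          exact ih _ (by omega) (by omega)]
        exact ⟨0, rfl⟩
  obtain ⟨l', h3, h4⟩ := hω l
  exact key (l' - l + 1).toNat l' h3 (by omega) (le_antisymm (hn₀ l' (by omega)) h4)

end Pool.Agent.GK
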