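import Pool.Agent.Lib.MP_a01f70_lc.GK.PC
import Pool.Agent.Lib.MP_a01f70_lc.GK.PE

/-! The response. -/

noncomputable section

namespace Pool.Agent.GK
open Finset Polynomial

variable {m : ℕ} [NeZero m]

/-- The place of `O m` attached to `j`. -/
def fj (m : ℕ) (j : ℂ →+* C2) : O m →+* C2 := j.comp (Complex.ofRealHom.comp (O m).subtype)

omit [NeZero m] in
theorem ev2_eq (j : ℂ →+* C2) (ρ : ℂˣ) (A : GR m ℤ) : ev2 (fj m j) (j ρ) A = j (evC m ρ A) := by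
  induction A using AddMonoidAlgebra.induction_linear with
  | zero => simp [ev2]
  | add A B h1 h2 =>
    rw [map_add, map_add, ← h1, ← h2, ev2, AddMonoidAlgebra.coeff_add, Finsupp.sum_add_index']
    · rfl
    · simp
    · simp [add_mul]
  | single a c =>
    rw [evC_single, ev2, AddMonoidAlgebra.coeff_single, Finsupp.sum_single_index (by simp)]
    simp [fj]

theorem norm_pow_tz (f : O m →+* C2) {r : ℝ} (hr : 0 < r) {e : ℤ} {J : ℕ}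
    (he : r ^ J = tr m (-e)) (δ : ℤ × ℤ) (w : C2) :
    ‖f (tz m δ.1) * w‖ ^ J = (‖w‖ * r ^ δ.2) ^ J * tr m (-Wd e J δ) := by
  have h1 : (r ^ δ.2) ^ J = tr m (-e * δ.2) := by
    rw [← tr_zpow, ← he, ← zpow_natCast, ← zpow_natCast, ← zpow_mul, ← zpow_mul, mul_comm]
  rw [norm_mul, norm_tz, mul_pow, mul_pow, h1, tr_pow, mul_assoc, ← tr_add, mul_comm, Wd]
  congr 2
  ring

/-- the value at time zero of a convolution -/
def cv0 (f : O m →+* C2) (w : ℤ → C2) : GR m ℤ →+ C2 :=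
  AddMonoidHom.mk' (fun η => cv f η w 0) fun a b => by rw [cv_add]; rfl

omit [NeZero m] in
theorem cv0_st (f : O m →+* C2) (w : ℤ → C2) (δ : ℤ × ℤ) :
    cv0 f w (st m δ) = f (tz m δ.1) * w δ.2 :=
  (cv_single f (-δ.2) (tz m δ.1) w 0).trans (by rw [zero_sub, neg_neg])

omit [NeZero m] in
theorem cv0_mul (f : O m →+* C2) (w : ℤ → C2) (η ξ : GR m ℤ) :
    cv0 f w (η * ξ) = cv0 f (cv f ξ w) η := congrFun (cv_mul f η ξ w) 0

theorem exists_tr_lt (ω : ℤ) {κ : ℝ} (hκ : 0 < κ) : ∃ V : ℕ, tr m (ω - V) < κ := by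
  obtain ⟨k, hk⟩ := exists_pow_lt_of_lt_one (div_pos hκ (tr_pos (m := m) ω))
    (by norm_num : (2 : ℝ)⁻¹ < 1)
  refine ⟨m * k, ?_⟩
  rw [sub_eq_add_neg, tr_add, Nat.cast_mul, ← mul_neg, tr_mul_m, zpow_neg, zpow_natCast, ← inv_pow,
    mul_comm]
  exact (lt_div_iff₀ (tr_pos _)).1 hk

theorem exists_resp (j : ℂ →+* C2) {A B : GR m ℤ} (hA0 : A ≠ 0) (ρ : ℂˣ) (hA : evC m ρ A = 0)
    (hB : evC m ρ B ≠ 0) {e : ℤ} {J : ℕ} (hJ : 0 < J) (hc : IsCoprime e J)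
    (he : ‖j ρ‖ ^ J = tr m (-e)) : Nonempty (Resp A B e J (evC m ρ (st m (e, J)))) := by
  set f := fj m j
  have hρ : j ρ ≠ 0 := (map_ne_zero j).2 ρ.ne_zero
  have hr : 0 < ‖j ρ‖ := norm_pos_iff.2 hρ
  obtain ⟨lam, hl⟩ := exists_lam f
  obtain ⟨s, hs, hs1⟩ := exists_inv f hA0 hr
  obtain ⟨a₀, D, hD⟩ : ∃ (a₀ : ℤ) (D : ℕ), ∀ a ∈ A.coeff.support, a₀ ≤ a ∧ a ≤ a₀ + D := by
    obtain ⟨a, ha⟩ := A.coeff.support.bddBelow
    obtain ⟨b, hb⟩ := A.coeff.support.bddAbove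
    exact ⟨a, (b - a).toNat, fun c hc => ⟨ha hc, by have := hb hc; omega⟩⟩
  have h0 : ev2 f (j ρ) A = 0 := by rw [ev2_eq, hA, map_zero]
  have h1 : ∀ G n, cv f A (cv f G s) n = f (G.coeff n) := fun G n => by
    rw [← cv_mul, mul_comm, cv_mul, hs1, cv_delta]
  have h2 : ∀ G, evC m ρ G ≠ 0 → ∃ (κ : ℝ) (L : ℕ), 0 < κ ∧ ∀ n : ℤ, L ≤ n →
      ∃ l, n ≤ l ∧ l < n + D ∧ κ ≤ ‖cv f G s l‖ * ‖j ρ‖ ^ l := fun G hG =>
    window f hρ h0 hD (hs.cv f hr G) (h1 G) (by rw [ev2_eq]; exact (map_ne_zero j).2 hG)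
  set v := cv f B s with hv
  obtain ⟨ω, c, l₁, P, g1, g2, g3, g4, g5, g6, g7⟩ := exists_level f hA0 hr hJ he hD
    (hs.cv f hr B) (h1 B) (by
      obtain ⟨κ, L, k1, k2⟩ := h2 B hB
      exact ⟨κ, L, k1, fun n hn => (k2 n hn).imp fun l h => ⟨h.1, h.2.2⟩⟩)
  have hK : ∀ G (δ : ℤ × ℤ), f (tz m δ.1) * cv f G s δ.2 ∈ Kh f := fun G δ =>
    mul_mem (mem_Kh f _) ((hs.cv f hr G).mem _)
  have lt : ∀ δ : ℤ × ℤ, (‖v δ.2‖ * ‖j ρ‖ ^ δ.2) ^ J < tr m (Wd e J δ) →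
      lam.comp (cv0 f v) (st m δ) = 0 := fun δ h => by
    rw [AddMonoidHom.comp_apply, cv0_st]
    refine hl.lt _ (hK B δ) ((pow_lt_one_iff_of_nonneg (norm_nonneg _) hJ.ne').1 ?_)
    rw [norm_pow_tz f hr he, tr_neg, ← div_eq_mul_inv]
    exact (div_lt_one (tr_pos _)).2 h
  have ld : ∀ G l, 0 < (‖cv f G s l‖ * ‖j ρ‖ ^ l) ^ J → ∃ h : ℤ,
      (‖cv f G s l‖ * ‖j ρ‖ ^ l) ^ J = tr m (Wd e J (h, l)) := fun G l h => by
    obtain ⟨i, hi, -⟩ := norm_Kh f ((hs.cv f hr G).mem l) fun h0 => by simp [h0, hJ.ne'] at h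
    have := norm_pow_tz f hr he (-i, l) (cv f G s l)
    rw [norm_mul, norm_tz, neg_neg, hi, ← tr_add, add_neg_cancel, tr_zero, one_pow, ← hi, tr_neg,
      ← div_eq_mul_inv, eq_comm, div_eq_one_iff_eq (tr_pos _).ne'] at this
    exact ⟨-i, this⟩
  have eq : ∀ G (δ : ℤ × ℤ), (‖cv f G s δ.2‖ * ‖j ρ‖ ^ δ.2) ^ J = tr m (Wd e J δ) →
      lam (cv0 f (cv f G s) (st m δ)) = hf := fun G δ h => by
    rw [cv0_st]
    refine hl.eq _ (hK G δ) ((pow_eq_one_iff_of_nonneg (norm_nonneg _) hJ.ne').1 ?_)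
    rw [norm_pow_tz f hr he, h, ← tr_add, add_neg_cancel, tr_zero]
  have far : ∀ δ, ω + c < Wd e J δ → lam.comp (cv0 f v) (st m δ) = 0 := fun δ h =>
    lt δ ((g3 _).trans_lt (tr_strictMono h))
  refine ⟨⟨lam.comp (cv0 f (Pi.single 0 1)), lam.comp (cv0 f v), ω, c, l₁, P, D,
    fun l => (‖v l‖ * ‖j ρ‖ ^ l) ^ J = tr m ω, fun η ξ h => ?_, hJ, hc, g2, g1, fun δ => ?_, far,
    fun δ h h' => lt δ ?_, fun δ h h' => lt δ (h' ▸ g5 _ h), fun δ _ h h' => eq B δ (h ▸ h'),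
    fun δ h h' h'' => lt δ (h' ▸ (g4 _ h).lt_of_ne h''), g6, fun l h => ?_, fun Q a h => ?_⟩⟩
  · rw [AddMonoidHom.comp_apply, AddMonoidHom.comp_apply, ← cv0_mul, h, cv0_mul, hs1]
  · rw [AddMonoidHom.comp_apply, cv0_st]
    by_cases h : δ.2 = 0
    · simp [h, hl.tz]
    · simp [h]
  · rcases le_abs.1 h with h | h
    · exact (g4 _ h).trans_lt (tr_strictMono h')
    · exact (g5 _ (by omega)).trans (tr_strictMono h')
  · obtain ⟨l', k1, k2, k3⟩ := g7 l h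
    obtain ⟨i, hi⟩ := ld B l' (k3 ▸ tr_pos _)
    exact ⟨(i, l'), k1, k2, tr_strictMono.injective (hi.symm.trans k3), k3⟩
  · set η := ∑ q ∈ range Q, a q • st m (q • (e, (J : ℤ))) with hη
    have hq : ∀ q : ℕ, st m (q • (e, (J : ℤ))) = st m (e, J) ^ q := fun q => by
      simp [st, mon_pow]
    obtain ⟨κ, L, k1, k2⟩ := h2 (η * B) (by
      rw [map_mul]
      refine mul_ne_zero (fun h' => h ?_) hB
      simpa only [hη, hq, map_sum, map_zsmul, map_pow, zsmul_eq_mul, map_mul, map_intCast] using h')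
    obtain ⟨V, hV⟩ := exists_tr_lt (m := m) ω (pow_pos k1 J)
    refine ⟨V, L, fun n hn => ?_⟩
    obtain ⟨l, k3, k4, k5⟩ := k2 n hn
    have k6 := pow_le_pow_left₀ k1.le k5 J
    obtain ⟨i, hi⟩ := ld _ l ((pow_pos k1 J).trans_le k6)
    have k7 : ∑ q ∈ range Q, a q • lam.comp (cv0 f v) (st m ((i, l) + q • (e, (J : ℤ)))) = hf := by
      rw [← eq _ (i, l) hi, ← cv0_mul, ← mul_assoc, cv0_mul, hη, mul_sum, map_sum, map_sum]
      simp only [st_add, mul_smul_comm, map_zsmul, AddMonoidHom.comp_apply, hv]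
    refine ⟨(i, l), k3, k4, (tr_strictMono.lt_iff_lt.1 (hV.trans_le (hi ▸ k6))).le,
      not_lt.1 fun h' => ?_, k7⟩
    rw [sum_eq_zero fun q _ => by rw [far _ (by rwa [Wd_add, Wd_U, add_zero]), smul_zero]] at k7
    have := congrArg ee k7
    rw [ee_zero, hf, ee_half] at this
    norm_num at this

end Pool.Agent.GK
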