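import Pool.Agent.Lib.MP_a01f70_lc.GK.TF
import Pool.Agent.Lib.MP_a01f70_lc.GK.PF
import Pool.Agent.Lib.MP_a01f70_lc.GK.PG

namespace Pool.Agent.GK
open Finset Polynomial

/-- D1 (a): a pole is a root of a monomial equation -/
theorem pole_mon {m : ℕ} [NeZero m] {A B : GR m ℤ} (h : Ddel A B) (hA0 : A ≠ 0) (ρ : ℂˣ)
    (hA : evC m ρ A = 0) (hB : evC m ρ B ≠ 0) :
    ∃ e J : ℤ, 0 < J ∧ evC m ρ (mon m (e, J)) = 1 := by
  obtain ⟨j⟩ := exists_C2
  have hρ : j ρ ≠ 0 := (map_ne_zero j).2 ρ.ne_zero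
  obtain ⟨e, J, hJ, hc, he⟩ := exists_slope (fj m j) hA0 hρ (by rw [ev2_eq, hA, map_zero])
  obtain ⟨R⟩ := exists_resp j hA0 ρ hA hB hJ hc he
  by_contra hn
  push Not at hn
  have h0 : evC m ρ (st m (e, J)) ≠ 0 := ((isUnit_mon _).map _).ne_zero
  have h1 : ‖j (evC m ρ (st m (e, J)))‖ = 1 := by
    have h2 := norm_tz (fj m j) e
    have h3 : j (evC m ρ (st m (e, J))) * j ρ ^ J = fj m j (tz m e) := by
      rw [st, evC_mon, ← map_pow, ← map_mul, mul_assoc, ← Units.val_pow_eq_pow_val,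
        ← Units.val_mul, ← zpow_natCast, ← zpow_add]
      simp [fj, coe_tz]
    rw [← h3, norm_mul, norm_pow, he] at h2
    exact mul_right_cancel₀ (tr_pos _).ne' (h2.trans (one_mul _).symm)
  refine R.false ⟨h0, alg_mon (alg_root hA0 ρ hA) _, fun n hn0 h2 => ?_, fun a n h2 => ?_⟩ h
  · refine hn (-(n * e)) (n * J) (by positivity) ?_
    have h3 := congrArg (evC m ρ) (mon_mul_neg (m := m) (n • (e, -(J : ℤ))))
    rw [map_mul, map_one, ← mon_pow, map_pow] at h3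
    rw [st] at h2
    rw [h2, one_mul] at h3
    simpa using h3
  · refine odd_of_norm ?_
    have h3 := congrArg (fun z => ‖j z‖) h2
    simp only [map_pow, map_zpow₀, norm_pow, norm_zpow, h1, one_zpow, map_intCast] at h3
    exact (pow_eq_one_iff_of_nonneg (norm_nonneg _) two_ne_zero).1 h3

end Pool.Agent.GK
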