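import Mathlib

namespace Pool.Agent.GK
open Finset

theorem d2b_base {i j : ℕ} (hi : 0 < i) (hij : i < j) (h : Nat.Coprime i j) :
    ∃ (P : ℕ) (S : Finset ℕ), 0 < P ∧ 2 * S.card < P ∧
      ∀ k, j ≤ k → k % P ∈ S ∨ (k - i) % P ∈ S ∨ (k - j) % P ∈ S := by
  by_cases h4 : i + j = 4
  · refine ⟨5, {0, 1}, by norm_num, by decide, fun k hk => ?_⟩
    simp only [mem_insert, mem_singleton]
    omega
  obtain ⟨q, hq⟩ : ∃ q, q = i + j := ⟨_, rfl⟩
  have : NeZero q := ⟨by omega⟩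
  obtain ⟨u, hu⟩ := ((ZMod.isUnit_iff_coprime i q).2
    (hq ▸ Nat.coprime_self_add_right.2 h)).exists_right_inv
  have hj : (j : ZMod q) = -i := by
    rw [eq_neg_iff_add_eq_zero, ← Nat.cast_add, add_comm, ← hq, ZMod.natCast_self]
  refine ⟨q, (range ((q + 2) / 3)).image fun s : ℕ => ((i : ZMod q) * (3 * s + 1)).val, by omega,
    ?_, fun k hk => ?_⟩
  · have h1 := card_image_le (s := range ((q + 2) / 3))
      (f := fun s : ℕ => ((i : ZMod q) * (3 * s + 1)).val)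
    rw [card_range] at h1
    omega
  · have h1 := ZMod.val_lt (u * (k : ZMod q))
    have h2 : (k : ZMod q) = i * ((u * k).val : ℕ) := by
      rw [ZMod.natCast_zmod_val, ← mul_assoc, hu, one_mul]
    generalize (u * k).val = v at h1 h2
    have h3 : ∀ l : ℕ, (l : ZMod q) = i * (3 * (v / 3 : ℕ) + 1) →
        l % q ∈ (range ((q + 2) / 3)).image fun s : ℕ => ((i : ZMod q) * (3 * s + 1)).val :=
      fun l hl => mem_image.2 ⟨v / 3, mem_range.2 (by omega), by rw [← hl, ZMod.val_natCast]⟩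
    rw [← Nat.div_add_mod v 3] at h2
    rcases (by omega : v % 3 = 1 ∨ v % 3 = 2 ∨ v % 3 = 0) with e | e | e <;> rw [e] at h2 <;>
      push_cast at h2
    · exact Or.inl (h3 _ h2)
    · exact Or.inr (Or.inl (h3 _ (by rw [Nat.cast_sub (by omega), h2]; ring)))
    · exact Or.inr (Or.inr (h3 _ (by rw [Nat.cast_sub hk, h2, hj]; ring)))

/-- A periodic set of density `< 1 / 2` whose translates by `0, i, j` cover everything.
Proof: `g = gcd i j`, `i = g i₁`, `j = g j₁`, `q = i₁ + j₁ ≥ 3`. In `ZMod q` we have `j₁ = -i₁` and `i₁` is a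
unit, so `S₁ = {i₁ * (3 s + 1) | 3 s < q}` has `S₁ + {0, i₁, -i₁} = everything` and
`2 * card S₁ ≤ 2 * ((q + 2) / 3) < q` unless `q = 4`. If `q = 4` then `i₁ = 1`, `j₁ = 3`: use `S₁ = {0, 1}`
in `ZMod 5`. Take `P = g * q` (or `g * 5`) and `S = {l < P | ((l / g : ℕ) : ZMod q) ∈ S₁}`;
`(k - i) / g = k / g - i₁`. -/
theorem cover {i j : ℕ} (hi : 0 < i) (hij : i < j) :
    ∃ (P : ℕ) (S : Finset ℕ), 0 < P ∧ 2 * S.card < P ∧
      ∀ k, j ≤ k → k % P ∈ S ∨ (k - i) % P ∈ S ∨ (k - j) % P ∈ S := by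
  obtain ⟨g, i₁, j₁, hg, hc, rfl, rfl⟩ := Nat.exists_coprime' (Nat.gcd_pos_of_pos_left j hi)
  obtain ⟨q, S, hq, hS, H⟩ := d2b_base (Nat.pos_of_mul_pos_right hi)
    (lt_of_mul_lt_mul_right hij hg.le) hc
  refine ⟨g * q, (range (g * q)).filter fun l => l / g ∈ S, Nat.mul_pos hg hq, ?_,
    fun k hk => ?_⟩
  · have h1 : ((range (g * q)).filter fun l => l / g ∈ S).card ≤ (range g ×ˢ S).card := by
      refine card_le_card_of_injOn (fun l => (l % g, l / g)) (fun l hl => ?_) fun l _ l' _ e => ?_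
      · exact mem_coe.2 (mem_product.2
          ⟨mem_range.2 (Nat.mod_lt _ hg), (mem_filter.1 (mem_coe.1 hl)).2⟩)
      · obtain ⟨e1, e2⟩ := Prod.mk.inj e
        rw [← Nat.div_add_mod l g, ← Nat.div_add_mod l' g, e1, e2]
    rw [card_product, card_range] at h1
    nlinarith
  · have h1 : ∀ l, l / g % q ∈ S → l % (g * q) ∈ (range (g * q)).filter fun l => l / g ∈ S :=
      fun l hl => mem_filter.2 ⟨mem_range.2 (Nat.mod_lt _ (Nat.mul_pos hg hq)), by
        rwa [Nat.mod_mul_right_div_self]⟩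
    refine (H (k / g) ((Nat.le_div_iff_mul_le hg).2 hk)).imp (h1 _) (Or.imp ?_ ?_) <;>
      exact fun h => h1 _ (by rwa [mul_comm, Nat.sub_mul_div])

theorem card_mod_le {P : ℕ} (hP : 0 < P) (S : Finset ℕ) (N : ℕ) :
    #{l ∈ range (P * N) | l % P ∈ S} ≤ N * S.card := by
  rw [← card_range N, ← card_product, card_range]
  refine card_le_card_of_injOn (fun l => (l / P, l % P)) (fun l hl => ?_) fun l _ l' _ e => ?_
  · obtain ⟨h1, h2⟩ := mem_filter.1 (mem_coe.1 hl)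
    exact mem_coe.2 (mem_product.2 ⟨mem_range.2 (Nat.div_lt_of_lt_mul (mem_range.1 h1)), h2⟩)
  · obtain ⟨e1, e2⟩ := Prod.mk.inj e
    rw [← Nat.div_add_mod l P, ← Nat.div_add_mod l' P, e1, e2]

end Pool.Agent.GK
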