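import Pool.Agent.Lib.MP_a01f70_lc.GK.D2a
import Pool.Agent.Lib.MP_a01f70_lc.GK.D2b

namespace Pool.Agent.GK
open Finset Polynomial Filter

theorem d2c_ev {l s : ℕ} (c : ℕ → ℝ) (hs : s ≤ l) (hc : 0 < c s) (h : ∀ t < s, c t = 0) :
    ∀ᶠ M : ℝ in atTop, 0 < ∑ t ∈ range (l + 1), c t * M ^ (l - t) := by
  refine ev_pos _ c (fun t => l - t) (mem_range.2 (by omega)) hc fun t ht hts => ?_
  rw [mem_range] at ht
  rcases lt_or_gt_of_ne hts with h1 | h1
  · exact Or.inl (h t h1)
  · exact Or.inr (by omega)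

/-- The constant is positive. Otherwise fix `T > 2 C`, take `P l = M ^ l` in `SM.fwd` with `M > 0` large
(`ev_pos` for each `l < T`, `Finset.eventually_all`): all `T` responses are negative. -/
theorem SM.const_pos {a b : ℝ[X]} (h : SM a b) {D : PowerSeries ℝ}
    (hD : (a : PowerSeries ℝ) * D = b) (h0 : PowerSeries.coeff 0 D ≠ 0) :
    0 < PowerSeries.coeff 0 D := by
  by_contra hn
  have hneg : PowerSeries.coeff 0 D < 0 := lt_of_le_of_ne (not_lt.1 hn) h0
  obtain ⟨C, hC⟩ := h.fwd hD
  obtain ⟨T, hT⟩ := exists_nat_gt (2 * C)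
  have hev : ∀ᶠ M : ℝ in atTop, ∀ l ∈ range T,
      0 < ∑ t ∈ range (l + 1), -PowerSeries.coeff t D * M ^ (l - t) :=
    (Finset.eventually_all _).2 fun l _ => d2c_ev (s := 0) (fun t => -PowerSeries.coeff t D)
      (Nat.zero_le l) (by linarith) fun t ht => absurd ht (Nat.not_lt_zero t)
  obtain ⟨M, hM, hM0⟩ := (hev.and (eventually_gt_atTop 0)).exists
  have h1 := hC (fun l => M ^ l) T
  rw [filter_true_of_mem, filter_false_of_mem] at h1
  · simp only [card_range, card_empty, Nat.cast_zero] at h1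
    linarith
  · exact fun l _ => not_lt.2 (pow_pos hM0 l).le
  · intro l hl
    have := hM l hl
    simp only [neg_mul, sum_neg_distrib] at this
    linarith

/-- The first three nonzero coefficients are not all positive. Take `P, S` from `cover`, `T = P * N`, and the
source `l ↦ if l % P ∈ S then -M ^ l else 0` in `SM.fwd`. For `j ≤ l < T` the least `s` with
`coeff s D ≠ 0` and `(l - s) % P ∈ S` lies in `{0, i, j}`, so the response is negative (`ev_pos`).
So `P N - j - N * card S ≤ P N / 2 + C` for all `N`, false. -/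
theorem SM.three {a b : ℝ[X]} (h : SM a b) {D : PowerSeries ℝ}
    (hD : (a : PowerSeries ℝ) * D = b) {i j : ℕ} (hi : 0 < i) (hij : i < j)
    (h0 : 0 < PowerSeries.coeff 0 D) (h1 : 0 < PowerSeries.coeff i D)
    (h2 : 0 < PowerSeries.coeff j D)
    (hz : ∀ l, 0 < l → l < j → l ≠ i → PowerSeries.coeff l D = 0) : False := by
  obtain ⟨C, hC⟩ := h.fwd hD
  obtain ⟨P, S, hP, hS, hcov⟩ := cover hi hij
  obtain ⟨N, hN⟩ := exists_nat_gt (2 * (C + j))
  have hev : ∀ᶠ M : ℝ in atTop, ∀ l ∈ Ico j (P * N), 0 < ∑ t ∈ range (l + 1),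
      (if (l - t) % P ∈ S then PowerSeries.coeff t D else 0) * M ^ (l - t) := by
    refine (Finset.eventually_all _).2 fun l hl => ?_
    have hl' := (mem_Ico.1 hl).1
    by_cases c0 : l % P ∈ S
    · exact d2c_ev (s := 0) _ (Nat.zero_le l) (by simpa [c0] using h0)
        fun t ht => absurd ht (Nat.not_lt_zero t)
    by_cases c1 : (l - i) % P ∈ S
    · refine d2c_ev (s := i) _ (by omega) (by simpa [c1] using h1) fun t ht => ?_
      rcases Nat.eq_zero_or_pos t with rfl | ht0
      · simp [c0]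
      · simp [hz t ht0 (by omega) (by omega)]
    have c2 : (l - j) % P ∈ S := ((hcov l hl').resolve_left c0).resolve_left c1
    refine d2c_ev (s := j) _ hl' (by simpa [c2] using h2) fun t ht => ?_
    rcases Nat.eq_zero_or_pos t with rfl | ht0
    · simp [c0]
    by_cases hti : t = i
    · simp [hti, c1]
    · simp [hz t ht0 ht hti]
  obtain ⟨M, hM⟩ := hev.exists
  have h3 := hC (fun l => if l % P ∈ S then -M ^ l else 0) (P * N)
  have h4 : (Ico j (P * N)).card ≤ #{l ∈ range (P * N) | ∑ t ∈ range (l + 1),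
      PowerSeries.coeff t D * (if (l - t) % P ∈ S then -M ^ (l - t) else 0) < 0} := by
    refine card_le_card fun l hl => mem_filter.2 ⟨mem_range.2 (mem_Ico.1 hl).2, ?_⟩
    have h5 := hM l hl
    have h6 : ∑ t ∈ range (l + 1),
        PowerSeries.coeff t D * (if (l - t) % P ∈ S then -M ^ (l - t) else 0) =
        -∑ t ∈ range (l + 1),
          (if (l - t) % P ∈ S then PowerSeries.coeff t D else 0) * M ^ (l - t) := by
      rw [← sum_neg_distrib]
      refine sum_congr rfl fun t _ => ?_
      split_ifs <;> ring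
    rw [h6]
    linarith
  have h5 : #{l ∈ range (P * N) | (if l % P ∈ S then -M ^ l else 0) < 0} ≤ N * S.card := by
    refine le_trans (card_le_card fun l hl => ?_) (card_mod_le hP S N)
    rw [mem_filter] at hl ⊢
    refine ⟨hl.1, by_contra fun hc => ?_⟩
    simpa [hc] using hl.2
  have h6 : P * N ≤ (Ico j (P * N)).card + j := by
    rw [Nat.card_Ico]
    omega
  have h7 : (2 * S.card + 1) * N ≤ P * N := Nat.mul_le_mul_right N hS
  have h4' := (Nat.cast_le (α := ℝ)).2 h4
  have h5' := (Nat.cast_le (α := ℝ)).2 h5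
  have h6' := (Nat.cast_le (α := ℝ)).2 h6
  have h7' := (Nat.cast_le (α := ℝ)).2 h7
  push_cast at h3 h5' h6' h7'
  linarith

end Pool.Agent.GK
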