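import Mathlib

/-!
Definitions for the classification of almost bent exponents up to boundedly many classes.
-/

namespace Pool.Agent.GK
open Finset Polynomial

/-! ### The circle -/

/-- the circle `ℝ / ℤ` -/
abbrev Tc := UnitAddCircle

/-- representative in `[0, 1)` -/
noncomputable def fr (x : Tc) : ℝ := (AddCircle.equivIco 1 0 x).1

/-- representative in `(0, 1]` -/
noncomputable def rp (x : Tc) : ℝ := 1 - fr (-x)

/-- leading binary digit -/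
noncomputable def dig (x : Tc) : ℝ := if 1 / 2 ≤ fr x then 1 else 0

/-- leading binary digit, counted only away from the right end point -/
noncomputable def dgr (κ : ℝ) (x : Tc) : ℝ := if 1 / 2 ≤ fr x ∧ fr x < 1 - κ then 1 else 0

open Classical in
/-- leading binary digit of `x` plus an infinitesimal multiple of `s` (for `x` of odd order) -/
noncomputable def sdig (x : Tc) (s : ℝ) : ℝ := if x = 0 then (if s < 0 then 1 else 0) else dig x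

/-- `e(x) = exp (2 π i x)` -/
noncomputable def ee (x : Tc) : ℂ := (AddCircle.toCircle x : ℂ)

/-- a trigonometric polynomial `S` close to the square wave `2 dig - 1` -/
structure Trig (μ : ℝ) where
  M : ℕ
  S : Tc → ℝ
  σ : ℤ → ℝ
  q : ℤ → ℝ
  one_le : 1 ≤ M
  S_eq : ∀ x, (S x : ℂ) = ∑ a ∈ Icc (-(2 * M : ℤ)) (2 * M), Complex.I * σ a * ee (a • x)
  sq_eq : ∀ x, (S x : ℂ) ^ 2 = ∑ a ∈ Icc (-(2 * M : ℤ)) (2 * M), q a * ee (a • x)
  σ_neg : ∀ a, σ (-a) = -σ a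
  σ_even : ∀ a, Even a → σ a = 0
  σ_le : ∀ a, a ≠ 0 → |σ a| ≤ 2 / (Real.pi * |(a : ℝ)|)
  σ_one : 2 / Real.pi - μ ≤ σ 1
  q_neg : ∀ a, q (-a) = q a
  q_odd : ∀ a, Odd a → q a = 0
  q_zero : 1 - μ ≤ q 0
  q_le : ∀ a, a ≠ 0 → |q a| ≤ μ
  abs_le : ∀ x, |S x| ≤ 1
  sign : ∀ x, 0 ≤ (2 * dig x - 1) * S x

/-- the minorant `(S ^ 2 + S) / 2` of `dig` -/
noncomputable def Trig.ψ {μ : ℝ} (t : Trig μ) (x : Tc) : ℝ := (t.S x ^ 2 + t.S x) / 2

/-! ### Residues modulo `2 ^ n - 1` -/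

/-- `k ↦ k / N` -/
noncomputable def cc (N : ℕ) : ZMod N →+ Tc :=
  ZMod.lift N ⟨zmultiplesHom Tc (((N : ℝ)⁻¹ : ℝ) : Tc), by
    rw [zmultiplesHom_apply, ← AddCircle.coe_zsmul]
    rcases Nat.eq_zero_or_pos N with h | h
    · simp [h]
    · have : ((N : ℤ) • ((N : ℝ)⁻¹) : ℝ) = 1 := by
        rw [zsmul_eq_mul]
        push_cast
        exact mul_inv_cancel₀ (by exact_mod_cast h.ne')
      rw [this]
      exact AddCircle.coe_period 1⟩

/-- binary weight of the representative of `x` in `[1, 2 ^ n - 1]` -/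
noncomputable def W (n : ℕ) (x : ZMod (2 ^ n - 1)) : ℝ :=
  ∑ j ∈ range n, rp (cc (2 ^ n - 1) (2 ^ j * x))

/-- `x` is a signed sum of at most `k` powers of two -/
def Wt {R : Type} [CommRing R] (k : ℕ) (x : R) : Prop :=
  ∃ P Q : Multiset ℕ, P.card + Q.card ≤ k ∧ x = (P.map (2 ^ ·)).sum - (Q.map (2 ^ ·)).sum

/-- the divisibility criterion, with multisets of exponents -/
def Dn (n d : ℕ) : Prop :=
  ∀ P Q : Multiset ℕ, 0 < P.card + Q.card →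
    (2 ^ n - 1) ∣ d * (P.map (2 ^ ·)).sum + (Q.map (2 ^ ·)).sum → n < 2 * (P.card + Q.card)

/-- the divisibility criterion, with weights -/
def Dv (n d : ℕ) : Prop :=
  ∀ x : ZMod (2 ^ n - 1), (n : ℝ) / 2 ≤ W n x + W n (-((d : ZMod (2 ^ n - 1)) * x))

/-- what is used about an almost bent exponent that is neither Gold nor Kasami -/
structure Good (n d : ℕ) : Prop where
  dn : Dn n d
  dv : Dv n d
  unit : IsUnit (d : ZMod (2 ^ n - 1))
  nq : ∀ a b i : ℕ, (d : ZMod (2 ^ n - 1)) * (2 ^ b + 1) ≠ 2 ^ i * (2 ^ a + 1)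
  nl : ∀ g j : ℕ, 0 < g → 16 * g ^ 2 ≤ 2 ^ n →
    (g : ZMod (2 ^ n - 1)) * ((d : ZMod (2 ^ n - 1)) - 2 ^ j) ≠ 0

/-! ### The ring `ℤ[t, 1/t]` with `t ^ m = 2` and its group rings -/

/-- `t ^ e = 2 ^ (e / m)` -/
noncomputable def tr (m : ℕ) (e : ℤ) : ℝ := (2 : ℝ) ^ ((e : ℝ) / m)

/-- the ring generated by the numbers `2 ^ (e / m)` -/
def O (m : ℕ) : Subring ℝ := Subring.closure (Set.range (tr m))

/-- `t ^ e` as an element of `O m` -/
noncomputable def tz (m : ℕ) (e : ℤ) : O m := ⟨tr m e, Subring.subset_closure ⟨e, rfl⟩⟩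

/-- the field generated by the numbers `2 ^ (e / m)` -/
noncomputable def KK (m : ℕ) : Subfield ℝ := Subfield.closure (Set.range (tr m))

/-- integer combinations of the `t ^ f` with `e ≤ f` -/
def Fil (m : ℕ) (e : ℤ) : AddSubgroup (O m) := AddSubgroup.closure (tz m '' Set.Ici e)

open Classical in
/-- the additive map on `O m` with prescribed values on the `t ^ e` (if there is one) -/
noncomputable def chO (m : ℕ) {S : Type} [AddCommGroup S] (θ : ℤ → S) : O m →+ S :=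
  if h : ∃ Z : O m →+ S, ∀ e, Z (tz m e) = θ e then h.choose else 0

/-- the coordinate of `1` in the basis `1, t, …, t ^ (m - 1)` -/
noncomputable def co0 (m : ℕ) : O m →+ ℚ :=
  chO m fun e => if (m : ℤ) ∣ e then (2 : ℚ) ^ (e / m) else 0

/-- the coordinate of `1` modulo `2 ^ D - 1` -/
noncomputable def torZ (m D : ℕ) : O m →+ ZMod (2 ^ D - 1) :=
  chO m fun e => if (m : ℤ) ∣ e then 2 ^ ((e / m : ℤ) : ZMod D).val else 0

/-- the coordinate of `1` divided by `2 ^ D - 1`, on the circle -/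
noncomputable def tor (m D : ℕ) : O m →+ Tc := (cc (2 ^ D - 1)).comp (torZ m D)

/-- number of binary digits of `r` modulo `2 ^ D - 1`, over all coordinates -/
noncomputable def wtD (m D : ℕ) (r : O m) : ℝ :=
  ∑ e ∈ range (m * D), dig (tor m D (tz m e * r))

/-- group ring over `O m` -/
abbrev GR (m : ℕ) (Λ : Type) := AddMonoidAlgebra (O m) Λ

/-- the monomial `t ^ e u ^ v` -/
noncomputable def mon (m : ℕ) {Λ : Type} (γ : ℤ × Λ) : GR m Λ :=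
  AddMonoidAlgebra.single γ.2 (tz m γ.1)

open Classical in
/-- the additive map on `GR m Λ` with prescribed values on the monomials (if there is one) -/
noncomputable def chG (m : ℕ) {Λ S : Type} [AddCommGroup S] (θ : ℤ × Λ → S) : GR m Λ →+ S :=
  if h : ∃ Z : GR m Λ →+ S, ∀ γ, Z (mon m γ) = θ γ then h.choose else 0

/-- the additive map `f ↦ ∑ l, ω l (f l)` -/
noncomputable def lines {m : ℕ} {Λ S : Type} [AddCommGroup S] (ω : Λ → O m →+ S) :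
    GR m Λ →+ S :=
  (Finsupp.liftAddHom ω).comp AddMonoidAlgebra.coeffAddEquiv.toAddMonoidHom

/-- specialisation of the group -/
noncomputable def spec (m : ℕ) {Λ Λ' : Type} [AddCommGroup Λ] [AddCommGroup Λ'] (φ : Λ →+ Λ') :
    GR m Λ →+* GR m Λ' :=
  AddMonoidAlgebra.mapDomainRingHom (O m) φ

/-- the divisibility criterion in the limit -/
def DD {m : ℕ} {Λ : Type} [AddCommGroup Λ] (A B : GR m Λ) : Prop :=
  ∀ (G : Type) [AddCommGroup G] [Fintype G] (π : ℤ × Λ →+ G) (Z : G → GR m Λ →+ Tc),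
    (∀ g γ f, Z g (mon m γ * f) = Z (g + π γ) f) →
      (Fintype.card G : ℝ) / 2 ≤ ∑ g, (rp (Z g A) + rp (-Z g B))

/-! ### The limit along an ultrafilter -/

/-- an asymptotically free action of `ℤ × ℤ ^ r` on the cycles `ZMod (n i)` -/
structure Lim (U : Ultrafilter ℕ) (n : ℕ → ℕ) (m r : ℕ) where
  Φ : ∀ i, ℤ × (Fin r → ℤ) →+ ZMod (n i)
  ev : ∀ i, GR m (Fin r → ℤ) →+* ZMod (2 ^ n i - 1)
  two : ∀ i, 2 ≤ n i
  odd : ∀ i, Odd (n i)
  rough : ∀ c : ℕ, 0 < c → ∀ᶠ i in U, Nat.Coprime c (n i)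
  sig : ∀ i, Φ i ((m : ℤ), 0) = 1
  ev_mon : ∀ i γ, ev i (mon m γ) = 2 ^ (Φ i γ).val
  inj : ∀ γ, γ ≠ 0 → ∀ᶠ i in U, Φ i γ ≠ 0

/-- `e i` has additive order `2 ^ o(n i)` -/
def Small (U : Ultrafilter ℕ) (n : ℕ → ℕ) (e : ∀ i, ZMod (2 ^ n i - 1)) : Prop :=
  ∀ ε : ℝ, 0 < ε → ∀ᶠ i in U, ∃ g : ℕ, 0 < g ∧ (g : ℝ) ≤ 2 ^ (ε * n i) ∧
    (g : ZMod (2 ^ n i - 1)) * e i = 0

/-! ### Rank one -/

/-- `(X, Y)` is of the form `(Z (A ·), Z (B ·))` -/
def Valid {m : ℕ} {S : Type} [AddCommGroup S] (A B : GR m ℤ) (X Y : GR m ℤ →+ S) : Prop :=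
  ∀ η ξ, η * B = ξ * A → Y η = X ξ

/-- the criterion on boxes of `T` lines and `m * H` sites per line -/
def Dinf {m : ℕ} (A B : GR m ℤ) : Prop :=
  ∃ C₁ : ℝ, ∀ T : ℕ, ∃ C : ℝ, ∀ (H : ℕ) (X Y : GR m ℤ →+ Tc), Valid A B X Y →
    ∑ l ∈ range T, ∑ e ∈ range (m * H),
      (dgr (C * tr m e / 2 ^ H) (Y (mon m ((e : ℤ), -(l : ℤ)))) - dig (X (mon m ((e : ℤ), -(l : ℤ)))))
        ≤ m * H * T / 2 + C₁ * H + C

/-- the criterion for a minorant of the digit that vanishes at `0` -/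
def Dpsi {m : ℕ} (A B : GR m ℤ) : Prop :=
  ∃ C₁ : ℝ, ∀ (T : ℕ) (ψ : Tc → ℝ) (Lp : ℝ), (∀ x, ψ x ≤ dig x) → (∀ x, ψ x ≤ Lp * ‖x‖) →
    ∃ C : ℝ, ∀ (H : ℕ) (X Y : GR m ℤ →+ Tc), Valid A B X Y →
      ∑ l ∈ range T, ∑ e ∈ range (m * H),
        (ψ (Y (mon m ((e : ℤ), -(l : ℤ)))) - dig (X (mon m ((e : ℤ), -(l : ℤ)))))
          ≤ m * H * T / 2 + C₁ * H + C

/-- the criterion for a response that vanishes above the box -/
def Ddel {m : ℕ} (A B : GR m ℤ) : Prop :=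
  ∃ C₁ : ℝ, ∀ T : ℕ, ∃ C : ℝ, ∀ (H : ℕ) (X Y : GR m ℤ →+ Tc), Valid A B X Y →
    (∀ l : ℕ, l < T → ∀ e : ℤ, (m * H : ℕ) ≤ e → Y (mon m (e, -(l : ℤ))) = 0) →
    ∑ l ∈ range T, ∑ e ∈ range (m * H),
      (dig (Y (mon m ((e : ℤ), -(l : ℤ)))) - dig (X (mon m ((e : ℤ), -(l : ℤ)))))
        ≤ m * H * T / 2 + C₁ * H + C

/-- a polynomial over `O m` as an element of the group ring -/
noncomputable def pl {m : ℕ} : (O m)[X] →+* GR m ℤ := Polynomial.toLaurent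

/-- a polynomial over `O m` as a real polynomial -/
noncomputable def rl {m : ℕ} (a : (O m)[X]) : ℝ[X] := a.map (O m).subtype

/-- evaluation at `t = 2 ^ (1 / m)`, `u = ρ` -/
noncomputable def evC (m : ℕ) (ρ : ℂˣ) : GR m ℤ →+* ℂ :=
  AddMonoidAlgebra.liftNCRingHom (Complex.ofRealHom.comp (O m).subtype)
    ((Units.coeHom ℂ).comp (zpowersHom ℂˣ ρ)) fun _ _ => Commute.all _ _

/-- convolution of a polynomial with a sequence -/
noncomputable def act (a : ℝ[X]) (y : ℤ → ℝ) (k : ℤ) : ℝ := a.sum fun j c => c * y (k - j)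

/-- the sign model -/
def SM (a b : ℝ[X]) : Prop :=
  ∃ C : ℝ, ∀ x y : ℤ → ℝ, act a y = act b x → ∀ T : ℕ,
    (#{l ∈ range T | y (l : ℕ) < 0} : ℝ) - #{l ∈ range T | x (l : ℕ) < 0} ≤ T / 2 + C

/-- periodic characters on a background of signs -/
def TL {m : ℕ} (a b : (O m)[X]) : Prop :=
  ∃ C₁ : ℝ, ∀ D : ℕ, 0 < D → ∀ X Y : GR m ℤ →+ Tc, Valid (pl a) (pl b) X Y →
    (∀ f, (2 ^ D - 1) • X f = 0) → (∀ f, (2 ^ D - 1) • Y f = 0) →
    ∀ x y : ℤ → ℝ, act (rl a) y = act (rl b) x → ∀ T : ℕ,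
      ∑ l ∈ range T, ∑ e ∈ range (m * D),
        (sdig (Y (mon m ((e : ℤ), -(l : ℤ)))) (y l) - sdig (X (mon m ((e : ℤ), -(l : ℤ)))) (x l))
          ≤ m * D * T / 2 + C₁ * D

/-- a reduced fraction `b / a` -/
structure Red {m : ℕ} (a b : (O m)[X]) : Prop where
  cop : IsCoprime (rl a) (rl b)
  a0 : a.coeff 0 ≠ 0
  b0 : b.coeff 0 ≠ 0

/-- `a` divides `1 + c X ^ k` -/
def Bin (a : ℝ[X]) (c : ℝ) (k : ℕ) : Prop := 0 < c ∧ 0 < k ∧ a ∣ 1 + C c * X ^ k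

/-- `a` is not constant, divides `1 + c X ^ k`, and `k` is minimal -/
def BinMin (a : ℝ[X]) (c : ℝ) (k : ℕ) : Prop :=
  0 < a.natDegree ∧ Bin a c k ∧ ∀ c' k', Bin a c' k' → k ≤ k'

/-- the possible fractions `b / a`, up to exchanging `a` and `b` -/
def Shape (a b : ℝ[X]) : Prop :=
  0 < b.coeff 0 / a.coeff 0 ∧
  ((a.natDegree = 0 ∧ b.natDegree = 0) ∨
   (∃ c k, BinMin a c k ∧ a = C (a.coeff 0) * (1 + C c * X ^ k) ∧ b.natDegree = 0) ∨
   (∃ c c' k, BinMin a c k ∧ BinMin b c' k ∧ a = C (a.coeff 0) * (1 + C c * X ^ k) ∧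
      b = C (b.coeff 0) * (1 + C c' * X ^ k)) ∨
   (∃ c k c' k', BinMin a c k ∧ 0 < c' ∧ 0 < k' ∧ k' < k ∧
      C (a.coeff 0) * b * (1 + C c * X ^ k) = C (b.coeff 0) * a * (1 + C c' * X ^ k')))

/-- `B / A` is a constant times a monomial -/
def FormF {m : ℕ} {Λ : Type} [AddCommGroup Λ] (A B : GR m Λ) : Prop :=
  ∃ (p q : O m) (v : Λ), 0 < (p : ℝ) ∧ 0 < (q : ℝ) ∧
    A * AddMonoidAlgebra.single v p = B * AddMonoidAlgebra.single 0 q

/-- `B / A` is a quotient of two sums of two monomials -/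
def FormQ {m : ℕ} {Λ : Type} [AddCommGroup Λ] (A B : GR m Λ) : Prop :=
  ∃ γ₁ γ₂ γ₃ γ₄ : ℤ × Λ, A * (mon m γ₁ + mon m γ₂) = B * (mon m γ₃ + mon m γ₄)

/-! ### The exceptional exponents -/

/-- `∑ 2 ^ (τ e)` over `e ∈ P` minus the same sum over `Q` -/
def sv (τ : ℕ) (P Q : Multiset ℕ) : ℤ :=
  (P.map fun e => (2 : ℤ) ^ (τ * e)).sum - (Q.map fun e => (2 : ℤ) ^ (τ * e)).sum

/-- `d` is a power of two times a quotient of two bounded polynomials in an `m`-th root of two -/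
def Str (C n d : ℕ) : Prop :=
  ∃ (m τ j : ℕ) (P Q P' Q' : Multiset ℕ), 0 < m ∧ m ≤ C ∧ τ < n ∧ m * τ ≡ 1 [MOD n] ∧
    (P + Q + P' + Q').card ≤ C ∧ (∀ e ∈ P + Q + P' + Q', e ≤ C) ∧
    Int.gcd (sv τ P' Q') (2 ^ n - 1) = 1 ∧
    d * sv τ P' Q' ≡ 2 ^ j * sv τ P Q [ZMOD 2 ^ n - 1]

end Pool.Agent.GK
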