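import Pool.Agent.Lib.MP_a01f70_lc.GK.DDb

namespace Pool.Agent.GK
open Finset Polynomial

variable {m : ℕ}

theorem dinf_tele (f : ℕ → ℝ) (m N : ℕ) :
    ∑ e ∈ range N, (f (e + m) - f e) = ∑ e ∈ range m, (f (N + e) - f e) := by
  have h1 := sum_range_add f m N
  have h2 := sum_range_add f N m
  rw [add_comm N m] at h2
  simp only [sum_sub_distrib]
  have h3 : ∑ e ∈ range N, f (e + m) = ∑ e ∈ range N, f (m + e) :=
    sum_congr rfl fun e _ => by rw [add_comm]
  linarith

theorem dinf_tele_le {f : ℕ → ℝ} (h0 : ∀ e, 0 ≤ f e) (h1 : ∀ e, f e ≤ 1) (m N : ℕ) :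
    |∑ e ∈ range N, (f (e + m) - f e)| ≤ m := by
  rw [dinf_tele]
  refine (abs_sum_le_sum_abs _ _).trans ?_
  have : ∀ e ∈ range m, |f (N + e) - f e| ≤ 1 := fun e _ => by
    rw [abs_le]
    constructor <;> linarith [h0 e, h1 e, h0 (N + e), h1 (N + e)]
  simpa using sum_le_sum this

theorem dinf_sum_tr [NeZero m] (H : ℕ) : ∑ e ∈ range (m * H), tr m e ≤ 2 * m * 2 ^ H := by
  have h := dinf_tele (fun e => tr m e) m (m * H)
  have h1 : ∀ e : ℕ, tr m ((e + m : ℕ) : ℤ) - tr m e = tr m e := fun e => by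
    push_cast
    rw [tr_add, tr_m]
    ring
  simp only [h1] at h
  rw [h]
  have h2 : ∀ e ∈ range m, tr m ((m * H + e : ℕ) : ℤ) - tr m e ≤ 2 * 2 ^ H := fun e he => by
    have h3 : tr m e ≤ 2 := by
      rw [← tr_m (m := m)]
      exact tr_strictMono.monotone (by exact_mod_cast (mem_range.mp he).le)
    push_cast
    rw [tr_add, tr_mul_m, zpow_natCast]
    have := tr_pos (m := m) e
    have h4 : (0 : ℝ) < 2 ^ H := by positivity
    nlinarith
  have := sum_le_sum h2
  simp only [sum_const, card_range, nsmul_eq_mul] at this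
  linarith

/-- representatives against digits, upper bound -/
theorem dinf_sum_fr {x : ℕ → Tc} (h : ∀ e, x (e + m) = 2 • x e) (N : ℕ) :
    ∑ e ∈ range N, fr (x e) ≤ ∑ e ∈ range N, dig (x e) + m := by
  have h1 := dinf_tele_le (f := fun e => fr (x e)) (fun e => fr_nonneg _)
    (fun e => (fr_lt_one _).le) m N
  have h2 : ∀ e, fr (x (e + m)) - fr (x e) = fr (x e) - dig (x e) := fun e => by
    rw [h, ← two_fr]
    ring
  simp only [h2, sum_sub_distrib] at h1
  linarith [(abs_le.mp h1).2]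

/-- representatives against digits, lower bound after a perturbation -/
theorem dinf_sum_dgr {y : ℕ → Tc} (h : ∀ e, y (e + m) = 2 • y e) {κ δ : ℕ → ℝ}
    (hκ : ∀ e, κ (e + m) = 2 * κ e) (hδ : ∀ e, |δ e| ≤ κ e) (N : ℕ) :
    ∑ e ∈ range N, dgr (κ e) (y e) ≤
      ∑ e ∈ range N, fr (y e + (δ e : Tc)) + ∑ e ∈ range N, κ e + m := by
  let F : ℕ → ℝ := fun e => if fr (y e) < 1 - κ e then fr (y e) else 0
  have F0 : ∀ e, 0 ≤ F e := fun e => by
    simp only [F]
    split_ifs
    exacts [fr_nonneg _, le_rfl]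
  have Ffr : ∀ e, F e ≤ fr (y e) := fun e => by
    simp only [F]
    split_ifs
    exacts [le_rfl, fr_nonneg _]
  have h1 := dinf_tele_le F0 (fun e => (Ffr e).trans (fr_lt_one _).le) m N
  have h2 : ∀ e, dgr (κ e) (y e) ≤ F e - (F (e + m) - F e) := fun e => by
    have h3 := two_fr (y e)
    rw [← h] at h3
    by_cases hg : fr (y e) < 1 - κ e
    · have : F e = fr (y e) := if_pos hg
      linarith [Ffr (e + m), dgr_le_dig (κ e) (y e)]
    · have h4 : F e = 0 := if_neg hg
      have h5 : F (e + m) = 0 := by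
        refine if_neg ?_
        rw [hκ]
        have := fr_nonneg (y (e + m))
        have h6 := dig_le_one (y e)
        linarith
      have h6 : dgr (κ e) (y e) = 0 := if_neg fun h => hg h.2
      linarith
  have h3 : ∀ e, F e ≤ fr (y e + (δ e : Tc)) + κ e := fun e => by
    have h4 := abs_le.mp (hδ e)
    have h5 := fr_nonneg (y e + (δ e : Tc))
    simp only [F]
    split_ifs with hg
    · by_cases h6 : 0 ≤ fr (y e) + δ e
      · rw [fr_add_coe h6 (by linarith)]
        linarith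
      · linarith
    · linarith
  have h4 := sum_le_sum fun e (_ : e ∈ range N) => h2 e
  have h5 := sum_le_sum fun e (_ : e ∈ range N) => h3 e
  rw [sum_sub_distrib] at h4
  rw [sum_add_distrib] at h5
  linarith [(abs_le.mp h1).1]

theorem dinf_round {H : ℕ} (hH : 0 < H) (x : Tc) :
    ∃ (V : ZMod (2 ^ H - 1)) (δ : ℝ), |δ| ≤ 2 / 2 ^ H ∧ cc _ V = x + (δ : Tc) := by
  have h2 : 2 ≤ 2 ^ H := by
    calc 2 = 2 ^ 1 := rfl
      _ ≤ 2 ^ H := Nat.pow_le_pow_right (by norm_num) hH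
  have hN : ((2 ^ H - 1 : ℕ) : ℝ) = 2 ^ H - 1 := by
    rw [Nat.cast_sub (by omega)]
    simp
  have h2' : (2 : ℝ) ≤ 2 ^ H := by exact_mod_cast h2
  set N : ℝ := ((2 ^ H - 1 : ℕ) : ℝ) with hNd
  have hN0 : 0 < N := by linarith
  refine ⟨(⌊fr x * N⌋ : ℤ), (⌊fr x * N⌋ : ℝ) / N - fr x, ?_, ?_⟩
  · have h3 := Int.floor_le (fr x * N)
    have h4 := Int.lt_floor_add_one (fr x * N)
    have : (⌊fr x * N⌋ : ℝ) / N - fr x = -((fr x * N - ⌊fr x * N⌋) / N) := by
      field_simp
      ring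
    rw [this, abs_neg, abs_of_nonneg (div_nonneg (by linarith) hN0.le), div_le_div_iff₀ hN0
      (by positivity)]
    nlinarith
  · rw [cc_intCast, AddCircle.coe_sub, coe_fr]
    abel

/-- periodisation of a character -/
theorem dinf_period [NeZero m] (w T' : ℕ) (s : ℤ) {H : ℕ} (hH : 0 < H) (Z : GR m ℤ →+ Tc) :
    ∃ θ : ZMod (m * H) × ZMod T' → Tc,
      (∀ g, θ (g + ((((m : ℤ) : ℤ) : ZMod (m * H)), 0)) = 2 • θ g) ∧
      ∀ E y : ℕ, y < T' → ∃ δ : ℝ, |δ| ≤ 2 * tr m E / 2 ^ H ∧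
        θ (E, y) = Z (mon m ((E : ℤ) - m * w, (y : ℤ) - s)) + (δ : Tc) := by
  have hm : 0 < m := Nat.pos_of_ne_zero (NeZero.ne m)
  haveI : NeZero (m * H) := ⟨by positivity⟩
  choose V δ hδ hV using dinf_round hH
  let b : ℕ → ℕ → Tc := fun i y => Z (mon m ((i : ℤ) - m * w, (y : ℤ) - s))
  let Θ : ℕ → ℕ → Tc := fun E y => cc _ (2 ^ (E / m) * V (b (E % m) y))
  have hval : ∀ E y : ℕ, Θ (E % (m * H)) y = Θ E y := fun E y => by
    simp only [Θ]
    rw [Nat.mod_mul_right_mod, Nat.mod_mul_right_div_self]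
    congr 2
    conv_rhs => rw [← Nat.mod_add_div (E / m) H, pow_add, pow_mul, two_pow_self, one_pow, mul_one]
  have hsm : ∀ (j : ℕ) (v : ZMod (2 ^ H - 1)), cc _ (2 ^ j * v) = 2 ^ j • cc _ v := fun j v => by
    rw [← map_nsmul, nsmul_eq_mul]
    push_cast
    rfl
  refine ⟨fun g => Θ g.1.val g.2.val, fun g => ?_, fun E y hy => ?_⟩
  · simp only [Prod.fst_add, Prod.snd_add, add_zero, Int.cast_natCast]
    have : g.1 + (m : ZMod (m * H)) = ((g.1.val + m : ℕ) : ZMod (m * H)) := by simp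
    rw [this, ZMod.val_natCast, hval]
    simp only [Θ]
    rw [Nat.add_div_right _ hm, Nat.add_mod_right, hsm, hsm, pow_succ', mul_smul]
  · simp only [ZMod.val_natCast, hval, Nat.mod_eq_of_lt hy]
    refine ⟨2 ^ (E / m) * δ (b (E % m) y), ?_, ?_⟩
    · have h1 : (2 : ℝ) ^ (E / m) ≤ tr m E := by
        rw [← zpow_natCast, ← tr_mul_m (m := m)]
        exact tr_strictMono.monotone (by exact_mod_cast Nat.mul_div_le E m)
      rw [abs_mul, abs_of_nonneg (by positivity)]
      calc _ ≤ tr m E * (2 / 2 ^ H) := mul_le_mul h1 (hδ _) (abs_nonneg _) (tr_pos _).le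
        _ = _ := by ring
    · have h2 : ∀ (j : ℕ) (γ : ℤ × ℤ), mon m (γ + ((m : ℤ) * j, 0)) = 2 ^ j • mon m γ := by
        intro j γ
        induction j with
        | zero => simp [Prod.mk_zero_zero]
        | succ j ih =>
          rw [pow_succ', mul_smul, ← ih, ← mon_add_sig]
          congr 1
          ext <;> simp
          ring
      have h3 : Z (mon m ((E : ℤ) - m * w, (y : ℤ) - s)) = 2 ^ (E / m) • b (E % m) y := by
        simp only [b]
        rw [← map_nsmul, ← h2]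
        congr 2
        ext
        · have := Nat.mod_add_div E m
          simp only [Prod.fst_add]
          push_cast
          zify at this
          push_cast at this
          linarith
        · simp
      simp only [Θ]
      rw [hsm, hV, h3, smul_add, ← AddCircle.coe_nsmul, nsmul_eq_mul]
      push_cast
      rfl

theorem dinf_sum_zmod {n : ℕ} [NeZero n] (f : ZMod n → ℝ) (s : ZMod n) :
    ∑ x, f x = ∑ e ∈ range n, f (e + s) := by
  rw [← Equiv.sum_comp (Equiv.addRight s) f]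
  simp only [Equiv.coe_addRight]
  refine sum_bij' (fun x _ => x.val) (fun e _ => (e : ZMod n)) (fun x _ => ?_) (by simp)
    (by simp) (fun e he => ?_) (by simp)
  · exact mem_range.mpr (ZMod.val_lt x)
  · exact ZMod.val_cast_of_lt (mem_range.mp he)

theorem dinf_sum_sub {α : Type} [Fintype α] [DecidableEq α] {f : α → ℝ} {c : ℝ}
    (h : ∀ a, f a ≤ c) {T : ℕ} (ι : ℕ → α) (hι : Set.InjOn ι (range T : Finset ℕ)) :
    ∑ a, f a ≤ ∑ l ∈ range T, f (ι l) + (Fintype.card α - T) * c := by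
  rw [← sum_image hι, ← sum_add_sum_compl ((range T).image ι)]
  have h1 := sum_le_card_nsmul ((range T).image ι)ᶜ f c fun a _ => h a
  have h2 := card_image_of_injOn hι
  have h3 := card_add_card_compl ((range T).image ι)
  rw [h2, card_range] at h3
  rw [nsmul_eq_mul] at h1
  have h4 : (#((range T).image ι)ᶜ : ℝ) = Fintype.card α - T := by
    rw [← h3]
    push_cast
    ring
  rw [← h4]
  linarith

/-- a positive real evaluation point that is not a zero of `A` -/
theorem dinf_eval {A : GR m ℤ} (hA : A ≠ 0) : ∃ (r : ℝ) (τ : GR m ℤ →+ ℝ), 0 < r ∧ τ A ≠ 0 ∧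
    ∀ γ f, τ (mon m γ * f) = tr m γ.1 * r ^ γ.2 * τ f := by
  obtain ⟨j, a, ha, rfl⟩ := exists_pl hA
  have ha' : rl a ≠ 0 := fun h => by
    have := rl_coeff a 0
    rw [h, coeff_zero] at this
    exact ha (by exact_mod_cast this.symm)
  obtain ⟨r, hr, hr'⟩ := (Set.Ioi_infinite (0 : ℝ)).exists_notMem_finite
    (Polynomial.finite_setOf_isRoot ha')
  have hr0 : (0 : ℝ) < r := hr
  let ρ : ℂˣ := Units.mk0 (r : ℂ) (by exact_mod_cast hr0.ne')
  have key : ∀ γ f, (evC m ρ (mon m γ * f)).re = tr m γ.1 * r ^ γ.2 * (evC m ρ f).re := by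
    intro γ f
    rw [map_mul, evC_mon, Units.val_zpow_eq_zpow_val]
    simp only [ρ, Units.val_mk0]
    rw [← Complex.ofReal_zpow, ← Complex.ofReal_mul, Complex.re_ofReal_mul]
  refine ⟨r, Complex.reAddGroupHom.comp (evC m ρ).toAddMonoidHom, hr0, ?_, key⟩
  change (evC m ρ (mon m (0, j) * pl a)).re ≠ 0
  rw [key, evC_pl]
  simp only [ρ, Units.val_mk0]
  have : aeval (r : ℂ) (rl a) = ((eval r (rl a) : ℝ) : ℂ) := by
    rw [← coe_aeval_eq_eval]
    exact aeval_algebraMap_apply ℂ r (rl a)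
  rw [this, Complex.ofReal_re]
  exact mul_ne_zero (mul_ne_zero (tr_pos _).ne' (zpow_ne_zero _ hr0.ne')) hr'

end Pool.Agent.GK
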