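import Mathlib

/-! A kernel that detects a neighbourhood of a point of the torus. -/

namespace Pool.Agent.GE

open Finset

theorem ker_expand {R J : Type} [CommRing R] [Fintype J] [DecidableEq J] (y : J → R) (M : ℕ) :
    ∏ j, (1 + y j) ^ M = ∑ a : J → Fin (M + 1), (∏ j, (M.choose (a j) : R)) * ∏ j, y j ^ (a j : ℕ) := by
  have h1 : ∀ j, (1 + y j) ^ M = ∑ a : Fin (M + 1), (M.choose a : R) * y j ^ (a : ℕ) := fun j => by
    rw [add_comm, add_pow, ← Fin.sum_univ_eq_sum_range fun a => y j ^ a * 1 ^ (M - a) * M.choose a]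
    exact sum_congr rfl fun a _ => by rw [one_pow, mul_one, mul_comm]
  simp only [h1, ← prod_mul_distrib]
  rw [prod_univ_sum, Fintype.piFinset_univ]

theorem kernel {J Θ : Type} [Fintype J] [Fintype Θ] (y : Θ → J → ℂ) (hy : ∀ θ j, ‖y θ j‖ = 1)
    (M : ℕ) {ε κ : ℝ} (hε : 0 ≤ ε) (hκ : 0 ≤ κ) (G : Finset Θ)
    (hG : ∀ θ ∉ G, ∃ j, ‖1 + y θ j‖ ^ 2 ≤ 4 * κ)
    (h : ∀ ν : J → ℤ, ν ≠ 0 → (∀ j, |ν j| ≤ M) →
      -ε * Fintype.card Θ ≤ (∑ θ, ∏ j, y θ j ^ ν j).re) :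
    ((((M : ℝ) + 1) ^ Fintype.card J)⁻¹ - ε - κ ^ M) * Fintype.card Θ ≤ G.card := by
  classical
  set W : (J → Fin (M + 1)) → ℝ := fun a => ∏ j, (M.choose (a j) : ℝ) with hW
  have hW0 : ∀ a, 0 ≤ W a := fun a => prod_nonneg fun j _ => Nat.cast_nonneg _
  set A : ℝ := ∑ a, W a with hA
  have hA' : A = ∏ _j : J, (2 : ℝ) ^ M := by
    have := ker_expand (fun _ : J => (1 : ℝ)) M
    simp only [one_pow, prod_const_one, mul_one, one_add_one_eq_two] at this
    exact this.symm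
  have hA0 : 0 < A := hA' ▸ prod_pos fun _ _ => by positivity
  have h0 : ∀ θ j, y θ j ≠ 0 := fun θ j e => by simpa [e] using hy θ j
  have h1 : ∀ θ, ‖∏ j, (1 + y θ j) ^ M‖ ^ 2 =
      ∑ a, ∑ b, W a * W b * (∏ j, y θ j ^ (((a j : ℕ) : ℤ) - (b j : ℕ))).re := fun θ => by
    rw [← Complex.normSq_eq_norm_sq, ← Complex.ofReal_re (Complex.normSq _), ← Complex.mul_conj,
      ker_expand, map_sum, sum_mul_sum, Complex.re_sum]
    refine sum_congr rfl fun a _ => ?_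
    rw [Complex.re_sum]
    refine sum_congr rfl fun b _ => ?_
    rw [← Complex.re_ofReal_mul, map_mul, mul_mul_mul_comm, map_prod, map_prod]
    congr 2
    · simp [hW]
    · rw [← prod_mul_distrib]
      refine prod_congr rfl fun j _ => ?_
      rw [zpow_sub₀ (h0 θ j), map_pow, ← Complex.inv_eq_conj (hy θ j), inv_pow, div_eq_mul_inv,
        zpow_natCast, zpow_natCast]
  have h2 : ∀ θ, ‖∏ j, (1 + y θ j) ^ M‖ ^ 2 ≤ A ^ 2 * ((if θ ∈ G then 1 else 0) + κ ^ M) :=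
    fun θ => by
      have h3 : ∀ j, (‖1 + y θ j‖ ^ 2) ^ M ≤ 4 ^ M := fun j => by
        have := norm_add_le 1 (y θ j)
        rw [norm_one, hy] at this
        exact pow_le_pow_left₀ (sq_nonneg _) (by nlinarith [norm_nonneg (1 + y θ j)]) M
      have h4 : A ^ 2 = ∏ _j : J, (4 : ℝ) ^ M := by
        rw [hA', ← prod_pow]
        exact prod_congr rfl fun _ _ => by rw [← pow_mul, mul_comm, pow_mul]; norm_num
      rw [norm_prod, ← prod_pow, h4]
      simp only [norm_pow, ← pow_mul, mul_comm M 2]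
      simp only [pow_mul]
      split_ifs with hθ
      · exact (prod_le_prod (fun _ _ => by positivity) fun j _ => h3 j).trans
          (le_mul_of_one_le_right (by positivity) (by linarith [pow_nonneg hκ M]))
      · obtain ⟨j, hj⟩ := hG θ hθ
        rw [zero_add, ← mul_prod_erase _ _ (mem_univ j), ← mul_prod_erase _ _ (mem_univ j),
          mul_right_comm, ← mul_pow]
        exact mul_le_mul (pow_le_pow_left₀ (sq_nonneg _) hj M)
          (prod_le_prod (fun _ _ => by positivity) fun j _ => h3 j) (by positivity) (by positivity)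
  have h3 : ∀ a b : J → Fin (M + 1), ((if a = b then 1 else 0) - ε) * Fintype.card Θ ≤
      ∑ θ, (∏ j, y θ j ^ (((a j : ℕ) : ℤ) - (b j : ℕ))).re := fun a b => by
    split_ifs with hab
    · simp only [hab, sub_self, zpow_zero, prod_const_one, Complex.one_re, sum_const, card_univ,
        nsmul_eq_mul, mul_one]
      nlinarith [Nat.cast_nonneg (α := ℝ) (Fintype.card Θ)]
    · rw [zero_sub, ← Complex.re_sum]
      refine h _ (fun e => hab (funext fun j => Fin.ext ?_)) fun j => ?_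
      · exact_mod_cast sub_eq_zero.1 (congrFun e j)
      · have := (a j).2
        have := (b j).2
        rw [abs_le]
        omega
  have h4 : (∑ a, W a ^ 2 - ε * A ^ 2) * Fintype.card Θ ≤ A ^ 2 * (G.card + κ ^ M * Fintype.card Θ) := by
    have h5 := sum_le_sum fun θ (_ : θ ∈ univ) => (h1 θ).ge.trans (h2 θ)
    rw [← mul_sum, sum_add_distrib, sum_boole, sum_const, card_univ, nsmul_eq_mul, filter_univ_mem,
      mul_comm _ (κ ^ M), sum_comm] at h5
    refine le_trans ?_ h5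
    rw [sq A, hA, sum_mul_sum, mul_sum, ← sum_sub_distrib, sum_mul]
    refine sum_le_sum fun a _ => ?_
    rw [sum_comm]
    refine le_trans (le_of_eq ?_) (sum_le_sum fun b _ => (mul_le_mul_of_nonneg_left (h3 a b)
      (mul_nonneg (hW0 a) (hW0 b))).trans (mul_sum _ _ _).le)
    simp only [← mul_assoc, ← sum_mul, mul_sub, sum_sub_distrib, mul_ite, mul_one, mul_zero,
      sum_ite_eq, mem_univ, if_true, mul_sum]
    rw [sq]
    congr 2
    rw [sum_mul]
    exact sum_congr rfl fun b _ => by ring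
  have h5 : A ^ 2 ≤ ((M : ℝ) + 1) ^ Fintype.card J * ∑ a, W a ^ 2 := by
    simpa using sq_sum_le_card_mul_sum_sq (s := univ) (f := W)
  have h6 : (((M : ℝ) + 1) ^ Fintype.card J)⁻¹ * A ^ 2 ≤ ∑ a, W a ^ 2 :=
    (inv_mul_le_iff₀ (by positivity)).2 h5
  refine le_of_mul_le_mul_left ?_ (pow_pos hA0 2)
  nlinarith [mul_le_mul_of_nonneg_right h6 (Nat.cast_nonneg (α := ℝ) (Fintype.card Θ))]

theorem ker_gap {z ζ : ℂ} (hz : ‖z‖ = 1) (hζ : ‖ζ‖ = 1) {m : ℝ} (hm : 0 ≤ m) (h1 : m ≤ ζ.im)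
    (h2 : z.im ≤ 0) : ‖1 + z * ζ⁻¹‖ ^ 2 ≤ 4 * (1 - m ^ 2 / 4) := by
  have h0 : ζ ≠ 0 := fun e => by simp [e] at hζ
  have h3 : ‖1 + z * ζ⁻¹‖ = ‖ζ + z‖ := by
    rw [← mul_inv_cancel₀ h0, ← add_mul, norm_mul, norm_inv, hζ, inv_one, mul_one]
  have h4 := Complex.sq_norm z
  have h5 := Complex.sq_norm ζ
  rw [h3, Complex.sq_norm]
  simp only [hz, hζ, Complex.normSq_apply, Complex.add_re, Complex.add_im] at h4 h5 ⊢
  nlinarith [sq_nonneg (ζ.re - z.re), mul_le_mul h1 h1 hm (hm.trans h1),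
    mul_nonneg (hm.trans h1) (neg_nonneg.2 h2), sq_nonneg z.im]

theorem exists_M (D : ℕ) {κ : ℝ} (h0 : 0 ≤ κ) (h1 : κ < 1) :
    ∃ M : ℕ, κ ^ M ≤ (((M : ℝ) + 1) ^ D)⁻¹ / 4 := by
  have h := (tendsto_pow_const_mul_const_pow_of_abs_lt_one D (r := (1 + κ) / 2)
    (abs_lt.2 ⟨by linarith, by linarith⟩)).eventually (gt_mem_nhds (show (0 : ℝ) < 1 / 8 by norm_num))
  obtain ⟨M, hM⟩ := Filter.eventually_atTop.1 h
  refine ⟨M, ?_⟩
  have h2 := hM (M + 1) M.le_succ
  have h3 : κ ^ M ≤ ((1 + κ) / 2) ^ M := pow_le_pow_left₀ h0 (by linarith) M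
  have h4 : (0 : ℝ) < ((M : ℝ) + 1) ^ D := by positivity
  rw [pow_succ, Nat.cast_succ] at h2
  rw [le_div_iff₀ (by norm_num), ← one_div, le_div_iff₀ h4]
  have h5 : κ ^ M * (1 / 2) ≤ ((1 + κ) / 2) ^ M * ((1 + κ) / 2) :=
    mul_le_mul h3 (by linarith) (by norm_num) (by positivity)
  nlinarith [mul_le_mul_of_nonneg_left h5 h4.le]

end Pool.Agent.GE
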