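import Pool.Agent.Lib.MP_a01f70_lc.GK.EMove
import Pool.Agent.Lib.MP_a01f70_lc.GK.EKer

/-! Averages over the lazy random walk. -/

set_option linter.unusedSectionVars false

namespace Pool.Agent.GE

open Finset ZMod Pool.Agent.Lib.MP_a01f70_lc.BA Pool.Agent.Lib.MP_a01f70_lc.SP

theorem avg_sg {δ : ℝ} (hδ : 0 < δ) : ∃ M N₀ : ℕ, ∀ (N : ℕ) [NeZero N], N₀ ≤ N → Odd N →
    ∀ (Θ : Type) [Fintype Θ] (U : Θ → ZMod N) (ε : ℝ), 0 ≤ ε →
    (∀ a : ℤ, a ≠ 0 → |a| ≤ M → ‖∑ θ, chr a (U θ)‖ ≤ ε * Fintype.card Θ) →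
    -∑ θ, (sg (U θ) : ℝ) ≤ (δ + (4 * M + 2) * ε) * Fintype.card Θ := by
  classical
  obtain ⟨J, hJ⟩ := exists_pow_lt_of_lt_one (show 0 < δ ^ 2 / 36 by positivity)
    (show (2 / 3 : ℝ) < 1 by norm_num)
  refine ⟨2 * 3 ^ J, ⌈6 / δ⌉₊, fun N _ hN₀ hodd Θ _ U ε hε h => ?_⟩
  have hN : (0 : ℝ) < N := Nat.cast_pos.2 (NeZero.pos N)
  have hτ : ∑ x : ZMod N, (1 - qq J x ^ 2) ≤ δ * N := by
    refine (sum_one_sub hodd J (D := δ * N / 12) (by positivity)).trans ?_
    have h1 : 6 ≤ N * δ := (div_le_iff₀ hδ).1 (Nat.ceil_le.1 hN₀)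
    have h2 : (2 / 3) ^ J * N ^ 2 / (δ * N / 12) ≤ δ * N / 3 := by
      rw [div_le_iff₀ (by positivity)]
      nlinarith [mul_le_mul_of_nonneg_right hJ.le (sq_nonneg (N : ℝ))]
    linarith
  have h0 : ∑ x : ZMod N, qq J x = 0 := by
    have h1 : ∀ x : ZMod N, qq J (-x) = -qq J x := fun x => by
      rw [qq, AddChar.map_neg_eq_conj, Complex.conj_im, ← neg_one_mul, tm_sign (by norm_num),
        neg_one_mul, qq]
    have h2 := Equiv.sum_comp (Equiv.neg (ZMod N)) (qq J)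
    simp only [Equiv.neg_apply, h1, sum_neg_distrib] at h2
    linarith
  set A := (Icc (-(2 * 3 ^ J) : ℤ) (2 * 3 ^ J)).image (Int.cast : ℤ → ZMod N)
  have h1 : Sp A ((1 / 2 : ℂ) • ((fun x : ZMod N => (qq J x : ℂ)) +
      (fun x : ZMod N => (qq J x : ℂ)) * fun x : ZMod N => (qq J x : ℂ))) := by
    refine Submodule.smul_mem _ _ (Submodule.add_mem _ ((sp_qq J).mono ?_)
      ((sp_qq J).mul (sp_qq J) ?_))
    · rintro _ ⟨k, -, h2, rfl⟩
      refine mem_coe.2 (mem_image.2 ⟨k, mem_Icc.2 (abs_le.1 ?_), rfl⟩)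
      push_cast at h2
      linarith [abs_nonneg k]
    · rintro _ ⟨k, -, h2, rfl⟩ _ ⟨k', -, h4, rfl⟩
      refine mem_coe.2 (mem_image.2 ⟨k + k', mem_Icc.2 (abs_le.1 ((abs_add_le k k').trans ?_)),
        by push_cast; rfl⟩)
      push_cast at h2 h4
      linarith
  have h2 := h1.test U (fun x => by
    have := norm_qq J x
    rw [Pi.smul_apply, norm_smul, Pi.add_apply, Pi.mul_apply]
    refine (mul_le_mul_of_nonneg_left (norm_add_le _ _) (norm_nonneg _)).trans ?_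
    rw [norm_mul]
    norm_num at this ⊢
    nlinarith [abs_nonneg (qq J x), abs_mul_abs_self (qq J x)]) (ε := ε * Fintype.card Θ) (by positivity) fun η hη e => by
      obtain ⟨k, hk, rfl⟩ := mem_image.1 hη
      exact h k (by rintro rfl; simp at e) (by exact_mod_cast abs_le.2 (mem_Icc.1 hk))
  have h3 : (A.card : ℝ) ≤ 2 * (2 * 3 ^ J : ℕ) + 1 := card_img _ _ (by
    have : ((Icc (-(2 * 3 ^ J) : ℤ) (2 * 3 ^ J)).card : ℤ) = 2 * (2 * 3 ^ J) + 1 := by
      rw [Int.card_Icc_of_le _ _ (by linarith [pow_pos (show (0 : ℤ) < 3 by norm_num) J])]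
      ring
    exact_mod_cast this.le)
  have h4 := (abs_le.1 ((Complex.abs_re_le_norm _).trans (h2.trans
    (mul_le_mul_of_nonneg_right h3 (by positivity))))).1
  have h5 : ∀ x : ZMod N, ((1 / 2 : ℂ) • ((fun x : ZMod N => (qq J x : ℂ)) +
      (fun x : ZMod N => (qq J x : ℂ)) * fun x : ZMod N => (qq J x : ℂ))) x =
      ((qq J x + qq J x ^ 2) / 2 : ℝ) := fun x => by
    simp only [Pi.smul_apply, Pi.add_apply, Pi.mul_apply, smul_eq_mul]
    push_cast
    ring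
  simp only [co, h5, zero_mul, neg_zero, AddChar.map_zero_eq_one, mul_one] at h4
  rw [← Complex.ofReal_sum, ← Complex.ofReal_sum, ← Complex.ofReal_natCast,
    ← Complex.ofReal_natCast, ← Complex.ofReal_inv, ← Complex.ofReal_mul, ← Complex.ofReal_mul,
    ← Complex.ofReal_sub, Complex.ofReal_re] at h4
  rw [← sum_div, ← sum_div, sum_add_distrib, sum_add_distrib, h0, zero_add] at h4
  have h6 : 1 - δ ≤ (N : ℝ)⁻¹ * ∑ x : ZMod N, qq J x ^ 2 := by
    rw [sum_sub_distrib, sum_const, card_univ, ZMod.card, nsmul_eq_mul] at hτ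
    rw [le_inv_mul_iff₀ hN]
    linarith
  have h7 := mul_le_mul_of_nonneg_right h6 (Nat.cast_nonneg (α := ℝ) (Fintype.card Θ))
  have h8 := sum_le_sum fun θ (_ : θ ∈ univ) => (abs_le.1 (sg_sub_qq J (U θ))).1
  simp only [sum_neg_distrib, sum_sub_distrib, sum_const, card_univ, nsmul_eq_mul] at h8
  push_cast at h4 ⊢
  linarith

variable {N n : ℕ} [NeZero N] [NeZero n] {w d : ℕ}

/-- The random point and its rotations. -/
def rp (d : ℕ) (x : ZMod N) (θ : ZMod n × (Fin w → Fin n × Bool)) : ZMod N :=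
  pw N θ.1 * (d * (jj θ.2 + x))

theorem rp_small (hN : N + 1 = 2 ^ n) {T : ℕ} {η : ZMod N} (h : ¬Wt T (η * d)) (x : ZMod N) :
    ‖∑ θ : ZMod n × (Fin w → Fin n × Bool), chr η (rp d x θ)‖ ≤
      Real.exp (-(T * w / (8 * n))) * Fintype.card (ZMod n × (Fin w → Fin n × Bool)) := by
  rw [Fintype.sum_prod_type, Fintype.card_prod, Nat.cast_mul, mul_left_comm]
  refine (norm_sum_le _ _).trans ((sum_le_card_nsmul _ _ _ fun k _ => ?_).trans
    (by rw [nsmul_eq_mul, card_univ]))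
  refine le_trans (le_of_eq ?_) (walk (NeZero.pos n) hN (fun h' => h (wt_of_sparse h')) k.val)
  have e : ∀ ω : Fin w → Fin n × Bool, chr η (rp d x (k, ω)) =
      chr η (2 ^ k.val * ((d * jj ω : ℕ) : ZMod N)) * stdAddChar (η * (2 ^ k.val * ((d : ZMod N) * x))) := by
    intro ω
    rw [chr, chr, ← AddChar.map_add_eq_mul, rp, pw]
    congr 1
    push_cast
    ring
  simp only [e]
  rw [← sum_mul, norm_mul, norm_e, mul_one]

theorem rp_big (hN : N + 1 = 2 ^ n) {s c : ℕ} {η x : ZMod N} (h : Wt s (η * d)) (hx : Ps 0 c x)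
    (hs : 7 * (s * (w + c)) ≤ n) :
    0 ≤ (∑ θ : ZMod n × (Fin w → Fin n × Bool), chr η (rp d x θ)).re := by
  rw [Fintype.sum_prod_type_right, Complex.re_sum]
  refine sum_nonneg fun ω _ => ?_
  have h1 := sum_ds hN (wt_mul h ((ps_jj ω).add hx).wt)
  have h2 : (7 : ℝ) * (s * (w + c) : ℕ) ≤ n := by exact_mod_cast hs
  rw [← sum_zmod] at h1
  have h3 : ∀ k : ZMod n, 1 - ds (2 ^ k.val * (η * (d : ZMod N) * ((jj ω : ZMod N) + x))) ≤ (chr η (rp d x (k, ω))).re :=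
    fun k => by
      have e : η * rp d x (k, ω) = 2 ^ k.val * (η * (d : ZMod N) * ((jj ω : ZMod N) + x)) := by
        rw [rp, pw]
        ring
      have := (abs_le.1 (Complex.abs_re_le_norm
        (stdAddChar (2 ^ k.val * (η * (d : ZMod N) * ((jj ω : ZMod N) + x))) - 1))).1
      rw [Complex.sub_re, Complex.one_re] at this
      rw [chr, e, ds]
      linarith
  rw [Complex.re_sum]
  refine le_trans ?_ (sum_le_sum fun k _ => h3 k)
  rw [sum_sub_distrib, sum_const, card_univ, ZMod.card, nsmul_eq_mul]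
  linarith

end Pool.Agent.GE
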