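import Pool.Agent.Lib.MP_a01f70_lc.GK.EAvg

/-! The finite form of the argument with moves. -/

set_option linter.unusedSectionVars false

namespace Pool.Agent.GE

open Finset ZMod Pool.Agent.Lib.MP_a01f70_lc.BA Pool.Agent.Lib.MP_a01f70_lc.SP

theorem im_nonpos {N : ℕ} [NeZero N] {x : ZMod N} (h : sg x ≠ -1) : (stdAddChar x : ℂ).im ≤ 0 := by
  have hN : (0 : ℝ) < N := Nat.cast_pos.2 (NeZero.pos N)
  have h1 : x.valMinAbs < 0 := by
    by_contra hc
    exact h (if_pos (not_lt.1 hc))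
  have h2 : (-(N : ℤ) : ℝ) < (x.valMinAbs * 2 : ℤ) := by exact_mod_cast (valMinAbs_mem_Ioc x).1
  have h3 : (x.valMinAbs : ℝ) < 0 := by exact_mod_cast h1
  have e : (stdAddChar x : ℂ) = Complex.exp ((2 * Real.pi * x.valMinAbs / N : ℝ) * Complex.I) := by
    conv_lhs => rw [← coe_valMinAbs x, stdAddChar_coe]
    congr 1
    push_cast
    ring
  rw [e, Complex.exp_ofReal_mul_I_im]
  push_cast at h2
  refine Real.sin_nonpos_of_nonpos_of_neg_pi_le ?_ ?_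
  · exact div_nonpos_of_nonpos_of_nonneg (by nlinarith [Real.pi_pos]) hN.le
  · rw [le_div_iff₀ hN]
    nlinarith [Real.pi_pos]

theorem prod_chr {N : ℕ} [NeZero N] {J : Type} [Fintype J] (u : J → ZMod N) (θ : J → ℝ) (ν : J → ℤ)
    (x : ZMod N) : ∏ j, (stdAddChar (u j * x) *
      (Complex.exp ((2 * Real.pi * θ j : ℝ) * Complex.I))⁻¹) ^ ν j =
      chr (∑ j, (ν j : ZMod N) * u j) x *
        Complex.exp ((-(2 * Real.pi * ∑ j, ν j * θ j) : ℝ) * Complex.I) := by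
  rw [chr, sum_mul, e_sum, mul_sum, ← sum_neg_distrib, Complex.ofReal_sum, sum_mul, Complex.exp_sum,
    ← prod_mul_distrib]
  refine prod_congr rfl fun j _ => ?_
  rw [mul_zpow, ← Complex.exp_neg, ← Complex.exp_int_mul, ← AddChar.map_zsmul_eq_zpow, zsmul_eq_mul,
    mul_assoc (ν j : ZMod N)]
  congr 2
  push_cast
  ring

theorem many_good {J : Type} [Fintype J] (θ : J → ℝ) (hθ : ∀ j, 0 < θ j ∧ θ j < 1 / 2) :
    ∃ (M : ℕ) (γ : ℝ), 0 < γ ∧ ∀ (N : ℕ) [NeZero N] (Θ : Type) [Fintype Θ] (V : Θ → ZMod N)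
      (u : J → ZMod N) (ε : ℝ), 0 ≤ ε → (∀ ν : J → ℤ, (∀ j, |ν j| ≤ M) →
        ((∃ z : ℤ, ∑ j, ν j * θ j = z) ∧ 0 ≤ (∑ ω, chr (∑ j, (ν j : ZMod N) * u j) (V ω)).re) ∨
          ‖∑ ω, chr (∑ j, (ν j : ZMod N) * u j) (V ω)‖ ≤ ε * Fintype.card Θ) →
      (γ - ε) * Fintype.card Θ ≤ (univ.filter fun ω => ∀ j, sg (u j * V ω) = -1).card := by
  classical
  obtain ⟨μ, h0, h1, h2⟩ : ∃ μ : ℝ, 0 < μ ∧ μ ≤ 1 ∧ ∀ j, μ ≤ Real.sin (2 * Real.pi * θ j) := by
    obtain ⟨μ, a1, a2⟩ := (insert 1 (univ.image fun j => Real.sin (2 * Real.pi * θ j))).exists_min_image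
      id (insert_nonempty _ _)
    refine ⟨μ, ?_, a2 1 (mem_insert_self _ _), fun j =>
      a2 _ (mem_insert_of_mem (mem_image_of_mem _ (mem_univ j)))⟩
    rcases mem_insert.1 a1 with rfl | a1
    · exact one_pos
    · obtain ⟨j, -, rfl⟩ := mem_image.1 a1
      exact Real.sin_pos_of_pos_of_lt_pi (by nlinarith [Real.pi_pos, hθ j])
        (by nlinarith [Real.pi_pos, hθ j])
  have h3 : 0 ≤ 1 - μ ^ 2 / 4 := by nlinarith
  obtain ⟨M, hM⟩ := exists_M (Fintype.card J) h3 (by nlinarith)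
  refine ⟨M, 3 / 4 * (((M : ℝ) + 1) ^ Fintype.card J)⁻¹, by positivity, fun N _ Θ _ V u ε hε h => ?_⟩
  have hn : ∀ j, ‖Complex.exp ((2 * Real.pi * θ j : ℝ) * Complex.I)‖ = 1 := fun j =>
    Complex.norm_exp_ofReal_mul_I _
  refine le_trans (mul_le_mul_of_nonneg_right (by linarith) (Nat.cast_nonneg _)) (kernel
    (fun ω j => stdAddChar (u j * V ω) * (Complex.exp ((2 * Real.pi * θ j : ℝ) * Complex.I))⁻¹)
    (fun ω j => by rw [norm_mul, norm_inv, hn, norm_e]; norm_num) M hε h3 _ (fun ω hω => ?_)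
    fun ν _ hν => ?_)
  · obtain ⟨j, hj⟩ := not_forall.1 fun hc => hω (mem_filter.2 ⟨mem_univ _, hc⟩)
    exact ⟨j, ker_gap (norm_e _) (hn j) h0.le (by rw [Complex.exp_ofReal_mul_I_im]; exact h2 j)
      (im_nonpos hj)⟩
  · simp only [prod_chr]
    rw [← sum_mul]
    rcases h ν hν with ⟨⟨z, hz⟩, h4⟩ | h4
    · have e : Complex.exp ((-(2 * Real.pi * ∑ j, ν j * θ j) : ℝ) * Complex.I) = 1 := by
        rw [hz, ← Complex.exp_int_mul_two_pi_mul_I (-z)]
        congr 1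
        push_cast
        ring
      rw [e, mul_one]
      nlinarith [Nat.cast_nonneg (α := ℝ) (Fintype.card Θ)]
    · refine le_trans ?_ (abs_le.1 (Complex.abs_re_le_norm _)).1
      rw [norm_mul, Complex.norm_exp_ofReal_mul_I]
      linarith

theorem card_pairs {A B : Type} [Fintype A] [Fintype B] (p : A × B → Prop) [DecidablePred p] :
    (univ.filter p).card = ∑ b, (univ.filter fun a => p (a, b)).card := by
  simp only [card_filter]
  exact Fintype.sum_prod_type_right _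

theorem two_card {N : ℕ} [NeZero N] {Θ : Type} [Fintype Θ] (V : Θ → ZMod N) :
    2 * ((univ.filter fun ω => sg (V ω) = -1).card : ℝ) = Fintype.card Θ - ∑ ω, (sg (V ω) : ℝ) := by
  rw [card_filter, Nat.cast_sum, mul_sum, ← card_univ, card_eq_sum_ones, Nat.cast_sum,
    ← sum_sub_distrib]
  refine sum_congr rfl fun ω _ => ?_
  rcases sg_cases (V ω) with h | h <;> rw [h] <;> norm_num

theorem fin_main {J : Type} [Fintype J] (θ : J → ℝ) (hθ : ∀ j, 0 < θ j ∧ θ j < 1 / 2) (c : ℕ) :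
    ∃ M : ℕ, ∀ s : ℕ, ∃ T t n₀ : ℕ, 0 < t ∧ ∀ (n N d : ℕ) [NeZero N] [NeZero n], n₀ ≤ n →
      N + 1 = 2 ^ n → DD n d → ∀ r : J → ZMod n, Function.Injective r →
      (∀ ν : J → ℤ, (∀ j, |ν j| ≤ M) →
        ((∃ z : ℤ, ∑ j, ν j * θ j = z) ∧ Wt s ((∑ j, (ν j : ZMod N) * pw N (r j)) * d)) ∨
          ¬Wt T ((∑ j, (ν j : ZMod N) * pw N (r j)) * d)) →
      (∀ a : ℤ, a ≠ 0 → |a| ≤ M → ¬Wt T ((a : ZMod N) * d)) →
      ∀ (a b g : ℕ) (Q P q p h : ZMod N), a + b < Fintype.card J → Ps 0 a Q → Ps 0 b P →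
        Ps 1 c q → Ps 0 c p → d * Q - (∑ j, pw N (-r j) - P) = h * (d * q - p) → 0 < g →
        g ^ t ≤ 2 ^ n → g * (d * q - p) = 0 → False := by
  classical
  obtain ⟨M₀, γ, hγ, hM₀⟩ := many_good θ hθ
  set D : ℝ := (Fintype.card J : ℝ) ^ 2 with hD
  have hD0 : 0 ≤ D := sq_nonneg _
  obtain ⟨β, hβ, hβγ⟩ : ∃ β : ℝ, 0 < β ∧ β * (D + 1) = γ / 8 :=
    ⟨γ / 8 / (D + 1), by positivity, by field_simp⟩
  obtain ⟨M₁, N₀, hM₁⟩ := avg_sg hβ
  refine ⟨max M₀ M₁, fun s => ?_⟩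
  obtain ⟨k, hk⟩ := exists_nat_ge (max (14 * s + 1 : ℝ) ((8 * c + 2) / β))
  have hk1 : 14 * s + 1 ≤ k := by exact_mod_cast (le_max_left _ _).trans hk
  have hk2 : 8 * c + 2 ≤ k * β := (div_le_iff₀ hβ).1 ((le_max_right _ _).trans hk)
  obtain ⟨T, hT⟩ := exists_nat_ge (16 * k * ((4 * M₁ + 2) / β))
  refine ⟨T, k, max (N₀ + 1) (2 * k * (c + 1)), by omega, fun n N d _ _ hn hN hd r hr hν ha a b g Q P q p h
    hab hQ hP hq hp hrel hg0 hg hge => ?_⟩
  have hn1 : N₀ + 1 ≤ n := (le_max_left _ _).trans hn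
  have hn2 : 2 * k * (c + 1) ≤ n := (le_max_right _ _).trans hn
  have hk0 : 0 < k := by omega
  set w := n / k with hw
  have hw1 : k * w ≤ n := Nat.mul_div_le n k
  have hw2 : n < k * (w + 1) := Nat.lt_mul_div_succ n hk0
  have hw3 : 2 * (c + 1) ≤ w := (Nat.le_div_iff_mul_le hk0).2 (by linarith)
  have hg1 : g ≤ 2 ^ (w + 1) := by
    refine (Nat.pow_le_pow_iff_left hk0.ne').1 (hg.trans ?_)
    rw [← pow_mul]
    exact Nat.pow_le_pow_right two_pos (by linarith)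
  have hx : Ps 0 c (q * 2 ^ (w + 1)) := (hq.mul (ps_pow _)).mono (Nat.zero_le _) (by omega)
  set x := q * 2 ^ (w + 1) with hx'
  set ε := Real.exp (-(T * w / (8 * n))) with hε
  have hε0 : 0 < ε := Real.exp_pos _
  have hnr : (0 : ℝ) < n := Nat.cast_pos.2 (NeZero.pos n)
  have hkr : (0 : ℝ) < k := Nat.cast_pos.2 hk0
  have hε1 : (4 * M₁ + 2) * ε ≤ β := by
    have a1 : (n : ℝ) ≤ 2 * k * w := by exact_mod_cast (by nlinarith : n ≤ 2 * k * w)
    have a2 : (4 * M₁ + 2) / β ≤ T * w / (8 * n) := by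
      rw [le_div_iff₀ (by positivity)]
      have a3 : (0 : ℝ) ≤ (4 * M₁ + 2) / β := by positivity
      nlinarith [mul_le_mul_of_nonneg_right hT (Nat.cast_nonneg (α := ℝ) w),
        mul_le_mul_of_nonneg_left a1 a3]
    have a4 := Real.add_one_le_exp (T * w / (8 * n))
    rw [div_le_iff₀ hβ] at a2
    rw [hε, Real.exp_neg, ← div_eq_mul_inv, div_le_iff₀ (Real.exp_pos _)]
    nlinarith
  have h1 := hM₀ N (ZMod n × (Fin w → Fin n × Bool)) (rp d x) (fun j => pw N (r j)) ε hε0.le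
    fun ν hν' => (hν ν fun j => (hν' j).trans (by exact_mod_cast le_max_left _ _)).imp
      (fun h => ⟨h.1, rp_big hN h.2 hx (by nlinarith)⟩) fun h => rp_small hN h x
  have h2 := hM₁ N (by have := @Nat.lt_two_pow_self n; omega)
    (by rw [← Nat.not_even_iff_odd, ← Nat.even_add_one, hN]
        exact (Nat.even_pow.2 ⟨even_two, NeZero.ne n⟩))
    (ZMod n × (Fin w → Fin n × Bool)) (rp d x) ε hε0.le fun a h0 h =>
      rp_small hN (ha a h0 (h.trans (by exact_mod_cast le_max_right _ _))) x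
  have h3 := two_card (rp (n := n) (w := w) d x)
  have h4 := sum_le_sum fun (ω : Fin w → Fin n × Bool) (_ : ω ∈ univ) =>
    move hN hd hr hab hQ hP hq hp hrel hg0 hg1 hge (ps_jj ω)
      (univ.filter fun i => ∀ j, sg (pw N (r j) * rp d x (i, ω)) = -1) fun i hi j => by
        rw [← (mem_filter.1 hi).2 j, rp, pw_add hN]
        congr 1
        ring
  rw [card_pairs] at h1 h3
  rw [Fintype.card_prod, ZMod.card, Nat.cast_mul] at h1 h2 h3
  simp only [sum_add_distrib, ← mul_sum, sum_const, card_univ, smul_eq_mul] at h4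
  have h5 := (Nat.cast_le (α := ℝ)).2 h4
  simp only [rp] at h1 h2 h3 h5
  set A := ∑ ω : Fin w → Fin n × Bool, (univ.filter fun i : ZMod n =>
    ∀ j, sg (pw N (r j) * (pw N i * ((d : ZMod N) * ((jj ω : ZMod N) + x)))) = -1).card
  set B := ∑ ω : Fin w → Fin n × Bool, (univ.filter fun i : ZMod n =>
    sg (pw N i * ((d : ZMod N) * ((jj ω : ZMod N) + x))) = -1).card
  push_cast at h5
  rw [← hD] at h5
  set C : ℝ := (Fintype.card (Fin w → Fin n × Bool) : ℝ)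
  have hC : 0 < C := Nat.cast_pos.2 Fintype.card_pos
  have h6 : 2 * ((w : ℝ) + 2 * c * (w + 1 + 1)) ≤ β * n := by
    have a1 : (k : ℝ) * w ≤ n := by exact_mod_cast hw1
    have a2 : 2 * ((c : ℝ) + 1) ≤ w := by exact_mod_cast hw3
    have a3 : (0 : ℝ) ≤ c := Nat.cast_nonneg c
    nlinarith [mul_le_mul_of_nonneg_right hk2 (Nat.cast_nonneg (α := ℝ) w),
      mul_le_mul_of_nonneg_left a1 hβ.le]
  have h7 : 2 * (B : ℝ) ≤ (1 + 2 * β) * (n * C) := by
    nlinarith [mul_le_mul_of_nonneg_right hε1 (mul_pos hnr hC).le]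
  have h8 : ε ≤ β := by nlinarith [Nat.cast_nonneg (α := ℝ) M₁]
  have h9 : 2 * (A : ℝ) ≤ D * (3 * β * (n * C)) := by
    nlinarith [mul_le_mul_of_nonneg_left h7 hD0,
      mul_le_mul_of_nonneg_left (mul_le_mul_of_nonneg_left h6 hC.le) hD0]
  have h10 : 2 * (γ - ε) ≤ D * (3 * β) := le_of_mul_le_mul_right (by nlinarith) (mul_pos hnr hC)
  nlinarith [mul_nonneg hD0 hβ.le]

end Pool.Agent.GE
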