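import Pool.Agent.Lib.MP_a01f70_lc.GK.EIa
import Pool.Agent.Lib.MP_a01f70_lc.GK.EMain

/-! Moves in the limit. -/

namespace Pool.Agent.GK
open Finset Filter

variable {U : Ultrafilter ℕ} {n : ℕ → ℕ} {m r : ℕ} [NeZero m] (L : Lim U n m r)

theorem Lim.ps_sm (i : ℕ) (P : Multiset (ℤ × (Fin r → ℤ))) :
    GE.Ps P.card P.card (L.ev i (sm m P)) :=
  ⟨P.map fun γ => (L.Φ i γ).val, by simp, by simp, by
    rw [sm, map_multiset_sum, Multiset.map_map, Multiset.map_map]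
    exact congrArg _ (Multiset.map_congr rfl fun γ _ => L.ev_mon i γ)⟩

theorem Lim.dicho (d : ℕ → ℕ) (S : Finset (GR m (Fin r → ℤ))) : ∃ s : ℕ, ∀ T : ℕ, ∀ᶠ i in U,
    ∀ η ∈ S, (L.InI d η ∧ Wt s (L.ev i η * d i)) ∨ ¬ Wt T (L.ev i η * d i) := by
  classical
  have h : ∀ η, ∃ s : ℕ, L.InI d η → ∀ᶠ i in U, Wt s (L.ev i η * d i) := fun η => by
    by_cases hη : L.InI d η
    · exact hη.imp fun s hs _ => hs
    · exact ⟨0, fun h => absurd h hη⟩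
  choose s hs using h
  refine ⟨S.sup s, fun T => (eventually_all_finset S).2 fun η hη => ?_⟩
  by_cases h : L.InI d η
  · exact (hs η h).mono fun i hi => Or.inl ⟨h, hi.mono (le_sup hη)⟩
  · exact (Ultrafilter.eventually_not.2 fun h' => h ⟨T, h'⟩).mono fun i hi => Or.inr hi

theorem Lim.move {d : ℕ → ℕ} (hd : ∀ i, Dn (n i) (d i)) {J : Type} [Fintype J]
    {γ : J → ℤ × (Fin r → ℤ)} (hγ : Function.Injective γ) {θ : J → ℝ}
    (hθ : ∀ j, 0 < θ j ∧ θ j < 1 / 2) {q p Q P : Multiset (ℤ × (Fin r → ℤ))} (hq : q ≠ 0)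
    (hc : Q.card + P.card < Fintype.card J) (hs : Small U n (L.er d (sm m q) (sm m p)))
    (hne : ∀ᶠ i in U, L.er d (sm m q) (sm m p) i ≠ 0)
    (hu : ∀ᶠ i in U, IsUnit (L.ev i (sm m q)))
    (hrel : sm m q * (∑ j, mon m (γ j) - sm m P) = sm m p * sm m Q)
    (hL : ∀ ν : J → ℤ, L.InI d (∑ j, ν j • mon m (-γ j)) → ∃ z : ℤ, ∑ j, ν j * θ j = z) :
    False := by
  classical
  obtain ⟨M, hM⟩ := GE.fin_main θ hθ (q.card + p.card)
  obtain ⟨s, h1⟩ := L.dicho d ((Fintype.piFinset fun _ : J => Icc (-M : ℤ) M).image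
    fun ν => ∑ j, ν j • mon m (-γ j))
  obtain ⟨T, t, n₀, ht, hM⟩ := hM s
  have h2 : ∀ᶠ i in U, ∀ a ∈ (Icc (-M : ℤ) M).erase 0, ¬ Wt T (L.ev i (a • mon m 0) * d i) :=
    (eventually_all_finset _).2 fun a ha => Ultrafilter.eventually_not.2 fun h =>
      L.not_inI hs hne (L.isUnit_int (ne_of_mem_erase ha) 0) ⟨T, h⟩
  have h3 : ∀ᶠ i in U, ∀ j j', j ≠ j' → L.Φ i (γ j - γ j') ≠ 0 :=
    eventually_all.2 fun j => eventually_all.2 fun j' => by
      by_cases h : j = j'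
      · exact Eventually.of_forall fun i h' => absurd h h'
      · exact (L.inj _ (sub_ne_zero.2 (hγ.ne h))).mono fun i hi _ => hi
  obtain ⟨i, ⟨⟨⟨⟨⟨a1, a2⟩, a3⟩, a4⟩, g, a5, a6, a7⟩, u, a8⟩⟩ :=
    ((((((h1 T).and h2).and h3).and (L.big n₀)).and (hs.pow ht)).and
      (hu.mono fun i hi => hi.exists_left_inv)).exists
  have hn := L.two i
  have hp : 2 ≤ 2 ^ n i := le_trans hn Nat.lt_two_pow_self.le
  haveI : NeZero (n i) := ⟨by omega⟩
  haveI : NeZero (2 ^ n i - 1) := ⟨by omega⟩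
  have e : ∀ ν : J → ℤ, ∑ j, (ν j : ZMod (2 ^ n i - 1)) *
      Pool.Agent.Lib.MP_a01f70_lc.BA.pw (2 ^ n i - 1) (L.Φ i (-γ j)) =
      L.ev i (∑ j, ν j • mon m (-γ j)) := fun ν => by
    rw [map_sum]
    exact sum_congr rfl fun j _ => by rw [map_zsmul, zsmul_eq_mul, L.ev_mon]; rfl
  refine hM (n i) (2 ^ n i - 1) (d i) a4 (by omega) (hd i) (fun j => L.Φ i (-γ j))
    (fun j j' h => by_contra fun hj => a3 j j' hj ?_) (fun ν hν => ?_) (fun a h0 ha => ?_) _ _ g _ _ _ _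
    (u * L.ev i (sm m Q)) hc ((L.ps_sm i Q).mono (Nat.zero_le _) le_rfl)
    ((L.ps_sm i P).mono (Nat.zero_le _) le_rfl)
    ((L.ps_sm i q).mono (Multiset.card_pos.2 hq) (Nat.le_add_right _ _))
    ((L.ps_sm i p).mono (Nat.zero_le _) (Nat.le_add_left _ _)) ?_ a5 a6 a7
  · simp only [map_neg, neg_inj] at h
    rw [map_sub, h, sub_self]
  · rw [e]
    exact (a1 _ (mem_image_of_mem _ (Fintype.mem_piFinset.2 fun j =>
      mem_Icc.2 (abs_le.1 (hν j))))).imp (fun h => ⟨hL ν h.1, h.2⟩) id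
  · have := a2 a (mem_erase.2 ⟨h0, mem_Icc.2 (abs_le.1 ha)⟩)
    rwa [mon_zero, map_zsmul, map_one, zsmul_one] at this
  · have e2 : ∑ j, Pool.Agent.Lib.MP_a01f70_lc.BA.pw (2 ^ n i - 1) (-L.Φ i (-γ j)) =
        L.ev i (∑ j, mon m (γ j)) := by
      rw [map_sum]
      exact sum_congr rfl fun j _ => by rw [map_neg, neg_neg, L.ev_mon]; rfl
    have e3 := congrArg (L.ev i) hrel
    rw [map_mul, map_mul, map_sub] at e3
    rw [e2]
    linear_combination -u * e3 - (d i * L.ev i (sm m Q) -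
      (L.ev i (∑ j, mon m (γ j)) - L.ev i (sm m P))) * a8

end Pool.Agent.GK
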