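import Pool.Agent.Lib.MP_a01f70_lc.GK.GRb

/-! Complex characters of the group ring, and lattices in the plane. -/

namespace Pool.Agent.GK
open Finset

/-- `L` projects injectively to the first coordinate, so it is cyclic (`Int.subgroup_cyclic`), generated by `(a, b)`. If it is
not zero then `a, b ≠ 0`. Opposite signs: `s = |b| / (2 (|a| + |b|))`, `s' = |a| / (2 (|a| + |b|))`. Equal signs:
`|a| + |b| ≥ 3`, `s = s' = 1 / (|a| + |b|)`. -/
theorem exists_two (L : AddSubgroup (ℤ × ℤ)) (h1 : ∀ a, (a, 0) ∈ L → a = 0)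
    (h2 : ∀ b, (0, b) ∈ L → b = 0) (h3 : (1, 1) ∉ L) :
    ∃ s s' : ℝ, (0 < s ∧ s < 1 / 2) ∧ (0 < s' ∧ s' < 1 / 2) ∧
      ∀ a b : ℤ, (a, b) ∈ L → ∃ z : ℤ, a * s + b * s' = z := by
  have key : ∀ a b : ℤ, (a, b) ∈ L → 0 < a → ∃ s s' : ℝ, (0 < s ∧ s < 1 / 2) ∧
      (0 < s' ∧ s' < 1 / 2) ∧ ∃ z : ℤ, a * s + b * s' = z := by
    intro a b h ha
    have ha' : (0 : ℝ) < a := by exact_mod_cast ha
    rcases lt_trichotomy b 0 with hb | rfl | hb
    · have hb' : (0 : ℝ) < -b := by exact_mod_cast neg_pos.2 hb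
      have : (0 : ℝ) < 2 * (a + -b) := by positivity
      refine ⟨-b / (2 * (a + -b)), a / (2 * (a + -b)), ⟨by positivity, ?_⟩, ⟨by positivity, ?_⟩,
        0, by rw [Int.cast_zero]; ring⟩ <;> rw [div_lt_iff₀ this] <;> linarith
    · exact absurd (h1 a h) ha.ne'
    · have h4 : 3 ≤ a + b := by
        by_contra h5
        obtain rfl : a = 1 := by omega
        obtain rfl : b = 1 := by omega
        exact h3 h
      have h5 : (3 : ℝ) ≤ a + b := by exact_mod_cast h4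
      have h6 : 0 < 1 / ((a : ℝ) + b) ∧ 1 / ((a : ℝ) + b) < 1 / 2 :=
        ⟨by positivity, one_div_lt_one_div_of_lt two_pos (by linarith)⟩
      exact ⟨_, _, h6, h6, 1, by rw [← add_mul, mul_one_div_cancel (by positivity), Int.cast_one]⟩
  obtain ⟨a, ha⟩ := Int.subgroup_cyclic (L.map (AddMonoidHom.fst ℤ ℤ))
  obtain ⟨⟨_, b⟩, hb, rfl⟩ := ha.ge (AddSubgroup.mem_closure_singleton_self a)
  rename_i a
  obtain ⟨s, s', hs, hs', z, hz⟩ : ∃ s s' : ℝ, (0 < s ∧ s < 1 / 2) ∧ (0 < s' ∧ s' < 1 / 2) ∧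
      ∃ z : ℤ, a * s + b * s' = z := by
    rcases lt_trichotomy a 0 with h | rfl | h
    · obtain ⟨s, s', hs, hs', z, hz⟩ := key (-a) (-b) (L.neg_mem hb) (neg_pos.2 h)
      refine ⟨s, s', hs, hs', -z, ?_⟩
      push_cast at hz ⊢
      linarith
    · obtain rfl := h2 b hb
      exact ⟨1 / 4, 1 / 4, by norm_num, by norm_num, 0, by simp⟩
    · exact key a b hb h
  refine ⟨s, s', hs, hs', fun a' b' h => ?_⟩
  obtain ⟨k, hk⟩ := AddSubgroup.mem_closure_singleton.1 (ha.le ⟨_, h, rfl⟩)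
  obtain rfl : k * a = a' := hk
  have h4 := h2 (b' - k * b) (by simpa using L.sub_mem h (L.zsmul_mem hb k))
  refine ⟨k * z, ?_⟩
  rw [sub_eq_zero.1 h4]
  push_cast
  rw [← hz]
  ring

/-- `lam w = w j / v j` -/
theorem eqa_lam {r : ℕ} {v : Fin r → ℤ} (hv : v ≠ 0) :
    ∃ lam : (Fin r → ℤ) →+ ℝ, lam v = 1 := by
  obtain ⟨j, hj⟩ := Function.ne_iff.1 hv
  exact ⟨AddMonoidHom.mk' (fun w => (w j : ℝ) / v j) fun a b => by simp [add_div],
    div_self (Int.cast_ne_zero.2 hj)⟩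

/-- If `u j / v j = c` is an integer then `u' = u - c • v ≠ 0`, `u' j = 0`, `u' l ≠ 0`; add
`w ↦ (w l - v l / v j * w j) / (2 * u' l)`. -/
theorem eqa_lam_ne {r : ℕ} {u v : Fin r → ℤ} (hv : v ≠ 0) (hu : ∀ c : ℤ, u ≠ c • v) :
    ∃ lam : (Fin r → ℤ) →+ ℝ, lam v = 1 ∧ ∀ c : ℤ, lam u ≠ c := by
  obtain ⟨j, hj⟩ := Function.ne_iff.1 hv
  have hj' : (v j : ℝ) ≠ 0 := Int.cast_ne_zero.2 hj
  by_cases h : ∀ c : ℤ, (u j : ℝ) / v j ≠ c
  · exact ⟨AddMonoidHom.mk' (fun w => (w j : ℝ) / v j) fun a b => by simp [add_div],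
      div_self hj', h⟩
  push Not at h
  obtain ⟨c, hc⟩ := h
  obtain ⟨l, hl⟩ := Function.ne_iff.1 (hu c)
  have hl' : (u l : ℝ) - c * v l ≠ 0 := by exact_mod_cast sub_ne_zero.2 hl
  refine ⟨AddMonoidHom.mk' (fun w => (w j : ℝ) / v j +
    (w l - w j / v j * v l) / (u l - c * v l) / 2) fun a b => ?_, ?_, fun c' h => ?_⟩
  · simp only [Pi.add_apply, Int.cast_add]
    ring
  · simp [div_self hj']
  · rw [AddMonoidHom.mk'_apply, hc, div_self hl'] at h
    have : 2 * c + 1 = 2 * c' := by exact_mod_cast (by linarith : (2 * c + 1 : ℝ) = 2 * c')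
    omega

variable {m : ℕ}

/-- as in the definition of `evC` -/
theorem exists_chi {Λ : Type} [AddCommGroup Λ] (lam : Λ →+ ℝ) (z : ℂ) :
    ∃ χ : GR m Λ →+* ℂ, ∀ v x, χ (AddMonoidAlgebra.single v x) =
      ((x : ℝ) : ℂ) * Complex.exp (lam v * z) := by
  refine ⟨AddMonoidAlgebra.liftNCRingHom (Complex.ofRealHom.comp (O m).subtype)
    ⟨⟨fun v => Complex.exp (lam v.toAdd * z), by simp⟩, fun a b => by
      simp [add_mul, Complex.exp_add]⟩ fun _ _ => Commute.all _ _, fun v x => ?_⟩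
  exact AddMonoidAlgebra.liftNC_single _ _ _ _

/-- the positive character (`exists_chi` with `z = 0`, real part) -/
theorem sum_tr_eq_zero {Λ J : Type} [AddCommGroup Λ] [Fintype J] {ν : J → ℤ} {γ : J → ℤ × Λ}
    (h : ∑ j, ν j • mon m (γ j) = 0) : ∑ j, ν j * tr m (γ j).1 = 0 := by
  obtain ⟨χ, hχ⟩ := exists_chi (m := m) (0 : Λ →+ ℝ) 0
  have := congrArg χ h
  simp only [map_sum, map_mul, map_intCast, mon, hχ, mul_zero, Complex.exp_zero, mul_one, map_zero, coe_tz,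
    zsmul_eq_mul] at this
  exact_mod_cast this

variable {r : ℕ} {α β : ℤ × (Fin r → ℤ)} {x y : ℤ}

theorem eqa_chi (lam : (Fin r → ℤ) →+ ℝ) (h : lam β.2 = 1) : ∃ χ : GR m (Fin r → ℤ) →+* ℂ,
    χ (mon m β) = -1 ∧ (∀ f, 1 + mon m β ∣ f → χ f = 0) ∧ ∀ γ, χ (mon m γ) =
      (tr m γ.1 * Real.exp (-(lam γ.2 * Real.log (tr m β.1))) : ℝ) *
        Complex.exp ((lam γ.2 * Real.pi : ℝ) * Complex.I) := by
  obtain ⟨χ, hχ⟩ := exists_chi (m := m) lam (-Real.log (tr m β.1) + Real.pi * Complex.I)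
  have e3 : ∀ γ, χ (mon m γ) = (tr m γ.1 * Real.exp (-(lam γ.2 * Real.log (tr m β.1))) : ℝ) *
      Complex.exp ((lam γ.2 * Real.pi : ℝ) * Complex.I) := by
    intro γ
    rw [mon, hχ, coe_tz, mul_add, Complex.exp_add]
    simp only [Complex.ofReal_mul, Complex.ofReal_exp, Complex.ofReal_neg, mul_neg, mul_assoc]
  have e1 : χ (mon m β) = -1 := by
    rw [e3, h, one_mul, one_mul, Real.exp_neg, Real.exp_log (tr_pos _),
      mul_inv_cancel₀ (tr_pos _).ne', Complex.exp_pi_mul_I, Complex.ofReal_one, one_mul]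
  refine ⟨χ, e1, ?_, e3⟩
  rintro _ ⟨g, rfl⟩
  rw [map_mul, map_add, map_one, e1, add_neg_cancel, zero_mul]

theorem eqa_zero {v : Fin r → ℤ} {a b : O m} (h : x * (a : ℝ) + y * b = 0) :
    x • (AddMonoidAlgebra.single v a : GR m (Fin r → ℤ)) + y • AddMonoidAlgebra.single v b = 0 := by
  have : x • a + y • b = 0 := Subtype.ext (by simpa using h)
  rw [AddMonoidAlgebra.smul_single, AddMonoidAlgebra.smul_single, ← AddMonoidAlgebra.single_add,
    this, AddMonoidAlgebra.single_zero]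

/-- `exists_chi` with `lam` from `eqa_lam_ne` and `z = -log (tr β.1) + π i`: `χ (mon β) = -1` and `χ (mon α)` is not real -/
theorem rho_gen (hβ : β.2 ≠ 0) (hα : ∀ c : ℤ, α.2 ≠ c • β.2)
    (h : 1 + mon m β ∣ (x • mon m α + y • mon m β) * (1 + mon m α)) : x = 0 ∧ y = 0 := by
  obtain ⟨lam, h1, h2⟩ := eqa_lam_ne hβ hα
  obtain ⟨χ, e1, e2, e3⟩ := eqa_chi (m := m) lam h1
  have h3 := e2 _ h
  have him : (χ (mon m α)).im ≠ 0 := by
    rw [e3, Complex.im_ofReal_mul, Complex.exp_ofReal_mul_I_im]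
    refine mul_ne_zero (mul_pos (tr_pos _) (Real.exp_pos _)).ne' fun e => ?_
    obtain ⟨n, hn⟩ := Real.sin_eq_zero_iff.1 e
    exact h2 n (mul_right_cancel₀ Real.pi_ne_zero hn).symm
  simp only [map_mul, map_add, map_intCast, map_one, e1, zsmul_eq_mul] at h3
  have h4 := (mul_eq_zero.1 h3).resolve_right fun e => him (by simpa using congrArg Complex.im e)
  obtain rfl : x = 0 := by simpa [him] using congrArg Complex.im h4
  simpa using h4

/-- `χ (mon α) = -tr (α.1 - β.1) ≠ -1`, so `x * tr α.1 + y * tr β.1 = 0` -/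
theorem rho_same [NeZero m] (hβ : β.2 ≠ 0) (hα : α.2 = β.2) (hne : α ≠ β)
    (h : 1 + mon m β ∣ (x • mon m α + y • mon m β) * (1 + mon m α)) :
    x • mon m α + y • mon m β = 0 := by
  obtain ⟨lam, h1⟩ := eqa_lam hβ
  obtain ⟨χ, e1, e2, e3⟩ := eqa_chi (m := m) lam h1
  have h3 := e2 _ h
  have hb := (tr_pos (m := m) β.1).ne'
  simp only [map_mul, map_add, map_intCast, map_one, e1, zsmul_eq_mul] at h3
  rw [e3, hα, h1, one_mul, one_mul, Real.exp_neg, Real.exp_log (tr_pos _),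
    Complex.exp_pi_mul_I] at h3
  have h4 : (x * (tr m α.1 * (tr m β.1)⁻¹ * -1) + y * -1) *
    (1 + tr m α.1 * (tr m β.1)⁻¹ * -1) = 0 := by exact_mod_cast h3
  have h5 := (mul_eq_zero.1 h4).resolve_right fun e =>
    hne (Prod.ext (tr_strictMono (m := m).injective (by field_simp at e; linarith)) hα)
  rw [mon, mon, hα]
  refine eqa_zero ?_
  rw [coe_tz, coe_tz]
  field_simp at h5
  linarith

/-- `χ (mon α) = tr α.1 > 0`, so `x * tr α.1 + y = 0` -/
theorem rho_fin (hβ : β.2 ≠ 0) (hα : α.2 = 0)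
    (h : 1 + mon m β ∣ (x • mon m α + y • 1) * (1 + mon m α)) : x • mon m α + y • 1 = 0 := by
  obtain ⟨lam, h1⟩ := eqa_lam hβ
  obtain ⟨χ, -, e2, e3⟩ := eqa_chi (m := m) lam h1
  have h3 := e2 _ h
  simp only [map_mul, map_add, map_intCast, map_one, zsmul_eq_mul, e3, hα, map_zero, zero_mul,
    neg_zero, Real.exp_zero, Complex.ofReal_zero, Complex.exp_zero, mul_one] at h3
  have h4 : (x * tr m α.1 + y) * (1 + tr m α.1) = 0 := by exact_mod_cast h3
  have h5 := (mul_eq_zero.1 h4).resolve_right (add_pos one_pos (tr_pos _)).ne'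
  rw [mon, hα, AddMonoidAlgebra.one_def]
  exact eqa_zero (by simpa [coe_tz] using h5)

end Pool.Agent.GK
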