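import Pool.Agent.Lib.MP_a01f70_lc.GK.EIb
import Pool.Agent.Lib.MP_a01f70_lc.GK.ELim
import Pool.Agent.Lib.MP_a01f70_lc.GK.EQa

/-! Moves for quotients of binomials. -/

namespace Pool.Agent.GK
open Finset

variable {U : Ultrafilter ℕ} {n : ℕ → ℕ} {m r : ℕ} [NeZero m] (L : Lim U n m r) {d : ℕ → ℕ}

theorem eqb_false {x e : ∀ i, ZMod (2 ^ n i - 1)} (hne : ∀ᶠ i in U, e i ≠ 0)
    (hu : ∀ᶠ i in U, IsUnit (x i)) (h : ∀ᶠ i in U, x i * e i = 0) : False := by
  obtain ⟨i, h1, h2, h3⟩ := (hne.and (hu.and h)).exists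
  exact h1 (h2.mul_right_eq_zero.1 h3)

theorem eqb_binom (i : ℕ) (β : ℤ × (Fin r → ℤ)) : IsUnit (L.ev i (1 + mon m β)) := by
  have h := L.isUnit_ev_binom i 0 β
  rwa [mon_zero] at h

/-- `exists_two` for the subgroup of all `(a, b)` with `ev (a • mon α + b • 1) * e = 0` eventually
(`isUnit_int`, `isUnit_ev_binom`) -/
theorem Lim.two_dim {e : ∀ i, ZMod (2 ^ n i - 1)} (hne : ∀ᶠ i in U, e i ≠ 0) (α : ℤ × (Fin r → ℤ)) :
    ∃ s s' : ℝ, (0 < s ∧ s < 1 / 2) ∧ (0 < s' ∧ s' < 1 / 2) ∧ ∀ a b : ℤ,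
      (∀ᶠ i in U, L.ev i (a • mon m α + b • 1) * e i = 0) → ∃ z : ℤ, a * s + b * s' = z := by
  let S : AddSubgroup (ℤ × ℤ) :=
    { carrier := {z | ∀ᶠ i in U, L.ev i (z.1 • mon m α + z.2 • 1) * e i = 0}
      zero_mem' := Filter.Eventually.of_forall fun i => by simp
      add_mem' := fun {a b} ha hb => (Filter.Eventually.and ha hb).mono fun i h => by
        have h1 := h.1
        have h2 := h.2
        simp only [Prod.fst_add, Prod.snd_add, map_add, map_zsmul, add_smul] at h1 h2 ⊢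
        linear_combination h1 + h2
      neg_mem' := fun {a} ha => Filter.Eventually.mono ha fun i h => by
        simp only [Prod.fst_neg, Prod.snd_neg, map_add, map_zsmul, neg_smul, map_neg] at h ⊢
        linear_combination -h }
  have hS : ∀ a b : ℤ, (a, b) ∈ S ↔ ∀ᶠ i in U, L.ev i (a • mon m α + b • 1) * e i = 0 :=
    fun _ _ => Iff.rfl
  obtain ⟨s, s', h1, h2, h3⟩ := exists_two S (fun a ha => by
      by_contra h0
      rw [hS, zero_smul, add_zero] at ha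
      exact eqb_false hne (L.isUnit_int h0 α) ha)
    (fun b hb => by
      by_contra h0
      rw [hS, zero_smul, zero_add, ← mon_zero] at hb
      exact eqb_false hne (L.isUnit_int h0 0) hb)
    (fun h => by
      rw [hS, one_smul, one_smul, add_comm] at h
      exact eqb_false hne (Filter.Eventually.of_forall fun i => eqb_binom L i α) h)
  exact ⟨s, s', h1, h2, fun a b h => h3 a b ((hS a b).2 h)⟩

/-- `Lim.move` with `q = Q = {0}`, `p = {γ, γ + α}`, `P = 0`, sites `![γ, γ + α]`, `θ = ![s, s']`;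
`mon (γ + α) * η = ν 0 • mon α + ν 1 • 1` (`InI.mul`, `kill`) -/
theorem Lim.two_sites (hd : ∀ i, Dn (n i) (d i)) {γ α : ℤ × (Fin r → ℤ)} (hα : α ≠ 0)
    (hs : Small U n (L.er d 1 (mon m γ * (1 + mon m α))))
    (hne : ∀ᶠ i in U, L.er d 1 (mon m γ * (1 + mon m α)) i ≠ 0) : False := by
  obtain ⟨s, s', h1, h2, h3⟩ := L.two_dim hne α
  have eq : sm m ({0} : Multiset (ℤ × (Fin r → ℤ))) = 1 := by simp [sm, mon_zero]
  have ep : sm m ({γ, γ + α} : Multiset (ℤ × (Fin r → ℤ))) = mon m γ * (1 + mon m α) := by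
    simp [sm, mon_add, mul_add]
  refine L.move hd (J := Fin 2) (γ := ![γ, γ + α]) (θ := ![s, s']) (q := {0}) (p := {γ, γ + α})
    (Q := {0}) (P := 0) ?_ ?_ (by simp) (by simp) (by rwa [eq, ep]) (by rwa [eq, ep]) ?_ ?_ ?_
  · intro a b hab
    fin_cases a <;> fin_cases b <;> simp_all
  · intro j
    fin_cases j
    · exact h1
    · exact h2
  · exact Filter.Eventually.of_forall fun i => by rw [eq, map_one]; exact isUnit_one
  · rw [eq, ep]
    simp [sm, mon_add, mul_add]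
  · intro ν hν
    have h4 := hν.mul (mon m (γ + α))
    have h5 : mon m (γ + α) * ∑ j, ν j • mon m (-![γ, γ + α] j) = ν 0 • mon m α + ν 1 • 1 := by
      rw [Fin.sum_univ_two, mul_add, mul_smul_comm, mul_smul_comm, ← mon_add, ← mon_add]
      simp [mon_zero]
    rw [h5] at h4
    obtain ⟨z, hz⟩ := h3 _ _ (L.kill hs h4)
    exact ⟨z, by rw [Fin.sum_univ_two]; exact hz⟩

theorem eqb_move (hd : ∀ i, Dn (n i) (d i)) {γ α β : ℤ × (Fin r → ℤ)} (h1 : α ≠ 0) (h2 : β ≠ 0)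
    (h3 : α ≠ β) (h4 : α + β ≠ 0)
    (hs : Small U n (L.er d (1 + mon m β) (mon m γ * (1 + mon m α))))
    (hne : ∀ᶠ i in U, L.er d (1 + mon m β) (mon m γ * (1 + mon m α)) i ≠ 0)
    {θ : Fin 4 → ℝ} (hθ : ∀ j, 0 < θ j ∧ θ j < 1 / 2)
    (hL : ∀ (ν : Fin 4 → ℤ) (η : GR m (Fin r → ℤ)),
      η = ν 0 • (mon m α * mon m β) + ν 1 • mon m α + ν 2 • mon m β + ν 3 • 1 → L.InI d η →
      1 + mon m β ∣ η * (1 + mon m α) → ∃ z : ℤ, ∑ j, ν j * θ j = z) : False := by
  have eq : sm m ({0, β} : Multiset (ℤ × (Fin r → ℤ))) = 1 + mon m β := by simp [sm, mon_zero]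
  have ep : sm m ({γ, γ + α} : Multiset (ℤ × (Fin r → ℤ))) = mon m γ * (1 + mon m α) := by
    simp [sm, mon_add, mul_add]
  have eQ : sm m ({0, β + ((m : ℤ), 0), β + β} : Multiset (ℤ × (Fin r → ℤ))) =
      (1 + mon m β) ^ 2 := by
    simp only [sm, Multiset.insert_eq_cons, Multiset.map_cons, Multiset.map_singleton,
      Multiset.sum_cons, Multiset.sum_singleton, mon_zero, mon_add_sig, mon_add β β, two_smul]
    ring
  have e0 : sm m (0 : Multiset (ℤ × (Fin r → ℤ))) = 0 := by simp [sm]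
  have h3' : β ≠ α := h3.symm
  refine L.move hd (J := Fin 4) (γ := ![γ, γ + β, γ + α, γ + α + β]) (θ := θ) (q := {0, β})
    (p := {γ, γ + α}) (Q := {0, β + ((m : ℤ), 0), β + β}) (P := 0) ?_ hθ (by simp) (by simp)
    (by rwa [eq, ep]) (by rwa [eq, ep]) ?_ ?_ ?_
  · intro a b hab
    fin_cases a <;> fin_cases b <;> simp_all [add_assoc]
  · exact Filter.Eventually.of_forall fun i => by rw [eq]; exact eqb_binom L i β
  · rw [eq, ep, eQ, e0, Fin.sum_univ_four]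
    simp only [Matrix.cons_val_zero, Matrix.cons_val_one, Matrix.cons_val, mon_add]
    ring
  · intro ν hν
    have h5 := hν.mul (mon m (γ + α + β))
    have h6 : mon m (γ + α + β) * ∑ j, ν j • mon m (-![γ, γ + β, γ + α, γ + α + β] j) =
        ν 0 • (mon m α * mon m β) + ν 1 • mon m α + ν 2 • mon m β + ν 3 • 1 := by
      rw [Fin.sum_univ_four]
      simp only [mul_add, mul_smul_comm, ← mon_add, Matrix.cons_val_zero, Matrix.cons_val_one,
        Matrix.cons_val]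
      rw [← mon_zero]
      congr 5 <;> abel
    rw [h6] at h5
    refine hL ν _ rfl h5 ?_
    have h7 := L.dvd_of_inI hs h5
    rw [mul_left_comm] at h7
    exact (isUnit_mon γ).dvd_mul_left.1 h7

theorem eqb_rho (hd : ∀ i, Dn (n i) (d i)) {γ α β : ℤ × (Fin r → ℤ)} (h1 : α ≠ 0) (h2 : β ≠ 0)
    (h3 : α ≠ β) (h4 : α + β ≠ 0)
    (hs : Small U n (L.er d (1 + mon m β) (mon m γ * (1 + mon m α))))
    (hne : ∀ᶠ i in U, L.er d (1 + mon m β) (mon m γ * (1 + mon m α)) i ≠ 0)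
    (hρ : ∀ x y : ℤ, 1 + mon m β ∣ (x • mon m α + y • mon m β) * (1 + mon m α) →
      x • mon m α + y • mon m β = 0) : False := by
  obtain ⟨s, s', ⟨a1, a2⟩, ⟨b1, b2⟩, hz⟩ := L.two_dim hne α
  have ta : 0 < tr m α.1 := tr_pos _
  have tb : 0 < tr m β.1 := tr_pos _
  obtain ⟨ε, hε⟩ : ∃ ε : ℝ, ε = s * s' / (tr m α.1 + tr m β.1) := ⟨_, rfl⟩
  have e0 : 0 < ε := by rw [hε]; positivity
  have e1 : ε * tr m α.1 + ε * tr m β.1 = s * s' := by
    rw [← mul_add, hε, div_mul_cancel₀ _ (add_pos ta tb).ne']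
  have e2 := mul_pos e0 ta
  have e3 := mul_pos e0 tb
  have e4 : s * s' < s := by nlinarith
  have e5 : s * s' < s' := by nlinarith
  refine eqb_move L hd h1 h2 h3 h4 hs hne
    (θ := ![s - ε * tr m α.1, ε * tr m α.1, ε * tr m β.1, s' - ε * tr m β.1]) ?_ ?_
  · intro j
    fin_cases j <;> constructor <;> simp <;> linarith
  · intro ν η hη hI hdv
    have c1 : η = (1 + mon m β) * (ν 0 • mon m α + ν 3 • 1) +
        ((ν 1 - ν 0) • mon m α + (ν 2 - ν 3) • mon m β) := by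
      rw [hη]
      simp only [zsmul_eq_mul]
      push_cast
      ring
    have c2 := hρ (ν 1 - ν 0) (ν 2 - ν 3) (by
      rw [c1, add_mul, mul_assoc] at hdv
      exact (dvd_add_right (dvd_mul_right _ _)).1 hdv)
    rw [c2, add_zero] at c1
    obtain ⟨z, c3⟩ := hz (ν 0) (ν 3) (by
      filter_upwards [L.kill hs hI] with i hi
      rw [c1, map_mul, mul_assoc] at hi
      exact (eqb_binom L i β).mul_right_eq_zero.1 hi)
    have c4 := sum_tr_eq_zero (m := m) (ν := ![ν 1 - ν 0, ν 2 - ν 3]) (γ := ![α, β])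
      (by rw [Fin.sum_univ_two]; exact c2)
    rw [Fin.sum_univ_two] at c4
    simp only [Matrix.cons_val_zero, Matrix.cons_val_one, Int.cast_sub] at c4
    refine ⟨z, ?_⟩
    rw [Fin.sum_univ_four]
    simp only [Matrix.cons_val_zero, Matrix.cons_val_one, Matrix.cons_val]
    linear_combination c3 + ε * c4

theorem eqb_fin (hd : ∀ i, Dn (n i) (d i)) {γ α β : ℤ × (Fin r → ℤ)} (hβ : β.2 ≠ 0) (hα : α.2 = 0)
    (h1 : α ≠ 0) (hs : Small U n (L.er d (1 + mon m β) (mon m γ * (1 + mon m α))))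
    (hne : ∀ᶠ i in U, L.er d (1 + mon m β) (mon m γ * (1 + mon m α)) i ≠ 0) : False := by
  obtain ⟨t, ht⟩ : ∃ t : Fin 4 → ℝ, ∀ j, t j = tr m (![α + β, α, β, 0] j).1 := ⟨_, fun _ => rfl⟩
  have t0 : ∀ j, 0 < t j := fun j => by rw [ht]; exact tr_pos _
  have t1 : ∀ j, t j ≤ ∑ j, t j := fun j => single_le_sum (fun j _ => (t0 j).le) (mem_univ j)
  have t2 : 0 < 2 * ∑ j, t j + 1 := by linarith [t0 0, t1 0]
  refine eqb_move L hd h1 (fun h => hβ (by rw [h]; rfl)) (fun h => hβ (by rw [← h, hα]))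
    (fun h => hβ (by simpa [hα] using congrArg Prod.snd h)) hs hne
    (θ := fun j => t j / (2 * ∑ j, t j + 1)) ?_ ?_
  · intro j
    refine ⟨div_pos (t0 j) t2, ?_⟩
    rw [div_lt_iff₀ t2]
    linarith [t1 j]
  · intro ν η hη hI hdv
    have c1 : η = (1 + mon m β) * (ν 0 • mon m α + ν 2 • 1) +
        ((ν 1 - ν 0) • mon m α + (ν 3 - ν 2) • 1) := by
      rw [hη]
      simp only [zsmul_eq_mul]
      push_cast
      ring
    have c2 := rho_fin (m := m) (x := ν 1 - ν 0) (y := ν 3 - ν 2) hβ hα (by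
      rw [c1, add_mul, mul_assoc] at hdv
      exact (dvd_add_right (dvd_mul_right _ _)).1 hdv)
    rw [c2, add_zero] at c1
    have c3 : (ν 0 • mon m α + ν 2 • 1 : GR m (Fin r → ℤ)) =
        AddMonoidAlgebra.single 0 (ν 0 • tz m α.1 + ν 2 • 1) := by
      rw [AddMonoidAlgebra.single_add, mon, hα, AddMonoidAlgebra.one_def,
        AddMonoidAlgebra.smul_single, AddMonoidAlgebra.smul_single]
    have c4 : η = 0 := by
      by_cases h0 : (ν 0 • tz m α.1 + ν 2 • 1 : O m) = 0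
      · rw [c1, c3, h0, AddMonoidAlgebra.single_zero, mul_zero]
      · refine absurd hI (L.not_inI hs hne ?_)
        filter_upwards [L.isUnit_ev_single 0 h0] with i hi
        rw [c1, c3, map_mul]
        exact (eqb_binom L i β).mul hi
    have c5 := sum_tr_eq_zero (m := m) (ν := ν) (γ := ![α + β, α, β, 0]) (by
      rw [Fin.sum_univ_four, ← c4, hη]
      simp only [Matrix.cons_val_zero, Matrix.cons_val_one, Matrix.cons_val, mon_add, mon_zero])
    refine ⟨0, ?_⟩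
    simp only [← mul_div_assoc, ← sum_div, ht]
    rw [c5, zero_div, Int.cast_zero]

/-- `Lim.move` with `q = {0, β}`, `p = {γ, γ + α}`, `Q = {0, β + σ, β + β}` (`σ = (m, 0)`, `mon_add_sig`), `P = 0`, sites
`![γ, γ + β, γ + α, γ + α + β]` (distinct in all three cases). If `η ∈ I` then
`η' = mon (γ + α + β) * η = ν 0 • mon α * mon β + ν 1 • mon α + ν 2 • mon β + ν 3 • 1 ∈ I` and `1 + mon β ∣ η' * (1 + mon α)`
(`dvd_of_inI`, `mon γ` is a unit).
Cases 1, 2: `η' = (1 + mon β) (ν 0 • mon α + ν 3 • 1) + ρ`, `ρ = (ν 1 - ν 0) • mon α + (ν 2 - ν 3) • mon β = 0` by `rho_gen`,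
`rho_same`. Take `s, s'` from `two_dim`, `ε > 0` small, `θ = ![s - ε tr α.1, ε tr α.1, ε tr β.1, s' - ε tr β.1]`; then
`ν · θ = ν 0 s + ν 3 s' + ε ((ν 1 - ν 0) tr α.1 + (ν 2 - ν 3) tr β.1)` (`sum_tr_eq_zero`).
Case 3: `η' = (1 + mon β) K + ((ν 1 - ν 0) • mon α + (ν 3 - ν 2) • 1)`, `K = ν 0 • mon α + ν 2 • 1 = single 0 _`; the bracket
vanishes by `rho_fin`; `K = 0` by `not_inI` (`isUnit_ev_binom`, `isUnit_ev_single`); so `η = 0`, and
`θ j = ε * tr (-(site j).1)` works (`sum_tr_eq_zero`). -/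
theorem Lim.four_sites (hd : ∀ i, Dn (n i) (d i)) {γ α β : ℤ × (Fin r → ℤ)} (hβ : β.2 ≠ 0)
    (hα : (∀ c : ℤ, α.2 ≠ c • β.2) ∨ (α.2 = β.2 ∧ α ≠ β) ∨ (α.2 = 0 ∧ α ≠ 0))
    (hs : Small U n (L.er d (1 + mon m β) (mon m γ * (1 + mon m α))))
    (hne : ∀ᶠ i in U, L.er d (1 + mon m β) (mon m γ * (1 + mon m α)) i ≠ 0) : False := by
  have h2 : β ≠ 0 := fun h => hβ (by rw [h]; rfl)
  rcases hα with h | ⟨h, h'⟩ | ⟨h, h'⟩
  · refine eqb_rho L hd (fun e => h 0 (by rw [e, zero_smul]; rfl)) h2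
      (fun e => h 1 (by rw [e, one_smul])) (fun e => h (-1) ?_) hs hne fun x y hxy => ?_
    · rw [eq_neg_of_add_eq_zero_left e, neg_smul, one_smul]
      rfl
    · obtain ⟨rfl, rfl⟩ := rho_gen hβ h hxy
      simp
  · refine eqb_rho L hd (fun e => hβ (by rw [← h, e]; rfl)) h2 h' (fun e => hβ ?_) hs hne
      fun x y hxy => rho_same hβ h h' hxy
    have e1 := congrArg Prod.snd e
    rw [Prod.snd_add, h] at e1
    funext j
    have e2 := congrFun e1 j
    simp only [Pi.add_apply, Prod.snd_zero, Pi.zero_apply] at e2 ⊢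
    omega
  · exact eqb_fin L hd hβ h h' hs hne

end Pool.Agent.GK
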