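import Pool.Agent.Lib.MP_a01f70_lc.GK.Bas1

namespace Pool.Agent.GK
open Finset Polynomial

theorem ker_exp {R : Type} [Field R] (k M : ℕ) (z : Fin k → R) :
    ∏ j, ((z j + 1) / 2) ^ M = ∑ a ∈ Fintype.piFinset fun _ : Fin k => range (M + 1),
      (∏ j, (M.choose (a j) : R) / 2 ^ M) * ∏ j, z j ^ a j := by
  simp only [div_pow, add_pow, sum_div, ← prod_mul_distrib]
  rw [prod_univ_sum]
  exact sum_congr rfl fun a _ => prod_congr rfl fun j _ => by ring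

theorem ker_sq {A : Type} (S : Finset A) (p : A → ℝ) (z : A → ℂ) :
    ‖∑ a ∈ S, (p a : ℂ) * z a‖ ^ 2 =
      ∑ a ∈ S, ∑ b ∈ S, p a * p b * (z a * (starRingEnd ℂ) (z b)).re := by
  rw [← Complex.normSq_eq_norm_sq, ← Complex.ofReal_re (Complex.normSq _), ← Complex.mul_conj,
    map_sum, sum_mul_sum, Complex.re_sum]
  refine sum_congr rfl fun a _ => ?_
  rw [Complex.re_sum]
  refine sum_congr rfl fun b _ => ?_
  rw [map_mul, Complex.conj_ofReal, mul_mul_mul_comm, ← Complex.ofReal_mul, Complex.re_ofReal_mul]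

theorem ker_low {A : Type} (S : Finset A) (p : A → ℝ) (g : A → A → ℝ) {c : ℝ} (hc : 0 ≤ c)
    (hp : ∀ a, 0 ≤ p a) (h1 : ∑ a ∈ S, p a = 1) (hd : ∀ a, g a a = 1)
    (hg : ∀ a ∈ S, ∀ b ∈ S, a ≠ b → -c ≤ g a b) :
    1 / S.card - c ≤ ∑ a ∈ S, ∑ b ∈ S, p a * p b * g a b := by
  classical
  have h2 : ∑ a ∈ S, ∑ b ∈ S, (p a * p b * -c + if a = b then p a ^ 2 else 0) =
      ∑ a ∈ S, p a ^ 2 - c := by
    simp only [sum_add_distrib, ← sum_mul, ← mul_sum, h1, sum_ite_eq]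
    rw [sum_congr rfl fun a ha => if_pos ha]
    ring
  have h3 : 1 / (S.card : ℝ) ≤ ∑ a ∈ S, p a ^ 2 := by
    have h4 := sq_sum_le_card_mul_sum_sq (s := S) (f := p)
    rw [h1, one_pow] at h4
    exact div_le_of_le_mul₀ (Nat.cast_nonneg _) (sum_nonneg fun _ _ => sq_nonneg _)
      (by rwa [mul_comm])
  refine (sub_le_sub_right h3 c).trans (h2.ge.trans (sum_le_sum fun a ha => sum_le_sum
    fun b hb => ?_))
  split_ifs with h
  · subst h
    rw [hd]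
    nlinarith [mul_nonneg (mul_nonneg (hp a) (hp a)) hc]
  · rw [add_zero]
    exact mul_le_mul_of_nonneg_left (hg a ha b hb h) (mul_nonneg (hp a) (hp b))

theorem ker_fac (x : Tc) : ‖(ee x + 1) / 2‖ ^ 2 ≤ Real.exp (-(4 * ‖x‖ ^ 2)) := by
  have h1 := re_ee_le x
  have h2 := Real.add_one_le_exp (-(4 * ‖x‖ ^ 2))
  rw [norm_div, div_pow, ← Complex.normSq_eq_norm_sq, Complex.normSq_add,
    Complex.normSq_eq_norm_sq, norm_ee]
  norm_num
  linarith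

theorem ker_up {k : ℕ} (M : ℕ) {η : ℝ} (hη : 0 < η) (θ : Fin k → Tc) :
    ‖∏ j, ((ee (θ j) + 1) / 2) ^ M‖ ^ 2 ≤
      (if ∀ j, ‖θ j‖ < η then 1 else 0) + Real.exp (-(4 * η ^ 2)) ^ M := by
  have h1 : ∀ j, (‖(ee (θ j) + 1) / 2‖ ^ 2) ^ M ≤ 1 := fun j => pow_le_one₀ (sq_nonneg _)
    ((ker_fac _).trans (Real.exp_le_one_iff.2 (neg_nonpos.2 (by positivity))))
  have h2 : ‖∏ j, ((ee (θ j) + 1) / 2) ^ M‖ ^ 2 = ∏ j, (‖(ee (θ j) + 1) / 2‖ ^ 2) ^ M := by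
    rw [norm_prod, ← prod_pow]
    exact prod_congr rfl fun j _ => by rw [norm_pow, pow_right_comm]
  rw [h2]
  split_ifs with h
  · exact (prod_le_one (fun _ _ => by positivity) fun j _ => h1 j).trans
      (le_add_of_nonneg_right (by positivity))
  · obtain ⟨j, hj⟩ := not_forall.1 h
    rw [zero_add, ← mul_prod_erase _ _ (mem_univ j)]
    refine (mul_le_of_le_one_right (by positivity)
      (prod_le_one (fun _ _ => by positivity) fun j _ => h1 j)).trans ?_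
    refine pow_le_pow_left₀ (sq_nonneg _) ((ker_fac _).trans (Real.exp_le_exp.2 ?_)) M
    have := pow_le_pow_left₀ hη.le (not_lt.1 hj) 2
    linarith

theorem ker_ee {k : ℕ} (a b : Fin k → ℕ) (θ : Fin k → Tc) :
    (∏ j, ee (θ j) ^ a j) * (starRingEnd ℂ) (∏ j, ee (θ j) ^ b j) =
      ee (∑ j, ((a j : ℤ) - b j) • θ j) := by
  simp only [← ee_nsmul, ← ee_sum, ← ee_neg, ← ee_add, sub_smul, sum_sub_distrib, natCast_zsmul,
    ← sub_eq_add_neg]

theorem ker_num (k : ℕ) {ρ : ℝ} (h0 : 0 < ρ) (h1 : ρ < 1) :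
    ∃ M : ℕ, ρ ^ M ≤ 1 / ((M : ℝ) + 1) ^ k / 3 := by
  have h := tendsto_pow_const_mul_const_pow_of_abs_lt_one k (r := ρ) (by rwa [abs_of_pos h0])
  obtain ⟨M, hM⟩ := Filter.eventually_atTop.1 (h.eventually_le_const (u := ρ / 3) (by positivity))
  refine ⟨M, ?_⟩
  have h2 := hM (M + 1) M.le_succ
  rw [Nat.cast_succ, pow_succ ρ] at h2
  rw [le_div_iff₀ (by norm_num), le_div_iff₀ (by positivity)]
  nlinarith

/-- kernel lemma: if no short frequency has a negative mean, a neighbourhood of `0` has positive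
probability (kernel `∏ ((1 + cos) / 2) ^ M`) -/
theorem kernel (k : ℕ) {η : ℝ} (hη : 0 < η) : ∃ (M : ℕ) (c : ℝ), 0 < c ∧
    ∀ (Ω : Type) [Fintype Ω] (w : Ω → ℝ) (θ : Ω → Fin k → Tc), (∀ ω, 0 ≤ w ω) → ∑ ω, w ω = 1 →
      (∀ v : Fin k → ℤ, v ≠ 0 → (∀ j, |v j| ≤ M) →
        -c ≤ ∑ ω, w ω * (ee (∑ j, v j • θ ω j)).re) →
      c ≤ ∑ ω, if ∀ j, ‖θ ω j‖ < η then w ω else 0 := by
  obtain ⟨M, hM⟩ := ker_num k (Real.exp_pos (-(4 * η ^ 2)))
    (Real.exp_lt_one_iff.2 (neg_lt_zero.2 (by positivity)))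
  refine ⟨M, 1 / ((M : ℝ) + 1) ^ k / 3, by positivity, fun Ω _ w θ hw h1 h => ?_⟩
  obtain ⟨S, hS⟩ : ∃ S, S = Fintype.piFinset fun _ : Fin k => range (M + 1) := ⟨_, rfl⟩
  obtain ⟨p, hp⟩ : ∃ p : (Fin k → ℕ) → ℝ, ∀ a, p a = ∏ j, (M.choose (a j) : ℝ) / 2 ^ M :=
    ⟨_, fun _ => rfl⟩
  have h2 : ∑ a ∈ S, p a = 1 := by
    have := ker_exp k M fun _ => (1 : ℝ)
    simp only [one_pow, prod_const_one, mul_one, add_self_div_two, ← hp, ← hS] at this
    exact this.symm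
  have h3 : ∀ ω, ‖∏ j, ((ee (θ ω j) + 1) / 2) ^ M‖ ^ 2 =
      ∑ a ∈ S, ∑ b ∈ S, p a * p b * (ee (∑ j, ((a j : ℤ) - b j) • θ ω j)).re := fun ω => by
    simp only [← ker_ee]
    rw [← ker_sq, ker_exp, hS]
    simp only [hp]
    push_cast
    rfl
  have h4 := ker_low S p (fun a b => ∑ ω, w ω * (ee (∑ j, ((a j : ℤ) - b j) • θ ω j)).re)
    (c := 1 / ((M : ℝ) + 1) ^ k / 3) (by positivity) (fun a => by rw [hp]; positivity) h2
    (fun a => by simpa [ee_zero] using h1) fun a ha b hb hab => h _ (fun e => hab (funext fun j =>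
      by exact_mod_cast sub_eq_zero.1 (congrFun e j))) fun j => by
      rw [hS, Fintype.mem_piFinset] at ha hb
      have := mem_range.1 (ha j)
      have := mem_range.1 (hb j)
      rw [abs_le]
      omega
  have h5 : (S.card : ℝ) = ((M : ℝ) + 1) ^ k := by simp [hS]
  have h6 : ∑ a ∈ S, ∑ b ∈ S, p a * p b *
      ∑ ω, w ω * (ee (∑ j, ((a j : ℤ) - b j) • θ ω j)).re =
      ∑ ω, w ω * ‖∏ j, ((ee (θ ω j) + 1) / 2) ^ M‖ ^ 2 := by
    simp only [h3, mul_sum]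
    rw [sum_comm (s := univ)]
    refine sum_congr rfl fun a _ => ?_
    rw [sum_comm (s := univ)]
    exact sum_congr rfl fun b _ => sum_congr rfl fun ω _ => by ring
  have h7 : ∑ ω, w ω * ‖∏ j, ((ee (θ ω j) + 1) / 2) ^ M‖ ^ 2 ≤
      (∑ ω, if ∀ j, ‖θ ω j‖ < η then w ω else 0) + Real.exp (-(4 * η ^ 2)) ^ M := by
    refine (sum_le_sum fun ω _ => mul_le_mul_of_nonneg_left (ker_up M hη (θ ω)) (hw ω)).trans
      (le_of_eq ?_)
    simp only [mul_add, sum_add_distrib, ← sum_mul, h1, one_mul, mul_ite, mul_one, mul_zero]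
  rw [h5, h6] at h4
  linarith

end Pool.Agent.GK
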