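import Pool.Agent.Lib.MP_a01f70_lc.GK.EF
import Pool.Agent.Lib.MP_a01f70_lc.GK.EQb
import Pool.Agent.Lib.MP_a01f70_lc.GK.Ker

namespace Pool.Agent.GK
open Finset Polynomial

variable {U : Ultrafilter ℕ} {n : ℕ → ℕ} {m r : ℕ} [NeZero m]

/-- the normal form `p = γ (1 + α)`, `q = 1 + β` is impossible -/
def Lim.NoQ (L : Lim U n m r) (α β : ℤ × (Fin r → ℤ)) : Prop :=
  ∀ (d : ℕ → ℕ) (γ : ℤ × (Fin r → ℤ)), (∀ i, Good (n i) (d i)) →
    ¬ Small U n (L.er d (1 + mon m β) (mon m γ * (1 + mon m α)))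

/-- `Good.inv`; the new error is `-d' * ev (mon (-γ))` times the old one (`Small.mul`) -/
theorem Lim.NoQ.symm {L : Lim U n m r} {α β : ℤ × (Fin r → ℤ)} (h : L.NoQ α β) : L.NoQ β α := by
  intro d γ hd hs
  choose d' h1 h2 using fun i => (hd i).inv (L.two i)
  refine h d' (-γ) h2 ((hs.mul fun i => -(d' i * L.ev i (mon m (-γ)))).congr
    (.of_forall fun i => ?_))
  have h3 := congrArg (L.ev i) (mon_mul_neg (m := m) γ)
  rw [map_mul, map_one] at h3
  simp only [Lim.er, map_mul]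
  linear_combination -(L.ev i (mon m (-γ)) * L.ev i (1 + mon m α)) * h1 i +
    d' i * L.ev i (1 + mon m β) * h3

/-- `1 + mon α = mon α * (1 + mon (-α))` -/
theorem Lim.NoQ.neg {L : Lim U n m r} {α β : ℤ × (Fin r → ℤ)} (h : L.NoQ (-α) β) :
    L.NoQ α β := by
  intro d γ hd hs
  refine h d (γ + α) hd ?_
  rwa [show mon m (γ + α) * (1 + mon m (-α)) = mon m γ * (1 + mon m α) by
    rw [mon_add]
    linear_combination mon m γ * mon_mul_neg α]

/-- The error is never zero (`er_ne`). `α.2 = β.2 = 0`: `eF` with `q = 1 + tz β.1`, `p = tz γ.1 * (1 + tz α.1)`, `v = γ.2`.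
`β = 0`, `α ≠ 0`: `1 + mon 0 = mon σ`, multiply by `ev (mon (-σ))`, `two_sites`. `α = β`: `not_mon`. With `four_sites`, `symm`, `neg` these
cover everything: let `β.2 ≠ 0` (`symm`). If `α.2 = c • β.2`: `c = 0` (`α = 0` by `symm`, or case 3), `c = 1`, `c = -1` (`neg`), or
`|c| ≥ 2`, and then `β.2` is not a multiple of `α.2 ≠ 0` (`symm`, case 1). -/
theorem Lim.noQ (L : Lim U n m r) (α β : ℤ × (Fin r → ℤ)) : L.NoQ α β := by
  have hne : ∀ {d : ℕ → ℕ} (_ : ∀ i, Good (n i) (d i)) γ α β i,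
      L.er d (1 + mon m β) (mon m γ * (1 + mon m α)) i ≠ 0 := fun hd γ α β i => by
    have := L.er_ne hd γ (γ + α) 0 β i
    rwa [mon_zero, mon_add, ← mul_one_add] at this
  have F : ∀ α β : ℤ × (Fin r → ℤ), β.2 ≠ 0 → (∀ c : ℤ, α.2 ≠ c • β.2) ∨ (α.2 = β.2 ∧ α ≠ β) ∨
      (α.2 = 0 ∧ α ≠ 0) → L.NoQ α β := fun α β hβ hα d γ hd hs =>
    L.four_sites (fun i => (hd i).dn) hβ hα hs (.of_forall (hne hd γ α β))
  have B : ∀ α, α ≠ 0 → L.NoQ α 0 := fun α hα d γ hd hs => by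
    have e : ∀ i, L.ev i (mon m (-((m : ℤ), 0))) *
        L.er d (1 + mon m 0) (mon m γ * (1 + mon m α)) i =
        L.er d 1 (mon m (-((m : ℤ), 0) + γ) * (1 + mon m α)) i := fun i => by
      have h3 := congrArg (L.ev i) (mon_mul_neg (m := m) ((m : ℤ), 0))
      rw [map_mul, mon_sig, ← one_add_one_eq_two (R := GR m (Fin r → ℤ))] at h3
      simp only [Lim.er, map_mul, mon_add, mon_zero]
      linear_combination d i * h3
    exact L.two_sites (fun i => (hd i).dn) hα ((hs.mul _).congr (.of_forall e))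
      (.of_forall fun i h => hne hd γ α 0 i
        ((L.isUnit_ev_mon i _).mul_right_eq_zero.1 ((e i).trans h)))
  have G : ∀ α β : ℤ × (Fin r → ℤ), β.2 ≠ 0 → α.2 = β.2 → L.NoQ α β := fun α β hβ h => by
    by_cases h1 : α = β
    · subst h1
      exact fun d γ hd hs => L.not_mon hd
        (.of_forall fun i => mon_zero (m := m) (Λ := Fin r → ℤ) ▸ L.isUnit_ev_binom i 0 α) γ hs
    · exact F α β hβ (.inr (.inl ⟨h, h1⟩))
  have M : ∀ α β : ℤ × (Fin r → ℤ), β.2 ≠ 0 → L.NoQ α β := fun α β hβ => by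
    by_cases h0 : α.2 = 0
    · by_cases h1 : α = 0
      · exact h1 ▸ (B β fun h => hβ (congrArg Prod.snd h)).symm
      · exact F α β hβ (.inr (.inr ⟨h0, h1⟩))
    by_cases h1 : ∀ c : ℤ, α.2 ≠ c • β.2
    · exact F α β hβ (.inl h1)
    by_cases h2 : ∀ c : ℤ, β.2 ≠ c • α.2
    · exact (F β α h0 (.inl h2)).symm
    push Not at h1 h2
    obtain ⟨c, hc⟩ := h1
    obtain ⟨c', hc'⟩ := h2
    have h3 : c * c' = 1 := smul_left_injective ℤ h0 (by
      simp only [mul_smul, ← hc', ← hc, one_smul])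
    rcases Int.eq_one_or_neg_one_of_mul_eq_one h3 with rfl | rfl
    · exact G α β hβ (hc.trans (one_smul _ _))
    · exact (G (-α) β hβ (by rw [Prod.snd_neg, hc, neg_one_smul, neg_neg])).neg
  by_cases hβ : β.2 = 0
  swap
  · exact M α β hβ
  by_cases hα : α.2 = 0
  swap
  · exact (M β α hα).symm
  intro d γ hd hs
  have e : ∀ δ : ℤ × (Fin r → ℤ), δ.2 = 0 →
      1 + mon m δ = AddMonoidAlgebra.single 0 (1 + tz m δ.1) := fun δ h => by
    rw [mon, h, AddMonoidAlgebra.single_add, ← AddMonoidAlgebra.one_def]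
  have p : ∀ a : ℤ, 0 < ((1 + tz m a : O m) : ℝ) := fun a => add_pos one_pos (tr_pos a)
  have h1 := hne hd γ α β
  rw [e α hα, e β hβ, mon_mul_single] at hs h1
  obtain ⟨i, hi⟩ := (L.eF hd (p := tz m γ.1 * (1 + tz m α.1)) (mul_pos (tr_pos _) (p _)) (p _) _
    hs).exists
  exact h1 i (sub_eq_zero.2 hi)

/-- block E, quotients of binomials: multiply by `ev (mon (-γ₃))` -/
theorem Lim.eQ (L : Lim U n m r) {d : ℕ → ℕ} (hd : ∀ i, Good (n i) (d i))
    (γ₁ γ₂ γ₃ γ₄ : ℤ × (Fin r → ℤ))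
    (hs : Small U n fun i => d i * L.ev i (mon m γ₃ + mon m γ₄) - L.ev i (mon m γ₁ + mon m γ₂)) :
    False := by
  refine L.noQ (-γ₁ + γ₂) (-γ₃ + γ₄) d (-γ₃ + γ₁) hd
    ((hs.mul fun i => L.ev i (mon m (-γ₃))).congr (.of_forall fun i => ?_))
  have h1 := congrArg (L.ev i) (mon_mul_neg (m := m) γ₁)
  have h3 := congrArg (L.ev i) (mon_mul_neg (m := m) γ₃)
  simp only [Lim.er, map_mul, mon_add, map_add, map_one] at h1 h3 ⊢
  linear_combination d i * h3 + L.ev i (mon m (-γ₃)) * L.ev i (mon m γ₂) * h1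

end Pool.Agent.GK
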