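import Pool.Agent.Lib.MP_a01f70_lc.GK.EIa

/-! Positive multiples. -/

namespace Pool.Agent.GK
open Finset Filter

variable {m : ℕ} [NeZero m]

/-- `co0_expand`, `co0_dyadic` with a common denominator `2 ^ k`: `a j` copies of the exponent `j - m * k` -/
theorem so_of_coord {y : O m} (h : ∀ j < m, 0 ≤ co0 m (tz m (-(j : ℤ)) * y)) :
    ∃ P : Multiset ℤ, y = so m P := by
  have key : ∃ P : Multiset ℤ,
      ∑ i ∈ range m, (co0 m (tz m (-(i : ℤ)) * y) : ℝ) * tr m i = (so m P : ℝ) := by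
    refine sum_induction _ (fun r : ℝ => ∃ P : Multiset ℤ, r = (so m P : ℝ)) ?_ ⟨0, by simp [so]⟩
      fun j hj => ?_
    · rintro _ _ ⟨P, rfl⟩ ⟨Q, rfl⟩
      exact ⟨P + Q, by simp [so]⟩
    · obtain ⟨a, k, e⟩ := co0_dyadic (tz m (-(j : ℤ)) * y)
      have h1 := h j (mem_range.1 hj)
      rw [e, le_div_iff₀ (by positivity), zero_mul, Int.cast_nonneg_iff] at h1
      obtain ⟨a, rfl⟩ := Int.eq_ofNat_of_zero_le h1
      refine ⟨Multiset.replicate a (j + m * -(k : ℤ)), ?_⟩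
      rw [e, so, Multiset.map_replicate, Multiset.sum_replicate, nsmul_eq_mul]
      push_cast
      rw [coe_tz, tr_add, tr_mul_m, zpow_neg, zpow_natCast]
      ring
  exact key.imp fun P hP => Subtype.ext ((co0_expand y).trans hP)

/-- `co0_expand` for `tz (m - 1 - j) * x`, reflected -/
theorem sum_co0 (x : O m) (j : ℤ) :
    ∑ i ∈ range m, tr m (-(i : ℤ)) * (co0 m (tz m (i - j) * x) : ℝ) = tr m (-j) * x := by
  have h := co0_expand (tz m (m - 1 - j) * x)
  rw [← sum_range_reflect] at h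
  have h1 : tr m (-j) * x = tr m (1 - m) * ((tz m (m - 1 - j) * x : O m) : ℝ) := by
    rw [Subring.coe_mul, coe_tz, ← mul_assoc, ← tr_add]
    congr 2
    ring
  rw [h1, h, mul_sum]
  refine sum_congr rfl fun i hi => ?_
  have h2 : ((m - 1 - i : ℕ) : ℤ) = m - 1 - i := by
    have := mem_range.1 hi
    omega
  rw [h2, ← mul_assoc (tz m _), ← tz_add, mul_comm _ (tr m (m - 1 - i)), ← mul_assoc, ← tr_add,
    show 1 - (m : ℤ) + (m - 1 - i) = -i by ring,
    show -((m : ℤ) - 1 - i) + (m - 1 - j) = i - j by ring]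

/-- With `h M = ∑ i < m, ⌈M * tr (-i)⌉ * tz i` the coordinate is `∑ i, ⌈M tr (-i)⌉ * co0 (tz (i - j) * x)`, which differs from
`M * tr (-j) * x` by at most `∑ i, |co0 (tz (i - j) * x)|`. -/
theorem ev_coord_pos {x : O m} (hx : 0 < (x : ℝ)) (j : ℤ) : ∀ᶠ M : ℕ in atTop,
    0 < co0 m (tz m (-j) * ((∑ i ∈ range m, (⌈M * tr m (-(i : ℤ))⌉ : O m) * tz m i) * x)) := by
  have h1 := (tendsto_natCast_atTop_atTop (R := ℝ)).atTop_mul_const (mul_pos (tr_pos (m := m) (-j)) hx)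
  filter_upwards [h1.eventually_gt_atTop (∑ i ∈ range m, |(co0 m (tz m (i - j) * x) : ℝ)|)] with M hM
  have h2 : co0 m (tz m (-j) * ((∑ i ∈ range m, (⌈M * tr m (-(i : ℤ))⌉ : O m) * tz m i) * x)) =
      ∑ i ∈ range m, (⌈M * tr m (-(i : ℤ))⌉ : ℚ) * co0 m (tz m (i - j) * x) := by
    rw [sum_mul, mul_sum, map_sum]
    refine sum_congr rfl fun i _ => ?_
    rw [← co0_intCast_mul, sub_eq_add_neg, tz_add]
    congr 1
    ring
  rw [← sum_co0, mul_sum, ← sub_pos, ← sum_sub_distrib] at hM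
  rw [h2, ← Rat.cast_pos (K := ℝ)]
  push_cast
  refine hM.trans_le (sum_le_sum fun i _ => ?_)
  have h3 := Int.le_ceil (M * tr m (-(i : ℤ)))
  have h4 := Int.ceil_lt_add_one (M * tr m (-(i : ℤ)))
  rcases le_total 0 (co0 m (tz m (i - j) * x) : ℝ) with h5 | h5
  · rw [abs_of_nonneg h5]
    nlinarith
  · rw [abs_of_nonpos h5]
    nlinarith

theorem exists_pos_mul {p q : O m} (hp : 0 < (p : ℝ)) (hq : 0 < (q : ℝ)) :
    ∃ (h : O m) (P Q : Multiset ℤ), h ≠ 0 ∧ h * p = so m P ∧ h * q = so m Q := by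
  obtain ⟨M, h1, h2⟩ := (((eventually_all_finset (range m)).2 fun j _ => ev_coord_pos hp (j : ℕ)).and
    ((eventually_all_finset (range m)).2 fun j _ => ev_coord_pos hq (j : ℕ))).exists
  obtain ⟨P, hP⟩ := so_of_coord fun j hj => (h1 j (mem_range.2 hj)).le
  obtain ⟨Q, hQ⟩ := so_of_coord fun j hj => (h2 j (mem_range.2 hj)).le
  refine ⟨_, P, Q, fun e => ?_, hP, hQ⟩
  have h3 := h1 0 (mem_range.2 (NeZero.pos m))
  rw [e, zero_mul, mul_zero, map_zero] at h3
  exact h3.false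

end Pool.Agent.GK
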