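import Pool.Agent.Lib.MP_a01f70_lc.GK.EIa

/-! A profitable move in finite type. -/

namespace Pool.Agent.GK
open Finset

theorem efb_le {c : ℤ} (hc : c ≠ 0) {p : ℕ} (h : (2 : ℤ) ^ p ∣ c) : p ≤ c.natAbs := by
  have h1 : 2 ^ p ∣ c.natAbs := by
    have := Int.natAbs_dvd_natAbs.2 h
    simpa [Int.natAbs_pow] using this
  exact (Nat.lt_two_pow_self.le).trans (Nat.le_of_dvd (Int.natAbs_pos.2 hc) h1)

/-- Induction on `B` for all `c`. `c ≠ 0`; for `K > |c|` the set `S` is not empty and its least element `p` has `2 ^ p ∣ c`, so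
`p ≤ |c|`; erase it and replace `c` by `c - N * 2 ^ p`. -/
theorem many_digits (N B : ℕ) : ∀ c : ℤ, (∀ u : ℕ, c ≠ N * u) → ∃ K₀ : ℕ, ∀ K, K₀ ≤ K →
    ∀ S : Finset ℕ, (N : ℤ) * ∑ e ∈ S, 2 ^ e ≡ c [ZMOD 2 ^ K] → B ≤ S.card := by
  induction B with
  | zero => exact fun c _ => ⟨0, fun _ _ _ _ => Nat.zero_le _⟩
  | succ B ih =>
    intro c hc
    have hc0 : c ≠ 0 := by simpa using hc 0
    have h1 : ∀ p : ℕ, ∀ u : ℕ, c - N * 2 ^ p ≠ N * u := fun p u h =>
      hc (u + 2 ^ p) (by push_cast; linear_combination h)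
    choose K₁ hK₁ using fun p : ℕ => ih _ (h1 p)
    refine ⟨max (c.natAbs + 1) ((range (c.natAbs + 1)).sup K₁), fun K hK S hS => ?_⟩
    have hK1 : c.natAbs + 1 ≤ K := (le_max_left _ _).trans hK
    have key : ∀ p : ℕ, (∀ e ∈ S, p ≤ e) → p ≤ c.natAbs := by
      intro p hp
      have h2 : (2 : ℤ) ^ (min p K) ∣ c := by
        have h3 : (2 : ℤ) ^ (min p K) ∣ c - (N : ℤ) * ∑ e ∈ S, 2 ^ e :=
          (pow_dvd_pow 2 (min_le_right _ _)).trans hS.dvd
        have h4 : (2 : ℤ) ^ (min p K) ∣ (N : ℤ) * ∑ e ∈ S, 2 ^ e :=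
          Dvd.dvd.mul_left (Finset.dvd_sum fun e he =>
            pow_dvd_pow 2 ((min_le_left _ _).trans (hp e he))) _
        simpa using h3.add h4
      have := efb_le hc0 h2
      omega
    have hne : S.Nonempty := by
      rw [Finset.nonempty_iff_ne_empty]
      rintro rfl
      have := key (c.natAbs + 1) (by simp)
      omega
    have hp := key (S.min' hne) fun e he => S.min'_le e he
    have hmem := S.min'_mem hne
    have h5 := hK₁ (S.min' hne) K
      (((Finset.le_sup (f := K₁) (mem_range.2 (Nat.lt_succ_of_le hp))).trans (le_max_right _ _)).trans hK)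
      (S.erase (S.min' hne)) (by
        rw [← Finset.add_sum_erase S _ hmem, mul_add] at hS
        have := hS.sub_right ((N : ℤ) * 2 ^ S.min' hne)
        rwa [add_sub_cancel_left] at this)
    rw [← Finset.card_erase_add_one hmem]
    omega

variable {m : ℕ} [NeZero m]

/-- binary digits (`Finset.equivBitIndices`) on each class: the exponents `i + m * e` are distinct -/
theorem exists_digits (u : Fin m → ℕ) : ∃ (S : Finset ℤ) (D : Fin m → Finset ℕ),
    (∀ i, u i = ∑ e ∈ D i, 2 ^ e) ∧ S.card = ∑ i, (D i).card ∧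
      ∑ i, (u i : O m) * tz m (i : ℕ) = ∑ e ∈ S, tz m e := by
  have h0 : ∀ i, ∃ D : Finset ℕ, u i = ∑ e ∈ D, 2 ^ e := fun i =>
    ⟨(u i).bitIndices.toFinset, (Finset.sum_toFinset_bitIndices_two_pow (u i)).symm⟩
  choose D hD using h0
  have hinj : Function.Injective
      (fun x : (Σ _ : Fin m, ℕ) => (((x.1 : ℕ) : ℤ) + (m : ℤ) * (x.2 : ℕ))) := by
    rintro ⟨i, e⟩ ⟨j, f⟩ h
    have h1 : (i : ℕ) + m * e = (j : ℕ) + m * f := by
      dsimp only at h
      exact_mod_cast h
    have h2 : (i : ℕ) = (j : ℕ) := by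
      have := congrArg (· % m) h1
      simpa [Nat.add_mul_mod_self_left, Nat.mod_eq_of_lt i.2, Nat.mod_eq_of_lt j.2] using this
    obtain rfl : i = j := Fin.ext h2
    obtain rfl : e = f := Nat.eq_of_mul_eq_mul_left (NeZero.pos m) (by omega)
    rfl
  refine ⟨(univ.sigma D).map ⟨_, hinj⟩, D, hD, by rw [card_map, card_sigma], ?_⟩
  rw [sum_map, sum_sigma]
  refine sum_congr rfl fun i _ => ?_
  rw [hD i]
  push_cast
  rw [sum_mul]
  refine sum_congr rfl fun e _ => ?_
  simp only [Function.Embedding.coeFn_mk]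
  rw [tz_add, tz_mul_m, mul_comm]

omit [NeZero m] in
theorem efb_so_sum {ι : Type*} (s : Finset ι) (f : ι → Multiset ℤ) :
    so m (∑ i ∈ s, f i) = ∑ i ∈ s, so m (f i) := by
  classical
  induction s using Finset.induction_on with
  | empty => simp [so]
  | insert a s ha ih =>
    rw [sum_insert ha, sum_insert ha, ← ih, so, so, so, Multiset.map_add, Multiset.sum_add]

theorem efb_inv {N : ℕ} (hN : Odd N) (K : ℕ) : ∃ s w : ℕ, s < N ∧ w ≤ 2 ^ K ∧ 1 + 2 ^ K * s = N * w := by
  have hpos : 0 < N := hN.pos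
  have : NeZero N := ⟨hpos.ne'⟩
  have hu : IsUnit ((2 ^ K : ℕ) : ZMod N) :=
    (ZMod.isUnit_iff_coprime _ _).2 (Nat.Coprime.pow_left K (Nat.coprime_two_left.2 hN))
  obtain ⟨v, hv⟩ := hu.exists_right_inv
  have h1 : ((1 + 2 ^ K * (-v).val : ℕ) : ZMod N) = 0 := by
    rw [Nat.cast_add, Nat.cast_mul, ZMod.natCast_zmod_val, mul_neg, hv, Nat.cast_one, add_neg_cancel]
  obtain ⟨w, hw⟩ := (ZMod.natCast_eq_zero_iff _ _).1 h1
  have hs : (-v).val < N := ZMod.val_lt _
  refine ⟨(-v).val, w, hs, ?_, hw⟩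
  have h2 : N * w ≤ N * 2 ^ K := by
    have h3 : 2 ^ K * ((-v).val + 1) ≤ 2 ^ K * N := Nat.mul_le_mul_left _ hs
    have h4 : 1 ≤ 2 ^ K := Nat.one_le_two_pow
    rw [← hw, mul_comm N]
    rw [mul_add, mul_one] at h3
    omega
  exact Nat.le_of_mul_le_mul_left h2 hpos

/-- `q * y = N` odd (`exists_odd_mul`), `tz (m k) * p * y = ∑ c i * tz i` (`exists_coord`); it is enough to prove the identity
after multiplication by `y`.
If `c i = N * u i` with natural `u i` for all `i`: `Q = {m k}`, `P = 0`, `S` from `exists_digits u`; `S` has at least two elements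
(`p ≠ 0`, `p ≠ tz j * q`).
Otherwise take `K` large, `s < N` with `N ∣ 1 + 2 ^ K s`, `Q = {m k} + s • {m k + m K}`,
`u i = c i (1 + 2 ^ K s) / N + 2 ^ K |c i| ≥ 0`, `P = ∑ i, |c i| • {i + m K}`; `N * u i ≡ c i [ZMOD 2 ^ K]`, so `many_digits` with
`B = N + ∑ |c i| + 1` applies to one class. -/
theorem exists_gain {p q : O m} (hp : p ≠ 0) (hq : q ≠ 0) (h : ∀ j, p ≠ tz m j * q) :
    ∃ (S : Finset ℤ) (P Q : Multiset ℤ), Q.card + P.card < S.card ∧
      q * (∑ e ∈ S, tz m e - so m P) = p * so m Q := by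
  obtain ⟨y, N, hN, hy⟩ := exists_odd_mul hq
  obtain ⟨k, c, hc⟩ := exists_coord (p * y)
  have hN0 : (N : O m) ≠ 0 := Nat.cast_ne_zero.2 hN.pos.ne'
  have hy0 : y ≠ 0 := fun h0 => hN0 (by rw [← hy, h0, mul_zero])
  have hpy : p * y * tz m (m * k) = ∑ i, (c i : O m) * tz m (i : ℕ) := by
    rw [hc, sum_mul]
    refine sum_congr rfl fun i _ => ?_
    rw [mul_assoc, ← tz_add, sub_add_cancel]
  by_cases hcase : ∀ i, ∃ u : ℕ, c i = N * u
  · choose u hu using hcase
    obtain ⟨S, D, -, -, hS⟩ := exists_digits u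
    have hid : q * ∑ e ∈ S, tz m e = p * tz m (m * k) := by
      apply mul_right_cancel₀ hy0
      rw [mul_right_comm, hy, mul_right_comm, hpy, ← hS, mul_sum]
      refine sum_congr rfl fun i _ => ?_
      rw [hu i]
      push_cast
      ring
    refine ⟨S, 0, {(m : ℤ) * k}, ?_, by simpa [so] using hid⟩
    rw [Multiset.card_singleton, Multiset.card_zero, add_zero]
    by_contra hlt
    rcases Nat.le_one_iff_eq_zero_or_eq_one.1 (not_lt.1 hlt) with h0 | h1
    · rw [card_eq_zero.1 h0, sum_empty, mul_zero] at hid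
      exact mul_ne_zero hp (tz_ne_zero _) hid.symm
    · obtain ⟨j, rfl⟩ := card_eq_one.1 h1
      rw [sum_singleton] at hid
      refine h (j + -((m : ℤ) * k)) ?_
      rw [tz_add]
      linear_combination (-tz m (-((m : ℤ) * k))) * hid - p * tz_mul_neg (m := m) ((m : ℤ) * k)
  · push Not at hcase
    obtain ⟨i₀, hi₀⟩ := hcase
    obtain ⟨K, hK⟩ := many_digits N (N + ∑ i, (c i).natAbs + 1) (c i₀) hi₀
    obtain ⟨s, w, hs, hw, hsw⟩ := efb_inv hN K
    have hnn : ∀ i, ∃ u : ℕ, (u : ℤ) = c i * w + 2 ^ K * ((c i).natAbs : ℤ) := fun i => by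
      refine ⟨_, Int.toNat_of_nonneg ?_⟩
      have h1 : (w : ℤ) ≤ 2 ^ K := by exact_mod_cast hw
      have h2 : (0 : ℤ) ≤ w := Int.natCast_nonneg _
      rw [Int.natCast_natAbs]
      nlinarith [neg_abs_le (c i), abs_nonneg (c i)]
    choose u hu using hnn
    obtain ⟨S, D, hD, hcard, hS⟩ := exists_digits u
    have hswZ : (1 : ℤ) + 2 ^ K * s = N * w := by exact_mod_cast hsw
    have hB := hK K le_rfl (D i₀) (by
      have h1 : (∑ e ∈ D i₀, (2 : ℤ) ^ e) = (u i₀ : ℤ) := by rw [hD i₀]; push_cast; rfl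
      rw [h1, hu i₀]
      refine Int.modEq_iff_dvd.2 ⟨-(c i₀ * s + N * ((c i₀).natAbs : ℤ)), ?_⟩
      linear_combination (c i₀) * hswZ)
    have hle : (D i₀).card ≤ S.card := by
      rw [hcard]
      exact single_le_sum (f := fun i => (D i).card) (fun _ _ => Nat.zero_le _) (mem_univ i₀)
    refine ⟨S, ∑ i : Fin m, Multiset.replicate (c i).natAbs (((i : ℕ) : ℤ) + (m : ℤ) * (K : ℕ)),
      {(m : ℤ) * k} + Multiset.replicate s ((m : ℤ) * k + (m : ℤ) * (K : ℕ)), ?_, ?_⟩
    · simp only [Multiset.card_add, Multiset.card_singleton, Multiset.card_replicate, Multiset.card_sum]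
      omega
    · apply mul_right_cancel₀ hy0
      have hP : so m (∑ i : Fin m, Multiset.replicate (c i).natAbs (((i : ℕ) : ℤ) + (m : ℤ) * (K : ℕ)))
          = ∑ i : Fin m, (((c i).natAbs : ℤ) : O m) * (tz m (i : ℕ) * 2 ^ K) := by
        rw [efb_so_sum]
        refine sum_congr rfl fun i _ => ?_
        rw [so, Multiset.map_replicate, Multiset.sum_replicate, nsmul_eq_mul, tz_add, tz_mul_m,
          Int.cast_natCast]
      have hQ : so m ({(m : ℤ) * k} + Multiset.replicate s ((m : ℤ) * k + (m : ℤ) * (K : ℕ)))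
          = tz m (m * k) * (1 + 2 ^ K * s) := by
        rw [so, Multiset.map_add, Multiset.sum_add, Multiset.map_singleton, Multiset.sum_singleton,
          Multiset.map_replicate, Multiset.sum_replicate, nsmul_eq_mul, tz_add, tz_mul_m K]
        ring
      have hswO : (1 : O m) + 2 ^ K * s = N * w := by exact_mod_cast hsw
      have hdiff : ∑ e ∈ S, tz m e - ∑ i : Fin m, (((c i).natAbs : ℤ) : O m) * (tz m (i : ℕ) * 2 ^ K)
          = w * ∑ i, (c i : O m) * tz m (i : ℕ) := by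
        rw [← hS, ← sum_sub_distrib, mul_sum]
        refine sum_congr rfl fun i _ => ?_
        have h1 : (u i : O m) = c i * w + 2 ^ K * (((c i).natAbs : ℤ) : O m) := by
          have := congrArg (Int.cast : ℤ → O m) (hu i)
          simpa only [Int.cast_natCast, Int.cast_add, Int.cast_mul, Int.cast_pow, Int.cast_ofNat] using this
        rw [h1]
        ring
      rw [hP, hQ, hdiff, hswO, mul_right_comm, hy, ← hpy]
      ring

end Pool.Agent.GK
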