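import Pool.Agent.Lib.MP_a01f70_lc.GK.ELim
import Pool.Agent.Lib.MP_a01f70_lc.GK.EFa
import Pool.Agent.Lib.MP_a01f70_lc.GK.EFb

namespace Pool.Agent.GK
open Finset Polynomial

variable {U : Ultrafilter ℕ} {n : ℕ → ℕ} {m r : ℕ} [NeZero m]

theorem sm_map {Λ : Type} (P : Multiset ℤ) (v : Λ) :
    sm m (P.map fun e => (e, v)) = AddMonoidAlgebra.single v (so m P) := by
  induction P using Multiset.induction_on with
  | empty => simp [sm, so]
  | cons a P ih =>
    rw [sm, so] at ih
    rw [sm, so, Multiset.map_cons, Multiset.map_cons, Multiset.map_cons, Multiset.sum_cons,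
      Multiset.sum_cons, ih, AddMonoidAlgebra.single_add]
    rfl

omit [NeZero m] in
theorem ef_sum {Λ J : Type} [Fintype J] (ν e : J → ℤ) (v : Λ) :
    ∑ j, ν j • mon m (e j, v) = AddMonoidAlgebra.single v (∑ j, ν j • tz m (e j)) := by
  have h := map_sum (AddMonoidAlgebra.singleAddHom (R := O m) v) (fun j => ν j • tz m (e j)) univ
  refine Eq.trans (sum_congr rfl fun j _ => ?_) h.symm
  rw [map_zsmul]
  rfl

/-- Block E, finite type. Otherwise the error is eventually nonzero (ultrafilter). If `p = tz j * q` use `not_mon`. Else take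
`h, P₀, Q₀` from `exists_pos_mul` and `S, P, Q` from `exists_gain`, and apply `Lim.move` with `q = Q₀.map (·, 0)`,
`p = P₀.map (·, v)`, `Q.map (·, 0)`, `P.map (·, v)`, `J = S`, sites `(j, v)`, `θ j = ε * tr (-j)`. The new error is
`ev (single 0 h)` times the old one. `∑ ν j • mon (-(j, v)) = single (-v) K`, and `K = 0` by `not_inI`, `isUnit_ev_single`. -/
theorem Lim.eF (L : Lim U n m r) {d : ℕ → ℕ} (hd : ∀ i, Good (n i) (d i)) {p q : O m}
    (hp : 0 < (p : ℝ)) (hq : 0 < (q : ℝ)) (v : Fin r → ℤ)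
    (hs : Small U n fun i => d i * L.ev i (AddMonoidAlgebra.single 0 q)
      - L.ev i (AddMonoidAlgebra.single v p)) :
    ∀ᶠ i in U, d i * L.ev i (AddMonoidAlgebra.single 0 q)
      = L.ev i (AddMonoidAlgebra.single v p) := by
  by_contra hc
  have hs0 : Small U n (L.er d (AddMonoidAlgebra.single 0 q) (AddMonoidAlgebra.single v p)) := hs
  have hne : ∀ᶠ i in U,
      L.er d (AddMonoidAlgebra.single 0 q) (AddMonoidAlgebra.single v p) i ≠ 0 :=
    (Ultrafilter.eventually_not.2 hc).mono fun i h => sub_ne_zero.2 h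
  have hp0 : p ≠ 0 := fun h => by simp [h] at hp
  have hq0 : q ≠ 0 := fun h => by simp [h] at hq
  by_cases h1 : ∃ j, p = tz m j * q
  · obtain ⟨j, hj⟩ := h1
    refine L.not_mon hd (L.isUnit_ev_single 0 hq0) (j, v) ?_
    rwa [mon_mul_single, add_zero, ← hj]
  obtain ⟨h, P₀, Q₀, hh, hP, hQ⟩ := exists_pos_mul hp hq
  obtain ⟨S, P, Q, hcard, hrel⟩ := exists_gain hp0 hq0 fun j hj => h1 ⟨j, hj⟩
  have hQ0 : so m Q₀ ≠ 0 := hQ ▸ mul_ne_zero hh hq0
  have her : ∀ i, L.er d (sm m (Q₀.map fun e => (e, (0 : Fin r → ℤ)))) (sm m (P₀.map fun e => (e, v))) i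
      = L.ev i (AddMonoidAlgebra.single 0 h) *
        L.er d (AddMonoidAlgebra.single 0 q) (AddMonoidAlgebra.single v p) i := fun i => by
    have a1 : (AddMonoidAlgebra.single 0 (h * q) : GR m (Fin r → ℤ))
        = AddMonoidAlgebra.single 0 h * AddMonoidAlgebra.single 0 q := by
      rw [AddMonoidAlgebra.single_mul_single, add_zero]
    have a2 : (AddMonoidAlgebra.single v (h * p) : GR m (Fin r → ℤ))
        = AddMonoidAlgebra.single 0 h * AddMonoidAlgebra.single v p := by
      rw [AddMonoidAlgebra.single_mul_single, zero_add]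
    rw [sm_map, sm_map, ← hP, ← hQ, Lim.er, Lim.er, a1, a2, map_mul, map_mul]
    ring
  have hT : 0 ≤ ∑ j : S, tr m (-j) := sum_nonneg fun j _ => (tr_pos _).le
  obtain ⟨ε, hε, hε'⟩ : ∃ ε : ℝ, 0 < ε ∧ ε * (1 + ∑ j : S, tr m (-j)) = 1 / 2 :=
    ⟨1 / 2 / (1 + ∑ j : S, tr m (-j)), by positivity, div_mul_cancel₀ _ (by positivity)⟩
  refine L.move (fun i => (hd i).dn) (J := S) (γ := fun j => ((j : ℤ), v))
    (fun a b e => Subtype.ext (congrArg Prod.fst e)) (θ := fun j => ε * tr m (-j))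
    (fun j => ⟨mul_pos hε (tr_pos _), ?_⟩) (q := Q₀.map fun e => (e, 0))
    (p := P₀.map fun e => (e, v)) (Q := Q.map fun e => (e, 0)) (P := P.map fun e => (e, v))
    (fun e => hQ0 ?_) (by simpa using hcard)
    ((hs0.mul _).congr (Filter.Eventually.of_forall fun i => (her i).symm)) ?_ ?_ ?_ fun ν hν => ?_
  · have := single_le_sum (f := fun j : S => tr m (-j)) (fun j _ => (tr_pos _).le) (mem_univ j)
    nlinarith
  · rw [Multiset.map_eq_zero.1 e]
    simp [so]
  · filter_upwards [hne, L.isUnit_ev_single 0 hh] with i a1 a2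
    rw [her]
    exact fun a3 => a1 (a2.mul_right_eq_zero.1 a3)
  · rw [sm_map]
    exact L.isUnit_ev_single 0 hQ0
  · have a1 := ef_sum (m := m) (fun _ : S => 1) (fun j => (j : ℤ)) v
    simp only [one_smul] at a1
    rw [a1, sm_map, sm_map, sm_map, sm_map, ← AddMonoidAlgebra.single_sub,
      AddMonoidAlgebra.single_mul_single, AddMonoidAlgebra.single_mul_single, zero_add, add_zero,
      sum_coe_sort S (tz m), ← hP, ← hQ, mul_assoc, hrel, mul_assoc]
  · have a1 := ef_sum (m := m) ν (fun j => -(j : ℤ)) (-v)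
    have a2 : ∑ j, ν j • tz m (-(j : ℤ)) = 0 := by
      by_contra a2
      refine L.not_inI hs0 hne (L.isUnit_ev_single (-v) a2) ?_
      rw [← a1]
      exact hν
    have a3 := congrArg (O m).subtype a2
    rw [map_sum, map_zero] at a3
    refine ⟨0, ?_⟩
    rw [Int.cast_zero, ← mul_zero ε, ← a3, mul_sum]
    refine sum_congr rfl fun j _ => ?_
    rw [map_zsmul, zsmul_eq_mul, mul_left_comm]
    rfl

end Pool.Agent.GK
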