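import Pool.Agent.Lib.MP_a01f70_lc.GK.Kinj

/-! The error term and the ideal of bounded relations. -/

namespace Pool.Agent.GK
open Finset

variable {U : Ultrafilter ℕ} {n : ℕ → ℕ} {m r : ℕ}

/-- the error term `d q - p` -/
noncomputable def Lim.er (L : Lim U n m r) (d : ℕ → ℕ) (q p : GR m (Fin r → ℤ)) (i : ℕ) :
    ZMod (2 ^ n i - 1) := d i * L.ev i q - L.ev i p

/-- `η d` has bounded weight -/
def Lim.InI (L : Lim U n m r) (d : ℕ → ℕ) (η : GR m (Fin r → ℤ)) : Prop :=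
  ∃ s, ∀ᶠ i in U, Wt s (L.ev i η * d i)

/-- a sum of monomials -/
noncomputable def sm (m : ℕ) {Λ : Type} (P : Multiset (ℤ × Λ)) : GR m Λ := (P.map (mon m)).sum

/-- a sum of powers of `t` -/
noncomputable def so (m : ℕ) (P : Multiset ℤ) : O m := (P.map (tz m)).sum

theorem Small.mul {e : ∀ i, ZMod (2 ^ n i - 1)} (h : Small U n e) (u : ∀ i, ZMod (2 ^ n i - 1)) :
    Small U n fun i => u i * e i := fun ε hε =>
  (h ε hε).mono fun i ⟨g, h1, h2, h3⟩ => ⟨g, h1, h2, by rw [mul_left_comm, h3, mul_zero]⟩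

theorem Small.congr {e e' : ∀ i, ZMod (2 ^ n i - 1)} (h : Small U n e)
    (he : ∀ᶠ i in U, e i = e' i) : Small U n e' := fun ε hε =>
  ((h ε hε).and he).mono fun _ hi => hi.2 ▸ hi.1

theorem Small.pow {e : ∀ i, ZMod (2 ^ n i - 1)} (h : Small U n e) {t : ℕ} (ht : 0 < t) :
    ∀ᶠ i in U, ∃ g : ℕ, 0 < g ∧ g ^ t ≤ 2 ^ n i ∧ (g : ZMod (2 ^ n i - 1)) * e i = 0 := by
  have ht' : (0 : ℝ) < t := by exact_mod_cast ht
  refine (h (1 / t) (by positivity)).mono fun i ⟨g, h1, h2, h3⟩ => ⟨g, h1, ?_, h3⟩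
  have h5 := pow_le_pow_left₀ (Nat.cast_nonneg g) h2 t
  rw [← Real.rpow_natCast (_ ^ _), ← Real.rpow_mul zero_le_two,
    show 1 / (t : ℝ) * n i * t = n i by field_simp, Real.rpow_natCast] at h5
  exact_mod_cast h5

/-- the inverse exponent (`d'` is the value of the inverse unit; in `dv` substitute `x = -d * x'`; in `nq`, `nl` multiply by
`d` and by a power of two, `two_pow_self`) -/
theorem Good.inv {n d : ℕ} (hn : 2 ≤ n) (h : Good n d) :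
    ∃ d' : ℕ, (d : ZMod (2 ^ n - 1)) * d' = 1 ∧ Good n d' := by
  have : NeZero (2 ^ n - 1) := ⟨bas2_ne (by omega)⟩
  obtain ⟨x, hx⟩ := h.unit.exists_right_inv
  obtain ⟨d', rfl⟩ := ZMod.natCast_zmod_surjective x
  have h2 : ∀ i, (2 : ZMod (2 ^ n - 1)) ^ ((n - 1) * i) * 2 ^ i = 1 := fun i => by
    rw [← pow_add, ← add_one_mul, Nat.sub_add_cancel (by omega), pow_mul, two_pow_self, one_pow]
  refine ⟨d', hx, fun P Q h1 h3 => ?_, fun x => ?_, IsUnit.of_mul_eq_one _ ((mul_comm _ _).trans hx),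
    fun a b i e => h.nq b a ((n - 1) * i) ?_, fun g j h1 h3 e => h.nl g ((n - 1) * j) h1 h3 ?_⟩
  · rw [add_comm] at h1 ⊢
    refine h.dn Q P h1 ?_
    rw [← ZMod.natCast_eq_zero_iff, Nat.cast_add, Nat.cast_mul] at h3 ⊢
    linear_combination (d : ZMod (2 ^ n - 1)) * h3 - ((P.map (2 ^ ·)).sum : ℕ) * hx
  · have h1 := h.dv (-(d' * x))
    rwa [mul_neg, neg_neg, ← mul_assoc, hx, one_mul, add_comm] at h1
  · linear_combination (-d * 2 ^ ((n - 1) * i) : ZMod (2 ^ n - 1)) * e +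
      2 ^ ((n - 1) * i) * (2 ^ b + 1) * hx - d * (2 ^ a + 1) * h2 i
  · linear_combination (-d * 2 ^ ((n - 1) * j) : ZMod (2 ^ n - 1)) * e +
      g * 2 ^ ((n - 1) * j) * hx - g * d * h2 j

variable (L : Lim U n m r) {d : ℕ → ℕ} {q p η : GR m (Fin r → ℤ)}

theorem Lim.InI.mul {L : Lim U n m r} (h : L.InI d η) (f : GR m (Fin r → ℤ)) :
    L.InI d (f * η) := by
  obtain ⟨s, hs⟩ := h
  obtain ⟨k, hk⟩ := L.wt_ev f
  exact ⟨k * s, hs.mono fun i hi => by rw [map_mul, mul_assoc]; exact (hk i).mul hi⟩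

/-- `ev η * er` has bounded weight and small order: `eq_zero_of_small_order` -/
theorem Lim.kill (hs : Small U n (L.er d q p)) (h : L.InI d η) :
    ∀ᶠ i in U, L.ev i η * L.er d q p i = 0 := by
  obtain ⟨s, h⟩ := h
  obtain ⟨k, hk⟩ := L.wt_ev q
  obtain ⟨k', hk'⟩ := L.wt_ev (η * p)
  obtain ⟨B, hB, H⟩ := eq_zero_of_small_order (s * k + k')
  filter_upwards [h, L.big B, (hs.mul fun i => L.ev i η).pow hB] with i h1 h2 ⟨g, h3, h4, h5⟩
  refine H _ h2 _ g ?_ h3 h4 h5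
  rw [Lim.er, mul_sub, ← mul_assoc, ← map_mul, sub_eq_add_neg]
  exact (h1.mul (hk i)).add (hk' i).neg

theorem Lim.not_inI (hs : Small U n (L.er d q p)) (hne : ∀ᶠ i in U, L.er d q p i ≠ 0)
    (hu : ∀ᶠ i in U, IsUnit (L.ev i η)) : ¬ L.InI d η := fun h =>
  let ⟨_, h1, h2, h3⟩ := ((L.kill hs h).and (hne.and hu)).exists
  h2 (h3.mul_right_eq_zero.1 h1)

theorem Lim.isUnit_int [NeZero m] {a : ℤ} (ha : a ≠ 0) (γ : ℤ × (Fin r → ℤ)) :
    ∀ᶠ i in U, IsUnit (L.ev i (a • mon m γ)) := by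
  rw [mon, AddMonoidAlgebra.smul_single]
  exact L.isUnit_ev_single _ (smul_ne_zero ha (tz_ne_zero _))

/-- the fraction is a monomial: `Good.nl` with `Small.pow` for `t = 4` and `n i ≥ 8` -/
theorem Lim.not_mon (hd : ∀ i, Good (n i) (d i)) (hu : ∀ᶠ i in U, IsUnit (L.ev i q))
    (γ : ℤ × (Fin r → ℤ)) (hs : Small U n (L.er d q (mon m γ * q))) : False := by
  obtain ⟨i, h1, h2, g, h3, h4, h5⟩ := (hu.and ((L.big 8).and (hs.pow four_pos))).exists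
  have h6 : 2 ^ 8 ≤ 2 ^ n i := Nat.pow_le_pow_right two_pos h2
  refine (hd i).nl g (L.Φ i γ).val h3 ((Nat.pow_le_pow_iff_left two_ne_zero).1 ?_) ?_
  · nlinarith [Nat.mul_le_mul h6 h4]
  · rwa [Lim.er, map_mul, ← sub_mul, ← mul_assoc, h1.mul_left_eq_zero, L.ev_mon] at h5

/-- `Good.nq` -/
theorem Lim.er_ne (hd : ∀ i, Good (n i) (d i)) (γ₁ γ₂ γ₃ γ₄ : ℤ × (Fin r → ℤ)) (i : ℕ) :
    L.er d (mon m γ₃ + mon m γ₄) (mon m γ₁ + mon m γ₂) i ≠ 0 := fun h => by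
  have e1 : mon m (γ₃ - γ₄) + 1 = mon m (-γ₄) * (mon m γ₃ + mon m γ₄) := by
    rw [mul_add, ← mon_add, ← mon_add, neg_add_cancel, mon_zero, neg_add_eq_sub]
  have e2 : mon m (γ₂ - γ₄) * (mon m (γ₁ - γ₂) + 1) = mon m (-γ₄) * (mon m γ₁ + mon m γ₂) := by
    rw [mul_add, mul_add, mul_one, ← mon_add, ← mon_add, ← mon_add, neg_add_eq_sub, neg_add_eq_sub,
      sub_add_sub_cancel']
  refine (hd i).nq (L.Φ i (γ₁ - γ₂)).val (L.Φ i (γ₃ - γ₄)).val (L.Φ i (γ₂ - γ₄)).val ?_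
  rw [← L.ev_mon, ← L.ev_mon, ← L.ev_mon, ← map_one (L.ev i), ← map_add, ← map_add, ← map_mul, e1,
    e2, map_mul, map_mul, mul_left_comm, sub_eq_zero.1 h]

end Pool.Agent.GK
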