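import Pool.Agent.Lib.MP_a01f70_lc.GK.EIa

/-! Far clusters cancel separately. -/

namespace Pool.Agent.GK
open Finset

variable {U : Ultrafilter ℕ} {n : ℕ → ℕ} {m r : ℕ} [NeZero m] (L : Lim U n m r)

theorem eib_close {τ : Type} [Fintype τ] [Nonempty τ] (a : τ → ℤ) (ha : ∀ j, a j ≠ 0) :
    ∃ B : ℕ, ∀ n : ℕ, B ≤ n → ∀ s : τ → ZMod n,
      ∑ j, (a j : ZMod (2 ^ n - 1)) * 2 ^ (s j).val = 0 →
      ∃ j j', j ≠ j' ∧ ∃ b : ℕ, b ≤ B ∧ s j = s j' + b := by
  obtain ⟨B, hB⟩ := close_of_sum_eq_zero (Fintype.card τ) (∑ j, (a j).natAbs) Fintype.card_pos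
  refine ⟨B, fun n hn s hs => ?_⟩
  obtain ⟨j, j', hj, h⟩ := hB n hn (fun j => a ((Fintype.equivFin τ).symm j))
    (fun j => s ((Fintype.equivFin τ).symm j)) (fun _ => ha _) (fun j => by
      rw [Int.abs_eq_natAbs]
      exact_mod_cast single_le_sum (f := fun j => (a j).natAbs) (fun _ _ => Nat.zero_le _)
        (mem_univ _))
    (((Fintype.equivFin τ).symm.sum_comp
      fun j => (a j : ZMod (2 ^ n - 1)) * 2 ^ (s j).val).trans hs)
  exact ⟨_, _, (Fintype.equivFin τ).symm.injective.ne hj, h⟩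

/-- Write each `F c` by `exists_sum_classes`; if some `F c ≠ 0` the total number of monomials is positive and
`close_of_sum_eq_zero` (index type `Σ c, Fin (k c)`, transported to `Fin k`) gives two different monomials whose sites
`s c + Φ γ`, `s c' + Φ γ'` differ by `b ≤ L`. Along the ultrafilter the pair and `b` are constant. For `c ≠ c'` this contradicts
`far`, for `c = c'` it contradicts `L.inj` for `γ - γ' - b • σ` (compare the proof of `Lim.ev_ne_zero`). -/
theorem Lim.far_zero {ι : Type} (S : Finset ι) (F : ι → GR m (Fin r → ℤ)) (s : ∀ i, ι → ZMod (n i))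
    (far : ∀ c ∈ S, ∀ c' ∈ S, c ≠ c' → ∀ γ, ∀ᶠ i in U, s i c ≠ s i c' + L.Φ i γ)
    (h : ∀ᶠ i in U, ∑ c ∈ S, 2 ^ (s i c).val * L.ev i (F c) = 0) : ∀ c ∈ S, F c = 0 := by
  choose k a γ ha hγ hF using fun c => exists_sum_classes (F c)
  intro c₀ h₀
  by_contra hne
  have hk : 0 < k c₀ := Nat.pos_of_ne_zero fun e => hne (by
    have : IsEmpty (Fin (k c₀)) := e ▸ Fin.isEmpty'
    rw [hF, Fintype.sum_empty])
  have : Nonempty (Σ c : S, Fin (k c)) := ⟨⟨⟨c₀, h₀⟩, ⟨0, hk⟩⟩⟩
  obtain ⟨B, hB⟩ := eib_close (fun j : Σ c : S, Fin (k c) => a j.1 j.2) fun j => ha _ _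
  have h1 : ∀ᶠ i in U, ∀ j j' : Σ c : S, Fin (k c), ∀ b ∈ range (B + 1), j ≠ j' →
      s i j.1 ≠ s i j'.1 + L.Φ i (γ j'.1 j'.2 + (b : ℤ) • ((m : ℤ), 0) - γ j.1 j.2) := by
    simp only [Filter.eventually_all, Filter.eventually_all_finset]
    rintro ⟨c, j⟩ ⟨c', j'⟩ b - hj
    by_cases hc : c = c'
    · subst hc
      refine (L.inj _ fun e => hj ?_).mono fun i hi e => hi (left_eq_add.1 e)
      rw [hγ c j j' b (sub_eq_zero.1 e).symm]
    · exact far c c.2 c' c'.2 (fun e => hc (Subtype.ext e)) _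
  obtain ⟨i, ⟨h2, h3⟩, h4⟩ := ((h1.and (L.big B)).and h).exists
  have hn : n i ≠ 0 := (L.odd i).pos.ne'
  obtain ⟨j, j', hj, b, hb, e⟩ := hB (n i) h3 (fun j => s i j.1 + L.Φ i (γ j.1 j.2)) (by
    rw [← h4, ← sum_coe_sort S, Fintype.sum_sigma]
    refine sum_congr rfl fun c _ => ?_
    rw [hF c, map_sum, mul_sum]
    refine sum_congr rfl fun j _ => ?_
    rw [zsmul_eq_mul, map_mul, map_intCast, L.ev_mon, two_pow_val_add hn, mul_left_comm])
  refine h2 j j' b (mem_range.2 (by omega)) hj ?_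
  rw [map_sub, map_add, map_zsmul, L.sig, zsmul_one, Int.cast_natCast, ← add_sub_assoc,
    ← add_assoc, ← e, add_sub_cancel_right]

/-- Induction on the number of terms. If `s c = Φ γ` eventually, replace `f` by `f - mon γ * F c` and erase `c`. If
`s c = s c' + Φ γ` eventually with `c ≠ c'`, replace `F c'` by `F c' + mon γ * F c` and erase `c`. Otherwise `far_zero` on
`Option ι` (the new term is `-f` at the site `0`) gives `f = 0`. -/
theorem Lim.mem_of_sum {ι : Type} (I : Ideal (GR m (Fin r → ℤ))) (s : ∀ i, ι → ZMod (n i)) (k : ℕ) :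
    ∀ (S : Finset ι) (F : ι → GR m (Fin r → ℤ)) (f : GR m (Fin r → ℤ)), S.card ≤ k →
      (∀ c ∈ S, F c ∈ I) →
      (∀ᶠ i in U, L.ev i f = ∑ c ∈ S, 2 ^ (s i c).val * L.ev i (F c)) → f ∈ I := by
  classical
  induction k with
  | zero =>
    intro S F f hS _ h
    rw [card_eq_zero.1 (Nat.le_zero.1 hS)] at h
    by_contra hf
    obtain ⟨i, h1, h2⟩ := ((L.ev_ne_zero fun e : f = 0 => hf (e ▸ I.zero_mem)).and h).exists
    exact h1 h2
  | succ k ih =>
    intro S F f hS hF h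
    have hS' : ∀ c ∈ S, (S.erase c).card ≤ k := fun c hc => by
      rw [card_erase_of_mem hc]
      omega
    by_cases h1 : ∃ c ∈ S, ∃ γ, ∀ᶠ i in U, s i c = L.Φ i γ
    · obtain ⟨c, hc, γ, h1⟩ := h1
      have h2 := ih (S.erase c) F (f - mon m γ * F c) (hS' c hc)
        (fun x hx => hF x (mem_of_mem_erase hx)) ((h.and h1).mono fun i hi => by
          rw [map_sub, map_mul, hi.1, ← add_sum_erase S _ hc, L.ev_mon, hi.2, add_sub_cancel_left])
      rw [← sub_add_cancel f (mon m γ * F c)]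
      exact I.add_mem h2 (I.mul_mem_left _ (hF c hc))
    by_cases h2 : ∃ c ∈ S, ∃ c' ∈ S, c ≠ c' ∧ ∃ γ, ∀ᶠ i in U, s i c = s i c' + L.Φ i γ
    · obtain ⟨c, hc, c', hc', hne, γ, h2⟩ := h2
      refine ih (S.erase c) (fun x => F x + if x = c' then mon m γ * F c else 0) f (hS' c hc)
        (fun x hx => I.add_mem (hF x (mem_of_mem_erase hx)) ?_) ((h.and h2).mono fun i hi => ?_)
      · split_ifs
        exacts [I.mul_mem_left _ (hF c hc), I.zero_mem]
      · simp only [map_add, mul_add, sum_add_distrib, apply_ite (L.ev i), map_zero, mul_ite,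
          mul_zero, sum_ite_eq']
        rw [if_pos (mem_erase.2 ⟨hne.symm, hc'⟩), hi.1, ← add_sum_erase S _ hc, hi.2,
          two_pow_val_add (L.odd i).pos.ne', map_mul, L.ev_mon, mul_assoc, add_comm]
    have h3 := L.far_zero (insertNone S) (fun o => o.elim (-f) F) (fun i o => o.elim 0 (s i)) ?_
      (h.mono fun i hi => ?_) none none_mem_insertNone
    · rw [neg_eq_zero.1 h3]
      exact I.zero_mem
    · rintro (_ | c) hc (_ | c') hc' hne γ
      · exact absurd rfl hne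
      · refine (Ultrafilter.eventually_not.2 fun e =>
          h1 ⟨c', some_mem_insertNone.1 hc', -γ, e⟩).mono fun i hi e => hi ?_
        rw [map_neg]
        exact eq_neg_of_add_eq_zero_left e.symm
      · exact (Ultrafilter.eventually_not.2 fun e =>
          h1 ⟨c, some_mem_insertNone.1 hc, γ, e⟩).mono fun i hi e => hi (e.trans (zero_add _))
      · exact Ultrafilter.eventually_not.2 fun e => h2 ⟨c, some_mem_insertNone.1 hc, c',
          some_mem_insertNone.1 hc', fun e' => hne (congrArg some e'), γ, e⟩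
    · rw [sum_insertNone]
      simp only [Option.elim_none, Option.elim_some]
      rw [ZMod.val_zero, pow_zero, one_mul, map_neg, hi, neg_add_cancel]

/-- `Wt.fin`; the signs are constant along the ultrafilter; `mem_of_sum` with `F c = ± q` or `0` -/
theorem Lim.dvd_of_wt {f q : GR m (Fin r → ℤ)} {k : ℕ}
    (h : ∀ᶠ i in U, ∃ ξ, Wt k ξ ∧ L.ev i f = ξ * L.ev i q) : q ∣ f := by
  have h1 : ∀ᶠ i in U, ∃ (c : Fin k → SignType) (s : Fin k → ℕ),
      L.ev i f = (∑ j, ((c j : ℤ) : ZMod (2 ^ n i - 1)) * 2 ^ s j) * L.ev i q :=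
    h.mono fun i ⟨_, h1, h2⟩ => by
      obtain ⟨c, s, rfl⟩ := h1.fin
      exact ⟨c, s, h2⟩
  obtain ⟨c, h2⟩ := Ultrafilter.eventually_exists_iff.1 h1
  obtain ⟨s, h3⟩ := h2.choice
  refine Ideal.mem_span_singleton.1 (L.mem_of_sum _ (fun i j => (s i j : ZMod (n i))) _ univ
    (fun j => ((c j : ℤ) : GR m (Fin r → ℤ)) * q) f le_rfl
    (fun j _ => Ideal.mul_mem_left _ _ (Ideal.mem_span_singleton_self q)) (h3.mono fun i hi => ?_))
  rw [hi, sum_mul]
  refine sum_congr rfl fun j _ => ?_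
  rw [two_pow_val_natCast, map_mul, map_intCast, mul_assoc, mul_left_comm]

theorem Lim.dvd_of_inI {d : ℕ → ℕ} {q p η : GR m (Fin r → ℤ)} (hs : Small U n (L.er d q p))
    (h : L.InI d η) : q ∣ η * p := by
  obtain ⟨k, hk⟩ := id h
  refine L.dvd_of_wt (k := k) ?_
  filter_upwards [hk, L.kill hs h] with i h1 h2
  refine ⟨_, h1, ?_⟩
  rw [Lim.er] at h2
  rw [map_mul]
  linear_combination -h2

end Pool.Agent.GK
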