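import Pool.Agent.Lib.MP_a01f70_lc.GK.EPs

/-! Digits, and many simultaneous moves. -/

set_option linter.unusedSectionVars false

namespace Pool.Agent.GE

open Finset ZMod Pool.Agent.Lib.MP_a01f70_lc.BA Pool.Agent.Lib.MP_a01f70_lc.SP

theorem exists_sep {α : Type} [DecidableEq α] (G : Finset α) (f : α → Finset α) {D : ℕ}
    (hD : ∀ k, (f k).card ≤ D) (h0 : ∀ k, k ∈ f k) (hs : ∀ k l, l ∈ f k → k ∈ f l) :
    ∃ K ⊆ G, (∀ k ∈ K, ∀ l ∈ K, l ∈ f k → l = k) ∧ G.card ≤ K.card * D := by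
  obtain ⟨K, h1, h2⟩ := exists_max_image
    (G.powerset.filter fun K => ∀ k ∈ K, ∀ l ∈ K, l ∈ f k → l = k) card ⟨∅, by simp⟩
  obtain ⟨h3, h4⟩ := mem_filter.1 h1
  refine ⟨K, mem_powerset.1 h3, h4, le_trans (card_le_card fun l hl => ?_)
    (card_biUnion_le_card_mul K f D fun k _ => hD k)⟩
  by_contra hc
  have h5 : ∀ k ∈ K, l ∉ f k := fun k hk h => hc (mem_biUnion.2 ⟨k, hk, h⟩)
  have h6 := h2 (insert l K) (mem_filter.2 ⟨mem_powerset.2 (insert_subset hl (mem_powerset.1 h3)),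
    fun a ha b hb hab => by
      rcases mem_insert.1 ha with rfl | ha' <;> rcases mem_insert.1 hb with rfl | hb'
      · rfl
      · exact absurd (hs _ _ hab) (h5 b hb')
      · exact absurd hab (h5 a ha')
      · exact h4 a ha' b hb' hab⟩)
  rw [card_insert_of_notMem fun h => h5 l h (h0 l)] at h6
  omega

variable {N n : ℕ} [NeZero N] [NeZero n]

theorem sum_zmod {M : Type} [AddCommMonoid M] (f : ℕ → M) :
    ∑ i : ZMod n, f i.val = ∑ i ∈ range n, f i := by
  cases n with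
  | zero => exact absurd rfl (NeZero.ne 0)
  | succ n => exact Fin.sum_univ_eq_sum_range f _

theorem ps_pw (i : ZMod n) : Ps 1 1 (pw N i) := ps_pow _

theorem neg_dig (hN : N + 1 = 2 ^ n) (u : ZMod N) :
    -u = ∑ i : ZMod n with sg (pw N i * u) = -1, pw N (-1 - i) := by
  obtain ⟨c, h1, h2⟩ := digit hN u (fun x => (x.val : ℤ)) (by simp)
  have hN0 : (0 : ℤ) < N := Nat.cast_pos.2 (NeZero.pos N)
  have hNo : 2 ∣ N + 1 := hN ▸ dvd_pow_self 2 (NeZero.ne n)
  have h3 : ∀ i, 1 - c i = if sg (2 ^ i * u) = -1 then 1 else 0 := fun i => by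
    have a1 := h1 i
    have a2 := val_lt (2 ^ (i + 1) * u)
    have a3 := val_lt (2 ^ i * u)
    have a4 : c i < 2 := lt_of_mul_lt_mul_left (by omega) hN0.le
    have a5 : -1 < c i := lt_of_mul_lt_mul_left (by omega) hN0.le
    simp only [sg, valMinAbs_nonneg_iff]
    rcases (by omega : c i = 0 ∨ c i = 1) with a | a <;> rw [a] at a1 ⊢
    · rw [if_pos (if_pos (by omega))]; rfl
    · rw [if_neg (by rw [if_neg (by omega)]; norm_num)]; rfl
  have h4 : ∑ i ∈ range n, (2 : ℤ) ^ (n - 1 - i) = N := by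
    have h5 : (N : ℤ) + 1 = 2 ^ n := by exact_mod_cast hN
    rw [sum_range_reflect (fun i => (2 : ℤ) ^ i), ← one_mul (∑ _ ∈ _, _)]
    linarith [mul_geom_sum (2 : ℤ) n]
  have h5 : (N : ℤ) - u.val = ∑ i ∈ range n, (1 - c i) * 2 ^ (n - 1 - i) := by
    rw [h2, ← h4, ← sum_sub_distrib]
    exact sum_congr rfl fun i _ => by ring
  have h6 := congrArg (Int.cast : ℤ → ZMod N) h5
  push_cast at h6
  rw [natCast_self, natCast_zmod_val, zero_sub] at h6
  rw [h6, ← sum_zmod, sum_filter]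
  refine sum_congr rfl fun i _ => ?_
  have h7 := congrArg (Int.cast : ℤ → ZMod N) (h3 i.val)
  have h8 : -1 - i = ((n - 1 - i.val : ℕ) : ZMod n) := by
    have := val_lt i
    rw [Nat.cast_sub (by omega), Nat.cast_sub (by omega), natCast_self, natCast_zmod_val]
    simp
  push_cast at h7
  rw [h7, h8, pw_nat hN, pw]
  split_ifs <;> simp

theorem move (hN : N + 1 = 2 ^ n) {d : ℕ} (hD : DD n d) {J : Type} [Fintype J] {r : J → ZMod n}
    (hr : Function.Injective r) {a b c g L w : ℕ} (hab : a + b < Fintype.card J)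
    {Q P q p h x : ZMod N} (hQ : Ps 0 a Q) (hP : Ps 0 b P) (hq : Ps 1 c q) (hp : Ps 0 c p)
    (hrel : d * Q - (∑ j, pw N (-r j) - P) = h * (d * q - p)) (hg0 : 0 < g) (hg : g ≤ 2 ^ L)
    (hge : g * (d * q - p) = 0) (hx : Ps 0 w x) (G : Finset (ZMod n))
    (hG : ∀ k ∈ G, ∀ j, sg (pw N (k + r j) * ((d : ZMod N) * (x + q * 2 ^ L))) = -1) :
    Fintype.card J ^ 2 * n + 2 * G.card ≤ Fintype.card J ^ 2 * (2 * (w + 2 * c * (L + 1) +
      (univ.filter fun i : ZMod n => sg (pw N i * ((d : ZMod N) * (x + q * 2 ^ L))) = -1).card)) := by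
  classical
  obtain ⟨K, hK, h1, h2⟩ := exists_sep G (fun k => univ.image fun j : J × J => k + r j.1 - r j.2)
    (D := Fintype.card J ^ 2) (fun k => card_image_le.trans (by simp [sq]))
    (fun k => mem_image.2 ⟨(Classical.choice (Fintype.card_pos_iff.1 (by omega)),
      Classical.choice (Fintype.card_pos_iff.1 (by omega))), mem_univ _, add_sub_cancel_right _ _⟩)
    fun k l hl => by
      obtain ⟨j, -, rfl⟩ := mem_image.1 hl
      exact mem_image.2 ⟨j.swap, mem_univ _, by simp⟩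
  have h3 := neg_dig hN ((d : ZMod N) * (x + q * 2 ^ L))
  set Z := univ.filter fun i : ZMod n => sg (pw N i * ((d : ZMod N) * (x + q * 2 ^ L))) = -1
  have hinj : Set.InjOn (fun j : ZMod n × J => j.1 + r j.2) (K ×ˢ univ : Finset (ZMod n × J)) := by
    rintro ⟨k, j⟩ hk ⟨l, i⟩ hl e
    dsimp only at e
    obtain rfl : l = k := h1 k (mem_product.1 hk).1 l (mem_product.1 hl).1
      (mem_image.2 ⟨(j, i), mem_univ _, by rw [e, add_sub_cancel_right]⟩)
    rw [hr (add_left_cancel e)]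
  have hsub : (K ×ˢ univ).image (fun j : ZMod n × J => j.1 + r j.2) ⊆ Z := fun i hi => by
    obtain ⟨j, hj, rfl⟩ := mem_image.1 hi
    exact mem_filter.2 ⟨mem_univ _, hG _ (hK (mem_product.1 hj).1) _⟩
  have hc := card_sdiff_add_card_eq_card hsub
  rw [← sum_sdiff hsub, sum_image hinj, sum_product] at h3
  rw [card_image_of_injOn hinj, card_product, card_univ] at hc
  set H := ∑ k ∈ K, pw N (-1 - k)
  have h4 : ∑ k ∈ K, ∑ j, pw N (-1 - (k + r j)) = H * ∑ j, pw N (-r j) := by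
    rw [sum_mul_sum]
    refine sum_congr rfl fun k _ => sum_congr rfl fun j _ => ?_
    rw [← pw_add hN]
    congr 1
    ring
  have hH : Ps 0 K.card H := by
    simpa using ps_sum K fun k _ => (ps_pw (N := N) (-1 - k)).mono (Nat.zero_le _) le_rfl
  obtain ⟨z, hz, h5⟩ : ∃ z < g, (z : ZMod N) * (d * q - p) = H * h * (d * q - p) := by
    refine ⟨(H * h).val % g, Nat.mod_lt _ hg0, ?_⟩
    conv_rhs => rw [← natCast_zmod_val (H * h), ← Nat.mod_add_div (H * h).val g]
    push_cast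
    linear_combination (-((H * h).val / g : ℕ) : ZMod N) * hge
  obtain ⟨y, hy⟩ : ∃ y, y + 1 + z = 2 ^ L := ⟨2 ^ L - 1 - z, by omega⟩
  have h6 : (y : ZMod N) + 2 ^ 0 + z = 2 ^ L := by exact_mod_cast congrArg (Nat.cast : ℕ → ZMod N) hy
  have h7 := dd_ps hN hD
    (((hx.add (hq.mul ((ps_nat L y (by omega)).add (ps_pow 0)))).add (hH.mul hQ)).mono (by omega) le_rfl)
    (((ps_sum (Z \ (K ×ˢ univ).image fun j : ZMod n × J => j.1 + r j.2) fun i _ =>
      (ps_pw (N := N) (-1 - i)).mono (Nat.zero_le _) le_rfl).add (hH.mul hP)).add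
        (hp.mul (ps_nat L z (by omega))))
    (by rw [h4] at h3; linear_combination -h3 + d * q * h6 + H * hrel - h5)
  have h8 := Nat.mul_le_mul_left K.card hab
  have h9 : n + 2 * K.card ≤ 2 * (w + 2 * c * (L + 1) + Z.card) := by nlinarith
  nlinarith [Nat.mul_le_mul_left (Fintype.card J ^ 2) h9]

end Pool.Agent.GE
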