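import Pool.Agent.Lib.MP_a01f70_lc.BA.Defs

/-! Sums of powers of two. -/

set_option linter.unusedSectionVars false

namespace Pool.Agent.GE

open Finset ZMod Pool.Agent.Lib.MP_a01f70_lc.BA Pool.Agent.Lib.MP_a01f70_lc.SP

section
variable {R : Type} [CommRing R] {a b a' b' : ℕ} {x y : R}

/-- A sum of at least `a` and at most `b` powers of two. -/
def Ps (a b : ℕ) (x : R) : Prop :=
  ∃ P : Multiset ℕ, a ≤ P.card ∧ P.card ≤ b ∧ x = (P.map (2 ^ ·)).sum

theorem Ps.mono (h : Ps a b x) (ha : a' ≤ a) (hb : b ≤ b') : Ps a' b' x := by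
  obtain ⟨P, h1, h2, h3⟩ := h
  exact ⟨P, ha.trans h1, h2.trans hb, h3⟩

theorem ps_zero : Ps 0 0 (0 : R) := ⟨0, le_rfl, le_rfl, by simp⟩

theorem ps_pow (k : ℕ) : Ps 1 1 ((2 : R) ^ k) := ⟨{k}, by simp, by simp, by simp⟩

theorem Ps.add (h : Ps a b x) (h' : Ps a' b' y) : Ps (a + a') (b + b') (x + y) := by
  obtain ⟨P, h1, h2, rfl⟩ := h
  obtain ⟨Q, h3, h4, rfl⟩ := h'
  exact ⟨P + Q, by rw [Multiset.card_add]; omega, by rw [Multiset.card_add]; omega, by simp⟩

theorem ps_sum {ι : Type} (s : Finset ι) {f : ι → R} (h : ∀ i ∈ s, Ps 0 b (f i)) :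
    Ps 0 (s.card * b) (∑ i ∈ s, f i) := by
  classical
  induction s using Finset.induction_on with
  | empty => simpa using ps_zero
  | insert i s hi ih =>
    rw [sum_insert hi, card_insert_of_notMem hi, add_mul, one_mul, add_comm _ b]
    exact (h i (mem_insert_self _ _)).add (ih fun j hj => h j (mem_insert_of_mem hj))

theorem Ps.mul (h : Ps a b x) (h' : Ps a' b' y) : Ps (a * a') (b * b') (x * y) := by
  obtain ⟨P, h1, h2, rfl⟩ := h
  obtain ⟨Q, h3, h4, rfl⟩ := h'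
  refine ⟨(P ×ˢ Q).map fun p => p.1 + p.2, ?_, ?_, ?_⟩
  · rw [Multiset.card_map, Multiset.card_product]
    exact Nat.mul_le_mul h1 h3
  · rw [Multiset.card_map, Multiset.card_product]
    exact Nat.mul_le_mul h2 h4
  · clear h1 h2
    induction P using Multiset.induction_on with
    | empty => simp
    | cons k P ih =>
      rw [Multiset.map_cons, Multiset.sum_cons, add_mul, ih, Multiset.cons_product,
        Multiset.map_add, Multiset.map_add, Multiset.sum_add, ← Multiset.sum_map_mul_left]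
      simp [pow_add]

theorem ps_nat (L : ℕ) : ∀ z : ℕ, z < 2 ^ L → Ps 0 L (z : R) := by
  induction L with
  | zero => intro z hz; obtain rfl : z = 0 := by omega
            simpa using ps_zero
  | succ L ih =>
    intro z hz
    by_cases h : z < 2 ^ L
    · exact (ih z h).mono le_rfl L.le_succ
    · obtain ⟨y, rfl⟩ := Nat.exists_eq_add_of_le (not_lt.1 h)
      have := (ih y (by omega)).add (ps_pow L)
      rw [add_comm (y : R)] at this
      push_cast
      exact this.mono (Nat.zero_le _) le_rfl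

theorem Ps.wt (h : Ps a b x) : Wt b x := by
  obtain ⟨P, -, h2, h3⟩ := h
  exact ⟨P, 0, by simpa using h2, by simpa using h3⟩

theorem wt_iff : Wt a x ↔ ∃ b c y z, b + c ≤ a ∧ Ps 0 b y ∧ Ps 0 c z ∧ x = y - z :=
  ⟨fun ⟨P, M, h1, h2⟩ => ⟨_, _, _, _, h1, ⟨P, Nat.zero_le _, le_rfl, rfl⟩,
    ⟨M, Nat.zero_le _, le_rfl, rfl⟩, h2⟩, by
    rintro ⟨b, c, _, _, h1, ⟨P, -, h2, rfl⟩, ⟨M, -, h3, rfl⟩, h4⟩
    exact ⟨P, M, by omega, h4⟩⟩

theorem wt_mul (h : Wt a x) (h' : Wt b y) : Wt (a * b) (x * y) := by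
  obtain ⟨a₁, a₂, x₁, x₂, h1, h2, h3, rfl⟩ := wt_iff.1 h
  obtain ⟨b₁, b₂, y₁, y₂, h4, h5, h6, rfl⟩ := wt_iff.1 h'
  exact wt_iff.2 ⟨_, _, _, _, le_trans (le_of_eq (by ring)) (Nat.mul_le_mul h1 h4),
    (h2.mul h5).add (h3.mul h6), (h2.mul h6).add (h3.mul h5), by ring⟩

end

variable {N n : ℕ} [NeZero N]

theorem wt_of_sparse {T : ℕ} {ξ : ZMod N} (h : Sparse n T ξ) : Wt T ξ := by
  obtain ⟨P, M, -, -, h1, h2⟩ := h
  exact ⟨P.val, M.val, h1, h2⟩

theorem dd_ps {d a b : ℕ} (hN : N + 1 = 2 ^ n) (h : DD n d) {x y : ZMod N} (hx : Ps 1 a x)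
    (hy : Ps 0 b y) (h0 : d * x + y = 0) : n < 2 * (a + b) := by
  obtain ⟨P, h1, h2, rfl⟩ := hx
  obtain ⟨M, -, h3, rfl⟩ := hy
  refine (h P M (by omega) ?_).trans_le (by omega)
  rw [← hN, Nat.add_sub_cancel, ← natCast_eq_zero_iff, ← h0]
  push_cast
  simp only [Multiset.map_map, Function.comp_def, Nat.cast_pow, Nat.cast_ofNat]

theorem ps_jj {w : ℕ} (ω : Fin w → Fin n × Bool) : Ps 0 w ((jj ω : ℕ) : ZMod N) := by
  have := ps_sum (b := 1) univ (f := fun a : Fin w =>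
    (((if (ω a).2 then 1 else 0) * 2 ^ ((ω a).1 : ℕ) : ℕ) : ZMod N)) fun a _ => by
      split_ifs
      · simpa using (ps_pow _).mono (Nat.zero_le _) le_rfl
      · simpa using ps_zero.mono le_rfl (Nat.zero_le _)
  rw [card_univ, Fintype.card_fin, mul_one] at this
  rwa [jj, Nat.cast_sum]

/-- The distance of a character value from one. -/
noncomputable def ds (x : ZMod N) : ℝ := ‖(stdAddChar x : ℂ) - 1‖

theorem ds_add (x y : ZMod N) : ds (x + y) ≤ ds x + ds y := by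
  have e : (stdAddChar (x + y) : ℂ) - 1 = (stdAddChar x - 1) * stdAddChar y + (stdAddChar y - 1) := by
    rw [AddChar.map_add_eq_mul]
    ring
  rw [ds, e]
  refine (norm_add_le _ _).trans ?_
  rw [norm_mul, norm_e, mul_one]
  rfl

theorem ds_neg (x : ZMod N) : ds (-x) = ds x := by
  have e : (stdAddChar (-x) : ℂ) - 1 = -((stdAddChar x - 1) * stdAddChar (-x)) := by
    rw [sub_mul, ← AddChar.map_add_eq_mul, add_neg_cancel, AddChar.map_zero_eq_one]
    ring
  rw [ds, e, norm_neg, norm_mul, norm_e, mul_one, ds]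

theorem ds_nat (k : ℕ) : ds (k : ZMod N) ≤ 7 * k / N := by
  have hN : (0 : ℝ) < N := Nat.cast_pos.2 (NeZero.pos N)
  have e : (stdAddChar (k : ZMod N) : ℂ) = Complex.exp (Complex.I * (2 * Real.pi * k / N : ℝ)) := by
    rw [← Int.cast_natCast (R := ZMod N), stdAddChar_coe]
    congr 1
    push_cast
    ring
  rw [ds, e]
  refine Real.norm_exp_I_mul_ofReal_sub_one_le.trans ?_
  rw [Real.norm_eq_abs, abs_of_nonneg (by positivity)]
  gcongr
  linarith [Real.pi_lt_d2]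

theorem sum_ds_ps (hN : N + 1 = 2 ^ n) {a : ℕ} {u : ZMod N} (h : Ps 0 a u) :
    ∑ i ∈ range n, ds (2 ^ i * u) ≤ 7 * a := by
  have hN0 : (0 : ℝ) < N := Nat.cast_pos.2 (NeZero.pos N)
  obtain ⟨P, -, h2, rfl⟩ := h
  refine le_trans ?_ (mul_le_mul_of_nonneg_left (Nat.cast_le.2 h2) (by norm_num))
  clear h2
  induction P using Multiset.induction_on with
  | empty => simp [ds]
  | cons k P ih =>
    simp only [Multiset.map_cons, Multiset.sum_cons, mul_add, Multiset.card_cons]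
    refine (sum_le_sum fun i _ => ds_add _ _).trans ?_
    have h1 := shift (two_pow_n hN) ds k 1
    simp only [mul_one] at h1
    have h3 : ∑ i ∈ range n, ds ((2 : ZMod N) ^ i) ≤ 7 := by
      refine (sum_le_sum fun i _ => by simpa using ds_nat (N := N) (2 ^ i)).trans (le_of_eq ?_)
      have h4 : (N : ℝ) + 1 = 2 ^ n := by exact_mod_cast hN
      rw [← sum_div, ← mul_sum, geom_sum_eq (by norm_num), ← h4]
      field_simp
      ring
    rw [sum_add_distrib, h1]
    push_cast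
    linarith

theorem sum_ds (hN : N + 1 = 2 ^ n) {a : ℕ} {u : ZMod N} (h : Wt a u) :
    ∑ i ∈ range n, ds (2 ^ i * u) ≤ 7 * a := by
  obtain ⟨b, c, y, z, h1, h2, h3, rfl⟩ := wt_iff.1 h
  have h4 : ∀ i, ds (2 ^ i * (y - z)) ≤ ds (2 ^ i * y) + ds (2 ^ i * z) := fun i => by
    rw [mul_sub, sub_eq_add_neg, ← ds_neg (2 ^ i * z)]
    exact ds_add _ _
  refine (sum_le_sum fun i _ => h4 i).trans ?_
  have h5 : (b : ℝ) + c ≤ a := by exact_mod_cast h1
  rw [sum_add_distrib]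
  linarith [sum_ds_ps hN h2, sum_ds_ps hN h3]

end Pool.Agent.GE
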