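import Pool.Agent.Lib.MP_a01f70_lc.GK.Bas
import Pool.Agent.Lib.MP_a01f70_lc.QQ.Main

namespace Pool.Agent.GK
open Finset Polynomial

theorem link_fin (P : Multiset ℕ) :
    ∃ (k : ℕ) (s : Fin k → ℕ), P.card = k ∧ (P.map (2 ^ ·)).sum = ∑ i, 2 ^ s i := by
  induction P using Quotient.inductionOn with
  | h l => exact ⟨l.length, fun i => l[i.1], rfl, (Fin.sum_univ_fun_getElem l (2 ^ ·)).symm⟩

theorem link_cast (N : ℕ) (P : Multiset ℕ) :
    (((P.map (2 ^ ·)).sum : ℕ) : ZMod N) = (P.map (2 ^ ·)).sum := by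
  induction P using Multiset.induction_on with
  | empty => simp
  | cons a P ih =>
    rw [Multiset.map_cons, Multiset.map_cons, Multiset.sum_cons, Multiset.sum_cons, Nat.cast_add, ih,
      Nat.cast_pow, Nat.cast_ofNat]

open Pool.Agent.Lib.MP_a01f70_lc in
theorem link_dn {F : Type} [Field F] [Fintype F] [Algebra (ZMod 2) F] {n d : ℕ} (hn : Odd n)
    (hc : Fintype.card F = 2 ^ n) (hd : 1 ≤ d) (h : ABF F n d) : Dn n d := by
  intro P Q h0 h1
  obtain ⟨k, s, e1, e2⟩ := link_fin P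
  obtain ⟨k', s', e3, e4⟩ := link_fin Q
  rw [e1, e3] at h0 ⊢
  rw [e2, e4] at h1
  have := count_ge hn hc h hd (κ := Fin k ⊕ Fin k') (Sum.elim s s')
    (Sum.elim (fun _ => 1) fun _ => 0) (Sum.elim (fun _ => 0) fun _ => 1) (by simpa using h1)
    (by simpa using h0)
  simpa using this

theorem link_dv {n d : ℕ} (hn : n ≠ 0) (h : Dn n d) : Dv n d := by
  intro x
  obtain ⟨P, h1, h2, h3⟩ := exists_multiset hn x
  obtain ⟨Q, -, h4, h5⟩ := exists_multiset hn (-((d : ZMod (2 ^ n - 1)) * x))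
  have h6 := h P Q (Nat.add_pos_left (Multiset.card_pos.2 h1) _) ((ZMod.natCast_eq_zero_iff _ _).1 (by
    rw [Nat.cast_add, Nat.cast_mul, link_cast, link_cast, ← h3, ← h5, add_neg_cancel]))
  have h7 : (n : ℝ) < 2 * (P.card + Q.card) := by exact_mod_cast h6
  linarith

theorem link_unit {n d : ℕ} (hn : n ≠ 0) (h : Dn n d) : IsUnit (d : ZMod (2 ^ n - 1)) := by
  have : NeZero (2 ^ n - 1) := ⟨Nat.sub_ne_zero_of_lt (Nat.one_lt_two_pow hn)⟩
  have key : ∀ x : ZMod (2 ^ n - 1), (d : ZMod (2 ^ n - 1)) * x = 0 → (n : ℝ) < 2 * W n x := by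
    intro x hx
    obtain ⟨P, h1, h2, h3⟩ := exists_multiset hn x
    have h6 := h P 0 (Nat.add_pos_left (Multiset.card_pos.2 h1) _)
      ((ZMod.natCast_eq_zero_iff _ _).1 (by
        rw [Nat.cast_add, Nat.cast_mul, link_cast, link_cast, ← h3, hx]
        simp))
    rw [← h2]
    exact_mod_cast h6
  rw [isUnit_iff_mem_nonZeroDivisors_of_finite, mem_nonZeroDivisors_iff_left]
  intro x hx
  by_contra h0
  have h1 := key x hx
  have h2 := key (-x) (by rw [mul_neg, hx, neg_zero])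
  rw [W_neg, ← W_of_ne h0] at h2
  linarith

open Pool.Agent.Lib.MP_a01f70_lc in
theorem link_nl {F : Type} [Field F] [Fintype F] [Algebra (ZMod 2) F] {n d g j : ℕ}
    (hc : Fintype.card F = 2 ^ n) (hg : 0 < g) (h16 : 16 * g ^ 2 ≤ 2 ^ n)
    (h : g * d ≡ g * 2 ^ j [MOD 2 ^ n - 1]) : NAPN F d := by
  classical
  have := charP_two F
  by_contra hN
  set S : Finset F := univ.filter fun y => y ≠ 0 ∧ y ^ d = y ^ 2 ^ j with hS
  have hm : ∀ y, y ∈ S ↔ y ≠ 0 ∧ y ^ d = y ^ 2 ^ j := fun y => by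
    rw [hS, mem_filter, and_iff_right (mem_univ y)]
  have h1 : (univ.erase (0 : F)).card ≤ g * S.card := by
    refine card_le_mul_card_image_of_maps_to (f := fun x => x ^ g) (fun x hx => ?_) g fun a _ => ?_
    · have h0 := (mem_erase.1 hx).1
      refine (hm _).2 ⟨pow_ne_zero _ h0, ?_⟩
      rw [← pow_mul, ← pow_mul]
      exact pow_eq_pow_of_modEq h (hc ▸ FiniteField.pow_card_sub_one_eq_one x h0)
    · refine (card_le_card fun x hx => ?_).trans
        ((Multiset.toFinset_card_le (nthRoots g a)).trans (card_nthRoots g a))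
      exact Multiset.mem_toFinset.2 ((mem_nthRoots hg).2 (mem_filter.1 hx).2)
  have h2 : S.offDiag.card ≤ 2 * (univ : Finset F).card := by
    refine card_le_mul_card_image_of_maps_to (f := fun p : F × F => p.1 + p.2)
      (fun _ _ => mem_univ _) 2 fun a _ => ?_
    rcases (S.offDiag.filter fun p : F × F => p.1 + p.2 = a).eq_empty_or_nonempty with h3 | h3
    · rw [h3]
      exact Nat.zero_le _
    obtain ⟨⟨z, w⟩, h3⟩ := h3
    refine (card_le_card fun p hp => ?_).trans (card_le_two (a := (z, w)) (b := (w, z)))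
    obtain ⟨x, y⟩ := p
    rw [mem_filter, mem_offDiag, hm, hm] at h3 hp
    obtain ⟨⟨⟨-, hz⟩, ⟨hw0, hw⟩, -⟩, e1⟩ := h3
    obtain ⟨⟨⟨-, hx⟩, ⟨-, hy⟩, hxy⟩, e2⟩ := hp
    dsimp only at hz hw0 hw e1 hx hy hxy e2
    have e : x + y = z + w := e2.trans e1.symm
    by_contra h4
    rw [mem_insert, mem_singleton, not_or] at h4
    refine hN ⟨x / w, y / w, ?_, fun h5 => h4.2 ?_, fun h5 => h4.1 ?_,
      fun h5 => hxy ((div_left_inj' hw0).1 h5)⟩
    · have e3 : x / w + y / w + 1 = z / w := by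
        rw [← add_div, e, add_div, div_self hw0, add_assoc, CharTwo.add_self_eq_zero, add_zero]
      rw [e3, div_pow, div_pow, div_pow, hx, hy, hz, hw, ← add_div, ← add_div,
        ← add_pow_char_pow, ← add_pow_char_pow, e, add_right_comm, CharTwo.add_self_eq_zero,
        zero_add, div_self (pow_ne_zero _ hw0)]
    · rw [div_eq_one_iff_eq hw0] at h5
      rw [h5, add_comm] at e
      rw [h5, add_right_cancel e]
    · rw [div_eq_one_iff_eq hw0] at h5
      rw [h5] at e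
      rw [h5, add_right_cancel e]
  have h3 := card_le_univ S
  rw [card_erase_of_mem (mem_univ _), card_univ, hc] at h1
  rw [offDiag_card, card_univ, hc] at h2
  rw [hc] at h3
  generalize 2 ^ n = q at h1 h2 h3 h16
  generalize S.card = s at h1 h2 h3
  have h4 : s * s ≤ 3 * q := by omega
  have h5 : 16 ≤ q := by nlinarith
  obtain ⟨r, rfl⟩ : ∃ r, q = r + 1 := ⟨q - 1, by omega⟩
  rw [Nat.add_sub_cancel] at h1
  have h6 : 16 * (r * r) ≤ (r + 1) * (3 * (r + 1)) :=
    calc 16 * (r * r) ≤ 16 * (g * s * (g * s)) := Nat.mul_le_mul_left _ (Nat.mul_le_mul h1 h1)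
      _ = 16 * g ^ 2 * (s * s) := by ring
      _ ≤ _ := Nat.mul_le_mul h16 h4
  nlinarith

open Pool.Agent.Lib.MP_a01f70_lc in
/-- an almost bent exponent that is not equivalent to a Gold or Kasami exponent is `Good` -/
theorem good_of_ab {F : Type} [Field F] [Fintype F] [Algebra (ZMod 2) F] {n d : ℕ} (hn : Odd n)
    (hc : Fintype.card F = 2 ^ n) (hd : 1 ≤ d) (h : ABF F n d)
    (hG : ¬ ∃ e j : ℕ, ((∃ k : ℕ, Nat.Coprime n k ∧ e = 2 ^ k + 1) ∨
      (∃ k : ℕ, Nat.Coprime n k ∧ e = 2 ^ (2 * k) - 2 ^ k + 1)) ∧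
      (d ≡ 2 ^ j * e [MOD 2 ^ n - 1] ∨ d * e ≡ 2 ^ j [MOD 2 ^ n - 1])) : Good n d := by
  have hn0 : n ≠ 0 := hn.pos.ne'
  have h1 := link_dn hn hc hd h
  refine ⟨h1, link_dv hn0 h1, link_unit hn0 h1, fun a b i e => hG ?_, fun g j hg h16 e => ?_⟩
  · refine QQ.main_napn (a := a) (b := b) (i := i) hn hc hd ?_ fun h' => not_ab_of_napn hn hc h' h
    refine (ZMod.natCast_eq_natCast_iff _ _ _).1 ?_
    push_cast
    exact e
  · refine not_ab_of_napn hn hc (link_nl (j := j) hc hg h16 ?_) h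
    refine (ZMod.natCast_eq_natCast_iff _ _ _).1 ?_
    push_cast
    rwa [mul_sub, sub_eq_zero] at e

end Pool.Agent.GK
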