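import Pool.Agent.Lib.MP_a01f70_lc.GK.Main
import Pool.Agent.Lib.MP_a01f70_lc.GK.Link

namespace Pool.Agent.GK

open Pool.Agent.Lib.MP_a01f70_lc

theorem final : ∃ C : ℕ, ∀ n : ℕ, Odd n → (∀ p : ℕ, p.Prime → p ∣ n → C < p) →
    ∃ E : Finset ℕ, E.card ≤ C ∧ (∀ e ∈ E, Str C n e) ∧
      ∀ (F : Type) [Field F] [Fintype F] [Algebra (ZMod 2) F], Fintype.card F = 2 ^ n →
      ∀ d : ℕ, 1 ≤ d → d ≤ 2 ^ n - 2 → ABF F n d →
        (∃ e j : ℕ, ((∃ k : ℕ, Nat.Coprime n k ∧ e = 2 ^ k + 1) ∨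
          (∃ k : ℕ, Nat.Coprime n k ∧ e = 2 ^ (2 * k) - 2 ^ k + 1)) ∧
          (d ≡ 2 ^ j * e [MOD 2 ^ n - 1] ∨ d * e ≡ 2 ^ j [MOD 2 ^ n - 1])) ∨
        ∃ e ∈ E, ∃ i, d ≡ 2 ^ i * e [MOD 2 ^ n - 1] := by
  obtain ⟨C, hC⟩ := str_of_good
  obtain ⟨C', hC'⟩ := str_count C
  refine ⟨max C C', fun n hn hp => ?_⟩
  by_cases h2 : 2 ≤ n
  · obtain ⟨E, h1, h3, h4⟩ := hC' n h2
    refine ⟨E, h1.trans (le_max_right _ _), fun e he => (h3 e he).mono (le_max_left _ _),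
      fun F _ _ _ hc d hd _ hab => ?_⟩
    refine or_iff_not_imp_left.mpr fun hG => h4 d (hC n h2 hn (fun p hp' hpn => ?_) d
      (good_of_ab hn hc hd hab hG))
    exact lt_of_le_of_lt (le_max_left _ _) (hp p hp' hpn)
  · refine ⟨∅, by simp, by simp, fun F _ _ _ _ d hd hd' _ => ?_⟩
    have : n = 1 := by obtain ⟨k, rfl⟩ := hn; omega
    subst this
    omega

end Pool.Agent.GK
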