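import Pool.Agent.Lib.MP_a01f70_lc.GK.GS1

namespace Pool.Agent.GK
open Finset Polynomial

theorem gs_bin (a : ℝ[X]) (c : ℝ) (s : ℕ) :
    a ∣ 1 + C c * X ^ s ↔ 1 + c • AdjoinRoot.root a ^ s = 0 := by
  rw [← AdjoinRoot.mk_eq_zero, ← AdjoinRoot.aeval_eq, map_add, map_one, map_mul, aeval_C, map_pow,
    aeval_X, Algebra.smul_def]

theorem gs_core {a : ℝ[X]} {c : ℝ} {k : ℕ} (h : BinMin a c k) : ∃ v : ℤ → AdjoinRoot a,
    (∀ f : Module.Dual ℝ (AdjoinRoot a), act a (fun l => f (v l)) = 0) ∧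
    (∀ l, v (l + k) = -c • v l) ∧ (∀ l, v l ≠ 0) ∧
    ∀ (i : ℤ) (s : ℕ), 0 < s → s < k → v (i + s) ∉ Submodule.span ℝ {v i} := by
  obtain ⟨h0, ⟨hc, hk, hd⟩, hmin⟩ := h
  have : Nontrivial (AdjoinRoot a) :=
    AdjoinRoot.nontrivial a (natDegree_pos_iff_degree_pos.1 h0).ne'
  have ha : aeval (AdjoinRoot.root a) a = 0 := by rw [AdjoinRoot.aeval_eq, AdjoinRoot.mk_self]
  have hb : ∀ (c' : ℝ) (s : ℕ), 0 < c' → 0 < s → 1 + c' • AdjoinRoot.root a ^ s = 0 → k ≤ s :=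
    fun c' s h1 h2 h3 => hmin c' s ⟨h1, h2, (gs_bin a c' s).2 h3⟩
  rw [gs_bin] at hd
  generalize AdjoinRoot.root a = x at ha hb hd
  obtain ⟨u, rfl⟩ : IsUnit x := by
    refine IsUnit.of_mul_eq_one (-c • x ^ (k - 1)) ?_
    rw [mul_smul_comm, mul_pow_sub_one hk.ne', neg_smul]
    exact (eq_neg_of_add_eq_zero_left hd).symm
  have hv : ∀ (n : ℤ) (j : ℕ), ((u ^ (-(n - j)) : (AdjoinRoot a)ˣ) : AdjoinRoot a) =
      (u : AdjoinRoot a) ^ j * (u ^ (-n) : (AdjoinRoot a)ˣ) := fun n j => by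
    rw [← Units.val_pow_eq_pow_val, ← Units.val_mul, ← zpow_natCast, ← zpow_add]
    congr 2
    ring
  refine ⟨fun l => (u ^ (-l) : (AdjoinRoot a)ˣ), fun f => funext fun n => ?_, fun l => ?_,
    fun l => Units.ne_zero _, fun i s h1 h2 h3 => ?_⟩
  · rw [act_eq_sum a (lt_add_one _)]
    simp only [hv, ← smul_eq_mul, ← map_smul, ← map_sum]
    simp only [smul_eq_mul, ← smul_mul_assoc, ← sum_mul, ← aeval_eq_sum_range, ha, zero_mul,
      map_zero, Pi.zero_apply]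
  · have h1 := hv (l + k) k
    rw [add_sub_cancel_right] at h1
    beta_reduce
    rw [h1, ← smul_mul_assoc, neg_smul, ← eq_neg_of_add_eq_zero_left hd, one_mul]
  · obtain ⟨t, ht⟩ := Submodule.mem_span_singleton.1 h3
    have h4 := hv (i + s) s
    rw [add_sub_cancel_right] at h4
    beta_reduce at ht
    rw [h4, ← smul_mul_assoc] at ht
    have h5 : t • (u : AdjoinRoot a) ^ s = 1 :=
      (Units.mul_left_inj _).1 (ht.trans (one_mul _).symm)
    rcases lt_trichotomy t 0 with h6 | rfl | h6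
    · exact absurd (hb (-t) s (neg_pos.2 h6) h1 (by rw [neg_smul, h5, add_neg_cancel]))
        (not_le.2 h2)
    · rw [zero_smul] at h5
      exact zero_ne_one h5
    · refine absurd (hb (c / t) (k - s) (div_pos hc h6) (by omega) ?_) (by omega)
      rw [← hd, ← mul_one ((c / t) • _), ← h5, smul_mul_smul_comm, div_mul_cancel₀ _ h6.ne',
        ← pow_add, Nat.sub_add_cancel h2.le, h5]

theorem gs_per {r : ℤ → ℝ} {c : ℝ} {k : ℕ} (hc : 0 < c) (hp : ∀ l, r (l + k) = -c * r l)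
    (l q : ℤ) : r (l + k * q) = 0 ↔ r l = 0 := by
  have h1 : ∀ l, r (l + k) = 0 ↔ r l = 0 := fun l => by
    rw [hp, mul_eq_zero, neg_eq_zero, or_iff_right hc.ne']
  induction q using Int.induction_on with
  | zero => rw [mul_zero, add_zero]
  | succ q ih =>
    rw [mul_add, mul_one, ← add_assoc, h1]
    exact ih
  | pred q ih =>
    rw [← h1, mul_sub, mul_one, add_assoc, sub_add_cancel]
    exact ih

theorem gs_red {r : ℤ → ℝ} {c : ℝ} {k : ℕ} (hc : 0 < c) (hk : 0 < k)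
    (hp : ∀ l, r (l + k) = -c * r l) (i l : ℤ) :
    ∃ s : Fin k, (r l = 0 ↔ r (i + (s : ℕ)) = 0) ∧ ((k : ℤ) ∣ l - i ↔ (s : ℕ) = 0) := by
  have h1 := Int.emod_nonneg (l - i) (b := k) (by omega)
  have h2 := Int.emod_lt_of_pos (l - i) (b := k) (by omega)
  have h3 := Int.emod_add_mul_ediv (l - i) k
  refine ⟨⟨((l - i) % k).toNat, by omega⟩, ?_, ?_⟩
  · rw [← gs_per hc hp (i + _) ((l - i) / k), Int.toNat_of_nonneg h1, add_assoc, h3,
      add_sub_cancel]
  · rw [Int.dvd_iff_emod_eq_zero]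
    simp only
    omega

/-- ground state vanishing exactly on one class: `r l = lam (x ^ (-l))`, `x` the class of `X` (a unit)
in `V = AdjoinRoot a`, `lam` linear on `V`; `x ^ (-l)` is not a multiple of `x ^ (-i)` unless
`k ∣ l - i` (minimality); finitely many proper subspaces do not cover a real vector space -/
theorem BinMin.ground {a : ℝ[X]} {c : ℝ} {k : ℕ} (h : BinMin a c k) (i : ℤ) :
    ∃ r : ℤ → ℝ, act a r = 0 ∧ (∀ l, r (l + k) = -c * r l) ∧ ∀ l, r l = 0 ↔ (k : ℤ) ∣ l - i := by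
  obtain ⟨v, h1, h2, -, h4⟩ := gs_core h
  obtain ⟨f, hf⟩ := Module.exists_dual_forall_apply_ne_zero (K := ℝ)
    (fun s : {s : Fin k // (s : ℕ) ≠ 0} => (Submodule.span ℝ {v i}).mkQ (v (i + (s.1 : ℕ))))
    fun s hs => h4 i s.1 (Nat.pos_of_ne_zero s.2) s.1.2 ((Submodule.Quotient.mk_eq_zero _).1 hs)
  have hp : ∀ l, f ((Submodule.span ℝ {v i}).mkQ (v (l + k))) =
      -c * f ((Submodule.span ℝ {v i}).mkQ (v l)) := fun l => by
    rw [h2, map_smul, map_smul, smul_eq_mul]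
  refine ⟨_, h1 (f ∘ₗ (Submodule.span ℝ {v i}).mkQ), hp, fun l => ?_⟩
  obtain ⟨s, e1, e2⟩ := gs_red (r := fun l => f ((Submodule.span ℝ {v i}).mkQ (v l)))
    h.2.1.1 h.2.1.2.1 hp i l
  refine e1.trans (Iff.trans ⟨fun h0 => ?_, fun h0 => ?_⟩ e2.symm)
  · by_contra hs
    exact hf ⟨s, hs⟩ h0
  · rw [h0, Nat.cast_zero, add_zero, Submodule.mkQ_apply,
      (Submodule.Quotient.mk_eq_zero _).2 (Submodule.mem_span_singleton_self _), map_zero]

/-- ground state without zeros, positive on two lines in different classes: `± r₁ ± ε r₂` with `r₁`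
vanishing on the class of `i`, or a generic `lam` -/
theorem BinMin.ground_pos {a : ℝ[X]} {c : ℝ} {k : ℕ} (h : BinMin a c k) (i j : ℤ)
    (hij : i = j ∨ ¬ (k : ℤ) ∣ i - j) :
    ∃ r : ℤ → ℝ, act a r = 0 ∧ (∀ l, r (l + k) = -c * r l) ∧ (∀ l, r l ≠ 0) ∧
      0 < r i ∧ 0 < r j := by
  have hc := h.2.1.1
  have hk := h.2.1.2.1
  obtain ⟨r, h1, h2, h3⟩ : ∃ r : ℤ → ℝ, act a r = 0 ∧ (∀ l, r (l + k) = -c * r l) ∧
      ∀ l, r l ≠ 0 := by
    obtain ⟨v, h1, h2, h3, -⟩ := gs_core h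
    obtain ⟨f, hf⟩ := Module.exists_dual_forall_apply_ne_zero (K := ℝ)
      (fun s : Fin k => v (0 + (s : ℕ))) fun s => h3 _
    have hp : ∀ l, f (v (l + k)) = -c * f (v l) := fun l => by rw [h2, map_smul, smul_eq_mul]
    refine ⟨_, h1 f, hp, fun l => ?_⟩
    obtain ⟨s, e1, -⟩ := gs_red (r := fun l => f (v l)) hc hk hp 0 l
    exact fun h0 => hf s (e1.1 h0)
  obtain ⟨w, h4, h5, h6⟩ := h.ground i
  have hi : w i = 0 := (h6 i).2 (by simp)
  have e1 : ∀ᶠ t : ℝ in Filter.atTop, ∀ s : Fin k,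
      r i * r (0 + (s : ℕ)) + t * w j * w (0 + (s : ℕ)) ≠ 0 := by
    refine Filter.eventually_all.2 fun s => ?_
    by_cases h0 : w j * w (0 + (s : ℕ)) = 0
    · refine Filter.Eventually.of_forall fun t => ?_
      rw [mul_assoc, h0, mul_zero, add_zero]
      exact mul_ne_zero (h3 _) (h3 _)
    · filter_upwards [Filter.eventually_ne_atTop
        (-(r i * r (0 + (s : ℕ))) / (w j * w (0 + (s : ℕ))))] with t ht h7
      refine ht (eq_div_of_mul_eq h0 ?_)
      linear_combination h7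
  have e2 : ∀ᶠ t : ℝ in Filter.atTop, 0 < r i * r j + t * w j * w j := by
    rcases hij with rfl | hij
    · refine Filter.Eventually.of_forall fun t => ?_
      rw [hi, mul_zero, add_zero]
      exact mul_self_pos.2 (h3 i)
    · have h7 : 0 < w j * w j :=
        mul_self_pos.2 fun h0 => hij (dvd_sub_comm.1 ((h6 j).1 h0))
      filter_upwards [Filter.eventually_gt_atTop (-(r i * r j) / (w j * w j))] with t ht
      rw [div_lt_iff₀ h7] at ht
      linarith
  obtain ⟨t, e3, e4⟩ := (e1.and e2).exists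
  have hp : ∀ l, r i * r (l + k) + t * w j * w (l + k) = -c * (r i * r l + t * w j * w l) :=
    fun l => by
      rw [h2, h5]
      ring
  refine ⟨r i • r + (t * w j) • w, ?_, hp, fun l => ?_, ?_, e4⟩
  · rw [act_add_right, act_smul_right, act_smul_right, h1, h4, smul_zero, smul_zero, add_zero]
  · obtain ⟨s, e5, -⟩ := gs_red (r := fun l => r i * r l + t * w j * w l) hc hk hp 0 l
    exact fun h0 => e3 s (e5.1 h0)
  · change 0 < r i * r i + t * w j * w i
    rw [hi, mul_zero, add_zero]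
    exact mul_self_pos.2 (h3 i)

end Pool.Agent.GK
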