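import Pool.Agent.Lib.MP_a01f70_lc.GK.Defs

namespace Pool.Agent.GK
open Finset Polynomial

theorem GS1_add (a b : ℝ[X]) (y : ℤ → ℝ) : act (a + b) y = act a y + act b y :=
  funext fun _ => sum_add_index a b _ (fun _ => zero_mul _) fun _ _ _ => add_mul _ _ _

theorem GS1_mon (j : ℕ) (c : ℝ) (y : ℤ → ℝ) (k : ℤ) : act (monomial j c) y k = c * y (k - j) :=
  sum_monomial_index c _ (zero_mul _)

theorem act_mul (a b : ℝ[X]) (y : ℤ → ℝ) : act (a * b) y = act a (act b y) := by
  induction a using Polynomial.induction_on' with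
  | add p q hp hq => rw [add_mul, GS1_add, GS1_add, hp, hq]
  | monomial i c =>
    induction b using Polynomial.induction_on' with
    | add p q hp hq =>
      rw [mul_add, GS1_add, GS1_add, hp, hq]
      funext k
      simp only [GS1_mon, Pi.add_apply, mul_add]
    | monomial j d =>
      funext k
      rw [monomial_mul_monomial, GS1_mon, GS1_mon, GS1_mon, mul_assoc, Nat.cast_add, sub_sub]

theorem act_add (a b : ℝ[X]) (y : ℤ → ℝ) : act (a + b) y = act a y + act b y := GS1_add a b y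

theorem act_add_right (a : ℝ[X]) (y z : ℤ → ℝ) : act a (y + z) = act a y + act a z := by
  funext k
  simp only [act, Polynomial.sum, Pi.add_apply, mul_add, sum_add_distrib]

theorem act_smul_right (a : ℝ[X]) (c : ℝ) (y : ℤ → ℝ) : act a (c • y) = c • act a y := by
  funext k
  simp only [act, Polynomial.sum, Pi.smul_apply, smul_eq_mul, mul_sum, mul_left_comm]

theorem act_monomial (j : ℕ) (c : ℝ) (y : ℤ → ℝ) (k : ℤ) :
    act (monomial j c) y k = c * y (k - j) := GS1_mon j c y k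

theorem act_binom (c : ℝ) (j : ℕ) (y : ℤ → ℝ) (k : ℤ) :
    act (1 + C c * X ^ j) y k = y k + c * y (k - j) := by
  rw [C_mul_X_pow_eq_monomial, ← monomial_zero_one, act_add, Pi.add_apply, act_monomial,
    act_monomial, one_mul, Nat.cast_zero, sub_zero]

theorem act_eq_sum (a : ℝ[X]) {N : ℕ} (h : a.natDegree < N) (y : ℤ → ℝ) (k : ℤ) :
    act a y k = ∑ j ∈ range N, a.coeff j * y (k - j) :=
  sum_over_range' a (f := fun j c => c * y (k - j)) (fun _ => zero_mul _) N h

theorem exists_binMin {a : ℝ[X]} (h0 : 0 < a.natDegree) {c : ℝ} {k : ℕ} (h : Bin a c k) :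
    ∃ c' k', BinMin a c' k' := by
  classical
  have ex : ∃ k, ∃ c, Bin a c k := ⟨k, c, h⟩
  obtain ⟨c', hc⟩ := Nat.find_spec ex
  exact ⟨c', _, h0, hc, fun c'' k' h' => Nat.find_min' ex ⟨c'', h'⟩⟩

/-- divide `k'` by `k` with remainder `r`: `X ^ r` is a constant modulo `a`; for `r > 0` either
`X ^ r` or `X ^ (k - r)` is a negative constant, against minimality -/
theorem BinMin.dvd {a : ℝ[X]} {c c' : ℝ} {k k' : ℕ} (h : BinMin a c k) (h' : Bin a c' k') :
    ∃ s, Odd s ∧ k' = k * s ∧ c' = c ^ s := by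
  obtain ⟨h0, ⟨hc, hk, hd⟩, hmin⟩ := h
  obtain ⟨hc', -, hd'⟩ := h'
  have cst : ∀ p : ℝ, a ∣ C p → p = 0 := fun p hp => by
    by_contra hne
    have := natDegree_le_of_dvd hp (C_ne_zero.2 hne)
    rw [natDegree_C] at this
    omega
  have no : ∀ (p q : ℝ) (j : ℕ), 0 < p → 0 < q → j < k → ¬a ∣ C p + C q * X ^ j := by
    intro p q j hp hq hj hpq
    rcases j.eq_zero_or_pos with rfl | hj0
    · rw [pow_zero, mul_one, ← C_add] at hpq
      linarith [cst _ hpq]
    · have e : (1 : ℝ[X]) + C (p⁻¹ * q) * X ^ j = C p⁻¹ * (C p + C q * X ^ j) := by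
        rw [mul_add, ← C_mul, inv_mul_cancel₀ hp.ne', C_1, C_mul, mul_assoc]
      have := hmin (p⁻¹ * q) j ⟨by positivity, hj0, by rw [e]; exact hpq.mul_left _⟩
      omega
  have hr := Nat.mod_lt k' hk
  have hq := Nat.div_add_mod k' k
  generalize k' / k = s at hq
  generalize k' % k = r at hq hr
  subst hq
  have h1 : a ∣ (C c * X ^ k) ^ s - (-1) ^ s :=
    hd.trans (by simpa only [sub_neg_eq_add, add_comm] using
      sub_dvd_pow_sub_pow (C c * X ^ k : ℝ[X]) (-1) s)
  have h2 : a ∣ C (c ^ s) + C c' * X ^ r * (-1) ^ s := by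
    have e : C (c ^ s) + C c' * X ^ r * (-1) ^ s = C (c ^ s) * (1 + C c' * X ^ (k * s + r)) -
        C c' * X ^ r * ((C c * X ^ k) ^ s - (-1) ^ s) := by
      rw [C_pow]
      ring
    rw [e]
    exact dvd_sub (hd'.mul_left _) (h1.mul_left _)
  rcases s.even_or_odd with hs | hs
  · rw [hs.neg_one_pow, mul_one] at h2
    exact absurd h2 (no _ _ r (pow_pos hc s) hc' hr)
  rw [hs.neg_one_pow] at h2
  rcases r.eq_zero_or_pos with rfl | hr0
  · rw [pow_zero, mul_one, mul_neg_one, ← sub_eq_add_neg, ← C_sub] at h2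
    exact ⟨s, hs, rfl, (sub_eq_zero.1 (cst _ h2)).symm⟩
  · obtain ⟨t, rfl⟩ := Nat.exists_eq_add_of_le hr.le
    have e : C c' + C (c ^ (s + 1)) * X ^ t = C c * X ^ t * (C (c ^ s) + C c' * X ^ r * -1) +
        C c' * (1 + C c * X ^ (r + t)) := by
      rw [C_pow, C_pow]
      ring
    refine absurd ?_ (no c' (c ^ (s + 1)) t hc' (pow_pos hc _) (by omega))
    rw [e]
    exact dvd_add (h2.mul_left _) (hd.mul_left _)

end Pool.Agent.GK
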