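import Pool.Agent.Lib.MP_a01f70_lc.GK.Bas

namespace Pool.Agent.GK
open Finset

theorem kfin_small {n w B : ℕ} (hw : w ≤ n) (hB : B + 2 ≤ 2 ^ w) {V : ℤ}
    (hV : |V| ≤ B * 2 ^ (n - w)) (h : (V : ZMod (2 ^ n - 1)) = 0) : V = 0 := by
  refine Int.eq_zero_of_abs_lt_dvd ((ZMod.intCast_zmod_eq_zero_iff_dvd V _).1 h) (hV.trans_lt ?_)
  obtain ⟨m, rfl⟩ := Nat.exists_eq_add_of_le hw
  rw [Nat.cast_pred (Nat.two_pow_pos _), Nat.add_sub_cancel_left, Nat.cast_pow, pow_add]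
  have h1 : (B : ℤ) + 2 ≤ 2 ^ w := by exact_mod_cast hB
  have h2 : (1 : ℤ) ≤ 2 ^ m := one_le_pow₀ one_le_two
  push_cast
  nlinarith

theorem kfin_abs {k c e : ℕ} {a : Fin k → ℤ} {t : Fin k → ℕ} (ha : ∀ j, |a j| ≤ c)
    (ht : ∀ j, t j ≤ e) : |∑ j, a j * 2 ^ t j| ≤ (k * c : ℕ) * 2 ^ e := by
  refine (abs_sum_le_sum_abs _ _).trans
    ((sum_le_card_nsmul _ _ ((c : ℤ) * 2 ^ e) fun j _ => ?_).trans (le_of_eq ?_))
  · rw [abs_mul, abs_pow, abs_two]
    exact mul_le_mul (ha j) (pow_le_pow_right₀ one_le_two (ht j)) (by positivity) (by positivity)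
  · simp [mul_assoc]

/-- a vanishing bounded sum of powers of two has two close exponents -/
theorem close_of_sum_eq_zero (k c : ℕ) (hk : 0 < k) : ∃ L : ℕ, ∀ n : ℕ, L ≤ n →
    ∀ (a : Fin k → ℤ) (s : Fin k → ZMod n), (∀ j, a j ≠ 0) → (∀ j, |a j| ≤ c) →
      ∑ j, (a j : ZMod (2 ^ n - 1)) * 2 ^ (s j).val = 0 →
      ∃ j j', j ≠ j' ∧ ∃ b : ℕ, b ≤ L ∧ s j = s j' + b := by
  refine ⟨k * c + c + 2, fun n hn a s ha hc h => ?_⟩
  have hL := (Nat.lt_two_pow_self (n := k * c + c + 2)).le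
  generalize hL' : k * c + c + 2 = L at hn
  rw [hL'] at hL
  have hn0 : n ≠ 0 := by omega
  have : NeZero n := ⟨hn0⟩
  by_contra hne
  push Not at hne
  obtain ⟨i⟩ : Nonempty (Fin k) := ⟨⟨0, hk⟩⟩
  have h1 : ∀ j, j ≠ i → L ≤ (s j + -s i).val := fun j hj => not_lt.1 fun h1 =>
    hne j i hj _ h1.le (by simp)
  have h2 : ∀ j, (s j + -s i).val ≤ n - L := fun j => by
    by_cases hj : j = i
    · simp [hj]
    · by_contra h2
      refine hne i j (Ne.symm hj) (n - (s j + -s i).val) (by omega) ?_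
      rw [Nat.cast_sub (ZMod.val_lt _).le]
      simp
  have h3 : ∑ j, a j * 2 ^ (s j + -s i).val = 0 := by
    refine kfin_small hn (B := k * c) (by omega) (kfin_abs hc h2) ?_
    push_cast
    simp only [two_pow_val_add hn0, ← mul_assoc, ← sum_mul, h, zero_mul]
  rw [← add_sum_erase _ _ (mem_univ i), add_neg_cancel, ZMod.val_zero, pow_zero, mul_one,
    add_eq_zero_iff_eq_neg] at h3
  refine ha i (Int.eq_zero_of_abs_lt_dvd (m := 2 ^ L) ?_ ((hc i).trans_lt ?_))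
  · rw [h3, dvd_neg]
    exact dvd_sum fun j hj => (pow_dvd_pow 2 (h1 j (ne_of_mem_erase hj))).mul_left _
  · have h4 : c < 2 ^ L := by omega
    exact_mod_cast h4

/-- a bounded sum of powers of two of small additive order vanishes -/
theorem eq_zero_of_small_order (k : ℕ) : ∃ L : ℕ, 0 < L ∧ ∀ n : ℕ, L ≤ n →
    ∀ (x : ZMod (2 ^ n - 1)) (g : ℕ), Wt k x → 0 < g → g ^ L ≤ 2 ^ n →
      (g : ZMod (2 ^ n - 1)) * x = 0 → x = 0 := by
  refine ⟨(2 * k ^ 2 + 4) * (k + 1), by positivity, fun n hn x g hx hg hL h => ?_⟩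
  obtain ⟨c, s, rfl⟩ := hx.fin
  have hn0 : 0 < n := lt_of_lt_of_le (by positivity) hn
  have hw : 2 * k ^ 2 + 4 ≤ n / (k + 1) := (Nat.le_div_iff_mul_le k.succ_pos).2 hn
  have hw1 : n / (k + 1) * (k + 1) ≤ n := Nat.div_mul_le_self _ _
  have hw2 : n ≤ (n / (k + 1) + 1) * (k + 1) := by
    rw [mul_comm]
    exact (Nat.lt_mul_div_succ n k.succ_pos).le
  generalize n / (k + 1) = w at hw hw1 hw2
  have hw0 : 0 < w := by omega
  have hg2 : g ^ 2 ≤ 2 * 2 ^ w := by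
    have h1 := hL.trans (Nat.pow_le_pow_right two_pos hw2)
    rw [pow_mul, pow_mul, Nat.pow_le_pow_iff_left k.succ_ne_zero, pow_succ' 2 w] at h1
    exact (Nat.pow_le_pow_right hg (by omega)).trans h1
  have hB : g * (k * 1) + 2 ≤ 2 ^ w := by
    have h1 := hw.trans (Nat.lt_two_pow_self (n := w)).le
    zify at h1 hg2 ⊢
    nlinarith [sq_nonneg ((g : ℤ) - 2 * k)]
  obtain ⟨i, hi, hi'⟩ := exists_mem_notMem_of_card_lt_card (s := univ.image fun j => s j % n / w)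
    (t := range (k + 1)) (card_image_le.trans_lt (by simp))
  have hi1 : (i + 1) * w ≤ n := by
    refine le_trans ?_ hw1
    rw [mul_comm w]
    exact Nat.mul_le_mul_right _ (mem_range.1 hi)
  have ht : ∀ j, (s j % n + (n - (i + 1) * w)) % n ≤ n - w := fun j => by
    have h1 : s j % n / w ≠ i := fun e => hi' (mem_image.2 ⟨j, mem_univ _, e⟩)
    have h2 := Nat.mod_lt (s j) hn0
    generalize s j % n = r at h1 h2
    rw [add_mul, one_mul] at hi1 ⊢
    rcases h1.lt_or_gt with h1 | h1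
    · have h3 := (Nat.div_lt_iff_lt_mul hw0).1 h1
      exact (Nat.mod_le _ _).trans (by omega)
    · have h3 := (Nat.le_div_iff_mul_le hw0).1 (Nat.succ_le_of_lt h1)
      rw [Nat.succ_mul] at h3
      rw [show r + (n - (i * w + w)) = r - (i * w + w) + n by omega, Nat.add_mod_right]
      exact (Nat.mod_le _ _).trans (by omega)
  have hp : ∀ e, (2 : ZMod (2 ^ n - 1)) ^ (e % n) = 2 ^ e := fun e =>
    (pow_eq_pow_mod e (two_pow_self n)).symm
  have hV : ((∑ j, (c j : ℤ) * 2 ^ ((s j % n + (n - (i + 1) * w)) % n) : ℤ) : ZMod (2 ^ n - 1)) =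
      (∑ j, ((c j : ℤ) : ZMod (2 ^ n - 1)) * 2 ^ s j) * 2 ^ (n - (i + 1) * w) := by
    rw [Int.cast_sum, sum_mul]
    refine sum_congr rfl fun j _ => ?_
    rw [Int.cast_mul, Int.cast_pow, Int.cast_ofNat, hp, pow_add, hp, mul_assoc]
  have hc : ∀ j, |(c j : ℤ)| ≤ (1 : ℕ) := fun j => by
    rcases c j with _ | _ | _ <;> simp
  have h1 := kfin_small (V := g * ∑ j, (c j : ℤ) * 2 ^ ((s j % n + (n - (i + 1) * w)) % n))
    ((Nat.le_mul_of_pos_right w k.succ_pos).trans hw1) hB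
    (by
      rw [abs_mul, Nat.abs_cast, Nat.cast_mul, mul_assoc]
      exact mul_le_mul_of_nonneg_left (kfin_abs hc ht) (Nat.cast_nonneg g))
    (by rw [Int.cast_mul, hV, ← mul_assoc, Int.cast_natCast, h, zero_mul])
  rw [(mul_eq_zero.1 h1).resolve_left (Nat.cast_ne_zero.2 hg.ne'), Int.cast_zero] at hV
  have h2 := congrArg (· * 2 ^ ((i + 1) * w)) hV
  simp only [zero_mul, mul_assoc, ← pow_add, Nat.sub_add_cancel hi1, two_pow_self, mul_one] at h2
  exact h2.symm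

end Pool.Agent.GK
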