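import Pool.Agent.Lib.MP_a01f70_lc.GK.Kfin
import Pool.Agent.Lib.MP_a01f70_lc.GK.GRb

namespace Pool.Agent.GK
open Finset

variable {U : Ultrafilter ℕ} {n : ℕ → ℕ} {m r : ℕ} (L : Lim U n m r)

include L in
theorem Lim.big (c : ℕ) : ∀ᶠ i in U, c ≤ n i := by
  filter_upwards [L.rough c.factorial c.factorial_pos] with i hi
  by_contra h
  have h2 := L.two i
  have h3 := hi.symm.eq_one_of_dvd (Nat.dvd_factorial (by omega) (by omega))
  omega

theorem Lim.wt_ev (f : GR m (Fin r → ℤ)) : ∃ k, ∀ i, Wt k (L.ev i f) := by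
  induction f using GR_induction with
  | h0 => exact ⟨0, fun i => by rw [map_zero]; exact wt_zero⟩
  | hm γ => exact ⟨1, fun i => by rw [L.ev_mon]; exact wt_pow _⟩
  | ha x y hx hy =>
    obtain ⟨k, hk⟩ := hx
    obtain ⟨k', hk'⟩ := hy
    exact ⟨k + k', fun i => by rw [map_add]; exact (hk i).add (hk' i)⟩
  | hn x hx =>
    obtain ⟨k, hk⟩ := hx
    exact ⟨k, fun i => by rw [map_neg]; exact (hk i).neg⟩

theorem Lim.isUnit_ev_mon (i : ℕ) (γ : ℤ × (Fin r → ℤ)) : IsUnit (L.ev i (mon m γ)) :=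
  (isUnit_mon γ).map _

theorem Lim.isUnit_ev_binom (i : ℕ) (γ γ' : ℤ × (Fin r → ℤ)) :
    IsUnit (L.ev i (mon m γ + mon m γ')) := by
  have hn : n i ≠ 0 := (L.odd i).pos.ne'
  have h2 : IsUnit (2 : ZMod (2 ^ n i - 1)) := IsUnit.of_pow_eq_one (two_pow_self _) hn
  have h3 : mon m γ + mon m γ' = mon m γ * (1 + mon m (γ' - γ)) := by
    rw [mul_add, mul_one, ← mon_add, add_sub_cancel]
  rw [h3, map_mul, map_add, map_one]
  refine (L.isUnit_ev_mon i γ).mul (isUnit_of_dvd_unit ?_ h2)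
  have h4 := (L.odd i).add_dvd_pow_add_pow 1 (L.ev i (mon m (γ' - γ)))
  rwa [one_pow, L.ev_mon, ← pow_mul, mul_comm, pow_mul, two_pow_self, one_pow, one_add_one_eq_two,
    ← L.ev_mon] at h4

include L in
theorem Lim.isUnit_odd {a : ℕ} (ha : Odd a) : ∀ᶠ i in U, IsUnit (a : ZMod (2 ^ n i - 1)) := by
  filter_upwards [L.rough a.totient (Nat.totient_pos.2 ha.pos)] with i hi
  have h1 : a ∣ 2 ^ a.totient - 1 :=
    (Nat.modEq_iff_dvd' Nat.one_le_two_pow).1
      (Nat.ModEq.pow_totient (Nat.coprime_two_left.2 ha)).symm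
  refine (ZMod.isUnit_iff_coprime _ _).2 (Nat.Coprime.coprime_dvd_left h1 ?_)
  rw [Nat.Coprime, Nat.pow_sub_one_gcd_pow_sub_one, hi.gcd_eq_one, pow_one]

variable [NeZero m]

/-- evaluation is injective in the limit -/
theorem Lim.ev_ne_zero {f : GR m (Fin r → ℤ)} (hf : f ≠ 0) : ∀ᶠ i in U, L.ev i f ≠ 0 := by
  obtain ⟨k, c, γ, hc, hγ, rfl⟩ := exists_sum_classes f
  have hk : 0 < k := Nat.pos_of_ne_zero (by
    rintro rfl
    simp at hf)
  obtain ⟨B, hB⟩ := close_of_sum_eq_zero k (∑ j, (c j).natAbs) hk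
  have h1 : ∀ᶠ i in U, ∀ j j', ∀ b ∈ range (B + 1), j ≠ j' →
      L.Φ i (γ j - (γ j' + (b : ℤ) • ((m : ℤ), 0))) ≠ 0 := by
    simp only [Filter.eventually_all, Filter.eventually_all_finset]
    exact fun j j' b _ hj => L.inj _ fun h => hj (hγ j j' b (sub_eq_zero.1 h))
  filter_upwards [h1, L.big B] with i h2 h3 h4
  obtain ⟨j, j', hj, b, hb, e⟩ := hB (n i) h3 c (fun j => L.Φ i (γ j)) hc
    (fun j => by
      rw [Int.abs_eq_natAbs]
      exact_mod_cast single_le_sum (f := fun j => (c j).natAbs) (fun _ _ => Nat.zero_le _)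
        (mem_univ j))
    (by simpa only [map_sum, zsmul_eq_mul, map_mul, map_intCast, L.ev_mon] using h4)
  refine h2 j j' b (mem_range.2 (by omega)) hj ?_
  rw [map_sub, map_add, map_zsmul, L.sig, e]
  simp

theorem Lim.isUnit_ev_single (v : Fin r → ℤ) {q : O m} (hq : q ≠ 0) :
    ∀ᶠ i in U, IsUnit (L.ev i (AddMonoidAlgebra.single v q)) := by
  obtain ⟨y, a, ha, e⟩ := exists_odd_mul hq
  filter_upwards [L.isUnit_odd ha] with i hi
  refine isUnit_of_mul_isUnit_left (y := L.ev i (AddMonoidAlgebra.single (-v) y)) ?_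
  rwa [← map_mul, AddMonoidAlgebra.single_mul_single, add_neg_cancel, e,
    ← AddMonoidAlgebra.natCast_def, map_natCast]

/-- an element whose values have small order is zero -/
theorem Lim.eq_zero_of_small {f : GR m (Fin r → ℤ)} (h : Small U n fun i => L.ev i f) :
    f = 0 := by
  by_contra hf
  obtain ⟨k, hk⟩ := L.wt_ev f
  obtain ⟨B, hB, H⟩ := eq_zero_of_small_order k
  have hB' : (0 : ℝ) < B := by exact_mod_cast hB
  obtain ⟨i, ⟨h1, h2⟩, g, hg, h3, h4⟩ :=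
    (((L.ev_ne_zero hf).and (L.big B)).and (h (1 / B) (by positivity))).exists
  refine h1 (H (n i) h2 _ g (hk i) hg ?_ h4)
  have h5 := pow_le_pow_left₀ (Nat.cast_nonneg g) h3 B
  rw [← Real.rpow_natCast (_ ^ _), ← Real.rpow_mul zero_le_two,
    show 1 / (B : ℝ) * n i * B = n i by field_simp, Real.rpow_natCast] at h5
  exact_mod_cast h5

end Pool.Agent.GK
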