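import Pool.Agent.Lib.MP_a01f70_lc.GK.Ker
import Pool.Agent.Lib.MP_a01f70_lc.GK.Kinj

namespace Pool.Agent.GK
open Finset Polynomial

variable {U : Ultrafilter ℕ} {n : ℕ → ℕ} {m r : ℕ}

theorem lab_floor {G : Type} [AddCommGroup G] {q : ℕ} {g : G} (hg : q • g = 0) (t : ℝ) :
    ⌊q * fr (t : Tc)⌋ • g = ⌊q * t⌋ • g := by
  have e : (q : ℝ) * fr (t : Tc) = q * t - ((⌊t⌋ * q : ℤ) : ℝ) := by
    rw [fr_coe, Int.fract]
    push_cast
    ring
  rw [e, Int.floor_sub_intCast, sub_smul, mul_smul, natCast_zsmul, hg, smul_zero, sub_zero]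

theorem lab_step {G : Type} [AddCommGroup G] {q : ℕ} (hq : 0 < q) {g : G} (hg : q • g = 0)
    (a : ℤ) {x y : Tc} (h : q * ‖y‖ < ‖q • x‖) :
    ⌊q * fr (x + (y + a • (((q : ℝ)⁻¹ : ℝ) : Tc)))⌋ • g = ⌊q * fr x⌋ • g + a • g := by
  have hq' : (0 : ℝ) < q := Nat.cast_pos.2 hq
  obtain ⟨u, rfl, hu⟩ := exists_coe_norm y
  obtain ⟨t, rfl, -⟩ := exists_coe_norm x
  rw [← AddCircle.coe_nsmul, nsmul_eq_mul, ← hu] at h
  have h1 := norm_le_fr ((q * t : ℝ) : Tc)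
  have h2 := norm_le_one_sub_fr ((q * t : ℝ) : Tc)
  rw [fr_coe, Int.fract] at h1 h2
  have h3 := mul_le_mul_of_nonneg_left (le_abs_self u) hq'.le
  have h4 := mul_le_mul_of_nonneg_left (neg_abs_le u) hq'.le
  rw [← AddCircle.coe_zsmul, ← AddCircle.coe_add, ← AddCircle.coe_add, lab_floor hg, lab_floor hg,
    ← add_smul]
  congr 1
  have e : (q : ℝ) * (t + (u + a • (q : ℝ)⁻¹)) = q * t + q * u + a := by
    rw [zsmul_eq_mul]
    field_simp
    ring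
  rw [e, Int.floor_add_intCast, add_left_inj, Int.floor_eq_iff]
  constructor <;> linarith

theorem lab_sep {R a b : ℕ} (ha : a < R) (hb : b < R) (h : a ≠ b) :
    (R : ℝ)⁻¹ ≤ ‖((((a : ℝ) / R : ℝ) : Tc) - (((b : ℝ) / R : ℝ) : Tc))‖ := by
  have hR : (0 : ℝ) < R := Nat.cast_pos.2 (by omega)
  rw [← AddCircle.coe_sub, UnitAddCircle.norm_eq]
  generalize round ((a : ℝ) / R - b / R) = z
  have h1 : (a : ℤ) - b - R * z ≠ 0 := fun h0 => by
    have h2 : (a : ℤ) - b = 0 := Int.eq_zero_of_abs_lt_dvd (m := R) ⟨z, by omega⟩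
      (by rw [abs_lt]; omega)
    omega
  have h3 : (1 : ℝ) ≤ |(a : ℝ) - b - R * z| := by exact_mod_cast Int.one_le_abs h1
  rw [show (a : ℝ) / R - b / R - z = (a - b - R * z) / R by field_simp, abs_div, abs_of_pos hR,
    inv_eq_one_div]
  gcongr

theorem lab_shift (N : ℕ) {R : ℕ} (hR : 0 < R) (z : ℕ → Tc) : ∃ (a : ℕ) (T : Finset ℕ),
    (T.card : ℝ) ≤ N / R ∧ ∀ s < N, s ∉ T → (4 * R : ℝ)⁻¹ < ‖z s + (((a : ℝ) / R : ℝ) : Tc)‖ := by
  classical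
  have hR' : (0 : ℝ) < R := Nat.cast_pos.2 hR
  let T : ℕ → Finset ℕ := fun a =>
    (range N).filter fun s => ‖z s + (((a : ℝ) / R : ℝ) : Tc)‖ ≤ (4 * R : ℝ)⁻¹
  have h1 : ∑ a ∈ range R, (T a).card ≤ N := by
    rw [← card_biUnion fun a ha b hb hab => disjoint_left.2 fun s h1 h2 => ?_]
    · refine (card_le_card (biUnion_subset.2 fun a _ => filter_subset _ _)).trans_eq (card_range N)
    · have h3 := lab_sep (mem_range.1 ha) (mem_range.1 hb) hab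
      rw [← add_sub_add_left_eq_sub _ _ (z s)] at h3
      have h4 := h3.trans ((norm_sub_le _ _).trans
        (add_le_add (mem_filter.1 h1).2 (mem_filter.1 h2).2))
      rw [mul_inv] at h4
      linarith [inv_pos.2 hR']
  obtain ⟨a, -, h2⟩ := exists_le_of_sum_le (s := range R) (f := fun a => ((T a).card : ℝ))
    (g := fun _ => (N : ℝ) / R) (nonempty_range_iff.2 hR.ne') (by
      rw [sum_const, card_range, nsmul_eq_mul, mul_div_cancel₀ _ hR'.ne']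
      exact_mod_cast h1)
  exact ⟨a, T a, h2, fun s hs h => not_le.1 fun h' => h (mem_filter.2 ⟨mem_range.2 hs, h'⟩)⟩

theorem lab_sum {k : ℕ} {A : Type} [AddCommGroup A] (Φ : (Fin k → ℤ) →+ A) (v : Fin k → ℤ) :
    Φ v = ∑ j, v j • Φ (Pi.single j 1) := by
  conv_lhs => rw [← univ_sum_single v, map_sum]
  exact sum_congr rfl fun j _ => by rw [← map_zsmul, ← Pi.single_smul, smul_eq_mul, mul_one]

theorem lab_kappa (k : ℕ) {η : ℝ} (hη : 0 < η) : ∃ M : ℕ, ∀ (N : ℕ) [NeZero N]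
    (Φ : (Fin k → ℤ) →+ ZMod N), (∀ v : Fin k → ℤ, v ≠ 0 → (∀ j, |v j| ≤ M) → Φ v ≠ 0) →
      ∀ t : Fin k → Tc, ∃ κ : ZMod N, ∀ l, ‖cc N (κ * Φ (Pi.single l 1)) - t l‖ < η := by
  obtain ⟨M, c, hc, h⟩ := kernel k hη
  refine ⟨M, fun N _ Φ hΦ t => ?_⟩
  have hN : (N : ℝ) ≠ 0 := Nat.cast_ne_zero.2 (NeZero.ne N)
  have h1 := h (ZMod N) (fun _ => (N : ℝ)⁻¹) (fun κ l => cc N (κ * Φ (Pi.single l 1)) - t l)
    (fun _ => by positivity) (by rw [sum_const, card_univ, ZMod.card, nsmul_eq_mul,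
      mul_inv_cancel₀ hN]) fun v hv hM => by
      have e : ∀ κ : ZMod N, ∑ j, v j • (cc N (κ * Φ (Pi.single j 1)) - t j) =
          cc N (κ * Φ v) + -∑ j, v j • t j := fun κ => by
        rw [lab_sum Φ v, mul_sum, map_sum, ← sub_eq_add_neg, ← sum_sub_distrib]
        exact sum_congr rfl fun j _ => by rw [smul_sub, mul_smul_comm, map_zsmul]
      simp only [e, ee_add]
      rw [← mul_sum, ← Complex.re_sum, ← sum_mul, sum_ee_cc, if_neg (hΦ v hv hM), zero_mul,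
        Complex.zero_re, mul_zero]
      linarith
  by_contra h0
  push Not at h0
  rw [sum_eq_zero fun κ _ => if_neg fun h2 => by
    obtain ⟨l, hl⟩ := h0 κ
    exact absurd (h2 l) (not_lt.2 hl)] at h1
  linarith

theorem lab_core (k : ℕ) (G : Type) [AddCommGroup G] [Fintype G] (π : (Fin k → ℤ) →+ G)
    (S : Finset (Fin k → ℤ)) {ε : ℝ} (hε : 0 < ε) : ∃ M : ℕ, ∀ (N : ℕ) [NeZero N]
      (Φ : (Fin k → ℤ) →+ ZMod N), (∀ v : Fin k → ℤ, v ≠ 0 → (∀ j, |v j| ≤ M) → Φ v ≠ 0) →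
      ∃ (lab : ZMod N → G) (bad : Finset ℕ), (bad.card : ℝ) ≤ ε * N ∧
        ∀ s : ℕ, s < N → s ∉ bad → ∀ γ ∈ S, lab (s + Φ γ) = lab s + π γ := by
  classical
  obtain ⟨R, hR⟩ := exists_nat_gt (k / ε)
  have hR' : (0 : ℝ) < R := lt_of_le_of_lt (by positivity) hR
  obtain ⟨q, hq, hg⟩ : ∃ q : ℕ, 0 < q ∧ ∀ g : G, q • g = 0 :=
    ⟨Fintype.card G, Fintype.card_pos, fun _ => card_nsmul_eq_zero⟩
  have hq' : (0 : ℝ) < q := Nat.cast_pos.2 hq
  obtain ⟨B, hB, hS⟩ : ∃ B : ℝ, 0 < B ∧ ∀ γ ∈ S, ∑ l, |(γ l : ℝ)| ≤ B :=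
    ⟨∑ γ ∈ S, ∑ l, |(γ l : ℝ)| + 1, by positivity, fun γ hγ =>
      (single_le_sum (f := fun γ : Fin k → ℤ => ∑ l, |(γ l : ℝ)|) (fun _ _ => by positivity)
        hγ).trans (le_add_of_nonneg_right zero_le_one)⟩
  obtain ⟨M, hM⟩ := lab_kappa k (η := (4 * R * q * B)⁻¹) (by positivity)
  refine ⟨M, fun N _ Φ hΦ => ?_⟩
  choose κ hκ using fun j : Fin k => hM N Φ hΦ (Pi.single j (((q : ℝ)⁻¹ : ℝ) : Tc))
  choose a T h1 h2 using fun j : Fin k =>
    lab_shift N (Nat.cast_pos.1 hR') fun s => q • cc N (κ j * s)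
  refine ⟨fun x => ∑ j, ⌊q * fr (cc N (κ j * x) + ((a j / R / q : ℝ) : Tc))⌋ • π (Pi.single j 1),
    univ.biUnion T, ?_, fun s hs hb γ hγ => ?_⟩
  · calc ((univ.biUnion T).card : ℝ) ≤ ∑ j, ((T j).card : ℝ) := by exact_mod_cast card_biUnion_le
      _ ≤ ∑ _j : Fin k, (N : ℝ) / R := sum_le_sum fun j _ => h1 j
      _ = k / R * N := by
        rw [sum_const, card_univ, Fintype.card_fin, nsmul_eq_mul]
        ring
      _ ≤ ε * N := by
        gcongr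
        rw [div_le_iff₀ hR']
        rw [div_lt_iff₀ hε] at hR
        linarith
  · rw [lab_sum π γ, ← sum_add_distrib]
    refine sum_congr rfl fun j _ => ?_
    have h3 := h2 j s hs fun h => hb (mem_biUnion.2 ⟨j, mem_univ j, h⟩)
    have e : cc N (κ j * (s + Φ γ)) + ((a j / R / q : ℝ) : Tc) =
        cc N (κ j * s) + ((a j / R / q : ℝ) : Tc) + (∑ l, γ l • (cc N (κ j * Φ (Pi.single l 1)) -
          (Pi.single j (((q : ℝ)⁻¹ : ℝ) : Tc) : Fin k → Tc) l) + γ j • (((q : ℝ)⁻¹ : ℝ) : Tc)) := by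
      simp only [smul_sub, sum_sub_distrib]
      rw [sum_eq_single j (f := fun l => γ l • (Pi.single j (((q : ℝ)⁻¹ : ℝ) : Tc) : Fin k → Tc) l)
        (fun l _ hl => by rw [Pi.single_eq_of_ne hl, smul_zero]) (fun h => absurd (mem_univ j) h),
        Pi.single_eq_same, sub_add_cancel, mul_add, map_add, lab_sum Φ γ, mul_sum, map_sum,
        add_right_comm]
      simp only [mul_smul_comm, map_zsmul]
    rw [e]
    refine lab_step hq (hg _) _ ?_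
    rw [smul_add, ← AddCircle.coe_nsmul, nsmul_eq_mul (q : ℕ) (a j / R / q : ℝ),
      mul_div_cancel₀ _ hq'.ne']
    refine lt_of_le_of_lt ?_ h3
    calc _ ≤ (q : ℝ) * ∑ l, |(γ l : ℝ)| * (4 * R * q * B)⁻¹ := by
          refine mul_le_mul_of_nonneg_left ((norm_sum_le _ _).trans (sum_le_sum fun l _ =>
            (norm_zsmul_le _ _).trans ?_)) hq'.le
          exact mul_le_mul_of_nonneg_left (hκ j l).le (abs_nonneg _)
      _ ≤ q * (B * (4 * R * q * B)⁻¹) := by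
          rw [← sum_mul]
          gcongr
          exact hS γ hγ
      _ = _ := by field_simp

/-- an approximately equivariant labelling -/
theorem Lim.label (L : Lim U n m r) (G : Type) [AddCommGroup G] [Fintype G]
    (π : ℤ × (Fin r → ℤ) →+ G) (S : Finset (ℤ × (Fin r → ℤ))) {ε : ℝ} (hε : 0 < ε) :
    ∀ᶠ i in U, ∃ (lab : ZMod (n i) → G) (bad : Finset ℕ), (bad.card : ℝ) ≤ ε * n i ∧
      ∀ s : ℕ, s < n i → s ∉ bad → ∀ γ ∈ S, lab (s + L.Φ i γ) = lab s + π γ := by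
  classical
  let φ : (Fin (r + 1) → ℤ) ≃+ ℤ × (Fin r → ℤ) :=
    (Fin.consLinearEquiv ℤ fun _ : Fin (r + 1) => ℤ).symm.toAddEquiv
  obtain ⟨M, hM⟩ := lab_core (r + 1) G (π.comp φ.toAddMonoidHom) (S.image φ.symm) hε
  have h1 : ∀ᶠ i in U, ∀ v ∈ (Fintype.piFinset fun _ : Fin (r + 1) => Icc (-M : ℤ) M).erase 0,
      L.Φ i (φ v) ≠ 0 := (Filter.eventually_all_finset _).2 fun v hv =>
    L.inj _ (φ.map_ne_zero_iff.2 (mem_erase.1 hv).1)
  filter_upwards [h1] with i hi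
  have : NeZero (n i) := ⟨by have := L.two i; omega⟩
  obtain ⟨lab, bad, h2, h3⟩ := hM (n i) ((L.Φ i).comp φ.toAddMonoidHom) fun v hv h =>
    hi v (mem_erase.2 ⟨hv, Fintype.mem_piFinset.2 fun j => mem_Icc.2 (abs_le.1 (h j))⟩)
  refine ⟨lab, bad, h2, fun s hs hb γ hγ => ?_⟩
  simpa using h3 s hs hb _ (mem_image_of_mem _ hγ)

end Pool.Agent.GK
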