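import Pool.Agent.Lib.MP_a01f70_lc.GK.Bas
import Pool.Agent.Lib.MP_a01f70_lc.GK.GRb

namespace Pool.Agent.GK
open Finset Polynomial

/-- a nonzero integer vector is a positive multiple of a basis vector -/
theorem lime_prim {N : ℕ} {σ : Fin N → ℤ} (hσ : σ ≠ 0) :
    ∃ (m r : ℕ) (T : (ℤ × (Fin r → ℤ)) →ₗ[ℤ] (Fin N → ℤ)), 0 < m ∧ T ((m : ℤ), 0) = σ ∧
      Function.Surjective T ∧ ∀ γ, T γ = 0 → γ = 0 := by
  obtain ⟨u, hu⟩ := Finset.gcd_eq_sum_mul univ σ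
  have h0 : univ.gcd σ ≠ 0 := fun h =>
    hσ (funext fun i => Finset.gcd_eq_zero_iff.1 h i (mem_univ i))
  obtain ⟨m, hm⟩ := Int.eq_ofNat_of_zero_le
    (Int.nonneg_of_normalize_eq_self (Finset.normalize_gcd (s := univ) (f := σ)))
  choose τ hτ using fun i => Finset.gcd_dvd (f := σ) (mem_univ i)
  rw [hm] at hu h0 hτ
  let φ : (Fin N → ℤ) →ₗ[ℤ] ℤ := ∑ i, u i • LinearMap.proj i
  have hφ : φ τ = 1 := by
    refine mul_left_cancel₀ h0 ?_
    simp only [φ, LinearMap.sum_apply, LinearMap.smul_apply, LinearMap.proj_apply, smul_eq_mul]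
    rw [mul_one, mul_sum]
    refine Eq.trans (sum_congr rfl fun i _ => ?_) hu.symm
    rw [hτ i]
    ring
  let b := (Module.finBasis ℤ (LinearMap.ker φ)).equivFun.symm
  refine ⟨m, _, (LinearMap.toSpanSingleton ℤ _ τ).coprod ((LinearMap.ker φ).subtype ∘ₗ b.toLinearMap),
    Nat.pos_of_ne_zero fun h => h0 (by rw [h]; rfl), ?_, fun v => ?_, fun γ h => ?_⟩
  · funext i
    simp [hτ i]
  · refine ⟨(φ v, b.symm ⟨v - φ v • τ, by
      rw [LinearMap.mem_ker, map_sub, map_smul, hφ, smul_eq_mul, mul_one, sub_self]⟩), ?_⟩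
    simp
  · have h1 : γ.1 • τ + (b γ.2 : Fin N → ℤ) = 0 := h
    have h2 : γ.1 = 0 := by
      have := congrArg φ h1
      rwa [map_add, map_smul, hφ, (b γ.2).2, map_zero, add_zero, smul_eq_mul, mul_one] at this
    rw [h2, zero_smul, zero_add] at h1
    exact Prod.ext h2 (b.map_eq_zero_iff.1 (Subtype.ext h1))

/-- coordinates modulo a saturated sublattice -/
theorem lime_sat {k : ℕ} (K : Submodule ℤ (ℤ × (Fin k → ℤ)))
    (hK : ∀ (c : ℤ) v, c • v ∈ K → c = 0 ∨ v ∈ K) {σ : ℤ × (Fin k → ℤ)} (hσ : σ ∉ K) :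
    ∃ (m r : ℕ) (T : (ℤ × (Fin r → ℤ)) →ₗ[ℤ] ℤ × (Fin k → ℤ)), 0 < m ∧ T ((m : ℤ), 0) - σ ∈ K ∧
      (∀ v, ∃ γ, T γ - v ∈ K) ∧ ∀ γ, T γ ∈ K → γ = 0 := by
  have : Module.IsTorsionFree ℤ ((ℤ × (Fin k → ℤ)) ⧸ K) :=
    Module.IsTorsionFree.of_smul_eq_zero fun c v h => by
      obtain ⟨v, rfl⟩ := K.mkQ_surjective v
      rw [← map_smul, Submodule.mkQ_apply, Submodule.Quotient.mk_eq_zero] at h
      rw [Submodule.mkQ_apply, Submodule.Quotient.mk_eq_zero]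
      exact hK c v h
  let e := (Module.finBasis ℤ ((ℤ × (Fin k → ℤ)) ⧸ K)).equivFun
  have h0 : ∀ v, e (K.mkQ v) = 0 ↔ v ∈ K := fun v => by
    rw [e.map_eq_zero_iff, Submodule.mkQ_apply, Submodule.Quotient.mk_eq_zero]
  obtain ⟨m, r, T, h1, h2, h3, h4⟩ := lime_prim (σ := e (K.mkQ σ)) fun h => hσ ((h0 σ).1 h)
  obtain ⟨S, hS⟩ := Module.projective_lifting_property (e.toLinearMap ∘ₗ K.mkQ) T
    (e.surjective.comp K.mkQ_surjective)
  have h5 : ∀ γ, e (K.mkQ (S γ)) = T γ := fun γ => LinearMap.congr_fun hS γ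
  refine ⟨m, r, S, h1, (h0 _).1 ?_, fun v => ?_, fun γ h => h4 γ ?_⟩
  · rw [map_sub, map_sub, h5, h2, sub_self]
  · obtain ⟨γ, hγ⟩ := h3 (e (K.mkQ v))
    exact ⟨γ, (h0 _).1 (by rw [map_sub, map_sub, h5, hγ, sub_self])⟩
  · rw [← h5, h0]
    exact h

/-- the limit of finitely many sites -/
theorem exists_lim (U : Ultrafilter ℕ) (n : ℕ → ℕ) (two : ∀ i, 2 ≤ n i) (odd : ∀ i, Odd (n i))
    (rough : ∀ c : ℕ, 0 < c → ∀ᶠ i in U, Nat.Coprime c (n i)) (k : ℕ)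
    (s : ∀ i, Fin k → ZMod (n i)) :
    ∃ (m r : ℕ) (ν : ℕ → ℕ) (L : Lim U (fun i => n (ν i)) m r) (γ : Fin k → ℤ × (Fin r → ℤ)),
      0 < m ∧ (∀ᶠ i in U, ν i = i) ∧ ∀ i j, L.Φ i (γ j) = s (ν i) j := by
  classical
  obtain ⟨ψ, ψ1, ψ2⟩ : ∃ ψ : ∀ i, (ℤ × (Fin k → ℤ)) →ₗ[ℤ] ZMod (n i),
      (∀ i, ψ i (1, 0) = 1) ∧ ∀ i j, ψ i (0, Pi.single j 1) = s i j :=
    ⟨fun i => (LinearMap.toSpanSingleton ℤ _ 1).coprod (Fintype.linearCombination ℤ (s i)),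
      fun i => by simp, fun i j => by simp⟩
  let K : Submodule ℤ (ℤ × (Fin k → ℤ)) :=
    { carrier := {v | ∀ᶠ i in U, ψ i v = 0}
      zero_mem' := Filter.Eventually.of_forall fun i => map_zero _
      add_mem' := fun ha hb => (Filter.Eventually.and ha hb).mono fun i h => by
        rw [map_add, h.1, h.2, add_zero]
      smul_mem' := fun c v hv => Filter.Eventually.mono hv fun i h => by
        rw [map_smul, h, smul_zero] }
  have hK : ∀ v, v ∈ K ↔ ∀ᶠ i in U, ψ i v = 0 := fun v => Iff.rfl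
  obtain ⟨m, r, T, h1, h2, h3, h4⟩ := lime_sat K (σ := (1, 0)) (fun c v h => by
      refine or_iff_not_imp_left.2 fun hc => (hK v).2 ?_
      filter_upwards [(hK _).1 h, rough c.natAbs (Int.natAbs_pos.2 hc)] with i g1 g2
      rw [map_smul, zsmul_eq_mul] at g1
      refine ((ZMod.isUnit_iff_coprime _ _).2 g2).mul_right_eq_zero.1 ?_
      rcases Int.natAbs_eq c with g | g <;> rw [g] at g1
      · rwa [Int.cast_natCast] at g1
      · rwa [Int.cast_neg, Int.cast_natCast, neg_mul, neg_eq_zero] at g1)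
    fun h => by
      obtain ⟨i, hi⟩ := ((hK _).1 h).exists
      have : Fact (1 < n i) := ⟨two i⟩
      exact one_ne_zero ((ψ1 i).symm.trans hi)
  have : NeZero m := ⟨h1.ne'⟩
  choose γ hγ using fun j => h3 (0, Pi.single j 1)
  have hg : ∀ᶠ i in U, ψ i (T ((m : ℤ), 0)) = 1 ∧ ∀ j, ψ i (T (γ j)) = s i j := by
    refine (((hK _).1 h2).mono fun i h => ?_).and
      (Filter.eventually_all.2 fun j => ((hK _).1 (hγ j)).mono fun i h => ?_)
    · rwa [map_sub, ψ1, sub_eq_zero] at h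
    · rwa [map_sub, ψ2, sub_eq_zero] at h
  obtain ⟨ν, ν1, ν2⟩ : ∃ ν : ℕ → ℕ, (∀ᶠ i in U, ν i = i) ∧
      ∀ i, ψ (ν i) (T ((m : ℤ), 0)) = 1 ∧ ∀ j, ψ (ν i) (T (γ j)) = s (ν i) j := by
    obtain ⟨i₀, h0⟩ := hg.exists
    refine ⟨fun i => if ψ i (T ((m : ℤ), 0)) = 1 ∧ ∀ j, ψ i (T (γ j)) = s i j then i else i₀,
      hg.mono fun i h => if_pos h, fun i => ?_⟩
    beta_reduce
    by_cases h : ψ i (T ((m : ℤ), 0)) = 1 ∧ ∀ j, ψ i (T (γ j)) = s i j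
    · rw [if_pos h]
      exact h
    · rw [if_neg h]
      exact h0
  have hev : ∀ i, ∃ f : GR m (Fin r → ℤ) →+* ZMod (2 ^ n (ν i) - 1),
      ∀ δ, f (mon m δ) = 2 ^ (ψ (ν i) (T δ)).val := fun i =>
    exists_liftG (S := ZMod (2 ^ n (ν i) - 1))
      { toFun := fun δ => 2 ^ (ψ (ν i) (T δ.toAdd)).val
        map_one' := by rw [toAdd_one, map_zero, map_zero, ZMod.val_zero, pow_zero]
        map_mul' := fun a b => by
          rw [toAdd_mul, map_add, map_add, two_pow_val_add (by have := two (ν i); omega)] }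
      (by
        show (2 : ZMod (2 ^ n (ν i) - 1)) ^ (ψ (ν i) (T ((m : ℤ), 0))).val = 2
        rw [(ν2 i).1, ZMod.val_one'' (by have := two (ν i); omega), pow_one])
  choose ev hev using hev
  refine ⟨m, r, ν, ⟨fun i => (ψ (ν i) ∘ₗ T).toAddMonoidHom, ev, fun i => two _, fun i => odd _,
    fun c hc => ?_, fun i => (ν2 i).1, hev, fun δ hδ => ?_⟩, γ, h1, ν1, fun i => (ν2 i).2⟩
  · filter_upwards [rough c hc, ν1] with i g1 g2
    rwa [g2]
  · filter_upwards [Ultrafilter.eventually_not.2 fun h => hδ (h4 δ ((hK _).2 h)), ν1] with i g1 g2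
    show ψ (ν i) (T δ) ≠ 0
    rwa [g2]

/-- the limit of two bounded signed sums -/
theorem exists_lim_wt (U : Ultrafilter ℕ) (n : ℕ → ℕ) (two : ∀ i, 2 ≤ n i) (odd : ∀ i, Odd (n i))
    (rough : ∀ c : ℕ, 0 < c → ∀ᶠ i in U, Nat.Coprime c (n i)) (k : ℕ)
    (η ξ : ∀ i, ZMod (2 ^ n i - 1)) (hη : ∀ i, Wt k (η i)) (hξ : ∀ i, Wt k (ξ i)) :
    ∃ (m r : ℕ) (ν : ℕ → ℕ) (L : Lim U (fun i => n (ν i)) m r) (A B : GR m (Fin r → ℤ)),
      0 < m ∧ (∀ᶠ i in U, ν i = i) ∧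
      ∀ᶠ i in U, L.ev i A = η (ν i) ∧ L.ev i B = ξ (ν i) := by
  choose c s hs using fun i => (hη i).fin
  choose c' s' hs' using fun i => (hξ i).fin
  obtain ⟨m, r, ν, L, γ, h1, h2, h3⟩ := exists_lim U n two odd rough (k + k) fun i =>
    Fin.append (fun j => (s i j : ZMod (n i))) fun j => (s' i j : ZMod (n i))
  obtain ⟨d, hd⟩ := (Ultrafilter.eventually_exists_iff (f := U) (P := fun d i => (c i, c' i) = d)).1
    (Filter.Eventually.of_forall fun i => ⟨_, rfl⟩)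
  refine ⟨m, r, ν, L, ∑ j, ((d.1 j : ℤ) : GR m (Fin r → ℤ)) * mon m (γ (Fin.castAdd k j)),
    ∑ j, ((d.2 j : ℤ) : GR m (Fin r → ℤ)) * mon m (γ (Fin.natAdd k j)), h1, h2, ?_⟩
  filter_upwards [h2, hd] with i g1 g2
  rw [← g1] at g2
  rw [hs, hs', ← g2]
  simp only [map_sum, map_mul, map_intCast, L.ev_mon, h3, Fin.append_left, Fin.append_right,
    two_pow_val_natCast, and_self]

end Pool.Agent.GK
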