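import Pool.Agent.Lib.MP_a01f70_lc.GK.Kinj

namespace Pool.Agent.GK
open Finset

theorem StrE_sum {m : ℕ} (x : O m) : ∃ k₀ : ℕ, ∀ k : ℕ, k₀ ≤ k → ∃ P Q : Multiset ℕ,
    tz m k * x = (P.map fun e : ℕ => tz m e).sum - (Q.map fun e : ℕ => tz m e).sum := by
  induction x using O_induction with
  | h0 => exact ⟨0, fun k _ => ⟨0, 0, by simp⟩⟩
  | hm e =>
    refine ⟨(-e).toNat, fun k hk => ⟨{(k + e).toNat}, 0, ?_⟩⟩
    rw [Multiset.map_singleton, Multiset.sum_singleton, Multiset.map_zero, Multiset.sum_zero,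
      sub_zero, Int.toNat_of_nonneg (by omega), tz_add]
  | ha x y hx hy =>
    obtain ⟨a, ha⟩ := hx
    obtain ⟨b, hb⟩ := hy
    refine ⟨a + b, fun k hk => ?_⟩
    obtain ⟨P, Q, h1⟩ := ha k (by omega)
    obtain ⟨P', Q', h2⟩ := hb k (by omega)
    refine ⟨P + P', Q + Q', ?_⟩
    simp only [Multiset.map_add, Multiset.sum_add, mul_add, h1, h2]
    ring
  | hn x hx =>
    obtain ⟨a, ha⟩ := hx
    refine ⟨a, fun k hk => ?_⟩
    obtain ⟨P, Q, h1⟩ := ha k hk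
    exact ⟨Q, P, by rw [mul_neg, h1, neg_sub]⟩

theorem StrE_cast (n : ℕ) : ((2 ^ n - 1 : ℕ) : ℤ) = 2 ^ n - 1 := by
  rw [Nat.cast_sub Nat.one_le_two_pow]
  simp

/-- a constant fraction gives the structure -/
theorem Lim.str {U : Ultrafilter ℕ} {n : ℕ → ℕ} {m r : ℕ} [NeZero m] (L : Lim U n m r)
    {d : ℕ → ℕ} {p q : O m} (hq : q ≠ 0) (v : Fin r → ℤ)
    (h : ∀ᶠ i in U, d i * L.ev i (AddMonoidAlgebra.single 0 q)
      = L.ev i (AddMonoidAlgebra.single v p)) :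
    ∃ C, ∀ᶠ i in U, Str C (n i) (d i) := by
  obtain ⟨a, ha⟩ := StrE_sum p
  obtain ⟨b, hb⟩ := StrE_sum q
  obtain ⟨P, Q, h1⟩ := ha (a + b) (by omega)
  obtain ⟨P', Q', h2⟩ := hb (a + b) (by omega)
  refine ⟨m + (P + Q + P' + Q').card + (P + Q + P' + Q').sum, ?_⟩
  filter_upwards [h, L.isUnit_ev_single 0 (mul_ne_zero (tz_ne_zero (a + b : ℕ)) hq)] with i hi hu
  have : NeZero (n i) := ⟨by have := L.two i; omega⟩
  let g : O m →+* ZMod (2 ^ n i - 1) := (L.ev i).comp AddMonoidAlgebra.singleZeroRingHom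
  have hg : ∀ x, L.ev i (AddMonoidAlgebra.single 0 x) = g x := fun _ => rfl
  have h3 : ∀ e : ℕ, g (tz m e) = 2 ^ ((L.Φ i (1, 0)).val * e) := fun e => by
    rw [pow_mul, ← L.ev_mon, ← map_pow, mon_pow, ← hg, mon]
    simp
  have h4 : ∀ A B : Multiset ℕ, g ((A.map fun e : ℕ => tz m e).sum -
      (B.map fun e : ℕ => tz m e).sum) = (sv (L.Φ i (1, 0)).val A B : ℤ) := fun A B => by
    simp only [sv, map_sub, map_multiset_sum, Multiset.map_map, Function.comp_def, h3,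
      Int.cast_sub, Int.cast_multiset_sum, Int.cast_pow, Int.cast_ofNat]
  refine ⟨m, (L.Φ i (1, 0)).val, (L.Φ i (0, v)).val, P, Q, P', Q', NeZero.pos m, by omega,
    ZMod.val_lt _, ?_, by omega, fun e he => (Multiset.le_sum_of_mem he).trans (by omega), ?_, ?_⟩
  · rw [← ZMod.natCast_eq_natCast_iff, Nat.cast_mul, ZMod.natCast_zmod_val, ← nsmul_eq_mul,
      ← map_nsmul, Nat.cast_one, ← L.sig i]
    simp
  · rw [hg, h2, h4, ZMod.coe_int_isUnit_iff_isCoprime, StrE_cast] at hu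
    exact Int.isCoprime_iff_gcd_eq_one.1 hu.symm
  · have h5 : AddMonoidAlgebra.single v p = mon m (0, v) * AddMonoidAlgebra.single 0 p := by
      rw [mon_mul_single, add_zero, tz_zero, one_mul]
    rw [h5, map_mul, L.ev_mon, hg, hg] at hi
    rw [← StrE_cast, ← ZMod.intCast_eq_intCast_iff, Int.cast_mul, Int.cast_mul, ← h4, ← h4, ← h1,
      ← h2, map_mul, map_mul]
    push_cast
    linear_combination g (tz m (a + b)) * hi

theorem Str.mono {C C' n d : ℕ} (h : Str C n d) (hC : C ≤ C') : Str C' n d := by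
  obtain ⟨m, τ, j, P, Q, P', Q', h1, h2, h3, h4, h5, h6, h7⟩ := h
  exact ⟨m, τ, j, P, Q, P', Q', h1, h2.trans hC, h3, h4, h5.trans hC,
    fun e he => (h6 e he).trans hC, h7⟩

theorem StrE_mem {C : ℕ} {P S : Multiset ℕ} (h : P ≤ S) (h1 : S.card ≤ C) (h2 : ∀ e ∈ S, e ≤ C) :
    P ∈ Iic (C • Multiset.range (C + 1)) := by
  refine mem_Iic.2 (h.trans (Multiset.le_iff_count.2 fun a => ?_))
  by_cases ha : a ∈ S
  · rw [Multiset.count_nsmul, Multiset.count_eq_one_of_mem (Multiset.nodup_range _)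
      (Multiset.mem_range.2 (Nat.lt_succ_of_le (h2 a ha))), mul_one]
    exact (Multiset.count_le_card a S).trans h1
  · rw [Multiset.count_eq_zero_of_notMem ha]
    exact Nat.zero_le _

/-- the exponents with the structure lie in boundedly many cyclotomic classes -/
theorem str_count (C : ℕ) : ∃ C' : ℕ, ∀ n : ℕ, 2 ≤ n → ∃ E : Finset ℕ, E.card ≤ C' ∧
    (∀ e ∈ E, Str C n e) ∧ ∀ d : ℕ, Str C n d → ∃ e ∈ E, ∃ i, d ≡ 2 ^ i * e [MOD 2 ^ n - 1] := by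
  classical
  let S := Iic (C • Multiset.range (C + 1))
  let T := range (C + 1) ×ˢ S ×ˢ S ×ˢ S ×ˢ S
  refine ⟨T.card, fun n hn => ?_⟩
  let R : ℕ × Multiset ℕ × Multiset ℕ × Multiset ℕ × Multiset ℕ → ℕ → Prop := fun t d =>
    ∃ τ j : ℕ, 0 < t.1 ∧ t.1 ≤ C ∧ τ < n ∧ t.1 * τ ≡ 1 [MOD n] ∧
      (t.2.1 + t.2.2.1 + t.2.2.2.1 + t.2.2.2.2).card ≤ C ∧
      (∀ e ∈ t.2.1 + t.2.2.1 + t.2.2.2.1 + t.2.2.2.2, e ≤ C) ∧
      Int.gcd (sv τ t.2.2.2.1 t.2.2.2.2) (2 ^ n - 1) = 1 ∧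
      d * sv τ t.2.2.2.1 t.2.2.2.2 ≡ 2 ^ j * sv τ t.2.1 t.2.2.1 [ZMOD 2 ^ n - 1]
  have h1 : ∀ t, ∃ e, (∃ d, R t d) → R t e := fun t => by
    by_cases h : ∃ d, R t d
    · exact h.imp fun _ h _ => h
    · exact ⟨0, fun h' => absurd h' h⟩
  choose e he using h1
  refine ⟨(T.filter fun t => ∃ d, R t d).image e, card_image_le.trans (card_filter_le _ _), ?_, ?_⟩
  · intro x hx
    obtain ⟨t, ht, rfl⟩ := mem_image.1 hx
    obtain ⟨τ, j, h⟩ := he t (mem_filter.1 ht).2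
    exact ⟨_, τ, j, _, _, _, _, h⟩
  · rintro d ⟨m, τ, j, P, Q, P', Q', h1, h2, h3, h4, h5, h6, h7, h8⟩
    have hR : ∃ d, R (m, P, Q, P', Q') d := ⟨d, τ, j, h1, h2, h3, h4, h5, h6, h7, h8⟩
    obtain ⟨τ', j', -, -, k3, k4, -, -, -, k8⟩ := he _ hR
    have hT : (m, P, Q, P', Q') ∈ T := by
      refine mem_product.2 ⟨mem_range.2 (Nat.lt_succ_of_le h2), mem_product.2 ⟨?_, mem_product.2
        ⟨?_, mem_product.2 ⟨?_, ?_⟩⟩⟩⟩ <;>
      refine StrE_mem (Multiset.le_iff_count.2 fun a => ?_) h5 h6 <;>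
      simp only [Multiset.count_add] <;> omega
    obtain rfl : τ' = τ := by
      have h9 : τ' * (m * τ) ≡ τ * (m * τ') [MOD n] := by
        rw [show τ' * (m * τ) = τ * (m * τ') by ring]
      have h10 := ((h4.mul_left τ').symm.trans h9).trans (Nat.ModEq.mul_left τ k4)
      rw [mul_one, mul_one] at h10
      exact Nat.ModEq.eq_of_lt_of_lt h10 k3 h3
    refine ⟨_, mem_image_of_mem e (mem_filter.2 ⟨hT, hR⟩), j + (n - 1) * j', ?_⟩
    generalize e (m, P, Q, P', Q') = x at k8 ⊢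
    rw [← StrE_cast] at h7 h8 k8
    rw [← ZMod.intCast_eq_intCast_iff] at h8 k8
    have hu := (ZMod.coe_int_isUnit_iff_isCoprime _ _).2
      (Int.isCoprime_iff_gcd_eq_one.2 h7).symm
    have h9 : (2 : ZMod (2 ^ n - 1)) ^ (n - 1) * 2 = 1 := by
      rw [← pow_succ, Nat.sub_add_cancel (by omega), ← sub_eq_zero]
      have := ZMod.natCast_self (2 ^ n - 1)
      rwa [Nat.cast_sub Nat.one_le_two_pow, Nat.cast_pow, Nat.cast_ofNat, Nat.cast_one] at this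
    have h10 : ((2 : ZMod (2 ^ n - 1)) ^ (n - 1)) ^ j' * 2 ^ j' = 1 := by
      rw [← mul_pow, h9, one_pow]
    rw [← ZMod.natCast_eq_natCast_iff]
    refine hu.mul_right_cancel ?_
    push_cast at h8 k8 ⊢
    rw [pow_add, pow_mul, h8, mul_assoc, mul_assoc, k8, ← mul_assoc (_ ^ j'), h10, one_mul]

end Pool.Agent.GK
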