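import Pool.Agent.Lib.MP_a01f70_lc.GK.AIf
import Pool.Agent.Lib.MP_a01f70_lc.GK.LimE
import Pool.Agent.Lib.MP_a01f70_lc.GK.Bgcd
import Pool.Agent.Lib.MP_a01f70_lc.GK.Clim
import Pool.Agent.Lib.MP_a01f70_lc.GK.R1
import Pool.Agent.Lib.MP_a01f70_lc.GK.EE
import Pool.Agent.Lib.MP_a01f70_lc.GK.StrE

namespace Pool.Agent.GK
open Finset

theorem str_of_good : ∃ C : ℕ, ∀ n : ℕ, 2 ≤ n → Odd n → (∀ p : ℕ, p.Prime → p ∣ n → C < p) →
    ∀ d : ℕ, Good n d → Str C n d := by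
  by_contra hc
  push Not at hc
  choose n two odd hp d hd hs using hc
  obtain ⟨k, hk⟩ := bounded_rel
  choose η h0 h1 h2 using fun i => hk (n i) (d i) (two i) (hd i).dn
  have hge : ∀ c : ℕ, ∀ᶠ i in (Filter.hyperfilter ℕ : Filter ℕ), c ≤ i := fun c =>
    Nat.hyperfilter_le_atTop (Filter.eventually_ge_atTop c)
  obtain ⟨m, r, ν, L, A, B, hm, hν, hev⟩ := exists_lim_wt (Filter.hyperfilter ℕ) n two odd
    (fun c hc => (hge c).mono fun i hi => Nat.coprime_of_dvd fun p h3 h4 h5 =>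
      ((hp i p h3 h5).trans_le (Nat.le_of_dvd hc h4)).not_ge hi) k η (fun i => η i * d i) h1 h2
  have : NeZero m := ⟨hm.ne'⟩
  obtain ⟨j, hj, hj'⟩ := hev.exists
  have hA : A ≠ 0 := fun h => h0 (ν j) (by rw [← hj, h, map_zero])
  have hB : B ≠ 0 := fun h => h0 (ν j) ((hd _).unit.mul_left_eq_zero.1 (by rw [← hj', h, map_zero]))
  have hAB : ∀ᶠ i in (Filter.hyperfilter ℕ : Filter ℕ), L.ev i A * d (ν i) = L.ev i B :=
    hev.mono fun i h => by rw [h.1, h.2]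
  have key : ∀ P Q, A * P = B * Q → Small (Filter.hyperfilter ℕ) (fun i => n (ν i))
      fun i => d (ν i) * L.ev i Q - L.ev i P := fun P Q h => L.small hA (hAB.mono fun i hi => by
    have h3 := congrArg (L.ev i) h
    rw [map_mul, map_mul, ← hi] at h3
    linear_combination -h3)
  rcases form_of_dd hA hB (L.dd (fun i => (hd (ν i)).dv) hAB) with
    ⟨p, q, v, h3, h4, h⟩ | ⟨γ₁, γ₂, γ₃, γ₄, h⟩
  · obtain ⟨C, hC⟩ := L.str (fun h5 => h4.ne' (by rw [h5, ZeroMemClass.coe_zero])) v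
      (L.eF (fun i => hd (ν i)) h3 h4 v (key _ _ h))
    obtain ⟨i, h5, h6, h7⟩ := (hC.and (hν.and (hge C))).exists
    exact hs i (by simpa only [h6] using h5.mono h7)
  · exact L.eQ (fun i => hd (ν i)) _ _ _ _ (key _ _ h)

end Pool.Agent.GK
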