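import Pool.Agent.Lib.MP_a01f70_lc.GK.OA2

namespace Pool.Agent.GK
open Finset

variable {m : ℕ} [NeZero m]

theorem oa_one_le : (1 : ℤ) ≤ m := by
  have := NeZero.pos m
  omega

theorem oa_co0_one : co0 m 1 = 1 := by
  rw [← tz_zero, co0_tz]
  simp

theorem co0_Fil_one {x : O m} (h : x ∈ Fil m 1) : ∃ a : ℤ, co0 m x = 2 * a := by
  induction h using AddSubgroup.closure_induction with
  | mem x hx =>
    obtain ⟨f, hf, rfl⟩ := hx
    rw [co0_tz]
    split_ifs with hd
    · obtain ⟨j, rfl⟩ := hd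
      have h1 : (1 : ℤ) ≤ m := oa_one_le
      have h2 : (1 : ℤ) ≤ m * j := hf
      have h3 : 1 ≤ j := by
        by_contra hn
        nlinarith
      obtain ⟨i, rfl⟩ : ∃ i : ℕ, j = i + 1 := ⟨(j - 1).toNat, by omega⟩
      refine ⟨2 ^ i, ?_⟩
      rw [Int.mul_ediv_cancel_left _ (by omega), zpow_add_one₀ two_ne_zero, zpow_natCast]
      push_cast
      ring
    · exact ⟨0, by simp⟩
  | zero => exact ⟨0, by simp⟩
  | add x y _ _ hx hy =>
    obtain ⟨a, ha⟩ := hx
    obtain ⟨b, hb⟩ := hy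
    refine ⟨a + b, ?_⟩
    rw [map_add, ha, hb]
    push_cast
    ring
  | neg x _ hx =>
    obtain ⟨a, ha⟩ := hx
    refine ⟨-a, ?_⟩
    rw [map_neg, ha]
    push_cast
    ring

omit [NeZero m] in
theorem oa_self (e : ℤ) : tz m e ∈ Fil m e := tz_mem_Fil le_rfl

theorem tz_not_mem_Fil (e : ℤ) : tz m e ∉ Fil m (e + 1) := by
  intro h
  have h1 := mul_mem_Fil h (oa_self (m := m) (-e))
  rw [tz_mul_neg, show e + 1 + -e = 1 by ring] at h1
  obtain ⟨a, ha⟩ := co0_Fil_one h1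
  rw [oa_co0_one] at ha
  have : (1 : ℤ) = 2 * a := by exact_mod_cast ha
  omega

theorem two_mul_mem_Fil {e : ℤ} {x : O m} (h : x ∈ Fil m e) : 2 * x ∈ Fil m (e + m) := by
  have h1 := mul_mem_Fil (oa_self (m := m) m) h
  rwa [tz_m, add_comm] at h1

theorem oa_two_tz (e : ℤ) : 2 * tz m e ∈ Fil m (e + 1) :=
  Fil_anti (by linarith [oa_one_le (m := m)]) (two_mul_mem_Fil (oa_self e))

theorem Fil_cases {e : ℤ} {x : O m} (h : x ∈ Fil m e) :
    x ∈ Fil m (e + 1) ∨ x - tz m e ∈ Fil m (e + 1) := by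
  induction h using AddSubgroup.closure_induction with
  | mem x hx =>
    obtain ⟨f, hf, rfl⟩ := hx
    rcases eq_or_lt_of_le (show e ≤ f from hf) with h | h
    · right
      rw [h, sub_self]
      exact zero_mem _
    · exact Or.inl (tz_mem_Fil h)
  | zero => exact Or.inl (zero_mem _)
  | add x y _ _ hx hy =>
    rcases hx with hx | hx <;> rcases hy with hy | hy
    · exact Or.inl (add_mem hx hy)
    · right
      rw [add_sub_assoc]
      exact add_mem hx hy
    · right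
      rw [add_sub_right_comm]
      exact add_mem hx hy
    · left
      rw [show x + y = x - tz m e + (y - tz m e) + 2 * tz m e by ring]
      exact add_mem (add_mem hx hy) (oa_two_tz e)
  | neg x _ hx =>
    rcases hx with hx | hx
    · exact Or.inl (neg_mem hx)
    · right
      rw [show -x - tz m e = -(x - tz m e) - 2 * tz m e by ring]
      exact sub_mem (neg_mem hx) (oa_two_tz e)

theorem oa_co0_zero {y : O m} (h : ∀ e, y ∈ Fil m e) : co0 m y = 0 := by
  have key : ∀ j : ℕ, ∃ a : ℤ, co0 m y = 2 ^ j * (2 * a) := by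
    intro j
    have h1 := mul_mem_Fil (oa_self (m := m) (-(m * j))) (h (m * j + 1))
    rw [show -((m : ℤ) * j) + (m * j + 1) = 1 by ring] at h1
    obtain ⟨a, ha⟩ := co0_Fil_one h1
    refine ⟨a, ?_⟩
    have h2 : y = ((2 ^ j : ℤ) : O m) * (tz m (-(m * j)) * y) := by
      push_cast
      rw [← tz_mul_m, ← mul_assoc, tz_mul_neg, one_mul]
    rw [h2, co0_intCast_mul, ha]
    push_cast
    ring
  obtain ⟨j, hj⟩ := pow_unbounded_of_one_lt |co0 m y| (one_lt_two (α := ℚ))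
  obtain ⟨a, ha⟩ := key j
  by_cases h0 : a = 0
  · rw [ha, h0]
    simp
  · exfalso
    have h1 : (1 : ℚ) ≤ |(a : ℚ)| := by exact_mod_cast Int.one_le_abs h0
    have h2 : (0 : ℚ) < 2 ^ j := by positivity
    rw [ha, abs_mul, abs_mul, abs_of_pos h2, abs_two] at hj
    nlinarith

/-- leading monomial -/
theorem exists_lead {x : O m} (h : x ≠ 0) : ∃ e, x - tz m e ∈ Fil m (e + 1) := by
  by_contra hn
  have hn' : ∀ e, x - tz m e ∉ Fil m (e + 1) := fun e he => hn ⟨e, he⟩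
  obtain ⟨e₀, he₀⟩ := exists_Fil x
  have h1 : ∀ k : ℕ, x ∈ Fil m (e₀ + k) := by
    intro k
    induction k with
    | zero => simpa using he₀
    | succ k ih =>
      rw [Nat.cast_succ, ← add_assoc]
      exact (Fil_cases ih).resolve_right (hn' _)
  have h2 : ∀ e, x ∈ Fil m e := fun e => Fil_anti (by omega) (h1 (e - e₀).toNat)
  apply h
  apply Subtype.ext
  rw [co0_expand x]
  refine sum_eq_zero fun i _ => ?_
  rw [oa_co0_zero, Rat.cast_zero, zero_mul]
  intro e
  have h3 := mul_mem_Fil (oa_self (m := m) (-(i : ℤ))) (h2 (e + i))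
  rwa [show -(i : ℤ) + (e + i) = e by ring] at h3

theorem oa_lead_le {x : O m} {e f : ℤ} (he : x - tz m e ∈ Fil m (e + 1))
    (hf : x - tz m f ∈ Fil m (f + 1)) : f ≤ e := by
  by_contra hn
  apply tz_not_mem_Fil (m := m) e
  rw [show tz m e = x - tz m f + tz m f - (x - tz m e) by ring]
  exact sub_mem (add_mem (Fil_anti (by omega) hf) (tz_mem_Fil (by omega))) he

theorem lead_unique {x : O m} {e f : ℤ} (he : x - tz m e ∈ Fil m (e + 1))
    (hf : x - tz m f ∈ Fil m (f + 1)) : e = f :=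
  le_antisymm (oa_lead_le hf he) (oa_lead_le he hf)

theorem lead_mul {x y : O m} {e f : ℤ} (he : x - tz m e ∈ Fil m (e + 1))
    (hf : y - tz m f ∈ Fil m (f + 1)) : x * y - tz m (e + f) ∈ Fil m (e + f + 1) := by
  have hy : y ∈ Fil m f := by
    rw [show y = y - tz m f + tz m f by ring]
    exact add_mem (Fil_anti (by omega) hf) (oa_self f)
  have h1 := mul_mem_Fil he hy
  have h2 := mul_mem_Fil (oa_self (m := m) e) hf
  rw [show e + 1 + f = e + f + 1 by ring] at h1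
  rw [← add_assoc] at h2
  rw [tz_add, show x * y - tz m e * tz m f = (x - tz m e) * y + tz m e * (y - tz m f) by ring]
  exact add_mem h1 h2

omit [NeZero m] in
theorem oa_lead_tz (e : ℤ) : tz m e - tz m e ∈ Fil m (e + 1) := by
  rw [sub_self]
  exact zero_mem _

theorem oa_lead_pow {x : O m} {e : ℤ} (he : x - tz m e ∈ Fil m (e + 1)) (s : ℕ) :
    x ^ s - tz m (e * s) ∈ Fil m (e * s + 1) := by
  induction s with
  | zero =>
    rw [pow_zero, Nat.cast_zero, mul_zero, tz_zero, sub_self]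
    exact zero_mem _
  | succ s ih =>
    rw [pow_succ, Nat.cast_succ, mul_add, mul_one]
    exact lead_mul ih he

theorem oa_alg (x : O m) : IsAlgebraic ℤ x := by
  induction x using O_induction with
  | h0 => exact isAlgebraic_zero
  | ha x y hx hy => exact hx.add hy
  | hn x hx => exact hx.neg
  | hm e =>
    have h2 : ∀ j : ℕ, IsAlgebraic ℤ (tz m (m * j)) := by
      intro j
      rw [tz_mul_m]
      exact_mod_cast isAlgebraic_natCast (R := ℤ) (A := O m) (2 ^ j)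
    refine IsAlgebraic.of_pow (NeZero.pos m) ?_
    rw [tz_pow, mul_comm]
    obtain ⟨j, rfl | rfl⟩ := Int.eq_nat_or_neg e
    · exact h2 j
    · refine IsAlgebraic.of_mul (mem_nonZeroDivisors_of_ne_zero (tz_ne_zero (m * j))) (h2 j) ?_
      rw [mul_neg, tz_mul_neg]
      exact isAlgebraic_one

/-- a nonzero element divides an odd integer -/
theorem exists_odd_mul {x : O m} (h : x ≠ 0) : ∃ (y : O m) (a : ℕ), Odd a ∧ x * y = a := by
  obtain ⟨r, hr, y, hy⟩ := (oa_alg x).exists_nonzero_dvd (mem_nonZeroDivisors_of_ne_zero h)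
  obtain ⟨k, a, ha, hk⟩ := Nat.exists_eq_two_pow_mul_odd (n := r.natAbs) (by omega)
  refine ⟨y * (r.sign : O m) * tz m (-(m * k)), a, ha, ?_⟩
  have h1 : ((r * r.sign : ℤ) : O m) = 2 ^ k * a := by
    rw [Int.mul_sign_self, hk]
    push_cast
    rfl
  rw [eq_intCast] at hy
  rw [← mul_assoc, ← mul_assoc, ← hy, ← Int.cast_mul, h1, ← tz_mul_m, mul_right_comm, tz_mul_neg,
    one_mul]

/-- a positive element of the field with a power in `t ^ ℤ` lies in `t ^ ℤ` -/
theorem eq_tr_of_pow {c : ℝ} (hc : c ∈ KK m) (h0 : 0 < c) {s : ℕ} (hs : 0 < s) {i : ℤ}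
    (h : c ^ s = tr m i) : ∃ e, c = tr m e := by
  obtain ⟨p, q, hq, rfl⟩ := mem_KK.1 hc
  have hq' : (q : ℝ) ≠ 0 := fun e => hq (Subtype.ext e)
  have hp : p ≠ 0 := by
    rintro rfl
    simp at h0
  obtain ⟨e, he⟩ := exists_lead hp
  obtain ⟨f, hf⟩ := exists_lead hq
  have h1 : p ^ s = tz m i * q ^ s := by
    apply Subtype.ext
    rw [div_pow, div_eq_iff (pow_ne_zero s hq')] at h
    push_cast
    rw [h, coe_tz]
  have h2 := lead_mul (oa_lead_tz (m := m) i) (oa_lead_pow hf s)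
  rw [← h1] at h2
  have h3 := lead_unique (oa_lead_pow he s) h2
  refine ⟨e - f, (pow_left_inj₀ h0.le (tr_pos _).le hs.ne').1 ?_⟩
  rw [h, tr_pow]
  congr 1
  linear_combination -h3

theorem oa_sum_aux {A B : Finset ℤ} (h : ∑ e ∈ A, tz m e = ∑ e ∈ B, tz m e) {e : ℤ} (he : e ∈ A)
    (hB : e ∉ B) (hm : ∀ f ∈ A ∪ B, e ≤ f) : False := by
  apply tz_not_mem_Fil (m := m) e
  rw [← add_sum_erase A _ he] at h
  rw [eq_sub_of_add_eq h]
  refine sub_mem (sum_mem fun f hf => tz_mem_Fil ?_) (sum_mem fun f hf => tz_mem_Fil ?_)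
  · have h1 := hm f (mem_union_right _ hf)
    have h2 : e ≠ f := fun e' => hB (e' ▸ hf)
    omega
  · have h1 := hm f (mem_union_left _ (mem_of_mem_erase hf))
    have h2 := ne_of_mem_erase hf
    omega

/-- uniqueness of binary expansions -/
theorem sum_tz_inj {S S' : Finset ℤ} (h : ∑ e ∈ S, tz m e = ∑ e ∈ S', tz m e) : S = S' := by
  have h1 : ∑ e ∈ S \ S', tz m e = ∑ e ∈ S' \ S, tz m e := by
    rw [← sub_eq_zero, sum_sdiff_sub_sum_sdiff, h, sub_self]
  by_contra hn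
  have h2 : (S \ S' ∪ S' \ S).Nonempty := by
    rw [nonempty_iff_ne_empty]
    intro h0
    rw [union_eq_empty, sdiff_eq_empty_iff_subset, sdiff_eq_empty_iff_subset] at h0
    exact hn (Subset.antisymm h0.1 h0.2)
  obtain ⟨e, he, hm⟩ := exists_min_image _ id h2
  rcases mem_union.1 he with h3 | h3
  · exact oa_sum_aux h1 h3 (fun h4 => (mem_sdiff.1 h4).2 (mem_sdiff.1 h3).1) hm
  · exact oa_sum_aux h1.symm h3 (fun h4 => (mem_sdiff.1 h4).2 (mem_sdiff.1 h3).1)
      fun f hf => hm f (by rwa [union_comm])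

theorem oa_co0_le (f : ℤ) : |(co0 m (tz m f) : ℝ)| ≤ tr m f := by
  rw [co0_tz]
  split_ifs with hd
  · obtain ⟨j, rfl⟩ := hd
    have h1 : (1 : ℤ) ≤ m := oa_one_le
    rw [Int.mul_ediv_cancel_left _ (by omega), tr_mul_m]
    push_cast
    rw [abs_of_pos (by positivity)]
  · simpa using (tr_pos f).le

theorem oa_not_unit {E : ℕ} (hE : m * (m + 2) ≤ E) {s : ℤ} (hs : |s| = 1) :
    ¬ IsUnit (1 - (s : O m) * tz m E) := by
  intro hu
  have hm := NeZero.pos m
  have hE1 : 1 ≤ E := by nlinarith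
  obtain ⟨v, hv⟩ := hu.exists_left_inv
  have hx : ∀ j : ℕ, ((s : O m) * tz m E) ^ j = ((s ^ j : ℤ) : O m) * tz m (E * j) := by
    intro j
    rw [mul_pow, tz_pow, Int.cast_pow]
  obtain ⟨G, hG⟩ : ∃ G, G = ∑ j ∈ range m, ((s : O m) * tz m E) ^ j := ⟨_, rfl⟩
  obtain ⟨w, hw⟩ : ∃ w : ℤ, w = 1 - s ^ m * 2 ^ E := ⟨_, rfl⟩
  have h1 : G = (w : O m) * v := by
    have h := mul_neg_geom_sum ((s : O m) * tz m E) m
    rw [← hG, hx, mul_comm (E : ℤ), tz_mul_m] at h
    rw [hw]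
    push_cast at h ⊢
    rw [← h, mul_right_comm, mul_comm _ v, hv, one_mul]
  have h2 : G - 1 ∈ Fil m 1 := by
    rw [hG, ← add_sum_erase _ _ (mem_range.2 hm), pow_zero, add_sub_cancel_left]
    refine sum_mem fun j hj => ?_
    rw [hx, ← zsmul_eq_mul]
    refine zsmul_mem (tz_mem_Fil ?_) _
    have h : 1 ≤ j := Nat.pos_of_ne_zero (ne_of_mem_erase hj)
    exact_mod_cast Nat.mul_pos hE1 h
  obtain ⟨b, hb⟩ := co0_Fil_one h2
  rw [map_sub, oa_co0_one, sub_eq_iff_eq_add] at hb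
  obtain ⟨a, k, ha⟩ := co0_dyadic v
  have h3 : (2 * b + 1) * 2 ^ k = w * a := by
    have h := hb
    rw [h1, co0_intCast_mul, ha, ← mul_div_assoc, div_eq_iff (by positivity)] at h
    exact_mod_cast h.symm
  have h4 : IsCoprime w (2 ^ k) := by
    refine IsCoprime.pow_right ?_
    obtain ⟨E', rfl⟩ : ∃ E', E = E' + 1 := ⟨E - 1, by omega⟩
    exact ⟨1, s ^ m * 2 ^ E', by rw [hw]; ring⟩
  have h5 : |w| ≤ |2 * b + 1| :=
    Int.le_of_dvd (abs_pos.2 (by omega)) ((abs_dvd_abs _ _).2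
      (h4.dvd_of_dvd_mul_right ⟨a, h3⟩))
  have h6 : 2 ^ E - 1 ≤ |w| := by
    have h := abs_sub_abs_le_abs_sub (s ^ m * 2 ^ E) 1
    rw [abs_mul, abs_pow, hs, one_pow, one_mul, abs_one, abs_of_pos (by positivity),
      abs_sub_comm] at h
    rwa [hw]
  have h7 : |(co0 m G : ℝ)| ≤ m * tr m (E * (m - 1)) := by
    rw [hG, map_sum, Rat.cast_sum]
    refine (abs_sum_le_sum_abs _ _).trans ?_
    refine (sum_le_card_nsmul _ _ (tr m (E * (m - 1))) fun j hj => ?_).trans ?_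
    · have hs' : |(s : ℝ)| = 1 := by exact_mod_cast hs
      rw [hx, co0_intCast_mul]
      push_cast
      rw [abs_mul, abs_pow, hs', one_pow, one_mul]
      refine (oa_co0_le _).trans (tr_strictMono.monotone ?_)
      have := mem_range.1 hj
      exact mul_le_mul_of_nonneg_left (by omega) (by positivity)
    · rw [card_range, nsmul_eq_mul]
  have h8 : tr m (E * (m - 1)) * tr m E = 2 ^ E := by
    rw [← tr_add, show (E : ℤ) * (m - 1) + E = m * E by ring, tr_mul_m, zpow_natCast]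
  have h9 : 4 * (m : ℝ) ≤ tr m E := by
    have h : tr m (m * ((m + 2 : ℕ) : ℤ)) ≤ tr m E :=
      tr_strictMono.monotone (by exact_mod_cast hE)
    rw [tr_mul_m, zpow_natCast, pow_add] at h
    have h' : (m : ℝ) ≤ 2 ^ m := by exact_mod_cast Nat.lt_two_pow_self.le
    linarith
  have h10 : (2 : ℝ) ^ E - 1 ≤ |(co0 m G : ℝ)| := by
    rw [hb]
    exact_mod_cast h6.trans h5
  have h11 : (2 : ℝ) ≤ 2 ^ E := le_self_pow₀ one_le_two (by omega)
  have h12 := tr_pos (m := m) (E * (m - 1))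
  nlinarith

/-- `1 ± t ^ E` is not a unit for large `E` -/
theorem not_isUnit_one_add : ∃ E₀ : ℕ, ∀ E : ℕ, E₀ ≤ E →
    ¬ IsUnit (1 + tz m E) ∧ ¬ IsUnit (1 - tz m E) := by
  refine ⟨m * (m + 2), fun E hE => ⟨?_, ?_⟩⟩
  · simpa using oa_not_unit hE (s := -1) (by simp)
  · simpa using oa_not_unit hE (s := 1) (by simp)

end Pool.Agent.GK
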