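import Pool.Agent.Lib.MP_a01f70_lc.GK.Defs

namespace Pool.Agent.GK
open Finset

variable {m : ℕ}

theorem tr_pos (e : ℤ) : 0 < tr m e :=
  Real.rpow_pos_of_pos two_pos _
theorem tr_add (e f : ℤ) : tr m (e + f) = tr m e * tr m f := by
  rw [tr, tr, tr, ← Real.rpow_add two_pos, Int.cast_add, add_div]
theorem tr_zero : tr m 0 = 1 := by
  rw [tr, Int.cast_zero, zero_div, Real.rpow_zero]
theorem tr_neg (e : ℤ) : tr m (-e) = (tr m e)⁻¹ := by
  rw [tr, tr, Int.cast_neg, neg_div, Real.rpow_neg zero_le_two]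
theorem tr_zpow (e k : ℤ) : tr m e ^ k = tr m (e * k) := by
  rw [tr, tr, ← Real.rpow_intCast, ← Real.rpow_mul zero_le_two, Int.cast_mul, div_mul_eq_mul_div]
theorem tr_pow (e : ℤ) (k : ℕ) : tr m e ^ k = tr m (e * k) := by
  rw [← tr_zpow, zpow_natCast]
theorem coe_tz (e : ℤ) : (tz m e : ℝ) = tr m e := rfl
theorem tz_add (e f : ℤ) : tz m (e + f) = tz m e * tz m f :=
  Subtype.ext (tr_add e f)
theorem tz_zero : tz m 0 = 1 :=
  Subtype.ext tr_zero
theorem tz_pow (e : ℤ) (k : ℕ) : tz m e ^ k = tz m (e * k) :=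
  Subtype.ext (tr_pow e k)
theorem tz_mul_neg (e : ℤ) : tz m e * tz m (-e) = 1 := by
  rw [← tz_add, add_neg_cancel, tz_zero]
theorem tz_ne_zero (e : ℤ) : tz m e ≠ 0 :=
  fun h => (tr_pos e).ne' (congrArg Subtype.val h)
theorem isUnit_tz (e : ℤ) : IsUnit (tz m e) :=
  IsUnit.of_mul_eq_one _ (tz_mul_neg e)
theorem O_le_KK {x : ℝ} (h : x ∈ O m) : x ∈ KK m :=
  Subfield.subring_closure_le _ h
theorem mem_KK {x : ℝ} : x ∈ KK m ↔ ∃ p q : O m, q ≠ 0 ∧ x = p / q := by
  constructor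
  · intro h
    obtain ⟨y, hy, z, hz, e⟩ := Subfield.mem_closure_iff.1 h
    by_cases h0 : z = 0
    · exact ⟨0, 1, one_ne_zero, by simp [← e, h0]⟩
    · exact ⟨⟨y, hy⟩, ⟨z, hz⟩, fun h1 => h0 (congrArg Subtype.val h1), e.symm⟩
  · rintro ⟨p, q, -, rfl⟩
    exact div_mem (O_le_KK p.2) (O_le_KK q.2)

theorem oa1_mul {R : Type} [Ring R] {A B : Set R} {C : AddSubgroup R}
    (h : ∀ a ∈ A, ∀ b ∈ B, a * b ∈ C) {x y : R} (hx : x ∈ AddSubgroup.closure A)
    (hy : y ∈ AddSubgroup.closure B) : x * y ∈ C := by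
  induction hx using AddSubgroup.closure_induction with
  | mem a ha =>
    induction hy using AddSubgroup.closure_induction with
    | mem b hb => exact h a ha b hb
    | zero => simp
    | add b c _ _ hb hc => exact mul_add a b c ▸ add_mem hb hc
    | neg b _ hb => exact mul_neg a b ▸ neg_mem hb
  | zero => simp
  | add a c _ _ ha hc => exact add_mul a c y ▸ add_mem ha hc
  | neg a _ ha => exact neg_mul a y ▸ neg_mem ha

theorem oa1_top (x : O m) : x ∈ AddSubgroup.closure (Set.range (tz m)) := by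
  obtain ⟨x, hx⟩ := x
  induction hx using Subring.closure_induction with
  | mem y hy =>
    obtain ⟨e, rfl⟩ := hy
    exact AddSubgroup.subset_closure ⟨e, rfl⟩
  | zero => exact zero_mem _
  | one => exact AddSubgroup.subset_closure ⟨0, tz_zero⟩
  | add y z _ _ hy hz => exact add_mem hy hz
  | neg y _ hy => exact neg_mem hy
  | mul y z _ _ hy hz =>
    refine oa1_mul ?_ hy hz
    rintro _ ⟨e, rfl⟩ _ ⟨f, rfl⟩
    exact AddSubgroup.subset_closure ⟨e + f, tz_add e f⟩

/-- every element is an integer combination of monomials -/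
theorem O_induction {p : O m → Prop} (h0 : p 0) (hm : ∀ e, p (tz m e))
    (ha : ∀ x y, p x → p y → p (x + y)) (hn : ∀ x, p x → p (-x)) (x : O m) : p x := by
  have h1 : x ∈ AddSubgroup.closure (Set.range (tz m)) := oa1_top x
  induction h1 using AddSubgroup.closure_induction with
  | mem y hy =>
    obtain ⟨e, rfl⟩ := hy
    exact hm e
  | zero => exact h0
  | add y z _ _ hy hz => exact ha y z hy hz
  | neg y _ hy => exact hn y hy
theorem O_ext {S : Type} [AddCommGroup S] {Z Z' : O m →+ S} (h : ∀ e, Z (tz m e) = Z' (tz m e)) :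
    Z = Z' := by
  refine AddMonoidHom.ext fun x => ?_
  induction x using O_induction with
  | h0 => rw [map_zero, map_zero]
  | hm e => exact h e
  | ha x y hx hy => rw [map_add, map_add, hx, hy]
  | hn x hx => rw [map_neg, map_neg, hx]
theorem exists_ringHom_ext {S : Type} [CommRing S] {f g : O m →+* S}
    (h : f (tz m 1) = g (tz m 1)) : f = g := by
  have h1 : ∀ k : ℕ, f (tz m k) = g (tz m k) := fun k => by
    rw [← one_mul (k : ℤ), ← tz_pow, map_pow, map_pow, h]
  have h2 : ∀ e, f (tz m e) = g (tz m e) := fun e => by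
    obtain ⟨k, rfl | rfl⟩ := e.eq_nat_or_neg
    · exact h1 k
    · refine left_inv_eq_right_inv (a := f (tz m k)) ?_ ?_
      · rw [mul_comm, ← map_mul, tz_mul_neg, map_one]
      · rw [h1, ← map_mul, tz_mul_neg, map_one]
  exact RingHom.ext fun x => DFunLike.congr_fun
    (O_ext (Z := f.toAddMonoidHom) (Z' := g.toAddMonoidHom) h2) x
theorem tz_mem_Fil {e f : ℤ} (h : e ≤ f) : tz m f ∈ Fil m e :=
  AddSubgroup.subset_closure ⟨f, h, rfl⟩
theorem Fil_anti {e f : ℤ} (h : e ≤ f) : Fil m f ≤ Fil m e :=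
  AddSubgroup.closure_mono (Set.image_mono (Set.Ici_subset_Ici.2 h))
theorem mul_mem_Fil {e f : ℤ} {x y : O m} (hx : x ∈ Fil m e) (hy : y ∈ Fil m f) :
    x * y ∈ Fil m (e + f) := by
  refine oa1_mul (fun a ha b hb => ?_) hx hy
  obtain ⟨a, ha, rfl⟩ := ha
  obtain ⟨b, hb, rfl⟩ := hb
  rw [← tz_add]
  exact tz_mem_Fil (add_le_add ha hb)
theorem exists_Fil (x : O m) : ∃ e, x ∈ Fil m e := by
  induction x using O_induction with
  | h0 => exact ⟨0, zero_mem _⟩
  | hm e => exact ⟨e, tz_mem_Fil le_rfl⟩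
  | ha x y hx hy =>
    obtain ⟨e, he⟩ := hx
    obtain ⟨f, hf⟩ := hy
    exact ⟨min e f, add_mem (Fil_anti (min_le_left e f) he) (Fil_anti (min_le_right e f) hf)⟩
  | hn x hx => exact hx.imp fun e he => neg_mem he

variable [NeZero m]

theorem tr_m : tr m m = 2 := by
  rw [tr, Int.cast_natCast, div_self (NeZero.ne _), Real.rpow_one]
theorem tr_mul_m (j : ℤ) : tr m (m * j) = 2 ^ j := by
  rw [← tr_zpow, tr_m]
theorem tr_strictMono : StrictMono (tr m) := fun _ _ h =>
  Real.rpow_lt_rpow_of_exponent_lt one_lt_two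
    (div_lt_div_of_pos_right (Int.cast_lt.2 h) (Nat.cast_pos.2 (NeZero.pos m)))
theorem tz_m : tz m m = 2 :=
  Subtype.ext tr_m
theorem tz_add_m (e : ℤ) : tz m (e + m) = 2 * tz m e := by
  rw [tz_add, tz_m, mul_comm]
theorem tz_mul_m (j : ℕ) : tz m (m * j) = 2 ^ j := by
  rw [← tz_pow, tz_m]
theorem tz_injective : Function.Injective (tz m) := fun _ _ h =>
  tr_strictMono.injective (congrArg Subtype.val h)

end Pool.Agent.GK
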