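import Pool.Agent.Lib.MP_a01f70_lc.GK.OA1

namespace Pool.Agent.GK
open Finset

variable {m : ℕ} [NeZero m]

open Polynomial in
theorem OA2_minpoly : minpoly ℚ (tr m 1) = X ^ m - C 2 := by
  have hm : 0 < m := NeZero.pos m
  have h1 : (X ^ m - C 2 : ℤ[X]).Monic := monic_X_pow_sub_C _ hm.ne'
  have h2 : Irreducible (X ^ m - C 2 : ℤ[X]) := by
    refine irreducible_of_eisenstein_criterion (P := Ideal.span {2})
      ((Ideal.span_singleton_prime two_ne_zero).2 Int.prime_two) ?_ (fun n hn => ?_) ?_ ?_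
      h1.isPrimitive
    · rw [h1.leadingCoeff, Ideal.mem_span_singleton]
      norm_num
    · rw [degree_X_pow_sub_C hm, Nat.cast_lt] at hn
      rw [Ideal.mem_span_singleton, coeff_sub, coeff_X_pow, if_neg hn.ne, coeff_C]
      split_ifs <;> simp
    · rw [degree_X_pow_sub_C hm]
      exact_mod_cast hm
    · rw [Ideal.span_singleton_pow, Ideal.mem_span_singleton, coeff_sub, coeff_X_pow, if_neg hm.ne,
        coeff_C_zero]
      norm_num
  have h3 := (h1.irreducible_iff_irreducible_map_fraction_map (K := ℚ)).1 h2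
  rw [Polynomial.map_sub, Polynomial.map_pow, map_X, map_C, map_ofNat] at h3
  refine (minpoly.eq_of_irreducible_of_monic h3 ?_ (monic_X_pow_sub_C _ hm.ne')).symm
  rw [map_sub, map_pow, aeval_X, aeval_C, tr_pow, one_mul, tr_m, map_ofNat, sub_self]

/-- `1, t, …, t ^ (m - 1)` are linearly independent over `ℚ` -/
theorem tr_indep (c : Fin m → ℚ) (h : ∑ i, (c i : ℝ) * tr m (i : ℕ) = 0) : c = 0 := by
  have h1 := linearIndependent_pow (K := ℚ) (tr m 1)
  rw [OA2_minpoly, Polynomial.natDegree_X_pow_sub_C] at h1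
  exact funext (Fintype.linearIndependent_iff.1 h1 c (by
    simpa only [Rat.smul_def, tr_pow, one_mul] using h))

omit [NeZero m] in
theorem OA2_shift {S : Type} [AddCommGroup S] {θ : ℤ → S} (h : ∀ e, θ (e + m) = 2 • θ e) (e : ℤ)
    (d : ℕ) : θ (e + m * d) = (2 ^ d : ℤ) • θ e := by
  induction d with
  | zero => simp
  | succ d ih =>
    rw [Nat.cast_succ, mul_add, mul_one, ← add_assoc, h, ih, pow_succ', mul_smul, two_smul,
      two_smul]

theorem OA2_nf {S : Type} [AddCommGroup S] {θ : ℤ → S} (h : ∀ e, θ (e + m) = 2 • θ e) {x : S}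
    (hx : x ∈ AddSubgroup.closure (Set.range θ)) :
    ∃ (k : ℕ) (c : Fin m → ℤ), x = ∑ i, c i • θ ((i : ℕ) - m * k) := by
  have hm : (0 : ℤ) < m := by exact_mod_cast NeZero.pos m
  have up : ∀ (k d : ℕ) (c : Fin m → ℤ), ∑ i, c i • θ ((i : ℕ) - m * k) =
      ∑ i, (c i * 2 ^ d) • θ ((i : ℕ) - m * (k + d : ℕ)) := fun k d c =>
    sum_congr rfl fun i _ => by
      rw [mul_smul, ← OA2_shift h]
      congr 2
      push_cast
      ring
  induction hx using AddSubgroup.closure_induction with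
  | mem x hx =>
    obtain ⟨e, rfl⟩ := hx
    have h1 := Int.emod_nonneg e hm.ne'
    have h2 := Int.emod_lt_of_pos e hm
    refine ⟨(-(e / m)).toNat, Pi.single ⟨(e % m).toNat, by omega⟩ (2 ^ (e / m).toNat), ?_⟩
    rw [sum_eq_single ⟨(e % m).toNat, by omega⟩ (fun i _ hi => by simp [hi]) (by simp),
      Pi.single_eq_same, ← OA2_shift h, Int.toNat_of_nonneg h1]
    congr 1
    linear_combination -Int.emod_add_mul_ediv e m - m * Int.toNat_sub_toNat_neg (e / m)
  | zero => exact ⟨0, 0, by simp⟩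
  | add x y _ _ hx hy =>
    obtain ⟨k, c, rfl⟩ := hx
    obtain ⟨l, d, rfl⟩ := hy
    refine ⟨k + l, fun i => c i * 2 ^ l + d i * 2 ^ k, ?_⟩
    rw [up k l, up l k, add_comm l k, ← sum_add_distrib]
    simp only [add_smul]
  | neg x _ hx =>
    obtain ⟨k, c, rfl⟩ := hx
    exact ⟨k, -c, by simp⟩

/-- normal form -/
theorem exists_coord (x : O m) :
    ∃ (k : ℕ) (c : Fin m → ℤ), x = ∑ i, (c i : O m) * tz m ((i : ℕ) - m * k) := by
  simpa only [zsmul_eq_mul] using OA2_nf (θ := tz m) (fun e => by rw [tz_add_m, two_smul, two_mul])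
    (O_induction (p := fun x => x ∈ AddSubgroup.closure (Set.range (tz m))) (zero_mem _)
      (fun e => AddSubgroup.subset_closure ⟨e, rfl⟩) (fun _ _ => add_mem) (fun _ => neg_mem) x)

/-- universal property of the additive group -/
theorem chO_tz {S : Type} [AddCommGroup S] {θ : ℤ → S} (h : ∀ e, θ (e + m) = 2 • θ e) (e : ℤ) :
    chO m θ (tz m e) = θ e := by
  have key : ∃ Z : O m →+ S, ∀ e, Z (tz m e) = θ e := by
    let H := AddSubgroup.closure (Set.range fun e => (tz m e, θ e))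
    have h1 : ∀ e, (tz m e, θ e) ∈ H := fun e => AddSubgroup.subset_closure ⟨e, rfl⟩
    obtain ⟨Z, hZ⟩ := H.exists_eq_graph ⟨(injective_iff_map_eq_zero
      ((AddMonoidHom.fst _ _).comp H.subtype)).2 fun x hx => by
        obtain ⟨k, c, e⟩ := OA2_nf (m := m) (θ := fun e => (tz m e, θ e)) (fun e => by
          rw [tz_add_m, h, two_smul, two_smul, two_mul, Prod.mk_add_mk]) x.2
        have h2 : c = 0 := by
          have h3 := congrArg (fun y : O m × S => (y.1 : ℝ) * tr m (m * k)) e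
          rw [show x.1.1 = 0 from hx] at h3
          have h4 := tr_indep (fun i => c i) (by
            simpa [Prod.fst_sum, sum_mul, mul_assoc, coe_tz, ← tr_add] using h3.symm)
          exact funext fun i => Int.cast_eq_zero.1 (congrFun h4 i)
        exact Subtype.ext (by simpa [h2] using e), fun x => by
      obtain ⟨s, hs⟩ := O_induction (p := fun x => ∃ s, (x, s) ∈ H) ⟨0, zero_mem H⟩
        (fun e => ⟨_, h1 e⟩) (fun _ _ ⟨_, h⟩ ⟨_, h'⟩ => ⟨_, add_mem h h'⟩)
        (fun _ ⟨_, h⟩ => ⟨_, neg_mem h⟩) x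
      exact ⟨⟨_, hs⟩, rfl⟩⟩
    exact ⟨Z, fun e => AddMonoidHom.mem_graph.1 (hZ ▸ h1 e)⟩
  rw [chO, dif_pos key]
  exact key.choose_spec e

/-- universal property of the ring -/
theorem exists_lift {S : Type} [CommRing S] (τ : Sˣ) (h : (τ : S) ^ m = 2) :
    ∃ f : O m →+* S, ∀ e, f (tz m e) = (τ ^ e : Sˣ) := by
  have h1 := chO_tz (m := m) (θ := fun e => ((τ ^ e : Sˣ) : S)) fun e => by
    rw [zpow_add, zpow_natCast, Units.val_mul, Units.val_pow_eq_pow_val, h, two_smul, mul_two]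
  refine ⟨{ chO m fun e => ((τ ^ e : Sˣ) : S) with
    map_one' := by simpa [tz_zero] using h1 0
    map_mul' := fun x y => ?_ }, h1⟩
  change chO m _ (x * y) = chO m _ x * chO m _ y
  induction x using O_induction with
  | h0 => simp
  | ha x x' hx hx' => simp only [add_mul, map_add, hx, hx']
  | hn x hx => simp only [neg_mul, map_neg, hx]
  | hm e =>
    induction y using O_induction with
    | h0 => simp
    | ha y y' hy hy' => simp only [mul_add, map_add, hy, hy']
    | hn y hy => simp only [mul_neg, map_neg, hy]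
    | hm f => rw [← tz_add, h1, h1, h1, zpow_add, Units.val_mul]

theorem co0_tz (e : ℤ) : co0 m (tz m e) = if (m : ℤ) ∣ e then (2 : ℚ) ^ (e / m) else 0 := by
  refine chO_tz (fun e => ?_) e
  rw [Int.add_ediv_of_dvd_right dvd_rfl, Int.ediv_self (NeZero.ne _), zpow_add_one₀ two_ne_zero]
  simp only [dvd_add_self_right]
  split_ifs <;> simp [mul_comm]

theorem co0_intCast_mul (a : ℤ) (x : O m) : co0 m (a * x) = a * co0 m x := by
  rw [← zsmul_eq_mul, map_zsmul, zsmul_eq_mul]

theorem OA2_one (D : ℕ) : (2 : ZMod (2 ^ D - 1)) ^ D = 1 := by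
  have h := ZMod.natCast_self (2 ^ D - 1)
  rw [Nat.cast_pred (by positivity)] at h
  exact_mod_cast sub_eq_zero.1 h

theorem OA2_succ {D : ℕ} (hD : 0 < D) (j : ℤ) : (2 : ZMod (2 ^ D - 1)) ^ ((j + 1 : ℤ) : ZMod D).val =
    2 • 2 ^ (j : ZMod D).val := by
  have : NeZero D := ⟨hD.ne'⟩
  rw [show ((j + 1 : ℤ) : ZMod D) = (((j : ZMod D).val + 1 : ℕ) : ZMod D) by simp,
    ZMod.val_natCast, ← pow_eq_pow_mod _ (OA2_one D), pow_succ, two_smul, mul_two]

theorem OA2_tor {D : ℕ} (hD : 0 < D) (e : ℤ) :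
    torZ m D (tz m e) = if (m : ℤ) ∣ e then 2 ^ ((e / m : ℤ) : ZMod D).val else 0 := by
  refine chO_tz (fun e => ?_) e
  rw [Int.add_ediv_of_dvd_right dvd_rfl, Int.ediv_self (NeZero.ne _), OA2_succ hD]
  simp only [dvd_add_self_right]
  split_ifs <;> simp

theorem OA2_pair {D : ℕ} (hD : 0 < D) (x : O m) :
    ∃ (a : ℤ) (k : ℕ), co0 m x = a / 2 ^ k ∧ 2 ^ k * torZ m D x = a := by
  induction x using O_induction with
  | h0 => exact ⟨0, 0, by simp⟩
  | hm e =>
    rw [co0_tz, OA2_tor hD]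
    split_ifs
    · refine ⟨2 ^ (e / m).toNat, (-(e / m)).toNat, ?_, ?_⟩
      · conv_lhs => rw [← Int.toNat_sub_toNat_neg (e / m), zpow_sub₀ two_ne_zero, zpow_natCast,
          zpow_natCast]
        simp
      · have h1 := OA2_shift (m := 1) (θ := fun j => (2 : ZMod (2 ^ D - 1)) ^ (j : ZMod D).val)
          (OA2_succ hD)
        have h2 := h1 (e / m) (-(e / m)).toNat
        rw [show e / m + (1 : ℕ) * ((-(e / m)).toNat : ℤ) = 0 + (1 : ℕ) * ((e / m).toNat : ℤ) by
          omega, h1] at h2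
        simpa using h2.symm
    · exact ⟨0, 0, by simp⟩
  | ha x y hx hy =>
    obtain ⟨a, k, h1, h2⟩ := hx
    obtain ⟨b, l, h3, h4⟩ := hy
    refine ⟨a * 2 ^ l + b * 2 ^ k, k + l, ?_, ?_⟩
    · rw [map_add, h1, h3]
      push_cast
      field_simp
      ring
    · push_cast
      rw [map_add, ← h2, ← h4]
      ring
  | hn x hx =>
    obtain ⟨a, k, h1, h2⟩ := hx
    exact ⟨-a, k, by simp [h1, neg_div], by simp [h2]⟩

theorem co0_dyadic (x : O m) : ∃ (a : ℤ) (k : ℕ), co0 m x = a / 2 ^ k :=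
  (OA2_pair one_pos x).imp fun _ h => h.imp fun _ h => h.1

theorem co0_expand (x : O m) :
    (x : ℝ) = ∑ i ∈ range m, (co0 m (tz m (-(i : ℤ)) * x) : ℝ) * tr m i := by
  induction x using O_induction with
  | h0 => simp
  | hm e =>
    have hm : (0 : ℤ) < m := by exact_mod_cast NeZero.pos m
    have h1 := Int.emod_nonneg e hm.ne'
    have h2 := Int.emod_lt_of_pos e hm
    have h3 : -(e % m) + e = m * (e / m) := by linarith [Int.emod_add_mul_ediv e m]
    simp only [← tz_add, co0_tz]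
    rw [sum_eq_single_of_mem (e % m).toNat (mem_range.2 (by omega)) fun i hi hne => ?_,
      Int.toNat_of_nonneg h1, h3, if_pos (dvd_mul_right _ _), Int.mul_ediv_cancel_left _ hm.ne']
    · push_cast
      rw [← tr_mul_m (m := m), ← tr_add, Int.mul_ediv_add_emod, coe_tz]
    · rw [if_neg fun h => hne ?_, Rat.cast_zero, zero_mul]
      have h4 : (i : ℤ) % m = e % m := (Int.modEq_iff_dvd.2 (neg_add_eq_sub (i : ℤ) e ▸ h) :)
      rw [← h4, Int.emod_eq_of_lt (by omega) (by exact_mod_cast mem_range.1 hi), Int.toNat_natCast]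
  | ha x y hx hy =>
    simp only [mul_add, map_add, Rat.cast_add, add_mul, sum_add_distrib, ← hx, ← hy,
      Subring.coe_add]
  | hn x hx =>
    simp only [mul_neg, map_neg, Rat.cast_neg, neg_mul, sum_neg_distrib, ← hx, Subring.coe_neg]

theorem torZ_tz {D : ℕ} (hD : 0 < D) (e : ℤ) :
    torZ m D (tz m e) = if (m : ℤ) ∣ e then 2 ^ ((e / m : ℤ) : ZMod D).val else 0 := OA2_tor hD e

theorem torZ_eq {D : ℕ} (hD : 0 < D) (x : O m) (a : ℤ) (k : ℕ) (h : co0 m x = a / 2 ^ k) :
    2 ^ k * torZ m D x = a := by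
  obtain ⟨b, l, h1, h2⟩ := OA2_pair hD x
  rw [h, div_eq_div_iff (by positivity) (by positivity)] at h1
  have h3 : a * 2 ^ l = b * 2 ^ k := by exact_mod_cast h1
  have h4 := congrArg (Int.cast (R := ZMod (2 ^ D - 1))) h3
  push_cast at h4
  refine ((IsUnit.of_pow_eq_one (OA2_one D) hD.ne').pow l).mul_right_cancel ?_
  rw [h4, ← h2]
  ring

end Pool.Agent.GK
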