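import Pool.Agent.Lib.MP_a01f70_lc.GK.D1Defs

/-! The two-adic place. -/

noncomputable section

namespace Pool.Agent.GK
open Finset Polynomial

variable {m : ℕ} [NeZero m] (f : O m →+* C2)

/-- `ℂ` and `PadicAlgCl 2` are algebraically closed of cardinality continuum
(`IsAlgClosed.ringEquiv_of_equiv_of_charZero`, `continuum_le_cardinal_of_nontriviallyNormedField`,
`Algebra.IsAlgebraic.cardinalMk_le_max`, `Cardinal.mk_quotient_le`). -/
theorem exists_C2 : Nonempty (ℂ →+* C2) := by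
  have h1 : Cardinal.mk ℚ_[2] ≤ Cardinal.continuum := by
    refine Cardinal.mk_quotient_le.trans ((Cardinal.mk_subtype_le _).trans ?_)
    simp
  have h2 : Cardinal.mk (PadicAlgCl 2) = Cardinal.continuum :=
    le_antisymm ((Algebra.IsAlgebraic.cardinalMk_le_max ℚ_[2] _).trans
      (max_le h1 Cardinal.aleph0_le_continuum))
      ((continuum_le_cardinal_of_nontriviallyNormedField ℚ_[2]).trans
        (Cardinal.mk_le_of_injective (algebraMap ℚ_[2] (PadicAlgCl 2)).injective))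
  obtain ⟨φ⟩ := IsAlgClosed.ringEquiv_of_equiv_of_charZero (K := ℂ) (L := PadicAlgCl 2)
    (by rw [Cardinal.mk_complex]; exact Cardinal.aleph0_lt_continuum)
    (Cardinal.eq.1 (Cardinal.mk_complex.trans h2.symm))
  exact ⟨(algebraMap (PadicAlgCl 2) C2).comp φ.toRingHom⟩

theorem norm_two_C2 : ‖(2 : C2)‖ = 1 / 2 := by
  have h := Padic.norm_p (p := 2)
  rw [← norm_algebraMap' C2, map_natCast] at h
  simpa using h

theorem odd_of_norm {a : ℤ} (h : ‖(a : C2)‖ = 1) : Odd a := by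
  rw [← Int.not_even_iff_odd]
  rintro ⟨k, rfl⟩
  rw [Int.cast_add, ← two_mul, norm_mul, norm_two_C2] at h
  linarith [IsUltrametricDist.norm_intCast_le_one C2 k]

theorem norm_tz (e : ℤ) : ‖f (tz m e)‖ = tr m (-e) := by
  have h1 : ‖f (tz m 1)‖ = tr m (-1) := by
    refine (pow_left_inj₀ (norm_nonneg _) (tr_pos _).le (NeZero.ne m)).1 ?_
    rw [← norm_pow, ← map_pow, tz_pow, one_mul, tz_m, map_ofNat, norm_two_C2, tr_pow, neg_one_mul,
      tr_neg, tr_m, one_div]
  induction e using Int.induction_on with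
  | zero => rw [tz_zero, map_one, norm_one, neg_zero, tr_zero]
  | succ k ih => rw [tz_add, map_mul, norm_mul, ih, h1, neg_add, tr_add]
  | pred k ih =>
    refine mul_right_cancel₀ (tr_pos (m := m) (-1)).ne' ?_
    rw [← tr_add, ← h1, ← norm_mul, ← map_mul, ← tz_add, sub_add_cancel, ih]
    congr 1
    ring

theorem norm_Fil {e : ℤ} {x : O m} (h : x ∈ Fil m e) : ‖f x‖ ≤ tr m (-e) := by
  induction h using AddSubgroup.closure_induction with
  | mem x hx =>
    obtain ⟨g, hg, rfl⟩ := hx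
    rw [norm_tz]
    exact tr_strictMono.monotone (neg_le_neg hg)
  | zero => rw [map_zero, norm_zero]; exact (tr_pos _).le
  | add x y _ _ hx hy =>
    rw [map_add]
    exact (IsUltrametricDist.norm_add_le_max _ _).trans (max_le hx hy)
  | neg x _ hx => rwa [map_neg, norm_neg]

theorem norm_lead {e : ℤ} {x : O m} (h : x - tz m e ∈ Fil m (e + 1)) : ‖f x‖ = tr m (-e) := by
  have h1 : ‖f (x - tz m e)‖ < ‖f (tz m e)‖ :=
    (norm_Fil f h).trans_lt ((tr_strictMono (by omega)).trans_eq (norm_tz f e).symm)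
  rw [← sub_add_cancel x (tz m e), map_add,
    IsUltrametricDist.norm_add_eq_max_of_norm_ne_norm h1.ne, max_eq_right h1.le, norm_tz]

theorem mem_Kh (x : O m) : f x ∈ Kh f := by
  exact subset_closure ⟨x, rfl⟩

/-- Approximate by `f x` with `‖v - f x‖ < ‖v‖`; `exists_lead`. -/
theorem norm_Kh {v : C2} (hv : v ∈ Kh f) (h0 : v ≠ 0) :
    ∃ e : ℤ, ‖v‖ = tr m (-e) ∧ ‖v - f (tz m e)‖ < ‖v‖ := by
  obtain ⟨_, ⟨x, rfl⟩, hx⟩ := Metric.mem_closure_iff.1 hv _ (norm_pos_iff.2 h0)
  rw [dist_eq_norm] at hx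
  obtain ⟨e, he⟩ := exists_lead (x := x) (by
    rintro rfl
    simp at hx)
  have h1 : ‖f x‖ = ‖v‖ := by
    rw [← norm_sub_rev] at hx
    rw [← sub_add_cancel (f x) v, IsUltrametricDist.norm_add_eq_max_of_norm_ne_norm hx.ne,
      max_eq_right hx.le]
  have h2 := h1.symm.trans (norm_lead f he)
  refine ⟨e, h2, ?_⟩
  rw [← sub_add_sub_cancel v (f x), ← map_sub]
  exact (IsUltrametricDist.norm_add_le_max _ _).trans_lt (max_lt hx
    ((norm_Fil f he).trans_lt ((tr_strictMono (by omega)).trans_eq h2.symm)))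

/-- Let `M` be the subgroup of the `v ∈ Kh f` with `‖v‖ < 1`. The map `x ↦ co0 m x / 2` kills the `x`
with `‖f x‖ < 1` (they lie in `Fil m 1`: `exists_lead`, `co0_Fil_one`), so it defines a character of
the image of `O m` in `C2 ⧸ M`; extend it
(`(Module.Baer.of_divisible _).extension_property_addMonoidHom`). `co0_tz`, `norm_Kh`. -/
theorem exists_lam : ∃ lam : C2 →+ Tc, Lam f lam := by
  let M : AddSubgroup C2 :=
    { carrier := {v | ‖v‖ < 1}
      add_mem' := fun ha hb => (IsUltrametricDist.norm_add_le_max _ _).trans_lt (max_lt ha hb)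
      zero_mem' := by simp
      neg_mem' := fun ha => (norm_neg _).trans_lt ha }
  let g : O m →+ C2 ⧸ M := (QuotientAddGroup.mk' M).comp f.toAddMonoidHom
  let χ : O m →+ Tc := AddMonoidHom.mk' (fun x => (((co0 m x : ℝ) / 2 : ℝ) : Tc)) fun x y => by
    rw [map_add, Rat.cast_add, add_div, AddCircle.coe_add]
  have hk : g.ker ≤ χ.ker := fun x hx => by
    have h1 : ‖f x‖ < 1 := (QuotientAddGroup.eq_zero_iff (N := M) (f x)).1 hx
    have h2 : x ∈ Fil m 1 := by
      by_cases h0 : x = 0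
      · exact h0 ▸ zero_mem _
      obtain ⟨e, he⟩ := exists_lead h0
      rw [norm_lead f he, ← tr_zero (m := m), tr_strictMono.lt_iff_lt] at h1
      rw [← sub_add_cancel x (tz m e)]
      exact add_mem (Fil_anti (by omega) he) (tz_mem_Fil (by omega))
    obtain ⟨a, ha⟩ := co0_Fil_one h2
    refine (AddCircle.coe_eq_zero_iff 1).2 ⟨a, ?_⟩
    simp [ha]
  obtain ⟨l, hl⟩ := (Module.Baer.of_divisible Tc).extension_property_addMonoidHom
    (QuotientAddGroup.kerLift g) (QuotientAddGroup.kerLift_injective g)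
    (QuotientAddGroup.lift g.ker χ hk)
  have h1 : ∀ e, l (f (tz m e) : C2) =
      if (m : ℤ) ∣ e then (((2 : ℝ) ^ (e / m) / 2 : ℝ) : Tc) else 0 := fun e => by
    refine (DFunLike.congr_fun hl (tz m e : O m ⧸ g.ker)).trans ?_
    change (((co0 m (tz m e) : ℝ) / 2 : ℝ) : Tc) = _
    rw [co0_tz]
    split_ifs <;> simp
  have h2 : ∀ v : C2, ‖v‖ < 1 → l v = 0 := fun v hv => by
    rw [(QuotientAddGroup.eq_zero_iff (N := M) v).2 hv, map_zero]
  refine ⟨l.comp (QuotientAddGroup.mk' M), h1, fun v _ => h2 v, fun v hv h => ?_⟩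
  obtain ⟨e, h3, h4⟩ := norm_Kh f hv (norm_pos_iff.1 (h ▸ one_pos))
  rw [h, ← tr_zero (m := m), tr_strictMono.injective.eq_iff, zero_eq_neg] at h3
  have h5 := h2 _ (h4.trans_eq h)
  rw [QuotientAddGroup.mk_sub, map_sub, sub_eq_zero, h1, h3] at h5
  simpa [hf] using h5

open Classical in
/-- Apply `lam` to `f (tz m (-e)) * v i`, where `R = tr m (-e)`. -/
theorem even_card {ι : Type} (S : Finset ι) (v : ι → C2) {R : ℝ} (hR : 0 < R)
    (h1 : ∀ i ∈ S, v i ∈ Kh f ∧ ‖v i‖ ≤ R) (h2 : ∑ i ∈ S, v i = 0) :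
    Even (S.filter fun i => ‖v i‖ = R).card := by
  rcases (S.filter fun i => ‖v i‖ = R).eq_empty_or_nonempty with h | ⟨j, hj⟩
  · simp [h]
  obtain ⟨lam, hl⟩ := exists_lam f
  rw [mem_filter] at hj
  obtain ⟨e, he, -⟩ := norm_Kh f (h1 j hj.1).1 (norm_pos_iff.1 (hj.2 ▸ hR))
  have h3 : ∀ i, ‖f (tz m (-e)) * v i‖ = ‖v i‖ / R := fun i => by
    rw [norm_mul, norm_tz, tr_neg, ← he, hj.2, div_eq_inv_mul]
  have h4 : ∑ i ∈ S, lam (f (tz m (-e)) * v i) = (S.filter fun i => ‖v i‖ = R).card • hf := by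
    rw [← sum_const, sum_filter]
    refine sum_congr rfl fun i hi => ?_
    have k := mul_mem (mem_Kh f (tz m (-e))) (h1 i hi).1
    split_ifs with h
    · exact hl.eq _ k (by rw [h3, h, div_self hR.ne'])
    · exact hl.lt _ k (by rw [h3, div_lt_one hR]; exact lt_of_le_of_ne (h1 i hi).2 h)
  rw [← map_sum, ← mul_sum, h2, mul_zero, map_zero] at h4
  rw [← Nat.not_odd_iff_even]
  rintro ⟨k, hk⟩
  rw [hk, succ_nsmul, mul_nsmul, two_nsmul, hf_add_hf, nsmul_zero, zero_add] at h4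
  have h5 := fr_of_mem (r := 1 / 2) (by norm_num) (by norm_num)
  rw [← hf, ← h4, fr_zero] at h5
  norm_num at h5

end Pool.Agent.GK
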