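import Pool.Agent.Lib.MP_a01f70_lc.GK.PA

/-! Convolution. -/

noncomputable section

namespace Pool.Agent.GK
open Finset Polynomial

variable {m : ℕ} [NeZero m] (f : O m →+* C2)

omit [NeZero m] in
theorem cv_add (A B : GR m ℤ) (s : ℤ → C2) : cv f (A + B) s = cv f A s + cv f B s := by
  funext n
  simp [cv, Finsupp.sum_add_index', add_mul]

omit [NeZero m] in
theorem cv_single (a : ℤ) (c : O m) (s : ℤ → C2) (n : ℤ) :
    cv f (AddMonoidAlgebra.single a c) s n = f c * s (n - a) := by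
  rw [cv, AddMonoidAlgebra.coeff_single, Finsupp.sum_single_index (by simp)]

omit [NeZero m] in
theorem pb_zero (s : ℤ → C2) : cv f 0 s = 0 := by
  funext n
  simp [cv]

omit [NeZero m] in
theorem cv_mul (A B : GR m ℤ) (s : ℤ → C2) : cv f (A * B) s = cv f A (cv f B s) := by
  induction A using AddMonoidAlgebra.induction_linear with
  | zero => rw [zero_mul, pb_zero, pb_zero]
  | add A A' h h' => rw [add_mul, cv_add, cv_add, h, h']
  | single a c =>
    funext n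
    rw [cv_single]
    induction B using AddMonoidAlgebra.induction_linear with
    | zero => simp [pb_zero]
    | add B B' h h' => rw [mul_add, cv_add, cv_add, Pi.add_apply, Pi.add_apply, h, h', mul_add]
    | single b d =>
      rw [AddMonoidAlgebra.single_mul_single, cv_single, cv_single, map_mul, mul_assoc, sub_sub]

omit [NeZero m] in
theorem cv_delta (A : GR m ℤ) (n : ℤ) : cv f A (Pi.single 0 1) n = f (A.coeff n) := by
  rw [cv, Finsupp.sum_eq_single n]
  · simp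
  · intro b _ hb
    rw [Pi.single_eq_of_ne (sub_ne_zero.2 hb.symm), mul_zero]
  · simp

/-- Induction on `A`. -/
theorem Sq.cv {r : ℝ} (hr : 0 < r) {s : ℤ → C2} (h : Sq f r s) (A : GR m ℤ) :
    Sq f r (cv f A s) := by
  induction A using AddMonoidAlgebra.induction_linear with
  | zero =>
    rw [pb_zero]
    exact ⟨fun _ => zero_mem _, ⟨0, by simp⟩, fun ε hε => ⟨0, by simpa using fun _ _ => hε⟩⟩
  | add A A' h h' =>
    rw [cv_add]
    have k : ∀ l, ‖(GK.cv f A s + GK.cv f A' s) l‖ * r ^ l ≤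
        ‖GK.cv f A s l‖ * r ^ l + ‖GK.cv f A' s l‖ * r ^ l := fun l => by
      rw [← add_mul]
      exact mul_le_mul_of_nonneg_right (norm_add_le _ _) (zpow_pos hr l).le
    obtain ⟨C, hC⟩ := h.bd
    obtain ⟨C', hC'⟩ := h'.bd
    refine ⟨fun l => add_mem (h.mem l) (h'.mem l),
      ⟨C + C', fun l => (k l).trans (add_le_add (hC l) (hC' l))⟩, fun ε hε => ?_⟩
    obtain ⟨L, hL⟩ := h.bot _ (half_pos hε)
    obtain ⟨L', hL'⟩ := h'.bot _ (half_pos hε)
    refine ⟨min L L', fun l hl => ?_⟩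
    linarith [k l, hL l (hl.trans (min_le_left _ _)), hL' l (hl.trans (min_le_right _ _))]
  | single a c =>
    have k : ∀ l, ‖GK.cv f (.single a c) s l‖ * r ^ l =
        ‖f c‖ * r ^ a * (‖s (l - a)‖ * r ^ (l - a)) := fun l => by
      rw [cv_single, norm_mul, zpow_sub₀ hr.ne']
      field_simp
    have k0 : 0 ≤ ‖f c‖ * r ^ a := by positivity
    obtain ⟨C, hC⟩ := h.bd
    refine ⟨fun l => cv_single f a c s l ▸ mul_mem (mem_Kh f c) (h.mem _),
      ⟨_, fun l => (k l).trans_le (mul_le_mul_of_nonneg_left (hC _) k0)⟩, fun ε hε => ?_⟩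
    obtain ⟨L, hL⟩ := h.bot (ε / (‖f c‖ * r ^ a + 1)) (by positivity)
    refine ⟨L + a, fun l hl => ?_⟩
    have k1 := (lt_div_iff₀ (by positivity)).1 (hL (l - a) (by omega))
    have k2 : 0 ≤ ‖s (l - a)‖ * r ^ (l - a) := by positivity
    rw [k]
    nlinarith

open Filter Topology in
theorem pb_shrink {c : ℤ → ℝ} (S : Finset ℤ) {r : ℝ} (hr : 0 < r) (h0 : ∀ l ∉ S, c l = 0)
    (h1 : ∀ l, c l * r ^ l ≤ 1) (h2 : ∀ l ≤ 0, c l * r ^ l < 1) :
    ∃ r' q : ℝ, 0 < r' ∧ r' < r ∧ 0 ≤ q ∧ q < 1 ∧ ∀ l, c l * r' ^ l ≤ q := by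
  have e1 : ∀ᶠ r' in 𝓝[<] r, ∀ l ∈ S, c l * r' ^ l < 1 := by
    refine (eventually_all_finset S).2 fun l _ => ?_
    rcases le_or_gt l 0 with hl | hl
    · exact nhdsWithin_le_nhds ((continuousAt_const.mul
        (continuousAt_zpow₀ r l (.inl hr.ne'))).eventually_lt continuousAt_const (h2 l hl))
    · filter_upwards [Ioo_mem_nhdsLT hr] with x hx
      rcases le_or_gt (c l) 0 with hc | hc
      · exact (mul_nonpos_of_nonpos_of_nonneg hc (zpow_pos hx.1 l).le).trans_lt one_pos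
      · exact (mul_lt_mul_of_pos_left (zpow_lt_zpow_left₀ hl hx.1.le hx.2) hc).trans_le (h1 l)
  obtain ⟨r', h, h'⟩ := (e1.and (Ioo_mem_nhdsLT hr)).exists
  have e2 : ∀ᶠ q in 𝓝[<] (1 : ℝ), ∀ l ∈ S, c l * r' ^ l < q :=
    (eventually_all_finset S).2 fun l hl => nhdsWithin_le_nhds (lt_mem_nhds (h l hl))
  obtain ⟨q, k, k'⟩ := (e2.and (Ioo_mem_nhdsLT one_pos)).exists
  refine ⟨r', q, h'.1, h'.2, k'.1.le, k'.2, fun l => ?_⟩
  by_cases hl : l ∈ S
  · exact (k l hl).le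
  · rw [h0 l hl, zero_mul]
    exact k'.1.le

/-- Among the `a` with maximal `‖f (A a)‖ r ^ a` take the least, `a₀`, and the leading monomial
`tz m e` of `A a₀`. Then `N = 1 - mon (-e, -a₀) * A` has `‖f (N l)‖ r ^ l ≤ 1`, with strict inequality
for `l ≤ 0`; the support is finite, so some `r' < r` will do. -/
theorem exists_split {A : GR m ℤ} (hA : A ≠ 0) {r : ℝ} (hr : 0 < r) :
    ∃ (γ : ℤ × ℤ) (N : GR m ℤ) (r' q : ℝ), mon m γ * A = 1 - N ∧ 0 < r' ∧ r' < r ∧ 0 ≤ q ∧ q < 1 ∧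
      (∀ l, ‖f (N.coeff l)‖ * r ^ l ≤ 1) ∧ ∀ l, ‖f (N.coeff l)‖ * r' ^ l ≤ q := by
  classical
  set g : ℤ → ℝ := fun a => ‖f (A.coeff a)‖ * r ^ a with hg
  have hS : A.coeff.support.Nonempty := by simpa using hA
  obtain ⟨b, hb, hb'⟩ := exists_max_image _ g hS
  obtain ⟨a, ha, ha'⟩ := exists_min_image (A.coeff.support.filter fun a => g a = g b) id
    ⟨b, by simpa using hb⟩
  obtain ⟨ha, hab⟩ := mem_filter.1 ha
  obtain ⟨e, he⟩ := exists_lead (Finsupp.mem_support_iff.1 ha)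
  have hga : g a = tr m (-e) * r ^ a := by simp only [hg, norm_lead f he]
  have h0 : 0 < g a := hga ▸ mul_pos (tr_pos _) (zpow_pos hr a)
  have z : ∀ l ∉ A.coeff.support, g l < g a := fun l hl => by
    simpa [hg, Finsupp.notMem_support_iff.1 hl] using h0
  have h1 : ∀ l, g l ≤ g a := fun l => by
    by_cases hl : l ∈ A.coeff.support
    exacts [hab ▸ hb' l hl, (z l hl).le]
  have h2 : ∀ l < a, g l < g a := fun l hl => by
    by_cases hl' : l ∈ A.coeff.support
    · exact (h1 l).lt_of_ne fun k => hl.not_ge (ha' l (mem_filter.2 ⟨hl', k.trans hab⟩))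
    · exact z l hl'
  set N := 1 - mon m (-e, -a) * A
  have hN : ∀ l, N.coeff l = Finsupp.single 0 1 l - tz m (-e) * A.coeff (a + l) := fun l => by
    rw [AddMonoidAlgebra.coeff_sub, Finsupp.sub_apply, mon,
      AddMonoidAlgebra.coeff_single_mul_apply, neg_neg]
    rfl
  have n1 : ∀ l, l ≠ 0 → ‖f (N.coeff l)‖ * r ^ l = g (a + l) / g a := fun l hl => by
    have := @tr_pos m e
    rw [hga, tr_neg]
    simp [hN, hg, hl, norm_tz, zpow_add₀ hr.ne']
    field_simp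
  have n0 : ‖f (N.coeff 0)‖ * r ^ (0 : ℤ) < 1 := by
    have k : N.coeff 0 = -(tz m (-e) * (A.coeff a - tz m e)) := by
      simp [hN, mul_sub, mul_comm (tz m (-e)) (tz m e), tz_mul_neg]
    rw [k, map_neg, norm_neg, zpow_zero, mul_one]
    refine (norm_Fil f (mul_mem_Fil (tz_mem_Fil le_rfl) he)).trans_lt ?_
    rw [← @tr_zero m]
    exact tr_strictMono (by omega)
  have n2 : ∀ l, ‖f (N.coeff l)‖ * r ^ l ≤ 1 := fun l => by
    rcases eq_or_ne l 0 with rfl | hl
    exacts [n0.le, (n1 l hl).trans_le ((div_le_one h0).2 (h1 _))]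
  obtain ⟨r', q, k1, k2, k3, k4, k5⟩ := pb_shrink (c := fun l => ‖f (N.coeff l)‖) N.coeff.support hr
    (fun l hl => by simp [Finsupp.notMem_support_iff.1 hl]) n2 fun l hl => by
      rcases hl.eq_or_lt with rfl | hl
      exacts [n0, (n1 l hl.ne).trans_lt ((div_lt_one h0).2 (h2 _ (by omega)))]
  exact ⟨_, N, r', q, (sub_sub_cancel _ _).symm, k1, k2, k3, k4, n2, k5⟩

omit [NeZero m] in
/-- The ultrametric inequality for `AddMonoidAlgebra.coeff_mul`, or `cv_mul`, `cv_delta`. -/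
theorem gauss_mul {r C C' : ℝ} (hr : 0 < r) (hC : 0 ≤ C) (hC' : 0 ≤ C') {A B : GR m ℤ}
    (hA : ∀ l, ‖f (A.coeff l)‖ * r ^ l ≤ C) (hB : ∀ l, ‖f (B.coeff l)‖ * r ^ l ≤ C') (l : ℤ) :
    ‖f ((A * B).coeff l)‖ * r ^ l ≤ C * C' := by
  rw [← cv_delta, cv_mul, ← le_div_iff₀ (zpow_pos hr l)]
  refine IsUltrametricDist.norm_sum_le_of_forall_le_of_nonneg (by positivity) fun a _ => ?_
  simp only [cv_delta, le_div_iff₀ (zpow_pos hr l), norm_mul]
  refine le_trans (le_of_eq ?_) (mul_le_mul (hA a) (hB (l - a)) (by positivity) hC)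
  rw [zpow_sub₀ hr.ne']
  field_simp

end Pool.Agent.GK
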