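import Pool.Agent.Lib.MP_a01f70_lc.GK.PB

/-! The inverse. -/

noncomputable section

namespace Pool.Agent.GK
open Finset Polynomial

variable {m : ℕ} [NeZero m] (f : O m →+* C2)

omit [NeZero m] in
theorem pc_pow {r C : ℝ} (hr : 0 < r) (hC : 0 ≤ C) {N : GR m ℤ}
    (hN : ∀ l, ‖f (N.coeff l)‖ * r ^ l ≤ C) (k : ℕ) (l : ℤ) :
    ‖f ((N ^ k).coeff l)‖ * r ^ l ≤ C ^ k := by
  induction k generalizing l with
  | zero =>
    rw [pow_zero, pow_zero, AddMonoidAlgebra.one_def, AddMonoidAlgebra.coeff_single,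
      Finsupp.single_apply]
    split_ifs with h
    · simp [← h]
    · simp
  | succ k ih =>
    rw [pow_succ, pow_succ]
    exact gauss_mul f hr (pow_nonneg hC k) hC ih hN l

omit [NeZero m] in
theorem pc_one (n : ℤ) : f ((1 : GR m ℤ).coeff n) = (Pi.single 0 1 : ℤ → C2) n := by
  rw [AddMonoidAlgebra.one_def, AddMonoidAlgebra.coeff_single, Finsupp.single_apply,
    Pi.single_apply]
  by_cases h : n = 0
  · simp [h]
  · simp [h, Ne.symm h]

omit [NeZero m] in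
theorem pc_cv (B M : GR m ℤ) (n : ℤ) :
    cv f B (fun l => f (M.coeff l)) n = f ((B * M).coeff n) := by
  rw [← cv_delta, cv_mul]
  congr 1
  funext l
  rw [cv_delta]

/-- `s₀ l = ∑' k, f ((N ^ k).coeff l)` with `N` from `exists_split` (summable by comparison with
`q ^ k`); `cv (1 - N) s₀ = δ` by telescoping; `s = cv (mon γ) s₀`. The bound at `r'` gives
`‖s₀ l‖ r ^ l ≤ (r / r') ^ l`. -/
theorem exists_inv {A : GR m ℤ} (hA : A ≠ 0) {r : ℝ} (hr : 0 < r) :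
    ∃ s : ℤ → C2, Sq f r s ∧ cv f A s = Pi.single 0 1 := by
  obtain ⟨γ, N, r', q, hγ, hr', hrr, hq0, hq1, h1, h2⟩ := exists_split f hA hr
  have hs : ∀ l, Summable fun k : ℕ => f ((N ^ k).coeff l) := fun l =>
    Summable.of_norm_bounded ((summable_geometric_of_lt_one hq0 hq1).div_const (r' ^ l))
      fun k => (le_div_iff₀ (zpow_pos hr' l)).2 (pc_pow f hr' hq0 h2 k l)
  have hb : ∀ {ρ C : ℝ}, 0 < ρ → 0 ≤ C → C ≤ 1 → (∀ l, ‖f (N.coeff l)‖ * ρ ^ l ≤ C) →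
      ∀ l, ‖∑' k : ℕ, f ((N ^ k).coeff l)‖ * ρ ^ l ≤ 1 := by
    intro ρ C hρ hC hC1 h l
    rw [← le_div_iff₀ (zpow_pos hρ l)]
    exact IsUltrametricDist.norm_tsum_le_of_forall_le fun k =>
      (le_div_iff₀ (zpow_pos hρ l)).2 ((pc_pow f hρ hC h k l).trans (pow_le_one₀ hC hC1))
  have hS : Sq f r fun l => ∑' k : ℕ, f ((N ^ k).coeff l) := by
    refine ⟨fun l => ?_, ⟨1, hb hr zero_le_one le_rfl h1⟩, fun ε hε => ?_⟩
    · exact (Subring.isClosed_topologicalClosure f.range).mem_of_tendsto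
        (hs l).hasSum.tendsto_sum_nat (Filter.Eventually.of_forall fun n =>
          (Kh f).sum_mem fun k _ => mem_Kh f _)
    · have h3 : 1 < r / r' := (one_lt_div hr').2 hrr
      obtain ⟨n, hn⟩ := exists_pow_lt_of_lt_one hε (inv_lt_one_of_one_lt₀ h3)
      refine ⟨-n, fun l hl => ?_⟩
      have h4 := hb hr' hq0 hq1.le h2 l
      have h5 : (r / r') ^ l < ε := by
        refine (zpow_le_zpow_right₀ h3.le hl).trans_lt ?_
        rwa [zpow_neg, zpow_natCast, ← inv_pow]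
      have h6 : r ^ l = r' ^ l * (r / r') ^ l := by
        rw [← mul_zpow, mul_div_cancel₀ _ hr'.ne']
      rw [h6, ← mul_assoc]
      exact (mul_le_of_le_one_left (zpow_pos (zero_lt_one.trans h3) l).le h4).trans_lt h5
  refine ⟨_, hS.cv f hr (mon m γ), ?_⟩
  rw [← cv_mul, mul_comm, hγ]
  funext n
  have h3 : HasSum (fun k : ℕ => cv f (1 - N) (fun l => f ((N ^ k).coeff l)) n)
      (cv f (1 - N) (fun l => ∑' k : ℕ, f ((N ^ k).coeff l)) n) :=
    hasSum_sum fun a _ => (hs _).hasSum.mul_left _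
  have h4 := (hs n).hasSum.sub ((hasSum_nat_add_iff' 1).2 (hs n).hasSum)
  rw [sub_sub_cancel, sum_range_one, pow_zero, pc_one] at h4
  refine h3.unique ?_
  have h5 : ∀ k : ℕ, cv f (1 - N) (fun l => f ((N ^ k).coeff l)) n =
      f ((N ^ k).coeff n) - f ((N ^ (k + 1)).coeff n) := fun k => by
    rw [pc_cv, sub_mul, one_mul, ← pow_succ', AddMonoidAlgebra.coeff_sub, Finsupp.sub_apply,
      map_sub]
  simpa only [h5] using h4

omit [NeZero m] in
theorem pc_red {x : ℝ} (hx : 0 < x) {e₀ j : ℤ} (hj : 0 < j) (h : x ^ j = tr m (-e₀)) :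
    ∃ (e : ℤ) (J : ℕ), 0 < J ∧ IsCoprime e J ∧ x ^ J = tr m (-e) := by
  obtain ⟨g, e, j', hg, hc, rfl, rfl⟩ := Int.exists_gcd_one' (Int.gcd_pos_of_ne_zero_right e₀ hj.ne')
  have hj' : 0 < j' := (mul_pos_iff_of_pos_right (Int.natCast_pos.2 hg)).1 hj
  lift j' to ℕ using hj'.le
  refine ⟨e, j', by exact_mod_cast hj', Int.isCoprime_iff_gcd_eq_one.2 hc, ?_⟩
  rw [zpow_mul, zpow_natCast, zpow_natCast, ← neg_mul, ← tr_pow] at h
  exact (pow_left_inj₀ (pow_pos hx _).le (tr_pos _).le hg.ne').1 h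

/-- Two terms of the vanishing sum have the same norm (otherwise the norm of the sum is the maximum),
so `‖ρ‖ ^ J = tr m (-e)` with `J > 0`; divide by the greatest common divisor. `f` is injective
(`exists_lead`, `norm_lead`). -/
theorem exists_slope {A : GR m ℤ} (hA : A ≠ 0) {ρ : C2} (hρ : ρ ≠ 0) (h : ev2 f ρ A = 0) :
    ∃ (e : ℤ) (J : ℕ), 0 < J ∧ IsCoprime e J ∧ ‖ρ‖ ^ J = tr m (-e) := by
  have hx : 0 < ‖ρ‖ := norm_pos_iff.2 hρ
  have h1 : ∀ a ∈ A.coeff.support, ∃ e, ‖f (A.coeff a) * ρ ^ a‖ = tr m (-e) * ‖ρ‖ ^ a := by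
    intro a ha
    obtain ⟨e, he⟩ := exists_lead (Finsupp.mem_support_iff.1 ha)
    exact ⟨e, by rw [norm_mul, norm_zpow, norm_lead f he]⟩
  have h2 : ∀ a ∈ A.coeff.support, ∀ b ∈ A.coeff.support, b < a →
      ‖f (A.coeff a) * ρ ^ a‖ = ‖f (A.coeff b) * ρ ^ b‖ →
      ∃ (e : ℤ) (J : ℕ), 0 < J ∧ IsCoprime e J ∧ ‖ρ‖ ^ J = tr m (-e) := by
    intro a ha b hb hab he
    obtain ⟨e, h3⟩ := h1 a ha
    obtain ⟨e', h4⟩ := h1 b hb
    refine pc_red hx (sub_pos.2 hab) (e₀ := e' - e) ?_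
    rw [h3, h4, tr_neg] at he
    rw [zpow_sub₀ hx.ne', div_eq_iff (zpow_pos hx b).ne', neg_sub, sub_eq_add_neg, tr_add,
      mul_assoc, ← he, mul_inv_cancel_left₀ (tr_pos e).ne']
  by_contra hc
  have hne : A.coeff.support.Nonempty :=
    Finsupp.support_nonempty_iff.2 fun h0 => hA (AddMonoidAlgebra.ext h0)
  have h3 := IsUltrametricDist.norm_sum_eq_sup'_of_pairwise_ne
    (f := fun a => f (A.coeff a) * ρ ^ a) hne fun a ha b hb hab he => by
      rcases lt_or_gt_of_ne hab with h4 | h4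
      · exact hc (h2 b hb a ha h4 he.symm)
      · exact hc (h2 a ha b hb h4 he)
  obtain ⟨a, ha⟩ := id hne
  obtain ⟨e, he⟩ := h1 a ha
  have h4 := le_sup' (fun a => ‖f (A.coeff a) * ρ ^ a‖) ha
  have h5 : ∑ a ∈ A.coeff.support, f (A.coeff a) * ρ ^ a = 0 := h
  rw [← h3, h5, norm_zero, he] at h4
  exact h4.not_gt (mul_pos (tr_pos _) (zpow_pos hx a))

end Pool.Agent.GK
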