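import Pool.Agent.Lib.MP_a01f70_lc.GK.PB

/-! Windows and recurrences. -/

noncomputable section

namespace Pool.Agent.GK
open Finset Polynomial

variable {m : ℕ} [NeZero m] (f : O m →+* C2)

omit [NeZero m] in
/-- Let the support of `A` lie in `[a₀, a₀ + D]`, `a₁ = a₀ + D`, and
`Bd N = ∑ a, f (A a) ρ ^ a * ∑ l ∈ Ioc (N - a₁) (N - a), v l ρ ^ l`. Then
`Bd N - Bd (N - 1) = cv A v N ρ ^ N = f (G N) ρ ^ N` and `Bd N → 0` for `N → -∞`, so `Bd N = ev2 G` for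
large `N`. -/
theorem window {A G : GR m ℤ} {ρ : C2} (hρ : ρ ≠ 0) (h : ev2 f ρ A = 0) {a₀ : ℤ} {D : ℕ}
    (hD : ∀ a ∈ A.coeff.support, a₀ ≤ a ∧ a ≤ a₀ + D) {v : ℤ → C2} (hv : Sq f ‖ρ‖ v)
    (h1 : ∀ n, cv f A v n = f (G.coeff n)) (hG : ev2 f ρ G ≠ 0) :
    ∃ (κ : ℝ) (L : ℕ), 0 < κ ∧ ∀ n : ℤ, L ≤ n → ∃ l, n ≤ l ∧ l < n + D ∧ κ ≤ ‖v l‖ * ‖ρ‖ ^ l := by
  classical
  obtain ⟨w, hw⟩ : ∃ w : ℤ → C2, ∀ l, w l = v l * ρ ^ l := ⟨_, fun _ => rfl⟩
  obtain ⟨c, hc⟩ : ∃ c : ℤ → C2, ∀ a, c a = f (A.coeff a) * ρ ^ a := ⟨_, fun _ => rfl⟩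
  have hw' : ∀ l, ‖w l‖ = ‖v l‖ * ‖ρ‖ ^ l := fun l => by rw [hw, norm_mul, norm_zpow]
  have hc0 : ∑ a ∈ A.coeff.support, c a = 0 := (sum_congr rfl fun a _ => hc a).trans h
  obtain ⟨Bd, hB⟩ : ∃ Bd : ℤ → C2, ∀ N, Bd N =
      ∑ a ∈ A.coeff.support, c a * ∑ i ∈ range (a₀ + D - a).toNat, w (N - a - i) :=
    ⟨_, fun _ => rfl⟩
  obtain ⟨g, hg⟩ : ∃ g : ℤ → C2, ∀ N, g N =
      ∑ l ∈ G.coeff.support, if l ≤ N then f (G.coeff l) * ρ ^ l else 0 := ⟨_, fun _ => rfl⟩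
  obtain ⟨M, hM0, hM⟩ : ∃ M : ℝ, 0 ≤ M ∧ ∀ (N : ℤ) (κ : ℝ), 0 ≤ κ →
      (∀ l, N - a₀ - D < l → l ≤ N - a₀ → ‖w l‖ ≤ κ) → ‖Bd N‖ ≤ M * κ := by
    refine ⟨∑ a ∈ A.coeff.support, ‖c a‖ * D, by positivity, fun N κ hκ hl => ?_⟩
    rw [hB, sum_mul]
    refine (norm_sum_le _ _).trans (sum_le_sum fun a ha => ?_)
    have ha' := hD a ha
    rw [norm_mul, mul_assoc]
    refine mul_le_mul_of_nonneg_left ((norm_sum_le _ _).trans ?_) (norm_nonneg _)
    refine (sum_le_card_nsmul _ _ κ fun i hi => hl _ ?_ ?_).trans ?_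
    · have := mem_range.1 hi
      omega
    · omega
    · rw [card_range, nsmul_eq_mul]
      exact mul_le_mul_of_nonneg_right (Nat.cast_le.2 (by omega)) hκ
  have s1 : ∀ N, Bd N - Bd (N - 1) = f (G.coeff N) * ρ ^ N := fun N => by
    have e1 : ∀ a ∈ A.coeff.support, c a * ∑ i ∈ range (a₀ + D - a).toNat, w (N - a - i) -
        c a * ∑ i ∈ range (a₀ + D - a).toNat, w (N - 1 - a - i) =
        f (A.coeff a) * v (N - a) * ρ ^ N - c a * w (N - (a₀ + D)) := fun a ha => by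
      have ha' := hD a ha
      have e2 := sum_range_sub' (fun i : ℕ => w (N - a - i)) (a₀ + D - a).toNat
      have e3 : N - a - ((a₀ + D - a).toNat : ℤ) = N - (a₀ + D) := by omega
      have e4 : ∀ i : ℕ, N - 1 - a - i = N - a - (i + 1 : ℕ) := fun i => by omega
      have e5 : ρ ^ N = ρ ^ a * ρ ^ (N - a) := by rw [← zpow_add₀ hρ, add_sub_cancel]
      simp only [e3, Nat.cast_zero, sub_zero] at e2
      simp only [e4]
      rw [← mul_sub, ← sum_sub_distrib, e2, mul_sub, hw (N - a), e5, hc]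
      ring
    rw [hB, hB, ← sum_sub_distrib, sum_congr rfl e1, sum_sub_distrib, ← sum_mul, ← sum_mul, hc0,
      zero_mul, sub_zero, ← h1]
    rfl
  have s2 : ∀ N, g N - g (N - 1) = f (G.coeff N) * ρ ^ N := fun N => by
    rw [hg, hg, ← sum_sub_distrib, sum_eq_single N]
    · rw [if_pos le_rfl, if_neg (by omega), sub_zero]
    · intro l _ hl
      by_cases h2 : l ≤ N
      · rw [if_pos h2, if_pos (by omega), sub_self]
      · rw [if_neg h2, if_neg (by omega), sub_self]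
    · intro hN
      simp [Finsupp.notMem_support_iff.1 hN]
  have s3 : ∀ (N : ℤ) (k : ℕ), Bd (N - k) - g (N - k) = Bd N - g N := fun N k => by
    induction k with
    | zero => simp
    | succ k ih =>
      rw [← ih, Nat.cast_succ, ← sub_sub]
      linear_combination s2 (N - k) - s1 (N - k)
  obtain ⟨b₀, hb₀⟩ := G.coeff.support.bddBelow
  obtain ⟨b₁, hb₁⟩ := G.coeff.support.bddAbove
  have s4 : ∀ N, Bd N = g N := fun N => by
    rw [← sub_eq_zero, ← norm_le_zero_iff]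
    refine le_of_forall_pos_le_add fun ε hε => ?_
    have hε' : 0 < ε / (M + 1) := by positivity
    obtain ⟨L, hL⟩ := hv.bot _ hε'
    obtain ⟨k, hk1, hk2⟩ : ∃ k : ℕ, N - k - a₀ ≤ L ∧ N - k < b₀ :=
      ⟨(N - a₀ - L).toNat + (N - b₀ + 1).toNat, by omega, by omega⟩
    have e1 : g (N - k) = 0 := by
      rw [hg]
      exact sum_eq_zero fun l hl => if_neg (hk2.trans_le (hb₀ hl)).not_ge
    rw [← s3 N k, e1, sub_zero, zero_add]
    refine (hM _ _ hε'.le fun l _ hl => hw' l ▸ (hL l (hl.trans hk1)).le).trans ?_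
    rw [← mul_div_assoc, div_le_iff₀ (by positivity)]
    nlinarith
  have hG' := norm_pos_iff.2 hG
  refine ⟨‖ev2 f ρ G‖ / (M + 1), (b₁ - a₀ - D + 1).toNat, by positivity, fun n hn => ?_⟩
  by_contra hcon
  push Not at hcon
  have e1 : g (n + a₀ + D - 1) = ev2 f ρ G := by
    rw [hg]
    exact sum_congr rfl fun l hl => if_pos ((hb₁ hl).trans (by omega))
  have e2 := hM (n + a₀ + D - 1) (‖ev2 f ρ G‖ / (M + 1)) (by positivity) fun l h2 h3 =>
    hw' l ▸ (hcon l (by omega) (by omega)).le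
  rw [s4, e1, ← mul_div_assoc, le_div_iff₀ (by positivity)] at e2
  nlinarith

/-- The vectors `(E (n + i))_{i < D}` take finitely many values and each determines the next one. -/
theorem eventually_periodic (E : ℤ → Prop) (D : ℕ) (n₀ : ℤ)
    (h : ∀ n n', n₀ ≤ n → n₀ ≤ n' → (∀ i : ℕ, i < D → (E (n + i) ↔ E (n' + i))) →
      (E (n + D) ↔ E (n' + D))) :
    ∃ (P : ℕ) (n₁ : ℤ), 0 < P ∧ ∀ l, n₁ ≤ l → (E (l + P) ↔ E l) := by
  obtain ⟨k, k', hk, he⟩ :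
      ∃ k k' : ℕ, k < k' ∧ ∀ i : ℕ, i < D → (E (n₀ + k' + i) ↔ E (n₀ + k + i)) := by
    obtain ⟨k, k', hk, he⟩ :=
      Finite.exists_ne_map_eq_of_infinite fun (k : ℕ) (i : Fin D) => E (n₀ + k + (i : ℕ))
    rcases hk.lt_or_gt with hk | hk
    · exact ⟨k, k', hk, fun i hi => (congrFun he ⟨i, hi⟩).symm.to_iff⟩
    · exact ⟨k', k, hk, fun i hi => (congrFun he ⟨i, hi⟩).to_iff⟩
  have key : ∀ j : ℕ, E (n₀ + k' + j) ↔ E (n₀ + k + j) := fun j => by
    induction j using Nat.strong_induction_on with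
    | _ j ih =>
      rcases lt_or_ge j D with hj | hj
      · exact he j hj
      · obtain ⟨j, rfl⟩ := Nat.exists_eq_add_of_le' hj
        have := h (n₀ + k' + j) (n₀ + k + j) (by omega) (by omega) fun i hi => by
          simpa only [Nat.cast_add, add_assoc] using ih (j + i) (by omega)
        simpa only [Nat.cast_add, add_assoc] using this
  refine ⟨k' - k, n₀ + k, by omega, fun l hl => ?_⟩
  obtain ⟨j, rfl⟩ := Int.le.dest hl
  rw [← key]
  exact iff_of_eq (congrArg E (by omega))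

open Classical in
/-- Let `I` be the set of the `a` with maximal `‖f (A a)‖ r ^ a`. For large `n` the sum
`∑ a, f (A a) v (n - a)` vanishes; `even_card` with `R = max * μ / r ^ n`. -/
theorem recurrence {A G : GR m ℤ} (hA : A ≠ 0) {r μ : ℝ} (hr : 0 < r) (hμ : 0 < μ) {v : ℤ → C2}
    (hv : ∀ l, v l ∈ Kh f) (h1 : ∀ n, cv f A v n = f (G.coeff n)) {l₀ : ℤ}
    (h2 : ∀ l, l₀ ≤ l → ‖v l‖ * r ^ l ≤ μ) :
    ∃ (I : Finset ℤ) (n₀ : ℤ), I.Nonempty ∧ I ⊆ A.coeff.support ∧ ∀ n, n₀ ≤ n →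
      Even (I.filter fun a => ‖v (n - a)‖ * r ^ (n - a) = μ).card := by
  obtain ⟨a₀, ha₀, hmax⟩ := exists_max_image A.coeff.support (fun a => ‖f (A.coeff a)‖ * r ^ a)
    (Finsupp.support_nonempty_iff.2 (by simpa using hA))
  have hpos : ∀ a ∈ A.coeff.support, 0 < ‖f (A.coeff a)‖ * r ^ a := fun a ha => by
    obtain ⟨e, he⟩ := exists_lead (Finsupp.mem_support_iff.1 ha)
    rw [norm_lead f he]
    exact mul_pos (tr_pos _) (zpow_pos hr _)
  obtain ⟨a₁, ha₁⟩ := A.coeff.support.bddAbove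
  obtain ⟨b₁, hb₁⟩ := G.coeff.support.bddAbove
  refine ⟨A.coeff.support.filter fun a => ‖f (A.coeff a)‖ * r ^ a = ‖f (A.coeff a₀)‖ * r ^ a₀,
    max (b₁ + 1) (l₀ + a₁), ⟨a₀, mem_filter.2 ⟨ha₀, rfl⟩⟩, filter_subset _ _, fun n hn => ?_⟩
  have hn' := zpow_pos hr n
  have e1 : ∀ a, ‖f (A.coeff a) * v (n - a)‖ =
      ‖f (A.coeff a)‖ * r ^ a * (‖v (n - a)‖ * r ^ (n - a)) / r ^ n := fun a => by
    rw [norm_mul, zpow_sub₀ hr.ne', eq_div_iff hn'.ne']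
    have := (zpow_pos hr a).ne'
    field_simp
  have e2 : ∀ a ∈ A.coeff.support, ‖v (n - a)‖ * r ^ (n - a) ≤ μ := fun a ha =>
    h2 _ (by have := ha₁ ha; omega)
  have e3 : G.coeff n = 0 := Finsupp.notMem_support_iff.1 fun h => by have := hb₁ h; omega
  have e4 := even_card f A.coeff.support (fun a => f (A.coeff a) * v (n - a))
    (R := ‖f (A.coeff a₀)‖ * r ^ a₀ * μ / r ^ n) (div_pos (mul_pos (hpos _ ha₀) hμ) hn')
    (fun a ha => ⟨mul_mem (mem_Kh f _) (hv _), e1 a ▸ div_le_div_of_nonneg_right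
      (mul_le_mul (hmax a ha) (e2 a ha) (by positivity) (hpos _ ha₀).le) hn'.le⟩)
    ((h1 n).trans (by rw [e3, map_zero]))
  rw [filter_filter]
  refine (congrArg (fun s : Finset ℤ => Even s.card) (filter_congr fun a ha => ?_)).mp e4
  rw [e1, div_left_inj' hn'.ne']
  exact mul_eq_mul_iff_eq_and_eq_of_pos (hmax a ha) (e2 a ha) (hpos a ha) hμ

end Pool.Agent.GK
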