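import Pool.Agent.Lib.MP_a01f70_lc.GK.TrigE1

/-! Trigonometric polynomials close to the square wave. -/

namespace Pool.Agent.GK
open Finset Pool.Agent.Lib.MP_a01f70_lc.BA

/-- the coefficients of the square -/
noncomputable def teQ (M : ℕ) (a : ℤ) : ℝ := ∑ b ∈ Icc (-M : ℤ) M, -(teS M b * teS M (a - b))

theorem te_shift (M : ℕ) (x : Tc) {b : ℤ} (hb : b ∈ Icc (-M : ℤ) M) :
    teP M x = ∑ a ∈ Icc (-(2 * M : ℤ)) (2 * M), Complex.I * teS M (a - b) * ee ((a - b) • x) := by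
  rw [mem_Icc] at hb
  refine sum_of_injOn (· + b) (fun _ _ _ _ h => add_right_cancel h) (fun a ha => ?_)
    (fun a _ ha => ?_) fun a _ => by rw [add_sub_cancel_right]
  · have h := mem_Icc.1 ha
    exact mem_Icc.2 (by beta_reduce; omega)
  · rw [teS_zero fun h => ha ⟨a - b, h, sub_add_cancel _ _⟩]
    simp

theorem teP_sq (M : ℕ) (x : Tc) :
    teP M x ^ 2 = ∑ a ∈ Icc (-(2 * M : ℤ)) (2 * M), teQ M a * ee (a • x) := by
  simp only [teQ, Complex.ofReal_sum, sum_mul]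
  rw [sum_comm, sq]
  conv_lhs => lhs; rw [teP]
  rw [sum_mul]
  refine sum_congr rfl fun b hb => ?_
  rw [te_shift M x hb, mul_sum]
  refine sum_congr rfl fun a _ => ?_
  have h : ee (a • x) = ee (b • x) * ee ((a - b) • x) := by
    rw [← ee_add, ← add_smul, add_sub_cancel]
  rw [h]
  push_cast
  linear_combination (teS M b * teS M (a - b) * ee (b • x) * ee ((a - b) • x) : ℂ) * Complex.I_sq

theorem teP_re (M : ℕ) (x : Tc) : ((teP M x).re : ℂ) = teP M x :=
  Complex.conj_eq_iff_re.1 (teP_conj M x)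

theorem te_coef (A : Finset ℤ) (c : ℤ → ℂ) {b : ℤ} (hb : b ∈ A) :
    ∫ u in (0 : ℝ)..1, (∑ a ∈ A, c a * ex (a * u)) * ex (-(b * u)) = c b := by
  have hc := fejB_cont
  have h : ∀ (a : ℤ) (u : ℝ), c a * ex (a * u) * ex (-(b * u)) =
      c a * ex (-(((b - a : ℤ) : ℝ) * u)) := fun a u => by
    rw [mul_assoc, ← fejB_add]
    congr 2
    push_cast
    ring
  simp only [sum_mul, h]
  rw [intervalIntegral.integral_finsetSum fun a _ => Continuous.intervalIntegrable (by fun_prop) _ _,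
    sum_eq_single_of_mem b hb fun a _ hab => ?_]
  · simp [fejB_zero]
  · rw [intervalIntegral.integral_const_mul, int_ex (sub_ne_zero.2 hab.symm), fejB_int, mul_zero,
      neg_zero, fejB_zero, sub_self, zero_div, mul_zero]

theorem teQ_le {m : ℕ} (hm : 1 ≤ m) {a : ℤ} (ha : a ≠ 0) :
    |teQ (2 * m) a| ≤ 1 - teQ (2 * m) 0 := by
  have hc := fejB_cont
  have h0 : (0 : ℤ) ∈ Icc (-(2 * (2 * m : ℕ) : ℤ)) (2 * (2 * m : ℕ)) := by
    rw [mem_Icc]
    omega
  have h1 : ∀ u : ℝ, ((1 - (teP (2 * m) u).re ^ 2 : ℝ) : ℂ) =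
      ∑ b ∈ Icc (-(2 * (2 * m : ℕ) : ℤ)) (2 * (2 * m : ℕ)),
        (((if b = 0 then 1 else 0) - teQ (2 * m) b : ℝ) : ℂ) * ex (b * u) := fun u => by
    push_cast
    simp only [teP_re, teP_sq, te_ex, sub_mul, sum_sub_distrib]
    congr 1
    rw [sum_eq_single_of_mem 0 (mem_Icc.2 (by omega)) fun b _ hb => by simp [hb]]
    simp [fejB_zero]
  have h2 : ∀ u : ℝ, 0 ≤ 1 - (teP (2 * m) u).re ^ 2 := fun u =>
    sub_nonneg.2 ((sq_le_one_iff_abs_le_one _).2 (te_sign hm _).1)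
  have h3 := te_coef _ (fun b => (((if b = 0 then 1 else 0) - teQ (2 * m) b : ℝ) : ℂ)) h0
  simp only [← h1, Int.cast_zero, zero_mul, neg_zero, fejB_zero, mul_one, if_true,
    intervalIntegral.integral_ofReal, Complex.ofReal_inj] at h3
  rw [← h3]
  by_cases h4 : a ∈ Icc (-(2 * (2 * m : ℕ) : ℤ)) (2 * (2 * m : ℕ))
  · have h5 := te_coef _ (fun b => (((if b = 0 then 1 else 0) - teQ (2 * m) b : ℝ) : ℂ)) h4
    simp only [← h1, if_neg ha, zero_sub] at h5
    rw [← abs_neg, ← Real.norm_eq_abs, ← Complex.norm_real, ← h5]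
    refine (intervalIntegral.norm_integral_le_integral_norm zero_le_one).trans_eq ?_
    refine intervalIntegral.integral_congr fun u _ => ?_
    simp only [norm_mul, fejB_norm, mul_one, Complex.norm_real, Real.norm_of_nonneg (h2 u)]
  · rw [teQ, sum_eq_zero fun b hb => ?_, abs_zero]
    · exact intervalIntegral.integral_nonneg zero_le_one fun u _ => h2 u
    · rw [teS_zero (a := a - b) fun h => h4 ?_, mul_zero, neg_zero]
      rw [mem_Icc] at h hb ⊢
      omega

theorem te_zeta {N : ℕ} (hN : 1 ≤ N) :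
    Real.pi ^ 2 / 6 ≤ ∑ j ∈ range (N + 1), 1 / (j : ℝ) ^ 2 + 1 / N := by
  refine le_of_tendsto' ((Filter.tendsto_add_atTop_iff_nat (N + 1)).2
    hasSum_zeta_two.tendsto_sum_nat) fun n => ?_
  have h : ∑ j ∈ range (n + (N + 1)), 1 / (j : ℝ) ^ 2 + 1 / ((n + N : ℕ) : ℝ) ≤
      ∑ j ∈ range (N + 1), 1 / (j : ℝ) ^ 2 + 1 / N := by
    induction n with
    | zero => simp
    | succ n ih =>
      rw [add_right_comm n, sum_range_succ, add_right_comm n 1 N, ← add_assoc n, Nat.cast_succ]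
      rw [← add_assoc n] at ih
      have h1 : (0 : ℝ) < (n + N : ℕ) := Nat.cast_pos.2 (by omega)
      generalize ((n + N : ℕ) : ℝ) = y at *
      have h2 : 1 / (y + 1) ^ 2 + 1 / (y + 1) ≤ 1 / y := by
        rw [div_add_div _ _ (by positivity) (by positivity),
          div_le_div_iff₀ (by positivity) (by positivity)]
        nlinarith
      linarith
  exact (le_add_of_nonneg_right (by positivity)).trans h

theorem te_odd (K : ℕ) : ∑ j ∈ range (2 * K + 1), (if Odd (j : ℤ) then 1 / (j : ℝ) ^ 2 else 0) =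
    ∑ j ∈ range (2 * K + 1), 1 / (j : ℝ) ^ 2 - (∑ j ∈ range (K + 1), 1 / (j : ℝ) ^ 2) / 4 := by
  induction K with
  | zero => simp
  | succ K ih =>
    rw [mul_add_one, sum_range_succ, sum_range_succ, ih, sum_range_succ _ (2 * K + 2),
      sum_range_succ _ (2 * K + 1), sum_range_succ _ (K + 1), if_pos ⟨K, by push_cast; ring⟩,
      if_neg (Int.not_odd_iff_even.2 ⟨K + 1, by push_cast; ring⟩)]
    push_cast
    field_simp
    ring

theorem teQ_zero {K : ℕ} (hK : 2 ≤ K) : 1 - 2 / (K : ℝ) ≤ teQ (2 * (2 * K ^ 2)) 0 := by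
  have hK' : (2 : ℝ) ≤ K := by exact_mod_cast hK
  have hp := Real.pi_gt_three
  obtain ⟨M, hM⟩ : ∃ M, M = 2 * (2 * K ^ 2) := ⟨_, rfl⟩
  have hM' : (M : ℝ) = 4 * K ^ 2 := by
    rw [hM]
    push_cast
    ring
  have h1 : teQ M 0 = 2 * ∑ j ∈ range (M + 1), teS M j ^ 2 := by
    simp only [teQ, zero_sub, teS_neg, mul_neg, neg_neg, ← sq]
    rw [sum_Icc_of_even_eq_range fun a => by rw [teS_neg, neg_sq], teS_even M Even.zero]
    simp
  have h2 : ∀ j ∈ range (2 * K + 1), (1 - 1 / (2 * K : ℝ)) ^ 2 * (4 / Real.pi ^ 2) *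
      (if Odd (j : ℤ) then 1 / (j : ℝ) ^ 2 else 0) ≤ teS M j ^ 2 := fun j hj => by
    rw [teS]
    split_ifs with h
    · have h3 : (j : ℝ) ≤ 2 * K := by exact_mod_cast Nat.le_of_lt_succ (mem_range.1 hj)
      have h4 : 1 - 1 / (2 * K : ℝ) ≤ fw M j := by
        refine le_trans (sub_le_sub_left ?_ 1) (te_fw_ge (by nlinarith) j)
        rw [hM', div_le_div_iff₀ (by positivity) (by positivity)]
        nlinarith
      have h5 : 0 ≤ 1 - 1 / (2 * K : ℝ) := sub_nonneg.2 (div_le_one_of_le₀ (by linarith) (by positivity))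
      refine (mul_le_mul_of_nonneg_right (mul_le_mul_of_nonneg_right (pow_le_pow_left₀ h5 h4 2)
        (by positivity)) (by positivity)).trans_eq ?_
      rw [Int.cast_natCast]
      ring
    · simp
  have h3 := (sum_le_sum h2).trans (sum_le_sum_of_subset_of_nonneg
    (range_mono (by nlinarith : 2 * K + 1 ≤ M + 1)) fun _ _ _ => sq_nonneg _)
  rw [← mul_sum, te_odd] at h3
  have h4 := te_zeta (N := 2 * K) (by omega)
  have h5 := sum_le_hasSum (range (K + 1)) (fun _ _ => by positivity) hasSum_zeta_two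
  have h6 : Real.pi ^ 2 / 8 * (1 - 1 / K) ≤ ∑ j ∈ range (2 * K + 1), 1 / (j : ℝ) ^ 2 -
      (∑ j ∈ range (K + 1), 1 / (j : ℝ) ^ 2) / 4 := by
    have h7 : 1 / ((2 * K : ℕ) : ℝ) = 1 / K / 2 := by
      push_cast
      ring
    have h8 : (0 : ℝ) ≤ 1 / K := by positivity
    nlinarith [mul_nonneg h8 (by nlinarith : 0 ≤ Real.pi ^ 2 - 4)]
  have h7 := (mul_le_mul_of_nonneg_left h6 (by positivity)).trans h3
  have h8 : (1 - 1 / (2 * K : ℝ)) ^ 2 * (4 / Real.pi ^ 2) * (Real.pi ^ 2 / 8 * (1 - 1 / K)) =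
      (1 - 1 / K / 2) ^ 2 * (1 - 1 / K) / 2 := by
    field_simp
    ring
  have h9 : (0 : ℝ) ≤ 1 / K := by positivity
  have h10 : (1 : ℝ) / K ≤ 1 / 2 := one_div_le_one_div_of_le two_pos hK'
  rw [← hM, h1, show 2 / (K : ℝ) = 2 * (1 / K) by ring]
  rw [h8] at h7
  generalize (1 : ℝ) / K = y at *
  nlinarith [mul_nonneg (mul_nonneg h9 h9) (by linarith : 0 ≤ 5 - y)]

theorem exists_trig :
    ∃ c : ℕ, ∀ μ : ℝ, 0 < μ → μ ≤ 1 / 2 → ∃ t : Trig μ, (t.M : ℝ) ≤ μ⁻¹ ^ c := by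
  refine ⟨8, fun μ h0 h1 => ?_⟩
  obtain ⟨K, hK⟩ : ∃ K, K = ⌈2 * μ⁻¹⌉₊ := ⟨_, rfl⟩
  have hi : 2 ≤ μ⁻¹ := by rwa [le_inv_comm₀ two_pos h0, ← one_div]
  have k1 : 2 * μ⁻¹ ≤ K := hK ▸ Nat.le_ceil _
  have k2 : (K : ℝ) ≤ 2 * μ⁻¹ + 1 := hK ▸ (Nat.ceil_lt_add_one (by positivity)).le
  have k3 : (2 : ℝ) ≤ K := by linarith
  have k4 : 2 ≤ K := by exact_mod_cast k3
  have k5 : 2 / (K : ℝ) ≤ μ := by
    rw [div_le_iff₀ (by linarith), ← inv_mul_le_iff₀ h0, mul_comm]
    exact k1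
  have hm : 1 ≤ 2 * K ^ 2 := by nlinarith
  have hq := (sub_le_sub_left k5 1).trans (teQ_zero k4)
  have hp := Real.pi_gt_three
  refine ⟨{
    M := 2 * (2 * K ^ 2)
    S := fun x => (teP (2 * (2 * K ^ 2)) x).re
    σ := teS (2 * (2 * K ^ 2))
    q := teQ (2 * (2 * K ^ 2))
    one_le := by omega
    S_eq := fun x => by
      simpa only [sub_zero, teP_re] using te_shift _ x (b := 0) (mem_Icc.2 (by omega))
    sq_eq := fun x => by rw [teP_re, teP_sq]
    σ_neg := teS_neg _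
    σ_even := fun a => teS_even _
    σ_le := fun a ha => ?_
    σ_one := ?_
    q_neg := fun a => ?_
    q_odd := fun a ha => sum_eq_zero fun b _ => ?_
    q_zero := hq
    q_le := fun a ha => (teQ_le hm ha).trans (by linarith)
    abs_le := fun x => (te_sign hm x).1
    sign := fun x => (te_sign hm x).2 }, ?_⟩
  · rw [teS]
    split_ifs
    · rw [abs_div, abs_mul, abs_mul, abs_two, abs_of_pos Real.pi_pos, abs_of_nonneg (fw_nonneg _ _)]
      exact div_le_div_of_nonneg_right (mul_le_of_le_one_right zero_le_two (fw_le _ _))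
        (by positivity)
    · rw [abs_zero]
      positivity
  · have h2 := fw_one (M := 2 * (2 * K ^ 2)) (by omega)
    have h3 : 1 / ((2 * (2 * K ^ 2) : ℕ) : ℝ) ≤ μ := by
      refine le_trans ?_ k5
      push_cast
      rw [div_le_div_iff₀ (by positivity) (by positivity)]
      nlinarith
    rw [teS, if_pos odd_one, Int.cast_one, mul_one, sub_le_iff_le_add, div_add' _ _ _ Real.pi_ne_zero]
    exact div_le_div_of_nonneg_right (by nlinarith) Real.pi_pos.le
  · rw [teQ, teQ, ← te_sum_neg]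
    refine sum_congr rfl fun b _ => ?_
    rw [← neg_sub', teS_neg, teS_neg, neg_mul_neg]
  · rcases Int.even_or_odd b with h | h
    · rw [teS_even _ h, zero_mul, neg_zero]
    · rw [teS_even _ (ha.sub_odd h), mul_zero, neg_zero]
  · have h2 : (K : ℝ) ≤ μ⁻¹ ^ 3 := by nlinarith [mul_le_mul hi hi zero_le_two (by positivity)]
    have h3 := pow_le_pow_left₀ (by positivity) h2 2
    have h4 := mul_le_mul (pow_le_pow_left₀ zero_le_two hi 2) h3 (by positivity) (by positivity)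
    push_cast
    linarith

end Pool.Agent.GK
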