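import Pool.Agent.Lib.MP_a01f70_lc.GK.RzA
import Pool.Agent.Lib.MP_a01f70_lc.GK.TrigE

/-! Large fluctuations. -/

noncomputable section

namespace Pool.Agent.GK
open Finset Polynomial

theorem rz_vec {n Q q : ℕ} {j : Fin n → ℕ} (hq : q < Q) (hj : ∀ k, j k < Q) (a : ℤ)
    (σ : Fin n → ℤ) {A : Type} [AddCommGroup A] (y : ℕ → A) :
    ∑ i ∈ range Q, ((if i = q then a else 0) + ∑ k, if j k = i then σ k else 0) • y i =
      a • y q + ∑ k, σ k • y (j k) := by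
  simp only [add_smul, sum_add_distrib, sum_smul, ite_smul, zero_smul]
  rw [sum_comm]
  simp only [sum_ite_eq, sum_ite_eq', mem_range, hq, hj, if_true]

theorem rz_one {n : ℕ} {j : Fin n → ℕ} (hj : Function.Injective j) {σ : Fin n → ℤ} (hσ : σ ∈ Sg n)
    (i : ℕ) : |∑ k, if j k = i then σ k else 0| ≤ 1 := by
  by_cases h : ∃ k, j k = i
  · obtain ⟨k, rfl⟩ := h
    simp only [hj.eq_iff, sum_ite_eq', mem_univ, if_true]
    rcases mem_Sg.1 hσ k with h | h | h <;> simp [h]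
  · rw [sum_eq_zero fun k _ => if_neg fun h' => h ⟨k, h'⟩]
    simp

/-- `N ≥ 8 |K| + 8`, `n = N ^ 2`, `μ = 1 / (20 (Q + 1))`, `M = 2 t.M + 1`. Put
`Ev a q σ = ∑ ω, ee (a • ζ ω q + ∑ k, σ k • ζ ω (j k))`; the coefficient vector is
`fun i => (if i = q then a else 0) + ∑ k with j k = i, σ k` (`j` is injective). The triple sum of
`rz_main` is `∑ ω, (∑ q ∈ Φ, t.S (ζ ω q)) * rz N⁻¹ (fun k => ζ ω (j k))` (`S_eq`, `rz_eq`), of norm at most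
`2 ∑ ω, |∑ q, t.S|` (`norm_rz_le`). `Trig.abs_sub`, and `∑ ω, (1 - t.S ^ 2) ≤ μ card` (`sq_eq`). -/
theorem riesz {x : ℂ} (h : Ari x) (K : ℝ) : ∃ g n : ℕ, ∀ Q : ℕ, ∃ M : ℕ, ∀ Φ : Finset ℕ,
    Φ ⊆ range Q → (∃ j : Fin n → ℕ, (∀ k, j k ∈ Φ) ∧ ∀ k k', k < k' → j k + g ≤ j k') →
    ∀ (Ω : Type) (s : Finset Ω) (ζ : Ω → ℕ → Tc),
      (∀ a : ℕ → ℤ, (∀ q, |a q| ≤ M) → ∑ q ∈ range Q, (a q : ℂ) * x ^ q ≠ 0 →
        ∑ ω ∈ s, ee (∑ q ∈ range Q, a q • ζ ω q) = 0) →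
      K * s.card ≤ ∑ ω ∈ s, |∑ q ∈ Φ, (2 * dig (ζ ω q) - 1)| := by
  obtain ⟨N, hN⟩ := exists_nat_ge (8 * |K| + 8)
  obtain ⟨g, hg, H⟩ := rz_main h (N := N) (Nat.cast_pos.1 (lt_of_lt_of_le (by positivity) hN))
  refine ⟨g, N ^ 2, fun Q => ?_⟩
  obtain ⟨μ, hμ, hμ1, hμ2⟩ : ∃ μ : ℝ, 0 < μ ∧ μ ≤ 1 / 20 ∧ Q * μ ≤ 1 / 20 := by
    have h0 : (0 : ℝ) ≤ Q := Nat.cast_nonneg Q
    refine ⟨1 / (20 * (Q + 1)), by positivity, one_div_le_one_div_of_le (by norm_num)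
      (by linarith), ?_⟩
    rw [mul_one_div, div_le_div_iff₀ (by positivity) (by norm_num)]
    linarith
  obtain ⟨c, hc⟩ := exists_trig
  obtain ⟨t, -⟩ := hc μ hμ (by linarith)
  refine ⟨2 * t.M + 1, fun Φ hΦ ⟨j, hj, hj'⟩ Ω s ζ hz => ?_⟩
  have hi : Function.Injective j := fun k k' e => by
    rcases lt_trichotomy k k' with h1 | h1 | h1
    · have := hj' k k' h1
      omega
    · exact h1
    · have := hj' k' k h1
      omega
  have hA : ∀ a ∈ Icc (-(2 * t.M : ℤ)) (2 * t.M), ∀ q ∈ Φ, ∀ σ ∈ Sg (N ^ 2),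
      a * x ^ q + ∑ k, σ k * x ^ j k ≠ 0 →
      ∑ ω ∈ s, ee (a • ζ ω q + ∑ k, σ k • ζ ω (j k)) = 0 := fun a ha q hq σ hσ hne => by
    have h1 := @rz_vec _ _ _ _ (mem_range.1 (hΦ hq)) (fun k => mem_range.1 (hΦ (hj k))) a σ
    simp only [← h1]
    refine hz _ (fun i => (abs_add_le _ _).trans ?_) (by
      simpa only [← zsmul_eq_mul, h1 fun i => x ^ i] using hne)
    push_cast
    refine add_le_add ?_ (rz_one hi hσ i)
    split_ifs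
    · exact abs_le.2 (mem_Icc.1 ha)
    · positivity
  have hB : ∀ q ∈ Φ, ∑ ω ∈ s, (1 - t.S (ζ ω q) ^ 2) ≤ μ * s.card := fun q hq => by
    have h1 : ((∑ ω ∈ s, t.S (ζ ω q) ^ 2 : ℝ) : ℂ) = (t.q 0 * s.card : ℝ) := by
      push_cast
      simp only [t.sq_eq]
      rw [sum_comm, sum_eq_single_of_mem 0 (by simp) fun a ha h0 => ?_]
      · simp [ee_zero, mul_comm]
      · have := hA a ha q hq 0 (zero_mem_Sg _) (by simp [h0, h.ne])
        simp only [Pi.zero_apply, zero_smul, sum_const_zero, add_zero] at this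
        rw [← mul_sum, this, mul_zero]
    rw [sum_sub_distrib, Complex.ofReal_injective h1, sum_const, nsmul_one]
    linarith [mul_le_mul_of_nonneg_right t.q_zero (Nat.cast_nonneg s.card)]
  have hC := H μ t Φ j hj hj' s.card
    (fun a q σ => ∑ ω ∈ s, ee (a • ζ ω q + ∑ k, σ k • ζ ω (j k))) (Nat.cast_nonneg _)
    (fun a q σ => (norm_sum_le _ _).trans (by simp [norm_ee])) hA fun k e _ => by
      simp [Pi.single_apply, ite_smul, ee_zero]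
  have hD : ∑ σ ∈ Sg (N ^ 2), ∑ q ∈ Φ, ∑ a ∈ Icc (-(2 * t.M : ℤ)) (2 * t.M),
      Complex.I * t.σ a * cf (N : ℂ)⁻¹ σ * ∑ ω ∈ s, ee (a • ζ ω q + ∑ k, σ k • ζ ω (j k)) =
      ∑ ω ∈ s, ((∑ q ∈ Φ, t.S (ζ ω q) : ℝ) : ℂ) * rz (N : ℂ)⁻¹ fun k => ζ ω (j k) := by
    simp only [Complex.ofReal_sum, t.S_eq, rz_eq, mul_sum, sum_mul, ee_add]
    rw [sum_comm (s := s)]
    refine sum_congr rfl fun σ _ => ?_
    rw [sum_comm (s := s)]
    refine sum_congr rfl fun q _ => ?_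
    rw [sum_comm (s := s)]
    exact sum_congr rfl fun a _ => sum_congr rfl fun ω _ => by ring
  have hE : ∀ ω ∈ s, ‖((∑ q ∈ Φ, t.S (ζ ω q) : ℝ) : ℂ) * rz (N : ℂ)⁻¹ fun k => ζ ω (j k)‖ ≤
      (|∑ q ∈ Φ, (2 * dig (ζ ω q) - 1)| + ∑ q ∈ Φ, (1 - t.S (ζ ω q) ^ 2)) * 2 := fun ω _ => by
    have h1 := (abs_sum_le_sum_abs _ _).trans (sum_le_sum fun q (_ : q ∈ Φ) => t.abs_sub (ζ ω q))
    rw [sum_sub_distrib, abs_sub_comm] at h1
    rw [norm_mul, Complex.norm_real, Real.norm_eq_abs]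
    refine mul_le_mul ?_ (norm_rz_le (Nat.cast_pos.1 (lt_of_lt_of_le (by positivity) hN)) _)
      (norm_nonneg _) (add_nonneg (abs_nonneg _) ((abs_nonneg _).trans h1))
    linarith [abs_sub_abs_le_abs_sub (∑ q ∈ Φ, t.S (ζ ω q)) (∑ q ∈ Φ, (2 * dig (ζ ω q) - 1))]
  have h1 := hC.trans ((Complex.im_le_norm _).trans (hD ▸ norm_sum_le_of_le _ hE))
  rw [← sum_mul, sum_add_distrib, sum_comm] at h1
  have h2 := sum_le_card_nsmul _ _ _ hB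
  have h3 : (Φ.card : ℝ) ≤ Q := by exact_mod_cast (card_le_card hΦ).trans_eq (card_range Q)
  have h4 : 3 / 10 ≤ 1 / Real.pi := by
    rw [div_le_div_iff₀ (by norm_num) Real.pi_pos]
    linarith [Real.pi_lt_d2]
  have h5 : 2 * K + 2 ≤ N * (1 / Real.pi - μ) := by
    nlinarith [le_abs_self K, abs_nonneg K]
  have h6 := mul_le_mul_of_nonneg_right ((mul_le_mul_of_nonneg_right h3 hμ.le).trans hμ2)
    (Nat.cast_nonneg s.card)
  rw [nsmul_eq_mul] at h2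
  linarith [mul_le_mul_of_nonneg_left h5 (Nat.cast_nonneg s.card), Nat.cast_nonneg (α := ℝ) s.card]

end Pool.Agent.GK
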