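import Pool.Agent.Lib.MP_a01f70_lc.GK.D1Defs

/-! Riesz products. -/

noncomputable section

namespace Pool.Agent.GK
open Finset Polynomial

variable {n : ℕ}

theorem rz0_sum {M : Type} [AddCommMonoid M] (f : ℤ → M) :
    ∑ a ∈ ({0, 1, -1} : Finset ℤ), f a = f 0 + (f 1 + f (-1)) := by
  rw [sum_insert (by decide), sum_pair (by decide)]

theorem rz0_fac (ε : ℂ) (x : Tc) :
    1 - ε / 2 * ee x + ε / 2 * ee (-x) = 1 - ε * Complex.I * (ee x).im := by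
  have h := Complex.sub_conj (ee x)
  push_cast at h
  rw [ee_neg]
  linear_combination (-ε / 2) * h

theorem rz0_im (x : Tc) : |(ee x).im| ≤ 1 := (Complex.abs_im_le_norm _).trans (norm_ee x).le

theorem mem_Sg {σ : Fin n → ℤ} : σ ∈ Sg n ↔ ∀ k, σ k = 0 ∨ σ k = 1 ∨ σ k = -1 := by
  simp only [Sg, Fintype.mem_piFinset, mem_insert, mem_singleton]

theorem zero_mem_Sg (n : ℕ) : (0 : Fin n → ℤ) ∈ Sg n := by
  exact mem_Sg.2 fun _ => Or.inl rfl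

theorem single_mem_Sg (k : Fin n) {s : ℤ} (hs : s = 1 ∨ s = -1) : Pi.single k s ∈ Sg n := by
  refine mem_Sg.2 fun k' => ?_
  by_cases h : k' = k
  · rw [h, Pi.single_eq_same]
    exact Or.inr hs
  · rw [Pi.single_eq_of_ne h]
    exact Or.inl rfl

/-- `Finset.prod_univ_sum`, `ee_sum`. -/
theorem rz_eq (ε : ℂ) (z : Fin n → Tc) :
    rz ε z = ∑ σ ∈ Sg n, cf ε σ * ee (∑ k, σ k • z k) := by
  have h := prod_univ_sum (fun _ : Fin n => ({0, 1, -1} : Finset ℤ))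
    fun k a => (if a = 0 then 1 else -(a : ℂ) * ε / 2) * ee (a • z k)
  simp only [Sg, cf, ee_sum, ← prod_mul_distrib]
  rw [← h]
  refine prod_congr rfl fun k _ => ?_
  rw [rz0_sum]
  simp [ee_zero]
  ring

theorem sum_norm_cf (n : ℕ) (ε : ℂ) : ∑ σ ∈ Sg n, ‖cf ε σ‖ = (1 + ‖ε‖) ^ n := by
  have h := prod_univ_sum (fun _ : Fin n => ({0, 1, -1} : Finset ℤ))
    fun _ a => ‖if a = 0 then 1 else -(a : ℂ) * ε / 2‖
  simp only [Sg, cf, norm_prod]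
  rw [← h, prod_const, card_univ, Fintype.card_fin, rz0_sum]
  simp

theorem cf_zero (ε : ℂ) : cf ε (0 : Fin n → ℤ) = 1 := by
  simp [cf]

theorem cf_single (ε : ℂ) (k : Fin n) {s : ℤ} (hs : s = 1 ∨ s = -1) :
    cf ε (Pi.single k s) = -(s : ℂ) * ε / 2 := by
  have h : s ≠ 0 := by omega
  rw [cf, Fintype.prod_eq_single k fun k' hk => by rw [Pi.single_eq_of_ne hk, if_pos rfl],
    Pi.single_eq_same, if_neg h]

/-- Each factor is `1 - I ε sin`, of squared norm at most `1 + ε ^ 2 ≤ exp (ε ^ 2)`. -/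
theorem norm_rz_le {N : ℕ} (hN : 0 < N) (z : Fin (N ^ 2) → Tc) : ‖rz (N : ℂ)⁻¹ z‖ ≤ 2 := by
  have hN' : (0 : ℝ) < N := by exact_mod_cast hN
  have h1 : ∀ k, ‖1 - (N : ℂ)⁻¹ / 2 * ee (z k) + (N : ℂ)⁻¹ / 2 * ee (-z k)‖ ^ 2 ≤
      Real.exp ((N : ℝ)⁻¹ ^ 2) := by
    intro k
    have h2 : (1 : ℂ) - (N : ℂ)⁻¹ * Complex.I * (ee (z k)).im =
        (1 : ℝ) + (-((N : ℝ)⁻¹ * (ee (z k)).im) : ℝ) * Complex.I := by
      push_cast
      ring
    have h3 : (ee (z k)).im ^ 2 ≤ 1 := sq_le_one_iff_abs_le_one _ |>.2 (rz0_im _)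
    rw [rz0_fac, h2, Complex.sq_norm, Complex.normSq_add_mul_I]
    have h4 := Real.add_one_le_exp ((N : ℝ)⁻¹ ^ 2)
    nlinarith [sq_nonneg (N : ℝ)⁻¹]
  have h5 : ‖rz (N : ℂ)⁻¹ z‖ ^ 2 ≤ 2 ^ 2 := by
    rw [rz, norm_prod, ← prod_pow]
    refine (prod_le_prod (fun k _ => sq_nonneg _) fun k _ => h1 k).trans ?_
    rw [prod_const, card_univ, Fintype.card_fin, ← Real.exp_nat_mul, Nat.cast_pow, ← mul_pow,
      mul_inv_cancel₀ hN'.ne', one_pow]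
    linarith [Real.exp_one_lt_d9]
  exact le_of_sq_le_sq h5 zero_le_two

/-- Each factor is the real number `1 - (ee (z k)).im ≥ 0`. -/
theorem rz_real (z : Fin n → Tc) : (rz (-Complex.I) z).im = 0 ∧ 0 ≤ (rz (-Complex.I) z).re := by
  have h : rz (-Complex.I) z = ((∏ k, (1 - (ee (z k)).im) : ℝ) : ℂ) := by
    rw [rz, Complex.ofReal_prod]
    refine prod_congr rfl fun k _ => ?_
    rw [rz0_fac, neg_mul, Complex.I_mul_I]
    push_cast
    ring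
  rw [h, Complex.ofReal_im, Complex.ofReal_re]
  exact ⟨rfl, prod_nonneg fun k _ => sub_nonneg.2 (le_of_abs_le (rz0_im _))⟩

theorem eq_single_Sg {σ : Fin n → ℤ} (hσ : σ ∈ Sg n) (h : ∀ k k', σ k ≠ 0 → σ k' ≠ 0 → k = k') :
    σ = 0 ∨ ∃ k s, (s = 1 ∨ s = -1) ∧ σ = Pi.single k s := by
  by_cases h0 : σ = 0
  · exact Or.inl h0
  · obtain ⟨k, hk⟩ := Function.ne_iff.1 h0
    refine Or.inr ⟨k, σ k, (mem_Sg.1 hσ k).resolve_left hk, funext fun k' => ?_⟩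
    by_cases e : k' = k
    · rw [e, Pi.single_eq_same]
    · rw [Pi.single_eq_of_ne e]
      exact by_contra fun h' => e (h k' k h' hk)

end Pool.Agent.GK
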