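import Pool.Agent.Lib.MP_a01f70_lc.GK.D1Defs

/-! Integral multiples of powers. -/

noncomputable section

namespace Pool.Agent.GK
open Finset Polynomial

theorem RzC_geom {κ : ℝ} (h0 : 0 < κ) (h1 : κ ≠ 1) : ∃ C : ℝ, 0 ≤ C ∧ ∀ (T : Finset ℕ) (B : ℝ),
    0 ≤ B → (∀ q ∈ T, κ ^ q ≤ B) → ∑ q ∈ T, κ ^ q ≤ C * B := by
  rcases h1.lt_or_gt with h | h
  · have h2 : 0 < 1 - κ := sub_pos.2 h
    refine ⟨(1 - κ)⁻¹, by positivity, fun T B hB hT => ?_⟩
    rcases T.eq_empty_or_nonempty with rfl | hne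
    · rw [sum_empty]
      positivity
    refine (sum_le_sum_of_subset_of_nonneg (t := Ico (T.min' hne) (T.max' hne + 1))
      (fun q hq => mem_Ico.2 ⟨T.min'_le q hq, Nat.lt_succ_of_le (T.le_max' q hq)⟩)
      fun _ _ _ => by positivity).trans ((geom_sum_Ico_le_of_lt_one h0.le h).trans ?_)
    rw [div_eq_inv_mul]
    exact mul_le_mul_of_nonneg_left (hT _ (T.min'_mem hne)) (by positivity)
  · have h2 : 0 < κ - 1 := sub_pos.2 h
    refine ⟨κ / (κ - 1), by positivity, fun T B hB hT => ?_⟩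
    rcases T.eq_empty_or_nonempty with rfl | hne
    · rw [sum_empty]
      positivity
    refine (sum_le_sum_of_subset_of_nonneg (t := range (T.max' hne + 1))
      (fun q hq => mem_range.2 (Nat.lt_succ_of_le (T.le_max' q hq)))
      fun _ _ _ => by positivity).trans ?_
    rw [geom_sum_eq h1, div_mul_eq_mul_div, div_le_div_iff_of_pos_right h2, pow_succ']
    linarith [mul_le_mul_of_nonneg_left (hT _ (T.max'_mem hne)) h0.le]

theorem RzC_zpow {x : ℂ} (h : Ari x) {n : ℤ} (hn : x ^ (2 * n) = 1) : n = 0 := by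
  by_contra h0
  refine h.pow (2 * n).natAbs (by omega) ?_
  rcases Int.natAbs_eq (2 * n) with e | e
  · rwa [e, zpow_natCast] at hn
  · rwa [e, zpow_neg, inv_eq_one, zpow_natCast] at hn

theorem RzC_max {κ : ℝ} (h0 : 0 < κ) {n : ℤ} (h : 1 < κ ^ n) :
    κ ^ n = max κ κ⁻¹ ^ n.natAbs := by
  obtain ⟨k, rfl | rfl⟩ := n.eq_nat_or_neg
  · rw [zpow_natCast] at h ⊢
    have h1 : 1 < κ := lt_of_not_ge fun h1 => h.not_ge (pow_le_one₀ h0.le h1)
    rw [max_eq_left ((inv_lt_one_of_one_lt₀ h1).trans h1).le, Int.natAbs_natCast]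
  · rw [zpow_neg, zpow_natCast, ← inv_pow] at h ⊢
    have h1 : 1 < κ⁻¹ := lt_of_not_ge fun h1 => h.not_ge (pow_le_one₀ (inv_pos.2 h0).le h1)
    rw [max_eq_right (((one_lt_inv₀ h0).1 h1).trans h1).le, Int.natAbs_neg, Int.natAbs_natCast]

/-- `|a| ‖x‖ ^ q = ‖R‖` on all solutions, and `q` determines `a`. If `‖x‖ = 1` two solutions have
`x ^ (2 (q - q')) = 1`, so there is at most one. Otherwise compare with a geometric series. -/
theorem Ari.geo {x : ℂ} (h : Ari x) : ∃ C : ℝ, 0 ≤ C ∧ ∀ (R : ℂ) (S : Finset (ℤ × ℕ)) (M : ℝ),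
    R ≠ 0 → 0 < M → (∀ p ∈ S, (p.1 : ℂ) * x ^ p.2 = R ∧ M ≤ |(p.1 : ℝ)|) →
      ∑ p ∈ S, 1 / |(p.1 : ℝ)| ≤ C / M := by
  have hκ : 0 < ‖x‖ := norm_pos_iff.2 h.ne
  have inj : ∀ (R : ℂ) (p p' : ℤ × ℕ), (p.1 : ℂ) * x ^ p.2 = R → (p'.1 : ℂ) * x ^ p'.2 = R →
      p.2 = p'.2 → p = p' := fun R p p' e e' h2 => by
    rw [← e', ← h2] at e
    exact Prod.ext (Int.cast_injective (mul_right_cancel₀ (pow_ne_zero _ h.ne) e)) h2
  have nrm : ∀ (R : ℂ) (p : ℤ × ℕ), (p.1 : ℂ) * x ^ p.2 = R → |(p.1 : ℝ)| * ‖x‖ ^ p.2 = ‖R‖ :=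
    fun R p e => by rw [← e, norm_mul, norm_pow, Complex.norm_intCast]
  by_cases h1 : ‖x‖ = 1
  · refine ⟨1, zero_le_one, fun R S M hR hM hS => ?_⟩
    have h2 : S.card ≤ 1 := card_le_one.2 fun p hp p' hp' => by
      have e := (hS p hp).1
      have e' := (hS p' hp').1
      have h3 := (nrm R p e).trans (nrm R p' e').symm
      rw [h1, one_pow, one_pow, mul_one, mul_one, ← sq_eq_sq_iff_abs_eq_abs] at h3
      have h4 : (p.1 : ℂ) ^ 2 = (p'.1 : ℂ) ^ 2 := by exact_mod_cast h3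
      have h5 : (p'.1 : ℂ) ≠ 0 := fun h5 => hR (by rw [← e', h5, zero_mul])
      have h6 : (x ^ p.2) ^ 2 = (x ^ p'.2) ^ 2 := mul_left_cancel₀ (pow_ne_zero 2 h5) (by
        rw [← mul_pow _ (x ^ p'.2), e', ← h4, ← mul_pow, e])
      have h7 := RzC_zpow h (n := (p.2 : ℤ) - p'.2) (by
        rw [mul_comm, zpow_mul, zpow_sub₀ h.ne, zpow_natCast, zpow_natCast, zpow_ofNat, div_pow, h6,
          div_self (pow_ne_zero _ (pow_ne_zero _ h.ne))])
      exact inj R p p' e e' (by omega)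
    refine (sum_le_card_nsmul _ _ (1 / M) fun p hp =>
      one_div_le_one_div_of_le hM (hS p hp).2).trans ?_
    rw [nsmul_eq_mul]
    exact mul_le_of_le_one_left (by positivity) (by exact_mod_cast h2)
  obtain ⟨C, hC, H⟩ := RzC_geom hκ h1
  refine ⟨C, hC, fun R S M hR hM hS => ?_⟩
  have hρ : 0 < ‖R‖ := norm_pos_iff.2 hR
  have h2 : ∀ p ∈ S, 1 / |(p.1 : ℝ)| = ‖x‖ ^ p.2 / ‖R‖ := fun p hp => by
    rw [div_eq_div_iff (hM.trans_le (hS p hp).2).ne' hρ.ne', one_mul, mul_comm, nrm R p (hS p hp).1]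
  rw [sum_congr rfl h2, ← sum_div, ← sum_image (f := fun q => ‖x‖ ^ q) (g := Prod.snd)
    fun p hp p' hp' e => inj R p p' (hS p hp).1 (hS p' hp').1 e, div_le_iff₀ hρ]
  refine (H _ (‖R‖ / M) (by positivity) fun q hq => ?_).trans_eq (by ring)
  obtain ⟨p, hp, rfl⟩ := mem_image.1 hq
  rw [le_div_iff₀' hM, ← nrm R p (hS p hp).1]
  exact mul_le_mul_of_nonneg_right (hS p hp).2 (by positivity)

/-- Induction on the maximum with the bound `1 / 2 - 1 / (2 * max)`. -/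
theorem sum_chain (S : Finset ℕ) (h1 : ∀ a ∈ S, Odd a ∧ 1 < a)
    (h2 : ∀ a ∈ S, ∀ b ∈ S, a < b → a ∣ b) : ∑ a ∈ S, 1 / (a : ℝ) ≤ 1 / 2 := by
  have key : ∀ b : ℕ, 3 ≤ b → (∀ a ∈ S, 3 * a ≤ b) → ∑ a ∈ S, 1 / (a : ℝ) ≤ 1 / 2 - 3 / (2 * b) := by
    induction S using Finset.induction_on_max with
    | empty =>
      intro b hb _
      have : (3 : ℝ) ≤ b := by exact_mod_cast hb
      rw [sum_empty, sub_nonneg, div_le_div_iff₀ (by positivity) two_pos]
      linarith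
    | insert a S ha ih =>
      intro b hb hS
      obtain ⟨⟨k, hk⟩, h3⟩ := h1 a (mem_insert_self _ _)
      have h4 := ih (fun c hc => h1 c (mem_insert_of_mem hc))
        (fun c hc d hd => h2 c (mem_insert_of_mem hc) d (mem_insert_of_mem hd)) a (by omega)
        fun c hc => by
          obtain ⟨d, hd⟩ := h2 c (mem_insert_of_mem hc) a (mem_insert_self _ _) (ha c hc)
          have h5 := ha c hc
          rw [hd, mul_comm 3]
          refine Nat.mul_le_mul_left c (le_of_not_gt fun h6 => ?_)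
          interval_cases d <;> omega
      have h5 : (3 * a : ℝ) ≤ b := by exact_mod_cast hS a (mem_insert_self _ _)
      have h6 : (0 : ℝ) < a := Nat.cast_pos.2 (by omega)
      have h7 : (3 : ℝ) / (2 * b) ≤ 1 / (2 * a) := by
        rw [div_le_div_iff₀ (by linarith) (by linarith)]
        linarith
      have h8 : (3 : ℝ) / (2 * a) = 1 / a + 1 / (2 * a) := by
        field_simp
        ring
      rw [sum_insert fun hc => (ha a hc).false]
      linarith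
  refine (key (3 * (∑ a ∈ S, a + 1)) (by omega) fun a ha => Nat.mul_le_mul_left 3
    (Nat.le_succ_of_le (single_le_sum (f := fun a => a) (fun _ _ => Nat.zero_le _) ha))).trans
    (sub_le_self _ (by positivity))

/-- `a = s x ^ (j - q)` is odd, `|a| = κ ^ (j - q)`, `κ = ‖x‖`, and `|a| ≠ 1` (`Ari.pow`). So
`p ↦ |p.1|` is injective, all exponents `j - q` have the same sign, and for `|a| < |a'|` the rational
number `|a'| / |a|` has an integral power (`|a' / a| ^ |n| = |a| ^ |n' - n|`), so it is an integer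
(`Int.pow_dvd_pow_iff`). `sum_chain`. -/
theorem Ari.chain {x : ℂ} (h : Ari x) (j : ℕ) {s : ℤ} (hs : s = 1 ∨ s = -1) (S : Finset (ℤ × ℕ))
    (hS : ∀ p ∈ S, (p.1 : ℂ) * x ^ p.2 = s * x ^ j ∧ p ≠ (s, j)) :
    ∑ p ∈ S, 1 / |(p.1 : ℝ)| ≤ 1 / 2 := by
  have hκ : 0 < ‖x‖ := norm_pos_iff.2 h.ne
  have h1 : ∀ p ∈ S, (p.1 : ℂ) = s * x ^ ((j : ℤ) - p.2) := fun p hp => by
    rw [zpow_sub₀ h.ne, zpow_natCast, zpow_natCast, ← mul_div_assoc, ← (hS p hp).1,
      mul_div_cancel_right₀ _ (pow_ne_zero _ h.ne)]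
  have h2 : ∀ p ∈ S, (p.1 : ℂ) ^ 2 = x ^ (2 * ((j : ℤ) - p.2)) := fun p hp => by
    rw [h1 p hp, mul_pow, mul_comm 2, zpow_mul, zpow_ofNat]
    rcases hs with rfl | rfl <;> simp
  have h3 : ∀ p ∈ S, (p.1.natAbs : ℝ) = ‖x‖ ^ ((j : ℤ) - p.2) := fun p hp => by
    rw [Nat.cast_natAbs, Int.cast_abs, ← Complex.norm_intCast, h1 p hp, norm_mul, norm_zpow]
    rcases hs with rfl | rfl <;> simp
  have h4 : ∀ p ∈ S, Odd p.1.natAbs ∧ 1 < p.1.natAbs := fun p hp => by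
    have h5 := Int.natAbs_odd.2 (h.odd _ _ (h2 p hp))
    refine ⟨h5, lt_of_le_of_ne h5.pos fun h6 => (hS p hp).2 ?_⟩
    have h7 : p.1 ^ 2 = 1 := by rw [← Int.natAbs_sq, ← h6, Nat.cast_one, one_pow]
    have h8 := RzC_zpow h ((h2 p hp).symm.trans (by exact_mod_cast h7))
    have h9 := h1 p hp
    rw [h8, zpow_zero, mul_one] at h9
    exact Prod.ext (Int.cast_injective h9) (by omega)
  have h5 : ∀ p ∈ S, 1 < ‖x‖ ^ ((j : ℤ) - p.2) := fun p hp => by
    rw [← h3 p hp]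
    exact_mod_cast (h4 p hp).2
  have h6 : ∑ p ∈ S, 1 / |(p.1 : ℝ)| =
      ∑ a ∈ (S.image fun p => p.1.natAbs : Finset ℕ), 1 / (a : ℝ) := by
    rw [sum_image fun p hp p' hp' e => ?_]
    · exact sum_congr rfl fun p _ => by rw [Nat.cast_natAbs, Int.cast_abs]
    · have h7 : ‖x‖ ≠ 1 := fun h7 => by simpa [h7] using h5 p hp
      have h8 : (j : ℤ) - p.2 = j - p'.2 := zpow_right_injective₀ hκ h7
        ((h3 p hp).symm.trans ((congrArg Nat.cast e).trans (h3 p' hp')))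
      exact Prod.ext (Int.cast_injective ((h1 p hp).trans (h8 ▸ (h1 p' hp').symm))) (by omega)
  rw [h6]
  refine sum_chain _ (fun a ha => ?_) fun a ha b hb hab => ?_
  · obtain ⟨p, hp, rfl⟩ := mem_image.1 ha
    exact h4 p hp
  obtain ⟨p, hp, rfl⟩ := mem_image.1 ha
  obtain ⟨p', hp', rfl⟩ := mem_image.1 hb
  have e := (h3 p hp).trans (RzC_max hκ (h5 p hp))
  have e' := (h3 p' hp').trans (RzC_max hκ (h5 p' hp'))
  have hμ : 1 ≤ max ‖x‖ ‖x‖⁻¹ := (le_total 1 ‖x‖).elim le_max_of_le_left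
    fun h7 => le_max_of_le_right ((one_le_inv₀ hκ).2 h7)
  generalize ((j : ℤ) - p.2).natAbs = k at e
  generalize ((j : ℤ) - p'.2).natAbs = k' at e'
  have hk : k ≠ 0 := fun hk => (h4 p hp).2.ne' (by
    rw [hk, pow_zero] at e
    exact_mod_cast e)
  have hkk : k ≤ k' := le_of_not_gt fun h7 => (Nat.cast_lt.2 hab : (_ : ℝ) < _).not_ge (by
    rw [e, e']
    exact pow_le_pow_right₀ hμ h7.le)
  have h7 : p'.1.natAbs ^ k = p.1.natAbs ^ k' := Nat.cast_injective (R := ℝ) (by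
    rw [Nat.cast_pow, Nat.cast_pow, e, e', ← pow_mul, ← pow_mul, mul_comm])
  exact (Nat.pow_dvd_pow_iff hk).1 (h7 ▸ pow_dvd_pow _ hkk)

end Pool.Agent.GK
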