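import Pool.Agent.Lib.MP_a01f70_lc.GK.RzG
import Pool.Agent.Lib.MP_a01f70_lc.GK.RzC

/-! The main term of the Riesz product. -/

noncomputable section

namespace Pool.Agent.GK
open Finset Polynomial

theorem rza_sig {μ : ℝ} (t : Trig μ) (a : ℤ) : |t.σ a| ≤ 2 / Real.pi * (1 / |(a : ℝ)|) := by
  by_cases ha : a = 0
  · subst ha
    rw [t.σ_even 0 (by simp)]
    simp
  · have h1 := t.σ_le a ha
    rwa [← div_div, div_eq_mul_one_div (2 / Real.pi)] at h1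

theorem rza_bound {μ : ℝ} (t : Trig μ) (P : Finset (ℤ × ℕ)) (w : ℂ) (E : ℤ → ℕ → ℂ) {c : ℝ}
    (hc : 0 ≤ c) (hE : ∀ a q, ‖E a q‖ ≤ c) (pr : ℤ × ℕ → Prop) [DecidablePred pr]
    (h0 : ∀ p ∈ P, ¬ pr p → E p.1 p.2 = 0) {B : ℝ}
    (hB : ∑ p ∈ P.filter pr, 1 / |(p.1 : ℝ)| ≤ B) :
    ‖∑ p ∈ P, Complex.I * t.σ p.1 * w * E p.1 p.2‖ ≤ ‖w‖ * c * (2 / Real.pi) * B := by
  have hpi : 0 ≤ 2 / Real.pi := by positivity
  have e1 : ∑ p ∈ P, Complex.I * t.σ p.1 * w * E p.1 p.2 =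
      ∑ p ∈ P.filter pr, Complex.I * t.σ p.1 * w * E p.1 p.2 := by
    rw [Finset.sum_filter]
    refine Finset.sum_congr rfl fun p hp => ?_
    split_ifs with h
    · rfl
    · rw [h0 p hp h, mul_zero]
  rw [e1]
  calc _ ≤ ∑ p ∈ P.filter pr, ‖Complex.I * t.σ p.1 * w * E p.1 p.2‖ := norm_sum_le _ _
    _ ≤ ∑ p ∈ P.filter pr, ‖w‖ * c * (2 / Real.pi) * (1 / |(p.1 : ℝ)|) := by
        refine Finset.sum_le_sum fun p _ => ?_
        rw [norm_mul, norm_mul, norm_mul, Complex.norm_I, one_mul, Complex.norm_real,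
          Real.norm_eq_abs]
        have h1 := rza_sig t p.1
        have h2 := hE p.1 p.2
        calc |t.σ p.1| * ‖w‖ * ‖E p.1 p.2‖
            ≤ (2 / Real.pi * (1 / |(p.1 : ℝ)|)) * ‖w‖ * c := by gcongr
          _ = _ := by ring
    _ = ‖w‖ * c * (2 / Real.pi) * ∑ p ∈ P.filter pr, 1 / |(p.1 : ℝ)| := by
        rw [Finset.mul_sum]
    _ ≤ _ := by gcongr

theorem rza_sum_single {n : ℕ} (x : ℂ) (j : Fin n → ℕ) (k : Fin n) (s : ℤ) :
    ∑ k', (((Pi.single k s : Fin n → ℤ) k' : ℤ) : ℂ) * x ^ j k' = s * x ^ j k := by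
  rw [Finset.sum_eq_single k]
  · simp
  · intro b _ hb
    simp [hb]
  · simp

/-- the contribution of a vector with one nonzero entry -/
theorem rza_single {x : ℂ} (h : Ari x) {N : ℕ} (hN : 0 < N) {μ : ℝ} (t : Trig μ) (Φ : Finset ℕ)
    {n : ℕ} (j : Fin n → ℕ) (k : Fin n) (hj : j k ∈ Φ) {s : ℤ} (hs : s = 1 ∨ s = -1) {c : ℝ}
    (hc : 0 ≤ c) (E : ℤ → ℕ → ℂ) (hE : ∀ a q, ‖E a q‖ ≤ c)
    (h0 : ∀ a ∈ Icc (-(2 * t.M : ℤ)) (2 * t.M), ∀ q ∈ Φ, a * x ^ q + s * x ^ j k ≠ 0 → E a q = 0)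
    (h1 : E (-s) (j k) = c) :
    c / (2 * N) * (1 / Real.pi - μ) ≤ (∑ p ∈ Icc (-(2 * t.M : ℤ)) (2 * t.M) ×ˢ Φ,
      Complex.I * t.σ p.1 * cf (N : ℂ)⁻¹ (Pi.single k s) * E p.1 p.2).im := by
  classical
  have hM := t.one_le
  have hNr : (0 : ℝ) < N := by exact_mod_cast hN
  have hmem : ((-s, j k) : ℤ × ℕ) ∈ Icc (-(2 * t.M : ℤ)) (2 * t.M) ×ˢ Φ := by
    rw [Finset.mem_product, Finset.mem_Icc]
    refine ⟨⟨?_, ?_⟩, hj⟩ <;> rcases hs with rfl | rfl <;> simp only <;> omega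
  rw [← Finset.add_sum_erase _ _ hmem, Complex.add_im]
  have hs' : -s = 1 ∨ -s = -1 := by omega
  have hw : ‖cf (N : ℂ)⁻¹ (Pi.single k s : Fin n → ℤ)‖ = 1 / (2 * N) := by
    rw [cf_single _ _ hs]
    rcases hs with rfl | rfl <;> simp <;> field_simp
  have hb := rza_bound t ((Icc (-(2 * t.M : ℤ)) (2 * t.M) ×ˢ Φ).erase (-s, j k))
    (cf (N : ℂ)⁻¹ (Pi.single k s : Fin n → ℤ)) E hc hE
    (fun p => (p.1 : ℂ) * x ^ p.2 = ((-s : ℤ) : ℂ) * x ^ j k) (B := 1 / 2) (by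
      intro p hp hp'
      have hp2 := Finset.mem_product.1 (Finset.mem_of_mem_erase hp)
      refine h0 _ hp2.1 _ hp2.2 fun h3 => hp' ?_
      push_cast
      linear_combination h3) (by
      refine h.chain (j k) hs' _ fun p hp => ?_
      have hp2 := Finset.mem_filter.1 hp
      exact ⟨hp2.2, Finset.ne_of_mem_erase hp2.1⟩)
  rw [hw] at hb
  have hb2 := (abs_le.1 ((Complex.abs_im_le_norm _).trans hb)).1
  have hmain : (Complex.I * (t.σ (-s) : ℂ) * cf (N : ℂ)⁻¹ (Pi.single k s : Fin n → ℤ) *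
      E (-s) (j k)).im = t.σ 1 * c / (2 * N) := by
    rw [h1, cf_single _ _ hs]
    have e2 : Complex.I * (t.σ (-s) : ℂ) * (-(s : ℂ) * (N : ℂ)⁻¹ / 2) * (c : ℂ) =
        ((t.σ 1 * c / (2 * N) : ℝ) : ℂ) * Complex.I := by
      have hNc : (N : ℂ) ≠ 0 := by exact_mod_cast hN.ne'
      rcases hs with rfl | rfl
      · rw [t.σ_neg]
        push_cast
        field_simp
      · rw [neg_neg]
        push_cast
        field_simp
    rw [e2, Complex.mul_I_im, Complex.ofReal_re]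
  have h5 : (2 / Real.pi - μ) * c / (2 * N) ≤ t.σ 1 * c / (2 * N) := by
    have := t.σ_one
    gcongr
  have e6 : c / (2 * N) * (1 / Real.pi - μ) =
      (2 / Real.pi - μ) * c / (2 * N) - 1 / (2 * N) * c * (2 / Real.pi) * (1 / 2) := by
    ring
  simp only at hmain hb2 ⊢
  rw [hmain, e6]
  linarith

/-- Take `M₂ ≥ C (1 + 1 / N) ^ (N ^ 2)` with `C` from `Ari.geo`, and `g` from `Ari.gap` for `M₂`.
Bound the inner double sum `F σ` for each `σ`. For `σ = 0` it vanishes (`σ_even` at `a = 0`). For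
`σ = Pi.single k s` the term `(a, q) = (-s, j k)` is `I * t.σ 1 * c / (2 N)`, and the other terms have
total norm at most `c / (2 π N)` (`σ_le`, `Ari.chain` for `-s`). For the other `σ` the sum
`∑ σ k x ^ j k` is not zero (gap with `a = 0`), all solutions have `|a| > M₂`, so
`‖F σ‖ ≤ ‖cf σ‖ c C / M₂`; `sum_norm_cf`. The `2 N ^ 2` vectors `Pi.single k s` are distinct. -/
theorem rz_main {x : ℂ} (h : Ari x) {N : ℕ} (hN : 0 < N) : ∃ g : ℕ, 0 < g ∧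
    ∀ (μ : ℝ) (t : Trig μ) (Φ : Finset ℕ) (j : Fin (N ^ 2) → ℕ), (∀ k, j k ∈ Φ) →
      (∀ k k', k < k' → j k + g ≤ j k') →
      ∀ (c : ℝ) (Ev : ℤ → ℕ → (Fin (N ^ 2) → ℤ) → ℂ), 0 ≤ c → (∀ a q σ, ‖Ev a q σ‖ ≤ c) →
        (∀ a ∈ Icc (-(2 * t.M : ℤ)) (2 * t.M), ∀ q ∈ Φ, ∀ σ ∈ Sg (N ^ 2),
          a * x ^ q + ∑ k, σ k * x ^ j k ≠ 0 → Ev a q σ = 0) →
        (∀ k s, s = 1 ∨ s = -1 → Ev (-s) (j k) (Pi.single k s) = c) →
        c * (N * (1 / Real.pi - μ) - 1) ≤ (∑ σ ∈ Sg (N ^ 2), ∑ q ∈ Φ,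
          ∑ a ∈ Icc (-(2 * t.M : ℤ)) (2 * t.M),
            Complex.I * t.σ a * cf (N : ℂ)⁻¹ σ * Ev a q σ).im := by
  classical
  obtain ⟨C, hC, hgeo⟩ := h.geo
  set M₂ : ℕ := ⌈C * (1 + ‖(N : ℂ)⁻¹‖) ^ (N ^ 2)⌉₊ + 1 with hM₂
  obtain ⟨g, hg, hgap⟩ := h.gap M₂
  refine ⟨g, hg, fun μ t Φ j hj hjg c Ev hc hE h0 h1 => ?_⟩
  have hNr : (0 : ℝ) < N := by exact_mod_cast hN
  have hM0 : (0 : ℝ) < M₂ := by rw [hM₂]; positivity
  have hM1 : C * (1 + ‖(N : ℂ)⁻¹‖) ^ (N ^ 2) ≤ M₂ := by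
    rw [hM₂]
    push_cast
    linarith [Nat.le_ceil (C * (1 + ‖(N : ℂ)⁻¹‖) ^ (N ^ 2))]
  set G : (Fin (N ^ 2) → ℤ) → ℂ := fun σ => ∑ p ∈ Icc (-(2 * t.M : ℤ)) (2 * t.M) ×ˢ Φ,
    Complex.I * t.σ p.1 * cf (N : ℂ)⁻¹ σ * Ev p.1 p.2 σ with hG
  have e1 : ∑ σ ∈ Sg (N ^ 2), ∑ q ∈ Φ, ∑ a ∈ Icc (-(2 * t.M : ℤ)) (2 * t.M),
      Complex.I * t.σ a * cf (N : ℂ)⁻¹ σ * Ev a q σ = ∑ σ ∈ Sg (N ^ 2), G σ := by
    refine Finset.sum_congr rfl fun σ _ => ?_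
    rw [hG]
    simp only
    rw [Finset.sum_product_right]
  rw [e1, Complex.im_sum]
  set Si : Finset (Fin (N ^ 2) → ℤ) :=
    ((univ : Finset (Fin (N ^ 2))) ×ˢ ({1, -1} : Finset ℤ)).image fun p => Pi.single p.1 p.2
    with hSi
  have hmem : ∀ σ, σ ∈ Si ↔ ∃ k s, (s = 1 ∨ s = -1) ∧ σ = Pi.single k s := by
    intro σ
    rw [hSi, Finset.mem_image]
    constructor
    · rintro ⟨p, hp, rfl⟩
      refine ⟨p.1, p.2, ?_, rfl⟩
      simpa using (Finset.mem_product.1 hp).2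
    · rintro ⟨k, s, hs, rfl⟩
      exact ⟨(k, s), by simpa using hs, rfl⟩
  have hsub : Si ⊆ Sg (N ^ 2) := by
    intro σ hσ
    obtain ⟨k, s, hs, rfl⟩ := (hmem σ).1 hσ
    exact single_mem_Sg k hs
  have hcard : Si.card = N ^ 2 * 2 := by
    rw [hSi, Finset.card_image_of_injOn]
    · simp
    · rintro ⟨k, s⟩ hp ⟨k', s'⟩ hp' hpp
      have hs : s = 1 ∨ s = -1 := by simpa using hp
      have h2 : (Pi.single k s : Fin (N ^ 2) → ℤ) k = (Pi.single k' s' : Fin (N ^ 2) → ℤ) k :=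
        congrFun hpp k
      by_cases hk : k = k'
      · subst hk
        simp only [Pi.single_eq_same] at h2
        rw [h2]
      · rw [Pi.single_eq_same, Pi.single_eq_of_ne hk] at h2
        omega
  rw [← Finset.sum_sdiff hsub]
  have hA : c * (N * (1 / Real.pi - μ)) ≤ ∑ σ ∈ Si, (G σ).im := by
    have h3 : ∀ σ ∈ Si, c / (2 * N) * (1 / Real.pi - μ) ≤ (G σ).im := by
      intro σ hσ
      obtain ⟨k, s, hs, rfl⟩ := (hmem σ).1 hσ
      refine rza_single h hN t Φ j k (hj k) hs hc (fun a q => Ev a q (Pi.single k s))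
        (fun a q => hE _ _ _) (fun a ha q hq hne => ?_) (h1 k s hs)
      refine h0 a ha q hq _ (single_mem_Sg k hs) ?_
      rwa [rza_sum_single]
    have h4 := Finset.card_nsmul_le_sum Si _ _ h3
    rw [hcard, nsmul_eq_mul] at h4
    refine le_trans (le_of_eq ?_) h4
    push_cast
    field_simp
  have hB : ∀ σ ∈ Sg (N ^ 2) \ Si, -(‖cf (N : ℂ)⁻¹ σ‖ * (c * (C / M₂))) ≤ (G σ).im := by
    intro σ hσ
    obtain ⟨hσ1, hσ2⟩ := Finset.mem_sdiff.1 hσ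
    have hpos : 0 ≤ ‖cf (N : ℂ)⁻¹ σ‖ * (c * (C / M₂)) := by positivity
    by_cases hz : σ = 0
    · have : G σ = 0 := by
        refine Finset.sum_eq_zero fun p hp => ?_
        have hp2 := Finset.mem_product.1 hp
        by_cases ha : p.1 = 0
        · rw [ha, t.σ_even 0 (by simp)]
          simp
        · rw [h0 _ hp2.1 _ hp2.2 _ hσ1, mul_zero]
          subst hz
          simp [ha, h.ne]
      rw [this, Complex.zero_im]
      linarith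
    · have hno : ∀ (a : ℤ) (q : ℕ), |a| ≤ M₂ → a * x ^ q + ∑ k, σ k * x ^ j k ≠ 0 := by
        intro a q ha he
        rcases eq_single_Sg hσ1 (hgap _ j hjg σ hσ1 a q ha he) with h5 | h5
        · exact hz h5
        · exact hσ2 ((hmem σ).2 h5)
      have hR : -∑ k, (σ k : ℂ) * x ^ j k ≠ 0 := by
        have := hno 0 0 (by simp)
        simpa using this
      have hb := rza_bound t (Icc (-(2 * t.M : ℤ)) (2 * t.M) ×ˢ Φ) (cf (N : ℂ)⁻¹ σ)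
        (fun a q => Ev a q σ) hc (fun a q => hE _ _ _)
        (fun p => (p.1 : ℂ) * x ^ p.2 + ∑ k, σ k * x ^ j k = 0) (B := C / M₂)
        (fun p hp hp' => h0 _ (Finset.mem_product.1 hp).1 _ (Finset.mem_product.1 hp).2 _ hσ1 hp')
        (by
          refine hgeo _ _ _ hR hM0 fun p hp => ?_
          have hp2 := (Finset.mem_filter.1 hp).2
          refine ⟨by linear_combination hp2, ?_⟩
          have h6 : (M₂ : ℤ) ≤ |p.1| := by
            by_contra h7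
            exact hno _ _ (not_le.1 h7).le hp2
          exact_mod_cast h6)
      have hb2 := (abs_le.1 ((Complex.abs_im_le_norm _).trans hb)).1
      have hpi : 2 / Real.pi ≤ 1 := by
        rw [div_le_one Real.pi_pos]
        exact Real.two_le_pi
      have h8 : ‖cf (N : ℂ)⁻¹ σ‖ * c * (2 / Real.pi) * (C / M₂) ≤
          ‖cf (N : ℂ)⁻¹ σ‖ * (c * (C / M₂)) := by
        calc _ ≤ ‖cf (N : ℂ)⁻¹ σ‖ * c * 1 * (C / M₂) := by gcongr
          _ = _ := by ring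
      exact le_trans (neg_le_neg h8) hb2
  have hC2 := Finset.sum_le_sum hB
  rw [Finset.sum_neg_distrib, ← Finset.sum_mul] at hC2
  have h9 : ∑ σ ∈ Sg (N ^ 2) \ Si, ‖cf (N : ℂ)⁻¹ σ‖ ≤ (1 + ‖(N : ℂ)⁻¹‖) ^ (N ^ 2) := by
    rw [← sum_norm_cf]
    exact Finset.sum_le_sum_of_subset_of_nonneg Finset.sdiff_subset fun _ _ _ => norm_nonneg _
  have h10 : (∑ σ ∈ Sg (N ^ 2) \ Si, ‖cf (N : ℂ)⁻¹ σ‖) * (c * (C / M₂)) ≤ c := by
    calc _ ≤ (1 + ‖(N : ℂ)⁻¹‖) ^ (N ^ 2) * (c * (C / M₂)) := by gcongr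
      _ = c * ((C * (1 + ‖(N : ℂ)⁻¹‖) ^ (N ^ 2)) / M₂) := by ring
      _ ≤ c * 1 := by
          gcongr
          rwa [div_le_one hM0]
      _ = c := mul_one c
  rw [mul_sub, mul_one]
  linarith

end Pool.Agent.GK
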