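import Pool.Agent.Lib.MP_a01f70_lc.GK.Rz0

/-! Lacunary sums of powers of an algebraic number. -/

noncomputable section

namespace Pool.Agent.GK
open Finset Polynomial

open IntermediateField in
/-- `L = ℚ⟮x⟯` is a number field. If `x` is integral use
`NumberField.Embeddings.pow_eq_one_of_norm_le_one` and `NumberField.place` (or
`NormedField.toAbsoluteValue` composed with the embedding). If not, some valuation of a prime of `𝓞 L`
is greater than one (`IsDedekindDomain.HeightOneSpectrum.mem_integers_of_valuation_le_one`,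
`NumberField.RingOfIntegers.HeightOneSpectrum.adicAbv` or `NumberField.FinitePlace`). -/
theorem exists_abv {x : ℂ} (h : Ari x) :
    ∃ v : AbsoluteValue ℚ⟮x⟯ ℝ, 1 < v (AdjoinSimple.gen ℚ x) := by
  have : FiniteDimensional ℚ ℚ⟮x⟯ := adjoin.finiteDimensional h.alg.isIntegral
  have : NumberField ℚ⟮x⟯ := ⟨⟩
  have hg : algebraMap ℚ⟮x⟯ ℂ (AdjoinSimple.gen ℚ x) = x := AdjoinSimple.algebraMap_gen ℚ x
  generalize AdjoinSimple.gen ℚ x = y at hg
  by_contra hv
  simp only [not_exists, not_lt] at hv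
  have h1 : IsIntegral ℤ y := by
    obtain ⟨z, rfl⟩ := IsDedekindDomain.HeightOneSpectrum.mem_integers_of_valuation_le_one
      (R := NumberField.RingOfIntegers ℚ⟮x⟯) _ y fun p =>
        (WithZeroMulInt.toNNReal_le_one_iff one_lt_two).1 (hv (p.adicAbv one_lt_two))
    exact z.isIntegral_coe
  obtain ⟨n, hn, e⟩ := NumberField.Embeddings.pow_eq_one_of_norm_le_one ℚ⟮x⟯ ℂ
    (fun e => h.ne (by rw [← hg, e, map_zero])) h1 fun φ => hv (NumberField.place φ)
  exact h.pow n hn (by rw [← hg, ← map_pow, e, map_one])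

theorem RzG_step {A : Type} [AddCommMonoid A] {n : ℕ} (f : Fin n → A) (k : Fin n) :
    ∑ i with i.val < k.val + 1, f i = f k + ∑ i with i.val < k.val, f i := by
  rw [← sum_insert (by simp)]
  refine sum_congr (Finset.ext fun i => ?_) fun _ _ => rfl
  simp only [mem_filter, mem_univ, true_and, mem_insert, Fin.ext_iff]
  omega

theorem RzG_lac {w : ℝ} (hw : 1 < w) {g n : ℕ} (hg : 4 ≤ w ^ g) {j : Fin n → ℕ}
    (hj : ∀ k k', k < k' → j k + g ≤ j k') (m : ℕ) : m ≤ n → ∀ T : ℕ,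
      (∀ i : Fin n, i.val < m → j i + g ≤ T) →
      (∑ i with i.val < m, w ^ j i) * w ^ g ≤ 2 * w ^ T := by
  induction m with
  | zero =>
    intro _ T _
    simp only [Nat.not_lt_zero, filter_false, sum_empty, zero_mul]
    positivity
  | succ m ih =>
    intro hm T hT
    have h1 := ih (by omega) (j ⟨m, hm⟩) fun i hi => hj i _ hi
    have h2 : w ^ j ⟨m, hm⟩ * w ^ g ≤ w ^ T := by
      rw [← pow_add]
      exact pow_le_pow_right₀ hw.le (hT _ m.lt_succ_self)
    have h3 : 0 < w ^ j ⟨m, hm⟩ := by positivity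
    rw [RzG_step _ ⟨m, hm⟩]
    nlinarith

theorem RzG_fin {L : Type} [Field L] (v : AbsoluteValue L ℝ) {y : L} (hy : 1 < v y) (a : L) {s : L}
    (hs : v s = 1) :
    ∀ᶠ g : ℕ in Filter.atTop, ∀ t : ℤ, a * y ^ t + s ≠ 0 → 2 < v (a * y ^ t + s) * v y ^ g := by
  have lim := tendsto_pow_atTop_atTop_of_one_lt hy
  obtain ⟨N, hN⟩ : ∃ N : ℕ, ∀ t : ℤ, 1 / 2 ≤ v a * v y ^ t → v a * v y ^ t ≤ 3 / 2 →
      t ∈ Icc (-(N : ℤ)) N := by
    rcases (v.nonneg a).eq_or_lt with h | h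
    · exact ⟨0, fun t h1 _ => by rw [← h, zero_mul] at h1; linarith⟩
    obtain ⟨N, h1, h2⟩ := ((lim.eventually_gt_atTop (3 / 2 / v a)).and
      (lim.eventually_gt_atTop (2 * v a))).exists
    rw [div_lt_iff₀' h] at h1
    refine ⟨N, fun t a1 a2 => mem_Icc.2 ⟨?_, ?_⟩⟩ <;> by_contra hc
    · have b1 := zpow_le_zpow_right₀ hy.le (not_le.1 hc).le
      rw [zpow_neg, zpow_natCast] at b1
      have b2 := a1.trans (mul_le_mul_of_nonneg_left b1 h.le)
      rw [← div_eq_mul_inv, le_div_iff₀ (by linarith)] at b2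
      linarith
    · have b1 := zpow_le_zpow_right₀ hy.le (not_le.1 hc).le
      rw [zpow_natCast] at b1
      linarith [mul_le_mul_of_nonneg_left b1 h.le]
  have h1 : ∀ᶠ g : ℕ in Filter.atTop, ∀ t ∈ Icc (-(N : ℤ)) N,
      a * y ^ t + s ≠ 0 → 2 < v (a * y ^ t + s) * v y ^ g := by
    refine (Filter.eventually_all_finset _).2 fun t _ => ?_
    by_cases h : a * y ^ t + s = 0
    · exact Filter.Eventually.of_forall fun g hg => absurd h hg
    · exact ((lim.const_mul_atTop (v.pos h)).eventually_gt_atTop 2).mono fun g hg _ => hg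
  filter_upwards [h1, lim.eventually_ge_atTop 4] with g a1 a2 t ht
  by_cases h : v (a * y ^ t + s) ≤ 1 / 2
  · have b1 := v.abs_abv_sub_le_abv_sub (a * y ^ t) (-s)
    rw [sub_neg_eq_add, v.map_neg, hs, v.map_mul, map_zpow₀, abs_le] at b1
    exact a1 t (hN t (by linarith [b1.1]) (by linarith [b1.2])) ht
  · nlinarith [not_le.1 h]

/-- Let `w = v y > 1`, and let `k₁ > k₂` be the two largest indices with `σ ≠ 0`. For `w ^ g ≥ 4` the
sum over `k < k₁`, divided by `y ^ j k₁`, has absolute value in `(0, 2 w ^ (-g)]`. So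
`u = a y ^ (q - j k₁) + σ k₁` has `0 < v u ≤ 2 w ^ (-g) ≤ 1 / 2`; then `a ≠ 0`,
`1 / 2 ≤ v a * w ^ (q - j k₁) ≤ 3 / 2` bounds `|q - j k₁|` in terms of `M`, so `u` lies in a finite set
that depends only on `M`, and `v u ≥ c > 2 w ^ (-g)` for large `g`. -/
theorem gap_of_abv {L : Type} [Field L] [CharZero L] (v : AbsoluteValue L ℝ) {y : L}
    (hy : 1 < v y) (M : ℕ) : ∃ g : ℕ, 0 < g ∧ ∀ (n : ℕ) (j : Fin n → ℕ),
      (∀ k k', k < k' → j k + g ≤ j k') → ∀ σ ∈ Sg n, ∀ (a : ℤ) (q : ℕ), |a| ≤ M →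
        a * y ^ q + ∑ k, σ k * y ^ j k = 0 → ∀ k k', σ k ≠ 0 → σ k' ≠ 0 → k = k' := by
  have h1 : ∀ᶠ g : ℕ in Filter.atTop, ∀ a ∈ Icc (-(M : ℤ)) M, ∀ s ∈ ({1, -1} : Finset ℤ), ∀ t : ℤ,
      a * y ^ t + s ≠ 0 → 2 < v (a * y ^ t + s) * v y ^ g := by
    refine (Filter.eventually_all_finset _).2 fun a _ =>
      (Filter.eventually_all_finset _).2 fun s hs => RzG_fin v hy _ ?_
    rcases mem_insert.1 hs with rfl | hs
    · simp
    · simp [mem_singleton.1 hs]
  obtain ⟨g, ⟨g1, g2⟩, g3⟩ := ((h1.and ((tendsto_pow_atTop_atTop_of_one_lt hy).eventually_ge_atTop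
    4)).and (Filter.eventually_gt_atTop 0)).exists
  refine ⟨g, g3, fun n j hj σ hσ a q ha he k k' hk hk' => ?_⟩
  have hy0 : y ≠ 0 := v.pos_iff.1 (one_pos.trans hy)
  have s1 : ∀ i, σ i ≠ 0 → v (σ i * y ^ j i) = v y ^ j i := fun i hi => by
    rcases mem_Sg.1 hσ i with e | e | e
    · exact absurd e hi
    · simp [e]
    · simp [e]
  have s2 : ∀ m : Fin n, v (∑ i with i.val < m.val, σ i * y ^ j i) * v y ^ g ≤ 2 * v y ^ j m := by
    intro m
    refine le_trans (mul_le_mul_of_nonneg_right ((v.sum_le _ _).trans (sum_le_sum fun i _ => ?_))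
      (by positivity)) (RzG_lac hy g2 hj m m.isLt.le _ fun i hi => hj i m hi)
    by_cases hi : σ i = 0
    · simp [hi]
    · exact (s1 i hi).le
  have s3 : ∀ m ≤ n, (∃ i : Fin n, i.val < m ∧ σ i ≠ 0) →
      ∑ i with i.val < m, (σ i : L) * y ^ j i ≠ 0 := by
    intro m
    induction m with
    | zero => exact fun _ ⟨i, hi, _⟩ => absurd hi i.val.not_lt_zero
    | succ m ih =>
      rintro hm ⟨i, hi, hi'⟩
      rw [RzG_step _ ⟨m, hm⟩]
      by_cases h0 : σ ⟨m, hm⟩ = 0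
      · rw [h0, Int.cast_zero, zero_mul, zero_add]
        refine ih (by omega) ⟨i, lt_of_le_of_ne (by omega) fun e => hi' ?_, hi'⟩
        rw [← h0]
        exact congrArg σ (Fin.ext e)
      · intro e
        have b1 := s2 ⟨m, hm⟩
        rw [eq_neg_of_add_eq_zero_right e, v.map_neg, s1 _ h0] at b1
        nlinarith [pow_pos (one_pos.trans hy) (j ⟨m, hm⟩)]
  by_contra hne
  obtain ⟨k₁, m1, m2⟩ := exists_max_image (univ.filter fun i => σ i ≠ 0) id
    ⟨k, mem_filter.2 ⟨mem_univ _, hk⟩⟩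
  have m3 := (mem_filter.1 m1).2
  have m4 : ∀ i, σ i ≠ 0 → i.val ≤ k₁.val := fun i hi => m2 i (mem_filter.2 ⟨mem_univ _, hi⟩)
  have e1 : ∑ i, (σ i : L) * y ^ j i =
      σ k₁ * y ^ j k₁ + ∑ i with i.val < k₁.val, (σ i : L) * y ^ j i := by
    rw [← RzG_step (fun i => (σ i : L) * y ^ j i) k₁]
    refine (sum_subset (filter_subset _ _) fun i _ hi => ?_).symm
    by_contra h0
    exact hi (mem_filter.2 ⟨mem_univ _, Nat.lt_succ_of_le (m4 i fun e => h0 (by simp [e]))⟩)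
  have e2 := s3 k₁ k₁.isLt.le (by
    by_cases e : k = k₁
    · exact ⟨k', lt_of_le_of_ne (m4 k' hk') fun e' => hne (e.trans (Fin.ext e').symm), hk'⟩
    · exact ⟨k, lt_of_le_of_ne (m4 k hk) fun e' => e (Fin.ext e'), hk⟩)
  have e3 : ∑ i with i.val < k₁.val, (σ i : L) * y ^ j i =
      -((a * y ^ ((q : ℤ) - j k₁) + σ k₁) * y ^ j k₁) := by
    rw [zpow_sub₀ hy0, zpow_natCast, zpow_natCast, add_mul, mul_assoc,
      div_mul_cancel₀ _ (pow_ne_zero _ hy0)]
    rw [e1] at he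
    linear_combination he
  have e4 := s2 k₁
  rw [e3] at e2 e4
  have e5 := g1 a (mem_Icc.2 (abs_le.1 ha)) (σ k₁) (by simpa [m3] using mem_Sg.1 hσ k₁) _
    (left_ne_zero_of_mul (neg_ne_zero.1 e2))
  rw [v.map_neg, v.map_mul, v.map_pow] at e4
  nlinarith [pow_pos (one_pos.trans hy) (j k₁)]

theorem Ari.gap {x : ℂ} (h : Ari x) : Gap x := by
  obtain ⟨v, hv⟩ := exists_abv h
  intro M
  obtain ⟨g, hg, H⟩ := gap_of_abv v hv M
  refine ⟨g, hg, fun n j hj σ hσ a q ha he => H n j hj σ hσ a q ha ?_⟩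
  refine (algebraMap _ ℂ).injective ?_
  simpa only [map_add, map_mul, map_sum, map_pow, map_intCast, map_zero,
    IntermediateField.AdjoinSimple.algebraMap_gen] using he

end Pool.Agent.GK
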