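import Pool.Agent.Lib.MP_a01f70_lc.GK.D1Defs

/-! The test: validity and cost. -/

noncomputable section

namespace Pool.Agent.GK
open Finset Polynomial

variable {m : ℕ} [NeZero m] {A B : GR m ℤ} {e : ℤ} {J : ℕ} {x : ℂ} {R : Resp A B e J x}
  (p : Par R)

omit [NeZero m] in
theorem Valid.sh {X Y : GR m ℤ →+ Tc} (h : Valid A B X Y) (g : ℤ × ℤ) :
    Valid A B (sh X g) (sh Y g) := by
  intro η ξ h1
  exact h (st m (-g) * η) (st m (-g) * ξ) (by rw [mul_assoc, mul_assoc, h1])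

omit [NeZero m] in
theorem ta_sum {ι : Type} (s : Finset ι) {X Y : ι → GR m ℤ →+ Tc} (h : ∀ i, Valid A B (X i) (Y i)) :
    Valid A B (∑ i ∈ s, X i) (∑ i ∈ s, Y i) := fun η ξ h1 => by
  rw [AddMonoidHom.finsetSum_apply, AddMonoidHom.finsetSum_apply]
  exact sum_congr rfl fun i _ => h i η ξ h1

omit [NeZero m] in
theorem Par.valid (β : Finset (ℤ × ℤ)) (k : ℕ) : Valid A B (p.Xs β k) (p.Ys β k) := by
  induction k with
  | zero => exact ta_sum β fun g => R.valid.sh g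
  | succ k ih =>
    intro η ξ h1
    exact congrArg₂ (· + ·) (ih η ξ h1) (ta_sum _ (fun b => R.valid.sh (p.pos k b)) η ξ h1)

theorem ta_fr_le (u v : Tc) : fr (u + v) ≤ fr u + fr v :=
  fr_le_of_coe (add_nonneg (fr_nonneg u) (fr_nonneg v)) (by rw [AddCircle.coe_add, coe_fr, coe_fr])

theorem ta_le_fr (u v : Tc) : fr u + fr v ≤ fr (u + v) + 1 := by
  rcases le_total (fr u + fr v) 1 with h | h
  · linarith [fr_nonneg (u + v)]
  · have h1 := fr_add_coe (x := u) (r := fr v - 1) (by linarith)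
      (by linarith [fr_lt_one u, fr_lt_one v])
    rw [AddCircle.coe_sub, coe_fr, AddCircle.coe_period, sub_zero] at h1
    linarith

theorem ta_smul (i : ℤ) (j : ℕ) :
    2 ^ j • (((2 : ℝ) ^ i / 2 : ℝ) : Tc) = (((2 : ℝ) ^ (i + j) / 2 : ℝ) : Tc) := by
  rw [← AddCircle.coe_nsmul, nsmul_eq_mul, zpow_add₀ two_ne_zero, zpow_natCast, Nat.cast_pow,
    Nat.cast_ofNat, ← mul_div_assoc, mul_comm]

theorem ta_zero {n : ℤ} (hn : 0 < n) : (((2 : ℝ) ^ n / 2 : ℝ) : Tc) = 0 := by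
  obtain ⟨k, rfl⟩ : ∃ k : ℕ, n = 1 + k := ⟨(n - 1).toNat, by omega⟩
  rw [← ta_smul, zpow_one, div_self two_ne_zero, AddCircle.coe_period, smul_zero]

theorem ta_dig {n : ℤ} (hn : n ≠ 0) : dig (((2 : ℝ) ^ n / 2 : ℝ) : Tc) = 0 := by
  rcases lt_or_gt_of_ne hn with h | h
  · have h1 : (2 : ℝ) ^ n < 1 := zpow_lt_one_of_neg₀ one_lt_two h
    rw [dig, fr_of_mem (by positivity) (by linarith), if_neg (by linarith)]
  · rw [ta_zero h, dig_zero]

/-- With the carries `κ j = fr (2 ^ j • z) + fr (2 ^ j • b) - fr (2 ^ j • (z + b)) ∈ {0, 1}` and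
`dig y = 2 fr y - fr (2 • y)` the left side is
`∑ dig (2 ^ j • z) + ∑ dig (2 ^ j • b) - ∑ κ j - κ 0 + κ H`. For `b = 2 ^ i / 2` at most one digit is
one, and if there is one then `2 ^ H • b = 0`, so `κ H = 0`. -/
theorem sum_dig_add (z : Tc) (i : ℤ) (H : ℕ) :
    ∑ j ∈ range H, dig (2 ^ j • (z + (((2 : ℝ) ^ i / 2 : ℝ) : Tc))) ≤
      ∑ j ∈ range H, dig (2 ^ j • z) + 1 := by
  have hd : ∀ j : ℕ, i + j ≠ 0 → dig (2 ^ j • (((2 : ℝ) ^ i / 2 : ℝ) : Tc)) = 0 := fun j hj => by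
    rw [ta_smul, ta_dig hj]
  have hz : 0 < i + H → 2 ^ H • (((2 : ℝ) ^ i / 2 : ℝ) : Tc) = 0 := fun h => by
    rw [ta_smul, ta_zero h]
  generalize (((2 : ℝ) ^ i / 2 : ℝ) : Tc) = b at hd hz ⊢
  have h1 := sum_fr (z + b) H
  have h2 := sum_fr z H
  have h3 := sum_fr b H
  have h4 : ∑ j ∈ range H, fr (2 ^ j • (z + b)) ≤
      ∑ j ∈ range H, fr (2 ^ j • z) + ∑ j ∈ range H, fr (2 ^ j • b) := by
    rw [← sum_add_distrib]
    exact sum_le_sum fun j _ => by rw [smul_add]; exact ta_fr_le _ _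
  have h5 := ta_fr_le z b
  rw [smul_add (2 ^ H)] at h1
  rcases le_or_gt (i + H) 0 with h | h
  · have h6 : ∑ j ∈ range H, dig (2 ^ j • b) = 0 :=
      sum_eq_zero fun j hj => hd j (by have := mem_range.1 hj; omega)
    linarith [ta_le_fr (2 ^ H • z) (2 ^ H • b)]
  · have h6 : ∑ j ∈ range H, dig (2 ^ j • b) ≤ 1 := by
      refine (sum_le_sum (g := fun j => if j = (-i).toNat then 1 else 0) fun j _ => ?_).trans ?_
      · split_ifs with hj
        exacts [dig_le_one _, (hd j (by omega)).le]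
      · rw [sum_ite_eq']
        split_ifs
        exacts [le_rfl, zero_le_one]
    rw [hz h, add_zero] at h1
    rw [hz h, fr_zero] at h3
    linarith

theorem ta_split (f : ℕ → ℝ) (m H : ℕ) :
    ∑ h ∈ range (m * H), f h = ∑ i ∈ range m, ∑ j ∈ range H, f (m * j + i) := by
  induction H with
  | zero => simp
  | succ H ih => simp only [Nat.mul_succ, sum_range_add, ih, sum_range_succ, sum_add_distrib]

theorem ta_st (i j : ℕ) (l : ℤ) : st m (((m * j + i : ℕ) : ℤ), l) = 2 ^ j • st m ((i : ℤ), l) := by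
  induction j with
  | zero => rw [mul_zero, zero_add, pow_zero, one_smul]
  | succ j ih =>
    rw [pow_succ', mul_smul, ← ih, st, st, ← mon_add_sig]
    congr 1
    refine Prod.ext ?_ (add_zero _).symm
    simp only [Prod.fst_add]
    push_cast
    ring

/-- Split `range (m * H)` into the classes modulo `m`; `Z (st (i + m j, l)) = 2 ^ j • Z (st (i, l))`
(`mon_add_sig`). Only one class of one line is changed (`X_st`). -/
theorem cost_add (R : Resp A B e J x) (T H : ℕ) (Z : GR m ℤ →+ Tc) (g : ℤ × ℤ) :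
    cost T H (Z + sh R.X g) ≤ cost T H Z + 1 := by
  have h1 : ∀ l i : ℕ, ∑ j ∈ range H, dig ((Z + sh R.X g) (st m (((m * j + i : ℕ) : ℤ), (l : ℤ)))) ≤
      ∑ j ∈ range H, dig (Z (st m (((m * j + i : ℕ) : ℤ), (l : ℤ)))) +
        if (l : ℤ) - g.2 = 0 ∧ (m : ℤ) ∣ i - g.1 then 1 else 0 := fun l i => by
    simp only [ta_st, map_nsmul]
    rw [AddMonoidHom.add_apply, sh_st, R.X_st, Prod.snd_sub, Prod.fst_sub]
    split_ifs
    · exact sum_dig_add _ _ H
    · rw [add_zero, add_zero]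
  have h2 : ∑ l ∈ range T, ∑ i ∈ range m,
      (if (l : ℤ) - g.2 = 0 ∧ (m : ℤ) ∣ i - g.1 then (1 : ℝ) else 0) ≤ 1 := by
    rw [← sum_product', sum_boole, Nat.cast_le_one, card_le_one]
    intro a ha b hb
    obtain ⟨a1, a2, a3⟩ := mem_filter.1 ha
    obtain ⟨b1, b2, b3⟩ := mem_filter.1 hb
    have a4 := mem_range.1 (mem_product.1 a1).2
    have b4 := mem_range.1 (mem_product.1 b1).2
    have h3 := Int.eq_zero_of_abs_lt_dvd (dvd_sub a3 b3) (by rw [abs_lt]; omega)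
    exact Prod.ext (by omega) (by omega)
  simp only [cost, ta_split _ m H]
  refine (sum_le_sum fun l _ => sum_le_sum fun i _ => h1 l i).trans ?_
  simp only [sum_add_distrib]
  exact add_le_add_right h2 _

theorem ta_cost (R : Resp A B e J x) (T H : ℕ) (Z : GR m ℤ →+ Tc) (s : Finset ℕ) (g : ℕ → ℤ × ℤ) :
    cost T H (Z + ∑ b ∈ s, sh R.X (g b)) ≤ cost T H Z + s.card := by
  induction s using Finset.induction_on with
  | empty => simp
  | insert a s ha ih =>
    rw [sum_insert ha, card_insert_of_notMem ha, add_comm (sh _ _), ← add_assoc, Nat.cast_succ]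
    linarith [cost_add R T H (Z + ∑ b ∈ s, sh R.X (g b)) (g a)]

/-- The junction lies on negative lines. -/
theorem Par.cost_le {β : Finset (ℤ × ℤ)} (hβ : β ⊆ p.Jn) (k : ℕ) :
    cost p.T p.H (p.Xs β k) ≤ k * p.Bn := by
  induction k with
  | zero =>
    rw [Nat.cast_zero, zero_mul]
    refine (sum_eq_zero fun l _ => sum_eq_zero fun h _ => ?_).le
    rw [Par.Xs, AddMonoidHom.finsetSum_apply, sum_eq_zero fun g hg => ?_, dig_zero]
    have h1 := (p.Jn_le g (hβ hg)).1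
    have h2 := p.ln
    have h3 := R.l_pos
    rw [sh_st, R.X_st, if_neg fun h4 => ?_]
    have h5 : (l : ℤ) - g.2 = 0 := h4.1
    omega
  | succ k ih =>
    have h1 : ((p.bits (p.Ys β k) k).card : ℝ) ≤ p.Bn :=
      Nat.cast_le.2 ((card_filter_le _ _).trans_eq (card_range _))
    have h2 := ta_cost R p.T p.H (p.Xs β k) (p.bits (p.Ys β k) k) (p.pos k)
    rw [Par.Xs, Nat.cast_succ]
    linarith

end Pool.Agent.GK
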