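import Pool.Agent.Lib.MP_a01f70_lc.GK.D1Defs

/-! The test: causality. -/

noncomputable section

namespace Pool.Agent.GK
open Finset Polynomial

variable {m : ℕ} {A B : GR m ℤ} {e : ℤ} {J : ℕ} {x : ℂ} {R : Resp A B e J x} (p : Par R)

theorem Par.Wd_pos (k b : ℕ) : Wd e J (p.pos k b) = p.lev k - R.ω := by
  rw [Par.pos, Wd_add, Wd_U]
  simp [Wd, Par.lev]

theorem Par.pos_snd (k b : ℕ) : (p.pos k b).2 = b * (J * p.Q : ℕ) := by
  simp [Par.pos]
  ring

theorem Par.Wd_site (k q : ℕ) : Wd e J (p.site k q) = p.lev k := by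
  rw [Par.site, Wd_add, Wd_add, Wd_U, p.hδ]
  simp [Wd, Par.lev]

theorem Par.site_snd (k q : ℕ) : (p.site k q).2 = p.δ₀.2 + q * J := by
  simp [Par.site]

theorem Par.site_fst (k q : ℕ) : (p.site k q).1 = p.h₀ - k * p.Dp + p.δ₀.1 + q * e := by
  simp [Par.site]

theorem Par.site_add (k q q' : ℕ) : p.site k (q + q') = p.site k q + q' • (e, (J : ℤ)) := by
  rw [Par.site, Par.site, add_nsmul, ← add_assoc]

theorem Par.lev_lt {k k' : ℕ} (h : k < k') : p.lev k' + R.c + p.V < p.lev k := by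
  have h1 : ((R.c + p.V : ℕ) : ℤ) < (J * p.Dp : ℕ) := Int.ofNat_lt.2 p.cD
  have h2 : (0 : ℤ) ≤ (J * p.Dp : ℕ) * (k' - (k + 1 : ℕ)) :=
    mul_nonneg (Int.natCast_nonneg _) (sub_nonneg.2 (Int.ofNat_le.2 h))
  rw [Par.lev, Par.lev]
  push_cast at h1 h2
  linarith

/-- `per`, `PQ`. -/
theorem Par.E_iff {l : ℤ} (hl : (R.l₁ : ℤ) ≤ l) (b : ℕ) :
    R.E (l + b * (J * p.Q : ℕ)) ↔ R.E l := by
  obtain ⟨n, hn⟩ := p.PQ
  have h : ∀ i : ℕ, R.E (l + i * R.P) ↔ R.E l := fun i => by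
    induction i with
    | zero => simp
    | succ i ih =>
      rw [← ih, ← R.per (l + i * R.P) (hl.trans (le_add_of_nonneg_right (by positivity)))]
      push_cast
      rw [add_one_mul, add_assoc]
  rw [← h (b * J * n), hn]
  push_cast
  rw [show (b : ℤ) * (J * (R.P * n)) = b * J * n * R.P by ring]

/-- Induction on `k`: at the sites of level `k' < k` the bit `g` is not seen (`out`), so `Zs` and
`bits` are the same. -/
theorem Par.invisible {β : Finset (ℤ × ℤ)} {g : ℤ × ℤ} (hg : g ∉ β) (h1 : g.2 ≤ -(R.l₁ : ℤ))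
    (k : ℕ) (h2 : ∀ k' < k, Wd e J g + R.ω < p.lev k') :
    p.Ys (insert g β) k = p.Ys β k + sh R.Y g := by
  induction k with
  | zero => exact (sum_insert hg).trans (add_comm _ _)
  | succ k ih =>
    have h3 : ∀ q, sh R.Y g (st m (p.site k q)) = 0 := fun q => by
      have h4 := p.δ_nonneg
      have h5 : (0 : ℤ) ≤ q * J := by positivity
      rw [sh_st]
      refine R.out _ (le_trans ?_ (le_abs_self _)) ?_
      · rw [Prod.snd_sub, p.site_snd]
        linarith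
      · rw [Wd_sub, p.Wd_site]
        linarith [h2 k k.lt_succ_self]
    rw [Par.Ys, Par.Ys, ih fun k' h => h2 k' (h.trans k.lt_succ_self), add_right_comm]
    simp only [Par.bits, Par.Zs, AddMonoidHom.add_apply, h3, add_zero]

theorem Par.stable (β : Finset (ℤ × ℤ)) {k k' : ℕ} (hk : k ≤ k') (γ : ℤ × ℤ)
    (h : ∀ i b, k ≤ i → i < k' → b < p.Bn → R.Y (st m (γ - p.pos i b)) = 0) :
    p.Ys β k' (st m γ) = p.Ys β k (st m γ) := by
  induction k', hk using Nat.le_induction with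
  | base => rfl
  | succ n hn ih =>
    rw [Par.Ys, AddMonoidHom.add_apply, ih fun i b h1 h2 => h i b h1 (h2.trans n.lt_succ_self),
      AddMonoidHom.finsetSum_apply, sum_eq_zero, add_zero]
    intro b hb
    rw [sh_st]
    exact h n b hn n.lt_succ_self (mem_range.1 (mem_filter.1 hb).1)

/-- `far`, `top`. -/
theorem Par.vanish {β : Finset (ℤ × ℤ)} (hβ : β ⊆ p.Jn) (k : ℕ) {γ : ℤ × ℤ}
    (h : p.W₁ + R.ω + R.c < Wd e J γ) : p.Ys β k (st m γ) = 0 := by
  rw [p.stable β k.zero_le, Par.Ys, AddMonoidHom.finsetSum_apply]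
  · refine sum_eq_zero fun g hg => (sh_st _ _ _).trans (R.far _ ?_)
    rw [Wd_sub]
    linarith [(p.Jn_le g (hβ hg)).2]
  · refine fun i b _ _ _ => R.far _ ?_
    have h1 : (0 : ℤ) ≤ J * (i * p.Dp) + p.V := by positivity
    rw [Wd_sub, p.Wd_pos, Par.lev]
    linarith [p.top]

/-- `Finset.sum_powerset_insert`, `invisible`. -/
theorem Par.half_sum {g : ℤ × ℤ} (hg : g ∈ p.Jn) (k : ℕ)
    (h2 : ∀ k' < k, Wd e J g + R.ω < p.lev k') {η : GR m ℤ} (hη : sh R.Y g η = hf)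
    {M : Type} [AddCommMonoid M] (φ : Tc → M) :
    ∑ β ∈ p.Jn.powerset, φ (p.Ys β k η) =
      ∑ β ∈ (p.Jn.erase g).powerset, (φ (p.Ys β k η) + φ (p.Ys β k η + hf)) := by
  rw [sum_add_distrib]
  refine (congrArg (fun s : Finset (ℤ × ℤ) => ∑ β ∈ s.powerset, φ (p.Ys β k η))
    (insert_erase hg)).symm.trans ((sum_powerset_insert (notMem_erase g _) _).trans ?_)
  refine congrArg _ (sum_congr rfl fun β hβ => ?_)
  rw [p.invisible (fun h => notMem_erase g _ (mem_powerset.1 hβ h))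
    ((p.Jn_le g hg).1.trans (neg_le_neg (Int.ofNat_le.2 p.ln))) k h2, AddMonoidHom.add_apply, hη]

end Pool.Agent.GK
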