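import Pool.Agent.Lib.MP_a01f70_lc.GK.TB

/-! The test: flipped sites. -/

noncomputable section

namespace Pool.Agent.GK
open Finset Polynomial

variable {m : ℕ} {A B : GR m ℤ} {e : ℤ} {J : ℕ} {x : ℂ} {R : Resp A B e J x} (p : Par R)

open Classical in
/-- Induction on `b`, `hf_add_hf`. -/
theorem sum_xor (s : ℕ → Prop) (b : ℕ) :
    ∑ b' ∈ range (b + 1), (if Xor (s b') (0 < b' ∧ s (b' - 1)) then hf else 0) =
      if s b then hf else 0 := by
  induction b with
  | zero => by_cases h : s 0 <;> simp [h]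
  | succ b ih =>
    rw [sum_range_succ, ih]
    by_cases h1 : s b <;> by_cases h2 : s (b + 1) <;> simp [h1, h2, hf_add_hf]

open Classical in
/-- The levels `i > k` are not seen (`stable`, `far`, `lev_lt`). On the level `k` the bit of the block
`b'` contributes `hf` for `b' ≤ b` (`flip`, `E_iff`) and `0` for `b' > b` (`back`). -/
theorem Par.flip_val (β : Finset (ℤ × ℤ)) {k b q : ℕ} (hk : k < p.Kn) (hb : b < p.Bn)
    (hq : q ∈ p.Φ) : p.Ys β p.Kn (st m (p.site k (b * p.Q + q))) =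
      p.Ys β k (st m (p.site k (b * p.Q + q))) + if p.Zs (p.Ys β k) k b < 0 then hf else 0 := by
  obtain ⟨-, h1, h2, h3⟩ := mem_filter.1 hq
  have hW : ∀ b', Wd e J (p.site k (b * p.Q + q) - p.pos k b') = R.ω := fun b' => by
    rw [Wd_sub, p.Wd_site, p.Wd_pos]
    ring
  have hs : ∀ b' : ℕ, (p.site k (b * p.Q + q) - p.pos k b').2 =
      p.δ₀.2 + q * J + (b - b' : ℤ) * (J * p.Q : ℕ) := fun b' => by
    rw [Prod.snd_sub, p.site_snd, p.pos_snd]
    push_cast
    ring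
  rw [p.stable β (k := k + 1) hk _ fun i b' hi _ _ => R.far _ (by
      have := p.lev_lt (show k < i from hi)
      rw [Wd_sub, p.Wd_site, p.Wd_pos]
      omega), Par.Ys, AddMonoidHom.add_apply, AddMonoidHom.finsetSum_apply, Par.bits, sum_filter,
    ← sum_subset (range_subset_range.2 hb : range (b + 1) ⊆ _) fun b' _ hb' => ?_]
  · refine congrArg _ (Eq.trans (sum_congr rfl fun b' hb' => ?_)
      ((sum_xor (fun b => p.Zs (p.Ys β k) k b < 0) b).trans (by congr)))
    obtain ⟨d, rfl⟩ := Nat.exists_eq_add_of_le (Nat.le_of_lt_succ (mem_range.1 hb'))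
    have h4 := hs b'
    rw [Nat.cast_add, add_sub_cancel_left] at h4
    rw [sh_st, R.flip _ (h4 ▸ le_add_of_le_of_nonneg h1 (by positivity)) (hW b')
      (h4 ▸ (p.E_iff h1 d).2 h3)]
  · have h4 : (b - b' : ℤ) ≤ -1 := by
      have := mem_range.not.1 hb'
      omega
    have h5 := mul_le_mul_of_nonneg_right h4 (Int.natCast_nonneg (J * p.Q))
    rw [sh_st, R.back _ (by rw [hs]; push_cast at h5 ⊢; linarith) (hW b'), ite_self]

/-- `dig_add_half`. -/
theorem Par.flip_sum (β : Finset (ℤ × ℤ)) {k b : ℕ} (hk : k < p.Kn) (hb : b < p.Bn) :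
    p.Zs (p.Ys β p.Kn) k b = |p.Zs (p.Ys β k) k b| := by
  rw [Par.Zs, sum_congr rfl fun q hq => by rw [p.flip_val β hk hb hq]]
  split_ifs with h
  · rw [abs_of_neg h, Par.Zs, ← sum_neg_distrib]
    refine sum_congr rfl fun q _ => ?_
    rw [hf, dig_add_half]
    ring
  · rw [abs_of_nonneg (not_lt.1 h), Par.Zs]
    simp only [add_zero]

/-- Take `n = (site k (b Q)).2 + n₀` and `g = site k (b Q) - δ`. It lies in the junction (`Jn_mem`; the
level of the site is at least `-|e| T` by `box`; `top`), it is invisible (`lev_lt`); `half_sum` for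
`η = ∑ a q • st (site k (b Q + q))`, `ee_half`. -/
theorem Par.char {k b : ℕ} (hk : k < p.Kn) (hb : b < p.Bn) {a : ℕ → ℤ}
    (h : ∀ n : ℤ, p.n₀ ≤ n → ∃ δ : ℤ × ℤ, n ≤ δ.2 ∧ δ.2 < n + R.D ∧ R.ω - p.V ≤ Wd e J δ ∧
      Wd e J δ ≤ R.ω + R.c ∧ ∑ q ∈ range p.Q, a q • R.Y (st m (δ + q • (e, (J : ℤ)))) = hf) :
    ∑ β ∈ p.Jn.powerset,
      ee (∑ q ∈ range p.Q, a q • p.Ys β k (st m (p.site k (b * p.Q + q)))) = 0 := by
  have hq : b * p.Q < p.Bn * p.Q := Nat.mul_lt_mul_of_pos_right hb p.Q_pos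
  have h0 := (p.box k _ hk hq).1
  have h1 : 0 ≤ (p.site k (b * p.Q)).2 := by
    rw [p.site_snd]
    exact add_nonneg p.δ_nonneg (by positivity)
  have h2 : (p.site k (b * p.Q)).2 ≤ (p.Bn * (J * p.Q) : ℕ) := by
    have h3 : ((b * p.Q : ℕ) : ℤ) + 1 ≤ p.Bn * p.Q := by exact_mod_cast hq
    have h4 := mul_le_mul_of_nonneg_right h3 (Int.natCast_nonneg J)
    rw [p.site_snd, Nat.cast_mul p.Bn, Nat.cast_mul J]
    linarith [p.δ_lt]
  have h3 : -(|e| * (p.Bn * (J * p.Q) : ℕ)) ≤ p.lev k := by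
    rw [← p.site_fst] at h0
    rw [← p.Wd_site k (b * p.Q), Wd]
    linarith [mul_nonneg (Int.natCast_nonneg J) h0, mul_le_mul_of_nonneg_right (le_abs_self e) h1,
      mul_le_mul_of_nonneg_left h2 (abs_nonneg e)]
  have h4 : p.lev k - R.ω + p.V ≤ p.W₁ := by
    have : (0 : ℤ) ≤ J * (k * p.Dp) := by positivity
    rw [Par.lev]
    linarith [p.top]
  obtain ⟨δ, a1, a2, a3, a4, a5⟩ := h ((p.site k (b * p.Q)).2 + p.n₀) (by omega)
  have hW : Wd e J (p.site k (b * p.Q) - δ) = p.lev k - Wd e J δ := by rw [Wd_sub, p.Wd_site]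
  have h5 := p.half_sum (g := p.site k (b * p.Q) - δ)
    (p.Jn_mem _ (by rw [Prod.snd_sub]; omega) (by rw [Prod.snd_sub]; omega) (by omega) (by omega))
    k (fun k' hk' => by have := p.lev_lt hk'; omega)
    (η := ∑ q ∈ range p.Q, a q • st m (p.site k (b * p.Q + q))) (by
      rw [← a5, map_sum]
      refine sum_congr rfl fun q _ => ?_
      rw [map_zsmul, sh_st, p.site_add, add_sub_right_comm, sub_sub_cancel]) ee
  simp only [map_sum, map_zsmul] at h5
  rw [h5]
  refine sum_eq_zero fun β _ => ?_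
  rw [ee_add, hf, ee_half]
  ring

end Pool.Agent.GK
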