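import Pool.Agent.Lib.MP_a01f70_lc.GK.TB

/-! The test: unbiased sites. -/

noncomputable section

namespace Pool.Agent.GK
open Finset Polynomial

variable {m : ℕ} {A B : GR m ℤ} {e : ℤ} {J : ℕ} {x : ℂ} {R : Resp A B e J x} (p : Par R)

theorem Wd_eq_zero (hc : IsCoprime e J) (hJ : 0 < J) {δ : ℤ × ℤ} (h : Wd e J δ = 0) :
    ∃ n : ℤ, δ = n • (e, (J : ℤ)) := by
  have h1 : (J : ℤ) * δ.1 = e * δ.2 := sub_eq_zero.1 h
  obtain ⟨n, hn⟩ : (J : ℤ) ∣ δ.2 := hc.symm.dvd_of_dvd_mul_left ⟨δ.1, h1.symm⟩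
  refine ⟨n, Prod.ext (mul_left_cancel₀ (Nat.cast_ne_zero.2 hJ.ne' : (J : ℤ) ≠ 0) ?_) ?_⟩
  · rw [h1, hn, Prod.smul_fst, smul_eq_mul]
    ring
  · rw [hn, Prod.smul_snd, smul_eq_mul, mul_comm]

/-- `γ = site i n` with `n = b' Q + q` (`Wd_eq_zero`); `¬ Near` for `b'` and `b' + 1` gives the two
inequalities in `Φ`, and `E_iff` the third condition. -/
theorem Par.flip_of_E {γ : ℤ × ℤ} (h1 : 0 ≤ γ.2) (h2 : γ.2 < p.T) (hN : ¬ p.Near γ) {i b : ℕ}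
    (hi : i < p.Kn) (hW : Wd e J γ = p.lev i) (h3 : (R.l₁ : ℤ) ≤ γ.2 - b * (J * p.Q : ℕ))
    (hE : R.E (γ.2 - b * (J * p.Q : ℕ))) : p.Flip γ := by
  classical
  obtain ⟨n, hn⟩ := Wd_eq_zero R.cop R.J_pos (δ := γ - p.site i 0)
    (by rw [Wd_sub, hW, p.Wd_site, sub_self])
  have hJ : (0 : ℤ) < J := Nat.cast_pos.2 R.J_pos
  have d0 := p.δ_nonneg
  have d1 := p.δ_lt
  have hs : γ.2 = p.δ₀.2 + n * J := by
    have h4 := congrArg Prod.snd hn
    rw [Prod.snd_sub, p.site_snd, Prod.smul_snd, smul_eq_mul] at h4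
    push_cast at h4
    linarith
  obtain ⟨N, rfl⟩ := Int.eq_ofNat_of_zero_le (a := n) (by
    by_contra h4
    nlinarith [mul_le_mul_of_nonneg_right (show n ≤ -1 by omega) hJ.le])
  have hγ : γ = p.site i (N / p.Q * p.Q + N % p.Q) := by
    rw [Nat.div_add_mod', ← zero_add N, p.site_add, ← natCast_zsmul, ← hn, add_sub_cancel]
  have hq := Nat.mod_lt N p.Q_pos
  have hb : N / p.Q < p.Bn := by
    rw [Nat.div_lt_iff_lt_mul p.Q_pos, ← Nat.cast_lt (α := ℤ)]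
    refine lt_of_mul_lt_mul_right ?_ hJ.le
    rw [Par.T] at h2
    push_cast at h2 ⊢
    linarith
  generalize N / p.Q = b' at hγ hb
  generalize N % p.Q = q at hγ hq
  have h5 : γ.2 = p.δ₀.2 + q * J + b' * (J * p.Q : ℕ) := by
    rw [hγ, p.site_snd]
    push_cast
    ring
  have h6 : 0 ≤ (q : ℤ) * J := by positivity
  have h7 : ((q : ℤ) + 1) * J ≤ p.Q * J := mul_le_mul_of_nonneg_right (by omega) hJ.le
  have h8 := not_lt.1 fun h => hN ⟨i, b', hi, hb.le, hW.ge, by omega, h⟩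
  have h9 := not_lt.1 fun h => hN ⟨i, b' + 1, hi, hb, hW.ge, by omega, h⟩
  rw [h5, add_sub_cancel_right, abs_of_nonneg (by linarith)] at h8
  rw [h5, abs_of_nonpos (by push_cast; linarith)] at h9
  refine ⟨i, b', q, hi, hb, mem_filter.2 ⟨mem_range.2 hq, h8, by push_cast at h9; linarith, ?_⟩, hγ⟩
  rwa [← p.E_iff h3 b, sub_add_cancel, h5, p.E_iff h8] at hE

/-- `far`, `out`, `back`, `flop`, `flip_of_E`. -/
theorem Par.unseen {γ : ℤ × ℤ} (h1 : 0 ≤ γ.2) (h2 : γ.2 < p.T) (hN : ¬ p.Near γ)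
    (hF : ¬ p.Flip γ) {i b : ℕ} (hi : i < p.Kn) (hb : b < p.Bn) (hW : p.lev i ≤ Wd e J γ) :
    R.Y (st m (γ - p.pos i b)) = 0 := by
  have e1 : Wd e J (γ - p.pos i b) = Wd e J γ - p.lev i + R.ω := by
    rw [Wd_sub, p.Wd_pos]
    ring
  have e2 : (γ - p.pos i b).2 = γ.2 - b * (J * p.Q : ℕ) := by rw [Prod.snd_sub, p.pos_snd]
  rcases lt_or_ge (p.lev i + R.c) (Wd e J γ) with h3 | h3
  · exact R.far _ (by omega)
  have h4 := not_lt.1 fun h => hN ⟨i, b, hi, hb.le, hW, h3, h⟩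
  rcases hW.lt_or_eq with h5 | h5
  · exact R.out _ (by rwa [e2]) (by omega)
  rcases le_abs'.1 h4 with h6 | h6
  · exact R.back _ (by rwa [e2]) (by omega)
  · exact R.flop _ (by rwa [e2]) (by omega) fun h7 =>
      hF (p.flip_of_E h1 h2 hN hi h5.symm h6 (by rwa [← e2]))

/-- Let `k ≤ Kn` be least with `k = Kn` or `lev k ≤ Wd γ`; `stable` from `k` to `Kn` by `unseen`
(`lev_lt`). Take `δ` from `win` at `γ.2 + n₀`, `g = γ - δ`; `half_sum` with `φ = dig`, `dig_add_half`. -/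
theorem Par.generic {γ : ℤ × ℤ} (h0 : 0 ≤ γ.1) (h1 : 0 ≤ γ.2) (h2 : γ.2 < p.T)
    (h3 : Wd e J γ ≤ p.W₁ + R.ω) (hN : ¬ p.Near γ) (hF : ¬ p.Flip γ) :
    ∑ β ∈ p.Jn.powerset, dig (p.Ys β p.Kn (st m γ)) = (p.Jn.powerset.card : ℝ) / 2 := by
  classical
  have hk : ∃ k, k = p.Kn ∨ p.lev k ≤ Wd e J γ := ⟨_, Or.inl rfl⟩
  have k1 : Nat.find hk ≤ p.Kn := Nat.find_min' hk (Or.inl rfl)
  have k2 : ∀ k' < Nat.find hk, Wd e J γ < p.lev k' := fun k' h =>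
    not_le.1 fun h' => Nat.find_min hk h (Or.inr h')
  have k3 := Nat.find_spec hk
  generalize Nat.find hk = k at k1 k2 k3
  have hs : ∀ β, p.Ys β p.Kn (st m γ) = p.Ys β k (st m γ) := fun β =>
    p.stable β k1 γ fun i b i1 i2 hb => p.unseen h1 h2 hN hF i2 hb (by
      rcases i1.lt_or_eq with i3 | rfl
      · have := p.lev_lt i3
        omega
      · omega)
  have hl := p.ln
  obtain ⟨δ, d1, d2, d3, d4⟩ := R.win (γ.2 + p.n₀) (by omega)
  have e1 : Wd e J (γ - δ) = Wd e J γ - R.ω := by rw [Wd_sub, d3]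
  have e2 : -(|e| * (p.T : ℤ)) ≤ Wd e J γ := by
    have := mul_le_mul (le_abs_self e) h2.le h1 (abs_nonneg e)
    have := mul_nonneg (Nat.cast_nonneg (α := ℤ) J) h0
    rw [Wd]
    linarith
  have hg := p.Jn_mem (γ - δ) (by rw [Prod.snd_sub]; omega) (by rw [Prod.snd_sub]; omega)
    (by rw [e1, ← Par.T]; omega) (by omega)
  have hη : sh R.Y (γ - δ) (st m γ) = hf := by
    rw [sh_st, sub_sub_cancel]
    exact R.flip δ (by omega) d3 d4
  have h4 := fun φ : Tc → ℝ => p.half_sum hg k (fun k' h => by have := k2 k' h; omega) hη φ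
  simp only [hs]
  rw [h4 dig, div_eq_mul_inv, ← nsmul_eq_mul, ← sum_const, h4 fun _ => 2⁻¹]
  exact sum_congr rfl fun β _ => by rw [hf, dig_add_half]; norm_num

end Pool.Agent.GK
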