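import Pool.Agent.Lib.MP_a01f70_lc.GK.TB

/-! The test: counting sites. -/

noncomputable section

namespace Pool.Agent.GK
open Finset Polynomial

variable {m : ℕ} {A B : GR m ℤ} {e : ℤ} {J : ℕ} {x : ℂ} {R : Resp A B e J x} (p : Par R)

open Classical in
/-- The level and the line determine the site. -/
theorem Par.card_near (S : Finset (ℕ × ℕ)) :
    (S.filter fun γ => p.Near ((γ.1 : ℤ), (γ.2 : ℤ))).card ≤
      p.Kn * (p.Bn + 1) * ((R.c + 1) * (2 * R.l₁)) := by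
  refine (card_le_card_of_injOn (t := (range p.Kn ×ˢ range (p.Bn + 1)).biUnion fun t =>
      Icc (p.lev t.1) (p.lev t.1 + R.c) ×ˢ
        Ico ((t.2 : ℤ) * (J * p.Q : ℕ) - R.l₁) (t.2 * (J * p.Q : ℕ) + R.l₁))
    (fun γ => (Wd e J ((γ.1 : ℤ), (γ.2 : ℤ)), (γ.2 : ℤ))) (fun γ hγ => ?_) fun γ _ γ' _ h => ?_).trans
    ((card_biUnion_le_card_mul _ _ ((R.c + 1) * (2 * R.l₁)) fun t _ => le_of_eq ?_).trans_eq ?_)
  · obtain ⟨k, b, hk, hb, h1, h2, h3⟩ := (mem_filter.1 hγ).2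
    obtain ⟨h4, h5⟩ := abs_lt.1 h3
    exact mem_biUnion.2 ⟨(k, b), mem_product.2 ⟨mem_range.2 hk, mem_range.2 (Nat.lt_succ_of_le hb)⟩,
      mem_product.2 ⟨mem_Icc.2 ⟨h1, h2⟩, mem_Ico.2 ⟨by linarith, by linarith⟩⟩⟩
  · obtain ⟨h1, h2⟩ := Prod.mk.inj h
    simp only [Wd, h2, sub_left_inj] at h1
    exact Prod.ext (Nat.cast_injective (mul_left_cancel₀ (Nat.cast_ne_zero.2 R.J_pos.ne') h1))
      (Nat.cast_injective h2)
  · rw [card_product, Int.card_Icc, Int.card_Ico]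
    congr 1 <;> omega
  · rw [card_product, card_range, card_range]

open Classical in
/-- `W_def`: such a site has `m H - (c + 1 + 2 |e| T) ≤ γ.1`. -/
theorem Par.card_low :
    ((range (m * p.H) ×ˢ range p.T).filter fun γ : ℕ × ℕ =>
      p.W₁ + R.ω < Wd e J ((γ.1 : ℤ), (γ.2 : ℤ))).card ≤
        (R.c + 1 + 2 * e.natAbs * p.T) * p.T := by
  refine (card_le_card (t := Ico (m * p.H - (R.c + 1 + 2 * e.natAbs * p.T)) (m * p.H) ×ˢ range p.T)
    fun γ hγ => ?_).trans ?_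
  · obtain ⟨h1, h2⟩ := mem_filter.1 hγ
    obtain ⟨h3, h4⟩ := mem_product.1 h1
    refine mem_product.2 ⟨mem_Ico.2 ⟨?_, mem_range.1 h3⟩, h4⟩
    have h5 : ((γ.1 : ℕ) : ℤ) ≤ (m * p.H : ℕ) := Nat.cast_le.2 (mem_range.1 h3).le
    have h6 : ((γ.2 : ℕ) : ℤ) ≤ p.T := Nat.cast_le.2 (mem_range.1 h4).le
    have h7 : p.W₁ + R.ω + R.c + 1 + |e| * p.T = J * (m * p.H : ℕ) := p.W_def
    have h8 := mul_le_mul (neg_le_abs e) h6 (Nat.cast_nonneg _) (abs_nonneg e)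
    have h9 := le_mul_of_one_le_left (sub_nonneg.2 h5) (Nat.one_le_cast.2 R.J_pos : (1 : ℤ) ≤ J)
    simp only [Wd] at h2
    rw [tsub_le_iff_right, ← Nat.cast_le (α := ℤ)]
    simp only [Nat.cast_add, Nat.cast_mul _ p.T, Nat.cast_mul 2, Int.natCast_natAbs, Nat.cast_one,
      Nat.cast_ofNat]
    linarith
  · rw [card_product, Nat.card_Ico, card_range]
    exact Nat.mul_le_mul_right _ (by omega)

theorem Par.tea_box {k b q : ℕ} (hk : k < p.Kn) (hb : b < p.Bn) (hq : q ∈ p.Φ) :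
    ∃ γ ∈ range (m * p.H) ×ˢ range p.T, ((γ.1 : ℤ), (γ.2 : ℤ)) = p.site k (b * p.Q + q) := by
  classical
  have h1 : b * p.Q + q < p.Bn * p.Q :=
    (Nat.add_lt_add_left (mem_range.1 (mem_filter.1 hq).1) _).trans_le
      ((Nat.succ_mul _ _).ge.trans (Nat.mul_le_mul_right _ hb))
  obtain ⟨h2, h3⟩ := p.box k _ hk h1
  rw [← p.site_fst] at h2 h3
  have h4 := p.site_snd k (b * p.Q + q)
  have h5 : (((b * p.Q + q + 1) * J : ℕ) : ℤ) ≤ p.T :=
    Nat.cast_le.2 ((Nat.mul_le_mul_right J h1).trans_eq (by rw [Par.T]; ring))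
  rw [Nat.cast_mul, Nat.cast_succ, add_one_mul] at h5
  have h6 : (0 : ℤ) ≤ (b * p.Q + q : ℕ) * J := by positivity
  have h7 := p.δ_nonneg
  have h8 := p.δ_lt
  exact ⟨((p.site k (b * p.Q + q)).1.toNat, (p.site k (b * p.Q + q)).2.toNat),
    mem_product.2 ⟨mem_range.2 (by omega), mem_range.2 (by omega)⟩,
    Prod.ext (Int.toNat_of_nonneg h2) (Int.toNat_of_nonneg (by omega))⟩

theorem Par.tea_inj {k k' b b' q q' : ℕ} (hq : q ∈ p.Φ) (hq' : q' ∈ p.Φ)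
    (h : p.site k (b * p.Q + q) = p.site k' (b' * p.Q + q')) : (k, b, q) = (k', b', q') := by
  classical
  have h1 : p.lev k = p.lev k' := by rw [← p.Wd_site, h, p.Wd_site]
  have h2 : k = k' := by
    rcases lt_trichotomy k k' with h3 | h3 | h3
    · have := p.lev_lt h3
      omega
    · exact h3
    · have := p.lev_lt h3
      omega
  have h3 := congrArg Prod.snd h
  rw [p.site_snd, p.site_snd, add_right_inj] at h3
  have h4 := Nat.cast_injective (mul_right_cancel₀ (Nat.cast_ne_zero.2 R.J_pos.ne') h3)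
  have h5 := congrArg (· % p.Q) h4
  simp only [Nat.mul_add_mod', Nat.mod_eq_of_lt (mem_range.1 (mem_filter.1 hq).1),
    Nat.mod_eq_of_lt (mem_range.1 (mem_filter.1 hq').1)] at h5
  rw [h5] at h4
  rw [h2, h5, Nat.eq_of_mul_eq_mul_right p.Q_pos (add_right_cancel h4)]

open Classical in
/-- The map `(k, b, q) ↦ site k (b Q + q)` is injective (`lev_lt`, `site_snd`) with values in the box
(`box`). -/
theorem Par.sum_flip (f : ℤ × ℤ → ℝ) :
    ∑ γ ∈ (range (m * p.H) ×ˢ range p.T).filter fun γ : ℕ × ℕ => p.Flip ((γ.1 : ℤ), (γ.2 : ℤ)),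
      f ((γ.1 : ℤ), (γ.2 : ℤ)) =
      ∑ k ∈ range p.Kn, ∑ b ∈ range p.Bn, ∑ q ∈ p.Φ, f (p.site k (b * p.Q + q)) := by
  simp only [← sum_product']
  refine ((sum_image (g := fun γ : ℕ × ℕ => ((γ.1 : ℤ), (γ.2 : ℤ))) fun γ _ γ' _ h => ?_).symm.trans
    (sum_congr ?_ fun _ _ => rfl)).trans (sum_image
      (g := fun t : ℕ × ℕ × ℕ => p.site t.1 (t.2.1 * p.Q + t.2.2)) fun t ht t' ht' h => ?_)
  · obtain ⟨h1, h2⟩ := Prod.mk.inj h
    exact Prod.ext (Nat.cast_injective h1) (Nat.cast_injective h2)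
  · ext δ
    simp only [mem_image, mem_filter]
    constructor
    · rintro ⟨γ, ⟨-, k, b, q, hk, hb, hq, h⟩, rfl⟩
      exact ⟨(k, b, q), mem_product.2 ⟨mem_range.2 hk, mem_product.2 ⟨mem_range.2 hb, hq⟩⟩, h.symm⟩
    · rintro ⟨t, ht, rfl⟩
      simp only [mem_product, mem_range] at ht
      obtain ⟨γ, h1, h2⟩ := p.tea_box ht.1 ht.2.1 ht.2.2
      exact ⟨γ, ⟨h1, _, _, _, ht.1, ht.2.1, ht.2.2, h2⟩, h2⟩
  · exact p.tea_inj (mem_product.1 (mem_product.1 ht).2).2 (mem_product.1 (mem_product.1 ht').2).2 h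

end Pool.Agent.GK
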