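import Pool.Agent.Lib.MP_a01f70_lc.GK.TC
import Pool.Agent.Lib.MP_a01f70_lc.GK.TD
import Pool.Agent.Lib.MP_a01f70_lc.GK.TEa

/-! The test: the gain. -/

noncomputable section

namespace Pool.Agent.GK
open Finset Polynomial

variable {m : ℕ} {A B : GR m ℤ} {e : ℤ} {J : ℕ} {x : ℂ} {R : Resp A B e J x} (p : Par R)

/-- Sum `2 dig - 1` over `β` and over the box. The flipped sites give `∑ k b β, |Zs|` (`sum_flip`,
`flip_sum`), the sites that are near or low give at least `-card` each (`card_near`, `card_low`), the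
others give `0` (`generic`). `Finset.exists_le_of_sum_le`. -/
theorem Par.count {K : ℝ} (hK : ∀ k < p.Kn, ∀ b < p.Bn,
    K * p.Jn.powerset.card ≤ ∑ β ∈ p.Jn.powerset, |p.Zs (p.Ys β k) k b|) :
    ∃ β ⊆ p.Jn, (m * p.H * p.T : ℝ) + p.Kn * p.Bn * K -
      (p.Kn * (p.Bn + 1) * ((R.c + 1) * (2 * R.l₁)) + (R.c + 1 + 2 * e.natAbs * p.T) * p.T : ℕ) ≤
        2 * cost p.T p.H (p.Ys β p.Kn) := by
  classical
  set P := p.Jn.powerset with hP
  set S := range (m * p.H) ×ˢ range p.T with hS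
  set F : Finset (ℤ × ℤ) → ℤ × ℤ → ℝ := fun β γ => 2 * dig (p.Ys β p.Kn (st m γ)) - 1 with hF
  have hN : (0 : ℝ) ≤ P.card := Nat.cast_nonneg _
  have h1 : ∀ β, 2 * cost p.T p.H (p.Ys β p.Kn) =
      (m * p.H * p.T : ℝ) + ∑ γ ∈ S, F β ((γ.1 : ℤ), (γ.2 : ℤ)) := fun β => by
    rw [cost, sum_comm, hS, ← sum_product', sum_sub_distrib, ← mul_sum, sum_const, card_product,
      card_range, card_range, nsmul_eq_mul]
    push_cast
    ring
  have h2 : (p.Kn * p.Bn * K) * P.card ≤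
      ∑ γ ∈ S.filter fun γ : ℕ × ℕ => p.Flip ((γ.1 : ℤ), (γ.2 : ℤ)),
        ∑ β ∈ P, F β ((γ.1 : ℤ), (γ.2 : ℤ)) := by
    rw [p.sum_flip fun γ => ∑ β ∈ P, F β γ]
    have h3 : (p.Kn * p.Bn * K) * P.card = ∑ _k ∈ range p.Kn, ∑ _b ∈ range p.Bn, K * P.card := by
      rw [sum_const, sum_const, card_range, card_range, nsmul_eq_mul, nsmul_eq_mul]
      ring
    rw [h3]
    refine sum_le_sum fun k hk => sum_le_sum fun b hb => ?_
    rw [sum_comm]
    refine (hK k (mem_range.1 hk) b (mem_range.1 hb)).trans_eq (sum_congr rfl fun β _ => ?_)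
    exact (p.flip_sum β (mem_range.1 hk) (mem_range.1 hb)).symm
  set U := S.filter fun γ : ℕ × ℕ =>
    p.Near ((γ.1 : ℤ), (γ.2 : ℤ)) ∨ p.W₁ + R.ω < Wd e J ((γ.1 : ℤ), (γ.2 : ℤ)) with hU
  have h4 : U.card ≤ p.Kn * (p.Bn + 1) * ((R.c + 1) * (2 * R.l₁)) +
      (R.c + 1 + 2 * e.natAbs * p.T) * p.T := by
    rw [hU, filter_or]
    exact (card_union_le _ _).trans (add_le_add (p.card_near S) p.card_low)
  have h5 : -((U.card : ℝ) * P.card) ≤
      ∑ γ ∈ S.filter fun γ : ℕ × ℕ => ¬ p.Flip ((γ.1 : ℤ), (γ.2 : ℤ)),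
        ∑ β ∈ P, F β ((γ.1 : ℤ), (γ.2 : ℤ)) := by
    rw [← nsmul_eq_mul, ← sum_const, hU, sum_filter, sum_filter, ← sum_neg_distrib]
    refine sum_le_sum fun γ hγ => ?_
    have h6 : -(P.card : ℝ) ≤ ∑ β ∈ P, F β ((γ.1 : ℤ), (γ.2 : ℤ)) := by
      have := card_nsmul_le_sum P (fun β => F β ((γ.1 : ℤ), (γ.2 : ℤ))) (-1) fun β _ => by
        have := dig_nonneg (p.Ys β p.Kn (st m ((γ.1 : ℤ), (γ.2 : ℤ))))
        simp only [hF]
        linarith
      simpa using this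
    split_ifs with h7 h8 h8
    · linarith
    · exact h6
    · rw [neg_zero]
    · rw [not_or, not_lt] at h7
      have h9 := p.generic (γ := ((γ.1 : ℤ), (γ.2 : ℤ))) (Int.natCast_nonneg _)
        (Int.natCast_nonneg _) (Int.ofNat_lt.2 (mem_range.1 (mem_product.1 hγ).2)) h7.2 h7.1 h8
      simp only [hF]
      rw [sum_sub_distrib, ← mul_sum, h9, sum_const, nsmul_eq_mul]
      linarith
  have h10 := mul_le_mul_of_nonneg_right ((Nat.cast_le (α := ℝ)).2 h4) hN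
  obtain ⟨β, hβ, h⟩ := exists_le_of_sum_le (s := P) ⟨∅, empty_mem_powerset _⟩
    (f := fun _ => (m * p.H * p.T : ℝ) + p.Kn * p.Bn * K -
      (p.Kn * (p.Bn + 1) * ((R.c + 1) * (2 * R.l₁)) + (R.c + 1 + 2 * e.natAbs * p.T) * p.T : ℕ))
    (g := fun β => 2 * cost p.T p.H (p.Ys β p.Kn)) (by
      rw [sum_congr rfl fun β _ => h1 β, sum_add_distrib, sum_comm,
        ← sum_filter_add_sum_filter_not S fun γ : ℕ × ℕ => p.Flip ((γ.1 : ℤ), (γ.2 : ℤ)),
        sum_const, sum_const, nsmul_eq_mul, nsmul_eq_mul]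
      linarith)
  exact ⟨β, mem_powerset.1 hβ, h⟩

end Pool.Agent.GK
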