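import Pool.Agent.Lib.MP_a01f70_lc.GK.TD

/-! The test: choice of the parameters. -/

noncomputable section

namespace Pool.Agent.GK
open Finset Polynomial

variable {m : ℕ} {A B : GR m ℤ} {e : ℤ} {J : ℕ} {x : ℂ} (R : Resp A B e J x)

/-- Bezout. -/
theorem Resp.exists_δ : ∃ δ₀ : ℤ × ℤ, Wd e J δ₀ = R.ω ∧ 0 ≤ δ₀.2 ∧ δ₀.2 < J := by
  obtain ⟨a, b, h⟩ := R.cop
  have hJ : (0 : ℤ) < J := Nat.cast_pos.2 R.J_pos
  refine ⟨(b * R.ω - e * (-(a * R.ω) / J), -(a * R.ω) % J), ?_, Int.emod_nonneg _ hJ.ne',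
    Int.emod_lt_of_pos _ hJ⟩
  rw [Wd, Int.emod_def]
  linear_combination R.ω * h

/-- `win` gives `δ = δ₀ + q₀ • (e, J)` (`Wd_eq_zero`) with `E`; `j k = q₀ + k g P`. -/
theorem Resp.exists_lac {δ₀ : ℤ × ℤ} (h0 : Wd e J δ₀ = R.ω) (h1 : 0 ≤ δ₀.2) (h2 : δ₀.2 < J)
    (g n : ℕ) : ∃ Q : ℕ, 0 < Q ∧ R.P ∣ Q ∧ ∃ j : Fin n → ℕ,
      (∀ k, j k < Q ∧ (R.l₁ : ℤ) ≤ δ₀.2 + j k * J ∧ δ₀.2 + j k * J + R.l₁ ≤ J * Q ∧
        R.E (δ₀.2 + j k * J)) ∧ ∀ k k', k < k' → j k + g ≤ j k' := by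
  obtain ⟨δ, d1, -, d2, d3⟩ := R.win R.l₁ le_rfl
  obtain ⟨q, hq⟩ := Wd_eq_zero R.cop R.J_pos (δ := δ - δ₀) (by rw [Wd_sub, h0, d2, sub_self])
  have hJ : (0 : ℤ) < J := Nat.cast_pos.2 R.J_pos
  have hP := R.P_pos
  have d4 : δ.2 = δ₀.2 + q * J := by
    have := congrArg Prod.snd hq
    simp only [Prod.snd_sub, Prod.smul_snd, smul_eq_mul] at this
    omega
  obtain ⟨q, rfl⟩ := Int.eq_ofNat_of_zero_le (a := q) (by
    by_contra g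
    have := mul_le_mul_of_nonneg_right (show q ≤ -1 by omega) hJ.le
    omega)
  have d5 : ∀ s : ℕ, R.E (δ.2 + s * R.P) := fun s => by
    induction s with
    | zero => simpa using d3
    | succ s ih =>
      rw [Nat.cast_succ, add_one_mul, ← add_assoc]
      exact (R.per _ (le_add_of_le_of_nonneg d1 (by positivity))).2 ih
  obtain ⟨N, hN⟩ : ∃ N, N = q + n * (g * R.P) + R.l₁ + 1 := ⟨_, rfl⟩
  have d6 : N ≤ R.P * N := Nat.le_mul_of_pos_left _ hP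
  refine ⟨R.P * N, by omega, dvd_mul_right _ _, fun k => q + k * (g * R.P), fun k => ?_,
    fun k k' h => ?_⟩
  · have g1 : k * (g * R.P) ≤ n * (g * R.P) := Nat.mul_le_mul_right _ k.isLt.le
    have g2 : J * (q + k * (g * R.P) + R.l₁ + 1) ≤ J * (R.P * N) := Nat.mul_le_mul_left _ (by omega)
    have g3 : R.l₁ ≤ J * R.l₁ := Nat.le_mul_of_pos_left _ R.J_pos
    have g4 : δ₀.2 + (q + k * (g * R.P) : ℕ) * J = δ.2 + (k * g * J : ℕ) * R.P := by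
      rw [d4]
      push_cast
      ring
    beta_reduce
    refine ⟨by omega, ?_, ?_, g4 ▸ d5 _⟩
    · rw [g4]
      exact le_add_of_le_of_nonneg d1 (by positivity)
    · rw [mul_add_one, mul_add, mul_comm J] at g2
      omega
  · have g1 : (k + 1) * (g * R.P) ≤ k' * (g * R.P) := Nat.mul_le_mul_right _ h
    have g2 : g ≤ g * R.P := Nat.le_mul_of_pos_right _ hP
    rw [add_one_mul] at g1
    beta_reduce
    omega

/-- Finitely many coefficient vectors on `range Q`. -/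
theorem Resp.ev_unif (Q M : ℕ) : ∃ V L : ℕ, ∀ a : ℕ → ℤ, (∀ q, |a q| ≤ M) →
    ∑ q ∈ range Q, (a q : ℂ) * x ^ q ≠ 0 → ∀ n : ℤ, L ≤ n →
      ∃ δ : ℤ × ℤ, n ≤ δ.2 ∧ δ.2 < n + R.D ∧ R.ω - V ≤ Wd e J δ ∧ Wd e J δ ≤ R.ω + R.c ∧
        ∑ q ∈ range Q, a q • R.Y (st m (δ + q • (e, (J : ℤ)))) = hf := by
  classical
  choose! V L h using R.ev Q
  let F := (Fintype.piFinset fun _ : Fin Q => Icc (-(M : ℤ)) M).image
    fun b (q : ℕ) => if g : q < Q then b ⟨q, g⟩ else 0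
  refine ⟨F.sup V, F.sup L, fun a ha h0 n hn => ?_⟩
  have h1 : (fun q => if q < Q then a q else 0) ∈ F := mem_image.2
    ⟨fun q => a q, Fintype.mem_piFinset.2 fun q => mem_Icc.2 (abs_le.1 (ha q)), by simp⟩
  have h2 := le_sup (f := V) h1
  have h3 := le_sup (f := L) h1
  obtain ⟨δ, d1, d2, d3, d4, d5⟩ := h (fun q => if q < Q then a q else 0)
    (fun g => h0 (Eq.trans (sum_congr rfl fun q hq => by rw [if_pos (mem_range.1 hq)]) g)) n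
    (by omega)
  exact ⟨δ, d1, d2, by omega, d4,
    Eq.trans (sum_congr rfl fun q hq => by rw [if_pos (mem_range.1 hq)]) d5⟩

/-- `C = |ω| + c + V + 1 + |e| T + |δ₀.1|` with `T = Bn J Q`, `h₀ = m H - C`,
`Kn = (m H - 2 C) / Dp` in `ℕ`, `C₀ = 2 C`; the junction is a finite set because the level and the
line determine the site. -/
theorem Resp.exists_par {δ₀ : ℤ × ℤ} (h0 : Wd e J δ₀ = R.ω) (h1 : 0 ≤ δ₀.2) (h2 : δ₀.2 < J)
    {Q Dp n₀ V : ℕ} (hQ : 0 < Q) (hP : R.P ∣ Q) (hD : R.c + V < J * Dp) (hn : R.l₁ ≤ n₀)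
    (Bn : ℕ) : ∃ C₀ : ℕ, ∀ H : ℕ, ∃ p : Par R, p.Q = Q ∧ p.Dp = Dp ∧ p.Bn = Bn ∧ p.H = H ∧
      p.n₀ = n₀ ∧ p.V = V ∧ p.δ₀ = δ₀ ∧ m * H ≤ (p.Kn + 1) * Dp + C₀ := by
  obtain ⟨T, hT⟩ : ∃ T : ℕ, T = e.natAbs * (Bn * (J * Q)) := ⟨_, rfl⟩
  obtain ⟨C, hC⟩ : ∃ C : ℕ, C = R.ω.natAbs + R.c + V + 1 + T + δ₀.1.natAbs := ⟨_, rfl⟩
  have hT' : |e| * (Bn * (J * Q) : ℕ) = T := by rw [hT, Nat.cast_mul e.natAbs, Int.natCast_natAbs]
  have hJ : (0 : ℤ) < J := Nat.cast_pos.2 R.J_pos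
  have hDp : 0 < Dp := Nat.pos_of_mul_pos_left (a := J) (by omega)
  have hi : Function.Injective fun g : ℤ × ℤ => (Wd e J g, g.2) := fun g g' h => by
    obtain ⟨g1, g2⟩ := Prod.ext_iff.1 h
    simp only [Wd] at g1 g2
    rw [g2, sub_left_inj] at g1
    exact Prod.ext (mul_left_cancel₀ hJ.ne' g1) g2
  refine ⟨2 * C, fun H => ⟨⟨Q, Dp, Bn, (m * H - 2 * C) / Dp, H, n₀, V, (m * H : ℕ) - C,
    J * (m * H : ℕ) - (R.ω + R.c + 1 + T), δ₀,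
    (Icc (-(T : ℤ) - R.ω - R.c) (J * (m * H : ℕ) - (R.ω + R.c + 1 + T)) ×ˢ
      Ioc (-(n₀ : ℤ) - R.D) (-n₀)).preimage _ hi.injOn, h0, h1, h2, hQ, hP, hD, hn, ?_, ?_,
    fun k q hk hq => ?_, fun g hg => ?_, fun g g1 g2 g3 g4 => ?_⟩,
    rfl, rfl, rfl, rfl, rfl, rfl, rfl, ?_⟩⟩
  · have := Nat.le_mul_of_pos_left C R.J_pos
    rw [mul_sub]
    omega
  · rw [hT']
    ring
  · have g1 := (Nat.le_div_iff_mul_le hDp).1 (Nat.succ_le_of_lt hk)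
    have g2 : (q * e).natAbs ≤ T := by
      rw [Int.natAbs_mul, Int.natAbs_natCast, mul_comm, hT]
      exact Nat.mul_le_mul_left _
        (hq.le.trans (Nat.mul_le_mul_left _ (Nat.le_mul_of_pos_left _ R.J_pos)))
    rw [Nat.succ_mul] at g1
    have g3 : (0 : ℤ) ≤ k * Dp := by positivity
    omega
  · simp only [mem_preimage, mem_product, mem_Icc, mem_Ioc] at hg
    exact ⟨hg.2.2, hg.1.2⟩
  · simp only [mem_preimage, mem_product, mem_Icc, mem_Ioc]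
    exact ⟨⟨hT' ▸ g3, g4⟩, g1, g2⟩
  · have := Nat.lt_div_mul_add (a := m * H - 2 * C) hDp
    rw [add_one_mul]
    dsimp only
    omega

end Pool.Agent.GK
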