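import Pool.Agent.Lib.MP_a01f70_lc.GK.TA
import Pool.Agent.Lib.MP_a01f70_lc.GK.TE
import Pool.Agent.Lib.MP_a01f70_lc.GK.TFa
import Pool.Agent.Lib.MP_a01f70_lc.GK.Rz

/-! The test. -/

noncomputable section

namespace Pool.Agent.GK
open Finset Polynomial

variable {m : ℕ} [NeZero m] {A B : GR m ℤ} {e : ℤ} {J : ℕ} {x : ℂ}

/-- `K = 2 ν + 4` with `ν = (c + 1) (2 l₁)`; `riesz`, `exists_lac`, `ev_unif`, `Dp = c + V + 1`,
`n₀ = max l₁ L`, `Bn ≥ 1` with `m Bn > C₁ Dp`, `exists_par`, `Par.char`, `Par.count`, `Par.cost_le`,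
`Par.vanish`. One gets `Kn Bn ≤ C₁ H + C'` with `C'` independent of `H`. -/
theorem Resp.false (R : Resp A B e J x) (hx : Ari x) (h : Ddel A B) : False := by
  classical
  obtain ⟨C₁, hC⟩ := h
  obtain ⟨g, n, hr⟩ := riesz hx (2 * ((R.c + 1) * (2 * R.l₁) : ℕ) + 4)
  obtain ⟨δ₀, h0, h1, h2⟩ := R.exists_δ
  obtain ⟨Q, hQ, hP, j, hj, hj'⟩ := R.exists_lac h0 h1 h2 g n
  obtain ⟨M, hM⟩ := hr Q
  obtain ⟨V, L, hV⟩ := R.ev_unif Q M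
  obtain ⟨Dp, hD⟩ : ∃ Dp, R.c + V < J * Dp := ⟨_, Nat.le_mul_of_pos_left _ R.J_pos⟩
  obtain ⟨n₀, hn, hL⟩ : ∃ n₀, R.l₁ ≤ n₀ ∧ L ≤ n₀ := ⟨_, le_max_left _ _, le_max_right _ _⟩
  obtain ⟨Bn, hB⟩ := exists_nat_ge (max 1 (C₁ * Dp + 1))
  obtain ⟨hB1, hB2⟩ := max_le_iff.1 hB
  obtain ⟨C₀, hp⟩ := R.exists_par h0 h1 h2 hQ hP hD hn Bn
  obtain ⟨C, hC⟩ := hC (Bn * (J * Q))
  obtain ⟨H, hH⟩ := exists_nat_gt ((C + ((R.c + 1 + 2 * e.natAbs * (Bn * (J * Q))) *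
    (Bn * (J * Q)) : ℕ) / 2) * Dp + Bn * Dp + C₀ * Bn)
  obtain ⟨p, rfl, rfl, rfl, rfl, rfl, rfl, rfl, hK⟩ := hp H
  obtain ⟨β, hβ, h3⟩ := p.count fun k hk b hb => hM p.Φ (filter_subset _ _)
    ⟨j, fun k => mem_filter.2 ⟨mem_range.2 (hj k).1, (hj k).2⟩, hj'⟩ _ p.Jn.powerset
    (fun β q => p.Ys β k (st m (p.site k (b * p.Q + q)))) fun a ha hx =>
      p.char hk hb fun n hn => hV a ha hx n ((Int.ofNat_le.2 hL).trans hn)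
  have h4 := p.cost_le hβ p.Kn
  have h5 := hC p.H _ _ (p.valid β p.Kn) fun l hl e' he' =>
    p.vanish hβ p.Kn (γ := (e', l)) (by
      have a1 := p.W_def
      have a2 := mul_le_mul_of_nonneg_left he' (Int.natCast_nonneg J)
      have a3 := mul_le_mul (le_abs_self e) (Int.ofNat_le.2 hl.le) (Int.natCast_nonneg _)
        (abs_nonneg e)
      simp only [Wd]
      linarith)
  simp only [sum_sub_distrib] at h5
  change cost p.T p.H _ - cost p.T p.H _ ≤ m * p.H * p.T / 2 + _ + _ at h5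
  change (C + ((R.c + 1 + 2 * e.natAbs * p.T) * p.T : ℕ) / 2) * _ + _ + _ < _ at hH
  have h6 : (p.H : ℝ) ≤ (p.Kn + 1) * p.Dp + C₀ := by
    exact_mod_cast (Nat.le_mul_of_pos_left _ (Nat.pos_of_neZero m)).trans hK
  rw [Nat.cast_add, Nat.cast_mul (p.Kn * _), Nat.cast_mul p.Kn, Nat.cast_succ p.Bn] at h3
  generalize (((R.c + 1 + 2 * e.natAbs * p.T) * p.T : ℕ) : ℝ) = c₂ at *
  have hν := Nat.cast_nonneg (α := ℝ) ((R.c + 1) * (2 * R.l₁))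
  generalize (((R.c + 1) * (2 * R.l₁) : ℕ) : ℝ) = ν at *
  have h7 := mul_nonneg (mul_nonneg (Nat.cast_nonneg (α := ℝ) p.Kn) hν) (sub_nonneg.2 hB1)
  have h8 : (p.Kn * p.Bn : ℝ) ≤ C₁ * p.H + C + c₂ / 2 := by linarith
  have h9 := mul_le_mul_of_nonneg_right h8 (Nat.cast_nonneg (α := ℝ) p.Dp)
  have h10 := mul_le_mul_of_nonneg_right h6 (Nat.cast_nonneg (α := ℝ) p.Bn)
  have h11 := mul_le_mul_of_nonneg_left hB2 (Nat.cast_nonneg (α := ℝ) p.H)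
  linarith

end Pool.Agent.GK
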