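import Pool.Agent.Lib.MP_a01f70_lc.GK.Bas1
import Pool.Agent.Lib.MP_a01f70_lc.BA.FejB

/-! The Fejer mean of the square wave: symmetries, size and sign. -/

namespace Pool.Agent.GK
open Finset Pool.Agent.Lib.MP_a01f70_lc.BA
open scoped ComplexConjugate

/-- the coefficients -/
noncomputable def teS (M : ℕ) (a : ℤ) : ℝ := if Odd a then 2 * fw M a / (Real.pi * a) else 0

/-- the polynomial -/
noncomputable def teP (M : ℕ) (x : Tc) : ℂ :=
  ∑ a ∈ Icc (-M : ℤ) M, Complex.I * teS M a * ee (a • x)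

theorem te_fw_zero {M : ℕ} {a : ℤ} (h : a ∉ Icc (-M : ℤ) M) : fw M a = 0 := by
  rw [fw, filter_false_of_mem fun p hp => ?_, card_empty, Nat.cast_zero, zero_div]
  obtain ⟨h1, h2⟩ := mem_product.1 hp
  rw [mem_range] at h1 h2
  rw [mem_Icc] at h
  omega

theorem te_fw_ge {M : ℕ} (hM : 1 ≤ M) (a : ℕ) : 1 - (a : ℝ) / M ≤ fw M a := by
  have h0 : (0 : ℝ) < M := Nat.cast_pos.2 hM
  have h1 : M - a ≤ ((range M ×ˢ range M).filter fun p : ℕ × ℕ => (p.1 : ℤ) - p.2 = a).card := by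
    refine (card_range _).ge.trans (card_le_card_of_injOn (fun j => (j + a, j))
      (fun j hj => ?_) fun _ _ _ _ h => congrArg Prod.snd h)
    have h2 := mem_range.1 hj
    exact mem_filter.2 ⟨mem_product.2 ⟨mem_range.2 (by omega : j + a < M),
      mem_range.2 (by omega : j < M)⟩, by simp⟩
  rw [fw, le_div_iff₀ h0, sub_mul, div_mul_cancel₀ _ h0.ne', one_mul, sub_le_iff_le_add,
    ← Nat.cast_add, Nat.cast_le]
  omega

theorem teS_neg (M : ℕ) (a : ℤ) : teS M (-a) = -teS M a := by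
  simp only [teS, odd_neg, fw_neg, Int.cast_neg, mul_neg, div_neg]
  split_ifs
  exacts [rfl, neg_zero.symm]

theorem teS_even (M : ℕ) {a : ℤ} (h : Even a) : teS M a = 0 := if_neg (Int.not_odd_iff_even.2 h)

theorem teS_zero {M : ℕ} {a : ℤ} (h : a ∉ Icc (-M : ℤ) M) : teS M a = 0 := by
  rw [teS, te_fw_zero h, mul_zero, zero_div, ite_self]

theorem te_sum_neg {E : Type} [AddCommMonoid E] (M : ℕ) (f : ℤ → E) :
    ∑ a ∈ Icc (-M : ℤ) M, f (-a) = ∑ a ∈ Icc (-M : ℤ) M, f a :=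
  sum_equiv (Equiv.neg ℤ) (fun a => by simp only [mem_Icc, Equiv.neg_apply]; omega) fun _ _ => rfl

theorem teP_neg (M : ℕ) (x : Tc) : teP M (-x) = -teP M x := by
  rw [teP, teP, ← te_sum_neg, ← sum_neg_distrib]
  refine sum_congr rfl fun a _ => ?_
  rw [teS_neg, neg_smul_neg, Complex.ofReal_neg, mul_neg, neg_mul]

theorem teP_conj (M : ℕ) (x : Tc) : conj (teP M x) = teP M x := by
  rw [← neg_neg (teP M x), ← teP_neg, map_neg, neg_inj, ← neg_inj, ← teP_neg, teP, teP, map_sum,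
    ← sum_neg_distrib]
  refine sum_congr rfl fun a _ => ?_
  rw [smul_neg a (-x), ee_neg]
  simp

theorem te_half (a : ℤ) : ee (a • ((1 / 2 : ℝ) : Tc)) = if Odd a then -1 else 1 := by
  have h : ∀ k : ℤ, (k + k) • ((1 / 2 : ℝ) : Tc) = 0 := fun k => by
    rw [add_smul, ← smul_add, ← AddCircle.coe_add, add_halves, AddCircle.coe_period, smul_zero]
  split_ifs with ha
  · obtain ⟨k, rfl⟩ := ha
    rw [add_smul, two_mul, h, one_smul, zero_add, ee_half]
  · obtain ⟨k, rfl⟩ := Int.not_odd_iff_even.1 ha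
    rw [h, ee_zero]

theorem teP_half (M : ℕ) (x : Tc) : teP M (x + ((1 / 2 : ℝ) : Tc)) = -teP M x := by
  rw [teP, teP, ← sum_neg_distrib]
  refine sum_congr rfl fun a _ => ?_
  rw [smul_add, ee_add, te_half, teS]
  split_ifs <;> simp

theorem te_ex (a : ℤ) (r : ℝ) : ee (a • (r : Tc)) = ex (a * r) := by
  rw [← AddCircle.coe_zsmul, zsmul_eq_mul, ee_coe, ex]

theorem te_der (M : ℕ) (r : ℝ) : HasDerivAt (fun r : ℝ => teP M r)
    ((-2 * (fej M r - fej M (r + 1 / 2)) : ℝ) : ℂ) r := by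
  have h : ∀ a : ℤ, HasDerivAt (fun r : ℝ => Complex.I * teS M a * ee (a • (r : Tc)))
      (Complex.I * teS M a * (ex (a * r) * (2 * Real.pi * Complex.I * a))) r := fun a => by
    simp only [te_ex, ex, Complex.ofReal_mul, ← mul_assoc]
    have h1 := ((Complex.ofRealCLM.hasDerivAt (x := r)).const_mul
      (2 * Real.pi * Complex.I * ((a : ℝ) : ℂ))).cexp.const_mul (Complex.I * teS M a)
    simpa [mul_assoc] using h1
  refine (HasDerivAt.fun_sum fun a _ => h a).congr_deriv ?_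
  rw [Complex.ofReal_mul, Complex.ofReal_sub, fej_eq, fej_eq, ← sum_sub_distrib, mul_sum]
  refine sum_congr rfl fun a _ => ?_
  rw [mul_add, fejB_add, ← te_ex a (1 / 2), te_half, teS]
  split_ifs with ha
  · have h1 : (a : ℂ) ≠ 0 := Int.cast_ne_zero.2 (by rintro rfl; simp at ha)
    have h2 : (Real.pi : ℂ) ≠ 0 := Complex.ofReal_ne_zero.2 Real.pi_ne_zero
    push_cast
    field_simp
    rw [Complex.I_sq]
    ring
  · simp

theorem te_geom (z : ℂ) (m : ℕ) :
    ∑ j ∈ range (2 * m), z ^ j = (1 + z) * ∑ j ∈ range m, (z ^ 2) ^ j := by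
  induction m with
  | zero => simp
  | succ m ih =>
    rw [mul_add_one, sum_range_succ, sum_range_succ, sum_range_succ, ih]
    ring

theorem te_pos (m : ℕ) {t : ℝ} (h1 : -(1 / 4) ≤ t) (h2 : t ≤ 1 / 4) :
    fej (2 * m) (t + 1 / 2) ≤ fej (2 * m) t := by
  have h3 : ex (t + 1 / 2) = -ex t := by
    have := te_ex 1 (1 / 2)
    rw [te_half, if_pos odd_one, Int.cast_one, one_mul] at this
    rw [fejB_add, ← this, mul_neg_one]
  have h4 : 0 ≤ (ex t).re := by
    rw [ex, show (2 * Real.pi * Complex.I * t : ℂ) = ((2 * Real.pi * t : ℝ) : ℂ) * Complex.I by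
      push_cast; ring, Complex.exp_ofReal_mul_I_re]
    exact Real.cos_nonneg_of_mem_Icc ⟨by nlinarith [Real.pi_pos], by nlinarith [Real.pi_pos]⟩
  simp only [fej, fejB_pow, te_geom, h3, neg_sq, norm_mul, mul_pow]
  refine div_le_div_of_nonneg_right (mul_le_mul_of_nonneg_right ?_ (sq_nonneg _)) (Nat.cast_nonneg _)
  simp only [Complex.sq_norm, Complex.normSq_apply, Complex.add_re, Complex.add_im, Complex.neg_re,
    Complex.neg_im, Complex.one_re, Complex.one_im]
  nlinarith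

theorem te_quarter {m : ℕ} (hm : 1 ≤ m) {r : ℝ} (h0 : 0 ≤ r) (h1 : r ≤ 1 / 4) :
    -1 ≤ (teP (2 * m) r).re ∧ (teP (2 * m) r).re ≤ 0 := by
  have hc := continuous_fej (2 * m)
  have hc' : Continuous fun t => fej (2 * m) t - fej (2 * m) (t + 1 / 2) := by fun_prop
  have h2 := intervalIntegral.integral_eq_sub_of_hasDerivAt (a := -r) (b := r)
    (fun t _ => te_der (2 * m) t) (Continuous.intervalIntegrable (by fun_prop) _ _)
  rw [intervalIntegral.integral_ofReal, intervalIntegral.integral_const_mul, AddCircle.coe_neg,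
    teP_neg] at h2
  have h3 := congrArg Complex.re h2
  rw [Complex.ofReal_re, Complex.sub_re, Complex.neg_re] at h3
  have h4 : 0 ≤ ∫ t in -r..r, (fej (2 * m) t - fej (2 * m) (t + 1 / 2)) :=
    intervalIntegral.integral_nonneg (by linarith) fun t ht =>
      sub_nonneg.2 (te_pos m (by linarith [ht.1]) (ht.2.trans h1))
  have h5 : ∫ t in -r..r, (fej (2 * m) t - fej (2 * m) (t + 1 / 2)) ≤
      ∫ t in -r..r, fej (2 * m) t :=
    intervalIntegral.integral_mono_on (by linarith) (hc'.intervalIntegrable _ _)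
      (hc.intervalIntegrable _ _) fun t _ => sub_le_self _ (fej_nonneg _ _)
  have h6 := int_fej (M := 2 * m) (by omega) (1 / 2)
  rw [intervalIntegral.integral_comp_sub_left] at h6
  have h7 : ∫ t in -r..r, fej (2 * m) t ≤ ∫ t in (1 / 2 - 1 : ℝ)..(1 / 2 - 0), fej (2 * m) t :=
    intervalIntegral.integral_mono_interval (by linarith) (by linarith) (by linarith)
      (Filter.Eventually.of_forall fun t => fej_nonneg _ _) (hc.intervalIntegrable _ _)
  constructor <;> linarith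

theorem te_low {m : ℕ} (hm : 1 ≤ m) {r : ℝ} (h0 : 0 ≤ r) (h1 : r ≤ 1 / 2) :
    -1 ≤ (teP (2 * m) r).re ∧ (teP (2 * m) r).re ≤ 0 := by
  rcases le_total r (1 / 4) with h | h
  · exact te_quarter hm h0 h
  · have h2 := te_quarter hm (r := -r + 1 / 2) (by linarith) (by linarith)
    rwa [AddCircle.coe_add, teP_half, AddCircle.coe_neg, teP_neg, neg_neg] at h2

theorem te_sign {m : ℕ} (hm : 1 ≤ m) (x : Tc) :
    |(teP (2 * m) x).re| ≤ 1 ∧ 0 ≤ (2 * dig x - 1) * (teP (2 * m) x).re := by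
  rw [dig, abs_le]
  split_ifs with h
  · have h2 := te_low hm (r := fr x - 1 / 2) (by linarith) (by linarith [fr_lt_one x])
    have h3 := teP_half (2 * m) ((fr x - 1 / 2 : ℝ) : Tc)
    rw [← AddCircle.coe_add, sub_add_cancel, coe_fr] at h3
    rw [h3, Complex.neg_re]
    exact ⟨⟨by linarith [h2.2], by linarith [h2.1]⟩, by linarith [h2.2]⟩
  · have h2 := te_low hm (fr_nonneg x) (not_le.1 h).le
    rw [coe_fr] at h2
    exact ⟨⟨h2.1, by linarith [h2.2]⟩, by linarith [h2.2]⟩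

end Pool.Agent.GK
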