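import Pool.Agent.Lib.MP_a01f70_lc.GK.Vavg
import Pool.Agent.Lib.MP_a01f70_lc.GK.GRb

namespace Pool.Agent.GK
open Finset Polynomial

theorem vari_odd {x y : ℤ} (hx : Odd x) (hy : Odd y) {p q : ℕ} (h : x * 2 ^ p = y * 2 ^ q) :
    x = y := by
  wlog hpq : p ≤ q generalizing x y p q
  · exact (this hy hx h.symm (by omega)).symm
  obtain ⟨r, rfl⟩ := Nat.exists_eq_add_of_le hpq
  have h1 : x = y * 2 ^ r := mul_right_cancel₀ (pow_ne_zero p two_ne_zero) (by rw [h]; ring)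
  rcases r with _ | r
  · rwa [pow_zero, mul_one] at h1
  · exact absurd hx (Int.not_odd_iff_even.2 ⟨y * 2 ^ r, by rw [h1]; ring⟩)

theorem vari_split {a : ℤ} (ha : a ≠ 0) : ∃ (s : ℕ) (b : ℤ), Odd b ∧ a = b * 2 ^ s := by
  obtain ⟨s, b, hb, h⟩ := WfDvdMonoid.max_power_factor ha Int.prime_two.irreducible
  exact ⟨s, b, Int.not_even_iff_odd.1 fun h' => hb h'.two_dvd, h.trans (mul_comm _ _)⟩

theorem vari_two {m : ℕ} [NeZero m] (k : ℕ) (γ : ℤ × ℤ) :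
    ((2 : ℤ) ^ k) • mon m γ = mon m (γ + k • ((m : ℤ), 0)) := by
  rw [mon_add, ← mon_pow, mon_sig, zsmul_eq_mul, mul_comm]
  push_cast
  rfl

/-- a power of `χ (mon δ)` is a power of two -/
theorem vari_pow {m : ℕ} [NeZero m] {e J : ℤ} (hJ : 0 < J) (χ : GR m ℤ →+* ℂ)
    (hU : χ (mon m (e, J)) = 1) (δ : ℤ × ℤ) :
    ∃ N p q : ℕ, N ≠ 0 ∧ χ (mon m δ) ^ N * 2 ^ q = 2 ^ p := by
  let F : Multiplicative (ℤ × ℤ) →* ℂ :=
    { toFun := fun g => χ (mon m g.toAdd)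
      map_one' := by rw [toAdd_one, mon_zero, map_one]
      map_mul' := fun g h => by rw [toAdd_mul, mon_add, map_mul] }
  have hF : ∀ (z : ℤ) (γ : ℤ × ℤ), χ (mon m (z • γ)) = χ (mon m γ) ^ z :=
    fun z γ => map_zpow F (Multiplicative.ofAdd γ) z
  obtain ⟨j, rfl⟩ := Int.eq_ofNat_of_zero_le hJ.le
  obtain ⟨p, q, hpq⟩ : ∃ p q : ℕ, (j : ℤ) * δ.1 - e * δ.2 = p - q :=
    ⟨_, _, (Int.toNat_sub_toNat_neg _).symm⟩
  have h1 : (m * j) • δ + q • ((m : ℤ), (0 : ℤ)) =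
      ((m : ℤ) * δ.2) • (e, (j : ℤ)) + p • ((m : ℤ), (0 : ℤ)) := by
    refine Prod.ext ?_ ?_
    · simp only [Prod.fst_add, Prod.smul_fst]
      simp only [nsmul_eq_mul, smul_eq_mul, Nat.cast_mul]
      linear_combination (m : ℤ) * hpq
    · simp only [Prod.snd_add, Prod.smul_snd]
      simp only [nsmul_eq_mul, smul_eq_mul, Nat.cast_mul]
      ring
  have h2 := congrArg (fun γ => χ (mon m γ)) h1
  simp only [mon_add, map_mul, hF, hU, ← mon_pow, mon_sig, map_pow, map_ofNat, one_zpow,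
    one_mul] at h2
  exact ⟨m * j, p, q, mul_ne_zero (NeZero.ne m) (by omega), h2⟩

/-- rigidity: apply `χ` (`|χ t| ^ m = 2`, `χ U = 1`, so `|χ (mon γ)| ^ (m J)` is a power of two):
`|nv / a|` is a rational number with a power in `2 ^ ℤ`, so the odd parts of `a` and `nv` agree up
to sign; `nv_lowest` and `4 M < 2 ^ D` give a single term and `a = ± 2 ^ s`, a unit (`mon_sig`);
the sign `a = + u 2 ^ s` would give `1 + mon γ' ∈ aa`. -/
theorem v_rigid {m : ℕ} [NeZero m] {aa : Ideal (GR m ℤ)} {e J : ℤ} (hJ : 0 < J)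
    (hU : mon m (e, J) - 1 ∈ aa) (χ : GR m ℤ →+* ℂ) (hχ : ∀ f ∈ aa, χ f = 0)
    (hno : ∀ γ, 1 + mon m γ ∉ aa) {M D n : ℕ} (hM : 1 ≤ M) (hD : 4 * M < 2 ^ D) (γ γ₀ : ℤ × ℤ)
    {a : ℤ} (ε : Fin n → SignType) (ha : a ≠ 0) (haM : |a| ≤ 2 * M)
    (h : a • mon m γ + nv D ε • mon m γ₀ ∈ aa) :
    ∃ (i : Fin n) (s : ℕ) (u : SignType), u ≠ 0 ∧ ε = Pi.single i u ∧ a = -(u : ℤ) * 2 ^ s := by
  have hD1 : 1 ≤ D := by rcases D with _ | D <;> omega
  have hD' : 4 * (M : ℤ) < 2 ^ D := by exact_mod_cast hD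
  have hU' : χ (mon m (e, J)) = 1 := by
    have := hχ _ hU
    rwa [map_sub, map_one, sub_eq_zero] at this
  obtain ⟨N, p, q, hN, hp⟩ := vari_pow hJ χ hU' (γ - γ₀)
  have h1 : (a : ℂ) * χ (mon m (γ - γ₀)) = -(nv D ε : ℤ) := by
    have h2 := hχ _ (aa.mul_mem_right (mon m (-γ₀)) h)
    rw [add_mul, smul_mul_assoc, smul_mul_assoc, mon_mul_neg, ← mon_add, ← sub_eq_add_neg, map_add,
      map_zsmul, map_zsmul, map_one, zsmul_eq_mul, zsmul_eq_mul, mul_one] at h2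
    exact eq_neg_of_add_eq_zero_left h2
  have h3 : a ^ N * 2 ^ p = (-nv D ε) ^ N * 2 ^ q := by
    have h4 : (a : ℂ) ^ N * 2 ^ p = (-(nv D ε : ℤ)) ^ N * 2 ^ q := by
      rw [← h1, ← hp, mul_pow, mul_assoc]
    exact_mod_cast h4
  have hε : ε ≠ 0 := by
    rintro rfl
    have h0 : nv D (0 : Fin n → SignType) = 0 := by simp [nv]
    rw [h0, neg_zero, zero_pow hN, zero_mul] at h3
    exact mul_ne_zero (pow_ne_zero _ ha) (pow_ne_zero _ two_ne_zero) h3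
  obtain ⟨i, z, hi, hz, hs⟩ := nv_lowest hD1 hε
  obtain ⟨s, b, hb, rfl⟩ := vari_split ha
  have hu : (ε i : ℤ) = 1 ∨ (ε i : ℤ) = -1 := by
    revert hi
    rcases ε i with _ | _ | _ <;> simp
  have hw : Odd (-((ε i : ℤ) + 2 ^ D * z)) := by
    obtain ⟨D', rfl⟩ := Nat.exists_eq_add_of_le' hD1
    refine (Odd.add_even ?_ ⟨2 ^ D' * z, by ring⟩).neg
    rcases hu with hu | hu <;> rw [hu] <;> decide
  have h5 : b ^ N = (-((ε i : ℤ) + 2 ^ D * z)) ^ N :=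
    vari_odd (p := s * N + p) (q := i * D * N + q) hb.pow hw.pow (by
      rw [hz, ← mul_neg, mul_pow, mul_pow, ← pow_mul, ← pow_mul] at h3
      rw [pow_add, pow_add]
      linear_combination h3)
  have h6 : |b| = |(ε i : ℤ) + 2 ^ D * z| := by
    have h7 := congrArg abs h5
    rw [abs_pow, abs_pow, abs_neg] at h7
    exact (pow_left_inj₀ (abs_nonneg _) (abs_nonneg _) hN).1 h7
  have h8 : |b| ≤ 2 * M := by
    refine le_trans ?_ haM
    rw [abs_mul, abs_pow, abs_two]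
    exact le_mul_of_one_le_right (abs_nonneg _) (one_le_pow₀ one_le_two)
  have hz0 : z = 0 := by
    by_contra h0
    have h9 : (2 : ℤ) ^ D ≤ |2 ^ D * z| := by
      rw [abs_mul, abs_pow, abs_two]
      exact le_mul_of_one_le_right (by positivity) (Int.one_le_abs h0)
    have h10 := abs_add_le ((ε i : ℤ) + 2 ^ D * z) (-(ε i : ℤ))
    have h11 : |-(ε i : ℤ)| = 1 := by rcases hu with hu | hu <;> rw [hu] <;> decide
    rw [add_neg_cancel_comm, h11] at h10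
    omega
  rw [hz0, mul_zero, add_zero] at h6 hz
  rcases abs_eq_abs.1 h6 with h7 | h7
  · refine absurd ?_ (hno (γ₀ + ((i : ℕ) * D) • ((m : ℤ), 0) + -(γ + s • ((m : ℤ), 0))))
    rw [hz, h7, mul_comm (2 ^ _), mul_smul, mul_smul, vari_two, vari_two, ← smul_add] at h
    have h9 : mon m (γ + s • ((m : ℤ), 0)) + mon m (γ₀ + ((i : ℕ) * D) • ((m : ℤ), 0)) ∈ aa := by
      rcases hu with hu | hu <;> rw [hu] at h
      · rwa [one_smul] at h
      · rwa [neg_smul, one_smul, neg_mem_iff] at h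
    have h10 := aa.mul_mem_right (mon m (-(γ + s • ((m : ℤ), 0)))) h9
    rwa [add_mul, mon_mul_neg, ← mon_add] at h10
  · exact ⟨i, s, ε i, hi, hs hz0, by rw [h7]⟩

end Pool.Agent.GK
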