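import Pool.Agent.Lib.MP_a01f70_lc.GK.Bas
import Pool.Agent.Lib.MP_a01f70_lc.GK.Avg

namespace Pool.Agent.GK
open Finset Polynomial

/-- `∑ ε i 2 ^ (i D)` -/
def nv (D : ℕ) {n : ℕ} (ε : Fin n → SignType) : ℤ := ∑ i, (ε i : ℤ) * 2 ^ ((i : ℕ) * D)

/-- `∏ (1 - sin (2 π 2 ^ (i D) x))` -/
noncomputable def tilt (D n : ℕ) (x : Tc) : ℝ :=
  ∏ i : Fin n, (1 - (ee (2 ^ ((i : ℕ) * D) • x)).im)

/-- coefficient of `e(u x)` in `1 - sin (2 π x)` -/
noncomputable def tco (u : SignType) : ℂ := if u = 0 then 1 else (u : ℂ) * Complex.I / 2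

theorem v_avg (Q : Type) [AddCommGroup Q] (S : Finset Q) :
    ∃ (ι : Type) (_ : Fintype ι) (θ : ι → Q →+ Tc), 0 < Fintype.card ι ∧
      ∀ q ∈ S, q ≠ 0 → ∑ i, ee (θ i q) = 0 := by
  obtain ⟨ι, _, _, θ, h⟩ := exists_avg S
  refine ⟨ι, inferInstance, θ, Fintype.card_pos, fun q hq h0 => ?_⟩
  have := h q hq
  rw [if_neg h0] at this
  simpa only [fourier_one, ee] using this

theorem tilt_nonneg (D n : ℕ) (x : Tc) : 0 ≤ tilt D n x :=
  prod_nonneg fun _ _ => sub_nonneg.2 ((Complex.im_le_norm _).trans (norm_ee _).le)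

theorem vavg_one (k : ℕ) (x : Tc) : ((1 - (ee (k • x)).im : ℝ) : ℂ) =
    ∑ u : SignType, tco u * ee (((u : ℤ) * k) • x) := by
  rw [SignType.univ_eq, sum_insert (by decide), sum_insert (by decide), sum_singleton]
  apply Complex.ext <;> simp [tco, ee_zero, ee_neg] <;> ring

/-- `Finset.prod_univ_sum` -/
theorem tilt_eq (D n : ℕ) (x : Tc) :
    (tilt D n x : ℂ) = ∑ ε : Fin n → SignType, (∏ i, tco (ε i)) * ee (nv D ε • x) := by
  simp only [tilt, Complex.ofReal_prod, vavg_one]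
  rw [prod_univ_sum, Fintype.piFinset_univ]
  refine sum_congr rfl fun ε _ => ?_
  simp only [prod_mul_distrib, nv, sum_smul, ee_sum, Nat.cast_pow, Nat.cast_ofNat]

theorem vavg_succ (D : ℕ) {n : ℕ} (ε : Fin (n + 1) → SignType) :
    nv D ε = (ε 0 : ℤ) + 2 ^ D * nv D (Fin.tail ε) := by
  simp only [nv, Fin.sum_univ_succ, mul_sum, Fin.tail, Fin.val_succ, Fin.val_zero, zero_mul,
    pow_zero, mul_one, add_mul, one_mul, pow_add]
  exact congrArg _ (sum_congr rfl fun i _ => by ring)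

theorem vavg_zero {D n : ℕ} (hD : 1 ≤ D) {ε : Fin n → SignType} (h : nv D ε = 0) : ε = 0 := by
  induction n with
  | zero => exact Subsingleton.elim _ _
  | succ n ih =>
    obtain ⟨D, rfl⟩ := Nat.exists_eq_add_of_le' hD
    rw [vavg_succ] at h
    have h0 : ε 0 = 0 := by
      rw [pow_succ', mul_assoc] at h
      generalize ε 0 = u at h
      cases u <;> simp at h ⊢ <;> omega
    rw [h0] at h
    have := ih (ε := Fin.tail ε) (by simpa using h)
    funext j
    exact Fin.cases h0 (fun j => congrFun this j) j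

/-- lowest nonzero term: `nv D ε = 2 ^ (i D) (u + 2 ^ D z)`, and `z = 0` only for a single term -/
theorem nv_lowest {D n : ℕ} (hD : 1 ≤ D) {ε : Fin n → SignType} (h : ε ≠ 0) :
    ∃ (i : Fin n) (z : ℤ), ε i ≠ 0 ∧ nv D ε = 2 ^ ((i : ℕ) * D) * ((ε i : ℤ) + 2 ^ D * z) ∧
      (z = 0 → ε = Pi.single i (ε i)) := by
  induction n with
  | zero => exact absurd (Subsingleton.elim _ _) h
  | succ n ih =>
    by_cases h0 : ε 0 = 0
    · obtain ⟨i, z, h1, h2, h3⟩ := ih (ε := Fin.tail ε) fun k =>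
        h (funext fun j => Fin.cases h0 (fun j => congrFun k j) j)
      refine ⟨i.succ, z, h1, ?_, fun hz => funext fun j => Fin.cases ?_ (fun j => ?_) j⟩
      · rw [vavg_succ, h0, h2, Fin.val_succ, add_mul _ 1, pow_add, one_mul, Fin.tail]
        simp only [SignType.coe_zero]
        ring
      · rw [h0, Pi.single_eq_of_ne (Fin.succ_ne_zero i).symm]
      · simpa [Pi.single_apply, Fin.tail] using congrFun (h3 hz) j
    · refine ⟨0, nv D (Fin.tail ε), h0, by simp [vavg_succ], fun hz =>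
        funext fun j => Fin.cases (by simp) (fun j => ?_) j⟩
      rw [Pi.single_eq_of_ne (Fin.succ_ne_zero j)]
      exact congrFun (vavg_zero hD hz) j

theorem nv_eq_zero {D n : ℕ} (hD : 1 ≤ D) {ε : Fin n → SignType} (h : nv D ε = 0) : ε = 0 :=
  vavg_zero hD h

theorem nv_single (D : ℕ) {n : ℕ} (i : Fin n) (u : SignType) :
    nv D (Pi.single i u : Fin n → SignType) = (u : ℤ) * 2 ^ ((i : ℕ) * D) := by
  rw [nv, sum_eq_single i (fun j _ hj => by simp [hj]) (by simp), Pi.single_eq_same]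

end Pool.Agent.GK
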