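import Pool.Agent.Lib.MP_a01f70_lc.GK.Vavg

namespace Pool.Agent.GK
open Finset Polynomial

variable {Q ι : Type} [AddCommGroup Q] [Fintype ι] (θ : ι → Q →+ Tc) {D n : ℕ} {g₀ g : Q}

theorem v_tilt (hD : 1 ≤ D) (hinj : ∀ k : ℤ, k • g₀ = 0 → k = 0)
    (horth : ∀ ε : Fin n → SignType, nv D ε • g₀ ≠ 0 → ∑ i, ee (θ i (nv D ε • g₀)) = 0) :
    ∑ i, tilt D n (θ i g₀) = Fintype.card ι := by
  have : ((∑ i, tilt D n (θ i g₀) : ℝ) : ℂ) = (Fintype.card ι : ℝ) := by
    push_cast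
    simp only [tilt_eq, ← map_zsmul]
    rw [sum_comm]
    simp only [← mul_sum]
    rw [sum_eq_single 0]
    · simp [tco, nv, ee_zero]
    · intro ε _ hε
      rw [horth ε fun h => hε (nv_eq_zero hD (hinj _ h)), mul_zero]
    · simp
  exact_mod_cast this

theorem vsite_prod (i : Fin n) (u : SignType) :
    ∏ j, tco ((Pi.single i u : Fin n → SignType) j) = tco u := by
  rw [prod_eq_single i]
  · simp
  · intro j _ hj
    simp [Pi.single_eq_of_ne hj, tco]
  · simp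

open Classical in
/-- Expand with `ψ_eq` and `tilt_eq`; only pairs `(a, ε)` with `a • g + nv D ε • g₀ = 0` survive.
`a = 0`: `ε = 0`, term `q 0 / 2`. `a = ± 1`: terms `σ 1 / 4 ≥ 0`. `a = ± 2 ^ s`, `1 ≤ s ≤ log`:
at most one `ε` for each `a` (`hinj`), modulus `≤ μ / 4`. -/
theorem v_site {μ : ℝ} (t : Trig μ) (h0 : 0 ≤ μ) (h1 : μ ≤ 1 / 2) (hD : 1 ≤ D)
    (hinj : ∀ k : ℤ, k • g₀ = 0 → k = 0)
    (horth : ∀ (a : ℤ) (ε : Fin n → SignType), |a| ≤ 2 * t.M → a • g + nv D ε • g₀ ≠ 0 →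
      ∑ i, ee (θ i (a • g + nv D ε • g₀)) = 0)
    (hrig : ∀ (a : ℤ) (ε : Fin n → SignType), a ≠ 0 → |a| ≤ 2 * t.M → a • g + nv D ε • g₀ = 0 →
      ∃ (i : Fin n) (s : ℕ) (u : SignType), u ≠ 0 ∧ ε = Pi.single i u ∧ a = -(u : ℤ) * 2 ^ s) :
    Fintype.card ι * (1 / 2 - μ * (Nat.log 2 (2 * t.M) + 2) +
        if ∃ i : Fin n, g = 2 ^ ((i : ℕ) * D) • g₀ then t.σ 1 / 4 else 0)
      ≤ ∑ i, t.ψ (θ i g) * tilt D n (θ i g₀) := by
  let F : ℤ × (Fin n → SignType) → ℝ := fun p => if p.1 • g + nv D p.2 • g₀ = 0 then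
    ((t.q p.1 + Complex.I * t.σ p.1) / 2 * ∏ j, tco (p.2 j)).re else 0
  have hσ0 : t.σ 0 = 0 := t.σ_even 0 (by simp)
  have hσ1 : 0 ≤ t.σ 1 := by
    have h2 : 1 / 2 ≤ 2 / Real.pi := by
      rw [div_le_div_iff₀ (by norm_num) Real.pi_pos]
      linarith [Real.pi_le_four]
    linarith [t.σ_one]
  have hq1 : t.q 1 = 0 := t.q_odd 1 odd_one
  have hq1' : t.q (-1) = 0 := by rw [t.q_neg, hq1]
  have hsum : ∑ i, t.ψ (θ i g) * tilt D n (θ i g₀)
      = Fintype.card ι * ∑ p ∈ Icc (-(2 * t.M : ℤ)) (2 * t.M) ×ˢ univ, F p := by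
    have h2 : ((∑ i, t.ψ (θ i g) * tilt D n (θ i g₀) : ℝ) : ℂ) =
        ∑ p ∈ Icc (-(2 * t.M : ℤ)) (2 * t.M) ×ˢ (univ : Finset (Fin n → SignType)),
          ((t.q p.1 + Complex.I * t.σ p.1) / 2 * ∏ j, tco (p.2 j)) *
            ∑ i, ee (θ i (p.1 • g + nv D p.2 • g₀)) := by
      push_cast
      simp only [t.ψ_eq, tilt_eq, sum_mul_sum]
      simp only [mul_sum, sum_product]
      rw [sum_comm]
      refine sum_congr rfl fun a _ => ?_
      rw [sum_comm]
      refine sum_congr rfl fun ε _ => sum_congr rfl fun i _ => ?_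
      rw [map_add, map_zsmul, map_zsmul, ee_add]
      ring
    have h3 := congrArg Complex.re h2
    rw [Complex.ofReal_re, Complex.re_sum] at h3
    rw [h3, mul_sum]
    refine sum_congr rfl fun p hp => ?_
    simp only [F]
    split_ifs with h
    · simp only [h, map_zero, ee_zero, sum_const, card_univ, nsmul_eq_mul, mul_one]
      rw [mul_comm, ← Complex.ofReal_natCast, Complex.re_ofReal_mul]
    · rw [horth p.1 p.2 (abs_le.mpr (mem_Icc.mp (mem_product.mp hp).1)) h]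
      simp
  have hF0 : F (0, 0) = t.q 0 / 2 := by simp [F, nv, tco, hσ0]
  have hF : ∀ p ∈ Icc (-(2 * t.M : ℤ)) (2 * t.M) ×ˢ (univ : Finset (Fin n → SignType)),
      0 ≤ F p := by
    rintro ⟨a, ε⟩ hp
    by_cases h : a • g + nv D ε • g₀ = 0
    swap
    · simp [F, h]
    by_cases ha : a = 0
    · subst ha
      rw [zero_smul, zero_add] at h
      rw [nv_eq_zero hD (hinj _ h), hF0]
      linarith [t.q_zero]
    obtain ⟨i, s, u, hu, rfl, rfl⟩ :=
      hrig a ε ha (abs_le.mpr (mem_Icc.mp (mem_product.mp hp).1)) h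
    simp only [F, if_pos h, vsite_prod]
    rcases s with _ | s
    · rcases u with _ | _ | _
      · exact absurd rfl hu
      · simp [tco, hq1]
        linarith
      · simp [tco, hq1', t.σ_neg]
        linarith
    · rw [t.σ_even _ (by rw [pow_succ, ← mul_assoc]; exact even_two.mul_left _)]
      rcases u with _ | _ | _
      · exact absurd rfl hu
      · simp [tco]
      · simp [tco]
  have hM : (1 : ℤ) ≤ t.M := by exact_mod_cast t.one_le
  have hlog : μ / 2 ≤ μ * (Nat.log 2 (2 * t.M) + 2) := by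
    have : (0 : ℝ) ≤ Nat.log 2 (2 * t.M) := by positivity
    nlinarith
  rw [hsum]
  refine mul_le_mul_of_nonneg_left ?_ (by positivity)
  have m0 : ((0 : ℤ), (0 : Fin n → SignType)) ∈ Icc (-(2 * t.M : ℤ)) (2 * t.M) ×ˢ univ := by
    simp
  split_ifs with h
  · obtain ⟨i, hi⟩ := h
    have m1 : ((-1 : ℤ), (Pi.single i 1 : Fin n → SignType))
        ∈ Icc (-(2 * t.M : ℤ)) (2 * t.M) ×ˢ univ := by
      simp only [mem_product, mem_Icc, mem_univ, and_true]
      omega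
    have h2 := add_le_sum hF m0 m1 (by simp)
    have h3 : F (-1, Pi.single i 1) = t.σ 1 / 4 := by
      have : (-1 : ℤ) • g + nv D (Pi.single i 1 : Fin n → SignType) • g₀ = 0 := by
        rw [nv_single, hi, ← natCast_zsmul]
        simp
      simp only [F, if_pos this, vsite_prod]
      simp [tco, hq1', t.σ_neg]
      ring
    linarith [t.q_zero]
  · have h2 := single_le_sum hF m0
    linarith [t.q_zero]

end Pool.Agent.GK
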