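import Pool.Agent.Lib.MP_a01f70_lc.GK.Vari
import Pool.Agent.Lib.MP_a01f70_lc.GK.Vsite
import Pool.Agent.Lib.MP_a01f70_lc.GK.TrigE

namespace Pool.Agent.GK
open Finset Polynomial

/-- the parameters: `exists_trig`, `μ (log M + 3) ^ 2 → 0` -/
theorem v_param (K : ℝ) : ∃ (μ : ℝ) (t : Trig μ) (D : ℕ), 0 < μ ∧ μ ≤ 1 / 2 ∧ 1 ≤ D ∧
    4 * t.M < 2 ^ D ∧ K * D * (μ * (Nat.log 2 (2 * t.M) + 2)) ≤ t.σ 1 ∧ 1 / 8 ≤ t.σ 1 := by
  obtain ⟨c, hc⟩ := exists_trig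
  have hlim : Filter.Tendsto (fun k : ℕ => |K| * ((c : ℝ) + 3) ^ 2 * ((k : ℝ) ^ 2 / 2 ^ k))
      Filter.atTop (nhds 0) := by
    have := (tendsto_pow_const_div_const_pow_of_one_lt 2 (r := 2) one_lt_two).const_mul
      (|K| * ((c : ℝ) + 3) ^ 2)
    rwa [mul_zero] at this
  obtain ⟨k, hk, hk1⟩ := ((hlim.eventually (gt_mem_nhds (show (0 : ℝ) < 1 / 8 by norm_num))).and
    (Filter.eventually_ge_atTop 1)).exists
  have hp : (0 : ℝ) < 2 ^ k := by positivity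
  have h2 : (2 : ℝ) ≤ 2 ^ k := by
    simpa using pow_le_pow_right₀ (one_le_two (α := ℝ)) hk1
  have hμ0 : (0 : ℝ) < (2 ^ k)⁻¹ := inv_pos.2 hp
  have hμ1 : ((2 : ℝ) ^ k)⁻¹ ≤ 1 / 2 := by
    rw [one_div]
    exact inv_anti₀ two_pos h2
  obtain ⟨t, ht⟩ := hc _ hμ0 hμ1
  rw [inv_inv, ← pow_mul] at ht
  have hM : t.M ≤ 2 ^ (k * c) := by exact_mod_cast ht
  have hlog : Nat.log 2 (2 * t.M) ≤ k * c + 1 := by
    have h3 : 2 * t.M ≤ 2 ^ (k * c + 1) := by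
      rw [pow_succ]
      omega
    have := Nat.log_mono_right (b := 2) h3
    rwa [Nat.log_pow one_lt_two] at this
  have hσ : 1 / 8 ≤ t.σ 1 := by
    have h3 := t.σ_one
    have h4 : (5 / 8 : ℝ) ≤ 2 / Real.pi := by
      rw [le_div_iff₀ Real.pi_pos]
      linarith [Real.pi_lt_d2]
    linarith
  refine ⟨_, t, Nat.log 2 (2 * t.M) + 2, hμ0, hμ1, by omega, ?_, ?_, hσ⟩
  · have := Nat.lt_pow_succ_log_self (b := 2) one_lt_two (2 * t.M)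
    rw [Nat.succ_eq_add_one] at this
    rw [show Nat.log 2 (2 * t.M) + 2 = Nat.log 2 (2 * t.M) + 1 + 1 from rfl, pow_succ]
    omega
  · have hk' : (1 : ℝ) ≤ k := by exact_mod_cast hk1
    have h5 : ((Nat.log 2 (2 * t.M) : ℕ) : ℝ) ≤ k * c + 1 := by exact_mod_cast hlog
    have hc0 : (0 : ℝ) ≤ c := Nat.cast_nonneg c
    have h6 : ((Nat.log 2 (2 * t.M) : ℕ) : ℝ) + 2 ≤ (c + 3) * k := by nlinarith
    have h7 : (0 : ℝ) ≤ ((Nat.log 2 (2 * t.M) : ℕ) : ℝ) + 2 := by positivity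
    have h8 := pow_le_pow_left₀ h7 h6 2
    push_cast
    generalize ((Nat.log 2 (2 * t.M) : ℕ) : ℝ) + 2 = L at h7 h8
    calc K * L * ((2 ^ k)⁻¹ * L) = K * (L ^ 2 * (2 ^ k)⁻¹) := by ring
      _ ≤ |K| * (L ^ 2 * (2 ^ k)⁻¹) := mul_le_mul_of_nonneg_right (le_abs_self K) (by positivity)
      _ ≤ |K| * (((c + 3) * k) ^ 2 * (2 ^ k)⁻¹) := by gcongr
      _ = |K| * ((c : ℝ) + 3) ^ 2 * ((k : ℝ) ^ 2 / 2 ^ k) := by ring
      _ ≤ t.σ 1 := by linarith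

theorem Vlem_le {F : ℕ → ℝ} {k : ℕ} {c : ℝ} (h : ∀ i < k, c ≤ F i) :
    k * c ≤ ∑ i ∈ range k, F i := by
  have := card_nsmul_le_sum (range k) F c fun i hi => h i (mem_range.1 hi)
  rwa [card_range, nsmul_eq_mul] at this

theorem Vlem_sub {F : ℕ → ℝ} (hF : ∀ x, 0 ≤ F x) (f : ℕ → ℕ) {k N : ℕ} (hf : ∀ i < k, f i < N)
    (inj : Function.Injective f) : ∑ i ∈ range k, F (f i) ≤ ∑ x ∈ range N, F x := by
  rw [← sum_image (s := range k) (g := f) inj.injOn]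
  refine sum_le_sum_of_subset_of_nonneg (fun x hx => ?_) fun x _ _ => hF x
  obtain ⟨i, hi, rfl⟩ := mem_image.1 hx
  exact mem_range.2 (hf i (mem_range.1 hi))

open Classical in
/-- the gain at a site -/
noncomputable def Vlem_w {m : ℕ} (aa : Ideal (GR m ℤ)) (c : ℝ) (D n : ℕ) (γ₀ γ : ℤ × ℤ) : ℝ :=
  if ∃ i : Fin n, Ideal.Quotient.mk aa (mon m γ) =
    2 ^ ((i : ℕ) * D) • Ideal.Quotient.mk aa (mon m γ₀) then c else 0

theorem Vlem_w_nonneg {m : ℕ} (aa : Ideal (GR m ℤ)) {c : ℝ} (hc : 0 ≤ c) (D n : ℕ)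
    (γ₀ γ : ℤ × ℤ) : 0 ≤ Vlem_w aa c D n γ₀ γ := by
  unfold Vlem_w
  split_ifs
  · exact hc
  · exact le_rfl

open Classical in
theorem Vlem_ineq {m : ℕ} [NeZero m] {aa : Ideal (GR m ℤ)} {e J : ℤ} (hJ : 0 < J)
    (hU : mon m (e, J) - 1 ∈ aa) (χ : GR m ℤ →+* ℂ) (hχ : ∀ f ∈ aa, χ f = 0)
    (hno : ∀ γ, 1 + mon m γ ∉ aa) {μ : ℝ} (t : Trig μ) (h0 : 0 ≤ μ) (h1 : μ ≤ 1 / 2) {D : ℕ}
    (hD : 1 ≤ D) (hD' : 4 * t.M < 2 ^ D) (N T : ℕ) (Bd : ℝ)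
    (hB : ∀ Y : GR m ℤ →+ Tc, (∀ f ∈ aa, Y f = 0) →
      ∑ l ∈ range T, ∑ x ∈ range N, t.ψ (Y (mon m ((x : ℤ), -(l : ℤ)))) ≤ Bd)
    (n : ℕ) (γ₀ : ℤ × ℤ) :
    ∑ l ∈ range T, ∑ x ∈ range N, (1 / 2 - μ * (Nat.log 2 (2 * t.M) + 2) +
      Vlem_w aa (t.σ 1 / 4) D n γ₀ ((x : ℤ), -(l : ℤ))) ≤ Bd := by
  obtain ⟨ι, _, θ, hcard, hθ⟩ := v_avg (GR m ℤ ⧸ aa)
    ((((range T ×ˢ range N) ×ˢ Icc (-(2 * t.M : ℤ)) (2 * t.M)) ×ˢ
      (univ : Finset (Fin n → SignType))).image (fun z =>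
        z.1.2 • Ideal.Quotient.mk aa (mon m ((z.1.1.2 : ℤ), -(z.1.1.1 : ℤ))) +
          nv D z.2 • Ideal.Quotient.mk aa (mon m γ₀)) ∪
      (univ : Finset (Fin n → SignType)).image fun ε => nv D ε • Ideal.Quotient.mk aa (mon m γ₀))
  have hinj : ∀ k : ℤ, k • Ideal.Quotient.mk aa (mon m γ₀) = 0 → k = 0 := by
    intro k hk
    rw [← map_zsmul, Ideal.Quotient.eq_zero_iff_mem] at hk
    have h2 := hχ _ hk
    rw [map_zsmul, zsmul_eq_mul, mul_eq_zero] at h2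
    rcases h2 with h2 | h2
    · exact_mod_cast h2
    · exact absurd h2 ((isUnit_mon γ₀).map χ).ne_zero
  have htilt : ∑ i, tilt D n (θ i (Ideal.Quotient.mk aa (mon m γ₀))) = Fintype.card ι :=
    v_tilt θ hD hinj fun ε hε =>
      hθ _ (mem_union_right _ (mem_image.2 ⟨ε, mem_univ _, rfl⟩)) hε
  have hc : (0 : ℝ) < Fintype.card ι := by exact_mod_cast hcard
  refine le_of_mul_le_mul_left ?_ hc
  calc _ = ∑ l ∈ range T, ∑ x ∈ range N, (Fintype.card ι : ℝ) *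
        (1 / 2 - μ * (Nat.log 2 (2 * t.M) + 2) +
          Vlem_w aa (t.σ 1 / 4) D n γ₀ ((x : ℤ), -(l : ℤ))) := by
        simp only [mul_sum]
    _ ≤ ∑ l ∈ range T, ∑ x ∈ range N, ∑ i,
        t.ψ (θ i (Ideal.Quotient.mk aa (mon m ((x : ℤ), -(l : ℤ))))) *
          tilt D n (θ i (Ideal.Quotient.mk aa (mon m γ₀))) := by
        refine sum_le_sum fun l hl => sum_le_sum fun x hx => ?_
        refine v_site θ t h0 h1 hD hinj (fun a ε ha hne => hθ _ (mem_union_left _ (mem_image.2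
          ⟨(((l, x), a), ε), ?_, rfl⟩)) hne) fun a ε ha haM hz => ?_
        · simp only [mem_product, mem_univ, and_true]
          exact ⟨⟨hl, hx⟩, mem_Icc.2 (abs_le.1 ha)⟩
        · rw [← map_zsmul, ← map_zsmul, ← map_add, Ideal.Quotient.eq_zero_iff_mem] at hz
          exact v_rigid hJ hU χ hχ hno t.one_le hD' _ γ₀ ε ha haM hz
    _ = ∑ i, (∑ l ∈ range T, ∑ x ∈ range N,
        t.ψ (θ i (Ideal.Quotient.mk aa (mon m ((x : ℤ), -(l : ℤ)))))) *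
          tilt D n (θ i (Ideal.Quotient.mk aa (mon m γ₀))) := by
        simp only [sum_mul]
        rw [sum_comm (s := univ)]
        refine sum_congr rfl fun l _ => ?_
        rw [sum_comm]
    _ ≤ ∑ i, Bd * tilt D n (θ i (Ideal.Quotient.mk aa (mon m γ₀))) := by
        refine sum_le_sum fun i _ => mul_le_mul_of_nonneg_right ?_ (tilt_nonneg _ _ _)
        refine hB ((θ i).comp (Ideal.Quotient.mk aa).toAddMonoidHom) fun f hf => ?_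
        show θ i (Ideal.Quotient.mk aa f) = 0
        rw [Ideal.Quotient.eq_zero_iff_mem.2 hf, map_zero]
    _ = Fintype.card ι * Bd := by rw [← mul_sum, htilt, mul_comm]

theorem Vlem_site {m : ℕ} [NeZero m] {aa : Ideal (GR m ℤ)} {e J : ℤ}
    (hU : mon m (e, J) - 1 ∈ aa) (w : ℤ) (s k : ℕ) :
    Ideal.Quotient.mk aa (mon m (w - s * e + k * m, -(s * J))) =
      2 ^ k • Ideal.Quotient.mk aa (mon m (w, 0)) := by
  have h1 : Ideal.Quotient.mk aa (mon m (e, J)) = 1 := by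
    rw [← map_one (Ideal.Quotient.mk aa)]
    exact Ideal.Quotient.eq.2 hU
  have h2 : mon m (w - s * e + k * m, -(s * J)) * mon m (e, J) ^ s =
      2 ^ k • mon m (w, (0 : ℤ)) := by
    rw [nsmul_eq_mul, Nat.cast_pow, Nat.cast_ofNat, ← mon_sig (Λ := ℤ), mon_pow, mon_pow, ← mon_add,
      ← mon_add]
    congr 1
    ext
    · simp
      ring
    · simp
  have h3 := congrArg (Ideal.Quotient.mk aa) h2
  rwa [map_mul, map_pow, h1, one_pow, mul_one, map_nsmul] at h3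

/-- (V). Suppose not. `Q = GR m ℤ ⧸ aa`, `K = 8 m J`, `T = J T₀` with `T₀ / (64 D) > C₁ + 1`,
`H = 2 T₀ |e| + n D`, `γ₀ = (T₀ |e|, 0)`; family `θ i` from `v_avg`; `(0, θ i ∘ mk)` is valid, so
`0 ≤ ∑ i, (bound - ∑ sites ψ) * tilt`; `v_tilt`, `v_site`; the `n T₀` different sites
`γ₀ + i D (m, 0) - s (e, J)` (`i < n`, `s < T₀`) lie in the box and are `2 ^ (i D) mon γ₀` modulo
`aa`; let `n → ∞`. -/
theorem vlem {m : ℕ} [NeZero m] {A B : GR m ℤ} (h : Dpsi A B) (aa : Ideal (GR m ℤ))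
    (hI : ∀ η ξ, η * B = ξ * A → η ∈ aa) {e J : ℤ} (hJ : 0 < J) (hU : mon m (e, J) - 1 ∈ aa)
    (χ : GR m ℤ →+* ℂ) (hχ : ∀ f ∈ aa, χ f = 0) : ∃ γ, 1 + mon m γ ∈ aa := by
  by_contra hno
  push Not at hno
  obtain ⟨C₁, hC⟩ := h
  obtain ⟨Jn, rfl⟩ := Int.eq_ofNat_of_zero_le hJ.le
  have hJn : 0 < Jn := by exact_mod_cast hJ
  have hm : 0 < m := NeZero.pos m
  obtain ⟨μ, t, D, hμ, hμ1, hD, hD', hK, hσ⟩ := v_param (8 * m * Jn)
  obtain ⟨Lp, hLp⟩ := t.ψ_lip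
  obtain ⟨T₀, hT₀⟩ := exists_nat_gt (64 * D * (C₁ + 1))
  obtain ⟨C, hC⟩ := hC (Jn * T₀) t.ψ Lp t.ψ_le_dig hLp
  obtain ⟨E, hE⟩ : ∃ E : ℕ, (E : ℤ) = |e| := ⟨e.natAbs, Int.natCast_natAbs e⟩
  obtain ⟨δ, hδ⟩ : ∃ δ, δ = μ * (Nat.log 2 (2 * t.M) + 2) := ⟨_, rfl⟩
  obtain ⟨n, hn⟩ := exists_nat_gt (δ * (Jn * T₀) * (m * (2 * T₀ * E)) + C₁ * (2 * T₀ * E) + C)
  have key := Vlem_ineq hJ hU χ hχ hno t hμ.le hμ1 hD hD' (m * (2 * T₀ * E + n * D)) (Jn * T₀) _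
    (fun Y hY => by
      have := hC (2 * T₀ * E + n * D) 0 Y fun η ξ hη => hY η (hI η ξ hη)
      simpa only [AddMonoidHom.zero_apply, dig_zero, sub_zero] using this) n ((T₀ * E : ℤ), 0)
  rw [← hδ] at key hK
  simp only [sum_add_distrib, sum_const, card_range, nsmul_eq_mul] at key
  have hσ4 : 0 ≤ t.σ 1 / 4 := by linarith
  have hnn := Vlem_w_nonneg aa hσ4 D n ((T₀ * E : ℤ), 0)
  have low : (T₀ : ℝ) * (n * (t.σ 1 / 4)) ≤ ∑ l ∈ range (Jn * T₀),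
      ∑ x ∈ range (m * (2 * T₀ * E + n * D)),
        Vlem_w aa (t.σ 1 / 4) D n ((T₀ * E : ℤ), 0) ((x : ℤ), -(l : ℤ)) := by
    refine le_trans ?_ (Vlem_sub (fun l => sum_nonneg fun x _ => hnn _) (fun s => s * Jn) (k := T₀)
      (fun s hs => ?_) (mul_left_injective₀ hJn.ne'))
    · refine Vlem_le fun s hs => ?_
      have hs' : (s : ℤ) ≤ T₀ := by exact_mod_cast hs.le
      have hse : |(s : ℤ) * e| ≤ T₀ * E := by
        rw [abs_mul, Nat.abs_cast, hE]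
        exact mul_le_mul_of_nonneg_right hs' (abs_nonneg e)
      obtain ⟨w, hw⟩ : ∃ w : ℕ, (w : ℤ) = T₀ * E - s * e :=
        ⟨_, Int.toNat_of_nonneg (by linarith [(abs_le.1 hse).2])⟩
      have hw2 : w ≤ 2 * T₀ * E := by
        have : (w : ℤ) ≤ 2 * T₀ * E := by linarith [(abs_le.1 hse).1]
        exact_mod_cast this
      have hDm : 0 < D * m := Nat.mul_pos hD hm
      refine le_trans ?_ (Vlem_sub (fun x => hnn _) (fun i => w + i * (D * m)) (k := n)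
        (fun i hi => ?_) ((add_right_injective w).comp (mul_left_injective₀ hDm.ne')))
      · refine Vlem_le fun i hi => ?_
        rw [Vlem_w, if_pos]
        refine ⟨⟨i, hi⟩, ?_⟩
        rw [← Vlem_site hU (T₀ * E) s (i * D)]
        congr 3
        push_cast
        rw [hw]
        ring
      · have h2 : i * (D * m) < n * (D * m) := Nat.mul_lt_mul_of_pos_right hi hDm
        have h3 : 2 * T₀ * E ≤ m * (2 * T₀ * E) := Nat.le_mul_of_pos_left _ hm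
        have h4 : m * (2 * T₀ * E + n * D) = m * (2 * T₀ * E) + n * (D * m) := by ring
        omega
    · rw [mul_comm Jn]
      exact Nat.mul_lt_mul_of_pos_right hs hJn
  have fin := (add_le_add_right low _).trans key
  push_cast at fin
  have hn0 : (0 : ℝ) ≤ n := Nat.cast_nonneg n
  have hT0 : (0 : ℝ) ≤ T₀ := Nat.cast_nonneg T₀
  have hD1 : (1 : ℝ) ≤ D := by exact_mod_cast hD
  have a1 := mul_le_mul_of_nonneg_left hK (mul_nonneg hn0 hT0)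
  have a2 := mul_le_mul_of_nonneg_left hσ (mul_nonneg hn0 hT0)
  have a3 := mul_le_mul_of_nonneg_left hT₀.le hn0
  have a4 := mul_le_mul_of_nonneg_left hD1 hn0
  nlinarith

end Pool.Agent.GK
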